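import Mathlib

/-!
# Lusztig's conjectures P1-P15 for unequal parameters: definitions
-/

set_option autoImplicit false

namespace Pool.Agent.Helper63.LG.Pub

open scoped TensorProduct LaurentPolynomial

/-- The degree of the Laurent polynomial `a` is at most `n`. -/
def DegLe (n : ℤ) (a : LaurentPolynomial ℤ) : Prop := ∀ k, n < k → a.coeff k = 0

section group

variable {B : Type} (M : CoxeterMatrix B)

/-- The length function of the Coxeter group with Coxeter matrix `M`. -/
noncomputable def len (w : M.Group) : ℕ := M.toCoxeterSystem.length w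

/-- The simple reflections. -/
noncomputable def sm (b : B) : M.Group := M.toCoxeterSystem.simple b

/-- The parabolic subgroup generated by the simple reflections in `I`. -/
def par (I : Set B) : Subgroup M.Group := Subgroup.closure (sm M '' I)

/-- Positive weight functions. -/
structure IsWeight (L : M.Group → ℤ) : Prop where
  add : ∀ w w', len M (w * w') = len M w + len M w' → L (w * w') = L w + L w'
  pos : ∀ b, 0 < L (sm M b)

/-- The Hecke algebra of a weighted Coxeter group, with its standard basis `T`, the bar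
involution and the Kazhdan-Lusztig basis `C`. -/
structure KLD (L : M.Group → ℤ) (H : Type) [Ring H] [Algebra (LaurentPolynomial ℤ) H] where
  /-- the standard basis -/
  T : Module.Basis M.Group (LaurentPolynomial ℤ) H
  T_mul : ∀ w w', len M (w * w') = len M w + len M w' → T (w * w') = T w * T w'
  T_sq : ∀ b, T (sm M b) * T (sm M b) = 1 + (LaurentPolynomial.T (L (sm M b)) -
    LaurentPolynomial.T (-L (sm M b)) : LaurentPolynomial ℤ) • T (sm M b)
  /-- the bar involution -/
  bar : H →+* H
  bar_smul : ∀ (a : LaurentPolynomial ℤ) (h : H),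
    bar (a • h) = LaurentPolynomial.invert a • bar h
  bar_T : ∀ w, bar (T w) * T w⁻¹ = 1
  /-- the Kazhdan-Lusztig basis -/
  C : Module.Basis M.Group (LaurentPolynomial ℤ) H
  bar_C : ∀ w, bar (C w) = C w
  C_T : ∀ w y, DegLe (-1) (T.repr (C w - T w) y)

end group

namespace KLD

variable {B : Type} {M : CoxeterMatrix B} {L : M.Group → ℤ} {H : Type} [Ring H]
  [Algebra (LaurentPolynomial ℤ) H] (D : KLD M L H)

/-- The coefficients of `C w` in the basis `T`. -/
noncomputable def p (y w : M.Group) : LaurentPolynomial ℤ := D.T.repr (D.C w) y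

/-- The structure constants of the basis `C`. -/
noncomputable def h (x y z : M.Group) : LaurentPolynomial ℤ := D.C.repr (D.C x * D.C y) z

/-- The degrees of the structure constants are bounded. -/
def Bounded : Prop := ∃ N : ℕ, ∀ x y z, DegLe N (D.h x y z)

/-- Lusztig's function `a`. -/
noncomputable def a (w : M.Group) : ℕ := sSup {n : ℕ | ∃ x y, (D.h x y w).coeff n ≠ 0}

/-- The leading coefficients: `g x y z⁻¹` is the coefficient of degree `a z` in `h x y z`. -/
noncomputable def g (x y z : M.Group) : ℤ := (D.h x y z⁻¹).coeff (D.a z⁻¹)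

/-- `p_{e, z} = n q ^ (-d) +` terms of lower degree, with `n ≠ 0`. -/
def IsDelta (z : M.Group) (d n : ℤ) : Prop :=
  n ≠ 0 ∧ (D.p 1 z).coeff (-d) = n ∧ ∀ k, -d < k → (D.p 1 z).coeff k = 0

/-- The elements `z` with `a z = Δ z`. -/
def inD (z : M.Group) : Prop := ∃ n, D.IsDelta z (D.a z) n

/-- The elementary steps of the left preorder. -/
def stL (y w : M.Group) : Prop := ∃ b, D.h (sm M b) w y ≠ 0

/-- The elementary steps of the right preorder. -/
def stR (y w : M.Group) : Prop := ∃ b, D.h w (sm M b) y ≠ 0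

/-- The left preorder. -/
def leL (y w : M.Group) : Prop := Relation.ReflTransGen D.stL y w

/-- The right preorder. -/
def leR (y w : M.Group) : Prop := Relation.ReflTransGen D.stR y w

/-- The two-sided preorder. -/
def leLR (y w : M.Group) : Prop := Relation.ReflTransGen (fun y w => D.stL y w ∨ D.stR y w) y w

/-- The left equivalence; its classes are the left cells. -/
def simL (y w : M.Group) : Prop := D.leL y w ∧ D.leL w y

/-- The right equivalence. -/
def simR (y w : M.Group) : Prop := D.leR y w ∧ D.leR w y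

/-- The two-sided equivalence. -/
def simLR (y w : M.Group) : Prop := D.leLR y w ∧ D.leLR w y

/-- The function `a` of a parabolic subgroup. -/
noncomputable def aPar (I : Set B) (w : M.Group) : ℕ :=
  sSup {n : ℕ | ∃ x ∈ par M I, ∃ y ∈ par M I, (D.h x y w).coeff n ≠ 0}

/-- Lusztig's conjectures P1-P15. -/
structure Lus : Prop where
  P1 : ∀ w d n, D.IsDelta w d n → (D.a w : ℤ) ≤ d
  P2 : ∀ x y z, D.inD z → D.g x y z ≠ 0 → x = y⁻¹
  P3 : ∀ y, ∃! z, D.inD z ∧ D.g y⁻¹ y z ≠ 0
  P4 : ∀ w' w, D.leLR w' w → D.a w ≤ D.a w'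
  P5 : ∀ y z n, D.IsDelta z (D.a z) n → D.g y⁻¹ y z ≠ 0 → D.g y⁻¹ y z = n ∧ (n = 1 ∨ n = -1)
  P6 : ∀ z, D.inD z → z ^ 2 = 1
  P7 : ∀ x y z, D.g x y z = D.g y z x ∧ D.g y z x = D.g z x y
  P8 : ∀ x y z, D.g x y z ≠ 0 → D.simL x y⁻¹ ∧ D.simL y z⁻¹ ∧ D.simL z x⁻¹
  P9 : ∀ w' w, D.leL w' w → D.a w' = D.a w → D.simL w' w
  P10 : ∀ w' w, D.leR w' w → D.a w' = D.a w → D.simR w' w
  P11 : ∀ w' w, D.leLR w' w → D.a w' = D.a w → D.simLR w' w
  P12 : ∀ (I : Set B), ∀ w ∈ par M I, D.aPar I w = D.a w
  P13 : ∀ y, (∃! z, D.simL z y ∧ D.inD z) ∧ ∀ z, D.simL z y → D.inD z → D.g y⁻¹ y z ≠ 0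
  P14 : ∀ w, D.simLR w w⁻¹
  P15 : ∀ w w' x y, D.a x = D.a y →
    ((D.C.repr (D.C w * D.C x)).sum fun z c => c ⊗ₜ[ℤ] D.h z w' y) =
      ((D.C.repr (D.C x * D.C w')).sum fun z c => D.h w z y ⊗ₜ[ℤ] c)

end KLD

variable {B : Type}

/-- `(W, L)` has a Hecke algebra with a Kazhdan-Lusztig basis, it is bounded, and P1-P15 hold. -/
def Good (M : CoxeterMatrix B) (L : M.Group → ℤ) : Prop :=
  (∃ (H : Type) (_ : Ring H) (_ : Algebra (LaurentPolynomial ℤ) H), Nonempty (KLD M L H)) ∧
    ∀ (H : Type) [Ring H] [Algebra (LaurentPolynomial ℤ) H] (D : KLD M L H), D.Bounded ∧ D.Lus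

/-- Question Q1 for `(W, L)`: if it is bounded, then P1-P15 hold. -/
def Question (M : CoxeterMatrix B) (L : M.Group → ℤ) : Prop :=
  ∀ (H : Type) [Ring H] [Algebra (LaurentPolynomial ℤ) H] (D : KLD M L H), D.Bounded → D.Lus

/-- The Coxeter matrix of the parabolic subgroup `W_T`. -/
def sub (M : CoxeterMatrix B) (T : Set B) : CoxeterMatrix T where
  M := Matrix.of fun a b => M a.1 b.1
  isSymm := Matrix.IsSymm.ext fun a b => M.symmetric b.1 a.1
  diagonal a := M.diagonal a.1
  off_diagonal a b h := M.off_diagonal a.1 b.1 fun h' => h (Subtype.ext h')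

/-- The embedding of the parabolic subgroup `W_T` in `W`. -/
noncomputable def incl (M : CoxeterMatrix B) (T : Set B) : (sub M T).Group →* M.Group :=
  (sub M T).toCoxeterSystem.lift ⟨fun b => M.toCoxeterSystem.simple b.1, fun a b =>
    M.toCoxeterSystem.simple_mul_simple_pow a.1 b.1⟩

/-- The restriction of `L` to the parabolic subgroup `W_T`. -/
noncomputable def subL {M : CoxeterMatrix B} (L : M.Group → ℤ) (T : Set B) :
    (sub M T).Group → ℤ := fun w => L (incl M T w)

/-- For every division of the generators into two nonempty sets, some `s` in the first and `t` in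
the second set do not commute (the Coxeter graph is connected). -/
def Irred (M : CoxeterMatrix B) : Prop :=
  ∀ J : Set B, J.Nonempty → Jᶜ.Nonempty → ∃ s ∈ J, ∃ t ∈ Jᶜ, M s t ≠ 2

/-- For every division of the generators into two nonempty sets, `m s t < 5` for some `s` in the
first and `t` in the second set. -/
def Tight (M : CoxeterMatrix B) : Prop :=
  ∀ J : Set B, J.Nonempty → Jᶜ.Nonempty → ∃ s ∈ J, ∃ t ∈ Jᶜ, M s t < 5

end Pool.Agent.Helper63.LG.Pub
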