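import Pool.Agent.Helper63.LG.P4
import Pool.Agent.Helper63.LG.Pub

/-!
# Lusztig's conjectures P1-P15: large bonds, with the definitions of `Pub`
-/

set_option autoImplicit false

namespace Pool.Agent.Helper63.LG.Pub

variable {B : Type} {M : CoxeterMatrix B} {L : M.Group → ℤ}

theorem isWeight_iff : IsWeight M L ↔ Pool.Agent.Helper35.KL.IsWeight M L :=
  ⟨fun h => ⟨h.add, h.pos⟩, fun h => ⟨h.add, h.pos⟩⟩

section conv

variable {H : Type} [Ring H] [Algebra (LaurentPolynomial ℤ) H]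

/-- conversion -/
noncomputable def toK (D : KLD M L H) : Pool.Agent.Helper35.KL.KLD M L H where
  T := D.T
  T_mul := D.T_mul
  T_sq := D.T_sq
  bar := D.bar
  bar_smul := D.bar_smul
  bar_T := D.bar_T
  C := D.C
  bar_C := D.bar_C
  C_T := D.C_T

/-- conversion -/
noncomputable def ofK (D : Pool.Agent.Helper35.KL.KLD M L H) : KLD M L H where
  T := D.T
  T_mul := D.T_mul
  T_sq := D.T_sq
  bar := D.bar
  bar_smul := D.bar_smul
  bar_T := D.bar_T
  C := D.C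
  bar_C := D.bar_C
  C_T := D.C_T

theorem to_bounded (D : KLD M L H) : (toK D).Bounded ↔ D.Bounded := Iff.rfl

theorem to_lus (D : KLD M L H) : (toK D).Lus ↔ D.Lus :=
  ⟨fun h => ⟨h.P1, h.P2, h.P3, h.P4, h.P5, h.P6, h.P7, h.P8, h.P9, h.P10, h.P11, h.P12, h.P13,
    h.P14, h.P15⟩,
   fun h => ⟨h.P1, h.P2, h.P3, h.P4, h.P5, h.P6, h.P7, h.P8, h.P9, h.P10, h.P11, h.P12, h.P13,
    h.P14, h.P15⟩⟩

theorem to_of (D : Pool.Agent.Helper35.KL.KLD M L H) : toK (ofK D) = D := rfl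

end conv

theorem good_iff : Good M L ↔ Pool.Agent.Helper35.KL.BoundedP1P15 M L := by
  constructor
  · rintro ⟨⟨H, i1, i2, ⟨D⟩⟩, h⟩
    refine ⟨⟨H, i1, i2, ⟨toK D⟩⟩, fun H _ _ D => ?_⟩
    have h1 := h H (ofK D)
    exact ⟨(to_bounded (ofK D)).2 h1.1, (to_lus (ofK D)).2 h1.2⟩
  · rintro ⟨⟨H, i1, i2, ⟨D⟩⟩, h⟩
    refine ⟨⟨H, i1, i2, ⟨ofK D⟩⟩, fun H _ _ D => ?_⟩
    have h1 := h H (toK D)
    exact ⟨(to_bounded D).1 h1.1, (to_lus D).1 h1.2⟩

theorem blocks [Finite B] (hL : IsWeight M L) {ι : Type} (β : B → ι)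
    (hb : ∀ s t, β s ≠ β t → M s t = 0 ∨ 5 ≤ M s t) :
    Good M L ↔ ∀ i, Good (sub M {b | β b = i}) (subL L {b | β b = i}) := by
  have hL' := isWeight_iff.1 hL
  have h := lusztig_blocks hL' β hb
  rw [good_iff]
  constructor
  · intro hg i
    rw [good_iff]
    exact (Pool.Agent.Helper35.KL.bounded_iff
      (Pool.Agent.Helper10.AM.isWeight_res hL' {b | β b = i})).2 (h.1 hg.2 i)
  · intro hg
    exact (Pool.Agent.Helper35.KL.bounded_iff hL').2 (h.2 fun i => (good_iff.1 (hg i)).2)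

theorem reduction
    (hq : ∀ (B : Type) [Finite B] (M : CoxeterMatrix B) (L : M.Group → ℤ), IsWeight M L →
      3 ≤ Nat.card B → (∀ s t, M s t ≠ 0) → Irred M → Tight M → Question M L)
    (B : Type) [Finite B] (M : CoxeterMatrix B) (L : M.Group → ℤ) (hL : IsWeight M L) :
    Question M L := by
  intro H _ _ D hb
  refine (to_lus D).1 (question_tight (fun B _ M L hL hc h2 hi ht H _ _ D hb => ?_) B M L
    (isWeight_iff.1 hL) H (toK D) ((to_bounded D).2 hb))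
  refine (to_lus (ofK D)).2 (hq B M L (isWeight_iff.2 hL) ?_
    (fun s t => h2 s (Set.mem_univ s) t (Set.mem_univ t)) ?_ ?_ H (ofK D)
    ((to_bounded (ofK D)).1 hb))
  · rw [Set.encard_univ, ENat.card_eq_coe_natCard] at hc
    exact_mod_cast hc
  · intro J hJ hJc
    rw [Set.compl_eq_univ_sdiff] at hJc ⊢
    exact hi J (Set.subset_univ J) hJ hJc
  · intro J hJ hJc
    rw [Set.compl_eq_univ_sdiff] at hJc ⊢
    exact ht J (Set.subset_univ J) hJ hJc

theorem labels [Finite B]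
    (h1 : ∀ r s t, r ≠ s → s ≠ t → r ≠ t → M r s ≠ 0 → M s t ≠ 0 → M r t ≠ 0 →
      M r s = 3 ∨ M r s = 4 → (M r t = 2 ∧ M s t = 2) ∨ (5 ≤ M r t ∧ 5 ≤ M s t))
    (h2 : ∀ a b c d, M a b = 2 → M b c = 2 → M c d = 2 → 5 ≤ M a c → 5 ≤ M b d → 5 ≤ M a d →
      False) (hL : IsWeight M L) : Good M L :=
  good_iff.2 ((Pool.Agent.Helper35.KL.bounded_iff (isWeight_iff.1 hL)).2
    (lusztig_labels (isWeight_iff.1 hL) h1 h2))

end Pool.Agent.Helper63.LG.Pub
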