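import Pool.Agent.Helper63.LG.Cl2

/-!
# Nonreduced triple products
-/

namespace Pool.Agent.Helper63.LG

open Pool.Agent.Helper35.KL Pool.Agent.Helper35.AM

section clf

variable {B : Type} {M : CoxeterMatrix B} {β : B → Bool}

/-- The type is inherited by longer `r`.
PROOF. `g (d r) = g (d r') κ = (d r') t' κ = (d r') κ t = (d r) t`. -/
theorem TyB.pass {X : Set B} {p v r' κ : M.Group} {t t' : B} (h : TyB M X p v r' t')
    (he : sm M t' * κ = κ * sm M t) : TyB M X p v (r' * κ) t := by
  obtain ⟨e, he1, d, hd1, g, hg, hne, hv, hpe, h1⟩ := h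
  refine ⟨e, he1, d, hd1, g, hg, hne, hv, hpe, ?_⟩
  rw [← mul_assoc (sm M d), ← mul_assoc (sm M g), h1, mul_assoc (sm M d * r'), he]
  simp only [mul_assoc]

/-- PROOF. The same; in `Ty4`: `dL (r' κ) f` by `dL_of_rd`. -/
theorem TyX.pass {a b : B} {p v r' κ : M.Group} {t t' : B} (h : TyX M β a b p v r' t')
    (hr : len M (r' * κ) = len M r' + len M κ) (he : sm M t' * κ = κ * sm M t) :
    TyX M β a b p v (r' * κ) t := by
  rcases h with ⟨hv, c, hc, hcb, hm, hd, h1⟩ | ⟨hv, c, hca, hcb, hd, h1⟩ |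
    ⟨hv, e, hc, hcb, hm, hd, hd2, h1⟩ | ⟨hv, f, hc, hcb, hm, hd, hd2, h1⟩
  · refine Or.inl ⟨hv, c, hc, hcb, hm, hd, ?_⟩
    rw [← mul_assoc (sm M a), ← mul_assoc (sm M c), h1, mul_assoc (sm M a * r'), he]
    simp only [mul_assoc]
  · refine Or.inr (Or.inl ⟨hv, c, hca, hcb, hd, ?_⟩)
    rw [← mul_assoc (sm M a), ← mul_assoc (sm M c), h1, mul_assoc (sm M a * r'), he]
    simp only [mul_assoc]
  · refine Or.inr (Or.inr (Or.inl ⟨hv, e, hc, hcb, hm, hd, hd2, ?_⟩))
    have h2 : sm M a * (sm M e * (sm M a * (r' * κ))) =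
        sm M a * (sm M e * (sm M a * r')) * κ := by simp only [mul_assoc]
    rw [h2, h1, mul_assoc (sm M e * (sm M a * r')), he]
    simp only [mul_assoc]
  · refine Or.inr (Or.inr (Or.inr ⟨hv, f, hc, hcb, hm, dL_of_rd hr hd, hd2, ?_⟩))
    have h2 : sm M b * (sm M a * (sm M f * (r' * κ))) =
        sm M b * (sm M a * (sm M f * r')) * κ := by simp only [mul_assoc]
    rw [h2, h1, mul_assoc (sm M a * (sm M f * r')), he]
    simp only [mul_assoc]

/-- The induction step.
PROOF. Let `Bad M X p v r t` have total length at most `n + 1` (if at most `n` use `hC`).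
`r = 1`: `blk_one` / `crs_one`. Otherwise `Bad.fr` and `Bad.cases`. First case: `Bad M X p v r' t'`
has total length at most `n` (`len κ ≥ 1`), so it has a type by `hC`; `dR (p v r' t') s'` is
impossible by `u_B` / `u_X` (with `hn` from total length `≤ n ≤ n + 1`); so `TyB.pass` /
`TyX.pass`. Second case: `r' = 1`: `c2B_one` / `c2X_one`; `r' ≠ 1`: `c2B_ne` / `c2X_ne`. -/
theorem cl_step (hb : Big M β) {n : ℕ} (hC : CLn M β n) : CLn M β (n + 1) := by
  constructor
  · intro i p v r t hB hn
    by_cases hr : r = 1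
    · subst hr
      exact (blk_one hb hB).elim
    · obtain ⟨s, r', κ, h, hF⟩ := hB.fr hr
      have hκ : len M κ ≠ 0 := fun h0 => hF.k1 (len_eq_zero.1 h0)
      have hlr := hF.lenr
      rcases hB.cases hF with ⟨t', s', hne, hB', hns, hor⟩ | ⟨j, k, x, h1, hG⟩
      · have hT := hC.blk i p v r' t' hB' (by omega)
        rcases hor with he | hd
        · rw [hF.eq]
          exact hT.pass he
        · exact absurd hd (u_B hb hC hB' (by omega) hT hne hns)
      · by_cases hr' : r' = 1
        · subst hr'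
          exact c2B_one hb hB hF hG
        · exact (c2B_ne hb hC hB hF hG hr' hn).elim
  · intro x y p v r t hxy hB hn
    by_cases hr : r = 1
    · subst hr
      exact crs_one hb hxy hB
    · obtain ⟨s, r', κ, h, hF⟩ := hB.fr hr
      have hκ : len M κ ≠ 0 := fun h0 => hF.k1 (len_eq_zero.1 h0)
      have hlr := hF.lenr
      rcases hB.cases hF with ⟨t', s', hne, hB', hns, hor⟩ | ⟨j, k, z, h1, hG⟩
      · have hT := hC.crs x y p v r' t' hxy hB' (by omega)
        have hrd : len M (r' * κ) = len M r' + len M κ := by rw [← hF.eq, hlr]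
        rcases hor with he | hd
        · rw [hF.eq]
          rcases hT with hT | hT
          · exact Or.inl (hT.pass hrd he)
          · exact Or.inr (hT.pass hrd he)
        · rcases hT with hT | hT
          · exact absurd hd (u_X hb hC hxy hB' (by omega) hT hne hns)
          · rw [Set.pair_comm] at hB'
            exact absurd hd (u_X hb hC hxy.symm hB' (by omega) hT hne hns)
      · by_cases hr' : r' = 1
        · subst hr'
          exact c2X_one hb hxy hB hF hG
        · exact c2X_ne hb hC hxy hB hF hG hr' hn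

/-- PROOF. Induction; for `n = 0` (or `1`) there is no triple as `len v ≥ 2`. -/
theorem cl (hb : Big M β) (n : ℕ) : CLn M β n := by
  induction n with
  | zero =>
    constructor
    · intro i p v r t hB hn
      have h := hB.h2
      omega
    · intro x y p v r t _ hB hn
      have h := hB.h2
      omega
  | succ n ih => exact cl_step hb ih

/-- PROOF. Induction on `len r`: let `r` be such that `p v r` is not reduced. `r ≠ 1` (`len_XR_mul`).
Let `t` be a right descent of `r`, `r = r0 t`. If `p v r0` is not reduced: induction. If it is: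
`Bad M X p v r0 t`: `p v r0 t` is not reduced so `dR (p v r0) t`; `v r0 t = v r` is reduced, so not
`dR (v r0) t`. -/
theorem exists_bad {X : Set B} {p v r : M.Group} (hp : p ∈ XR M X) (hv : v ∈ par M X)
    (h2 : 2 ≤ len M v) (hr : r ∈ XL M X)
    (h : len M (p * v * r) ≠ len M p + len M v + len M r) :
    ∃ r1 t r2, r = r1 * sm M t * r2 ∧ len M r = len M r1 + 1 + len M r2 ∧
      Bad M X p v r1 t := by
  induction hn : len M r generalizing r with
  | zero =>
    exfalso
    rw [len_eq_zero.1 hn, mul_one, len_XR_mul hp hv, len_one, add_zero] at h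
    exact h rfl
  | succ n ih =>
    have h1 : r ≠ 1 := by
      rintro rfl
      rw [len_one] at hn
      omega
    obtain ⟨t, ht⟩ := exists_dR h1
    have h2' : r * sm M t * sm M t = r := by rw [mul_assoc, sm_sm, mul_one]
    obtain ⟨r0, hr0⟩ : ∃ r0, r0 = r * sm M t := ⟨_, rfl⟩
    have h3 : r = r0 * sm M t := by rw [hr0, h2']
    have h4 : len M r = len M r0 + 1 := by
      rw [hr0]
      exact ht.symm
    have h5 : r0 ∈ XL M X := by
      refine mem_XL.2 fun s hs hd => (mem_XL.1 hr) s hs ?_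
      rw [h3]
      refine dL_of_rd ?_ hd
      change len M (r0 * sm M t) = len M r0 + len M (sm M t)
      rw [← h3, h4, len_sm]
    by_cases h6 : len M (p * v * r0) = len M p + len M v + len M r0
    · refine ⟨r0, t, 1, by rw [mul_one, h3], by rw [len_one]; omega, hp, hv, h2, h5, h6, ?_, ?_⟩
      · rcases dR_or (p * v * r0) t with h7 | h7
        · exact h7
        · exfalso
          apply h
          rw [h3, ← mul_assoc, h7, h6, ← h3, h4]
          omega
      · intro h7
        have h8 := len_mul_XL hv hr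
        have h9 := len_mul_XL hv h5
        have h10 : len M (v * r0 * sm M t) + 1 = len M (v * r0) := h7
        rw [mul_assoc, ← h3] at h10
        omega
    · obtain ⟨r1, t1, r2, e1, e2, e3⟩ := ih h5 h6 (by omega)
      refine ⟨r1, t1, r2 * sm M t, by rw [h3, e1, mul_assoc, mul_assoc], ?_, e3⟩
      have h7 := rs_mul_le (r1 * sm M t1) (r2 * sm M t)
      have h8 := rs_mul_le r1 (sm M t1)
      have h9 := rs_mul_le r2 (sm M t)
      have h10 : r1 * sm M t1 * (r2 * sm M t) = r := by rw [h3, e1, mul_assoc (r1 * sm M t1)]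
      rw [h10] at h7
      rw [len_sm] at h8 h9
      omega

/-- Nonreduced triple products for a block.
PROOF. `exists_bad` and `cl`: `g (d r1) = (d r1) t`; not `dR (d r1) t` (`v r1 = e (d r1)` reduced),
so `dL (d r1 t) g` (`cm`); `d r = (d r1 t) r2` is reduced. -/
theorem nr_B (hb : Big M β) {i : Bool} {p v r : M.Group} (hp : p ∈ XR M (blk β i))
    (hv : v ∈ par M (blk β i)) (h2 : 2 ≤ len M v) (hr : r ∈ XL M (blk β i))
    (h : len M (p * v * r) ≠ len M p + len M v + len M r) :
    ∃ e ∈ blk β i, ∃ d ∈ blk β i, ∃ g, g ∉ blk β i ∧ e ≠ d ∧ v = sm M e * sm M d ∧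
      dR M (p * sm M e) g ∧ dL M (sm M d * r) g := by
  obtain ⟨r1, t, r2, e1, e2, hB⟩ := exists_bad hp hv h2 hr h
  obtain ⟨e, he, d, hd, g, hg, hed, hve, hpg, hc⟩ := (cl hb _).blk i p v r1 t hB le_rfl
  refine ⟨e, he, d, hd, g, hg, hed, hve, hpg, ?_⟩
  have h3 := rs_mul_le (sm M e) (sm M d)
  rw [← hve, len_sm, len_sm] at h3
  have h4 := len_mul_XL hv hB.hr
  have h5 := len_mul_XL (sm_mem_par hd) hB.hr
  have h6 := len_mul_XL (sm_mem_par hd) hr
  rw [len_sm] at h5 h6
  have h7 : ¬ dR M (sm M d * r1) t := by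
    intro h8
    apply hB.hn
    rw [hve, mul_assoc]
    refine dR_of_rd ?_ h8
    change len M (sm M e * (sm M d * r1)) = len M (sm M e) + len M (sm M d * r1)
    rw [← mul_assoc, ← hve, len_sm]
    omega
  obtain ⟨-, h8, -, h9⟩ := cm hc h7
  have h10 : sm M g * (sm M d * r1) * r2 = sm M d * r := by
    rw [hc, e1, mul_assoc, mul_assoc, mul_assoc]
  rw [← h10]
  refine dL_of_rd ?_ h8
  change len M (sm M g * (sm M d * r1) * r2) = len M (sm M g * (sm M d * r1)) + len M r2
  rw [h10]
  omega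

/-- The types of nonreduced triple products. -/
def NrA (M : CoxeterMatrix B) (β : B → Bool) (a b : B) (p v r : M.Group) : Prop :=
  v = sm M a * sm M b * sm M a ∧ ∃ c, β c = β b ∧ c ≠ b ∧ M c b = 2 ∧ dR M (p * sm M a) c ∧
    dL M (sm M a * r) c

def NrI (M : CoxeterMatrix B) (a b : B) (p v r : M.Group) : Prop :=
  v = sm M b * sm M a ∧ ∃ c, c ≠ a ∧ c ≠ b ∧ dR M (p * sm M b) c ∧ dL M (sm M a * r) c

def Nr3 (M : CoxeterMatrix B) (β : B → Bool) (a b : B) (p v r : M.Group) : Prop :=
  v = sm M b * sm M a ∧ ∃ e, β e = β b ∧ e ≠ b ∧ M e b = 2 ∧ dR M p e ∧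
    dR M (p * sm M e * sm M b) a ∧ ¬ dL M (sm M a * r) e ∧ dL M (sm M e * (sm M a * r)) a

def Nr4 (M : CoxeterMatrix B) (β : B → Bool) (a b : B) (p v r : M.Group) : Prop :=
  v = sm M b * sm M a ∧ ∃ f, β f = β a ∧ f ≠ a ∧ M f a = 2 ∧ dL M r f ∧
    ¬ dR M (p * sm M b) f ∧ dR M (p * sm M b * sm M f) b ∧ dL M (sm M a * (sm M f * r)) b

/-- Auxiliary facts for `nr_X`: `v r1` and `u (a r1)` for a factorisation `v = u * a`. -/
private theorem nr_X_len {a b : B} {v r1 : M.Group} {u : M.Group}
    (hu : u ∈ par M ({a, b} : Set B)) (hv : v = u * sm M a) (hr : r1 ∈ XL M ({a, b} : Set B))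
    (hl : len M v = len M u + 1) :
    Rd M u (sm M a * r1) ∧ len M (sm M a * r1) = len M r1 + 1 := by
  have ha : sm M a ∈ par M ({a, b} : Set B) := sm_mem_par (by simp)
  have h1 : len M (sm M a * r1) = len M r1 + 1 := hr a (by simp)
  have h2 := len_mul_XL (Subgroup.mul_mem _ hu ha) hr
  rw [← hv, hv, mul_assoc] at h2
  refine ⟨?_, h1⟩
  unfold Rd
  rw [← hv] at h2
  omega

/-- The main step of `nr_X`: the case of types A and I. -/
private theorem nr_X_dL {a b c t : B} {v u r1 r2 r : M.Group}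
    (hu : u ∈ par M ({a, b} : Set B)) (hv : v = u * sm M a) (hl : len M v = len M u + 1)
    (hr1 : r1 ∈ XL M ({a, b} : Set B)) (hr : r ∈ XL M ({a, b} : Set B))
    (hn : ¬ dR M (v * r1) t) (he : r = r1 * sm M t * r2)
    (hlr : len M r = len M r1 + 1 + len M r2)
    (hc : sm M c * (sm M a * r1) = sm M a * r1 * sm M t) : dL M (sm M a * r) c := by
  obtain ⟨h1, h2⟩ := nr_X_len hu hv hr1 hl
  have h3 : ¬ dR M (sm M a * r1) t := by
    intro h
    apply hn
    have := dR_of_rd h1 h
    rwa [← mul_assoc, ← hv] at this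
  obtain ⟨_, h5, _, h6⟩ := cm hc h3
  rw [hc] at h5 h6
  have h7 : len M (sm M a * r) = len M r + 1 := hr a (by simp)
  have h8 : sm M a * r = sm M a * r1 * sm M t * r2 := by
    rw [he]; simp only [mul_assoc]
  rw [h8]
  apply dL_of_rd _ h5
  unfold Rd
  rw [← h8]
  omega

private theorem nr_X_two {a b : B} {v : M.Group} (hv : v = sm M b * sm M a)
    (h2 : 2 ≤ len M v) : len M v = 2 := by
  have h := rs_mul_le (sm M b) (sm M a)
  rw [len_sm, len_sm, ← hv] at h
  omega

private theorem nr_X_three {a b : B} {v : M.Group} (hv : v = sm M a * sm M b * sm M a)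
    (h2 : 2 ≤ len M v) : len M v = 3 ∧ len M (sm M a * sm M b) = 2 := by
  have h1 := len_sm (M := M) a
  rcases dR_or (sm M a) b with h3 | h3 <;> rcases dR_or (sm M a * sm M b) a with h4 | h4 <;>
    (try unfold dR at h3) <;> (try unfold dR at h4) <;> rw [← hv] at h4 <;> omega

/-- Type 3 of `nr_X`. -/
private theorem nr_X_t3 {a b e t : B} {p v r1 r2 r : M.Group} (hab : β a ≠ β b)
    (hB : Bad M {a, b} p v r1 t) (hr : r ∈ XL M ({a, b} : Set B))
    (he : r = r1 * sm M t * r2) (hlr : len M r = len M r1 + 1 + len M r2)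
    (hv : v = sm M b * sm M a) (hl : len M v = 2) (hbe : β e = β b) (hne : e ≠ b)
    (hm : M e b = 2) (hpe : dR M p e) (hpb : dR M (p * sm M e * sm M b) a)
    (hc : sm M a * (sm M e * (sm M a * r1)) = sm M e * (sm M a * r1) * sm M t) :
    NrI M a b p v r ∨ Nr3 M β a b p v r := by
  have hea : e ≠ a := fun h => hab (by rw [← h, hbe])
  have hmb : M b e = 2 := by rw [M.symmetric]; exact hm
  by_cases hd : dL M (sm M a * r) e
  · exact Or.inl ⟨hv, e, hea, hne, (dR_comm hmb).2 hpe, hd⟩
  refine Or.inr ⟨hv, e, hbe, hne, hm, hpe, hpb, hd, ?_⟩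
  have h7 : len M (sm M a * r) = len M r + 1 := hr a (by simp)
  have h8 : len M (sm M a * r1) = len M r1 + 1 := hB.hr a (by simp)
  have h9 : sm M a * r = sm M a * r1 * (sm M t * r2) := by
    rw [he]; simp only [mul_assoc]
  have h10 := rs_mul_le (sm M t) r2
  rw [len_sm] at h10
  have h11 : Rd M (sm M a * r1) (sm M t * r2) := by
    have := rs_mul_le (sm M a * r1) (sm M t * r2)
    unfold Rd
    rw [← h9] at this ⊢
    omega
  have h12 : ¬ dL M (sm M a * r1) e := by
    intro h
    apply hd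
    rw [h9]
    exact dL_of_rd h11 h
  have h13 := not_dL.1 h12
  have h14 := not_dL.1 hd
  have hce : sm M e * sm M b = sm M b * sm M e := sm_comm hm
  have h15 : p * v * r1 = p * sm M e * sm M b * (sm M e * (sm M a * r1)) := by
    rw [hv, mul_assoc p (sm M e) (sm M b), hce]
    simp only [mul_assoc]
    rw [sm_cancel]
  have h16 : len M (p * sm M e * sm M b) ≤ len M p := by
    have h := rs_mul_le (p * sm M e) (sm M b)
    rw [len_sm] at h
    unfold dR at hpe
    omega
  have h17 := hB.red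
  rw [h15] at h17
  have h18 := rs_mul_le (p * sm M e * sm M b) (sm M e * (sm M a * r1))
  have h19 : ¬ dL M (sm M e * (sm M a * r1)) a := by
    intro h
    have h20 : p * sm M e * sm M b * (sm M e * (sm M a * r1)) =
        p * sm M e * sm M b * sm M a * (sm M a * (sm M e * (sm M a * r1))) := by
      rw [mul_assoc (p * sm M e * sm M b) (sm M a), sm_cancel]
    have h21 := rs_mul_le (p * sm M e * sm M b * sm M a) (sm M a * (sm M e * (sm M a * r1)))
    rw [← h20] at h21
    unfold dR at hpb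
    unfold dL at h
    omega
  have h22 := not_dL.1 h19
  have h23 : dL M (sm M e * (sm M a * r1) * sm M t) a := by
    unfold dL
    rw [← hc, sm_cancel]
    omega
  rw [hc] at h22
  have h24 : sm M e * (sm M a * r) = sm M e * (sm M a * r1) * sm M t * r2 := by
    rw [he]; simp only [mul_assoc]
  rw [h24]
  apply dL_of_rd _ h23
  unfold Rd
  rw [← h24]
  omega

/-- Type 4 of `nr_X`. -/
private theorem nr_X_t4 {a b f t : B} {p v r1 r2 r : M.Group}
    (hB : Bad M {a, b} p v r1 t) (hr : r ∈ XL M ({a, b} : Set B))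
    (he : r = r1 * sm M t * r2) (hlr : len M r = len M r1 + 1 + len M r2)
    (hv : v = sm M b * sm M a) (hl : len M v = 2) (hbf : β f = β a) (hne : f ≠ a)
    (hm : M f a = 2) (hrf : dL M r1 f) (hpb : dR M (p * sm M b * sm M f) b)
    (hc : sm M b * (sm M a * (sm M f * r1)) = sm M a * (sm M f * r1) * sm M t) :
    Nr4 M β a b p v r := by
  have h9 : r = r1 * (sm M t * r2) := by rw [he, mul_assoc]
  have h10 := rs_mul_le (sm M t) r2
  rw [len_sm] at h10
  have h11 : Rd M r1 (sm M t * r2) := by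
    have := rs_mul_le r1 (sm M t * r2)
    unfold Rd
    rw [← h9] at this ⊢
    omega
  have h12 : dL M r f := by
    rw [h9]
    exact dL_of_rd h11 hrf
  have hca : sm M f * sm M a = sm M a * sm M f := sm_comm hm
  have h15 : p * v * r1 = p * sm M b * sm M f * (sm M a * (sm M f * r1)) := by
    rw [hv, ← mul_assoc (sm M a) (sm M f) r1, ← hca]
    simp only [mul_assoc]
    rw [sm_cancel]
  have h17 := hB.red
  rw [h15] at h17
  have h18 := rs_mul_le (p * sm M b * sm M f) (sm M a * (sm M f * r1))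
  have h13 := rs_mul_le (p * sm M b) (sm M f)
  have h14 := rs_mul_le p (sm M b)
  have h16 := rs_mul_le (sm M a) (sm M f * r1)
  rw [len_sm] at h13 h14 h16
  have hrf' := hrf
  unfold dL at hrf'
  have h19 : ¬ dR M (p * sm M b) f := by
    rw [not_dR]
    omega
  have h20 : ¬ dL M (sm M a * (sm M f * r1)) b := by
    intro h
    have h20 : p * sm M b * sm M f * (sm M a * (sm M f * r1)) =
        p * sm M b * sm M f * sm M b * (sm M b * (sm M a * (sm M f * r1))) := by
      rw [mul_assoc (p * sm M b * sm M f) (sm M b), sm_cancel]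
    have h21 := rs_mul_le (p * sm M b * sm M f * sm M b)
      (sm M b * (sm M a * (sm M f * r1)))
    rw [← h20] at h21
    unfold dR at hpb
    unfold dL at h
    omega
  have h22 := not_dL.1 h20
  have h23 : dL M (sm M a * (sm M f * r1) * sm M t) b := by
    unfold dL
    rw [← hc, sm_cancel]
    omega
  rw [hc] at h22
  have h24 : sm M a * (sm M f * r) = sm M a * (sm M f * r1) * sm M t * r2 := by
    rw [he]; simp only [mul_assoc]
  have h25 : ¬ dL M (sm M f * r) a := by
    rw [dL_comm hm]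
    exact not_dL.2 (hr a (by simp))
  have h26 := not_dL.1 h25
  have h27 := h12
  unfold dL at h27
  refine ⟨hv, f, hbf, hne, hm, h12, h19, hpb, ?_⟩
  rw [h24]
  apply dL_of_rd _ h23
  unfold Rd
  rw [← h24]
  omega

/-- One orientation of `nr_X`. -/
private theorem nr_X_one {a b t : B} {p v r1 r2 r : M.Group} (hab : β a ≠ β b)
    (hB : Bad M {a, b} p v r1 t) (hr : r ∈ XL M ({a, b} : Set B))
    (he : r = r1 * sm M t * r2) (hlr : len M r = len M r1 + 1 + len M r2)
    (hT : TyX M β a b p v r1 t) :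
    NrA M β a b p v r ∨ NrI M a b p v r ∨ Nr3 M β a b p v r ∨ Nr4 M β a b p v r := by
  have hma : sm M a ∈ par M ({a, b} : Set B) := sm_mem_par (by simp)
  have hmb : sm M b ∈ par M ({a, b} : Set B) := sm_mem_par (by simp)
  rcases hT with h | h | h | h
  · obtain ⟨hv, c, h1, h2, h3, h4, h5⟩ := h
    obtain ⟨h6, h7⟩ := nr_X_three hv hB.h2
    exact Or.inl ⟨hv, c, h1, h2, h3, h4,
      nr_X_dL (Subgroup.mul_mem _ hma hmb) hv (by omega) hB.hr hr hB.hn he hlr h5⟩
  · obtain ⟨hv, c, h1, h2, h3, h4⟩ := h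
    have h6 := nr_X_two hv hB.h2
    exact Or.inr (Or.inl ⟨hv, c, h1, h2, h3,
      nr_X_dL hmb hv (by rw [len_sm]; omega) hB.hr hr hB.hn he hlr h4⟩)
  · obtain ⟨hv, e, h1, h2, h3, h4, h5, h6⟩ := h
    rcases nr_X_t3 hab hB hr he hlr hv (nr_X_two hv hB.h2) h1 h2 h3 h4 h5 h6 with h | h
    · exact Or.inr (Or.inl h)
    · exact Or.inr (Or.inr (Or.inl h))
  · obtain ⟨hv, f, h1, h2, h3, h4, h5, h6⟩ := h
    exact Or.inr (Or.inr (Or.inr
      (nr_X_t4 hB hr he hlr hv (nr_X_two hv hB.h2) h1 h2 h3 h4 h5 h6)))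

/-- Nonreduced triple products for a pair.
PROOF. `exists_bad`, `cl`: a type of `(p, v, r1, t)`, for `(a, b)` or `(b, a)`; `v r1` is reduced,
not `dR (v r1) t`. `r = r1 t r2`.
TyA, TyI: as in `nr_B`: `dL (a r1 t) c`, and `a r = (a r1 t) r2` is reduced (`v r` is).
Ty3: if `dL (a r) e`: then type I with `c = e`: `e ≠ a`, `e ≠ b`, `dR (p b) e` by `dR_comm`. If not:
`p v r1 = (p e b) (e (a r1))` (`e b = b e`), by lengths `len (e (a r1)) = len r1 + 2` and
`len (p e b) = len p` and the product is reduced, so not `dL (e (a r1)) a` (as `dR (p e b) a`);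
so by `a ρ = ρ t` (`ρ = e (a r1)`) `len (ρ t) = len ρ + 1` and `dL (ρ t) a`. `e (a r) = (ρ t) r2` is
reduced: its length is `len (a r) + 1`.
Ty4: `dL r f` (`dL_of_rd`), `p v r1 = (p b f) (a (f r1))` with `a f = f a`, by lengths
`len (p b f) = len p + 2` (so not `dR (p b) f`) and the product is reduced, so not
`dL ρ b` for `ρ = a (f r1)` (`dR (p b f) b`); `b ρ = ρ t`: `dL (ρ t) b`; `a (f r) = (ρ t) r2`,
reduced: `len (a (f r)) = len r = len r1 + 1 + len r2` (`a (f r) = f (a r)`, not `dL (f r) a` by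
`dL_comm`), `len ρ = len r1`. -/
theorem nr_X (hb : Big M β) {a b : B} (hab : β a ≠ β b) {p v r : M.Group}
    (hp : p ∈ XR M ({a, b} : Set B)) (hv : v ∈ par M ({a, b} : Set B)) (h2 : 2 ≤ len M v)
    (hr : r ∈ XL M ({a, b} : Set B))
    (h : len M (p * v * r) ≠ len M p + len M v + len M r) :
    (NrA M β a b p v r ∨ NrI M a b p v r ∨ Nr3 M β a b p v r ∨ Nr4 M β a b p v r) ∨
      (NrA M β b a p v r ∨ NrI M b a p v r ∨ Nr3 M β b a p v r ∨ Nr4 M β b a p v r) := by
  obtain ⟨r1, t, r2, he, hlr, hB⟩ := exists_bad hp hv h2 hr h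
  rcases (cl hb _).crs a b p v r1 t hab hB le_rfl with hT | hT
  · exact Or.inl (nr_X_one hab hB hr he hlr hT)
  · have hs : ({a, b} : Set B) = {b, a} := Set.pair_comm a b
    rw [hs] at hB hr
    exact Or.inr (nr_X_one hab.symm hB hr he hlr hT)

/-- PROOF. All types have `len v ≤ 3`. -/
theorem rd_four (hb : Big M β) {a b : B} (hab : β a ≠ β b) {p v r : M.Group}
    (hp : p ∈ XR M ({a, b} : Set B)) (hv : v ∈ par M ({a, b} : Set B)) (h4 : 4 ≤ len M v)
    (hr : r ∈ XL M ({a, b} : Set B)) :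
    len M (p * v * r) = len M p + len M v + len M r := by
  by_contra h
  have key : ∀ x y : B, v = sm M x * sm M y → False := by
    intro x y hv'
    have h1 := rs_mul_le (sm M x) (sm M y)
    rw [← hv', len_sm, len_sm] at h1
    omega
  have key3 : ∀ x y z : B, v = sm M x * sm M y * sm M z → False := by
    intro x y z hv'
    have h1 := rs_mul_le (sm M x * sm M y) (sm M z)
    have h2 := rs_mul_le (sm M x) (sm M y)
    rw [← hv', len_sm] at h1
    rw [len_sm, len_sm] at h2
    omega
  rcases nr_X hb hab hp hv (by omega) hr h with (h1 | h1 | h1 | h1) | (h1 | h1 | h1 | h1)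
  · exact key3 _ _ _ h1.1
  · exact key _ _ h1.1
  · exact key _ _ h1.1
  · exact key _ _ h1.1
  · exact key3 _ _ _ h1.1
  · exact key _ _ h1.1
  · exact key _ _ h1.1
  · exact key _ _ h1.1

/-- PROOF. In the type of `nr_B` `len v = 2`. -/
theorem rd_three (hb : Big M β) {i : Bool} {p v r : M.Group} (hp : p ∈ XR M (blk β i))
    (hv : v ∈ par M (blk β i)) (h3 : 3 ≤ len M v) (hr : r ∈ XL M (blk β i)) :
    len M (p * v * r) = len M p + len M v + len M r := by
  by_contra h
  obtain ⟨e, -, d, -, g, -, -, hv', -⟩ := nr_B hb hp hv (by omega) hr h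
  have h1 := rs_mul_le (sm M e) (sm M d)
  rw [← hv', len_sm, len_sm] at h1
  omega

end clf

end Pool.Agent.Helper63.LG
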