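import Pool.Agent.Helper63.LG.Hd
import Pool.Agent.Helper63.LG.ClF
import Pool.Agent.Helper35.AM.Lq

/-!
# The induction for the degrees of triple products: definitions and tools
-/

/-
OVERVIEW. hv is a set of 'heavy' elements that spans an ideal II (Idl), F a filtration Lam of the Hecke algebra with
leading terms ld (Lf, see AM/Df.lean; II is in all Lam n and ld kills II). Fixed integers kappa, T0 and N with: elements c
of a piece with la c >= N are heavy; T0 <= kappa - m for m < N. G x y is a family of subgroups of the group of leading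
terms. Clm p u r: T p * C u * T r is in Lam (kappa - la u) and its leading term is in G (p u) (u r). The aim is Clm p u r
for all pieces X, p in XR X, u in par X, r in XL X, by induction on the total length len p + len u + len r (IH n: all of
total length < n). TB n: T w is in Lam T0 for all w <> 1 of length < n.
This is applied three times: (1) G = functions supported in the elements with Occ k; (2) for P8; (3) for P1.
-/

namespace Pool.Agent.Helper63.LG

open Pool.Agent.Helper35.KL Pool.Agent.Helper35.AM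

section dec

variable {B : Type} {M : CoxeterMatrix B} {L : M.Group → ℤ} {H : Type} [Ring H] [Algebra LP H]
variable {D : KLD M L H} {hv : M.Group → Prop} {A : Type} [AddCommGroup A]

/-- A sum of an element of `Lam κ` with leading term in `K` and an element of `Lam τ`. -/
def Dec (F : Lf D hv A) (κ : ℤ) (K : AddSubgroup A) (τ : ℤ) (x : H) : Prop :=
  ∃ y z, x = y + z ∧ y ∈ F.Lam κ ∧ F.ld κ y ∈ K ∧ z ∈ F.Lam τ

variable {F : Lf D hv A} {κ κ' τ τ' : ℤ} {K K' : AddSubgroup A} {x y : H}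

/-! Piece E-a -/

theorem Dec.add (h : Dec F κ K τ x) (h' : Dec F κ K τ y) : Dec F κ K τ (x + y) := by
  obtain ⟨y₁, z₁, rfl, a₁, b₁, c₁⟩ := h
  obtain ⟨y₂, z₂, rfl, a₂, b₂, c₂⟩ := h'
  refine ⟨y₁ + y₂, z₁ + z₂, by abel, AddSubgroup.add_mem _ a₁ a₂, ?_, AddSubgroup.add_mem _ c₁ c₂⟩
  rw [map_add]
  exact AddSubgroup.add_mem _ b₁ b₂

theorem Dec.neg (h : Dec F κ K τ x) : Dec F κ K τ (-x) := by
  obtain ⟨y₁, z₁, rfl, a₁, b₁, c₁⟩ := h
  refine ⟨-y₁, -z₁, by abel, AddSubgroup.neg_mem _ a₁, ?_, AddSubgroup.neg_mem _ c₁⟩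
  rw [map_neg]
  exact AddSubgroup.neg_mem _ b₁

theorem Dec.sub (h : Dec F κ K τ x) (h' : Dec F κ K τ y) : Dec F κ K τ (x - y) := by
  rw [sub_eq_add_neg]
  exact h.add h'.neg

theorem Dec.zero : Dec F κ K τ 0 := by
  refine ⟨0, 0, by abel, AddSubgroup.zero_mem _, ?_, AddSubgroup.zero_mem _⟩
  rw [map_zero]
  exact AddSubgroup.zero_mem _

theorem Dec.sum {ι : Type*} (s : Finset ι) {f : ι → H} (h : ∀ i ∈ s, Dec F κ K τ (f i)) :
    Dec F κ K τ (∑ i ∈ s, f i) := by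
  exact Finset.sum_induction f (fun x => Dec F κ K τ x) (fun _ _ h h' => h.add h') Dec.zero h

/-- PROOF. `F.smul`, `F.ldsmul`. -/
theorem Dec.smul {m : ℤ} {a : LP} (ha : Dle m a) (h : Dec F κ K τ x) :
    Dec F (m + κ) K (m + τ) (a • x) := by
  obtain ⟨y₁, z₁, rfl, a₁, b₁, c₁⟩ := h
  refine ⟨a • y₁, a • z₁, smul_add _ _ _, F.smul ha a₁, ?_, F.smul ha c₁⟩
  rw [F.ldsmul ha a₁]
  exact AddSubgroup.zsmul_mem _ b₁ _

/-- PROOF. If `κ < κ'` then `F.lt`. -/
theorem Dec.mono (h : Dec F κ K τ x) (h1 : κ ≤ κ') (h2 : K ≤ K') (h3 : τ ≤ τ') :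
    Dec F κ' K' τ' x := by
  obtain ⟨y₁, z₁, rfl, a₁, b₁, c₁⟩ := h
  refine ⟨y₁, z₁, rfl, F.mono h1 a₁, ?_, F.mono h3 c₁⟩
  rcases h1.eq_or_lt with rfl | h4
  · exact h2 b₁
  · rw [F.lt h4 a₁]
    exact AddSubgroup.zero_mem _

theorem Dec.low (h : x ∈ F.Lam τ) : Dec F κ K τ x := by
  refine ⟨0, x, by abel, AddSubgroup.zero_mem _, ?_, h⟩
  rw [map_zero]
  exact AddSubgroup.zero_mem _

theorem Dec.of_lt (h : x ∈ F.Lam κ') (h1 : κ' < κ) : Dec F κ K τ x := by
  refine ⟨x, 0, by abel, F.mono h1.le h, ?_, AddSubgroup.zero_mem _⟩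
  rw [F.lt h1 h]
  exact AddSubgroup.zero_mem _

theorem Dec.main (h : x ∈ F.Lam κ) (h1 : F.ld κ x ∈ K) : Dec F κ K τ x := by
  exact ⟨x, 0, by abel, h, h1, AddSubgroup.zero_mem _⟩

theorem Dec.final (h : Dec F κ K τ x) (h1 : τ < κ) : x ∈ F.Lam κ ∧ F.ld κ x ∈ K := by
  obtain ⟨y₁, z₁, rfl, a₁, b₁, c₁⟩ := h
  refine ⟨AddSubgroup.add_mem _ a₁ (F.mono h1.le c₁), ?_⟩
  rw [map_add, F.lt h1 c₁, add_zero]
  exact b₁

/-- PROOF. `F.mem` for all degrees, `F.lt`. -/
theorem ld_of_II (hx : x ∈ II D hv) (n : ℤ) : x ∈ F.Lam n ∧ F.ld n x = 0 := by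
  exact ⟨F.mem hx n, F.lt (show n - 1 < n by omega) (F.mem hx (n - 1))⟩

end dec

section en

variable {B : Type} {M : CoxeterMatrix B} {L : M.Group → ℤ} {H : Type} [Ring H] [Algebra LP H]
variable {D : KLD M L H} {β : B → Bool} {la : M.Group → ℕ}
variable {hv : M.Group → Prop} {A : Type} [AddCommGroup A]

/-- The claim for a triple. -/
def Clm (F : Lf D hv A) (la : M.Group → ℕ) (κ : ℤ)
    (G : M.Group → M.Group → AddSubgroup A) (p u r : M.Group) : Prop :=
  D.T p * D.C u * D.T r ∈ F.Lam (κ - la u) ∧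
    F.ld (κ - la u) (D.T p * D.C u * D.T r) ∈ G (p * u) (u * r)

/-- The bound for the standard basis. -/
def TB (F : Lf D hv A) (T0 : ℤ) (n : ℕ) : Prop :=
  ∀ w, w ≠ 1 → len M w < n → D.T w ∈ F.Lam T0

/-- The induction hypothesis. -/
def IH (β : B → Bool) (F : Lf D hv A) (la : M.Group → ℕ) (κ : ℤ)
    (G : M.Group → M.Group → AddSubgroup A) (n : ℕ) : Prop :=
  ∀ X, Sp β X → ∀ p ∈ XR M X, ∀ u ∈ par M X, ∀ r ∈ XL M X,
    len M p + len M u + len M r < n → Clm F la κ G p u r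

/-- The standing assumptions. -/
structure Ctx (β : B → Bool) (la : M.Group → ℕ) (F : Lf D hv A) (κ T0 : ℤ) (N : ℕ)
    (G : M.Group → M.Group → AddSubgroup A) : Prop where
  dat : Dat D β la
  idl : Idl D hv
  inv : ∀ w, hv w → hv w⁻¹
  hin : ∀ X, Sp β X → ∀ c ∈ par M X, N ≤ la c → hv c
  hT0 : ∀ m : ℕ, m < N → T0 ≤ κ - m
  g1 : ∀ x x' y y', Rd M x x' → Rd M y' y → G x y ≤ G (x * x') (y' * y)
  g2 : ∀ X, Sp β X → ∀ Q, Q ⊆ X → ∀ k1 ∈ par M X, k1 ∈ XR M Q → ∀ k2 ∈ par M X, k2 ∈ XL M Q →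
    ∀ u ∈ par M Q, ∀ c ∈ par M X, ¬ hv c →
    (D.C.repr (D.T k1 * D.C u * D.T k2) c).coeff ((la c : ℤ) - la u) ≠ 0 →
    ∀ p ∈ XR M X, ∀ r ∈ XL M X, G (p * c) (c * r) ≤ G (p * k1 * u) (u * (k2 * r))
  g3 : ∀ X, Sp β X → ∀ p ∈ XR M X, ∀ u ∈ par M X, ∀ r ∈ XL M X,
    len M (p * u * r) = len M p + len M u + len M r → ¬ hv u → κ - la u = T0 →
    p * u * r ≠ 1 → F.ld T0 (D.T (p * u * r)) ∈ G (p * u) (u * r)
  h11 : (1 : H) ∈ F.Lam κ ∧ F.ld κ (1 : H) ∈ G 1 1

variable {F : Lf D hv A} {κ T0 : ℤ} {N : ℕ} {G : M.Group → M.Group → AddSubgroup A}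
variable {X : Set B}

theorem IH.mono {n n' : ℕ} (h : IH β F la κ G n) (hn : n' ≤ n) : IH β F la κ G n' := by
  exact fun X hX p hp u hu r hr hl => h X hX p hp u hu r hr (lt_of_lt_of_le hl hn)

theorem TB.mono {n n' : ℕ} (h : TB F T0 n) (hn : n' ≤ n) : TB F T0 n' := by
  exact fun w hw hl => h w hw (lt_of_lt_of_le hl hn)

/-- PROOF. `Idl.II_mulL`, `Idl.II_mulR`, `C_mem_II`, `ld_of_II`. -/
theorem Clm_hv (hI : Idl D hv) {p u r : M.Group} (hu : hv u) : Clm F la κ G p u r := by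
  have h1 : D.T p * D.C u * D.T r ∈ II D hv := hI.II_mulR _ (hI.II_mulL _ (C_mem_II hu))
  refine ⟨(ld_of_II h1 _).1, ?_⟩
  rw [(ld_of_II h1 _).2]
  exact AddSubgroup.zero_mem _

/-- Crude bounds. PROOF. `x = ∑ T.repr x w • T w`; `w = 1` does not occur. -/
theorem Lat_TB {n : ℕ} {d : ℤ} (hT : TB F T0 n) {x : H} (hx : x ∈ Lat D.T d)
    (hn : x ∈ Vl D.T (len M) n) (h1 : D.T.repr x 1 = 0) : x ∈ F.Lam (d + T0) := by
  have h2 : ∀ w, D.T.repr x w ≠ 0 → len M w < n := by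
    intro w hw
    by_contra h3
    apply hw
    refine Submodule.span_induction (p := fun x _ => D.T.repr x w = 0) ?_ ?_ ?_ ?_ hn
    · rintro _ ⟨v, hv, rfl⟩
      rw [D.T.repr_self, Finsupp.single_eq_of_ne]
      rintro rfl
      exact h3 hv
    · rw [map_zero, Finsupp.zero_apply]
    · intro a b _ _ ha hb
      rw [map_add, Finsupp.add_apply, ha, hb, add_zero]
    · intro q a _ ha
      rw [map_smul, Finsupp.smul_apply, ha, smul_zero]
  rw [← D.T.linearCombination_repr x, Finsupp.linearCombination_apply, Finsupp.sum]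
  refine AddSubgroup.sum_mem _ fun w hw => ?_
  have hw' := Finsupp.mem_support_iff.1 hw
  refine F.smul (hx w) (hT w ?_ (h2 w hw'))
  rintro rfl
  exact hw' h1

/-! Piece E-b: the mirror image -/

/-- The filtration composed with the anti-automorphism `fl`. -/
noncomputable def Lfl (F : Lf D hv A) (hi : ∀ w, hv w → hv w⁻¹) : Lf D hv A where
  Lam n := (F.Lam n).comap D.fl.toAddMonoidHom
  ld n := (F.ld n).comp D.fl.toAddMonoidHom
  mono := by
    intro m n h x hx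
    exact F.mono h hx
  lt := by
    intro m n x h hx
    exact F.lt h hx
  smul := by
    intro m n a x ha hx
    change D.fl (a • x) ∈ F.Lam (m + n)
    rw [map_smul]
    exact F.smul ha hx
  ldsmul := by
    intro m n a x ha hx
    change F.ld (m + n) (D.fl (a • x)) = a.coeff m • F.ld n (D.fl x)
    rw [map_smul]
    exact F.ldsmul ha hx
  mem := by
    intro x hx n
    exact F.mem (II_fl hi hx) n

theorem Dec_fl {hi : ∀ w, hv w → hv w⁻¹} {κ τ : ℤ} {K : AddSubgroup A} {x : H} :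
    Dec (Lfl F hi) κ K τ x ↔ Dec F κ K τ (D.fl x) := by
  constructor
  · rintro ⟨y, z, h1, h2, h3, h4⟩
    exact ⟨D.fl y, D.fl z, by rw [h1, map_add], h2, h3, h4⟩
  · rintro ⟨y, z, h1, h2, h3, h4⟩
    refine ⟨D.fl y, D.fl z, ?_, ?_, ?_, ?_⟩
    · rw [← map_add, ← h1, D.fl_fl]
    · change D.fl (D.fl y) ∈ F.Lam κ
      rwa [D.fl_fl]
    · change F.ld κ (D.fl (D.fl y)) ∈ K
      rwa [D.fl_fl]
    · change D.fl (D.fl z) ∈ F.Lam τ
      rwa [D.fl_fl]

theorem TB_fl {hi : ∀ w, hv w → hv w⁻¹} {n : ℕ} (h : TB F T0 n) : TB (Lfl F hi) T0 n := by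
  intro w hw hn
  change D.fl (D.T w) ∈ F.Lam T0
  rw [D.fl_T]
  exact h _ (inv_ne_one.2 hw) (by rw [len_inv]; exact hn)

private theorem Eb_fl3 (p u r : M.Group) :
    D.fl (D.T p * D.C u * D.T r) = D.T r⁻¹ * D.C u⁻¹ * D.T p⁻¹ := by
  rw [D.fl_mul, D.fl_mul, D.fl_T, D.fl_C, D.fl_T, mul_assoc]

/-- PROOF. `fl (T p * C u * T r) = T r⁻¹ * C u⁻¹ * T p⁻¹`, `Dat.inv`. -/
theorem IH_fl (hD : Dat D β la) {hi : ∀ w, hv w → hv w⁻¹} {n : ℕ} (h : IH β F la κ G n) :
    IH β (Lfl F hi) la κ (fun x y => G y⁻¹ x⁻¹) n := by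
  intro X hX p hp u hu r hr hn
  have h1 := h X hX r⁻¹ (inv_mem_XR.2 hr) u⁻¹ ((par M X).inv_mem hu) p⁻¹ (inv_mem_XL.2 hp)
    (by rw [len_inv, len_inv, len_inv]; omega)
  obtain ⟨h2, h3⟩ := h1
  rw [hD.inv hX hu] at h2 h3
  constructor
  · change D.fl (D.T p * D.C u * D.T r) ∈ F.Lam (κ - la u)
    rw [Eb_fl3]
    exact h2
  · change F.ld (κ - la u) (D.fl (D.T p * D.C u * D.T r)) ∈ G (u * r)⁻¹ (p * u)⁻¹
    rw [Eb_fl3, mul_inv_rev, mul_inv_rev]
    exact h3

/-- PROOF. `g2`: `repr (T k1 * C u * T k2) c = repr (T k2⁻¹ * C u⁻¹ * T k1⁻¹) c⁻¹`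
(`repr_C_fl`), `inv_mem_XR`, `Dat.inv`. -/
theorem Ctx_fl (hC : Ctx β la F κ T0 N G) :
    Ctx β la (Lfl F hC.inv) κ T0 N (fun x y => G y⁻¹ x⁻¹) where
  dat := hC.dat
  idl := hC.idl
  inv := hC.inv
  hin := hC.hin
  hT0 := hC.hT0
  g1 := by
    intro x x' y y' h1 h2
    have h3 : Rd M y⁻¹ y'⁻¹ := by
      rw [Rd, ← mul_inv_rev, len_inv, len_inv, len_inv, h2, add_comm]
    have h4 : Rd M x'⁻¹ x⁻¹ := by
      rw [Rd, ← mul_inv_rev, len_inv, len_inv, len_inv, h1, add_comm]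
    have h5 := hC.g1 _ _ _ _ h3 h4
    change G y⁻¹ x⁻¹ ≤ G (y' * y)⁻¹ (x * x')⁻¹
    rw [mul_inv_rev, mul_inv_rev]
    exact h5
  g2 := by
    intro X hX Q hQ k1 hk1 hk1' k2 hk2 hk2' u hu c hc hcv hne p hp r hr
    have h1 : (D.C.repr (D.T k2⁻¹ * D.C u⁻¹ * D.T k1⁻¹) c⁻¹).coeff
        ((la c⁻¹ : ℤ) - la u⁻¹) ≠ 0 := by
      rw [← Eb_fl3, D.repr_C_fl, inv_inv, hC.dat.inv hX hc,
        hC.dat.inv hX (par_mono hQ hu)]
      exact hne
    have h2 := hC.g2 X hX Q hQ k2⁻¹ ((par M X).inv_mem hk2) (inv_mem_XR.2 hk2') k1⁻¹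
      ((par M X).inv_mem hk1) (inv_mem_XL.2 hk1') u⁻¹ ((par M Q).inv_mem hu) c⁻¹
      ((par M X).inv_mem hc) (fun h => hcv (by simpa using hC.inv _ h)) h1 r⁻¹
      (inv_mem_XR.2 hr) p⁻¹ (inv_mem_XL.2 hp)
    change G (c * r)⁻¹ (p * c)⁻¹ ≤ G (u * (k2 * r))⁻¹ (p * k1 * u)⁻¹
    have e1 : (u * (k2 * r))⁻¹ = r⁻¹ * k2⁻¹ * u⁻¹ := by group
    have e2 : (p * k1 * u)⁻¹ = u⁻¹ * (k1⁻¹ * p⁻¹) := by group
    rw [e1, e2, mul_inv_rev, mul_inv_rev]
    exact h2
  g3 := by
    intro X hX p hp u hu r hr hl hv' hk hne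
    have e : r⁻¹ * u⁻¹ * p⁻¹ = (p * u * r)⁻¹ := by group
    have h1 := hC.g3 X hX r⁻¹ (inv_mem_XR.2 hr) u⁻¹ ((par M X).inv_mem hu) p⁻¹
      (inv_mem_XL.2 hp) (by rw [e, len_inv, len_inv, len_inv, len_inv]; omega)
      (fun h => hv' (by simpa using hC.inv _ h)) (by rw [hC.dat.inv hX hu]; exact hk)
      (by rw [e]; exact inv_ne_one.2 hne)
    change F.ld T0 (D.fl (D.T (p * u * r))) ∈ G (u * r)⁻¹ (p * u)⁻¹
    rw [D.fl_T, ← e, mul_inv_rev, mul_inv_rev]
    exact h1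
  h11 := by
    constructor
    · change D.fl 1 ∈ F.Lam κ
      rw [D.fl_one]
      exact hC.h11.1
    · change F.ld κ (D.fl 1) ∈ G 1⁻¹ 1⁻¹
      rw [D.fl_one, inv_one]
      exact hC.h11.2

/-! Piece E-c -/

/-- From a small piece to a large piece.
PROOF. `T (p k1) = T p * T k1`, `T (k2 r) = T k2 * T r`. Expand `T k1 * C u * T k2` in the basis
`C` (`lq_expand`): it is in the span of the `C c` with `c ∈ par M X` (`mul_mem_HQ`, `mem_HQ_C`) and
`len c ≤ len k1 + len u + len k2` (`mul_Vl`, compare `ep_E2` in AM/Ep.lean). Its coordinates have degree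
at most `la c - la u` (`L1a`), so `a_c • (T p * C c * T r) ∈ Lam (κ - la u)` with leading term
`a_c.coeff (la c - la u) • ld (κ - la c) (T p * C c * T r)`. It is `0` or in `G (p c) (c r)`;
`g2` if not `hv c`, and `0` if `hv c` (`ld_of_II`). -/
theorem lift (hC : Ctx β la F κ T0 N G) (hX : Sp β X) {Q : Set B} (hQ : Q ⊆ X)
    {k1 k2 u p r : M.Group} (hk1 : k1 ∈ par M X) (hk1' : k1 ∈ XR M Q) (hk2 : k2 ∈ par M X)
    (hk2' : k2 ∈ XL M Q) (hu : u ∈ par M Q) (hp : p ∈ XR M X) (hr : r ∈ XL M X)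
    (h : ∀ c ∈ par M X, len M c ≤ len M k1 + len M u + len M k2 → Clm F la κ G p c r) :
    Clm F la κ G (p * k1) u (k2 * r) := by
  have hP : Loc D X la := hC.dat.locS hX
  have e1 : D.T (p * k1) = D.T p * D.T k1 := D.T_mul _ _ (len_XR_mul hp hk1)
  have e2 : D.T (k2 * r) = D.T k2 * D.T r := D.T_mul _ _ (len_mul_XL hk2 hr)
  obtain ⟨s, hs⟩ : ∃ s, s = D.T k1 * D.C u * D.T k2 := ⟨_, rfl⟩
  have e3 : D.T (p * k1) * D.C u * D.T (k2 * r) = D.T p * s * D.T r := by
    rw [e1, e2, hs]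
    simp only [mul_assoc]
  have hsX : s ∈ HQ D X := by
    rw [hs]
    exact mul_mem_HQ D (mul_mem_HQ D (T_mem_HQ D hk1) (C_mem_HQ D (par_mono hQ hu)))
      (T_mem_HQ D hk2)
  have hsV : s ∈ Vl D.T (len M) (len M k1 + len M u + len M k2 + 1) := by
    have hCV : D.C u ∈ Vl D.T (len M) (len M u + 1) := by
      have h1 : D.C u = (D.C u - D.T u) + D.T u := by abel
      rw [h1]
      exact Submodule.add_mem _ (Vl_mono _ _ (Nat.le_succ _) (D.C_sub_T u))
        (mem_Vl _ _ (Nat.lt_succ_self _))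
    have h3 := D.mul_Vl (mem_Vl D.T (len M) (w := k1) (Nat.lt_succ_self _)) hCV
    have h4 := D.mul_Vl h3 (mem_Vl D.T (len M) (w := k2) (Nat.lt_succ_self _))
    rw [hs]
    exact Vl_mono _ _ (by omega) h4
  have hsupp : ∀ c ∈ (D.C.repr s).support, c ∈ par M X ∧
      len M c ≤ len M k1 + len M u + len M k2 := by
    intro c hc
    refine ⟨?_, ?_⟩
    · by_contra hn
      exact (Finsupp.mem_support_iff.1 hc) ((mem_HQ_C D).1 hsX c hn)
    · rw [← Vl_eq D.T (len M) D.C D.C_sub_T, mem_Vl_iff] at hsV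
      have := hsV c (Finsupp.mem_support_iff.1 hc)
      omega
  have hdeg : ∀ c ∈ (D.C.repr s).support, Dle ((la c : ℤ) - la u) (D.C.repr s c) := by
    intro c hc
    rw [hs]
    exact L1a D hQ hP hk1' hk1 hk2' hk2 hu (hsupp c hc).1
  have ek : ∀ c : M.Group, κ - la u = ((la c : ℤ) - la u) + (κ - la c) := fun c => by ring
  unfold Clm
  rw [e3, lq_expand D.C]
  refine ⟨AddSubgroup.sum_mem _ fun c hc => ?_, ?_⟩
  · rw [ek c]
    exact F.smul (hdeg c hc) (h c (hsupp c hc).1 (hsupp c hc).2).1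
  · rw [map_sum]
    refine AddSubgroup.sum_mem _ fun c hc => ?_
    have hcl := h c (hsupp c hc).1 (hsupp c hc).2
    rw [ek c, F.ldsmul (hdeg c hc) hcl.1]
    by_cases hvc : hv c
    · have h5 := (ld_of_II (F := F) (hC.idl.II_mulR (D.T r) (hC.idl.II_mulL (D.T p)
        (C_mem_II (D := D) hvc))) (κ - la c)).2
      rw [h5, smul_zero]
      exact AddSubgroup.zero_mem _
    · by_cases h0 : (D.C.repr s c).coeff ((la c : ℤ) - la u) = 0
      · rw [h0, zero_smul]
        exact AddSubgroup.zero_mem _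
      · refine AddSubgroup.zsmul_mem _ ?_ _
        rw [hs] at h0
        exact hC.g2 X hX Q hQ k1 hk1 hk1' k2 hk2 hk2' u hu c (hsupp c hc).1 hvc h0 p hp r hr hcl.2

/-- lengths of the parts of a reduced product with a generator in the middle -/
private theorem Hb_len {v v1 v2 : M.Group} {x : B} (hv : v = v1 * sm M x * v2)
    (hl : len M v = len M v1 + 1 + len M v2) :
    len M (v1 * sm M x) = len M v1 + 1 ∧ len M (sm M x * v2) = 1 + len M v2 := by
  have h1 := rs_mul_le (M := M) (v1 * sm M x) v2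
  have h2 := rs_mul_le (M := M) v1 (sm M x)
  have h3 := rs_mul_le (M := M) v1 (sm M x * v2)
  have h4 := rs_mul_le (M := M) (sm M x) v2
  rw [len_sm] at h2 h4
  rw [← mul_assoc, ← hv] at h3
  rw [← hv] at h1
  omega

/-- Products with a generator in the middle.
PROOF. `T p * T v * T r = T (p v1) * T x * T (v2 r)` (all products are reduced: `len_XR_mul`,
`len_mul_XL`), `T x = C x - qq (-L x) • 1` (`T_sm_eq`), `C 1 = 1`, `la x = L x`
(`Dat.la_sm`), `la 1 = 0`. The groups: `hC.g1`, as `p v = (p v1) (x v2) = (p v1 x) v2` and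
`v r = (v1 x) (v2 r) = v1 (x v2 r)`, reduced. -/
theorem Hb (hC : Ctx β la F κ T0 N G) {p r v v1 v2 : M.Group} {x : B} (hp : p ∈ XR M X)
    (hr : r ∈ XL M X) (h1 : v1 ∈ par M X) (h2 : v2 ∈ par M X) (hx : x ∈ X)
    (hv : v = v1 * sm M x * v2) (hl : len M v = len M v1 + 1 + len M v2)
    (hc1 : Clm F la κ G (p * v1) (sm M x) (v2 * r)) (hc2 : Clm F la κ G (p * v1) 1 (v2 * r)) :
    D.T p * D.T v * D.T r ∈ F.Lam (κ - L (sm M x)) ∧
      F.ld (κ - L (sm M x)) (D.T p * D.T v * D.T r) ∈ G (p * v) (v * r) := by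
  obtain ⟨l1, l2⟩ := Hb_len hv hl
  have hsx : sm M x ∈ par M X := sm_mem_par hx
  have h1s : v1 * sm M x ∈ par M X := Subgroup.mul_mem _ h1 hsx
  have hs2 : sm M x * v2 ∈ par M X := Subgroup.mul_mem _ hsx h2
  have hvX : v ∈ par M X := by rw [hv]; exact Subgroup.mul_mem _ h1s h2
  have la : (la (sm M x) : ℤ) = L (sm M x) := hC.dat.la_sm x
  have e1 : D.T v = D.T v1 * D.T (sm M x) * D.T v2 := by
    rw [hv, D.T_mul _ _ (by rw [← hv, hl, l1]), D.T_mul _ _ (by rw [l1, len_sm])]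
  have e2 : D.T (p * v1) = D.T p * D.T v1 := D.T_mul _ _ (len_XR_mul hp h1)
  have e3 : D.T (v2 * r) = D.T v2 * D.T r := D.T_mul _ _ (len_mul_XL h2 hr)
  have e4 : D.T p * D.T v * D.T r = D.T (p * v1) * D.C (sm M x) * D.T (v2 * r) -
      qq (-L (sm M x)) • (D.T (p * v1) * D.C 1 * D.T (v2 * r)) := by
    have e5 : D.T p * D.T v * D.T r = D.T (p * v1) * D.T (sm M x) * D.T (v2 * r) := by
      rw [e1, e2, e3]
      simp only [mul_assoc]
    rw [e5, T_sm_eq D hC.dat.wt, mul_sub, sub_mul, D.C_one, mul_smul_comm, smul_mul_assoc]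
  obtain ⟨c1, c2⟩ := hc1
  obtain ⟨c3, c4⟩ := hc2
  rw [la] at c1 c2
  rw [hC.dat.one, Nat.cast_zero, sub_zero] at c3 c4
  have hd : Dle (-L (sm M x)) (qq (-L (sm M x))) := Dle.qq _
  have c5 := F.smul hd c3
  have c6 := F.ldsmul hd c3
  have hco : (qq (-L (sm M x))).coeff (-L (sm M x)) = 1 := by rw [cf_qq, if_pos rfl]
  rw [hco, one_smul] at c6
  rw [neg_add_eq_sub] at c5 c6
  have g1 : G (p * v1 * sm M x) (sm M x * (v2 * r)) ≤ G (p * v) (v * r) := by
    have h5 := hC.g1 (p * v1 * sm M x) v2 (sm M x * (v2 * r)) v1 ?_ ?_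
    · have h6 : p * v1 * sm M x * v2 = p * v := by rw [hv]; simp only [mul_assoc]
      have h7 : v1 * (sm M x * (v2 * r)) = v * r := by rw [hv]; simp only [mul_assoc]
      rwa [h6, h7] at h5
    · unfold Rd
      have h6 : p * v1 * sm M x * v2 = p * v := by rw [hv]; simp only [mul_assoc]
      rw [h6, len_XR_mul hp hvX, mul_assoc, len_XR_mul hp h1s]
      omega
    · unfold Rd
      have h7 : v1 * (sm M x * (v2 * r)) = v * r := by rw [hv]; simp only [mul_assoc]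
      rw [h7, len_mul_XL hvX hr, ← mul_assoc, len_mul_XL hs2 hr]
      omega
  have g2 : G (p * v1 * 1) (1 * (v2 * r)) ≤ G (p * v) (v * r) := by
    rw [mul_one, one_mul]
    have h5 := hC.g1 (p * v1) (sm M x * v2) (v2 * r) (v1 * sm M x) ?_ ?_
    · have h6 : p * v1 * (sm M x * v2) = p * v := by rw [hv]; simp only [mul_assoc]
      have h7 : v1 * sm M x * (v2 * r) = v * r := by rw [hv]; simp only [mul_assoc]
      rwa [h6, h7] at h5
    · unfold Rd
      have h6 : p * v1 * (sm M x * v2) = p * v := by rw [hv]; simp only [mul_assoc]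
      rw [h6, len_XR_mul hp hvX, len_XR_mul hp h1]
      omega
    · unfold Rd
      have h7 : v1 * sm M x * (v2 * r) = v * r := by rw [hv]; simp only [mul_assoc]
      rw [h7, len_mul_XL hvX hr, len_mul_XL h2 hr]
      omega
  rw [e4]
  refine ⟨AddSubgroup.sub_mem _ c1 c5, ?_⟩
  rw [map_sub, c6]
  exact AddSubgroup.sub_mem _ (g1 c2) (g2 c4)

/-- The same if the total length is small.
PROOF. `Hb`; `hc1` is `hI` for the piece `{x}`: `p v1 ∈ XR {x}` (`mem_XR`, `dR_XR`: `v1 x` is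
reduced as a factor of `v`), `hc2` is `hI` for the empty piece (`Sp_empty`). -/
theorem Hb' (hC : Ctx β la F κ T0 N G) {p r v v1 v2 : M.Group} {x : B} {n : ℕ}
    (hI : IH β F la κ G n) (hp : p ∈ XR M X)
    (hr : r ∈ XL M X) (h1 : v1 ∈ par M X) (h2 : v2 ∈ par M X) (hx : x ∈ X)
    (hv : v = v1 * sm M x * v2) (hl : len M v = len M v1 + 1 + len M v2)
    (hn : len M p + len M v + len M r < n) :
    D.T p * D.T v * D.T r ∈ F.Lam (κ - L (sm M x)) ∧
      F.ld (κ - L (sm M x)) (D.T p * D.T v * D.T r) ∈ G (p * v) (v * r) := by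
  obtain ⟨l1, l2⟩ := Hb_len hv hl
  have hsx : sm M x ∈ par M X := sm_mem_par hx
  have h1s : v1 * sm M x ∈ par M X := Subgroup.mul_mem _ h1 hsx
  have hs2 : sm M x * v2 ∈ par M X := Subgroup.mul_mem _ hsx h2
  have m1 : p * v1 ∈ XR M ({x} : Set B) := by
    rw [mem_XR]
    intro s hs
    rw [Set.mem_singleton_iff] at hs
    subst hs
    rw [not_dR, mul_assoc, len_XR_mul hp h1s, len_XR_mul hp h1]
    omega
  have m2 : v2 * r ∈ XL M ({x} : Set B) := by
    rw [mem_XL]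
    intro s hs
    rw [Set.mem_singleton_iff] at hs
    subst hs
    rw [not_dL, ← mul_assoc, len_mul_XL hs2 hr, len_mul_XL h2 hr]
    omega
  have n1 : len M (p * v1) = len M p + len M v1 := len_XR_mul hp h1
  have n2 : len M (v2 * r) = len M v2 + len M r := len_mul_XL h2 hr
  refine Hb hC hp hr h1 h2 hx hv hl ?_ ?_
  · refine hI {x} (Sp_single β x) _ m1 _ (sm_mem_par (Set.mem_singleton x)) _ m2 ?_
    rw [len_sm]
    omega
  · refine hI ∅ (Sp_empty β) _ ?_ _ (Subgroup.one_mem _) _ ?_ ?_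
    · rw [mem_XR]
      intro s hs
      exact absurd hs (Set.notMem_empty s)
    · rw [mem_XL]
      intro s hs
      exact absurd hs (Set.notMem_empty s)
    · rw [len_one]
      omega

/-! Piece E-d: the easy terms -/

/-- The group of the leading terms of `T p * (C u - T u) * T r`. -/
noncomputable def Go (M : CoxeterMatrix B) {A : Type} [AddCommGroup A]
    (G : M.Group → M.Group → AddSubgroup A) (p u r : M.Group) : AddSubgroup A :=
  G p r ⊔ ⨆ s : {s : B // dL M u s ∧ dR M u s}, G (p * sm M s) (sm M s * r)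

/-- PROOF. `p u = (p s) (s u)`, `u r = (u s) (s r)` reduced, `hC.g1`. (`p s` is longer than `p` as
`s ∈ X`, `dL_mem`.) -/
theorem Go_le (hC : Ctx β la F κ T0 N G) {p u r : M.Group} (hp : p ∈ XR M X)
    (hu : u ∈ par M X) (hr : r ∈ XL M X) : Go M G p u r ≤ G (p * u) (u * r) := by
  refine sup_le ?_ (iSup_le ?_)
  · exact hC.g1 p u r u (len_XR_mul hp hu) (len_mul_XL hu hr)
  · rintro ⟨s, h1, h2⟩
    have hs : s ∈ X := dL_mem hu h1
    have e1 : p * sm M s * (sm M s * u) = p * u := by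
      rw [mul_assoc, sm_cancel]
    have e2 : u * sm M s * (sm M s * r) = u * r := by
      rw [mul_assoc, sm_cancel]
    have l1 : len M (p * sm M s) = len M p + 1 := hp s hs
    have l2 : len M (sm M s * r) = len M r + 1 := hr s hs
    have l3 := len_XR_mul hp hu
    have l4 := len_mul_XL hu hr
    have h3 := hC.g1 (p * sm M s) (sm M s * u) (sm M s * r) (u * sm M s)
      (by
        unfold Rd
        unfold dL at h1
        rw [e1]
        omega)
      (by
        unfold Rd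
        unfold dR at h2
        rw [e2]
        omega)
    rwa [e1, e2] at h3

/-- The term of `v = 1`. PROOF. `p 1 u` has degree at most `-la u` (`Loc.p1`), `Clm p 1 r`. -/
theorem tm_one (hC : Ctx β la F κ T0 N G) (hX : Sp β X) {p u r : M.Group} (hu : u ∈ par M X)
    (h : Clm F la κ G p 1 r) :
    Dec F (κ - la u) (Go M G p u r) (T0 - 1) (D.p 1 u • (D.T p * D.T 1 * D.T r)) := by
  have hP : Loc D X la := hC.dat.locS hX
  have hd : Dle (-(la u : ℤ)) (D.p 1 u) := hP.p1 u hu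
  obtain ⟨h1, h2⟩ := h
  rw [hC.dat.one, Nat.cast_zero, sub_zero, D.C_one] at h1 h2
  rw [mul_one, one_mul] at h2
  have ek : κ - la u = -(la u : ℤ) + κ := by ring
  rw [ek, D.T_one]
  refine Dec.main (F.smul hd h1) ?_
  rw [F.ldsmul hd h1]
  exact (le_sup_left : G p r ≤ Go M G p u r) (AddSubgroup.zsmul_mem _ h2 _)

/-- The term of a generator.
PROOF. `Hb` with `v1 = v2 = 1`: `T p * T s * T r ∈ Lam (κ - L s)` with leading term in
`G (p s) (s r)`. `p s u` has degree at most `L s - la u` (`Dat.p_dle`), so the term is in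
`Lam (κ - la u)` with leading term in `G (p s) (s r)`, and leading term `0` if not
`dL u s ∧ dR u s` (`Dat.p_sm`). -/
theorem tm_sm (hC : Ctx β la F κ T0 N G) (hX : Sp β X) {p u r : M.Group} {s : B} (hs : s ∈ X)
    (hp : p ∈ XR M X) (hu : u ∈ par M X) (hr : r ∈ XL M X)
    (h1 : Clm F la κ G p (sm M s) r) (h2 : Clm F la κ G p 1 r) :
    Dec F (κ - la u) (Go M G p u r) (T0 - 1)
      (D.p (sm M s) u • (D.T p * D.T (sm M s) * D.T r)) := by
  have hsX : sm M s ∈ par M X := sm_mem_par hs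
  obtain ⟨h3, h4⟩ := Hb (v := sm M s) (v1 := 1) (v2 := 1) hC hp hr (one_mem _) (one_mem _) hs
    (by rw [one_mul, mul_one]) (by rw [len_sm, len_one])
    (by rw [mul_one, one_mul]; exact h1) (by rw [mul_one, one_mul]; exact h2)
  have hd : Dle (L (sm M s) - la u) (D.p (sm M s) u) := hC.dat.p_dle hX hu hsX
  have ek : κ - la u = (L (sm M s) - la u) + (κ - L (sm M s)) := by ring
  rw [ek]
  refine Dec.main (F.smul hd h3) ?_
  rw [F.ldsmul hd h3]
  by_cases hds : dL M u s ∧ dR M u s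
  · have h5 : G (p * sm M s) (sm M s * r) ≤ Go M G p u r :=
      le_sup_of_le_right (le_iSup (fun s : {s : B // dL M u s ∧ dR M u s} =>
        G (p * sm M s) (sm M s * r)) ⟨s, hds⟩)
    exact h5 (AddSubgroup.zsmul_mem _ h4 _)
  · rw [hC.dat.p_sm hX hu hs hds, zero_smul]
    exact AddSubgroup.zero_mem _

/-- The term of an element with reduced product.
PROOF. `T p * T v * T r = T (p v r) ∈ Lam T0` (`v ≠ 1`), and `p v u` has degree at most `-1`
(`p_neg`). -/
theorem tm_rd {p u v r : M.Group} {n : ℕ} (hT : TB F T0 n)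
    (hr : len M (p * v * r) = len M p + len M v + len M r) (hv : v ≠ 1) (hne : v ≠ u)
    (hn : len M p + len M v + len M r < n) (K : AddSubgroup A) :
    Dec F (κ - la u) K (T0 - 1) (D.p v u • (D.T p * D.T v * D.T r)) := by
  have l1 := rs_mul_le (M := M) p v
  have l2 := rs_mul_le (M := M) (p * v) r
  have e1 : D.T p * D.T v * D.T r = D.T (p * v * r) := by
    rw [D.T_mul (p * v) r (by omega), D.T_mul p v (by omega)]
  have l3 : 0 < len M v := by
    rcases Nat.eq_zero_or_pos (len M v) with h | h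
    · exact absurd (M.toCoxeterSystem.length_eq_zero_iff.1 h) hv
    · exact h
  have h1 : p * v * r ≠ 1 := by
    intro h
    rw [h, len_one] at hr
    omega
  have h2 : D.T (p * v * r) ∈ F.Lam T0 := hT _ h1 (by omega)
  rw [e1]
  have h3 := F.smul (D.p_neg hne) h2
  rw [show (-1 : ℤ) + T0 = T0 - 1 by ring] at h3
  exact Dec.low h3

/-- PROOF. `C u - T u = ∑ p v u • T v` over the `v ≠ u` with `p v u ≠ 0`; these are in `par M X`
(`C_mem_HQ`, `mem_HQ`) and shorter than `u` (`p_zero`). -/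
theorem st_sum {p u r : M.Group} (hu : u ∈ par M X) {τ : ℤ} {K : AddSubgroup A}
    (h : ∀ v ∈ par M X, len M v < len M u →
      Dec F κ K τ (D.p v u • (D.T p * D.T v * D.T r))) :
    Dec F κ K τ (D.T p * D.C u * D.T r - D.T p * D.T u * D.T r) := by
  classical
  have hmem : u ∈ (D.T.repr (D.C u)).support := by
    rw [Finsupp.mem_support_iff]
    have h1 := D.p_self u
    unfold KLD.p at h1
    rw [h1]
    exact one_ne_zero
  have h2 : D.T.repr (D.C u) u = 1 := D.p_self u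
  rw [lq_expand D.T (D.T p) (D.T r) (D.C u), ← Finset.add_sum_erase _ _ hmem, h2, one_smul,
    add_sub_cancel_left]
  refine Dec.sum _ fun v hv => ?_
  obtain ⟨hne, hv2⟩ := Finset.mem_erase.1 hv
  have hv3 : D.p v u ≠ 0 := Finsupp.mem_support_iff.1 hv2
  refine h v ?_ ?_
  · by_contra hn
    exact hv3 ((mem_HQ D).1 (C_mem_HQ D hu) v hn)
  · by_contra hn
    exact hv3 (D.p_zero (not_lt.1 hn) hne)

/-- From the step to the claim, reduced case.
PROOF. `u` heavy: `Clm_hv`. Otherwise `la u < N` and `T0 ≤ κ - la u`; `h.final`, `Go_le`;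
`T p * T u * T r = T (p u r) ∈ Lam T0`, its leading term in degree `κ - la u` is `0` if
`T0 < κ - la u`, and in `G (p u) (u r)` by `g3` otherwise. -/
theorem clm_rd (hC : Ctx β la F κ T0 N G) (hX : Sp β X) {p u r : M.Group} (hp : p ∈ XR M X)
    (hu : u ∈ par M X) (hr : r ∈ XL M X) (h1 : u ≠ 1)
    (hl : len M (p * u * r) = len M p + len M u + len M r)
    (hT : D.T (p * u * r) ∈ F.Lam T0)
    (h : Dec F (κ - la u) (Go M G p u r) (T0 - 1)
      (D.T p * D.C u * D.T r - D.T p * D.T u * D.T r)) : Clm F la κ G p u r := by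
  by_cases hv : hv u
  · exact Clm_hv hC.idl hv
  have h2 : la u < N := by
    by_contra hn
    exact hv (hC.hin X hX u hu (not_lt.1 hn))
  have h3 : T0 ≤ κ - la u := hC.hT0 _ h2
  obtain ⟨h4, h5⟩ := h.final (by omega)
  have l1 := rs_mul_le (M := M) p u
  have l2 := rs_mul_le (M := M) (p * u) r
  have e1 : D.T p * D.T u * D.T r = D.T (p * u * r) := by
    rw [D.T_mul (p * u) r (by omega), D.T_mul p u (by omega)]
  have l3 : 0 < len M u := by
    rcases Nat.eq_zero_or_pos (len M u) with h | h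
    · exact absurd (M.toCoxeterSystem.length_eq_zero_iff.1 h) h1
    · exact h
  have hne : p * u * r ≠ 1 := by
    intro h
    rw [h, len_one] at hl
    omega
  rw [e1] at h4 h5
  have h6 : D.T (p * u * r) ∈ F.Lam (κ - la u) := F.mono h3 hT
  have h7 : F.ld (κ - la u) (D.T (p * u * r)) ∈ G (p * u) (u * r) := by
    rcases lt_or_eq_of_le h3 with h8 | h8
    · rw [F.lt h8 hT]
      exact AddSubgroup.zero_mem _
    · have h9 := hC.g3 X hX p hp u hu r hr hl hv h8.symm hne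
      rw [h8] at h9
      exact h9
  have e2 : D.T p * D.C u * D.T r =
      (D.T p * D.C u * D.T r - D.T (p * u * r)) + D.T (p * u * r) := by abel
  unfold Clm
  rw [e2]
  refine ⟨AddSubgroup.add_mem _ h4 h6, ?_⟩
  rw [map_add]
  exact AddSubgroup.add_mem _ (Go_le hC hp hu hr h5) h7

end en

end Pool.Agent.Helper63.LG
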