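import Pool.Agent.Helper63.LG.Co

/-!
# Blocks with large or infinite bonds between them, and the reduction
-/

namespace Pool.Agent.Helper63.LG

open Pool.Agent.Helper35.KL Pool.Agent.Helper35.AM Pool.Agent.Helper10.AM

section bl

variable {B : Type} {M : CoxeterMatrix B} {L : M.Group → ℤ}

/-- The inclusion of a parabolic subgroup in a larger one. -/
theorem isPar_incl (M : CoxeterMatrix B) {J K : Set B} (h : J ⊆ K) :
    IsPar (gmap (M := res M J) (M' := res M K) (Set.inclusion h) (fun _ _ => rfl))
      (Set.inclusion h) where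
  sm b := gmap_sm _ _ b
  len x := by
    have h1 := (isPar_inc M J).len x
    have h2 := (isPar_inc M K).len
      (gmap (M := res M J) (M' := res M K) (Set.inclusion h) (fun _ _ => rfl) x)
    have h3 : inc M K (gmap (M := res M J) (M' := res M K) (Set.inclusion h)
        (fun _ _ => rfl) x) = inc M J x :=
      gmap_comp (M₁ := res M J) (M₂ := res M K) (M₃ := M) (Set.inclusion h)
        (Subtype.val : K → B) (fun _ _ => rfl) (fun _ _ => rfl) (fun _ _ => rfl) x
    rw [h3] at h2
    rw [← h2, h1]

theorem lusztig_sub (hL : IsWeight M L) {J K : Set B} (h : J ⊆ K)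
    (hK : Lusztig (res M K) (resL L K)) : Lusztig (res M J) (resL L J) := by
  have h1 := lusztig_par (isPar_incl M h) (isWeight_res hL K) hK
  have h2 : (fun x => resL L K (gmap (M := res M J) (M' := res M K) (Set.inclusion h)
      (fun _ _ => rfl) x)) = resL L J := by
    funext x
    exact congrArg L (gmap_comp (M₁ := res M J) (M₂ := res M K) (M₃ := M) (Set.inclusion h)
        (Subtype.val : K → B) (fun _ _ => rfl) (fun _ _ => rfl) (fun _ _ => rfl) x)
  rwa [h2] at h1

/-- The step for a disjoint union of two sets with large finite bonds between them. -/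
theorem lusztig_big [Finite B] (hL : IsWeight M L) {I J : Set B} (hJI : J ⊆ I)
    (h : ∀ s ∈ J, ∀ t ∈ I \ J, 5 ≤ M s t) (h1 : Lusztig (res M J) (resL L J))
    (h2 : Lusztig (res M (I \ J)) (resL L (I \ J))) : Lusztig (res M I) (resL L I) := by
  classical
  have hb : Big (res M I) fun x : I => decide (x.1 ∈ J) := by
    rintro ⟨a, ha⟩ ⟨b, hb⟩ hab
    change decide (a ∈ J) ≠ decide (b ∈ J) at hab
    change 5 ≤ M a b
    by_cases haJ : a ∈ J
    · by_cases hbJ : b ∈ J
      · exact absurd (by rw [decide_eq_true haJ, decide_eq_true hbJ]) hab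
      · exact h a haJ b ⟨hb, hbJ⟩
    · by_cases hbJ : b ∈ J
      · rw [M.symmetric]
        exact h b hbJ a ⟨ha, haJ⟩
      · exact absurd (by rw [decide_eq_false haJ, decide_eq_false hbJ]) hab
  refine lusztig_two hb (isWeight_res hL I) fun i => ?_
  cases i
  · have e : blk (fun x : I => decide (x.1 ∈ J)) false = Subtype.val ⁻¹' (I \ J) := by
      ext x
      simp only [blk, Set.mem_ofPred_eq, decide_eq_false_iff_not, Set.mem_preimage, Set.mem_sdiff]
      exact ⟨fun h3 => ⟨x.2, h3⟩, fun h3 => h3.2⟩
    rw [e]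
    exact lusztig_res_res hL Set.sdiff_subset h2
  · have e : blk (fun x : I => decide (x.1 ∈ J)) true = Subtype.val ⁻¹' J := by
      ext x
      simp only [blk, Set.mem_ofPred_eq, decide_eq_true_eq, Set.mem_preimage]
    rw [e]
    exact lusztig_res_res hL hJI h1

/-- The set `T` of generators is not the union of two nonempty disjoint sets such that `m s t ≥ 5`
for all `s` in the first and `t` in the second set. -/
def Tight (M : CoxeterMatrix B) (T : Set B) : Prop :=
  ∀ J ⊆ T, J.Nonempty → (T \ J).Nonempty → ∃ s ∈ J, ∃ t ∈ T \ J, M s t < 5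

/-- The reduction, for the parabolic subgroups. -/
theorem lusztig_tight_aux [Finite B] (hL : IsWeight M L)
    (h : ∀ T : Set B, 3 ≤ T.encard → TwoSpherical M T → Irred M T → Tight M T →
      Lusztig (res M T) (resL L T)) (n : ℕ) :
    ∀ I : Set B, I.ncard = n → Lusztig (res M I) (resL L I) := by
  induction n using Nat.strong_induction_on with
  | _ n ih =>
    intro I hI
    have hfin : I.Finite := Set.toFinite I
    have hc : ∀ J ⊆ I, J.Nonempty → (I \ J).Nonempty → J.ncard < n ∧ (I \ J).ncard < n := by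
      intro J hJI hJ1 hJ2
      constructor
      · rw [← hI]
        refine Set.ncard_lt_ncard ⟨hJI, fun h5 => ?_⟩ hfin
        obtain ⟨x, hx⟩ := hJ2
        exact hx.2 (h5 hx.1)
      · rw [← hI]
        refine Set.ncard_lt_ncard ⟨Set.sdiff_subset, fun h5 => ?_⟩ hfin
        obtain ⟨x, hx⟩ := hJ1
        exact (h5 (hJI hx)).2 hx
    by_cases h2 : TwoSpherical M I
    · by_cases h3 : Irred M I
      · by_cases h6 : Tight M I
        · by_cases h4 : 3 ≤ I.encard
          · exact h I h4 h2 h3 h6
          · refine lusztig_small I ?_ (isWeight_res hL I)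
            rw [not_le] at h4
            exact Order.le_of_lt_add_one (by
              have h5 : (2 : ℕ∞) + 1 = 3 := by norm_num
              rw [h5]
              exact h4)
        · unfold Tight at h6
          push Not at h6
          obtain ⟨J, hJI, hJ1, hJ2, hJ3⟩ := h6
          obtain ⟨c1, c2⟩ := hc J hJI hJ1 hJ2
          exact lusztig_big hL hJI hJ3 (ih _ c1 _ rfl) (ih _ c2 _ rfl)
      · unfold Irred at h3
        push Not at h3
        obtain ⟨J, hJI, hJ1, hJ2, hJ3⟩ := h3
        obtain ⟨c1, c2⟩ := hc J hJI hJ1 hJ2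
        exact lusztig_dir hL hJI hJ3 (ih _ c1 _ rfl) (ih _ c2 _ rfl)
    · unfold TwoSpherical at h2
      push Not at h2
      obtain ⟨s, hs, t, ht, hst⟩ := h2
      have hne : s ≠ t := by
        intro h5
        rw [h5, M.diagonal] at hst
        exact one_ne_zero hst
      have c1 : (I \ {t}).ncard < n := by
        rw [← hI]
        exact Set.ncard_sdiff_singleton_lt_of_mem ht hfin
      have c2 : (I \ {s}).ncard < n := by
        rw [← hI]
        exact Set.ncard_sdiff_singleton_lt_of_mem hs hfin
      refine (lusztig_amalgam (isWeight_res hL I) (Subtype.val ⁻¹' (I \ {t}))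
        (Subtype.val ⁻¹' (I \ {s})) ?_ ?_).2
        ⟨lusztig_res_res hL Set.sdiff_subset (ih _ c1 _ rfl),
          lusztig_res_res hL Set.sdiff_subset (ih _ c2 _ rfl)⟩
      · refine Set.eq_univ_of_forall fun x => ?_
        by_cases hx : x.1 = t
        · exact Or.inr ⟨x.2, fun hx2 => hne (hx2.symm.trans hx)⟩
        · exact Or.inl ⟨x.2, hx⟩
      · intro x hx y hy
        have h5 : x.1 = s := by
          by_contra hc
          exact hx.2 ⟨x.2, hc⟩
        have h6 : y.1 = t := by
          by_contra hc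
          exact hy.2 ⟨y.2, hc⟩
        change M x.1 y.1 = 0
        rw [h5, h6]
        exact hst

/-- The reduction to irreducible groups of rank at least three without infinite bonds that are
not decomposed by bonds of order at least `5`. -/
theorem lusztig_tight [Finite B] (hL : IsWeight M L) :
    Lusztig M L ↔ ∀ T : Set B, 3 ≤ T.encard → TwoSpherical M T → Irred M T → Tight M T →
      Lusztig (res M T) (resL L T) :=
  ⟨fun h T _ _ _ _ => lusztig_res hL h T,
    fun h => lusztig_of_univ hL (lusztig_tight_aux hL h _ Set.univ rfl)⟩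

/-- Blocks with large or infinite bonds between them. -/
theorem lusztig_blocks [Finite B] (hL : IsWeight M L) {ι : Type} (β : B → ι)
    (hb : ∀ s t, β s ≠ β t → M s t = 0 ∨ 5 ≤ M s t) :
    Lusztig M L ↔ ∀ i, Lusztig (res M {b | β b = i}) (resL L {b | β b = i}) := by
  refine ⟨fun h i => lusztig_res hL h _, fun h => (lusztig_tight hL).2 ?_⟩
  intro T hT h2 _ h3
  have hne : T.Nonempty := by
    rw [Set.nonempty_iff_ne_empty]
    intro h5
    rw [h5, Set.encard_empty] at hT
    exact absurd hT (by decide)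
  obtain ⟨s, hs⟩ := hne
  have h5 : T ⊆ {b | β b = β s} := by
    by_contra hcon
    have h6 : (T \ {b | β b = β s}).Nonempty := by
      rw [Set.nonempty_iff_ne_empty]
      intro h7
      exact hcon (Set.sdiff_eq_empty.1 h7)
    have h7 : T \ (T ∩ {b | β b = β s}) = T \ {b | β b = β s} := by
      ext x
      simp only [Set.mem_sdiff, Set.mem_inter_iff, Set.mem_ofPred_eq]
      tauto
    obtain ⟨a, ha, t, ht, hat⟩ := h3 (T ∩ {b | β b = β s}) Set.inter_subset_left ⟨s, hs, rfl⟩
      (by rw [h7]; exact h6)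
    rw [h7] at ht
    have h8 : β a ≠ β t := by
      intro h9
      apply ht.2
      change β t = β s
      rw [← h9]
      exact ha.2
    rcases hb a t h8 with h9 | h9
    · exact h2 a ha.1 t ht.1 h9
    · omega
  exact lusztig_sub hL h5 (h (β s))

/-- An unconditional case: all sets of at least three generators with finite bonds are decomposed
by bonds of order `2` or by bonds of order at least `5`. -/
theorem lusztig_split [Finite B] (hL : IsWeight M L)
    (h : ∀ T : Set B, 3 ≤ T.encard → TwoSpherical M T → ∃ J ⊆ T, J.Nonempty ∧ (T \ J).Nonempty ∧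
      ((∀ s ∈ J, ∀ t ∈ T \ J, M s t = 2) ∨ ∀ s ∈ J, ∀ t ∈ T \ J, 5 ≤ M s t)) :
    Lusztig M L := by
  refine (lusztig_tight hL).2 fun T hT h2 h3 h4 => ?_
  exfalso
  obtain ⟨J, hJ, hJ1, hJ2, h5 | h5⟩ := h T hT h2
  · obtain ⟨s, hs, t, ht, hst⟩ := h3 J hJ hJ1 hJ2
    exact hst (h5 s hs t ht)
  · obtain ⟨s, hs, t, ht, hst⟩ := h4 J hJ hJ1 hJ2
    have := h5 s hs t ht
    omega

end bl

/-- The question for all groups follows from the question for irreducible groups of rank at least
three without infinite bonds that are not decomposed by bonds of order at least `5`. -/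
theorem question_tight
    (hq : ∀ (B : Type) [Finite B] (M : CoxeterMatrix B) (L : M.Group → ℤ), IsWeight M L →
      3 ≤ (Set.univ : Set B).encard → TwoSpherical M Set.univ → Irred M Set.univ →
      Tight M Set.univ →
      ∀ (H : Type) [Ring H] [Algebra LP H] (D : KLD M L H), D.Bounded → D.Lus)
    (B : Type) [Finite B] (M : CoxeterMatrix B) (L : M.Group → ℤ) (hL : IsWeight M L)
    (H : Type) [Ring H] [Algebra LP H] (D : KLD M L H) (hb : D.Bounded) : D.Lus := by
  refine (((lusztig_tight hL).2 fun T hT h2 hi ht' => ?_) H D).2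
  intro H' _ _ D'
  have hb' : D'.Bounded := bounded_res hb T D'
  have hsub : ∀ J : Set T, (Set.univ \ J).Nonempty → (T \ (Subtype.val '' J)).Nonempty := by
    rintro J ⟨x, hx⟩
    refine ⟨x.1, x.2, ?_⟩
    rintro ⟨y, hy, hxy⟩
    rw [Subtype.val_injective hxy] at hy
    exact hx.2 hy
  refine ⟨hb', hq T (res M T) (resL L T) (isWeight_res hL T) ?_ ?_ ?_ ?_ H' D' hb'⟩
  · rw [Set.encard_univ]
    exact hT
  · intro s _ t _
    exact h2 s.1 s.2 t.1 t.2
  · intro J _ hJ1 hJ2
    obtain ⟨s, hs, t, ht, hst⟩ := hi (Subtype.val '' J) (by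
      rintro _ ⟨x, -, rfl⟩
      exact x.2) (hJ1.image _) (hsub J hJ2)
    obtain ⟨s', hs', rfl⟩ := hs
    exact ⟨s', hs', ⟨t, ht.1⟩, ⟨Set.mem_univ _, fun h5 => ht.2 ⟨_, h5, rfl⟩⟩, hst⟩
  · intro J _ hJ1 hJ2
    obtain ⟨s, hs, t, ht, hst⟩ := ht' (Subtype.val '' J) (by
      rintro _ ⟨x, -, rfl⟩
      exact x.2) (hJ1.image _) (hsub J hJ2)
    obtain ⟨s', hs', rfl⟩ := hs
    exact ⟨s', hs', ⟨t, ht.1⟩, ⟨Set.mem_univ _, fun h5 => ht.2 ⟨_, h5, rfl⟩⟩, hst⟩

end Pool.Agent.Helper63.LG
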