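import Pool.Agent.Helper63.LG.G0

/-!
# Descents and pairs of generators in different blocks
-/

namespace Pool.Agent.Helper63.LG

open Pool.Agent.Helper35.KL Pool.Agent.Helper35.AM

section c1

variable {B : Type} {M : CoxeterMatrix B} {β : B → Bool} (hb : Big M β)

include hb

/-- The key fact: if `w` has two right descents `s`, `t` in different blocks, then `w * s` has
only the right descent `t`.
PROOF. Strong induction on `len w`. Suppose `c ≠ t`, `dR (w s) c`; `c ≠ s` by `dR_mul`. By `g1_R`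
`dR (w s) t`; again by `g1_R` (for `w s`, `t`, `c`) `dR (w s t) c`. By `ch5_R` (for `w`, `s`, `t`):
`dR (w s t) s` and `dR (w s t s) t`.
Case `β c ≠ β t`: induction for `w s` and the pair `(t, c)`: all right descents of `w s t` are
equal to `c`; so `s = c`, contradiction.
Case `β c = β t ≠ β s`: induction for `w s t` and the pair `(s, c)`: all right descents of
`w s t s` are equal to `c`, so `t = c`, contradiction. -/
theorem c1_R {w : M.Group} {s t c : B} (hst : β s ≠ β t) (hs : dR M w s) (ht : dR M w t)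
    (hc : dR M (w * sm M s) c) : c = t := by
  have key : ∀ n : ℕ, ∀ (w : M.Group) (s t c : B), len M w = n → β s ≠ β t → dR M w s →
      dR M w t → dR M (w * sm M s) c → c = t := by
    intro n
    induction n using Nat.strong_induction_on with
    | _ n ih =>
      intro w s t c hn hst hs ht hc
      by_contra hct
      have hcs : c ≠ s := by
        rintro rfl
        exact (dR_mul.1 hc) hs
      have hne : s ≠ t := fun h => hst (by rw [h])
      have h1 : dR M (w * sm M s) t := g1_R hs ht hne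
      have h2 : dR M (w * sm M s * sm M t) c := g1_R h1 hc (Ne.symm hct)
      obtain ⟨-, h3, h4, -⟩ := ch5_R hs ht hne (hb s t hst)
      have l1 : len M (w * sm M s) + 1 = len M w := hs
      have l2 : len M (w * sm M s * sm M t) + 1 = len M (w * sm M s) := h1
      by_cases hβ : β c = β t
      · have h5 : β s ≠ β c := by rw [hβ]; exact hst
        exact hct (ih (len M (w * sm M s * sm M t)) (by omega) (w * sm M s * sm M t) s c t rfl
          h5 h3 h2 h4).symm
      · have h5 : β t ≠ β c := Ne.symm hβ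
        exact hcs (ih (len M (w * sm M s)) (by omega) (w * sm M s) t c s rfl h5 h1 hc h3).symm
  exact key (len M w) w s t c rfl hst hs ht hc

/-- PROOF. `c1_R` for `w⁻¹`. -/
theorem c1_L {w : M.Group} {s t c : B} (hst : β s ≠ β t) (hs : dL M w s) (ht : dL M w t)
    (hc : dL M (sm M s * w) c) : c = t := by
  have h1 : dR M (w⁻¹ * sm M s) c := by
    have h := dR_inv.2 hc
    rwa [mul_inv_rev, sm_inv] at h
  exact c1_R hb hst (dR_inv.2 hs) (dR_inv.2 ht) h1

/-- PROOF. If `c ≠ s`, then `dR (w s) c` (`g1_R`) and `c = t` by `c1_R`. -/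
theorem c2_R {w : M.Group} {s t c : B} (hst : β s ≠ β t) (hs : dR M w s) (ht : dR M w t)
    (hc : dR M w c) : c = s ∨ c = t := by
  by_cases h : c = s
  · exact Or.inl h
  · exact Or.inr (c1_R hb hst hs ht (g1_R hs hc (Ne.symm h)))

theorem c2_L {w : M.Group} {s t c : B} (hst : β s ≠ β t) (hs : dL M w s) (ht : dL M w t)
    (hc : dL M w c) : c = s ∨ c = t :=
  c2_R hb hst (dR_inv.2 hs) (dR_inv.2 ht) (dR_inv.2 hc)

/-- PROOF. Suppose `c ≠ x`, `c ≠ y`. If `β c ≠ β x`: `c1_R` (`w`, `x`, `c`): the right descents of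
`w x` are equal to `c`, but `y` is one. If `β c = β x ≠ β y`: `dR (w x) c` (`g1_R`); `c1_R` for
`w x` and `(y, c)`: the right descents of `w x y` are equal to `c`, but `x` is one. -/
theorem d1_R {w : M.Group} {x y c : B} (hxy : β x ≠ β y) (h1 : dR M w x)
    (h2 : dR M (w * sm M x) y) (h3 : dR M (w * sm M x * sm M y) x) (hc : dR M w c) :
    c = x ∨ c = y := by
  by_contra hcon
  rw [not_or] at hcon
  obtain ⟨hx, hy⟩ := hcon
  by_cases h : β c = β x
  · have hcy : β y ≠ β c := fun e => hxy (by rw [← h, e])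
    have h4 : dR M (w * sm M x) c := g1_R h1 hc (Ne.symm hx)
    exact hx (c1_R hb hcy h2 h4 h3).symm
  · exact hy (c1_R hb (fun e => h e.symm) h1 hc h2).symm

theorem d1_L {w : M.Group} {x y c : B} (hxy : β x ≠ β y) (h1 : dL M w x)
    (h2 : dL M (sm M x * w) y) (h3 : dL M (sm M y * (sm M x * w)) x) (hc : dL M w c) :
    c = x ∨ c = y := by
  by_contra hcon
  rw [not_or] at hcon
  obtain ⟨hx, hy⟩ := hcon
  by_cases h : β c = β x
  · have hcy : β y ≠ β c := fun e => hxy (by rw [← h, e])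
    have h4 : dL M (sm M x * w) c := g1_L h1 hc (Ne.symm hx)
    exact hx (c1_L hb hcy h2 h4 h3).symm
  · exact hy (c1_L hb (fun e => h e.symm) h1 hc h2).symm

/-- PROOF. If `β c ≠ β x`: `c1_R` (`w`, `x`, `c`) gives `y = c`, contradiction. So
`β c = β x ≠ β y`, and `dR (w x) c` by `g1_R`. `M c x ≠ 1` as `c ≠ x`, `M c x ≠ 0` by `two_R`.
If `M c x ≠ 2` then `dR (w x c) x` by `g2_R` (for `w`, `x`, `c`), and `c1_R` for `w x` and the pair
`(c, y)` says that all right descents of `w x c` are equal to `y`; so `x = y`, contradiction. -/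
theorem d2_R {w : M.Group} {x y c : B} (hxy : β x ≠ β y) (h1 : dR M w x)
    (h2 : dR M (w * sm M x) y) (hc : dR M w c) (hx : c ≠ x) (hy : c ≠ y) :
    β c = β x ∧ M c x = 2 ∧ dR M (w * sm M x) c := by
  have h : β c = β x := by
    by_contra h
    exact hy (c1_R hb (fun e => h e.symm) h1 hc h2).symm
  have h4 : dR M (w * sm M x) c := g1_R h1 hc (Ne.symm hx)
  refine ⟨h, ?_, h4⟩
  by_contra h5
  have h6 : M x c ≠ 2 := by rwa [M.symmetric]
  have h7 := g2_R h1 hc (Ne.symm hx) h6
  have h8 : x = y := c1_R hb (fun e => hxy (by rw [← h, e])) h4 h2 h7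
  exact hxy (by rw [h8])

theorem d2_L {w : M.Group} {x y c : B} (hxy : β x ≠ β y) (h1 : dL M w x)
    (h2 : dL M (sm M x * w) y) (hc : dL M w c) (hx : c ≠ x) (hy : c ≠ y) :
    β c = β x ∧ M c x = 2 ∧ dL M (sm M x * w) c := by
  have h : β c = β x := by
    by_contra h
    exact hy (c1_L hb (fun e => h e.symm) h1 hc h2).symm
  have h4 : dL M (sm M x * w) c := g1_L h1 hc (Ne.symm hx)
  refine ⟨h, ?_, h4⟩
  by_contra h5
  have h6 : M x c ≠ 2 := by rwa [M.symmetric]
  have h7 := g2_L h1 hc (Ne.symm hx) h6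
  have h8 : x = y := c1_L hb (fun e => hxy (by rw [← h, e])) h4 h2 h7
  exact hxy (by rw [h8])

/-- PROOF. If `dR w g` then `c1_R` (`w`, `d`, `g`) gives `e = g`. -/
theorem d3_R {w : M.Group} {d e g : B} (hde : β d = β e) (hg : β g ≠ β d) (h1 : dR M w d)
    (h2 : dR M (w * sm M d) e) : ¬ dR M w g := by
  intro h
  have h3 : e = g := c1_R hb (Ne.symm hg) h1 h h2
  exact hg (by rw [← h3, hde])

theorem d3_L {w : M.Group} {d e g : B} (hde : β d = β e) (hg : β g ≠ β d) (h1 : dL M w d)
    (h2 : dL M (sm M d * w) e) : ¬ dL M w g := by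
  intro h
  have h3 : e = g := c1_L hb (Ne.symm hg) h1 h h2
  exact hg (by rw [← h3, hde])

/-- If `w` has the right descents `e`, `g` in different blocks: `w * g` has the suffix
`v = wJ e g * g` of length `M e g - 1`.
PROOF. `two_R`: `w = z * wJ e g`; `v = wJ e g * g`, `z ∈ XR M {e, g}`. `len w = len z + M e g`
and `len (w g) = len w - 1`, `len (z v) = len z + len v` (`len_XR_mul`). `dR v e` by `g1_R` (for
`w` and `dR_XR`), not `dR v g`. `5 ≤ M e g`. -/
theorem w1_R {w : M.Group} {e g : B} (heg : β e ≠ β g) (he : dR M w e) (hg : dR M w g) :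
    ∃ z ∈ XR M ({e, g} : Set B), ∃ v ∈ par M ({e, g} : Set B), w * sm M g = z * v ∧
      len M w = len M z + len M v + 1 ∧ 4 ≤ len M v ∧ dR M v e ∧ ¬ dR M v g := by
  have hne : e ≠ g := fun h => heg (by rw [h])
  obtain ⟨-, z, hz, hw, hl⟩ := two_R he hg hne
  have hv : wJ M e g * sm M g ∈ par M ({e, g} : Set B) :=
    (par M _).mul_mem (wJ_mem e g) (sm_mem_par (by simp))
  have h1 : w * sm M g = z * (wJ M e g * sm M g) := by
    rw [← mul_assoc, ← hw]
  have h2 := len_XR_mul hz hv
  rw [← h1] at h2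
  have h3 : len M (w * sm M g) + 1 = len M w := hg
  have h4 := hb e g heg
  refine ⟨z, hz, wJ M e g * sm M g, hv, h1, by omega, by omega, ?_, ?_⟩
  · rw [← dR_XR hz hv (by simp), ← h1]
    exact g1_R hg he (Ne.symm hne)
  · rw [← dR_XR hz hv (by simp), ← h1, dR_mul, not_not]
    exact hg

theorem w1_L {w : M.Group} {e g : B} (heg : β e ≠ β g) (he : dL M w e) (hg : dL M w g) :
    ∃ z ∈ XL M ({e, g} : Set B), ∃ v ∈ par M ({e, g} : Set B), sm M g * w = v * z ∧
      len M w = len M z + len M v + 1 ∧ 4 ≤ len M v ∧ dL M v e ∧ ¬ dL M v g := by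
  obtain ⟨z, hz, v, hv, h1, h2, h3, h4, h5⟩ := w1_R hb heg (dR_inv.2 he) (dR_inv.2 hg)
  refine ⟨z⁻¹, inv_mem_XL.2 hz, v⁻¹, (par M _).inv_mem hv, ?_, ?_, ?_, ?_, ?_⟩
  · have h6 := congrArg (fun x => x⁻¹) h1
    simp only [mul_inv_rev, inv_inv, sm_inv] at h6
    exact h6
  · rw [len_inv] at h2
    rw [len_inv, len_inv]
    exact h2
  · rw [len_inv]
    exact h3
  · rw [dL_inv]
    exact h4
  · rw [dL_inv]
    exact h5

/-- PROOF. `M.symmetric`. -/
theorem Big.symm' {a b : B} (h : β a ≠ β b) : 5 ≤ M a b ∧ 5 ≤ M b a ∧ a ≠ b :=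
  ⟨hb a b h, hb b a (Ne.symm h), fun e => h (by rw [e])⟩

end c1

/-- Two elements of a chain: if `a ∈ {x, y}` starts an element whose letters `x, y, x` ... this is
the contradiction used many times: the left descents of `w` are in `{x, y}`, so `z` is not one.
PROOF. `d1_L`. -/
theorem no_L {B : Type} {M : CoxeterMatrix B} {β : B → Bool} (hb : Big M β) {w : M.Group}
    {x y z : B} (hxy : β x ≠ β y) (h1 : dL M w x) (h2 : dL M (sm M x * w) y)
    (h3 : dL M (sm M y * (sm M x * w)) x) (hz : dL M w z) (hzx : z ≠ x) (hzy : z ≠ y) :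
    False :=
  (d1_L hb hxy h1 h2 h3 hz).elim hzx hzy

end Pool.Agent.Helper63.LG
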