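import Pool.Agent.Helper63.LG.C1

/-!
# Pieces and heavy elements
-/

namespace Pool.Agent.Helper63.LG

open Pool.Agent.Helper35.KL Pool.Agent.Helper35.AM

section sp

variable {B : Type} {β : B → Bool} {X Y : Set B}

theorem Sp.sub (h : Sp β X) (hY : Y ⊆ X) : Sp β Y := by
  rcases h with ⟨i, hi⟩ | ⟨a, b, hab, hi⟩
  · exact Or.inl ⟨i, hY.trans hi⟩
  · exact Or.inr ⟨a, b, hab, hY.trans hi⟩

theorem Sp_blk (i : Bool) : Sp β (blk β i) := Or.inl ⟨i, subset_rfl⟩

/-- Every pair of generators is a piece. PROOF. Same block, or different blocks. -/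
theorem Sp_pair (β : B → Bool) (a b : B) : Sp β {a, b} := by
  by_cases h : β a = β b
  · refine Or.inl ⟨β a, ?_⟩
    rintro c (rfl | rfl)
    · rfl
    · exact h.symm
  · exact Or.inr ⟨a, b, h, subset_rfl⟩

theorem Sp_single (β : B → Bool) (a : B) : Sp β {a} := by
  refine Or.inl ⟨β a, ?_⟩
  rintro c rfl
  rfl

theorem Sp_empty (β : B → Bool) : Sp β ∅ := Or.inl ⟨true, Set.empty_subset _⟩

/-- A piece is contained in a block or in a pair. -/
theorem Sp.main (h : Sp β X) :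
    ∃ Y, X ⊆ Y ∧ ((∃ i, Y = blk β i) ∨ ∃ a b, β a ≠ β b ∧ Y = {a, b}) := by
  rcases h with ⟨i, hi⟩ | ⟨a, b, hab, hi⟩
  · exact ⟨_, hi, Or.inl ⟨i, rfl⟩⟩
  · exact ⟨_, hi, Or.inr ⟨a, b, hab, rfl⟩⟩

end sp

section oc

variable {B : Type} {M : CoxeterMatrix B} {L : M.Group → ℤ} {H : Type} [Ring H] [Algebra LP H]
variable {D : KLD M L H} {β : B → Bool} {la : M.Group → ℕ} (hD : Dat D β la)
variable {X : Set B}

theorem Occ.mono {N N' : ℕ} {w : M.Group} (h : Occ M β la N' w) (hN : N ≤ N') :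
    Occ M β la N w := by
  obtain ⟨X, hX, x, g, y, hg, h1, h2⟩ := h
  exact ⟨X, hX, x, g, y, hg, hN.trans h1, h2⟩

theorem Occ.zero (w : M.Group) : Occ M β la 0 w :=
  ⟨∅, Sp_empty β, w, 1, 1, one_mem _, Nat.zero_le _, by simp, by simp⟩

theorem Occ.of_mem {N : ℕ} {g : M.Group} (hX : Sp β X) (hg : g ∈ par M X) (h : N ≤ la g) :
    Occ M β la N g :=
  ⟨X, hX, 1, g, 1, hg, h, by simp, by simp⟩

/-- PROOF. `w = x * g * (y * z)`; lengths: `rs_mul_le`. -/
theorem Occ.rd_left {N : ℕ} {x y : M.Group} (hr : Rd M x y) (h : Occ M β la N x) :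
    Occ M β la N (x * y) := by
  obtain ⟨X, hX, u, g, v, hg, h1, h2, h3⟩ := h
  have he : x * y = u * g * (v * y) := by rw [h2, mul_assoc]
  refine ⟨X, hX, u, g, v * y, hg, h1, he, ?_⟩
  have hr' : len M (x * y) = len M x + len M y := hr
  have a1 := rs_mul_le (M := M) (u * g) (v * y)
  have a2 := rs_mul_le (M := M) u g
  have a3 := rs_mul_le (M := M) v y
  rw [← he] at a1
  omega

theorem Occ.rd_right {N : ℕ} {x y : M.Group} (hr : Rd M x y) (h : Occ M β la N y) :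
    Occ M β la N (x * y) := by
  obtain ⟨X, hX, u, g, v, hg, h1, h2, h3⟩ := h
  have he : x * y = x * u * g * v := by rw [h2]; group
  refine ⟨X, hX, x * u, g, v, hg, h1, he, ?_⟩
  have hr' : len M (x * y) = len M x + len M y := hr
  have a1 := rs_mul_le (M := M) (x * u * g) v
  have a2 := rs_mul_le (M := M) (x * u) g
  have a3 := rs_mul_le (M := M) x u
  rw [← he] at a1
  omega

include hD

/-- PROOF. `Sp.main` and `loc_sub`. -/
theorem Dat.locS (h : Sp β X) : Loc D X la := by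
  rcases h with ⟨i, hi⟩ | ⟨a, b, hab, hi⟩
  · exact loc_sub D hi (hD.loc i)
  · exact loc_sub D hi (hD.locX a b hab)

theorem Dat.cycS (h : Sp β X) : Cyc D X la := by
  rcases h with ⟨i, hi⟩ | ⟨a, b, hab, hi⟩
  · exact fun x hx y hy z hz =>
      hD.cyc i x (par_mono hi hx) y (par_mono hi hy) z (par_mono hi hz)
  · exact fun x hx y hy z hz =>
      hD.cycX a b hab x (par_mono hi hx) y (par_mono hi hy) z (par_mono hi hz)

/-- PROOF. `la_mul`. -/
theorem Dat.mul (h : Sp β X) {x y : M.Group} (hx : x ∈ par M X) (hy : y ∈ par M X)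
    (hr : Rd M x y) : la x ≤ la (x * y) ∧ la y ≤ la (x * y) :=
  la_mul D (hD.locS h) hx hy hr

theorem Dat.inv (h : Sp β X) {z : M.Group} (hz : z ∈ par M X) : la z⁻¹ = la z :=
  (hD.locS h).lainv z hz

/-- PROOF. `la_one` for the empty piece. -/
theorem Dat.one : la 1 = 0 := la_one D (hD.locS (Sp_empty β)) hD.wt

/-- PROOF. `w⁻¹ = y⁻¹ * g⁻¹ * x⁻¹`, `len_inv`, `Dat.inv`. -/
theorem Dat.occ_inv {N : ℕ} {w : M.Group} (h : Occ M β la N w) : Occ M β la N w⁻¹ := by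
  obtain ⟨X, hX, u, g, v, hg, h1, h2, h3⟩ := h
  refine ⟨X, hX, v⁻¹, g⁻¹, u⁻¹, inv_mem hg, ?_, ?_, ?_⟩
  · rw [hD.inv hX hg]
    exact h1
  · rw [h2]
    group
  · rw [len_inv, len_inv, len_inv, len_inv]
    omega

/-- PROOF. `g = x * g' * y` reduced with `g' ∈ par M Y`: then `x`, `g'`, `y` are in `par M X`
(`par_of_mul` twice) and `N ≤ la g' ≤ la (x * g') ≤ la g` (`Dat.mul` for `X`). -/
theorem Dat.occ_mem {N : ℕ} {g : M.Group} (hX : Sp β X) (hg : g ∈ par M X) :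
    Occ M β la N g ↔ N ≤ la g := by
  constructor
  · rintro ⟨Y, hY, x, g', y, hg', hN, he, hl⟩
    have a1 := rs_mul_le (M := M) (x * g') y
    have a2 := rs_mul_le (M := M) x g'
    rw [he] at hl
    have h1 : len M (x * g' * y) = len M (x * g') + len M y := by omega
    have h2 : len M (x * g') = len M x + len M g' := by omega
    rw [he] at hg
    obtain ⟨ha, hb⟩ := par_of_mul h1 hg
    obtain ⟨hc, hd⟩ := par_of_mul h2 ha
    have h3 := (hD.mul hX hc hd h2).2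
    have h4 := (hD.mul hX ha hb h1).1
    rw [he]
    omega
  · exact fun h => Occ.of_mem hX hg h

/-- Normal form of a heavy element, for a block or a pair.
PROOF. `w = x * g * y` with `g ∈ par M Z`, `Z ⊆ Y` by `Sp.main`, `g ∈ par M Y` (`par_mono`).
`x = p * k1` (`exists_XR`), `y = k2 * r` (`exists_XL`); `g' = k1 * g * k2`; the lengths add up
(`len_XR_mul`, `len_mul_XL`), so `k1 * g`, `g'` are reduced products, `N ≤ la g ≤ la g'`
(`Dat.mul` twice). -/
theorem Dat.nf {N : ℕ} {w : M.Group} (h : Occ M β la N w) :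
    ∃ Y, ((∃ i, Y = blk β i) ∨ ∃ a b, β a ≠ β b ∧ Y = {a, b}) ∧
      ∃ p ∈ XR M Y, ∃ g ∈ par M Y, ∃ r ∈ XL M Y, w = p * g * r ∧
        len M w = len M p + len M g + len M r ∧ N ≤ la g := by
  obtain ⟨Z, hZ, x, g, y, hg, hN, he, hl⟩ := h
  obtain ⟨Y, hZY, hY⟩ := hZ.main
  have hSp : Sp β Y := by
    rcases hY with ⟨i, rfl⟩ | ⟨a, b, _, rfl⟩
    · exact Sp_blk i
    · exact Sp_pair β a b
  have hgY : g ∈ par M Y := par_mono hZY hg
  obtain ⟨p, hp, k1, hk1, e1⟩ := exists_XR Y x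
  obtain ⟨k2, hk2, r, hr, e2⟩ := exists_XL Y y
  have l1 := len_XR_mul hp hk1
  have l2 := len_mul_XL hk2 hr
  rw [← e1] at l1
  rw [← e2] at l2
  have a1 := rs_mul_le (M := M) (p * (k1 * g * k2)) r
  have a2 := rs_mul_le (M := M) p (k1 * g * k2)
  have a3 := rs_mul_le (M := M) (k1 * g) k2
  have a4 := rs_mul_le (M := M) k1 g
  have he' : w = p * (k1 * g * k2) * r := by
    rw [he, e1, e2]
    group
  rw [← he'] at a1
  have hk : k1 * g ∈ par M Y := Subgroup.mul_mem _ hk1 hgY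
  have h1 : len M (k1 * g * k2) = len M (k1 * g) + len M k2 := by omega
  have h2 : len M (k1 * g) = len M k1 + len M g := by omega
  have h3 := (hD.mul hSp hk1 hgY h2).2
  have h4 := (hD.mul hSp hk hk2 h1).1
  exact ⟨Y, hY, p, hp, k1 * g * k2, Subgroup.mul_mem _ hk hk2, r, hr, he', by omega, by omega⟩

/-- PROOF. There are finitely many pieces that are blocks or pairs, each `Loc` has `bdd`; take
`N` larger than all bounds and use `Dat.nf`. -/
theorem Dat.bdd [Finite B] : ∃ N : ℕ, ∀ w, ¬ Occ M β la N w := by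
  have h1 : ∀ i, ∃ N : ℕ, ∀ z ∈ par M (blk β i), la z ≤ N := fun i => (hD.loc i).bdd
  have h2 : ∀ ab : B × B, ∃ N : ℕ, β ab.1 ≠ β ab.2 →
      ∀ z ∈ par M ({ab.1, ab.2} : Set B), la z ≤ N := by
    intro ab
    by_cases h : β ab.1 ≠ β ab.2
    · obtain ⟨N, hN⟩ := (hD.locX ab.1 ab.2 h).bdd
      exact ⟨N, fun _ => hN⟩
    · exact ⟨0, fun h' => absurd h' h⟩
  choose f hf using h1
  choose g hg using h2
  obtain ⟨F, hF⟩ := Finite.exists_le f
  obtain ⟨G, hG⟩ := Finite.exists_le g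
  refine ⟨F + G + 1, fun w hw => ?_⟩
  obtain ⟨Y, hY, p, hp, u, hu, r, hr, he, hl, hN⟩ := hD.nf hw
  rcases hY with ⟨i, rfl⟩ | ⟨a, b, hab, rfl⟩
  · have h3 := hf i u hu
    have h4 := hF i
    omega
  · have h3 := hg (a, b) hab u hu
    have h4 := hG (a, b)
    omega

end oc

end Pool.Agent.Helper63.LG
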