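import Pool.Agent.Helper63.LG.C1
import Pool.Agent.Helper63.LG.Oc

/-!
# Elements of finite dihedral subgroups and their weights
-/

namespace Pool.Agent.Helper63.LG

open Pool.Agent.Helper35.KL Pool.Agent.Helper35.AM

section wt

variable {B : Type} {M : CoxeterMatrix B} {e c : B}

/-- Pairs of generators of a finite subgroup. -/
structure Fin2 (M : CoxeterMatrix B) (e c : B) : Prop where
  ne : e ≠ c
  m0 : M e c ≠ 0
  lw : len M (wJ M e c) = M e c

/-- The element with `i` letters in `{e, c}` that ends with `e`. -/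
noncomputable def xe (M : CoxeterMatrix B) (e c : B) (i : ℕ) : M.Group :=
  (rsA (sm M e) (sm M c) i)⁻¹

/-- The element with `i` letters in `{e, c}` that starts with `e`. -/
noncomputable def ye (M : CoxeterMatrix B) (e c : B) (i : ℕ) : M.Group :=
  rsA (sm M e) (sm M c) i

/-! Piece W-a -/

theorem xe_inv (i : ℕ) : (xe M e c i)⁻¹ = ye M e c i := inv_inv _

theorem ye_inv (i : ℕ) : (ye M e c i)⁻¹ = xe M e c i := rfl

theorem xe_zero : xe M e c 0 = 1 := by
  unfold xe
  rw [rsA_zero, inv_one]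

theorem ye_zero : ye M e c 0 = 1 := rfl

theorem xe_one : xe M e c 1 = sm M e := by
  unfold xe
  rw [rsA_succ, rsA_zero, mul_one, sm_inv]

theorem ye_one : ye M e c 1 = sm M e := by
  unfold ye
  rw [rsA_succ, rsA_zero, mul_one]

theorem xe_succ (i : ℕ) : xe M e c (i + 1) = xe M c e i * sm M e := by
  unfold xe
  rw [rsA_succ, mul_inv_rev, sm_inv]

theorem ye_succ (i : ℕ) : ye M e c (i + 1) = sm M e * ye M c e i := rfl

theorem xe_mem (i : ℕ) : xe M e c i ∈ par M ({e, c} : Set B) := by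
  induction i generalizing e c with
  | zero =>
    rw [xe_zero]
    exact Subgroup.one_mem _
  | succ i ih =>
    rw [xe_succ]
    refine Subgroup.mul_mem _ ?_ (sm_mem_par (by simp))
    rw [Set.pair_comm]
    exact ih

theorem ye_mem (i : ℕ) : ye M e c i ∈ par M ({e, c} : Set B) := by
  rw [← xe_inv]
  exact Subgroup.inv_mem _ (xe_mem i)

theorem Fin2.symm (h : Fin2 M e c) : Fin2 M c e := by
  refine ⟨h.ne.symm, ?_, ?_⟩
  · rw [M.symmetric c e]
    exact h.m0
  · rw [wJ_symm, M.symmetric c e]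
    exact h.lw

theorem Fin2.two (h : Fin2 M e c) : 2 ≤ M e c := by
  have h1 := M.off_diagonal e c h.ne
  have h2 := h.m0
  omega

/-- PROOF. `two_R`, `len_wJ`. -/
theorem Fin2.of_R {w : M.Group} (h1 : dR M w e) (h2 : dR M w c) (h : e ≠ c) :
    Fin2 M e c :=
  ⟨h, (two_R h1 h2 h).1, len_wJ h1 h2 h⟩

theorem Fin2.of_L {w : M.Group} (h1 : dL M w e) (h2 : dL M w c) (h : e ≠ c) :
    Fin2 M e c :=
  Fin2.of_R (dR_inv.2 h1) (dR_inv.2 h2) h

/-- PROOF. `wJ M e c = ye M e c (M e c)` is the product of `ye M e c i` and `M e c - i` letters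
(`rsA_split`, `len_rsA_le`). -/
theorem ye_len (h : Fin2 M e c) {i : ℕ} (hi : i ≤ M e c) : len M (ye M e c i) = i := by
  obtain ⟨x, hx, hx2⟩ := rsA_split (M := M) e c hi
  have h1 := h.lw
  unfold wJ at h1
  rw [hx] at h1
  have h2 := rs_mul_le (M := M) (rsA (sm M e) (sm M c) i) x
  have h3 := len_rsA_le (M := M) e c i
  unfold ye
  omega

theorem xe_len (h : Fin2 M e c) {i : ℕ} (hi : i ≤ M e c) : len M (xe M e c i) = i := by
  rw [← ye_inv, len_inv]
  exact ye_len h hi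

/-- PROOF. `xe M e c i * sm M c = xe M c e (i + 1)`. -/
theorem xe_not (h : Fin2 M e c) {i : ℕ} (hi : i < M e c) : ¬ dR M (xe M e c i) c := by
  rw [not_dR, ← xe_succ, xe_len h hi.le, xe_len h.symm (by rw [M.symmetric c e]; omega)]

theorem ye_not (h : Fin2 M e c) {i : ℕ} (hi : i < M e c) : ¬ dL M (ye M e c i) c := by
  rw [← dR_inv, ye_inv]
  exact xe_not h hi

theorem xe_dR (h : Fin2 M e c) {i : ℕ} (hi : i + 1 ≤ M e c) :
    dR M (xe M e c (i + 1)) e := by
  rw [xe_succ, dR_mul]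
  exact xe_not h.symm (by rw [M.symmetric c e]; omega)

theorem ye_dL (h : Fin2 M e c) {i : ℕ} (hi : i + 1 ≤ M e c) :
    dL M (ye M e c (i + 1)) e := by
  rw [← dR_inv, ye_inv]
  exact xe_dR h hi

private theorem Wa_top (e c : B) : xe M e c (M e c) = wJ M e c := wJ_inv e c

/-- PROOF. `wJ_symm`, `wJ_inv`, `M.symmetric`. -/
theorem xe_top (h : Fin2 M e c) : xe M e c (M e c - 1) * sm M c = wJ M e c := by
  have h2 := h.two
  rw [← xe_succ, wJ_symm, ← Wa_top, M.symmetric c e, Nat.sub_add_cancel (by omega)]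

theorem ye_top (h : Fin2 M e c) : sm M c * ye M e c (M e c - 1) = wJ M e c := by
  have h1 := congrArg (fun g => g⁻¹) (xe_top h)
  simp only [mul_inv_rev, sm_inv, xe_inv, wJ_inv] at h1
  exact h1

/-- PROOF. `wJ M e c = xe M e c (M e c) = xe M c e (M e c - 1) * sm M e`. -/
theorem xe_sub (h : Fin2 M e c) : xe M e c (M e c - 2) * sm M c = wJ M e c * sm M e := by
  have h2 := h.two
  obtain ⟨m, hm⟩ : ∃ m, M e c = m + 2 := ⟨M e c - 2, by omega⟩
  have h3 : M e c - 2 = m := by omega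
  rw [← xe_succ, h3, ← Wa_top, hm, xe_succ (m + 1), mul_assoc, sm_sm, mul_one]

theorem ye_sub (h : Fin2 M e c) : sm M c * ye M e c (M e c - 2) = sm M e * wJ M e c := by
  have h1 := congrArg (fun g => g⁻¹) (xe_sub h)
  simp only [mul_inv_rev, sm_inv, xe_inv, wJ_inv] at h1
  exact h1

/-- PROOF. `rs_alt` for `y⁻¹`. If `len y = M e c` then `y = wJ` (`eq_wJ_len`) and `dR y c`. Longer
elements do not exist (`rs_alt`: `len_rsA_le`, use `wJ_symm` to shorten). -/
theorem xe_all (h : Fin2 M e c) {y : M.Group} (hy : y ∈ par M ({e, c} : Set B))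
    (hc : ¬ dR M y c) : ∃ i, i < M e c ∧ y = xe M e c i := by
  have h2 := h.two
  by_cases h1 : y = 1
  · exact ⟨0, by omega, by rw [h1, xe_zero]⟩
  obtain ⟨b, hb, h3⟩ := exists_descR hy h1
  have hbe : b = e := by
    rcases hb with hb | hb
    · exact hb
    · rw [Set.mem_singleton_iff] at hb
      subst hb
      exact absurd h3 hc
  subst hbe
  obtain ⟨n, hn⟩ : ∃ n, len M y = n + 1 := ⟨len M y - 1, by omega⟩
  have h4 : dL M y⁻¹ b := dL_inv.2 h3
  have h5 := rs_alt (s := c) (t := b) n (u := y⁻¹) (by rw [len_inv]; exact hn)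
    (by rw [Set.pair_comm]; exact Subgroup.inv_mem _ hy) h4
  refine ⟨n + 1, ?_, ?_⟩
  · by_contra hlt
    apply hc
    obtain ⟨x, hx, hx2⟩ := rsA_split (M := M) b c (show M b c ≤ n + 1 by omega)
    rw [← dL_inv]
    rcases dL_or y⁻¹ c with h6 | h6
    · exact h6
    · exfalso
      have h7 : sm M c * y⁻¹ = ye M b c (M b c - 1) * x := by
        rw [h5, hx]
        have h8 := ye_top h
        unfold wJ at h8
        rw [← h8, mul_assoc, sm_cancel]
      have h9 := rs_mul_le (M := M) (ye M b c (M b c - 1)) x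
      rw [← h7, ye_len h (by omega), h6, len_inv] at h9
      omega
  · unfold xe
    rw [← h5, inv_inv]

/-- PROOF. `xe_all` for `y` or `y * sm M c`. -/
theorem len_le_wJ (h : Fin2 M e c) {y : M.Group} (hy : y ∈ par M ({e, c} : Set B)) :
    len M y ≤ M e c := by
  by_cases hc : dR M y c
  · obtain ⟨i, hi, h1⟩ := xe_all h (Subgroup.mul_mem _ hy (sm_mem_par (b := c) (by simp)))
      (fun h2 => (dR_mul.1 h2) hc)
    unfold dR at hc
    rw [h1, xe_len h hi.le] at hc
    omega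
  · obtain ⟨i, hi, h1⟩ := xe_all h hy hc
    rw [h1, xe_len h hi.le]
    exact hi.le

/-! Piece W-b -/

/-- The presentation of `p` if `p * e` has the second right descent `c`.
PROOF. `dR (p e) e` (`dR_mul`), `two_R`: `p e = z * wJ`, `len (p e) = len p + 1`. `xe_top`,
`xe_sub`: `p = z * (wJ e)` so `p c = z * xe (m - 2) * c * c`. -/
theorem presR {p : M.Group} (hne : e ≠ c) (he : ¬ dR M p e) (hc : dR M (p * sm M e) c) :
    Fin2 M e c ∧ ∃ z ∈ XR M ({e, c} : Set B), p * sm M e = z * wJ M e c ∧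
      p * sm M e * sm M c = z * xe M e c (M e c - 1) ∧
      p * sm M c = z * xe M e c (M e c - 2) ∧ len M p + 1 = len M z + M e c := by
  have h1 : dR M (p * sm M e) e := dR_mul.2 he
  obtain ⟨-, z, hz, hw, hl⟩ := two_R h1 hc hne
  have hF : Fin2 M e c := Fin2.of_R h1 hc hne
  have hp : p = z * wJ M e c * sm M e := by
    rw [← hw, mul_assoc, sm_sm, mul_one]
  refine ⟨hF, z, hz, hw, ?_, ?_, ?_⟩
  · rw [hw, ← xe_top hF, mul_assoc, mul_assoc, sm_sm, mul_one]
  · calc p * sm M c = z * (wJ M e c * sm M e) * sm M c := by rw [← mul_assoc, ← hp]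
      _ = z * xe M e c (M e c - 2) := by
        rw [← xe_sub hF, mul_assoc, mul_assoc, sm_sm, mul_one]
  · rw [← hl]
    exact (not_dR.1 he).symm

theorem presL {r : M.Group} (hne : e ≠ c) (he : ¬ dL M r e) (hc : dL M (sm M e * r) c) :
    Fin2 M e c ∧ ∃ z ∈ XL M ({e, c} : Set B), sm M e * r = wJ M e c * z ∧
      sm M c * (sm M e * r) = ye M e c (M e c - 1) * z ∧
      sm M c * r = ye M e c (M e c - 2) * z ∧ len M r + 1 = M e c + len M z := by
  have h1 : dL M (sm M e * r) e := dL_mul.2 he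
  obtain ⟨-, z, hz, hw, hl⟩ := two_L h1 hc hne
  have hF : Fin2 M e c := Fin2.of_L h1 hc hne
  have hr : r = sm M e * (wJ M e c * z) := by
    rw [← hw, sm_cancel]
  refine ⟨hF, z, hz, hw, ?_, ?_, ?_⟩
  · rw [hw, ← ye_top hF, mul_assoc, sm_cancel]
  · calc sm M c * r = sm M c * ((sm M e * wJ M e c) * z) := by rw [mul_assoc, ← hr]
      _ = ye M e c (M e c - 2) * z := by
        rw [← ye_sub hF, mul_assoc, sm_cancel]
  · rw [Nat.add_comm (M e c), ← hl]
    exact (not_dL.1 he).symm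

variable {L : M.Group → ℤ} (hL : IsWeight M L)

include hL

/-- PROOF. Induction on `i` (for all `e`, `c`), `L_up`. -/
theorem L_ye (h : Fin2 M e c) {i : ℕ} (hi : i ≤ M e c) :
    L (ye M e c i) = ((i + 1) / 2 : ℕ) * L (sm M e) + (i / 2 : ℕ) * L (sm M c) := by
  induction i generalizing e c with
  | zero => rw [ye_zero, L_one hL]; norm_num
  | succ i ih =>
    have hm : M c e = M e c := M.symmetric c e
    have h1 := ye_len h hi
    have h2 := ye_len h.symm (i := i) (by omega)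
    have h3 := ih h.symm (by omega)
    rw [ye_succ] at h1 ⊢
    rw [L_up hL (by rw [h1, h2]), h3]
    have h4 : (i + 1 + 1) / 2 = i / 2 + 1 := by omega
    rw [h4]
    push_cast
    ring

theorem L_xe (h : Fin2 M e c) {i : ℕ} (hi : i ≤ M e c) :
    L (xe M e c i) = ((i + 1) / 2 : ℕ) * L (sm M e) + (i / 2 : ℕ) * L (sm M c) := by
  rw [← ye_inv, L_inv hL, L_ye hL h hi]

private theorem Wb_wJ (h : Fin2 M e c) :
    L (wJ M e c) = ((M e c + 1) / 2 : ℕ) * L (sm M e) + (M e c / 2 : ℕ) * L (sm M c) :=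
  L_ye hL h le_rfl

private theorem Wb_wJ' (h : Fin2 M e c) :
    L (wJ M e c) = ((M e c + 1) / 2 : ℕ) * L (sm M c) + (M e c / 2 : ℕ) * L (sm M e) := by
  have hm : M c e = M e c := M.symmetric c e
  rw [wJ_symm, Wb_wJ hL h.symm, hm]

omit hL in
private theorem Wb_le {a b a' b' : ℕ} {x y : ℤ} (hx : 0 < x) (hy : 0 < y) (ha : a ≤ a')
    (hb : b ≤ b') : (a : ℤ) * x + b * y ≤ a' * x + b' * y := by
  have h1 : (a : ℤ) ≤ a' := by exact_mod_cast ha
  have h2 : (b : ℤ) ≤ b' := by exact_mod_cast hb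
  have h3 := mul_le_mul_of_nonneg_right h1 hx.le
  have h4 := mul_le_mul_of_nonneg_right h2 hy.le
  omega

/-- PROOF. `wJ_symm`, `L_ye` for `(e, c)` and `(c, e)`. -/
theorem L_odd2 (h : Fin2 M e c) (ho : Odd (M e c)) : L (sm M e) = L (sm M c) := by
  obtain ⟨k, hk⟩ := ho
  have h1 := Wb_wJ hL h
  rw [Wb_wJ' hL h] at h1
  have h2 : (M e c + 1) / 2 = k + 1 := by omega
  have h3 : M e c / 2 = k := by omega
  rw [h2, h3] at h1
  push_cast at h1
  linarith

/-- PROOF. `L_ye` with `i = M e c` (even: `M e c = 2 k`, `k ≥ 1`; odd: `L_odd2`). -/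
theorem wt2 (h : Fin2 M e c) : L (sm M e) + L (sm M c) ≤ L (wJ M e c) := by
  have h1 := Wb_le (hL.pos e) (hL.pos c) (a := 1) (b := 1) (a' := (M e c + 1) / 2)
    (b' := M e c / 2) (by have := h.two; omega) (by have := h.two; omega)
  rw [Wb_wJ hL h]
  push_cast at h1 ⊢
  linarith

theorem wt2_eq (h : Fin2 M e c) (h2 : M e c = 2) :
    L (wJ M e c) = L (sm M e) + L (sm M c) := by
  rw [Wb_wJ hL h, h2]
  norm_num

theorem wt3 (h : Fin2 M e c) (h3 : M e c ≠ 2) :
    L (sm M e) + L (sm M c) + 1 ≤ L (wJ M e c) := by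
  have h1 := Wb_le (hL.pos e) (hL.pos c) (a := 2) (b := 1) (a' := (M e c + 1) / 2)
    (b' := M e c / 2) (by have := h.two; omega) (by have := h.two; omega)
  have h2 := hL.pos e
  rw [Wb_wJ hL h]
  push_cast at h1 ⊢
  linarith

theorem wt5 (h : Fin2 M e c) (h5 : 5 ≤ M e c) :
    3 * L (sm M e) + 2 * L (sm M c) ≤ L (wJ M e c) ∧
      2 * L (sm M e) + 3 * L (sm M c) ≤ L (wJ M e c) := by
  have h1 := Wb_le (hL.pos e) (hL.pos c) (a := 3) (b := 2) (a' := (M e c + 1) / 2)
    (b' := M e c / 2) (by omega) (by omega)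
  have h2 := Wb_le (hL.pos c) (hL.pos e) (a := 3) (b := 2) (a' := (M e c + 1) / 2)
    (b' := M e c / 2) (by omega) (by omega)
  constructor
  · rw [Wb_wJ hL h]
    push_cast at h1 ⊢
    linarith
  · rw [Wb_wJ' hL h]
    push_cast at h2 ⊢
    linarith

private theorem Wb_xe (h : Fin2 M e c) {i : ℕ} (hi : i + 1 ≤ M e c) :
    L (xe M e c i * sm M c) = ((i + 2) / 2 : ℕ) * L (sm M c) + ((i + 1) / 2 : ℕ) * L (sm M e) := by
  have hm : M c e = M e c := M.symmetric c e
  rw [← xe_succ, L_xe hL h.symm (by omega)]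

/-- PROOF. `xe_sub`, `L (wJ * e) = L wJ - L e` (`IsWeight.add`, `dR wJ e`). -/
theorem al_top (h : Fin2 M e c) :
    L (xe M e c (M e c - 2) * sm M c) = L (wJ M e c) - L (sm M e) := by
  have h2 := h.two
  rw [Wb_xe hL h (by omega), Wb_wJ hL h]
  have h3 : (M e c - 2 + 2) / 2 = M e c / 2 := by omega
  have h4 : (M e c + 1) / 2 = (M e c - 2 + 1) / 2 + 1 := by omega
  rw [h3, h4]
  push_cast
  ring

/-- PROOF. `xe M e c i * sm M c = xe M c e (i + 1)`, `L_xe`; parity. -/
theorem al_mid (h : Fin2 M e c) {i : ℕ} (hi : i + 3 ≤ M e c) :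
    L (xe M e c i * sm M c) + L (sm M e) + L (sm M c) ≤ L (wJ M e c) := by
  rw [Wb_xe hL h (by omega), Wb_wJ' hL h]
  have h1 := Wb_le (hL.pos c) (hL.pos e) (a := (i + 2) / 2 + 1) (b := (i + 1) / 2 + 1)
    (a' := (M e c + 1) / 2) (b' := M e c / 2) (by omega) (by omega)
  push_cast at h1 ⊢
  linarith

theorem al_le (h : Fin2 M e c) {i : ℕ} (hi : i + 2 ≤ M e c) :
    L (xe M e c i * sm M c) + L (sm M e) ≤ L (wJ M e c) := by
  rw [Wb_xe hL h (by omega), Wb_wJ hL h]
  have h1 := Wb_le (hL.pos e) (hL.pos c) (a := (i + 1) / 2 + 1) (b := (i + 2) / 2)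
    (a' := (M e c + 1) / 2) (b' := M e c / 2) (by omega) (by omega)
  push_cast at h1 ⊢
  linarith

theorem al_zero : L (xe M e c 0 * sm M c) = L (sm M c) := by
  rw [xe_zero, one_mul]

theorem al_one (h : Fin2 M e c) : L (xe M e c 1 * sm M c) = L (sm M e) + L (sm M c) := by
  rw [Wb_xe hL h (by have := h.two; omega)]
  norm_num
  ring

/-- PROOF. `L_inv`. -/
theorem L_yx (i : ℕ) : L (sm M c * ye M e c i) = L (xe M e c i * sm M c) := by
  rw [← L_inv hL (sm M c * ye M e c i), mul_inv_rev, ye_inv, sm_inv]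

/-- PROOF. `y` is `xe M e c i` or `xe M e c i * sm M c` (`xe_all`) with `i < M e c`; `xe_top` and
`rsA_split`: it is a reduced factor of `wJ`; `IsWeight.add`, `L_nonneg`. -/
theorem L_le_wJ (h : Fin2 M e c) {y : M.Group} (hy : y ∈ par M ({e, c} : Set B)) :
    L y ≤ L (wJ M e c) := by
  have key : ∀ i, i + 1 ≤ M e c → L (xe M e c i * sm M c) ≤ L (wJ M e c) := by
    intro i hi
    rw [Wb_xe hL h hi, Wb_wJ' hL h]
    exact Wb_le (hL.pos c) (hL.pos e) (by omega) (by omega)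
  by_cases hc : dR M y c
  · have h1 : ¬ dR M (y * sm M c) c := by
      rw [dR_mul]
      exact not_not.2 hc
    have h2 : y * sm M c ∈ par M ({e, c} : Set B) := mul_mem hy (sm_mem_par (by simp))
    obtain ⟨i, hi, h3⟩ := xe_all h h2 h1
    have h4 : y = xe M e c i * sm M c := by
      rw [← h3, mul_assoc, sm_sm, mul_one]
    rw [h4]
    exact key i hi
  · obtain ⟨i, hi, rfl⟩ := xe_all h hy hc
    rw [L_xe hL h hi.le, Wb_wJ hL h]
    exact Wb_le (hL.pos e) (hL.pos c) (by omega) (by omega)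

/-- PROOF. `L_le_wJ` for `y * sm M c`. -/
theorem L_no (h : Fin2 M e c) {y : M.Group} (hy : y ∈ par M ({e, c} : Set B))
    (hc : ¬ dR M y c) : L y + L (sm M c) ≤ L (wJ M e c) := by
  have h1 : y * sm M c ∈ par M ({e, c} : Set B) := mul_mem hy (sm_mem_par (by simp))
  have h2 := L_le_wJ hL h h1
  have h3 := not_dR.1 hc
  rwa [hL.add y (sm M c) (by rw [h3, len_sm])] at h2

theorem L_no' (h : Fin2 M e c) {y : M.Group} (hy : y ∈ par M ({e, c} : Set B))
    (hc : ¬ dL M y c) : L y + L (sm M c) ≤ L (wJ M e c) := by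
  have h1 := L_no hL h (inv_mem hy) (c := c) (fun h2 => hc (dR_inv.1 h2))
  rwa [L_inv hL] at h1

end wt

end Pool.Agent.Helper63.LG
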