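import Pool.Agent.Helper63.LG.ClF
import Pool.Agent.Helper63.LG.Wt

/-!
# Configurations of the nonreduced triple products
-/

/-
For each type of nonreduced triple product p * v * r the factors are written with the two longest elements:
type B (block): v = e d, p e = z * wJ e g, d r = wJ d g * z'.
type A: v = a b a, p a = z * wJ a c, a r = wJ a c * z'.
type I (c in the block of a): v = b a, p b = z * wJ b c, a r = wJ a c * z'.
The structures contain all facts on descents that are used for the Hecke algebra.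
-/

namespace Pool.Agent.Helper63.LG

open Pool.Agent.Helper35.KL Pool.Agent.Helper35.AM

section cf

variable {B : Type} {M : CoxeterMatrix B} {β : B → Bool}

/-- The presentation of `p` and `r` by the longest elements of `{e, c}` and `{d, c}`. -/
structure Pres (M : CoxeterMatrix B) (e d c : B) (p r z z' : M.Group) : Prop where
  f1 : Fin2 M e c
  f2 : Fin2 M d c
  zx : z ∈ XR M ({e, c} : Set B)
  zl : z' ∈ XL M ({d, c} : Set B)
  pe : p * sm M e = z * wJ M e c
  pec : p * sm M e * sm M c = z * xe M e c (M e c - 1)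
  pc : p * sm M c = z * xe M e c (M e c - 2)
  lp : len M p + 1 = len M z + M e c
  dr : sm M d * r = wJ M d c * z'
  cdr : sm M c * (sm M d * r) = ye M d c (M d c - 1) * z'
  cr : sm M c * r = ye M d c (M d c - 2) * z'
  lr : len M r + 1 = M d c + len M z'

/-! Piece CF-a -/

/-- PROOF. `presR`, `presL`. -/
theorem pres {e d c : B} {p r : M.Group} (hec : e ≠ c) (hdc : d ≠ c) (he : ¬ dR M p e)
    (hd : ¬ dL M r d) (h1 : dR M (p * sm M e) c) (h2 : dL M (sm M d * r) c) :
    ∃ z z', Pres M e d c p r z z' := by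
  obtain ⟨hf1, z, hz, e1, e2, e3, e4⟩ := presR hec he h1
  obtain ⟨hf2, z', hz', g1, g2, g3, g4⟩ := presL hdc hd h2
  exact ⟨z, z', ⟨hf1, hf2, hz, hz', e1, e2, e3, e4, g1, g2, g3, g4⟩⟩

/-- PROOF. `len_XR_mul`, `xe_len`, `xe_mem`, `XR_mono`-type facts: `z * xe i` has not the right
descent `c` (`dR_XR`, `xe_not`). -/
theorem Pres.xi {e d c : B} {p r z z' : M.Group} (h : Pres M e d c p r z z') {i : ℕ}
    (hi : i < M e c) : len M (z * xe M e c i) = len M z + i ∧ ¬ dR M (z * xe M e c i) c ∧
      z * xe M e c i ∈ XR M ({c} : Set B) := by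
  have h1 : ¬ dR M (z * xe M e c i) c := by
    rw [dR_XR h.zx (xe_mem i) (by simp)]
    exact xe_not h.f1 hi
  refine ⟨?_, h1, ?_⟩
  · rw [len_XR_mul h.zx (xe_mem i), xe_len h.f1 hi.le]
  · rw [mem_XR]
    intro s hs
    rw [Set.mem_singleton_iff] at hs
    rw [hs]
    exact h1

theorem Pres.yj {e d c : B} {p r z z' : M.Group} (h : Pres M e d c p r z z') {j : ℕ}
    (hj : j < M d c) : len M (ye M d c j * z') = j + len M z' ∧ ¬ dL M (ye M d c j * z') c ∧
      ye M d c j * z' ∈ XL M ({c} : Set B) := by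
  have h1 : ¬ dL M (ye M d c j * z') c := by
    rw [dL_XL h.zl (ye_mem j) (by simp)]
    exact ye_not h.f2 hj
  refine ⟨?_, h1, ?_⟩
  · rw [len_mul_XL (ye_mem j) h.zl, ye_len h.f2 hj.le]
  · rw [mem_XL]
    intro s hs
    rw [Set.mem_singleton_iff] at hs
    rw [hs]
    exact h1

/-- The configuration of type B. -/
structure CfB (M : CoxeterMatrix B) (e d g : B) (p r z z' : M.Group) : Prop where
  pr : Pres M e d g p r z z'
  m5 : 5 ≤ M e g
  m5' : 5 ≤ M d g
  R0 : sm M g * (sm M d * r) ∈ XL M ({e, g} : Set B)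
  k3 : ∀ i, 3 ≤ i → i + 2 ≤ M e g → z * xe M e g i ∈ XR M ({d, g} : Set B)
  k2 : z * xe M e g 2 ∈ XR M ({d, g} : Set B) ∨
    ∃ y ∈ XR M ({d, g} : Set B), z * xe M e g 2 = y * sm M d

/-- PROOF. `pres`; `5 ≤` from `hb` (`Big.symm'`). `R0`: `dL (d r) g`, `dL (d r) d` (`dL_mul`),
`c1_L` (`w = d r`, `s = g`, `t = d`): the left descents of `g d r` are equal to `d`, so `e`, `g`
are not. `k3`: `z * xe i` ends with `e g e` (three letters; `dR_XR`, `xe_dR`, `xe_succ`), `d1_R`:
its right descents are in `{e, g}`; not `g` by `Pres.xi`. `k2`: let `w = z * xe 2 = z g e`. Not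
`dR w g`. If `dR w d`: `d2_R` (`x := e`, `y := g`, `c := d`): `M d e = 2`, `dR (z g) d`. Put
`y = w d = z g e d`: not `dR y d`; not `dR y g` by `na` (with `a := g`, `b := e`, `c := d`,
`p := z`). -/
theorem cfB (hb : Big M β) {e d g : B} {p r : M.Group} (hde : β d = β e) (hg : β g ≠ β e)
    (hne : e ≠ d) (he : ¬ dR M p e) (hd : ¬ dL M r d)
    (h1 : dR M (p * sm M e) g) (h2 : dL M (sm M d * r) g) :
    ∃ z z', CfB M e d g p r z z' := by
  have heg : e ≠ g := fun h => hg (by rw [h])
  have hdg : d ≠ g := fun h => hg (by rw [← h, hde])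
  have hbeg : β e ≠ β g := Ne.symm hg
  have hbdg : β d ≠ β g := by rw [hde]; exact hbeg
  obtain ⟨z, z', P⟩ := pres heg hdg he hd h1 h2
  have h5 := hb e g hbeg
  have h5' := hb d g hbdg
  -- right descents of `z * xe M e g (j + 1)` and the next elements
  have hpc : ({g, e} : Set B) = {e, g} := Set.pair_comm g e
  have hzx := P.zx
  have hx1 : ∀ j, j + 1 ≤ M e g → dR M (z * xe M e g (j + 1)) e := fun j hj => by
    rw [dR_XR hzx (xe_mem _) (by simp)]
    exact xe_dR P.f1 hj
  have hx2 : ∀ j, j + 1 ≤ M e g → dR M (z * xe M g e (j + 1)) g := fun j hj => by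
    have hm : xe M g e (j + 1) ∈ par M ({e, g} : Set B) := by
      rw [← hpc]
      exact xe_mem _
    rw [dR_XR hzx hm (by simp)]
    exact xe_dR P.f1.symm (by rw [M.symmetric g e]; exact hj)
  have hs1 : ∀ j, z * xe M e g (j + 1) * sm M e = z * xe M g e j := fun j => by
    rw [xe_succ, mul_assoc, mul_assoc, sm_sm, mul_one]
  have hs2 : ∀ j, z * xe M g e (j + 1) * sm M g = z * xe M e g j := fun j => by
    rw [xe_succ, mul_assoc, mul_assoc, sm_sm, mul_one]
  refine ⟨z, z', ⟨P, h5, h5', ?_, ?_, ?_⟩⟩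
  · rw [mem_XL]
    intro s hs hds
    rcases hs with hs | hs
    · rw [hs] at hds
      have h3 := c1_L hb (s := g) (t := d) (fun h => hbdg h.symm) h2 (dL_mul.2 hd) hds
      exact hne h3
    · rw [Set.mem_singleton_iff] at hs
      rw [hs] at hds
      exact dL_mul.1 hds h2
  · intro i hi hi2
    rw [mem_XR]
    intro s hs hds
    rcases hs with hs | hs
    · rw [hs] at hds
      obtain ⟨k, rfl⟩ : ∃ k, i = k + 3 := ⟨i - 3, by omega⟩
      have e1 := hx1 (k + 2) (by omega)
      have e2 : dR M (z * xe M e g (k + 3) * sm M e) g := by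
        rw [show k + 3 = (k + 2) + 1 from rfl, hs1]
        exact hx2 (k + 1) (by omega)
      have e3 : dR M (z * xe M e g (k + 3) * sm M e * sm M g) e := by
        rw [show k + 3 = (k + 2) + 1 from rfl, hs1, show k + 2 = (k + 1) + 1 from rfl, hs2]
        exact hx1 k (by omega)
      rcases d1_R hb hbeg e1 e2 e3 hds with h3 | h3
      · exact hne h3.symm
      · exact hdg h3
    · rw [Set.mem_singleton_iff] at hs
      rw [hs] at hds
      exact (P.xi (i := i) (by omega)).2.1 hds
  · have hw : ¬ dR M (z * xe M e g 2) g := (P.xi (i := 2) (by omega)).2.1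
    by_cases hd2 : dR M (z * xe M e g 2) d
    · right
      have e1 := hx1 1 (by omega)
      have e2 : dR M (z * xe M e g 2 * sm M e) g := by
        rw [show 2 = 1 + 1 from rfl, hs1]
        exact hx2 0 (by omega)
      obtain ⟨-, hm, hd3⟩ := d2_R hb hbeg e1 e2 hd2 (fun h => hne h.symm) hdg
      have e3 : z * xe M e g 2 * sm M e = z * sm M g := by
        rw [show 2 = 1 + 1 from rfl, hs1, xe_one]
      have e4 : z * xe M e g 2 = z * sm M g * sm M e := by
        rw [← e3, mul_assoc (z * xe M e g 2), sm_sm, mul_one]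
      refine ⟨z * xe M e g 2 * sm M d, ?_, by rw [mul_assoc _ (sm M d), sm_sm, mul_one]⟩
      rw [mem_XR]
      intro s hs
      rcases hs with hs | hs
      · rw [hs, dR_mul, not_not]
        exact hd2
      · rw [Set.mem_singleton_iff] at hs
        rw [hs, e4]
        rw [e3] at hd3
        exact na hb hg hde (Ne.symm hne) hm (mem_XR.1 hzx g (by simp)) hd3
    · left
      rw [mem_XR]
      intro s hs
      rcases hs with hs | hs
      · rw [hs]
        exact hd2
      · rw [Set.mem_singleton_iff] at hs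
        rw [hs]
        exact hw

/-! Piece CF-b -/

/-- The configuration of type A. -/
structure CfA (M : CoxeterMatrix B) (a b c : B) (p r z z' : M.Group) : Prop where
  pr : Pres M a a c p r z z'
  m5 : 5 ≤ M a c
  cb : M c b = 2
  fb : Fin2 M b c
  bR : sm M b * (sm M c * (sm M a * r)) ∈ XL M ({a, c} : Set B)
  lbR : len M (sm M b * (sm M c * (sm M a * r))) = len M r + 1
  xb : ∀ i, 2 ≤ i → i + 2 ≤ M a c → ¬ dR M (z * xe M a c i) b
  xbk : ∀ i, 2 ≤ i → i + 2 ≤ M a c → z * xe M a c i * sm M b ∈ XR M ({a, c} : Set B)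
  yb : ∀ i, 2 ≤ i → i + 2 ≤ M a c → ¬ dL M (ye M a c i * z') b

/-- The facts on the left factor.
PROOF. `xb`: let `w = z * xe i`, `dR w a` (`xe_dR`). `i ≥ 3`: `w` ends with `a c a`, `d1_R`:
right descents in `{a, c}`. `i = 2`: `w = z c a`; if `dR w b`: `c1_R` (`w`, `s = a`, `t = b`): the
right descents of `w a = z c` are equal to `b`, but `c` is one (`dR_XR`), contradiction.
`xbk`: `w b` is longer than `w`. Not `dR (w b) c`: by `dR_comm` (`M b c = 2`) iff `dR w c`. Suppose
`dR (w b) a`. `dR (w b) b`; `M a b ≥ 5`: `ch5_R` for `w b` (`x := b`, `y := a`): `dR (w a) b`,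
`dR (w a b) a`, `dR (w a b a) b`. [Note `w b * b = w`.] `dR (w a) c` (`w a = z * xe M c a (i - 1)`
ends with `c`). So `dR (w a b) c` (`dR_comm`), and `dR (w a b) a`: `c1_R` (`w a b`, `s = a`,
`t = c`): the right descents of `w a b a` are equal to `c`, but `b` is one. Contradiction. -/
theorem cfA_left (hb : Big M β) {a b c : B} {z : M.Group} (hab : β a ≠ β b) (hc : β c = β b)
    (hcb : c ≠ b) (hm : M c b = 2) (hf : Fin2 M a c) (hz : z ∈ XR M ({a, c} : Set B)) {i : ℕ}
    (h2 : 2 ≤ i) (hi : i + 2 ≤ M a c) : ¬ dR M (z * xe M a c i) b ∧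
      z * xe M a c i * sm M b ∈ XR M ({a, c} : Set B) := by
  have hac : β a ≠ β c := by
    rw [hc]
    exact hab
  have hmb : M b c = 2 := by
    rw [M.symmetric]
    exact hm
  have hba : b ≠ a := fun h => hab (by rw [h])
  obtain ⟨n, rfl⟩ : ∃ n, i = n + 1 + 1 := ⟨i - 2, by omega⟩
  have e1 : z * xe M a c (n + 1 + 1) * sm M a = z * xe M c a (n + 1) := by
    rw [xe_succ, mul_assoc, mul_assoc, sm_sm, mul_one]
  have hd1 : dR M (z * xe M a c (n + 1 + 1)) a :=
    (dR_XR hz (xe_mem _) (by simp)).2 (xe_dR hf (by omega))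
  have hdc : ¬ dR M (z * xe M a c (n + 1 + 1)) c := by
    rw [dR_XR hz (xe_mem _) (by simp)]
    exact xe_not hf (by omega)
  have hmm : xe M c a (n + 1) ∈ par M ({a, c} : Set B) := by
    rw [Set.pair_comm]
    exact xe_mem _
  have hd2 : dR M (z * xe M a c (n + 1 + 1) * sm M a) c := by
    rw [e1, dR_XR hz hmm (by simp)]
    exact xe_dR hf.symm (by rw [M.symmetric c a]; omega)
  have hb1 : ¬ dR M (z * xe M a c (n + 1 + 1)) b := by
    intro h
    exact hcb (c1_R hb hab hd1 h hd2)
  refine ⟨hb1, mem_XR.2 fun s hs => ?_⟩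
  obtain ⟨w, hw⟩ : ∃ w, w = z * xe M a c (n + 1 + 1) := ⟨_, rfl⟩
  rw [← hw] at hd1 hdc hd2 hb1 ⊢
  rcases hs with hs | hs
  · rw [hs]
    intro h
    have hwb : dR M (w * sm M b) b := dR_mul.2 hb1
    have e2 : w * sm M b * sm M b = w := by
      rw [mul_assoc, sm_sm, mul_one]
    obtain ⟨-, h3, h4, h6⟩ := ch5_R hwb h hba (hb b a (Ne.symm hab))
    rw [e2] at h3 h4 h6
    have h7 : dR M (w * sm M a * sm M b) c := (dR_comm hmb).2 hd2
    exact hcb (c1_R hb hac h4 h7 h6).symm
  · rw [Set.mem_singleton_iff.1 hs, dR_comm hmb]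
    exact hdc

/-- PROOF. `pres` (with `e = d = a`; `c ≠ a`, not `dR p a`, not `dL r a`). `m5` from `hb`.
`fb`: `b`, `c` are right descents of `b c` (`Fin2.of_R`; `b c = c b` by `sm_comm`, it has length `2`
as `b ≠ c`). `xb`, `xbk`: `cfA_left`; `yb`: `cfA_left` for `z'⁻¹` (`inv_mem_XR`, `ye_inv`,
`dR_inv`). `lbR`: `b (a r)` is reduced (`v r = a b a r` is, `v = a b a` has length `3` as
`M a b ≥ 5`), it is `b c R = c (b R)` with `R = c a r`, so `len (b R) ≥ len r + 1` (`len R = len r`),
hence equality. `bR`: not `dL (b R) c` (`dL_comm`; not `dL R c`). Suppose `dL (b R) a`. `dL (b R) b`.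
`c1_L` for `a r` (`s = c`, `t = a`): the left descents of `R` are equal to `a`. `ch5_L` for `b R`
(`x := b`, `y := a`): `dL R a`, `dL (a R) b`. But `a r = wJ a c * z'` has length `m + len z'`, so
`R`, `a R`, `c a R` start with `a`, `c`, `a` (`ch5_L` for `a r` with `x := c`, `y := a`:
`dL R a`, `dL (a R) c`, `dL (c a R) a`, `dL (a c a R) c`), so by `d1_L` for `a R` (`x := c`,
`y := a`) the left descents of `a R` are in `{c, a}`, contradiction. -/
theorem cfA (hb : Big M β) {a b c : B} {p r : M.Group} (hab : β a ≠ β b) (hc : β c = β b)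
    (hcb : c ≠ b) (hm : M c b = 2) (hp : p ∈ XR M ({a, b} : Set B))
    (hr : r ∈ XL M ({a, b} : Set B)) (h1 : dR M (p * sm M a) c) (h2 : dL M (sm M a * r) c) :
    ∃ z z', CfA M a b c p r z z' := by
  have hac : β a ≠ β c := by
    rw [hc]
    exact hab
  have hac' : a ≠ c := fun h => hac (by rw [h])
  have hab' : a ≠ b := fun h => hab (by rw [h])
  have hpa : ¬ dR M p a := mem_XR.1 hp a (by simp)
  have hra : ¬ dL M r a := mem_XL.1 hr a (by simp)
  obtain ⟨z, z', hP⟩ := pres hac' hac' hpa hra h1 h2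
  have h5 : 5 ≤ M a c := hb a c hac
  have hmb : M b c = 2 := by
    rw [M.symmetric]
    exact hm
  have hara : dL M (sm M a * r) a := dL_mul.2 hra
  have hnb : ∀ x y : B, x ≠ y → ¬ dL M (sm M x) y := by
    intro x y hxy h
    have h3 : len M (sm M y * sm M x) + 1 = len M (sm M x) := h
    rw [len_sm] at h3
    have h4 : sm M y * sm M x = 1 := len_eq_zero.1 (by omega)
    have h6 : sm M y = sm M x := by
      rw [← sm_inv (M := M) x]
      exact eq_inv_of_mul_eq_one_left h4
    exact hxy (sm_inj h6).symm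
  have harb : ¬ dL M (sm M a * r) b := by
    rw [dL_XL hr (sm_mem_par (by simp)) (by simp)]
    exact hnb a b hab'
  have lar : len M (sm M a * r) = len M r + 1 := not_dL.1 hra
  have lcar : len M (sm M c * (sm M a * r)) + 1 = len M (sm M a * r) := h2
  obtain ⟨R, hR⟩ : ∃ R, R = sm M c * (sm M a * r) := ⟨_, rfl⟩
  have ear : sm M a * r = sm M c * R := by
    rw [hR, ← mul_assoc, sm_sm, one_mul]
  have lbar : len M (sm M b * (sm M a * r)) = len M (sm M a * r) + 1 := not_dL.1 harb
  have ebar : sm M b * (sm M a * r) = sm M c * (sm M b * R) := by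
    rw [ear, ← mul_assoc, ← mul_assoc, sm_comm hmb]
  have lbR : len M (sm M b * R) = len M r + 1 := by
    have a1 := rs_mul_le (M := M) (sm M c) (sm M b * R)
    have a2 := rs_mul_le (M := M) (sm M b) R
    rw [len_sm] at a1 a2
    rw [← ebar] at a1
    rw [← hR] at lcar
    omega
  have hRb : ¬ dL M R b := by
    intro h
    have h3 : len M (sm M b * R) + 1 = len M R := h
    rw [← hR] at lcar
    omega
  have hRc : ¬ dL M R c := by
    rw [hR, dL_mul, not_not]
    exact h2
  refine ⟨z, z', ?_⟩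
  exact
  { pr := hP
    m5 := h5
    cb := hm
    fb := by
      refine Fin2.of_R (w := sm M b * sm M c) ?_ ?_ (Ne.symm hcb)
      · rw [dR_comm hm, ← one_mul (sm M b), dR_mul]
        intro h
        have h3 : len M (1 * sm M b) + 1 = len M 1 := h
        rw [len_one] at h3
        omega
      · rw [dR_mul]
        intro h
        have h3 := dL_inv.2 h
        rw [sm_inv] at h3
        exact hnb b c (Ne.symm hcb) h3
    bR := by
      rw [← hR]
      refine mem_XL.2 fun s hs => ?_
      rcases hs with hs | hs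
      · rw [hs]
        intro h
        have hbRb : dL M (sm M b * R) b := dL_mul.2 hRb
        have e3 : sm M b * (sm M b * R) = R := by
          rw [← mul_assoc, sm_sm, one_mul]
        obtain ⟨-, h4, -, -⟩ := ch5_L hbRb h (Ne.symm hab') (hb b a (Ne.symm hab))
        rw [e3] at h4
        obtain ⟨-, k1, k2, k3⟩ := ch5_L h2 hara (Ne.symm hac') (hb c a (Ne.symm hac))
        rw [← hR] at k1 k2 k3
        rcases d1_L hb (Ne.symm hac) k1 k2 k3 h4 with h6 | h6
        · exact hcb h6.symm
        · exact hab' h6.symm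
      · rw [Set.mem_singleton_iff.1 hs, dL_comm hmb]
        exact hRc
    lbR := by
      rw [← hR]
      exact lbR
    xb := fun i h3 h4 => (cfA_left hb hab hc hcb hm hP.f1 hP.zx h3 h4).1
    xbk := fun i h3 h4 => (cfA_left hb hab hc hcb hm hP.f1 hP.zx h3 h4).2
    yb := fun i h3 h4 h => by
      have h6 := (cfA_left hb hab hc hcb hm hP.f1 (inv_mem_XR.2 hP.zl) h3 h4).1
      apply h6
      have h7 := dR_inv.2 h
      rwa [mul_inv_rev, ye_inv] at h7 }

/-! Piece CF-c -/

/-- The configuration of type I with `c` in the block of `a`. -/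
structure CfI (M : CoxeterMatrix B) (a b c : B) (p r z z' : M.Group) : Prop where
  pr : Pres M b a c p r z z'
  m5 : 5 ≤ M b c
  R0 : sm M c * (sm M a * r) ∈ XL M ({b, c} : Set B) ∨
    dL M (sm M c * (sm M a * r)) b ∧
      sm M b * (sm M c * (sm M a * r)) ∈ XL M ({b, c} : Set B)
  rd2 : dL M (sm M c * (sm M a * r)) b → ∀ y ∈ XR M ({b, c} : Set B), ∀ v ∈ par M ({b, c} : Set B),
    v = xe M c b 3 → len M (y * v * (sm M b * (sm M c * (sm M a * r)))) =
      len M y + len M v + len M (sm M b * (sm M c * (sm M a * r)))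
  k2 : ∀ i, 2 ≤ i → i + 2 ≤ M b c → z * xe M b c i ∈ XR M ({a, c} : Set B)

/-- PROOF. `pres` (`e = b`, `d = a`). Let `R0 = c a r`: not `dL R0 c`, `dL R0 a` (`g1_L` for `a r`
and `c`, `a`). `R0`: if `dL R0 b`: `c1_L` (`w = R0`, `s = b`, `t = a`): the left descents of `b R0`
are equal to `a`. `rd2`: let `R1 = b R0 ∈ XL {b, c}`, `dL R1 a` (`g1_L`). `nr_X` for the pair
`(b, c)`, `p := y`, `v = c b c` of length `3` (`xe_len`), `r := R1`: if not reduced, then type A
(the other types have length at most `2`), `v = b c b` (impossible: `xe_not`, not `dR v b`) or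
`v = c b c` with `g`: `β g = β b`, `dL (c R1) g`, `g ≠ b`. `dL (c R1) c`: `c1_L` (`w = c R1`, `s = c`,
`t = g`): the left descents of `R1` are equal to `g`; `a = g`, but `β a ≠ β b`. Contradiction.
`k2`: `w = z * xe i`, not `dR w c`. `dR w b`. `i ≥ 3`: `w` ends with `b c b`: `d1_R`. `i = 2`:
`w = z c b`; if `dR w a`: `c1_R` (`s = b`, `t = a`): the right descents of `w b = z c` are equal to
`a`, but `c` is one. -/
theorem cfI (hb : Big M β) {a b c : B} {p r : M.Group} (hab : β a ≠ β b) (hc : β c = β a)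
    (hca : c ≠ a) (hp : p ∈ XR M ({a, b} : Set B)) (hr : r ∈ XL M ({a, b} : Set B))
    (h1 : dR M (p * sm M b) c) (h2 : dL M (sm M a * r) c) :
    ∃ z z', CfI M a b c p r z z' := by
  have hbc : β b ≠ β c := by
    rw [hc]
    exact hab.symm
  have hbc' : b ≠ c := fun h => hbc (by rw [h])
  have hba : b ≠ a := fun h => hab (by rw [h])
  have hpb : ¬ dR M p b := mem_XR.1 hp b (by simp)
  have hra : ¬ dL M r a := mem_XL.1 hr a (by simp)
  obtain ⟨z, z', hP⟩ := pres hbc' hca.symm hpb hra h1 h2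
  have h5 : 5 ≤ M b c := hb b c hbc
  have hara : dL M (sm M a * r) a := dL_mul.2 hra
  obtain ⟨R0, hR0⟩ : ∃ R0, R0 = sm M c * (sm M a * r) := ⟨_, rfl⟩
  have hR0c : ¬ dL M R0 c := by
    rw [hR0, dL_mul]
    exact not_not.2 h2
  have hR0a : dL M R0 a := by
    rw [hR0]
    exact g1_L h2 hara hca
  have hR1 : dL M R0 b → sm M b * R0 ∈ XL M ({b, c} : Set B) := by
    intro hb0
    refine mem_XL.2 fun s hs => ?_
    rcases hs with hs | hs
    · rw [hs, dL_mul]
      exact not_not.2 hb0
    · rw [Set.mem_singleton_iff.1 hs]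
      intro h
      exact hca (c1_L hb hab.symm hb0 hR0a h)
  refine ⟨z, z', hP, h5, ?_, ?_, ?_⟩
  · rw [← hR0]
    by_cases hb0 : dL M R0 b
    · exact Or.inr ⟨hb0, hR1 hb0⟩
    · left
      refine mem_XL.2 fun s hs => ?_
      rcases hs with hs | hs
      · rw [hs]
        exact hb0
      · rw [Set.mem_singleton_iff.1 hs]
        exact hR0c
  · rw [← hR0]
    intro hb0 y hy v hv hv3
    have hF : Fin2 M c b := hP.f1.symm
    have hm : M c b = M b c := M.symmetric c b
    have hl3 : len M v = 3 := by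
      rw [hv3]
      exact xe_len hF (by omega)
    have hvb : ¬ dR M v b := by
      rw [hv3]
      exact xe_not hF (by omega)
    have htwo : ∀ s t : B, v = sm M s * sm M t → False := by
      intro s t hst
      have h6 := rs_mul_le (sm M s) (sm M t)
      rw [← hst, hl3, len_sm, len_sm] at h6
      omega
    by_contra hcon
    rcases nr_X hb hbc hy hv (by omega) (hR1 hb0) hcon with
      (⟨hA, -⟩ | ⟨hA, -⟩ | ⟨hA, -⟩ | ⟨hA, -⟩) |
      (⟨-, g, hg, -, -, -, hd⟩ | ⟨hA, -⟩ | ⟨hA, -⟩ | ⟨hA, -⟩)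
    · have h6 := not_dR.1 hvb
      rw [hl3, hA, mul_assoc, sm_sm, mul_one] at h6
      have h7 := rs_mul_le (sm M b) (sm M c)
      rw [h6, len_sm, len_sm] at h7
      omega
    · exact htwo _ _ hA
    · exact htwo _ _ hA
    · exact htwo _ _ hA
    · have h6 : dL M (sm M c * (sm M b * R0)) c :=
        dL_mul.2 (mem_XL.1 (hR1 hb0) c (by simp))
      have h7 : dL M (sm M b * R0) a := g1_L hb0 hR0a hba
      have h8 : a = g := by
        refine c1_L hb (s := c) (t := g) ?_ h6 hd ?_
        · rw [hc, hg]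
          exact hab
        · rw [← mul_assoc (sm M c) (sm M c), sm_sm, one_mul]
          exact h7
      rw [h8] at hab
      exact hab hg
    · exact htwo _ _ hA
    · exact htwo _ _ hA
    · exact htwo _ _ hA
  · intro i h2i hi
    have hwc : ¬ dR M (z * xe M b c i) c := (hP.xi (by omega)).2.1
    refine mem_XR.2 fun s hs => ?_
    rcases hs with hs | hs
    · rw [hs]
      intro hwa
      obtain ⟨k, rfl⟩ : ∃ k, i = k + 1 + 1 := ⟨i - 2, by omega⟩
      have hwb : dR M (z * xe M b c (k + 1 + 1)) b :=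
        (dR_XR hP.zx (xe_mem _) (by simp)).2 (xe_dR hP.f1 (by omega))
      have hmem : xe M c b (k + 1) ∈ par M ({b, c} : Set B) := by
        rw [Set.pair_comm]
        exact xe_mem _
      have hm : M c b = M b c := M.symmetric c b
      have hwbc : dR M (z * xe M b c (k + 1 + 1) * sm M b) c := by
        rw [xe_succ, mul_assoc, mul_assoc, sm_sm, mul_one]
        exact (dR_XR hP.zx hmem (by simp)).2 (xe_dR hP.f1.symm (by omega))
      exact hca (c1_R hb hab.symm hwb hwa hwbc)
    · rw [Set.mem_singleton_iff.1 hs]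
      exact hwc

/-! Piece CF-d: type 3 -/

/-- The configuration of type 3: `p b = (p e b) e`, `e (a r)`, with two longest elements.
PROOF. `p1 = p e`, `p = p1 e`. `w = p e b = p1 b`. `dR w b`: not `dR p b` (`hp`), so by `dR_comm`
(`M e b = 2`) not `dR (p e) b`. `dR w a`: `two_R`: `w = z * wJ a b` (`wJ_symm`), `len w = len p`
(`len (p e) = len p - 1`). `p b = w e` (`sm_comm`), it is longer than `w`. `e (a r)` has left descents
`e` (`dL_mul`) and `a`: put `R = a (e (a r))`; `c1_L` (`s = a`, `t = e`): the left descents of `R` are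
equal to `e`, so `R ∈ XL {a, b}` (`e ≠ a, b`). -/
theorem cf3 (hb : Big M β) {a b e : B} {p r : M.Group} (hab : β a ≠ β b) (he : β e = β b)
    (heb : e ≠ b) (hm : M e b = 2) (hp : p ∈ XR M ({a, b} : Set B))
    (hr : r ∈ XL M ({a, b} : Set B)) (h1 : dR M p e) (h2 : dR M (p * sm M e * sm M b) a)
    (h3 : ¬ dL M (sm M a * r) e) (h4 : dL M (sm M e * (sm M a * r)) a) :
    ∃ z ∈ XR M ({a, b} : Set B), p * sm M e * sm M b = z * wJ M a b ∧
      len M (p * sm M e * sm M b) = len M p ∧
      len M (p * sm M e * sm M b) = len M z + M a b ∧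
      p * sm M b = p * sm M e * sm M b * sm M e ∧
      sm M a * (sm M e * (sm M a * r)) ∈ XL M ({a, b} : Set B) ∧
      len M (sm M a * (sm M e * (sm M a * r))) = len M r + 1 := by
  have hne : a ≠ b := fun h => hab (by rw [h])
  have hpb : ¬ dR M p b := mem_XR.1 hp b (by simp)
  have hra : ¬ dL M r a := mem_XL.1 hr a (by simp)
  have hpeb : ¬ dR M (p * sm M e) b := fun h => hpb ((dR_comm hm).1 h)
  obtain ⟨-, z, hz, hw, hl⟩ := two_R h2 (dR_mul.2 hpeb) hne
  have h5 : len M (p * sm M e * sm M b) = len M (p * sm M e) + 1 := not_dR.1 hpeb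
  have h6 : len M (p * sm M e) + 1 = len M p := h1
  have h7 : dL M (sm M e * (sm M a * r)) e := dL_mul.2 h3
  have h8 : len M (sm M a * r) = len M r + 1 := not_dL.1 hra
  have h9 : len M (sm M e * (sm M a * r)) = len M (sm M a * r) + 1 := not_dL.1 h3
  have h10 : len M (sm M a * (sm M e * (sm M a * r))) + 1 = len M (sm M e * (sm M a * r)) := h4
  refine ⟨z, hz, hw, by omega, hl, ?_, ?_, by omega⟩
  · rw [mul_assoc p, sm_comm hm, mul_assoc, mul_assoc, sm_sm, mul_one]
  · refine mem_XL.2 fun s hs => ?_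
    rcases hs with hs | hs
    · rw [hs, dL_mul]
      exact not_not.2 h4
    · rw [Set.mem_singleton_iff.1 hs]
      intro h
      refine heb (c1_L hb (s := a) (t := e) ?_ h4 h7 h).symm
      rw [he]
      exact hab

end cf

end Pool.Agent.Helper63.LG
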