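import Pool.Agent.Helper63.LG.C1

/-!
# Extra descents of triple products: definitions and the frame
-/

namespace Pool.Agent.Helper63.LG

open Pool.Agent.Helper35.KL Pool.Agent.Helper35.AM

section cl0

variable {B : Type}

/-- A reduced triple product `p * v * r`, with `v` in the subgroup of `X`, `p` and `r` minimal,
and a right descent `t` of it that is not a right descent of `v * r`. -/
structure Bad (M : CoxeterMatrix B) (X : Set B) (p v r : M.Group) (t : B) : Prop where
  hp : p ∈ XR M X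
  hv : v ∈ par M X
  h2 : 2 ≤ len M v
  hr : r ∈ XL M X
  red : len M (p * v * r) = len M p + len M v + len M r
  ht : dR M (p * v * r) t
  hn : ¬ dR M (v * r) t

/-- The type of the triples for a block. -/
def TyB (M : CoxeterMatrix B) (X : Set B) (p v r : M.Group) (t : B) : Prop :=
  ∃ e ∈ X, ∃ d ∈ X, ∃ g, g ∉ X ∧ e ≠ d ∧ v = sm M e * sm M d ∧ dR M (p * sm M e) g ∧
    sm M g * (sm M d * r) = sm M d * r * sm M t

/-- Type A: `v = a * b * a`. -/
def TyA (M : CoxeterMatrix B) (β : B → Bool) (a b : B) (p v r : M.Group) (t : B) : Prop :=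
  v = sm M a * sm M b * sm M a ∧ ∃ c, β c = β b ∧ c ≠ b ∧ M c b = 2 ∧ dR M (p * sm M a) c ∧
    sm M c * (sm M a * r) = sm M a * r * sm M t

/-- Type I: `v = b * a`. -/
def TyI (M : CoxeterMatrix B) (a b : B) (p v r : M.Group) (t : B) : Prop :=
  v = sm M b * sm M a ∧ ∃ c, c ≠ a ∧ c ≠ b ∧ dR M (p * sm M b) c ∧
    sm M c * (sm M a * r) = sm M a * r * sm M t

/-- Type 3: `v = b * a`. -/
def Ty3 (M : CoxeterMatrix B) (β : B → Bool) (a b : B) (p v r : M.Group) (t : B) : Prop :=
  v = sm M b * sm M a ∧ ∃ e, β e = β b ∧ e ≠ b ∧ M e b = 2 ∧ dR M p e ∧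
    dR M (p * sm M e * sm M b) a ∧
    sm M a * (sm M e * (sm M a * r)) = sm M e * (sm M a * r) * sm M t

/-- Type 4: `v = b * a`. -/
def Ty4 (M : CoxeterMatrix B) (β : B → Bool) (a b : B) (p v r : M.Group) (t : B) : Prop :=
  v = sm M b * sm M a ∧ ∃ f, β f = β a ∧ f ≠ a ∧ M f a = 2 ∧ dL M r f ∧
    dR M (p * sm M b * sm M f) b ∧
    sm M b * (sm M a * (sm M f * r)) = sm M a * (sm M f * r) * sm M t

/-- The types of the triples for a pair of generators in different blocks. -/
def TyX (M : CoxeterMatrix B) (β : B → Bool) (a b : B) (p v r : M.Group) (t : B) : Prop :=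
  TyA M β a b p v r t ∨ TyI M a b p v r t ∨ Ty3 M β a b p v r t ∨ Ty4 M β a b p v r t

/-- The classification for triples of total length at most `n`. -/
structure CLn (M : CoxeterMatrix B) (β : B → Bool) (n : ℕ) : Prop where
  blk : ∀ i p v r t, Bad M (blk β i) p v r t → len M p + len M v + len M r ≤ n →
    TyB M (blk β i) p v r t
  crs : ∀ x y p v r t, β x ≠ β y → Bad M {x, y} p v r t →
    len M p + len M v + len M r ≤ n → TyX M β x y p v r t ∨ TyX M β y x p v r t

variable {M : CoxeterMatrix B} {β : B → Bool} {X : Set B}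

/-- PROOF. `len (a b a) ≤ 3` (`rs_mul_le`, `len_sm`). -/
theorem TyX.len3 {a b : B} {p v r : M.Group} {t : B} (h : TyX M β a b p v r t) :
    len M v ≤ 3 := by
  have h2 : ∀ x y : B, len M (sm M x * sm M y) ≤ 2 := by
    intro x y
    have h := rs_mul_le (sm M x) (sm M y)
    rw [len_sm, len_sm] at h
    exact h
  have h3 : len M (sm M a * sm M b * sm M a) ≤ 3 := by
    have h := rs_mul_le (sm M a * sm M b) (sm M a)
    rw [len_sm] at h
    have := h2 a b
    omega
  have h2' := h2 b a
  rcases h with ⟨h, _⟩ | ⟨h, _⟩ | ⟨h, _⟩ | ⟨h, _⟩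
  · rw [h]; exact h3
  · rw [h]; omega
  · rw [h]; omega
  · rw [h]; omega

/-- PROOF. `TyX.len3`. -/
theorem CLn.four {n : ℕ} (hC : CLn M β n) {x y : B} (hxy : β x ≠ β y) {p v r : M.Group} {t : B}
    (h : Bad M {x, y} p v r t) (hn : len M p + len M v + len M r ≤ n) (h4 : 4 ≤ len M v) :
    False := by
  rcases hC.crs x y p v r t hxy h hn with h1 | h1
  · have := h1.len3
    omega
  · have := h1.len3
    omega

/-- Long middle factors. PROOF. If `dR (v ρ) s`: `ex_par`. If not, then `Bad M {x, y} z v ρ s`,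
contradiction by `CLn.four`. -/
theorem CLn.nv {n : ℕ} (hC : CLn M β n) {x y : B} (hxy : β x ≠ β y) {z v ρ : M.Group} {s : B}
    (hz : z ∈ XR M ({x, y} : Set B)) (hv : v ∈ par M ({x, y} : Set B)) (h4 : 4 ≤ len M v)
    (hρ : ρ ∈ XL M ({x, y} : Set B)) (hr : len M (z * v * ρ) = len M z + len M v + len M ρ)
    (hn : len M z + len M v + len M ρ ≤ n) (hs : dR M (z * v * ρ) s) :
    dR M ρ s ∨ ∃ y0 ∈ ({x, y} : Set B), dR M v y0 ∧ ρ * sm M s = sm M y0 * ρ := by
  by_cases hd : dR M (v * ρ) s
  · exact ex_par hv hρ hd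
  · exact (hC.four hxy (p := z) (v := v) (r := ρ) (t := s)
      ⟨hz, hv, by omega, hρ, hr, hs, hd⟩ hn h4).elim

/-- The data of a triple with nontrivial `r`: the `{s, t}`-suffixes `κ` of `r` and `h` of
`p * v * r'`, where `r = r' * κ`. -/
structure Fr (M : CoxeterMatrix B) (X : Set B) (p v r : M.Group) (t s : B)
    (r' κ h : M.Group) : Prop where
  ne : s ≠ t
  m0 : M s t ≠ 0
  eq : r = r' * κ
  lenr : len M r = len M r' + len M κ
  xr : r' ∈ XR M ({s, t} : Set B)
  xl : r' ∈ XL M X
  kp : κ ∈ par M ({s, t} : Set B)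
  k1 : κ ≠ 1
  ks : dR M κ s
  kt : ¬ dR M κ t
  hh : h ∈ par M ({s, t} : Set B)
  h1 : h ≠ 1
  hx : ∃ x0 ∈ XR M ({s, t} : Set B), p * v * r' = x0 * h
  hk : h * κ = wJ M s t
  hl : len M h + len M κ = M s t
  red : len M (p * v * r') = len M p + len M v + len M r'

/-- PROOF. Choose `s` with `dR r s` (`exists_dR`). Then `dR (v r) s` (`dR_of_rd`, `v r` is
reduced by `len_mul_XL`), so `s ≠ t` by `hb.hn`; and `dR (p v r) s`. `two_R` for `p v r`:
`M s t ≠ 0`, `p v r = z * wJ`, lengths add. Let `r = r' κ`, `r' ∈ XR {s,t}`, `κ ∈ par {s,t}`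
(`exists_XR`, `len_XR_mul`), `p v r' = x0 h` in the same way. `p v r = x0 (h κ)`, `h κ` in the
subgroup, so `z = x0` and `h κ = wJ` (`XR_unique`). `p v r'` is a prefix of `p v r`, so reduced;
lengths: `len (p v r) = len x0 + M s t` and `= len (p v r') + len κ = len x0 + len h + len κ`.
`dR κ s`: `dR_XR` for `r = r' κ`; not `dR κ t`: else `dR r t`, `dR (v r) t`. `κ ≠ 1` from `dR κ s`
(`dR_ne_one`). `h ≠ 1`: else `κ = wJ`, which has the right descent `t` (as `p v r = x0 wJ` has it,
`dR_XR`). `r' ∈ XL M X` by `XL_pre`. -/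
theorem Bad.fr {p v r : M.Group} {t : B} (hB : Bad M X p v r t) (h : r ≠ 1) :
    ∃ s r' κ h, Fr M X p v r t s r' κ h := by
  obtain ⟨s, hs⟩ := exists_dR h
  have hvr : Rd M v r := len_mul_XL hB.hv hB.hr
  have hvs : dR M (v * r) s := dR_of_rd hvr hs
  have hst : s ≠ t := by
    rintro rfl
    exact hB.hn hvs
  have hred := hB.red
  have hpvr : Rd M p (v * r) := by
    unfold Rd at hvr ⊢
    rw [← mul_assoc, hred, hvr, add_assoc]
  have hps : dR M (p * v * r) s := by
    rw [mul_assoc]
    exact dR_of_rd hpvr hvs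
  obtain ⟨hm0, z, hz, hzw, hzl⟩ := two_R hps hB.ht hst
  obtain ⟨r', hr', κ, hκ, hrk⟩ := exists_XR (M := M) ({s, t} : Set B) r
  have hlr : len M r = len M r' + len M κ := by
    rw [hrk]
    exact len_XR_mul hr' hκ
  obtain ⟨x0, hx0, g, hg, hxg⟩ := exists_XR (M := M) ({s, t} : Set B) (p * v * r')
  have hlg : len M (p * v * r') = len M x0 + len M g := by
    rw [hxg]
    exact len_XR_mul hx0 hg
  have e1 : p * v * r = x0 * (g * κ) := by
    rw [hrk, ← mul_assoc, hxg, mul_assoc]
  have hwJ : z = x0 ∧ wJ M s t = g * κ :=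
    XR_unique hz hx0 (wJ_mem s t) (Subgroup.mul_mem _ hg hκ) (hzw.symm.trans e1)
  have hle1 := rs_mul_le (M := M) (p * v * r') κ
  have hle2 := rs_mul_le (M := M) (p * v) r'
  have hle3 := rs_mul_le (M := M) p v
  have e2 : p * v * r' * κ = p * v * r := by
    rw [hrk, mul_assoc (p * v)]
  rw [e2] at hle1
  have hks : dR M κ s := by
    rw [hrk] at hs
    exact (dR_XR hr' hκ (Set.mem_insert s _)).1 hs
  have hkt : ¬ dR M κ t := by
    intro h1
    have h2 : dR M r t := by
      rw [hrk]
      exact (dR_XR hr' hκ (Set.mem_insert_of_mem s (Set.mem_singleton t))).2 h1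
    exact hB.hn (dR_of_rd hvr h2)
  have hzx : len M z = len M x0 := by rw [hwJ.1]
  have hJt : dR M (wJ M s t) t := by
    have h1 := hB.ht
    rw [hzw] at h1
    exact (dR_XR hz (wJ_mem s t) (Set.mem_insert_of_mem s (Set.mem_singleton t))).1 h1
  refine ⟨s, r', κ, g, ?_⟩
  refine
    { ne := hst
      m0 := hm0
      eq := hrk
      lenr := hlr
      xr := hr'
      xl := ?_
      kp := hκ
      k1 := dR_ne_one hks
      ks := hks
      kt := hkt
      hh := hg
      h1 := ?_
      hx := ⟨x0, hx0, hxg⟩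
      hk := hwJ.2.symm
      hl := by omega
      red := by omega }
  · have h1 : len M (r' * κ) = len M r' + len M κ := by
      rw [← hrk]
      exact hlr
    have h2 : r' * κ ∈ XL M X := by
      rw [← hrk]
      exact hB.hr
    exact XL_pre h1 h2
  · intro hg1
    apply hkt
    have h2 := hwJ.2
    rw [hg1, one_mul] at h2
    rw [← h2]
    exact hJt

private theorem cl0K3_mem {w : M.Group} {P : Set B} (hw : w ∈ par M P) {y0 : B} {h' : M.Group}
    (he : w = sm M y0 * h') (hl : len M w = len M h' + 1) : y0 ∈ P ∧ h' ∈ par M P := by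
  have h1 : sm M y0 * w = h' := by rw [he, ← mul_assoc, sm_sm, one_mul]
  have h2 : dL M w y0 := by
    unfold dL
    rw [h1]
    exact hl.symm
  have h3 : y0 ∈ P := dL_mem hw h2
  refine ⟨h3, ?_⟩
  rw [← h1]
  exact (par M P).mul_mem (sm_mem_par h3) hw

private theorem cl0K3_len {s t : B} (hne : s ≠ t) (h0 : M s t ≠ 0) : ∀ n, n ≤ M s t →
    len M (rsA (sm M s) (sm M t) n) = n ∧ len M (rsA (sm M t) (sm M s) n) = n := by
  have hpar : ∀ (a b : B) (n : ℕ), rsA (sm M a) (sm M b) n ∈ par M ({a, b} : Set B) := by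
    intro a b n
    induction n generalizing a b with
    | zero => exact (par M _).one_mem
    | succ n ih =>
      rw [rsA_succ]
      refine (par M _).mul_mem (sm_mem_par (by simp)) ?_
      have := ih b a
      rwa [Set.pair_comm] at this
  have key : ∀ (a b : B) (n : ℕ), a ≠ b → n + 1 ≤ M a b →
      len M (rsA (sm M b) (sm M a) n) = n → (1 ≤ n → len M (rsA (sm M a) (sm M b) (n - 1)) = n - 1) →
      len M (rsA (sm M a) (sm M b) (n + 1)) = n + 1 := by
    intro a b n hab hn h1 h2
    rw [rsA_succ]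
    rcases dL_or (rsA (sm M b) (sm M a) n) a with h3 | h3
    · exfalso
      rcases Nat.eq_zero_or_pos n with rfl | hpos
      · exact dL_ne_one h3 rfl
      · have h4 := h2 hpos
        obtain ⟨k, rfl⟩ : ∃ k, n = k + 1 := ⟨n - 1, by omega⟩
        have h5 : dL M (rsA (sm M b) (sm M a) (k + 1)) b := by
          unfold dL
          rw [rsA_succ, ← mul_assoc, sm_sm, one_mul]
          rw [rsA_succ] at h1
          rw [h1]
          simpa using h4
        have h6 := eq_wJ' (x := b) (y := a) (hpar b a (k + 1)) (Ne.symm hab) h5 h3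
        have h7 := h6.2
        rw [h1, M.symmetric b a] at h7
        omega
    · rw [h3, h1]
  intro n
  induction n using Nat.strong_induction_on with
  | _ n ih =>
    intro hn
    rcases Nat.eq_zero_or_pos n with rfl | hpos
    · exact ⟨by rw [rsA_zero, len_one], by rw [rsA_zero, len_one]⟩
    · obtain ⟨k, rfl⟩ : ∃ k, n = k + 1 := ⟨n - 1, by omega⟩
      have h1 := ih k (by omega) (by omega)
      refine ⟨key s t k hne hn h1.2 (fun hk => (ih (k - 1) (by omega) (by omega)).1),
        key t s k (Ne.symm hne) (by rw [M.symmetric t s]; exact hn) h1.1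
          (fun hk => (ih (k - 1) (by omega) (by omega)).2)⟩

/-- The final equations. If `h = y0 * h'` is reduced then `y0 * (h' κ) = (h' κ) * t`.
PROOF. `y0 h' κ = wJ`, so `len (h' κ) ≥ M s t - 1`, and `≤ len h' + len κ = M s t - 1`. The
element `h' κ` of `par {s, t}` is reduced as a product, so `dR (h' κ) s` (`dR_of_rd`); if
`dR (h' κ) t` then `len (h' κ) = M s t` by `eq_wJ`, contradiction. So `h' κ t` has length `M s t`,
and it is `wJ` by `eq_wJ_len`. (`len wJ = M s t` by `len_wJ` for `w = p v r`.) -/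
theorem Fr.flip {p v r : M.Group} {t s : B} {r' κ h : M.Group} (hF : Fr M X p v r t s r' κ h)
    {y0 : B} {h' : M.Group} (he : h = sm M y0 * h') (hl : len M h = len M h' + 1) :
    sm M y0 * (h' * κ) = h' * κ * sm M t := by
  obtain ⟨hy, hp'⟩ := cl0K3_mem hF.hh he hl
  have hwJ : len M (wJ M s t) = M s t := (cl0K3_len hF.ne hF.m0 (M s t) le_rfl).1
  have h0 := hF.m0
  have hk := hF.hk
  have hlen := hF.hl
  rw [he, mul_assoc] at hk
  have h1 : len M (sm M y0 * (h' * κ)) ≤ 1 + len M (h' * κ) := by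
    have := rs_mul_le (sm M y0) (h' * κ)
    rw [len_sm] at this
    exact this
  have h2 := rs_mul_le h' κ
  rw [hk, hwJ] at h1
  have h3 : Rd M h' κ := by
    unfold Rd
    omega
  have h4 : dR M (h' * κ) s := dR_of_rd h3 hF.ks
  have hmem : h' * κ ∈ par M ({s, t} : Set B) := (par M _).mul_mem hp' hF.kp
  have h5 : ¬ dR M (h' * κ) t := by
    intro h6
    have h7 := (eq_wJ hmem hF.ne h4 h6).2
    omega
  have h6 := not_dR.1 h5
  have h7 : h' * κ * sm M t = wJ M s t := by
    refine eq_wJ_len ((par M _).mul_mem hmem (sm_mem_par (by simp))) ?_ h0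
    rw [h6]
    omega
  rw [hk, h7]

/-- The second case of the frame: `v * r'` has a right descent `j` in `{s, t}`; `k` is the other
letter. -/
structure Fr2 (M : CoxeterMatrix B) (X : Set B) (p v r : M.Group) (t s : B)
    (r' κ h : M.Group) (j k x : B) (h1 : M.Group) : Prop where
  jk : (j = s ∧ k = t) ∨ (j = t ∧ k = s)
  xX : x ∈ X
  vx : dR M v x
  mv : r' * sm M j = sm M x * r'
  rj : ¬ dR M r' j
  hj : h = h1 * sm M j
  hjl : len M h = len M h1 + 1
  h1n : h1 ≠ 1
  h1k : dR M h1 k
  dk : dR M (p * (v * sm M x) * r') k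
  nk : ¬ dR M (v * sm M x * r') k
  kk : dL M κ k
  red : len M (p * (v * sm M x) * r') = len M p + len M (v * sm M x) + len M r'

/-- The two cases.
PROOF. Case 1: `v r'` has no right descent in `{s, t}`. Let `t'` be a right descent of `h`
(`exists_descR`), `s'` the other letter. `p v r' = x0 h`, so `dR (p v r') t'` (`dR_XR`), hence
`Bad M X p v r' t'`. If `len h = 1`: `h = sm t'` and `Fr.flip` with `h' = 1`. If `len h ≥ 2`:
`dR (h t') s'` (`alt_R`), so `dR (p v r' t') s'` (`dR_XR`, `h t'` in the subgroup).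
Case 2: `dR (v r') j` with `j ∈ {s, t}`. Not `dR r' j` (`hF.xr`). `ex_par`: there is `x ∈ X`,
`dR v x`, `r' j = x r'`. Then `v r' j = (v x) r'`. As `dR (v r') j` also `dR (p v r') j`
(`dR_of_rd`), so `dR h j` (`dR_XR`): put `h1 = h j`, `h = h1 j`.
`nk`: if `dR (v x r') k`: not `dR r' k`, so by `ex_par` `r' k = x' r'`, `x' ∈ X`. Then
`r' u r'⁻¹ ∈ par M X` for all `u ∈ par {s, t}` (subgroup generated by `j`, `k`: closure induction),
so `r = r' κ = u' r'` with `u' = r' κ r'⁻¹ ∈ par M X`, `u' ≠ 1`; but `r ∈ XL M X` and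
`r' ∈ XL M X`: `XL_unique` gives `u' = 1`, contradiction.
`k1 (h1 ≠ 1)`: if `h1 = 1` then `len h = 1`, `len κ = M s t - 1`. But `v r = (v r') κ` is reduced
and `v r' = (v x r') j`, so `j κ` is reduced (a suffix of a reduced product) of length `M s t` in the
subgroup, so `dR (j κ) t` (it is the longest element: its letters alternate, `eq_wJ`-type argument as
in `Fr.flip`) hence `dR (v r) t`, contradiction with `hB.hn`. So `len h ≥ 2` and `dR (h j) k`
(`alt_R`): this is `h1k`. `dk`: `p (v x) r' = p v r' j = x0 h1`, `dR_XR`. `red`: the length of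
`p v r' j` is `len (p v r') - 1`, and `len (v x) = len v - 1`.
`kk`: `j κ` reduced (above), `κ ≠ 1` in the subgroup has a left descent in `{s, t}`
(`exists_descL`), it is not `j` since `j κ` is longer than `κ`. -/
theorem Bad.cases {p v r : M.Group} {t s : B} {r' κ h : M.Group} (hB : Bad M X p v r t)
    (hF : Fr M X p v r t s r' κ h) :
    (∃ t' s', s' ≠ t' ∧ Bad M X p v r' t' ∧ ¬ dR M (v * r') s' ∧
      (sm M t' * κ = κ * sm M t ∨ dR M (p * v * r' * sm M t') s')) ∨
    ∃ j k x h1, Fr2 M X p v r t s r' κ h j k x h1 := by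
  obtain ⟨x0, hx0, hxe⟩ := hF.hx
  have hlvr : len M (v * r') = len M v + len M r' := len_mul_XL hB.hv hF.xl
  have hrd : Rd M p (v * r') := by
    have h1 := hF.red
    rw [mul_assoc] at h1
    rw [Rd, h1, hlvr]
    omega
  by_cases hc : dR M (v * r') s ∨ dR M (v * r') t
  · -- second case
    right
    obtain ⟨j, k, hjk, hdj⟩ : ∃ j k, ((j = s ∧ k = t) ∨ (j = t ∧ k = s)) ∧ dR M (v * r') j := by
      rcases hc with hc | hc
      · exact ⟨s, t, Or.inl ⟨rfl, rfl⟩, hc⟩
      · exact ⟨t, s, Or.inr ⟨rfl, rfl⟩, hc⟩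
    have hY : ({j, k} : Set B) = {s, t} := by
      rcases hjk with ⟨h1, h2⟩ | ⟨h1, h2⟩
      · rw [h1, h2]
      · rw [h1, h2, Set.pair_comm]
    have hjY : j ∈ ({s, t} : Set B) := hY ▸ Set.mem_insert j {k}
    have hkY : k ∈ ({s, t} : Set B) := hY ▸ Set.mem_insert_of_mem j rfl
    have hrj : ¬ dR M r' j := mem_XR.1 hF.xr j hjY
    have hrk : ¬ dR M r' k := mem_XR.1 hF.xr k hkY
    obtain ⟨x, hx, hvx, hrx⟩ := (ex_par hB.hv hF.xl hdj).resolve_left hrj
    have e1 : v * r' * sm M j = v * sm M x * r' := by rw [mul_assoc, hrx, mul_assoc]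
    have e2 : p * v * r' * sm M j = p * (v * sm M x) * r' := by
      rw [mul_assoc p v r', mul_assoc p, e1, mul_assoc p]
    have hpj : dR M (x0 * h) j := by
      rw [← hxe, mul_assoc]
      exact dR_of_rd hrd hdj
    have hhj : dR M h j := (dR_XR hx0 hF.hh hjY).1 hpj
    have hjp : sm M j ∈ par M ({s, t} : Set B) := sm_mem_par hjY
    have hh1 : h * sm M j ∈ par M ({s, t} : Set B) := mul_mem hF.hh hjp
    have e3 : h = h * sm M j * sm M j := by rw [mul_assoc, sm_sm, mul_one]
    -- the product `j * κ` is reduced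
    have hvx1 : len M (v * r' * sm M j) + 1 = len M (v * r') := hdj
    have e4 : v * r = v * r' * sm M j * (sm M j * κ) := by
      rw [hF.eq, mul_assoc (v * r'), ← mul_assoc (sm M j), sm_sm, one_mul, mul_assoc]
    have hlr : len M (v * r) = len M v + len M r := len_mul_XL hB.hv hB.hr
    have hlr2 := hF.lenr
    have h5 := rs_mul_le (v * r' * sm M j) (sm M j * κ)
    rw [← e4] at h5
    have h6 := rs_mul_le (sm M j) κ
    rw [len_sm] at h6
    have hjκ : len M (sm M j * κ) = len M κ + 1 := by omega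
    have hrd2 : Rd M (v * r' * sm M j) (sm M j * κ) := by
      rw [Rd, ← e4]
      omega
    have hwt : dR M (wJ M s t) t := by
      have h7 : p * v * r = x0 * wJ M s t := by
        rw [hF.eq, ← mul_assoc, hxe, mul_assoc, hF.hk]
      have h8 := hB.ht
      rw [h7] at h8
      have h9 : wJ M s t ∈ par M ({s, t} : Set B) := by
        rw [← hF.hk]
        exact mul_mem hF.hh hF.kp
      exact (dR_XR hx0 h9 (Set.mem_insert_of_mem s rfl)).1 h8
    have h1n : h * sm M j ≠ 1 := by
      intro h0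
      have h7 : len M h = 1 := by
        have h8 : len M (h * sm M j) + 1 = len M h := hhj
        rw [h0, len_one] at h8
        omega
      have h8 := hF.hl
      have h9 : sm M j * κ = wJ M s t :=
        eq_wJ_len (mul_mem hjp hF.kp) (by omega) hF.m0
      apply hB.hn
      rw [e4, h9]
      rw [h9] at hrd2
      exact dR_of_rd hrd2 hwt
    have hlh : len M (h * sm M j) + 1 = len M h := hhj
    have h1k : dR M (h * sm M j) k := by
      have h7 : h ∈ par M ({j, k} : Set B) := by
        rw [hY]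
        exact hF.hh
      refine alt_R h7 hhj ?_
      have h8 : len M (h * sm M j) ≠ 0 := fun h0 => h1n (len_eq_zero.1 h0)
      omega
    have hdk : dR M (p * (v * sm M x) * r') k := by
      rw [← e2, hxe, mul_assoc]
      exact (dR_XR hx0 hh1 hkY).2 h1k
    refine ⟨j, k, x, h * sm M j, hjk, hx, hvx, hrx, hrj, e3, hlh.symm, h1n, h1k, hdk, ?_, ?_, ?_⟩
    · intro hn
      obtain ⟨x', hx', -, hrx'⟩ := (ex_par (mul_mem hB.hv (sm_mem_par hx)) hF.xl hn).resolve_left hrk
      have h7 : par M ({s, t} : Set B) ≤ (par M X).comap (MulAut.conj r').toMonoidHom := by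
        rw [par, Subgroup.closure_le]
        rintro _ ⟨b, hb, rfl⟩
        change r' * sm M b * r'⁻¹ ∈ par M X
        rw [← hY] at hb
        rcases hb with hb | hb
        · rw [hb, hrx, mul_inv_cancel_right]
          exact sm_mem_par hx
        · rw [Set.mem_singleton_iff.1 hb, hrx', mul_inv_cancel_right]
          exact sm_mem_par hx'
      have h8 : r' * κ * r'⁻¹ ∈ par M X := h7 hF.kp
      have h9 := XL_unique h8 (one_mem (par M X)) hF.xl hB.hr
        (by rw [inv_mul_cancel_right, one_mul, hF.eq])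
      apply hF.k1
      have h10 := h9.2
      rw [hF.eq] at h10
      exact (mul_eq_left.1 h10.symm)
    · obtain ⟨b, hb, hb1⟩ := exists_descL hF.kp hF.k1
      rw [← hY] at hb
      rcases hb with hb | hb
      · rw [hb] at hb1
        omega
      · rw [Set.mem_singleton_iff.1 hb] at hb1
        exact hb1
    · have h7 : len M (x0 * h * sm M j) + 1 = len M (x0 * h) := hpj
      rw [← hxe, e2, hF.red] at h7
      have h8 : len M (v * sm M x) + 1 = len M v := hvx
      omega
  · -- first case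
    left
    rw [not_or] at hc
    obtain ⟨t', ht', hd⟩ := exists_descR hF.hh hF.h1
    have hd' : dR M h t' := hd
    obtain ⟨s', hne, hY, hns, hnt⟩ : ∃ s', s' ≠ t' ∧ ({t', s'} : Set B) = {s, t} ∧
        ¬ dR M (v * r') s' ∧ ¬ dR M (v * r') t' := by
      rcases ht' with h1 | h1
      · refine ⟨t, ?_, ?_, hc.2, ?_⟩
        · rw [h1]
          exact hF.ne.symm
        · rw [h1]
        · rw [h1]
          exact hc.1
      · have h1 := Set.mem_singleton_iff.1 h1
        refine ⟨s, ?_, ?_, hc.1, ?_⟩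
        · rw [h1]
          exact hF.ne
        · rw [h1, Set.pair_comm]
        · rw [h1]
          exact hc.2
    have hdt : dR M (p * v * r') t' := by
      rw [hxe]
      exact (dR_XR hx0 hF.hh ht').2 hd'
    refine ⟨t', s', hne, ⟨hB.hp, hB.hv, hB.h2, hF.xl, hF.red, hdt, hnt⟩, hns, ?_⟩
    have hs' : s' ∈ ({s, t} : Set B) := hY ▸ Set.mem_insert_of_mem t' rfl
    by_cases h2 : 2 ≤ len M h
    · right
      have h3 : h ∈ par M ({t', s'} : Set B) := by
        rw [hY]
        exact hF.hh
      have h4 := alt_R h3 hd' h2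
      rw [hxe, mul_assoc]
      exact (dR_XR hx0 (mul_mem hF.hh (sm_mem_par ht')) hs').2 h4
    · left
      have h3 : len M h ≠ 0 := fun h0 => hF.h1 (len_eq_zero.1 h0)
      have h4 : len M (h * sm M t') = 0 := by omega
      have h5 : h * sm M t' = 1 := len_eq_zero.1 h4
      have h6 : h = sm M t' := by
        have h7 := congrArg (· * sm M t') h5
        simp only [mul_assoc, sm_sm, mul_one, one_mul] at h7
        exact h7
      have h7 := hF.flip (y0 := t') (h' := 1) (by rw [mul_one]; exact h6)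
        (by rw [len_one]; omega)
      rw [one_mul] at h7
      exact h7

/-- The final equation if `len h = 2`.
PROOF. `p (v x) r' k = x0 (h1 k)`. If `len h1 ≥ 2` then `dR (h1 k) j` (`alt_R`), so
`dR (p (v x) r' k) j`, contradiction. So `h1 = sm k` (`len_one_par`) and `h = k j`:
`Fr.flip` with `y0 = k`, `h' = j`. -/
theorem Fr2.flip1 {p v r : M.Group} {t s : B} {r' κ h : M.Group} {j k x : B} {h1 : M.Group}
    (hF : Fr M X p v r t s r' κ h) (hG : Fr2 M X p v r t s r' κ h j k x h1)
    (hn : ¬ dR M (p * (v * sm M x) * r' * sm M k) j) :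
    sm M k * (sm M j * κ) = sm M j * κ * sm M t := by
  have hjk : ({j, k} : Set B) = {s, t} := by
    rcases hG.jk with ⟨rfl, rfl⟩ | ⟨rfl, rfl⟩
    · rfl
    · exact Set.pair_comm _ _
  have hj0 : j ∈ ({s, t} : Set B) := by rw [← hjk]; simp
  have hk0 : k ∈ ({s, t} : Set B) := by rw [← hjk]; simp
  obtain ⟨x0, hx0, hx1⟩ := hF.hx
  have h1p : h1 ∈ par M ({s, t} : Set B) := by
    have : h1 = h * sm M j := by rw [hG.hj, mul_assoc, sm_sm, mul_one]
    rw [this]
    exact (par M _).mul_mem hF.hh (sm_mem_par hj0)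
  have e0 : p * (v * sm M x) * r' = x0 * h1 := by
    have e1 : p * (v * sm M x) * r' = p * v * r' * sm M j := by
      rw [mul_assoc (p * v) r' (sm M j), hG.mv]
      simp only [mul_assoc]
    rw [e1, hx1, hG.hj]
    rw [mul_assoc, mul_assoc, sm_sm, mul_one]
  have h1k' : h1 * sm M k ∈ par M ({s, t} : Set B) := (par M _).mul_mem h1p (sm_mem_par hk0)
  rw [e0, mul_assoc, dR_XR hx0 h1k' hj0] at hn
  have hl1 : len M h1 = 1 := by
    by_contra hcon
    have h2 : len M h1 ≠ 0 := fun h => hG.h1n (len_eq_zero.1 h)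
    have h3 : 2 ≤ len M h1 := by omega
    exact hn (alt_R (x := k) (y := j) (by rw [Set.pair_comm, hjk]; exact h1p) hG.h1k h3)
  have hk1 : h1 * sm M k = 1 := by
    have h2 := hG.h1k
    unfold dR at h2
    exact len_eq_zero.1 (by omega)
  have h1eq : h1 = sm M k := by
    have : h1 = h1 * sm M k * sm M k := by rw [mul_assoc, sm_sm, mul_one]
    rw [this, hk1, one_mul]
  refine hF.flip (y0 := k) (h' := sm M j) ?_ ?_
  · rw [hG.hj, h1eq]
  · rw [hG.hjl, hl1, len_sm]

/-- The final equation if `len h = 3`. PROOF. The same: `len h1 = 2`, `h1 = j k`, `h = j k j`. -/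
theorem Fr2.flip2 {p v r : M.Group} {t s : B} {r' κ h : M.Group} {j k x : B} {h1 : M.Group}
    (hF : Fr M X p v r t s r' κ h) (hG : Fr2 M X p v r t s r' κ h j k x h1)
    (hd : dR M (p * (v * sm M x) * r' * sm M k) j)
    (hn : ¬ dR M (p * (v * sm M x) * r' * sm M k * sm M j) k) :
    sm M j * (sm M k * (sm M j * κ)) = sm M k * (sm M j * κ) * sm M t := by
  have hjk : ({j, k} : Set B) = {s, t} := by
    rcases hG.jk with ⟨rfl, rfl⟩ | ⟨rfl, rfl⟩
    · rfl
    · exact Set.pair_comm _ _
  have hj0 : j ∈ ({s, t} : Set B) := by rw [← hjk]; simp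
  have hk0 : k ∈ ({s, t} : Set B) := by rw [← hjk]; simp
  obtain ⟨x0, hx0, hx1⟩ := hF.hx
  have h1p : h1 ∈ par M ({s, t} : Set B) := by
    have : h1 = h * sm M j := by rw [hG.hj, mul_assoc, sm_sm, mul_one]
    rw [this]
    exact (par M _).mul_mem hF.hh (sm_mem_par hj0)
  have e0 : p * (v * sm M x) * r' = x0 * h1 := by
    have e1 : p * (v * sm M x) * r' = p * v * r' * sm M j := by
      rw [mul_assoc (p * v) r' (sm M j), hG.mv]
      simp only [mul_assoc]
    rw [e1, hx1, hG.hj]
    rw [mul_assoc, mul_assoc, sm_sm, mul_one]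
  have h1k' : h1 * sm M k ∈ par M ({s, t} : Set B) := (par M _).mul_mem h1p (sm_mem_par hk0)
  rw [e0, mul_assoc, dR_XR hx0 h1k' hj0] at hd
  have h1kj : h1 * sm M k * sm M j ∈ par M ({s, t} : Set B) :=
    (par M _).mul_mem h1k' (sm_mem_par hj0)
  have e2 : x0 * h1 * sm M k * sm M j = x0 * (h1 * sm M k * sm M j) := by simp only [mul_assoc]
  rw [e0, e2, dR_XR hx0 h1kj hk0] at hn
  have hk1 := hG.h1k
  have hd' := hd
  unfold dR at hk1 hd'
  have hl1 : len M (h1 * sm M k) = 1 := by
    by_contra hcon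
    have h3 : 2 ≤ len M (h1 * sm M k) := by omega
    exact hn (alt_R (x := j) (y := k) (by rw [hjk]; exact h1k') hd h3)
  have h1eq : h1 = sm M j * sm M k := by
    have h2 : h1 * sm M k * sm M j = 1 := len_eq_zero.1 (by omega)
    have h3 : h1 = h1 * sm M k * sm M j * sm M j * sm M k := by
      rw [mul_assoc (h1 * sm M k), sm_sm, mul_one, mul_assoc, sm_sm, mul_one]
    rw [h3, h2, one_mul]
  have hl2 : len M h1 = 2 := by omega
  have hl3 : len M (sm M k * sm M j) = 2 := by
    have h3 : (sm M k * sm M j)⁻¹ = h1 := by rw [mul_inv_rev, sm_inv, sm_inv, h1eq]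
    rw [← len_inv, h3, hl2]
  have h4 := hF.flip (y0 := j) (h' := sm M k * sm M j) (by
    rw [hG.hj, h1eq, mul_assoc]) (by rw [hG.hjl, hl2, hl3])
  rw [mul_assoc (sm M k)] at h4
  exact h4

/-- No triple with trivial `r` for a block. PROOF. If `t ∈ X`: `dR (p v) t` iff `dR v t` (`dR_XR`),
contradiction. If `t ∉ X`: let `d` be a right descent of `v`, `e` one of `v d` (`len v ≥ 2`,
`exists_descR`); both are in the block, `d3_R` for `p v`. -/
theorem blk_one (hb : Big M β) {i : Bool} {p v : M.Group} {t : B}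
    (hB : Bad M (blk β i) p v 1 t) : False := by
  have ht := hB.ht
  have hn := hB.hn
  rw [mul_one] at ht hn
  by_cases htX : t ∈ blk β i
  · exact hn ((dR_XR hB.hp hB.hv htX).1 ht)
  · have hne : v ≠ 1 := by
      intro h
      have h2 := hB.h2
      rw [h, len_one] at h2
      omega
    obtain ⟨d, hd, h1⟩ := exists_descR hB.hv hne
    have hv1 : v * sm M d ∈ par M (blk β i) := Subgroup.mul_mem _ hB.hv (sm_mem_par hd)
    have hne1 : v * sm M d ≠ 1 := by
      intro h
      rw [h, len_one] at h1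
      have h2 := hB.h2
      omega
    obtain ⟨e, he, h3⟩ := exists_descR hv1 hne1
    have h4 : dR M (p * v) d := (dR_XR hB.hp hB.hv hd).2 h1
    have h5 : dR M (p * v * sm M d) e := by
      rw [mul_assoc]
      exact (dR_XR hB.hp hv1 he).2 h3
    have hd' : β d = i := hd
    have he' : β e = i := he
    have hde : β d = β e := by rw [hd', he']
    have htd : β t ≠ β d := by
      intro h
      apply htX
      show β t = i
      rw [h, hd']
    exact d3_R hb hde htd h4 h5 ht

private theorem crs_one_aux (hb : Big M β) {a b t : B} (hab : β a ≠ β b) {p v : M.Group}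
    (hp : p ∈ XR M ({a, b} : Set B)) (hv : v ∈ par M ({a, b} : Set B)) (h2 : 2 ≤ len M v)
    (ha : dR M v a) (ht : dR M (p * v) t) (hta : t ≠ a) (htb : t ≠ b) :
    TyI M a b p v 1 t := by
  have hne : a ≠ b := (Big.symm' hb hab).2.2
  have hmA : a ∈ ({a, b} : Set B) := by simp
  have hmB : b ∈ ({a, b} : Set B) := by simp
  have hvb : dR M (v * sm M a) b := alt_R hv ha h2
  have hv1 : v * sm M a ∈ par M ({a, b} : Set B) := Subgroup.mul_mem _ hv (sm_mem_par hmA)
  have h4 : dR M (p * v) a := (dR_XR hp hv hmA).2 ha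
  have h5 : dR M (p * v * sm M a) b := by
    rw [mul_assoc]
    exact (dR_XR hp hv1 hmB).2 hvb
  have hlen : len M (v * sm M a) + 1 = len M v := ha
  have hl2 : len M v = 2 := by
    by_contra h
    have hv1' : v * sm M a ∈ par M ({b, a} : Set B) := by
      rw [Set.pair_comm]
      exact hv1
    have hva : dR M (v * sm M a * sm M b) a := alt_R hv1' hvb (by omega)
    have hv2 : v * sm M a * sm M b ∈ par M ({a, b} : Set B) :=
      Subgroup.mul_mem _ hv1 (sm_mem_par hmB)
    have h6 : dR M (p * v * sm M a * sm M b) a := by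
      have h7 := (dR_XR hp hv2 hmA).2 hva
      rwa [← mul_assoc, ← mul_assoc] at h7
    rcases d1_R hb hab h4 h5 h6 ht with h7 | h7
    · exact hta h7
    · exact htb h7
  have hvv : v = sm M b * sm M a := by
    rcases len_two_pair hv hl2 with h | h
    · exfalso
      have hb' : dR M v b := by
        show len M (v * sm M b) + 1 = len M v
        rw [hl2, h, mul_assoc, sm_sm, mul_one, len_sm]
      have h7 := (eq_wJ hv hne ha hb').2
      have h8 := (Big.symm' hb hab).1
      omega
    · exact h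
  obtain ⟨-, hm2, h8⟩ := d2_R hb hab h4 h5 ht hta htb
  refine ⟨hvv, t, hta, htb, ?_, ?_⟩
  · have h9 : p * v * sm M a = p * sm M b := by
      rw [hvv, mul_assoc, mul_assoc, sm_sm, mul_one]
    rw [← h9]
    exact h8
  · rw [mul_one]
    exact sm_comm hm2

/-- The triples with trivial `r` for a pair.
PROOF. `t ∉ {x, y}` as before. If `len v ≥ 3`: the last three letters of `v` alternate
(`exists_descR`, `alt_R`), `d1_R` for `p v`: `t ∈ {x, y}`, contradiction. So `len v = 2`, `v = y x`
or `x y` (`len_two_pair`). Say `v = y x`: `d2_R` (`w = p y x`, `c = t`): `β t = β x`, `M t x = 2`,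
`dR (p y) t`. This is `TyI M x y` with `c = t`: `t * (x * 1) = x * 1 * t` (`sm_comm`). -/
theorem crs_one (hb : Big M β) {x y : B} (hxy : β x ≠ β y) {p v : M.Group} {t : B}
    (hB : Bad M {x, y} p v 1 t) : TyX M β x y p v 1 t ∨ TyX M β y x p v 1 t := by
  have ht := hB.ht
  have hn := hB.hn
  rw [mul_one] at ht hn
  have htX : t ∉ ({x, y} : Set B) := fun h => hn ((dR_XR hB.hp hB.hv h).1 ht)
  have htx : t ≠ x := by
    rintro rfl
    exact htX (by simp)
  have hty : t ≠ y := by
    rintro rfl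
    exact htX (by simp)
  have hne : v ≠ 1 := by
    intro h
    have h2 := hB.h2
    rw [h, len_one] at h2
    omega
  obtain ⟨d, hd, h1⟩ := exists_descR hB.hv hne
  have hd' : d = x ∨ d = y := by simpa using hd
  rcases hd' with rfl | rfl
  · left
    right
    left
    exact crs_one_aux hb hxy hB.hp hB.hv hB.h2 h1 ht htx hty
  · right
    right
    left
    have hp := hB.hp
    have hv := hB.hv
    rw [Set.pair_comm] at hp hv
    exact crs_one_aux hb hxy.symm hp hv hB.h2 h1 ht hty htx

end cl0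

end Pool.Agent.Helper63.LG
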