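import Pool.Agent.Helper63.LG.ClU

/-!
# Extra descents of triple products: the second case
-/

namespace Pool.Agent.Helper63.LG

open Pool.Agent.Helper35.KL Pool.Agent.Helper35.AM

section cl2

variable {B : Type} {M : CoxeterMatrix B} {β : B → Bool} (hb : Big M β)

include hb

/-- If `dR (p a) c`, `c` in the block of `b` and commuting with `b`: `a` is not a right descent of
`p a b c`.
PROOF. Suppose it is. `p a b c = p a c b`. `dR (p a) a`, `dR (p a) c`: by `c1_R` (`s = c`,
`t = a`) the right descents of `p a c` are equal to `a`, so `p a c b` is longer and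
`dR (p a c b) b`. `ch5_R` for `w = p a c b` (`x = b`, `y = a`): `dR (w b a) b`, i.e.
`dR (p a c a) b`. `ch5_R` for `w = p a` (`x = c`, `y = a`): `dR (p a c) a`, `dR (p a c a) c`,
`dR (p a c a c) a`, `dR (p a c a c a) c`. `d1_R` for `p a c a` (`x = c`, `y = a`):
`b ∈ {c, a}`, contradiction. -/
theorem na {a b c : B} {p : M.Group} (hab : β a ≠ β b) (hc : β c = β b) (hcb : c ≠ b)
    (hm : M c b = 2) (hp : ¬ dR M p a) (hd : dR M (p * sm M a) c) :
    ¬ dR M (p * sm M a * sm M b * sm M c) a := by
  intro h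
  have hca : β c ≠ β a := fun he => hab (by rw [← he, hc])
  have hca' : c ≠ a := fun he => hca (by rw [he])
  have hba : b ≠ a := fun he => hab (by rw [he])
  have hpa : dR M (p * sm M a) a := dR_mul.2 hp
  have h1 : ¬ dR M (p * sm M a * sm M c) b := fun h2 => hba (c1_R hb hca hd hpa h2)
  have h2 : dR M (p * sm M a * sm M c * sm M b) b := dR_mul.2 h1
  have h3 : p * sm M a * sm M b * sm M c = p * sm M a * sm M c * sm M b := by
    rw [mul_assoc (p * sm M a), mul_assoc (p * sm M a), sm_comm hm]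
  rw [h3] at h
  obtain ⟨-, h4, -, -⟩ := ch5_R h2 h hba (hb b a hab.symm)
  have h5 : p * sm M a * sm M c * sm M b * sm M b = p * sm M a * sm M c := by
    rw [mul_assoc _ (sm M b) (sm M b), sm_sm, mul_one]
  rw [h5] at h4
  obtain ⟨-, h6, h7, h8⟩ := ch5_R hd hpa hca' (hb c a hca)
  rcases d1_R hb hca h6 h7 h8 h4 with h9 | h9
  · exact hcb h9.symm
  · exact hba h9

/-- The second case for a block, trivial `r'`.
PROOF. `r' = 1`: `sm j = sm x`, `j = x` (injective), `x ∈ P = blk β i`. `r = κ`. `k ∉ P`: else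
`κ ∈ par {j, k} ≤ par P` and `r ∈ XL P`, so `κ = 1`. `dR (p v1) k`, `v1 = v x`. If
`len v1 ≥ 2`: the last two letters of `v1` are in `P`: `d3_R` for `p v1`, contradiction. So
`v1 = sm e`, `e ∈ P`, `v = e x`, `len v = 2`, `e ≠ x`. `dR (p e) e`, `dR (p e) k`: by `c1_R`
(`s = k`, `t = e`) the right descents of `p e k` are equal to `e ≠ x`: `Fr2.flip1`. This is
`TyB` with `d = x`, `g = k`. -/
theorem c2B_one {i : Bool} {p v r : M.Group} {t s : B} {κ h : M.Group} {j k x : B}
    {h1 : M.Group} (hB : Bad M (blk β i) p v r t) (hF : Fr M (blk β i) p v r t s 1 κ h)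
    (hG : Fr2 M (blk β i) p v r t s 1 κ h j k x h1) : TyB M (blk β i) p v r t := by
  have hmv := hG.mv
  rw [one_mul, mul_one] at hmv
  have hjx : j = x := by
    have h5 : j ∈ ({x} : Set B) := by
      rw [← sm_mem_iff (M := M), hmv]
      exact sm_mem_par rfl
    exact h5
  have hr : r = κ := by rw [hF.eq, one_mul]
  have hxX : x ∈ blk β i := hG.xX
  have hkX : k ∉ blk β i := by
    intro hk
    have h6 : ({s, t} : Set B) ⊆ blk β i := by
      intro b hb'
      rcases hG.jk with ⟨h7, h8⟩ | ⟨h7, h8⟩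
      · rcases hb' with h9 | h9
        · rw [h9, ← h7, hjx]; exact hxX
        · rw [Set.mem_singleton_iff.1 h9, ← h8]; exact hk
      · rcases hb' with h9 | h9
        · rw [h9, ← h8]; exact hk
        · rw [Set.mem_singleton_iff.1 h9, ← h7, hjx]; exact hxX
    have h7 : κ ∈ par M (blk β i) :=
      Subgroup.closure_mono (Set.image_mono h6) hF.kp
    obtain ⟨b, hb1, hb2⟩ := exists_descL h7 hF.k1
    have h8 : ¬ dL M κ b := by
      have h9 := mem_XL.1 hB.hr b hb1
      rwa [hr] at h9
    exact h8 hb2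
  have hdk := hG.dk
  rw [mul_one] at hdk
  have hv1 : v * sm M x ∈ par M (blk β i) := mul_mem hB.hv (sm_mem_par hxX)
  have hvx : len M (v * sm M x) + 1 = len M v := hG.vx
  have h2 := hB.h2
  by_cases hl : 2 ≤ len M (v * sm M x)
  · exfalso
    obtain ⟨d, hd1, hd2⟩ := exists_descR hv1
      (fun h0 => by rw [h0, len_one] at hl; omega)
    have hd2' : dR M (v * sm M x) d := hd2
    have hvd : v * sm M x * sm M d ∈ par M (blk β i) := mul_mem hv1 (sm_mem_par hd1)
    have hvd2 : len M (v * sm M x * sm M d) + 1 = len M (v * sm M x) := hd2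
    obtain ⟨e, he1, he2⟩ := exists_descR hvd
      (fun h0 => by rw [h0, len_one] at hvd2; omega)
    have he2' : dR M (v * sm M x * sm M d) e := he2
    have h3 : dR M (p * (v * sm M x)) d := (dR_XR hB.hp hv1 hd1).2 hd2'
    have h4 : dR M (p * (v * sm M x) * sm M d) e := by
      rw [mul_assoc]
      exact (dR_XR hB.hp hvd he1).2 he2'
    have hde : β d = β e := by
      have e1 : β d = i := hd1
      have e2 : β e = i := he1
      rw [e1, e2]
    have hgd : β k ≠ β d := by
      have e1 : β d = i := hd1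
      rw [e1]
      exact hkX
    exact d3_R hb hde hgd h3 h4 hdk
  · have hl1 : len M (v * sm M x) = 1 := by omega
    obtain ⟨e, he1, he2⟩ := len_one_par hv1 hl1
    have hv : v = sm M e * sm M x := by
      rw [← he2, mul_assoc, sm_sm, mul_one]
    have hex : e ≠ x := by
      intro h0
      rw [hv, h0, sm_sm, len_one] at h2
      omega
    rw [he2] at hdk
    have hpe : dR M (p * sm M e) e := dR_mul.2 (mem_XR.1 hB.hp e he1)
    have hke : β k ≠ β e := by
      have e1 : β e = i := he1
      rw [e1]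
      exact hkX
    have h3 : ¬ dR M (p * (v * sm M x) * 1 * sm M k) j := by
      rw [mul_one, he2, hjx]
      intro h4
      exact hex (c1_R hb hke hdk hpe h4).symm
    have h4 := Fr2.flip1 hF hG h3
    refine ⟨e, he1, x, hxX, k, hkX, hex, hv, hdk, ?_⟩
    rw [hjx] at h4
    rw [hr]
    exact h4

private theorem c2X_one_a {a b : B} (hab : β a ≠ β b) {p v r : M.Group} {t s : B} {κ h : M.Group}
    {j k : B} {h1 : M.Group} (hB : Bad M {a, b} p v r t)
    (hF : Fr M {a, b} p v r t s 1 κ h) (hG : Fr2 M {a, b} p v r t s 1 κ h j k a h1) :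
    TyX M β a b p v r t := by
  have haX : a ∈ ({a, b} : Set B) := Or.inl rfl
  have hbX : b ∈ ({a, b} : Set B) := Or.inr rfl
  have hab' : a ≠ b := fun h0 => hab (by rw [h0])
  have hmv := hG.mv
  rw [one_mul, mul_one] at hmv
  have hja : j = a := by
    have h5 : j ∈ ({a} : Set B) := by
      rw [← sm_mem_iff (M := M), hmv]
      exact sm_mem_par rfl
    exact h5
  subst hja
  have hr : r = κ := by rw [hF.eq, one_mul]
  have hkX : k ∉ ({j, b} : Set B) := by
    intro hk
    have h6 : ({s, t} : Set B) ⊆ ({j, b} : Set B) := by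
      intro c hc
      rcases hG.jk with ⟨h7, h8⟩ | ⟨h7, h8⟩
      · rcases hc with h9 | h9
        · rw [h9, ← h7]; exact haX
        · rw [Set.mem_singleton_iff.1 h9, ← h8]; exact hk
      · rcases hc with h9 | h9
        · rw [h9, ← h8]; exact hk
        · rw [Set.mem_singleton_iff.1 h9, ← h7]; exact haX
    have h7 : κ ∈ par M ({j, b} : Set B) :=
      Subgroup.closure_mono (Set.image_mono h6) hF.kp
    obtain ⟨c, hc1, hc2⟩ := exists_descL h7 hF.k1
    have h8 : ¬ dL M κ c := by
      have h9 := mem_XL.1 hB.hr c hc1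
      rwa [hr] at h9
    exact h8 hc2
  have hkj : k ≠ j := fun h0 => hkX (Or.inl h0)
  have hkb : k ≠ b := fun h0 => hkX (Or.inr h0)
  have hdk := hG.dk
  rw [mul_one] at hdk
  obtain ⟨v1, hv1⟩ : ∃ v1, v1 = v * sm M j := ⟨_, rfl⟩
  have hvv : v = v1 * sm M j := by rw [hv1, mul_assoc, sm_sm, mul_one]
  have hv1p : v1 ∈ par M ({j, b} : Set B) := by
    rw [hv1]
    exact mul_mem hB.hv (sm_mem_par haX)
  have hv1a : ¬ dR M v1 j := by
    rw [hv1, dR_mul]
    exact not_not.2 hG.vx
  have hlv : len M v1 + 1 = len M v := by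
    rw [hv1]
    exact hG.vx
  have hlv2 := hB.h2
  have hv1n : v1 ≠ 1 := by
    intro h0
    rw [h0, len_one] at hlv
    omega
  have hv1b : dR M v1 b := by
    obtain ⟨c, hc, h0⟩ := exists_descR hv1p hv1n
    rcases hc with rfl | hc
    · exact absurd h0 hv1a
    · rw [Set.mem_singleton_iff] at hc
      rw [← hc]
      exact h0
  rw [← hv1] at hdk
  have hpb : dR M (p * v1) b := (dR_XR hB.hp hv1p hbX).2 hv1b
  have hl1b : len M (v1 * sm M b) + 1 = len M v1 := hv1b
  have hv1p' : v1 ∈ par M ({b, j} : Set B) := by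
    rw [Set.pair_comm]
    exact hv1p
  have hv1bp : v1 * sm M b ∈ par M ({j, b} : Set B) := mul_mem hv1p (sm_mem_par hbX)
  rcases lt_or_ge 1 (len M v1) with hl | hl
  · -- `v1` has at least two letters
    have h3 : dR M (v1 * sm M b) j := alt_R hv1p' hv1b hl
    have hpb2 : dR M (p * v1 * sm M b) j := by
      rw [mul_assoc]
      exact (dR_XR hB.hp hv1bp haX).2 h3
    rcases lt_or_ge 2 (len M v1) with hl2 | hl2
    · exfalso
      have h4 : dR M (v1 * sm M b * sm M j) b := alt_R hv1bp h3 (by omega)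
      have hpb3 : dR M (p * v1 * sm M b * sm M j) b := by
        have h5 := (dR_XR hB.hp (mul_mem hv1bp (sm_mem_par haX)) hbX).2 h4
        rwa [← mul_assoc, ← mul_assoc] at h5
      rcases d1_R hb (Ne.symm hab) hpb hpb2 hpb3 hdk with h5 | h5
      · exact hkb h5
      · exact hkj h5
    · have hl3 : len M (v1 * sm M b) = 1 := by omega
      obtain ⟨x, hx, hxe⟩ := len_one_par hv1bp hl3
      have hxj : x = j := by
        rw [hxe] at h3
        exact (sm_inj (by
          unfold dR at h3
          rw [len_sm] at h3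
          have h6 : sm M x * sm M j = 1 := len_eq_zero.1 (by omega)
          rw [← sm_inv j]
          exact eq_inv_of_mul_eq_one_left h6))
      have hv1e : v1 = sm M j * sm M b := by
        rw [← hxj, ← hxe, mul_assoc, sm_sm, mul_one]
      have hve : v = sm M j * sm M b * sm M j := by rw [hvv, hv1e]
      obtain ⟨hkβ, hkm, -⟩ := d2_R hb (Ne.symm hab) hpb hpb2 hdk hkb hkj
      have hpjk : dR M (p * sm M j) k := by
        obtain ⟨-, -, h7⟩ := d2_R hb (Ne.symm hab) hpb hpb2 hdk hkb hkj
        have h8 : p * v1 * sm M b = p * sm M j := by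
          rw [hv1e]
          simp only [mul_assoc, sm_sm, mul_one]
        rwa [h8] at h7
      have hpj : ¬ dR M p j := mem_XR.1 hB.hp j haX
      have hna := na hb hab hkβ hkb hkm hpj hpjk
      have h9 : ¬ dR M (p * (v * sm M j) * 1 * sm M k) j := by
        rw [mul_one, ← hv1, hv1e, ← mul_assoc p]
        exact hna
      have h10 := Fr2.flip1 hF hG h9
      left
      refine ⟨hve, k, hkβ, hkb, hkm, hpjk, ?_⟩
      rw [hr]
      exact h10
  · -- `v1 = b`
    have hl1 : len M v1 = 1 := by omega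
    obtain ⟨x, hx, hxe⟩ := len_one_par hv1p hl1
    have hv1e : v1 = sm M b := by
      rcases hx with rfl | hx
      · exfalso
        apply hv1a
        rw [hxe]
        unfold dR
        rw [sm_sm, len_one, len_sm]
      · rw [Set.mem_singleton_iff] at hx
        rw [hxe, hx]
    have hve : v = sm M b * sm M j := by rw [hvv, hv1e]
    rw [hv1e] at hdk hpb
    by_cases hd : dR M (p * sm M b * sm M k) j
    · have hdb : dR M (p * sm M b * sm M k) b := g1_R hdk hpb hkb
      have hkβ : β k = β b := by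
        by_contra h0
        exact hab' (c1_R hb h0 hdk hpb hd)
      have hkm : M k b = 2 := by
        by_contra h0
        have h2 := g2_R hdk hpb hkb h0
        exact hkj (c1_R hb (Ne.symm hab) hdb hd h2)
      have hbk : M b k = 2 := by rwa [M.symmetric]
      have hpk : dR M p k := (dR_comm hbk).1 hdk
      have hpkb : p * sm M k * sm M b = p * sm M b * sm M k := by
        rw [mul_assoc, sm_comm hkm, ← mul_assoc]
      have hn2 : ¬ dR M (p * sm M b * sm M k * sm M j) k := by
        intro h0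
        exact hkb (c1_R hb hab hd hdb h0)
      have e1 : p * (v * sm M j) * 1 * sm M k = p * sm M b * sm M k := by
        rw [mul_one, ← hv1, hv1e]
      have h10 := Fr2.flip2 hF hG (by rw [e1]; exact hd) (by rw [e1]; exact hn2)
      right; right; left
      refine ⟨hve, k, hkβ, hkb, hkm, hpk, ?_, ?_⟩
      · rw [hpkb]
        exact hd
      · rw [hr]
        exact h10
    · have h9 : ¬ dR M (p * (v * sm M j) * 1 * sm M k) j := by
        rw [mul_one, ← hv1, hv1e]
        exact hd
      have h10 := Fr2.flip1 hF hG h9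
      right; left
      refine ⟨hve, k, hkj, hkb, hdk, ?_⟩
      rw [hr]
      exact h10

/-- The same for a pair.
PROOF. `j = x ∈ {a, b}`, `r = κ`, `k ∉ {a, b}` (else `κ ∈ par {a, b}`, `κ = 1`). Say `x = a` (the
other case is the same with `a`, `b` exchanged; `Set.pair_comm`). `v1 = v a`, `dR (p v1) k`.
`len v1 ≥ 3`: the last three letters of `v1` alternate (`alt_R`): `d1_R` for `p v1`:
`k ∈ {a, b}`, contradiction.
`len v1 = 2`: `v` is reduced and `dR v a`, so `v1 = a b`, `v = a b a`. `d2_R` (`w = p a b`, `x := b`,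
`y := a`, `c := k`): `β k = β b`, `M k b = 2`, `dR (p a) k`. `na` and `Fr2.flip1`: `TyA M β a b`
with `c = k`.
`len v1 = 1`: `v1 = b`, `v = b a`, `dR (p b) k`. If not `dR (p b k) a`: `Fr2.flip1`: `TyI M a b`
with `c = k`. If `dR (p b k) a`: `dR (p b k) b` (`g1_R`). `β k = β b` (else `c1_R` for `w = p b`,
`s = k`, `t = b`: the right descents of `p b k` are `b`). `M b k = 2`: else `dR (p b k b) k`
(`g2_R`) and `c1_R` for `p b k` (`s = b`, `t = a`) gives `k = a`. So `p b k = p k b`, `dR p k`
(`dR_comm`), `dR (p k b) a`. `ch5`/`c1_R` for `p b k` (`s = a`, `t = b`): the right descents of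
`p b k a` are `b`, so not `k`: `Fr2.flip2`: `a (k (a κ)) = (k (a κ)) t`: `Ty3 M β a b` with
`e = k`. -/
theorem c2X_one {a b : B} (hab : β a ≠ β b) {p v r : M.Group} {t s : B} {κ h : M.Group}
    {j k x : B} {h1 : M.Group} (hB : Bad M {a, b} p v r t)
    (hF : Fr M {a, b} p v r t s 1 κ h) (hG : Fr2 M {a, b} p v r t s 1 κ h j k x h1) :
    TyX M β a b p v r t ∨ TyX M β b a p v r t := by
  rcases hG.xX with h2 | h2
  · left
    rw [h2] at hG
    exact c2X_one_a hb hab hB hF hG
  · right
    rw [Set.mem_singleton_iff] at h2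
    rw [h2] at hG
    rw [Set.pair_comm] at hB hF hG
    exact c2X_one_a hb (Ne.symm hab) hB hF hG

variable {n : ℕ} (hC : CLn M β n)

include hC

/-- An auxiliary fact. Let `x` be a generator with `r j = x r`, `r` starts with `g` in the other
block. Then for `q` with `q r` reduced and not `dR q x`: every right descent `k` of `q r` is a right
descent of `r`, or ... (it cannot be a new one).
PROOF. Let `w = x r = r j`: `dL w x`, `dL w g` (`cm`, not `dR r j`), `w1_L` (`w`, `e := g`,
`g := x`): `x w = r = v' r2`, `r2 ∈ XL {g, x}`, `4 ≤ len v'`, `dL v' g`, not `dL v' x`. Moreover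
`v' = x * wJ`, so `len v' = M g x - 1`. Write `q = z5 k5`, `z5 ∈ XR {g, x}`, `k5 ∈ par {g, x}`.
`q r = z5 (k5 v') r2`, all reduced; so `len (k5 v') = len k5 + len v' ≥ 4`. Suppose `dR (q r) k`.
`hC.nv` (with `v := k5 v'`): `dR r2 k`, so `dR r k`; or `r2 k = y0 r2`, `dR (k5 v') y0`. If
`dR v' y0` then `r k = v' y0 r2` is shorter than `r`: `dR r k`. Otherwise `v'` has a right descent
`y1 ≠ y0` in `{g, x}` (`exists_descR`), which is one of `k5 v'`: `len (k5 v') = M g x` (`eq_wJ`), so
`len k5 = 1`, `k5 = sm g` or `sm x`; it is not `g` since `k5 v'` is reduced and `dL v' g`. So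
`k5 = sm x`, `dR k5 x`, `dR q x`, contradiction. -/
theorem no_new {x g j : B} {q r : M.Group} {k : B} (hgx : β g ≠ β x)
    (hm : r * sm M j = sm M x * r) (hj : ¬ dR M r j) (hg : dL M r g) (hq : ¬ dR M q x)
    (hr : len M (q * r) = len M q + len M r) (hn : len M q + len M r ≤ n)
    (hk : dR M (q * r) k) : dR M r k := by
  classical
  obtain ⟨-, hwx, hwg, -⟩ := cm hm.symm hj
  obtain ⟨r2, hr2, v', hv', e1, -, h4, hvg, hvx⟩ := w1_L hb hgx (hwg g hg) hwx
  rw [sm_cancel] at e1
  have hxS : x ∈ ({g, x} : Set B) := Or.inr rfl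
  have hgS : g ∈ ({g, x} : Set B) := Or.inl rfl
  have hgx' : g ≠ x := fun h => hgx (congrArg β h)
  have hMs : M g x = M x g := M.symmetric g x
  -- the length of `v'`
  have hxv : sm M x * v' ∈ par M ({g, x} : Set B) := mul_mem (sm_mem_par hxS) hv'
  have hlv : len M v' + 1 = M g x := by
    have h1 : dL M (sm M x * v') x := dL_mul.2 hvx
    have h2 : dL M (sm M x * v') g := by
      rw [← dL_XL hr2 hxv hgS, mul_assoc, ← e1]
      exact hwg g hg
    have h3 := (eq_wJ' hxv hgx' h2 h1).2
    rw [← h3]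
    exact (not_dL.1 hvx).symm
  obtain ⟨z5, hz5, k5, hk5, e5⟩ := exists_XR (M := M) ({g, x} : Set B) q
  have l1 : len M q = len M z5 + len M k5 := by rw [e5]; exact len_XR_mul hz5 hk5
  have l2 : len M r = len M v' + len M r2 := by rw [e1]; exact len_mul_XL hv' hr2
  have e6 : q * r = z5 * (k5 * v') * r2 := by
    rw [e5, e1]
    simp only [mul_assoc]
  have hkv : k5 * v' ∈ par M ({g, x} : Set B) := mul_mem hk5 hv'
  have l3 : len M (k5 * v') = len M k5 + len M v' := by
    have h1 := rs_mul_le (M := M) (z5 * (k5 * v')) r2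
    have h2 := rs_mul_le (M := M) z5 (k5 * v')
    have h3 := rs_mul_le (M := M) k5 v'
    rw [← e6] at h1
    omega
  have l4 : len M (z5 * (k5 * v') * r2) = len M z5 + len M (k5 * v') + len M r2 := by
    rw [← e6, hr, l1, l2, l3]
    omega
  rw [e6] at hk
  rcases hC.nv hgx hz5 hkv (by omega) hr2 l4 (by omega) hk with h | ⟨y0, hy0, h, e7⟩
  · rw [e1]
    exact dR_of_rd (len_mul_XL hv' hr2) h
  by_cases hy : dR M v' y0
  · rcases dR_or r k with h5 | h5
    · exact h5
    · exfalso
      have h6 : r * sm M k = v' * sm M y0 * r2 := by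
        rw [e1, mul_assoc, e7]
        simp only [mul_assoc]
      rw [h6] at h5
      have h7 := rs_mul_le (M := M) (v' * sm M y0) r2
      have h8 : len M (v' * sm M y0) + 1 = len M v' := hy
      omega
  · exfalso
    have hv1 : v' ≠ 1 := by
      rintro rfl
      rw [len_one] at h4
      omega
    obtain ⟨y1, hy1, h9⟩ := exists_descR hv' hv1
    have h9' : dR M v' y1 := h9
    have hne : y0 ≠ y1 := by
      rintro rfl
      exact hy h9'
    have h10 : dR M (k5 * v') y1 := dR_of_rd l3 h9'
    have hset : ({g, x} : Set B) = {y0, y1} ∧ M y0 y1 = M g x := by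
      rcases hy0 with rfl | h11
      · rcases hy1 with rfl | h12
        · exact absurd rfl hne
        · rw [Set.mem_singleton_iff] at h12
          rw [h12]
          exact ⟨rfl, rfl⟩
      · rw [Set.mem_singleton_iff] at h11
        rw [h11] at hne ⊢
        rcases hy1 with rfl | h12
        · exact ⟨Set.pair_comm _ _, hMs.symm⟩
        · rw [Set.mem_singleton_iff] at h12
          exact absurd h12.symm hne
    have h13 := (eq_wJ (hset.1 ▸ hkv) hne h h10).2
    rw [hset.2] at h13
    obtain ⟨y, hyS, e8⟩ := len_one_par hk5 (by omega)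
    rcases hyS with rfl | h14
    · rw [e8] at l3
      have h15 : len M (sm M y * v') + 1 = len M v' := hvg
      omega
    · rw [Set.mem_singleton_iff] at h14
      apply hq
      rw [e5, dR_XR hz5 hk5 hxS, e8, h14]
      show len M (sm M x * sm M x) + 1 = len M (sm M x)
      rw [sm_sm, len_one, len_sm]

/-- The second case for a block, nontrivial `r'`.
PROOF. `P = blk β i`, `v1 = v x`. Let `g1` be a left descent of `r'` (`exists_dL`), `g1 ∉ P`.
`r' j = x r'`, `x ∈ P`. Not `dR (p v1) x` (`dR_XR`: iff `dR v1 x`, and `v1 = v x`, `dR v x`,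
`dR_mul`). `no_new` with `q = p v1`, `r := r'`, `g := g1` (total length
`len p + len v - 1 + len r' ≤ n`), `k`: `dR r' k`, so `dR (v1 r') k` (`v1 r'` is reduced),
contradiction with `hG.nk`. -/
theorem c2B_ne {i : Bool} {p v r : M.Group} {t s : B} {r' κ h : M.Group} {j k x : B}
    {h1 : M.Group} (hB : Bad M (blk β i) p v r t) (hF : Fr M (blk β i) p v r t s r' κ h)
    (hG : Fr2 M (blk β i) p v r t s r' κ h j k x h1) (h1' : r' ≠ 1)
    (hn : len M p + len M v + len M r ≤ n + 1) : False := by
  obtain ⟨g1, hg1⟩ := exists_dL h1'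
  have hg2 : g1 ∉ blk β i := fun h => mem_XL.1 hF.xl g1 h hg1
  have hx : β x = i := hG.xX
  have hgx : β g1 ≠ β x := fun h => hg2 (h.trans hx)
  have hvx : v * sm M x ∈ par M (blk β i) := mul_mem hB.hv (sm_mem_par hG.xX)
  have hq : ¬ dR M (p * (v * sm M x)) x := by
    rw [dR_XR hB.hp hvx hG.xX, dR_mul]
    exact fun h => h hG.vx
  have l1 : len M (p * (v * sm M x)) = len M p + len M (v * sm M x) := len_XR_mul hB.hp hvx
  have l2 : len M (v * sm M x) + 1 = len M v := hG.vx
  have l3 := hF.lenr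
  have h2 : dR M r' k := no_new hb hC hgx hG.mv hG.rj hg1 hq (by rw [l1]; exact hG.red)
    (by omega) hG.dk
  exact hG.nk (dR_of_rd (len_mul_XL hvx hF.xl) h2)

omit hb hC in
private theorem c2X_smR {M : CoxeterMatrix B} {x y : B} (h : dR M (sm M x) y) : y = x := by
  unfold dR at h
  rw [len_sm] at h
  have h2 : sm M x * sm M y = 1 := len_eq_zero.1 (by omega)
  have h3 : sm M x = sm M y := by
    rw [← sm_inv y]
    exact eq_inv_of_mul_eq_one_left h2
  exact (sm_inj h3).symm

omit hb hC in
private theorem c2X_smL {M : CoxeterMatrix B} {x y : B} (h : dL M (sm M x) y) : y = x := by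
  unfold dL at h
  rw [len_sm] at h
  have h2 : sm M y * sm M x = 1 := len_eq_zero.1 (by omega)
  have h3 : sm M y = sm M x := by
    rw [← sm_inv x]
    exact eq_inv_of_mul_eq_one_left h2
  exact sm_inj h3

omit hb hC in
private theorem c2X_self {M : CoxeterMatrix B} (x : B) : dR M (sm M x) x := by
  unfold dR
  rw [sm_sm, len_one, len_sm]

omit hb hC in
private theorem c2X_dd {M : CoxeterMatrix B} {k6 r6 r' : M.Group} {x7 k : B} (hr : r' = k6 * r6)
    (hl : len M r' = len M k6 + len M r6) (hd : dR M k6 x7)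
    (he : r6 * sm M k = sm M x7 * r6) : dR M r' k := by
  by_contra hcon
  have h1 := not_dR.1 hcon
  have e : r' * sm M k = k6 * sm M x7 * r6 := by
    rw [hr, mul_assoc, he, mul_assoc]
  have h2 := rs_mul_le (k6 * sm M x7) r6
  unfold dR at hd
  rw [← e] at h2
  omega

/-- The second case for a pair, nontrivial `r'`, with `x = a`.
PROOF. `P = blk β (β a)`, `v1 = v a`, `q = p v1`. `¬ dR v1 a`, `v1 ≠ 1`, so `dR v1 b`
(`exists_descR`), `dR q b`, `¬ dR q a` (`dR_XR`). `q r'` is reduced, total length `≤ n`. Not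
`dR r' k` (`hG.nk`, `v1 r'` reduced), not `dR r' j`. `r' j = a r'`. `dR (q r') k`.
(1) If `r'` has a left descent `g` with `β g ≠ β a`: `no_new`: `dR r' k`, contradiction.
(2) So all left descents of `r'` are in `P`. `r' = k6 r6`, `k6 ∈ par P`, `r6 ∈ XL P`
(`exists_XL`), `k6 ≠ 1` (`dL_XL`), not `dL k6 a` (`r' ∈ XL {a, b}`). `(a k6) r6` has the right
descent `j` (`(a r') j = r'`). `ex_par`: not `dR r6 j`, so `r6 j = x6 r6`, `x6 ∈ P`,
`a k6 = k6 x6` (cancel `r6` in `a k6 x6 r6 = a r' j = r' = k6 r6`).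
Let `q = z7 k7`, `z7 ∈ XR P`, `k7 ∈ par P`. If `k7 ≠ 1`: it has a right descent `g2 ∈ P`,
`dR q g2`, `g2 ≠ a`; `c1_R` (`w = q`, `s = g2`, `t = b`): the right descents of `q g2` are `b ∉ P`,
so `k7 g2` has none: `k7 = sm g2`. `q r' = z7 (k7 k6) r6`, all reduced.
(A) `dR (k7 k6 r6) k`: `ex_par`: `r6 k = x7 r6`, `x7 ∈ P`, `dR (k7 k6) x7`. `k7 ≠ 1` (else
`dR r' k`), `k7 = g2`. Not `dR k6 x7` (else `dR r' k`). `exch` (`w = sm g2`, `r = k6`):
`g2 k6 x7 = k6`, so `g2 k6 = k6 x7`, `g2 r' = r' k`. If `len v1 ≥ 2`: `dR (q b) a` (`alt_R`),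
`d2_R` (`w = q`, `x := b`, `y := a`, `c := g2`) gives `β g2 = β b`, contradiction. So `v1 = b`,
`v = b a`, `q = p b`: `TyI M a b` with `c = g2`: not `dR (q r' k) j`: `q r' k = (q g2) r'`,
`ex_conj` (`w = q g2`): iff `dR (q g2) a`, false. `Fr2.flip1`: `k (j κ) = (j κ) t`;
`g2 (a r) = g2 a r' κ = g2 r' j κ = r' k j κ = r' j κ t = (a r) t`.
(B1) not (A) and `len (k7 k6) ≥ 2`: `Bad M P z7 (k7 k6) r6 k`; `hC.blk`: `k7 k6 = e' d'`,
`g ∉ P`, `g (d' r6) = (d' r6) k`. `conj_ch` (`ρ = d' r6`, `c := g`, `a := d'`, `t := k`; not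
`dR (d' r6) k` since `k7 k6 r6 = e' (d' r6)` is reduced): `dL r6 g`, `dL (g r6) d'`. `conj_ch`
(`ρ = r6`, `c := x6`, `a := g`, `t := j`): the left descents of `g r6` are equal to `x6`: so
`d' = x6`. If `k7 = 1`: `k6 = e' x6`, `a k6 = k6 x6 = e'`, but `len (a k6) = len k6 + 1`,
contradiction. If `k7 = g2`: `k6 = sm f`, `g2 f = e' x6`, `a f = f x6`. `x6 ≠ f` (else
`a f = 1`); `dR (g2 f) f`, `dR (g2 f) x6`, `g1_R`: `dR g2 x6`, `x6 = g2`; `a f = f g2`: `dL` of it:
`f` and `a ≠ f`, `g1_L`: `dL g2 a`, `a = g2`, contradiction.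
(B2) not (A) and `len (k7 k6) ≤ 1`: `k7 = 1`, `k6 = sm f`, `f ∈ P`, `a f = f x6`, and as before
`x6 = a` (`x6 ≠ f`, `dR (a f) x6`, `dR (a f) f`). `f ≠ a`, `M f a = 2` (`two_L` for `a f` of
length `2`). `r6 j = a r6`. `q = z7 ∈ XR P`.
(B2a) `r6 ≠ 1`: it has a left descent `g3 ∉ P`. `no_new` with `q := q f`, `r := r6`, `x := a`,
`g := g3`: not `dR (q f) a` (`dR_XR`: iff `dR f a`). So `dR r6 k`, `dR r' k`, contradiction.
(B2b) `r6 = 1`: `r' = f`, `j = a`. `dR (q f) k`, `k ≠ f`, `k ∉ P` (`dR_XR`). `dR (q f) f`. `c1_R`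
(`w = q f`, `s = f`, `t = k`): the right descents of `q` are equal to `k`, so `k = b`. If
`len v1 ≥ 2`: `dR (q b) a`; `ch5_R` (`w = q f`, `x := f`, `y := b`): `dR (q b) f`, `dR (q b f) b`,
`dR (q b f b) f`: `d1_R` for `q b`: `a ∈ {f, b}`, contradiction. So `v1 = b`, `v = b a`,
`q = p b`: `Ty4 M a b` with `f`: `r = f κ`; not `dR (q f b) a` (`c1_R`, `w = q f`, `s = b`, `t = f`),
`Fr2.flip1`: `b (a κ) = (a κ) t`, and `f r = κ`. -/
theorem c2X_a {a b : B} (hab : β a ≠ β b) {p v r : M.Group} {t s : B}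
    {r' κ h : M.Group} {j k : B} {h1 : M.Group} (hB : Bad M {a, b} p v r t)
    (hF : Fr M {a, b} p v r t s r' κ h) (hG : Fr2 M {a, b} p v r t s r' κ h j k a h1)
    (h1' : r' ≠ 1) (hn : len M p + len M v + len M r ≤ n + 1) : TyX M β a b p v r t := by
  have ha2 : a ∈ ({a, b} : Set B) := by simp
  have hb2 : b ∈ ({a, b} : Set B) := by simp
  have haP : a ∈ blk β (β a) := rfl
  have hbP : b ∉ blk β (β a) := fun h => hab (Eq.symm h)
  have hab' : a ≠ b := fun h => hab (by rw [h])
  obtain ⟨v1, hv1⟩ : ∃ v1, v1 = v * sm M a := ⟨_, rfl⟩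
  have hvv : v = v1 * sm M a := by rw [hv1, mul_assoc, sm_sm, mul_one]
  have hv1p : v1 ∈ par M ({a, b} : Set B) := by
    rw [hv1]
    exact mul_mem hB.hv (sm_mem_par ha2)
  have hv1a : ¬ dR M v1 a := by
    rw [hv1, dR_mul]
    exact not_not.2 hG.vx
  have hlv : len M v1 + 1 = len M v := by
    rw [hv1]
    exact hG.vx
  have hlv2 := hB.h2
  have hv1n : v1 ≠ 1 := by
    intro h
    rw [h, len_one] at hlv
    omega
  have hv1b : dR M v1 b := by
    obtain ⟨c, hc, h⟩ := exists_descR hv1p hv1n
    rcases hc with rfl | hc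
    · exact absurd h hv1a
    · rw [Set.mem_singleton_iff] at hc
      rw [← hc]
      exact h
  obtain ⟨q, hq⟩ : ∃ q, q = p * v1 := ⟨_, rfl⟩
  have hqb : dR M q b := by
    rw [hq]
    exact (dR_XR hB.hp hv1p hb2).2 hv1b
  have hqa : ¬ dR M q a := by
    rw [hq]
    exact fun h => hv1a ((dR_XR hB.hp hv1p ha2).1 h)
  have hlq : len M q = len M p + len M v1 := by
    rw [hq]
    exact len_XR_mul hB.hp hv1p
  have hqr : len M (q * r') = len M q + len M r' := by
    have h := hG.red
    rw [← hv1, ← hq] at h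
    omega
  have hlr := hF.lenr
  have hn' : len M q + len M r' ≤ n := by omega
  have hrk : ¬ dR M r' k := by
    intro h
    apply hG.nk
    rw [← hv1]
    exact dR_of_rd (len_mul_XL hv1p hF.xl) h
  have hqk : dR M (q * r') k := by
    have h := hG.dk
    rwa [← hv1, ← hq] at h
  by_cases hg1 : ∃ g, dL M r' g ∧ β g ≠ β a
  · obtain ⟨g, hg, hgb⟩ := hg1
    exact absurd (no_new hb hC hgb hG.mv hG.rj hg hqa hqr hn' hqk) hrk
  have hg2' : ∀ g, dL M r' g → β g = β a := by
    intro g hg
    by_contra h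
    exact hg1 ⟨g, hg, h⟩
  obtain ⟨k6, hk6, r6, hr6, hr'⟩ := exists_XL (blk β (β a)) r'
  have hlr' : len M r' = len M k6 + len M r6 := by
    rw [hr']
    exact len_mul_XL hk6 hr6
  have hk6n : k6 ≠ 1 := by
    rintro rfl
    obtain ⟨g, hg⟩ := exists_dL h1'
    rw [one_mul] at hr'
    have h := hg2' g hg
    rw [hr'] at hg
    exact mem_XL.1 hr6 g h hg
  have hk6a : ¬ dL M k6 a := by
    intro h
    have h2 := (dL_XL hr6 hk6 haP).2 h
    rw [← hr'] at h2
    exact mem_XL.1 hF.xl a ha2 h2
  have hlak : len M (sm M a * k6) = len M k6 + 1 := not_dL.1 hk6a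
  have hr6j : ¬ dR M r6 j := by
    intro h
    apply hG.rj
    rw [hr']
    exact dR_of_rd (len_mul_XL hk6 hr6) h
  have hr6k : ¬ dR M r6 k := by
    intro h
    apply hrk
    rw [hr']
    exact dR_of_rd (len_mul_XL hk6 hr6) h
  have hd0 : dR M (sm M a * k6 * r6) j := by
    have e : sm M a * k6 * r6 = r' * sm M j := by
      rw [hG.mv, hr', mul_assoc]
    rw [e]
    exact dR_mul.2 hG.rj
  obtain h | ⟨x6, hx6, hdx6, he6⟩ := ex_par (mul_mem (sm_mem_par haP) hk6) hr6 hd0
  · exact absurd h hr6j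
  have hcom : sm M a * k6 = k6 * sm M x6 := by
    have e : sm M a * k6 * r6 = k6 * sm M x6 * r6 := by
      calc sm M a * k6 * r6 = sm M a * r' := by rw [hr', mul_assoc]
        _ = r' * sm M j := hG.mv.symm
        _ = k6 * (r6 * sm M j) := by rw [hr', mul_assoc]
        _ = k6 * sm M x6 * r6 := by rw [he6, mul_assoc]
    exact mul_right_cancel e
  obtain ⟨z7, hz7, k7, hk7, hqz⟩ := exists_XR (blk β (β a)) q
  have hlq7 : len M q = len M z7 + len M k7 := by
    rw [hqz]
    exact len_XR_mul hz7 hk7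
  have hk7c : k7 = 1 ∨ ∃ g2 ∈ blk β (β a), k7 = sm M g2 ∧ dR M q g2 ∧ g2 ≠ a := by
    by_cases h : k7 = 1
    · exact Or.inl h
    right
    obtain ⟨g2, hg2, hd⟩ := exists_descR hk7 h
    have hdq : dR M q g2 := by
      rw [hqz]
      exact (dR_XR hz7 hk7 hg2).2 hd
    refine ⟨g2, hg2, ?_, hdq, ?_⟩
    · by_contra hne
      have hne' : k7 * sm M g2 ≠ 1 := by
        intro h2
        apply hne
        rw [← sm_inv g2]
        exact eq_inv_of_mul_eq_one_left h2
      obtain ⟨f, hf, hfd⟩ := exists_descR (mul_mem hk7 (sm_mem_par hg2)) hne'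
      have hdf : dR M (q * sm M g2) f := by
        rw [hqz, mul_assoc]
        exact (dR_XR hz7 (mul_mem hk7 (sm_mem_par hg2)) hf).2 hfd
      have hgb : β g2 ≠ β b := fun h3 => hab (Eq.trans (Eq.symm hg2) h3)
      have := c1_R hb hgb hdq hqb hdf
      rw [this] at hf
      exact hbP hf
    · rintro rfl
      exact hqa hdq
  have e7 : q * r' = z7 * (k7 * k6) * r6 := by
    rw [hqz, hr']
    group
  have hl76 : len M (k7 * k6) = len M k7 + len M k6 ∧
      len M (z7 * (k7 * k6) * r6) = len M z7 + len M (k7 * k6) + len M r6 := by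
    have h1 := rs_mul_le (z7 * (k7 * k6)) r6
    have h2 := rs_mul_le z7 (k7 * k6)
    have h3 := rs_mul_le k7 k6
    rw [e7] at hqr
    constructor <;> omega
  have hdk7 : dR M (z7 * (k7 * k6) * r6) k := by
    rw [← e7]
    exact hqk
  have hlen1 : len M v1 < 2 → v1 = sm M b := by
    intro h2
    have h1 : len M v1 = 1 := by
      have : len M v1 ≠ 0 := fun h => hv1n (len_eq_zero.1 h)
      omega
    obtain ⟨x, hx, hxe⟩ := len_one_par hv1p h1
    rcases hx with rfl | hx
    · exfalso
      apply hv1a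
      rw [hxe]
      exact c2X_self _
    · rw [Set.mem_singleton_iff] at hx
      rw [hxe, hx]
  have hlen2 : 2 ≤ len M v1 → dR M (q * sm M b) a := by
    intro h2
    have h3 : dR M (v1 * sm M b) a := alt_R (by rw [Set.pair_comm]; exact hv1p) hv1b h2
    rw [hq, mul_assoc]
    exact (dR_XR hB.hp (mul_mem hv1p (sm_mem_par hb2)) ha2).2 h3
  by_cases hA : dR M (k7 * k6 * r6) k
  · -- case (A)
    obtain h | ⟨x7, hx7, hdx7, he7⟩ := ex_par (mul_mem hk7 hk6) hr6 hA
    · exact absurd h hr6k
    have hk6x : ¬ dR M k6 x7 := fun h => hrk (c2X_dd hr' hlr' h he7)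
    rcases hk7c with rfl | ⟨g2, hg2, rfl, hqg2, hg2a⟩
    · rw [one_mul] at hdx7
      exact absurd hdx7 hk6x
    have hgb : β g2 ≠ β b := fun h3 => hab (Eq.trans (Eq.symm hg2) h3)
    have hg2b : g2 ≠ b := fun h3 => hgb (by rw [h3])
    obtain h | ⟨w', _, hw1, hw2⟩ := exch hl76.1 hdx7 (sm_mem_par hg2)
    · exact absurd h hk6x
    have hw0 : w' = 1 := by
      rw [len_sm] at hw2
      exact len_eq_zero.1 (by omega)
    rw [hw0, one_mul] at hw1
    have heq : sm M g2 * k6 = k6 * sm M x7 := by
      calc sm M g2 * k6 = sm M g2 * k6 * sm M x7 * sm M x7 := by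
            rw [mul_assoc _ (sm M x7), sm_sm, mul_one]
        _ = k6 * sm M x7 := by rw [hw1]
    have hgr : sm M g2 * r' = r' * sm M k := by
      calc sm M g2 * r' = sm M g2 * k6 * r6 := by rw [hr', mul_assoc]
        _ = k6 * (sm M x7 * r6) := by rw [heq, mul_assoc]
        _ = r' * sm M k := by rw [← he7, ← mul_assoc, ← hr']
    by_cases h2 : 2 ≤ len M v1
    · exact absurd (d2_R hb (Ne.symm hab) hqb (hlen2 h2) hqg2 hg2b hg2a).1 hgb
    have hvb : v1 = sm M b := hlen1 (by omega)
    refine Or.inr (Or.inl ⟨?_, g2, hg2a, hg2b, ?_, ?_⟩)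
    · rw [hvv, hvb]
    · rw [hvb] at hq
      rw [← hq]
      exact hqg2
    · have hnj : ¬ dR M (p * (v * sm M a) * r' * sm M k) j := by
        have e : p * (v * sm M a) * r' * sm M k = q * sm M g2 * r' := by
          rw [← hv1, ← hq, mul_assoc q r', ← hgr, ← mul_assoc]
        rw [e]
        have hrd : Rd M (q * sm M g2) r' := by
          unfold Rd
          have e2 : q * sm M g2 * r' = q * r' * sm M k := by
            rw [mul_assoc, hgr, ← mul_assoc]
          rw [e2]
          have h3 := hqk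
          have h4 := hqg2
          unfold dR at h3 h4
          omega
        rw [ex_conj hrd hG.mv hG.rj]
        intro h3
        exact hab' (c1_R hb hgb hqg2 hqb h3)
      have hfl := hG.flip1 hF hnj
      have hr0 := hF.eq
      calc sm M g2 * (sm M a * r) = sm M g2 * (sm M a * r') * κ := by
            rw [hr0]
            group
        _ = sm M g2 * r' * (sm M j * κ) := by
            rw [← hG.mv]
            group
        _ = r' * (sm M k * (sm M j * κ)) := by
            rw [hgr, mul_assoc]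
        _ = r' * sm M j * κ * sm M t := by
            rw [hfl]
            group
        _ = sm M a * r * sm M t := by
            rw [hG.mv, hr0]
            group
  by_cases hB1 : 2 ≤ len M (k7 * k6)
  · -- case (B1)
    exfalso
    have hBad : Bad M (blk β (β a)) z7 (k7 * k6) r6 k :=
      ⟨hz7, mul_mem hk7 hk6, hB1, hr6, hl76.2, hdk7, hA⟩
    obtain ⟨e', he', d', hd', g, hg, hne, hed, _, hgc⟩ := hC.blk (β a) _ _ _ _ hBad (by omega)
    have hld : len M (sm M d' * r6) = 1 + len M r6 := by
      rw [len_mul_XL (sm_mem_par hd') hr6, len_sm]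
    have hρ : ¬ dR M (sm M d' * r6) k := by
      intro h
      apply hA
      rw [hed, mul_assoc]
      refine dR_of_rd ?_ h
      unfold Rd
      rw [← mul_assoc, ← hed, len_mul_XL (mul_mem hk7 hk6) hr6, hld, len_sm]
      have h3 := rs_mul_le (sm M e') (sm M d')
      rw [← hed, len_sm, len_sm] at h3
      omega
    have hda : dL M (sm M d' * r6) d' := by
      unfold dL
      rw [sm_cancel, hld]
      omega
    have hgd : β g ≠ β d' := by
      intro h
      exact hg (Eq.trans h hd')
    obtain ⟨c1, c2, _, _, _⟩ := conj_ch hb hgc hρ hda hgd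
    rw [sm_cancel] at c1 c2
    have hxg : β x6 ≠ β g := by
      intro h
      exact hg (Eq.trans (Eq.symm h) hx6)
    obtain ⟨_, _, _, _, c3⟩ := conj_ch hb he6.symm hr6j c1 hxg
    have hdx : d' = x6 := c3 d' c2
    rw [hdx] at hed
    rcases hk7c with rfl | ⟨g2, hg2, rfl, hqg2, hg2a⟩
    · rw [one_mul] at hed
      have e : sm M a * k6 = sm M e' := by
        rw [hcom, hed, mul_assoc, sm_sm, mul_one]
      rw [e, len_sm] at hlak
      exact hk6n (len_eq_zero.1 (by omega))
    · have h3 := rs_mul_le (sm M e') (sm M x6)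
      rw [← hed, len_sm, len_sm] at h3
      have h4 := hl76.1
      rw [len_sm] at h4
      have h5 : len M k6 = 1 := by omega
      obtain ⟨f, hf, hkf⟩ := len_one_par hk6 h5
      rw [hkf] at hed hcom hlak h4 hk6a
      have hxf : x6 ≠ f := by
        intro h
        rw [h, sm_sm] at hcom
        rw [hcom, len_one] at hlak
        omega
      have hd1 : dR M (sm M g2 * sm M f) f := by
        unfold dR
        rw [mul_assoc, sm_sm, mul_one, h4, len_sm, len_sm]
      have hd2 : dR M (sm M g2 * sm M f) x6 := by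
        unfold dR
        rw [h4, hed, mul_assoc, sm_sm, mul_one, len_sm, len_sm]
      have hd3 := g1_R hd1 hd2 (Ne.symm hxf)
      rw [mul_assoc, sm_sm, mul_one] at hd3
      have hxg2 : x6 = g2 := c2X_smR hd3
      rw [hxg2] at hcom
      have hfa : f ≠ a := by
        rintro rfl
        apply hk6a
        unfold dL
        rw [sm_sm, len_one, len_sm]
      have hd4 : dL M (sm M a * sm M f) f := by
        unfold dL
        rw [hlak, hcom, sm_cancel, len_sm, len_sm]
      have hd5 : dL M (sm M a * sm M f) a := by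
        unfold dL
        rw [hlak, sm_cancel]
      have hd6 := g1_L hd4 hd5 hfa
      rw [hcom, sm_cancel] at hd6
      exact hg2a (c2X_smL hd6).symm
  · -- case (B2)
    have hk6l : len M k6 ≠ 0 := fun h => hk6n (len_eq_zero.1 h)
    have hl1 := hl76.1
    have hk71 : k7 = 1 := len_eq_zero.1 (by omega)
    have hk61 : len M k6 = 1 := by omega
    obtain ⟨f, hf, hkf⟩ := len_one_par hk6 hk61
    rw [hkf] at hcom hlak hk6a hr' hlr'
    rw [len_sm] at hlak hlr'
    rw [hk71, mul_one] at hqz
    have hfa : f ≠ a := by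
      rintro rfl
      apply hk6a
      unfold dL
      rw [sm_sm, len_one, len_sm]
    have hxf : x6 ≠ f := by
      intro h
      rw [h, sm_sm] at hcom
      rw [hcom, len_one] at hlak
      omega
    have hd1 : dR M (sm M a * sm M f) f := by
      unfold dR
      rw [hlak, mul_assoc, sm_sm, mul_one, len_sm]
    have hd2 : dR M (sm M a * sm M f) x6 := by
      unfold dR
      rw [hlak, hcom, mul_assoc, sm_sm, mul_one, len_sm]
    have hd3 := g1_R hd1 hd2 (Ne.symm hxf)
    rw [mul_assoc, sm_sm, mul_one] at hd3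
    have hxa : x6 = a := c2X_smR hd3
    rw [hxa] at hcom he6
    have hfb : β f ≠ β b := fun h3 => hab (Eq.trans (Eq.symm hf) h3)
    have hMf : M f a = 2 := by
      have hd4 : dL M (sm M a * sm M f) f := by
        unfold dL
        rw [hlak, hcom, sm_cancel, len_sm]
      have hd5 : dL M (sm M a * sm M f) a := by
        unfold dL
        rw [hlak, sm_cancel, len_sm]
      obtain ⟨hm0, z, _, _, hz2⟩ := two_L hd4 hd5 hfa
      have hm1 := M.off_diagonal f a hfa
      omega
    have hqf : len M (q * sm M f) = len M q + 1 := by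
      rw [hqz, len_XR_mul hz7 (sm_mem_par hf), len_sm]
    have e6 : q * r' = q * sm M f * r6 := by
      rw [hr', mul_assoc]
    by_cases hr61 : r6 = 1
    · -- case (B2b)
      rw [hr61, mul_one] at hr'
      have hja : j = a := by
        rw [hr61, one_mul, mul_one] at he6
        exact sm_inj he6
      rw [hr61, mul_one] at e6
      rw [e6] at hqk
      have hkf' : k ≠ f := by
        rintro rfl
        apply hrk
        rw [hr']
        exact c2X_self _
      have hkP : k ∉ blk β (β a) := by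
        intro h
        rw [hqz] at hqk
        exact hkf' (c2X_smR ((dR_XR hz7 (sm_mem_par hf) h).1 hqk))
      have hdf : dR M (q * sm M f) f := by
        unfold dR
        rw [mul_assoc, sm_sm, mul_one, hqf]
      have hfk : β f ≠ β k := by
        intro h
        exact hkP (Eq.trans (Eq.symm h) hf)
      have hbk : b = k := by
        apply c1_R hb hfk hdf hqk
        rw [mul_assoc, sm_sm, mul_one]
        exact hqb
      rw [← hbk] at hqk
      have hqfb : ¬ dR M (q * sm M f * sm M b) a := by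
        intro h
        exact hfa (c1_R hb (Ne.symm hfb) hqk hdf h).symm
      by_cases h2 : 2 ≤ len M v1
      · exfalso
        have h5 : 5 ≤ M f b := hb f b hfb
        have hfb' : f ≠ b := fun h => hfb (by rw [h])
        obtain ⟨_, g2, g3, g4⟩ := ch5_R hdf hqk hfb' h5
        have e8 : q * sm M f * sm M f = q := by rw [mul_assoc, sm_sm, mul_one]
        rw [e8] at g2 g3 g4
        rcases d1_R hb hfb g2 g3 g4 (hlen2 h2) with h | h
        · exact hfa h.symm
        · exact hab' h
      have hvb : v1 = sm M b := hlen1 (by omega)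
      rw [hvb] at hq
      have hfr : sm M f * r = κ := by
        rw [hF.eq, hr', sm_cancel]
      refine Or.inr (Or.inr (Or.inr ⟨?_, f, hf, hfa, hMf, ?_, ?_, ?_⟩))
      · rw [hvv, hvb]
      · unfold dL
        rw [hfr, hF.lenr, hr', len_sm]
        omega
      · rw [← hq]
        exact hqk
      · rw [hfr]
        have hnj : ¬ dR M (p * (v * sm M a) * r' * sm M k) j := by
          rw [← hv1, hvb, ← hq, hr', ← hbk, hja]
          exact hqfb
        have hfl := hG.flip1 hF hnj
        rw [← hbk, hja] at hfl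
        exact hfl
    · -- case (B2a)
      exfalso
      obtain ⟨g3, hg3⟩ := exists_dL hr61
      have hg3P : β g3 ≠ β a := fun h => mem_XL.1 hr6 g3 h hg3
      have hqfa : ¬ dR M (q * sm M f) a := by
        intro h
        rw [hqz] at h
        exact hfa (c2X_smR ((dR_XR hz7 (sm_mem_par hf) haP).1 h)).symm
      apply hr6k
      refine no_new hb hC hg3P he6 hr6j hg3 hqfa ?_ ?_ (k := k) ?_
      · rw [← e6, hqr, hqf, hlr']
        omega
      · rw [hqf]
        omega
      · rw [← e6]
        exact hqk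

/-- PROOF. `hG.xX`: `x = a` or `x = b`; `c2X_a` for `(a, b)` or `(b, a)` (`Set.pair_comm`). -/
theorem c2X_ne {a b : B} (hab : β a ≠ β b) {p v r : M.Group} {t s : B}
    {r' κ h : M.Group} {j k x : B} {h1 : M.Group} (hB : Bad M {a, b} p v r t)
    (hF : Fr M {a, b} p v r t s r' κ h) (hG : Fr2 M {a, b} p v r t s r' κ h j k x h1)
    (h1' : r' ≠ 1) (hn : len M p + len M v + len M r ≤ n + 1) :
    TyX M β a b p v r t ∨ TyX M β b a p v r t := by
  rcases hG.xX with h | h
  · left
    rw [h] at hG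
    exact c2X_a hb hC hab hB hF hG h1' hn
  · right
    rw [Set.mem_singleton_iff] at h
    rw [h] at hG
    rw [Set.pair_comm] at hB hF hG
    exact c2X_a hb hC (Ne.symm hab) hB hF hG h1' hn

end cl2

end Pool.Agent.Helper63.LG
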