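import Pool.Agent.Helper63.LG.Cl0

/-!
# Extra descents of triple products: no second extra letter

In all theorems: `(p, v, r)` has the extra right descent `t` of one of the types, `s` is not a
right descent of `v * r`; then `s` is not a right descent of `p * v * r * t`. `n + 1` bounds the
total length, the classification is known up to `n`.
-/

namespace Pool.Agent.Helper63.LG

open Pool.Agent.Helper35.KL Pool.Agent.Helper35.AM

section clu

variable {B : Type} {M : CoxeterMatrix B} {β : B → Bool} (hb : Big M β)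
variable {n : ℕ} (hC : CLn M β n)

/-- If `c * ρ = ρ * t` and `ρ` starts with `a` in the other block, then `ρ = a c a c ...`.
PROOF. `cm`: `dL (c ρ) c`, `dL (c ρ) a`. `ch5_L` for `w = c ρ` (`x = c`, `y = a`): `c w = ρ`
(`sm_cancel`). -/
theorem conj_ch (hb : Big M β) {ρ : M.Group} {c a t : B} (h : sm M c * ρ = ρ * sm M t)
    (ht : ¬ dR M ρ t) (ha : dL M ρ a) (hca : β c ≠ β a) :
    dL M (sm M a * ρ) c ∧ dL M (sm M c * (sm M a * ρ)) a ∧
      dL M (sm M a * (sm M c * (sm M a * ρ))) c ∧ (∀ x, dL M ρ x → x = a) ∧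
      ∀ x, dL M (sm M a * ρ) x → x = c := by
  obtain ⟨-, h1, h2, -⟩ := cm h ht
  have hne : c ≠ a := fun he => hca (by rw [he])
  obtain ⟨h3, h4, h5, h6⟩ := ch5_L h1 (h2 a ha) hne (hb c a hca)
  have hc : sm M c * (sm M c * ρ) = ρ := sm_cancel c ρ
  rw [hc] at h3 h4 h5 h6
  refine ⟨h4, h5, h6, fun x hx => ?_, fun x hx => ?_⟩
  · refine c1_L hb hca h1 (h2 a ha) ?_
    rw [hc]
    exact hx
  · rcases d1_L hb hca h4 h5 h6 hx with h7 | h7
    · exact h7
    · rw [h7] at hx
      exact absurd ha (dL_mul.1 hx)

/-- Two commutations with the same element that starts with a letter of the other block.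
PROOF. `conj_ch` for `c` and `t`, and for `c'` and `t'`: `dL (a ρ) c` and `dL (a ρ) c'`, so
`c = c'` by the last part; then `ρ t = ρ t'`, so `t = t'` (`sm` is injective: compare
`simple_injective` or `sm_mem_iff`). -/
theorem conj_two (hb : Big M β) {ρ : M.Group} {c c' a t t' : B}
    (h : sm M c * ρ = ρ * sm M t) (ht : ¬ dR M ρ t) (h' : sm M c' * ρ = ρ * sm M t')
    (ht' : ¬ dR M ρ t') (hne : t ≠ t') (ha : dL M ρ a) (hca : β c ≠ β a) (hca' : β c' ≠ β a) :
    False := by
  obtain ⟨-, -, -, -, h1⟩ := conj_ch hb h ht ha hca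
  obtain ⟨h2, -⟩ := conj_ch hb h' ht' ha hca'
  have h3 : c' = c := h1 c' h2
  rw [h3, h] at h'
  have h4 : sm M t = sm M t' := mul_left_cancel h'
  have h5 : t ∈ ({t'} : Set B) := by
    rw [← sm_mem_iff (M := M), h4]
    exact sm_mem_par rfl
  exact hne h5

include hb hC

/-- Type B.
PROOF. Suppose `dR (p v r t) s`. `v = e d`. As `g (d r) = (d r) t`, `p v r t = (p e g) (d r)`.
Here `d r`: `d` and `r`: `dL (d r) d`; not `dL (d r) e` since `e (d r) = v r` is reduced
(`len_mul_XL`). Not `dR (d r) t`, not `dR (d r) s`: else `dR (v r) t` resp. `s` (`dR_of_rd`).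
`cm`: not `dL (d r) g`. `dR (p e) e` (`dR_XR`), `dR (p e) g`, `β e ≠ β g`: `w1_R` for `w = p e`:
`p e g = z v'`, `4 ≤ len v'`, `dR v' e`, not `dR v' g`. `d r ∈ XL {e, g}` (`mem_XL`). Lengths:
`len (p v r t) = len (p v r) - 1 = len p + 1 + len r = len z + len v' + len (d r)`
(`len (d r) = len r + 1`, `len z + len v' = len (p e) - 1 = len p`). `hC.nv` (total length
`len p + len r + 1 ≤ n`): `dR (d r) s`, contradiction, or `(d r) s = y0 (d r)` with `dR v' y0`,
`y0 = e`: then `e (d r) s = d r`, so `dR (v r) s`, contradiction. -/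
theorem u_B {i : Bool} {p v r : M.Group} {t s : B} (hB : Bad M (blk β i) p v r t)
    (hn : len M p + len M v + len M r ≤ n + 1) (hT : TyB M (blk β i) p v r t) (hst : s ≠ t)
    (hs : ¬ dR M (v * r) s) : ¬ dR M (p * v * r * sm M t) s := by
  obtain ⟨e, he, d, hd, g, hg, hed, rfl, hpg, hcm⟩ := hT
  intro hcon
  have hl2 : len M (sm M e * sm M d) = 2 := by
    have h1 := rs_mul_le (M := M) (sm M e) (sm M d)
    rw [len_sm, len_sm] at h1
    have h2 := hB.h2
    omega
  have hlv := len_mul_XL hB.hv hB.hr
  have hlr := len_mul_XL (sm_mem_par hd) hB.hr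
  rw [len_sm] at hlr
  have hvr : sm M e * sm M d * r = sm M e * (sm M d * r) := mul_assoc _ _ _
  have hred : Rd M (sm M e) (sm M d * r) := by
    unfold Rd
    rw [← hvr, len_sm]
    omega
  have hρt : ¬ dR M (sm M d * r) t := by
    intro h
    apply hB.hn
    rw [hvr]
    exact dR_of_rd hred h
  have hρs : ¬ dR M (sm M d * r) s := by
    intro h
    apply hs
    rw [hvr]
    exact dR_of_rd hred h
  have hρe : ¬ dL M (sm M d * r) e := by
    rw [not_dL, ← hvr]
    omega
  obtain ⟨hρg, -, -, -⟩ := cm hcm hρt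
  have heg : β e ≠ β g := by
    intro h
    apply hg
    have he' : β e = i := he
    show β g = i
    rw [← h, he']
  have hlpe := len_XR_mul hB.hp (sm_mem_par (M := M) he)
  rw [len_sm] at hlpe
  have hpe : dR M (p * sm M e) e := by
    unfold dR
    rw [mul_assoc, sm_sm, mul_one]
    omega
  obtain ⟨z, hz, v', hv', hzv, hlz, h4, hve, hvg⟩ := w1_R hb heg hpe hpg
  have hρX : sm M d * r ∈ XL M ({e, g} : Set B) := by
    rw [mem_XL]
    intro x hx
    rcases hx with rfl | hx
    · exact hρe
    · rw [Set.mem_singleton_iff] at hx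
      rw [hx]
      exact hρg
  have heq : p * (sm M e * sm M d) * r * sm M t = z * v' * (sm M d * r) := by
    calc p * (sm M e * sm M d) * r * sm M t = p * sm M e * (sm M d * r * sm M t) := by
          simp only [mul_assoc]
      _ = p * sm M e * sm M g * (sm M d * r) := by
          rw [← hcm]
          simp only [mul_assoc]
      _ = _ := by rw [hzv]
  have hlt := hB.ht
  unfold dR at hlt
  have hrd := hB.red
  have hlen : len M (z * v' * (sm M d * r)) = len M z + len M v' + len M (sm M d * r) := by
    rw [← heq]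
    omega
  rw [heq] at hcon
  rcases hC.nv heg hz hv' h4 hρX hlen (by omega) hcon with h | ⟨y0, hy0, hvy, hy⟩
  · exact hρs h
  · rcases hy0 with rfl | hy0
    · apply hs
      unfold dR
      rw [hvr, ← hy, mul_assoc (sm M d * r), sm_sm, mul_one, hy, ← hvr]
      omega
    · rw [Set.mem_singleton_iff] at hy0
      rw [hy0] at hvy
      exact hvg hvy

omit hb hC in
private theorem u_A_len {a b : B} (h2 : 2 ≤ len M (sm M a * sm M b * sm M a)) :
    len M (sm M a * sm M b * sm M a) = 3 ∧ len M (sm M b * sm M a) = 2 := by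
  have la := len_sm (M := M) a
  have lb := len_sm (M := M) b
  have h1 := rs_mul_le (M := M) (sm M a) (sm M b)
  have h3 := rs_mul_le (M := M) (sm M b) (sm M a)
  have h4 := rs_mul_le (M := M) (sm M a) (sm M b * sm M a)
  rw [← mul_assoc] at h4
  constructor
  · rcases dR_or (M := M) (sm M a * sm M b) a with h | h
    · unfold dR at h
      omega
    · rcases dR_or (M := M) (sm M a) b with h' | h'
      · unfold dR at h'
        omega
      · omega
  · rcases dL_or (M := M) (sm M b * sm M a) a with h | h
    · unfold dL at h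
      rw [← mul_assoc] at h
      omega
    · rw [← mul_assoc] at h
      rcases dR_or (M := M) (sm M b) a with h' | h'
      · unfold dR at h'
        omega
      · omega

/-- Type A.
PROOF. `v = a b a`, `c` as in the type. Suppose `dR (p v r t) s`. `c (a r) = (a r) t` and
`b c = c b` (`sm_comm`): `p v r t = p a b c a r = (p a c) (b a r)`. `ρ = b a r`: `len ρ = len r + 2`
(`len_mul_XL`, with `v = a b a` reduced: also `a ρ = v r` is longer, so not `dL ρ a`). Not `dR ρ t`,
not `dR ρ s` (`dR_of_rd`). Not `dL ρ c`: if it were, then `dL (a r) c` by `dL_comm`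
(`b c = c b`), but `cm` says not `dL (a r) c`. `dR (p a) a`, `dR (p a) c`, `β c = β b ≠ β a`:
`w1_R` (`w = p a`, `e = a`, `g = c`): `p a c = z v'`. `hC.nv` with total length
`len z + len v' + len ρ = len p + len r + 2 ≤ n`. So `dR ρ s` (contradiction) or `ρ s = a ρ`
(`y0` is a right descent of `v'`, so `y0 = a`): then `a ρ s = ρ`, `dR (v r) s`, contradiction. -/
theorem u_A {a b : B} (hab : β a ≠ β b) {p v r : M.Group} {t s : B}
    (hB : Bad M {a, b} p v r t)
    (hn : len M p + len M v + len M r ≤ n + 1) (hT : TyA M β a b p v r t) (hst : s ≠ t)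
    (hs : ¬ dR M (v * r) s) : ¬ dR M (p * v * r * sm M t) s := by
  intro D
  obtain ⟨hv, c, hcb, hcb', hM, hd, he⟩ := hT
  have h2 := hB.h2
  rw [hv] at h2
  obtain ⟨l3, l2⟩ := u_A_len h2
  have ha : a ∈ ({a, b} : Set B) := by simp
  have hbb : b ∈ ({a, b} : Set B) := by simp
  have hlv : len M v = 3 := by rw [hv]; exact l3
  -- the element rho
  obtain ⟨ρ, hρ⟩ : ∃ ρ, ρ = sm M b * (sm M a * r) := ⟨_, rfl⟩
  have lρ : len M ρ = len M r + 2 := by
    have h := len_mul_XL (mul_mem (sm_mem_par hbb) (sm_mem_par ha)) hB.hr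
    rw [mul_assoc, ← hρ] at h
    omega
  have lar : len M (sm M a * r) = len M r + 1 := by
    have h := len_mul_XL (sm_mem_par ha) hB.hr
    have := len_sm (M := M) a
    omega
  have haρ : sm M a * ρ = v * r := by
    rw [hρ, hv]
    group
  have lvr : len M (v * r) = len M r + 3 := by
    have h := len_mul_XL hB.hv hB.hr
    omega
  have rd1 : Rd M (sm M a) ρ := by
    unfold Rd
    have := len_sm (M := M) a
    rw [haρ]
    omega
  have rd2 : Rd M (sm M b) (sm M a * r) := by
    unfold Rd
    have := len_sm (M := M) b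
    rw [← hρ]
    omega
  have nρt : ¬ dR M ρ t := fun h => hB.hn (by rw [← haρ]; exact dR_of_rd rd1 h)
  have nρs : ¬ dR M ρ s := fun h => hs (by rw [← haρ]; exact dR_of_rd rd1 h)
  have nart : ¬ dR M (sm M a * r) t := fun h => nρt (by rw [hρ]; exact dR_of_rd rd2 h)
  have nρa : ¬ dL M ρ a := by
    rw [not_dL, haρ]
    omega
  have hM' : M b c = 2 := by rw [M.symmetric b c]; exact hM
  have nρc : ¬ dL M ρ c := by
    rw [hρ, dL_comm hM']
    exact (cm he nart).1
  have hac : β a ≠ β c := by rw [hcb]; exact hab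
  have dpa : dR M (p * sm M a) a := dR_mul.2 (mem_XR.1 hB.hp a ha)
  obtain ⟨z, hz, v', hv', e1, e2, h4, h5, h6⟩ := w1_R hb hac dpa hd
  have lpa : len M (p * sm M a) = len M p + 1 := not_dR.1 (mem_XR.1 hB.hp a ha)
  have e3 : p * v * r * sm M t = z * v' * ρ := by
    rw [← e1, hρ, hv]
    have hc := sm_comm hM
    calc p * (sm M a * sm M b * sm M a) * r * sm M t
        = p * sm M a * sm M b * (sm M a * r * sm M t) := by group
      _ = p * sm M a * (sm M b * sm M c) * (sm M a * r) := by rw [← he]; group
      _ = p * sm M a * (sm M c * sm M b) * (sm M a * r) := by rw [hc]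
      _ = p * sm M a * sm M c * (sm M b * (sm M a * r)) := by group
  have lt : len M (p * v * r * sm M t) + 1 = len M (p * v * r) := hB.ht
  have lred := hB.red
  have hr' : len M (z * v' * ρ) = len M z + len M v' + len M ρ := by
    rw [← e3]
    omega
  have hρX : ρ ∈ XL M ({a, c} : Set B) := by
    rw [mem_XL]
    intro x hx
    rcases hx with rfl | hx
    · exact nρa
    · rw [Set.mem_singleton_iff] at hx
      subst hx
      exact nρc
  rw [e3] at D
  rcases hC.nv hac hz hv' h4 hρX hr' (by omega) D with h | ⟨y0, hy, hy1, hy2⟩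
  · exact nρs h
  · rcases hy with rfl | hy
    · apply hs
      unfold dR
      rw [← haρ, mul_assoc, hy2, sm_cancel, haρ]
      omega
    · rw [Set.mem_singleton_iff] at hy
      subst hy
      exact h6 hy1

/-- Type I, `c` in the block of `a`.
PROOF. As `u_A`: `p v r t = (p b c) (a r)`, `ρ = a r`; `w1_R` for `w = p b`, `e = b`, `g = c`
(`β c = β a ≠ β b`): `p b c = z v'`; not `dL ρ b` (`b a r = v r` is reduced), not `dL ρ c` (`cm`).
Total length `len p + len r + 1`. Then `ρ s = b ρ` and `dR (v r) s`. -/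
theorem u_I1 {a b c : B} (hab : β a ≠ β b) (hc : β c = β a) {p r : M.Group} {t s : B}
    (hB : Bad M {a, b} p (sm M b * sm M a) r t)
    (hn : len M p + 2 + len M r ≤ n + 1) (hd : dR M (p * sm M b) c)
    (he : sm M c * (sm M a * r) = sm M a * r * sm M t) (hst : s ≠ t)
    (hs : ¬ dR M (sm M b * sm M a * r) s) :
    ¬ dR M (p * (sm M b * sm M a) * r * sm M t) s := by
  intro hcon
  have hbc : β b ≠ β c := by rw [hc]; exact fun h => hab h.symm
  -- lengths
  have hv2 : len M (sm M b * sm M a) = 2 := by
    have h1 := hB.h2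
    have h2 := rs_mul_le (M := M) (sm M b) (sm M a)
    rw [len_sm, len_sm] at h2
    omega
  have hvr : len M (sm M b * sm M a * r) = 2 + len M r := by
    rw [len_mul_XL hB.hv hB.hr, hv2]
  have har : len M (sm M a * r) = len M r + 1 := by
    have h1 := len_mul_XL (sm_mem_par (P := ({a, b} : Set B)) (Set.mem_insert a _)) hB.hr
    rw [len_sm] at h1
    omega
  have hbar : len M (sm M b * (sm M a * r)) = len M (sm M a * r) + 1 := by
    rw [← mul_assoc, hvr, har]; omega
  have hRd : Rd M (sm M b) (sm M a * r) := by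
    unfold Rd
    rw [hbar, len_sm]; omega
  have hnt : ¬ dR M (sm M a * r) t := by
    intro h
    apply hB.hn
    rw [mul_assoc]
    exact dR_of_rd hRd h
  obtain ⟨hcL, -, -, -⟩ := cm he hnt
  have hbL : ¬ dL M (sm M a * r) b := by
    rw [not_dL]; exact hbar
  have hρ : sm M a * r ∈ XL M ({b, c} : Set B) := by
    rw [mem_XL]
    intro x hx
    rcases hx with rfl | hx
    · exact hbL
    · rw [Set.mem_singleton_iff] at hx; rw [hx]; exact hcL
  have hpb : ¬ dR M p b := (mem_XR.1 hB.hp) b (by simp)
  have hpbb : dR M (p * sm M b) b := dR_mul.2 hpb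
  have hpbl : len M (p * sm M b) = len M p + 1 := not_dR.1 hpb
  obtain ⟨z, hz, v', hv', hzv, hzl, h4, hvb, hvc⟩ := w1_R hb hbc hpbb hd
  -- the product
  have hprod : p * (sm M b * sm M a) * r * sm M t = z * v' * (sm M a * r) := by
    rw [← hzv]
    calc p * (sm M b * sm M a) * r * sm M t = p * sm M b * (sm M a * r * sm M t) := by
          simp only [mul_assoc]
      _ = p * sm M b * (sm M c * (sm M a * r)) := by rw [he]
      _ = p * sm M b * sm M c * (sm M a * r) := by simp only [mul_assoc]
  have hlen : len M (p * (sm M b * sm M a) * r * sm M t) + 1 = len M p + 2 + len M r := by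
    have h1 := hB.ht
    unfold dR at h1
    rw [h1, hB.red, hv2]
  have hr' : len M (z * v' * (sm M a * r)) = len M z + len M v' + len M (sm M a * r) := by
    rw [← hprod]; omega
  rw [hprod] at hcon
  rcases hC.nv hbc hz hv' h4 hρ hr' (by omega) hcon with h | ⟨y0, hy0, hvy, hcomm⟩
  · apply hs
    rw [mul_assoc]
    exact dR_of_rd hRd h
  · have hy : y0 = b := by
      rcases hy0 with h | h
      · exact h
      · rw [Set.mem_singleton_iff] at h
        exact absurd (h ▸ hvy) hvc
    rw [hy] at hcomm
    apply hs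
    unfold dR
    have : sm M b * sm M a * r * sm M s = sm M a * r := by
      calc sm M b * sm M a * r * sm M s = sm M b * (sm M a * r * sm M s) := by
            simp only [mul_assoc]
        _ = sm M b * (sm M b * (sm M a * r)) := by rw [hcomm]
        _ = sm M a * r := sm_cancel b _
    rw [this, hvr, har]; omega

/-- Type I, `c` in the block of `b`, `M b c ≠ 2`.
PROOF. Suppose `dR (p v r t) s`; `p v r t = (p b c) (a r)`, `ρ = a r`, `dL ρ a`. `conj_ch` (with
`c`, `a`, `t`): the left descents of `ρ` are equal to `a`, and `dL r c`. So `ρ ∈ XL M (blk β (β b))`.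
Write `p b c = z u`, `z ∈ XR M P`, `u ∈ par M P`, `P = blk β (β b)` (`exists_XR`). `dR (p b) b`,
`dR (p b) c`: `dR (p b c) b` (`g1_R`) and `dR (p b c b) c` (`g2_R`, `M b c ≠ 2`). So `dR u b`
(`dR_XR`), `dR (u b) c`, `len u ≥ 2`. `(p b c) ρ` is reduced of total length
`len p + len r + 1 ≤ n`. Not `dR ρ s` (`dR_of_rd`).
(x) If `dR (u ρ) s`: `ex_par`: `ρ s = x ρ`, `x ∈ P`: `conj_two` (`c`, `t` and `x`, `s`).
(y) If not: `Bad M P z u ρ s`, by `hC.blk`: `u = e d`, `g ∉ P`, `g (d ρ) = (d ρ) s`. `conj_ch` for
`d ρ` (`dL (d ρ) d`: `d ρ` is longer than `ρ`; not `dR (d ρ) s` because `u ρ = e (d ρ)` is reduced and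
not `dR (u ρ) s`) with `c := g`, `a := d`: `dL ρ g`, `dL (g ρ) d`. So `g = a` (left descents
of `ρ`) and `dL (a ρ) d`, `a ρ = r`; the left descents of `a ρ` are equal to `c`: `d = c`. So
`u = e c`, `dR u c`; and `dR u b`; `len u = 2` and two right descents `b ≠ c` (`two_R` or: `dR (u c) b`
so `e = b` ..., `u = b c`, `dR (b c) b` means `b c b` has length `1`): use `g2_R` for `u`, `c`, `b`:
`dR (u c b) c` would give `len u ≥ 3`. Contradiction. -/
theorem u_I2 {a b c : B} (hab : β a ≠ β b) (hc : β c = β b) (hcb : c ≠ b) (hm : M b c ≠ 2)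
    {p r : M.Group} {t s : B} (hB : Bad M {a, b} p (sm M b * sm M a) r t)
    (hn : len M p + 2 + len M r ≤ n + 1) (hd : dR M (p * sm M b) c)
    (he : sm M c * (sm M a * r) = sm M a * r * sm M t) (hst : s ≠ t)
    (hs : ¬ dR M (sm M b * sm M a * r) s) :
    ¬ dR M (p * (sm M b * sm M a) * r * sm M t) s := by
  intro hS
  have hca : β c ≠ β a := by rw [hc]; exact fun h => hab h.symm
  have hmcb : M c b ≠ 2 := by rw [M.symmetric c b]; exact hm
  -- lengths
  have hra : ¬ dL M r a := (mem_XL.mp hB.hr) a (by simp)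
  have hla : len M (sm M a * r) = len M r + 1 := not_dL.mp hra
  have hv2 : len M (sm M b * sm M a) = 2 := by
    have h1 : len M (sm M b * sm M a) ≤ len M (sm M b) + len M (sm M a) := rs_mul_le _ _
    have h2 := hB.h2
    rw [len_sm, len_sm] at h1
    omega
  have hvr : len M (sm M b * sm M a * r) = 2 + len M r := by
    rw [len_mul_XL hB.hv hB.hr, hv2]
  have hRd : Rd M (sm M b) (sm M a * r) := by
    unfold Rd
    rw [← mul_assoc, hvr, len_sm, hla]; omega
  have hρt : ¬ dR M (sm M a * r) t := by
    intro h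
    have h1 := dR_of_rd hRd h
    rw [← mul_assoc] at h1
    exact hB.hn h1
  have hρs : ¬ dR M (sm M a * r) s := by
    intro h
    have h1 := dR_of_rd hRd h
    rw [← mul_assoc] at h1
    exact hs h1
  have hρa : dL M (sm M a * r) a := dL_mul.mpr hra
  obtain ⟨-, -, -, hl1, hl2⟩ := conj_ch hb he hρt hρa hca
  rw [sm_cancel] at hl2
  -- the element
  have hprod : p * (sm M b * sm M a) * r * sm M t =
      p * sm M b * sm M c * (sm M a * r) := by
    rw [mul_assoc (p * sm M b) (sm M c), he]
    simp only [mul_assoc]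
  have hpb : ¬ dR M p b := (mem_XR.mp hB.hp) b (by simp)
  have hpbb : dR M (p * sm M b) b := dR_mul.mpr hpb
  have hpbl : len M (p * sm M b) = len M p + 1 := not_dR.mp hpb
  have hpbc : len M (p * sm M b * sm M c) = len M p := by
    have h1 : len M (p * sm M b * sm M c) + 1 = len M (p * sm M b) := hd
    omega
  have hwb : dR M (p * sm M b * sm M c) b := g1_R hd hpbb hcb
  have hwbc : dR M (p * sm M b * sm M c * sm M b) c := g2_R hd hpbb hcb hmcb
  have htot : len M (p * sm M b * sm M c * (sm M a * r)) = len M p + len M r + 1 := by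
    rw [← hprod]
    have h1 : len M (p * (sm M b * sm M a) * r * sm M t) + 1 =
      len M (p * (sm M b * sm M a) * r) := hB.ht
    have h2 := hB.red
    rw [hv2] at h2
    omega
  rw [hprod] at hS
  -- the block
  have hbP : b ∈ blk β (β b) := rfl
  have hcP : c ∈ blk β (β b) := hc
  have hρP : sm M a * r ∈ XL M (blk β (β b)) := by
    rw [mem_XL]
    intro x hx hdx
    have h1 : x = a := hl1 x hdx
    have h2 : β x = β b := hx
    rw [h1] at h2
    exact hab h2
  obtain ⟨z, hz, u, hu, hzu⟩ := exists_XR (M := M) (blk β (β b)) (p * sm M b * sm M c)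
  have hlzu : len M (p * sm M b * sm M c) = len M z + len M u := by
    rw [hzu]; exact len_XR_mul hz hu
  rw [hzu] at hwb hwbc hS htot
  have hub : dR M u b := (dR_XR hz hu hbP).mp hwb
  have hubm : u * sm M b ∈ par M (blk β (β b)) :=
    Subgroup.mul_mem _ hu (sm_mem_par hbP)
  have hubc : dR M (u * sm M b) c := by
    rw [mul_assoc] at hwbc
    exact (dR_XR hz hubm hcP).mp hwbc
  have hlu : 2 ≤ len M u := by
    have h1 : len M (u * sm M b) + 1 = len M u := hub
    have h2 : len M (u * sm M b * sm M c) + 1 = len M (u * sm M b) := hubc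
    omega
  have hRdzu : len M (z * u * (sm M a * r)) = len M z + len M u + len M (sm M a * r) := by
    rw [htot, hla]; omega
  have hRdu : Rd M u (sm M a * r) := len_mul_XL hu hρP
  by_cases hus : dR M (u * (sm M a * r)) s
  · -- case x
    rcases ex_par hu hρP hus with h1 | ⟨y, hy, -, hy2⟩
    · exact hρs h1
    · have hya : β y ≠ β a := by
        have h2 : β y = β b := hy
        rw [h2]; exact fun h => hab h.symm
      exact conj_two hb he hρt hy2.symm hρs (fun h => hst h.symm) hρa hca hya
  · -- case y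
    have hBad : Bad M (blk β (β b)) z u (sm M a * r) s :=
      ⟨hz, hu, hlu, hρP, hRdzu, hS, hus⟩
    obtain ⟨e, heP, d, hdP, g, hgP, hed, hue, hzg, hgd⟩ :=
      hC.blk (β b) z u (sm M a * r) s hBad (by rw [hla]; omega)
    have hρd : ¬ dL M (sm M a * r) d := (mem_XL.mp hρP) d hdP
    have hdρ : dL M (sm M d * (sm M a * r)) d := dL_mul.mpr hρd
    have hu2 : len M u ≤ 2 := by
      have h1 : len M (sm M e * sm M d) ≤ len M (sm M e) + len M (sm M d) := rs_mul_le _ _
      rw [len_sm, len_sm, ← hue] at h1
      omega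
    have hdl : len M (sm M d * (sm M a * r)) = len M (sm M a * r) + 1 := not_dL.mp hρd
    have hRde : Rd M (sm M e) (sm M d * (sm M a * r)) := by
      unfold Rd
      have h1 : len M (u * (sm M a * r)) = len M u + len M (sm M a * r) := hRdu
      have h2 : u * (sm M a * r) = sm M e * (sm M d * (sm M a * r)) := by
        rw [hue, mul_assoc]
      rw [← h2, h1, len_sm, hdl]; omega
    have hdρs : ¬ dR M (sm M d * (sm M a * r)) s := by
      intro h
      have h1 := dR_of_rd hRde h
      have h2 : u * (sm M a * r) = sm M e * (sm M d * (sm M a * r)) := by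
        rw [hue, mul_assoc]
      rw [← h2] at h1
      exact hus h1
    have hgd' : β g ≠ β d := by
      intro h
      apply hgP
      have h2 : β d = β b := hdP
      show β g = β b
      rw [h, h2]
    obtain ⟨hk1, hk2, -, -, -⟩ := conj_ch hb hgd hdρs hdρ hgd'
    rw [sm_cancel] at hk1 hk2
    have hga : g = a := hl1 g hk1
    subst hga
    rw [sm_cancel] at hk2
    have hdc : d = c := hl2 d hk2
    subst hdc
    have huc : dR M u d := by
      have h1 : u * sm M d = sm M e := by rw [hue, mul_assoc, sm_sm, mul_one]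
      show len M (u * sm M d) + 1 = len M u
      rw [h1, len_sm]; omega
    have h1 : len M (u * sm M d) + 1 = len M u := huc
    have h2 : len M (u * sm M d * sm M b) + 1 = len M (u * sm M d) := g1_R huc hub hcb
    have h3 : len M (u * sm M d * sm M b * sm M d) + 1 = len M (u * sm M d * sm M b) :=
      g2_R huc hub hcb hmcb
    omega

/-- Type I, `c` in the block of `b`, `M b c = 2`.
PROOF. Suppose `dR (p v r t) s`. `b c = c b`. `dR p c` (`dR_comm`): put `z' = p c`, `p = z' c`,
`len p = len z' + 1`. `p v r t = (p b c) (a r) = z' b a r`, reduced: its length is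
`len (p v r) - 1 = len z' + 2 + len r`. Not `dR (a r) s`, not `dR r s` (`dR_of_rd`, `hs`). Let
`ρ = a r`; `conj_ch` (`c`, `a`, `t`): the left descents of `ρ` are `a`, those of `r = a ρ` are `c`,
`dL (c r) a`, `dL (a c r) c`. Write `z' = z1 k1`, `z1 ∈ XR {a, b}`, `k1 ∈ par {a, b}`
(`exists_XR`). Put `u = k1 b a`; `z' b a` is reduced, so `len u = len k1 + 2`, `dR u a`.
(1) Suppose `dR (u r) s`. `ex_par`: `r s = x r`, `x ∈ {a, b}`. If `x = a`: `(a r) s = r`, so
`dR (a r) s`, contradiction. If `x = b`: multiply `b r = r s` by `c`: `b (c r) = (c r) s`; not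
`dR (c r) s`; `conj_ch` for `ρ = c r` (with `b`, `a`, `s`): the left descents of `a c r` are
equal to `b`; but `dL (a c r) c`. Contradiction.
(2) Otherwise `Bad M {a, b} z1 u r s`, total length `len z' + 2 + len r ≤ n`. `hC.crs`:
one of the types for `(a, b)` or `(b, a)`.
For `(b, a)`: `u = b a b` or `u = a b`: then `dR u b` (else two letters cancel and `len u` is too
small) and `dR u a`, so `len u = M a b ≥ 5` (`eq_wJ`), but `len u ≤ 3`. Contradiction.
TyA a b: `c' (a r) = (a r) s`, `β c' = β b`: `conj_two` with `c`, `t`.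
TyI a b: `c' (a r) = (a r) s`, `c' ≠ a, b`. If `β c' = β b`: `conj_two`. If `β c' = β a`: by `cm`
`dL (c' a r) c'` and `dL (c' a r) a`. If `M c' a ≠ 2`: `g2_L` (`w = c' a r`, `x = c'`, `y = a`):
`dL (a (c' w)) c'`, `a (c' w) = r`: so `c' = c`, contradiction to the blocks. If `M c' a = 2`:
`c' r = r s` (cancel `a`); `conj_ch` for `ρ = r` (with `c'`, `c`, `s`): the left descents of
`c r` are equal to `c'`; but `dL (c r) a`, so `a = c'`, contradiction.
Ty3 a b: `u = b a`, so `k1 = 1`, `z1 = z'`; `e`: `β e = β b`, `dR z' e`,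
`a (e (a r)) = (e (a r)) s`. `e ≠ a`, so not `dL (a r) e`. Not `dR (e (a r)) s`: else by `ex_par`
(`v = sm e`, `X = {e}`) `(a r) s = e (a r)`, `conj_two` with `c`, `t`. `conj_ch` for
`ρ = e (a r)` (with `a`, `e`, `s`), second part: `dL (a (e ρ)) e`, `a (e ρ) = r`, so `e = c`; but
`dR z' c` is false (`z' = p c`, `dR_mul`).
Ty4 a b: `dL r f`, so `f = c`, but `β f = β a`. -/
theorem u_I3 {a b c : B} (hab : β a ≠ β b) (hc : β c = β b) (hcb : c ≠ b) (hm : M b c = 2)
    {p r : M.Group} {t s : B} (hB : Bad M {a, b} p (sm M b * sm M a) r t)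
    (hn : len M p + 2 + len M r ≤ n + 1) (hd : dR M (p * sm M b) c)
    (he : sm M c * (sm M a * r) = sm M a * r * sm M t) (hst : s ≠ t)
    (hs : ¬ dR M (sm M b * sm M a * r) s) :
    ¬ dR M (p * (sm M b * sm M a) * r * sm M t) s := by
  intro H
  have hba := len_sm (M := M) b
  have haa := len_sm (M := M) a
  have hv2 : len M (sm M b * sm M a) = 2 := by
    have h1 := hB.h2
    have h2 := rs_mul_le (M := M) (sm M b) (sm M a)
    omega
  have hbc : sm M b * sm M c = sm M c * sm M b := sm_comm hm
  have hca : β c ≠ β a := by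
    rw [hc]
    exact fun h => hab h.symm
  have hpc : dR M p c := (dR_comm hm).1 hd
  obtain ⟨z', hz'⟩ : ∃ z', z' = p * sm M c := ⟨_, rfl⟩
  have hzl : len M z' + 1 = len M p := by
    rw [hz']
    exact hpc
  have hW : p * (sm M b * sm M a) * r * sm M t = z' * (sm M b * sm M a) * r := by
    have h1 : p * (sm M b * sm M a) * r * sm M t = p * sm M b * (sm M a * r * sm M t) := by
      simp only [mul_assoc]
    rw [h1, ← he, hz']
    have h2 : p * sm M b * (sm M c * (sm M a * r)) = p * (sm M b * sm M c) * (sm M a * r) := by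
      simp only [mul_assoc]
    rw [h2, hbc]
    simp only [mul_assoc]
  rw [hW] at H
  have hWl : len M (z' * (sm M b * sm M a) * r) = len M z' + 2 + len M r := by
    have h1 : len M (p * (sm M b * sm M a) * r * sm M t) + 1 = len M (p * (sm M b * sm M a) * r) :=
      hB.ht
    rw [hW, hB.red, hv2] at h1
    omega
  have hma : a ∈ ({a, b} : Set B) := Set.mem_insert _ _
  have hmb : b ∈ ({a, b} : Set B) := Set.mem_insert_of_mem _ rfl
  have har : len M (sm M a * r) = 1 + len M r := by
    rw [len_mul_XL (sm_mem_par hma) hB.hr, haa]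
  have hbar : len M (sm M b * sm M a * r) = 2 + len M r := by
    rw [len_mul_XL hB.hv hB.hr, hv2]
  have hRd1 : Rd M (sm M b) (sm M a * r) := by
    unfold Rd
    rw [← mul_assoc, hbar, har, hba]
    omega
  have hRd2 : Rd M (sm M a) r := by
    unfold Rd
    rw [har, haa]
  have hρs : ¬ dR M (sm M a * r) s := by
    intro h1
    have h2 := dR_of_rd hRd1 h1
    rw [← mul_assoc] at h2
    exact hs h2
  have hrs : ¬ dR M r s := fun h1 => hρs (dR_of_rd hRd2 h1)
  have hρt : ¬ dR M (sm M a * r) t := by
    intro h1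
    have h2 := dR_of_rd hRd1 h1
    rw [← mul_assoc] at h2
    exact hB.hn h2
  have hρa : dL M (sm M a * r) a := by
    show len M (sm M a * (sm M a * r)) + 1 = len M (sm M a * r)
    rw [sm_cancel, har]
    omega
  obtain ⟨A1, A2, A3, A4, A5⟩ := conj_ch hb he hρt hρa hca
  rw [sm_cancel] at A1 A2 A3 A5
  obtain ⟨z1, hz1, k1, hk1, hzk⟩ := exists_XR ({a, b} : Set B) z'
  obtain ⟨u, hu⟩ : ∃ u, u = k1 * (sm M b * sm M a) := ⟨_, rfl⟩
  have hup : u ∈ par M ({a, b} : Set B) := by
    rw [hu]
    exact Subgroup.mul_mem _ hk1 hB.hv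
  have hzu : z' * (sm M b * sm M a) = z1 * u := by
    rw [hu, hzk, mul_assoc]
  have hzk1 : len M z' = len M z1 + len M k1 := by
    rw [hzk]
    exact len_XR_mul hz1 hk1
  have hzul : len M (z1 * u) = len M z1 + len M u := len_XR_mul hz1 hup
  have hul : len M u = len M k1 + 2 := by
    have h1 := rs_mul_le (M := M) (z1 * u) r
    have h2 := rs_mul_le (M := M) k1 (sm M b * sm M a)
    rw [← hu] at h2
    rw [← hzu, hWl] at h1
    rw [hzu] at h1
    omega
  have hua : dR M u a := by
    by_contra h1
    rw [not_dR] at h1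
    have h2 : u * sm M a = k1 * sm M b := by
      rw [hu, mul_assoc, mul_assoc, sm_sm, mul_one]
    have h3 := rs_mul_le (M := M) k1 (sm M b)
    rw [h2] at h1
    omega
  rw [hzu] at H hWl
  by_cases hd1 : dR M (u * r) s
  · obtain h1 | ⟨y, hy, -, h2⟩ := ex_par hup hB.hr hd1
    · exact hrs h1
    · rcases hy with rfl | hy
      · apply hρs
        show len M (sm M y * r * sm M s) + 1 = len M (sm M y * r)
        rw [mul_assoc, h2, sm_cancel, har]
        omega
      · rw [Set.mem_singleton_iff] at hy
        subst hy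
        have hcrs : ¬ dR M (sm M c * r) s := by
          intro h3
          apply hrs
          have h4 : Rd M (sm M c) (sm M c * r) := by
            unfold Rd
            rw [sm_cancel, len_sm]
            have : len M (sm M c * r) + 1 = len M r := A1
            omega
          have h5 := dR_of_rd h4 h3
          rwa [sm_cancel] at h5
        have h3 : sm M y * (sm M c * r) = sm M c * r * sm M s := by
          rw [← mul_assoc, hbc, mul_assoc, mul_assoc, h2]
        obtain ⟨-, -, -, -, h4⟩ := conj_ch hb h3 hcrs A2 (fun h => hab h.symm)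
        exact hcb (h4 c A3)
  · have hbad : Bad M ({a, b} : Set B) z1 u r s := by
      refine ⟨hz1, hup, ?_, hB.hr, ?_, H, hd1⟩
      · omega
      · rw [hWl]
        omega
    have hle : len M z1 + len M u + len M r ≤ n := by omega
    rcases hC.crs a b z1 u r s hab hbad hle with hT | hT
    · rcases hT with hT | hT | hT | hT
      · obtain ⟨-, c', h1, -, -, -, h2⟩ := hT
        exact conj_two hb he hρt h2 hρs hst.symm hρa hca (by rw [h1]; exact fun h => hab h.symm)
      · obtain ⟨-, c', h1, h2, -, h3⟩ := hT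
        by_cases h4 : β c' = β a
        · obtain ⟨-, h5, h6, -⟩ := cm h3 hρs
          have h7 := h6 a hρa
          by_cases h8 : M c' a = 2
          · have h9 : sm M c' * r = r * sm M s := by
              have h10 : sm M a * (sm M c' * r) = sm M a * (r * sm M s) := by
                rw [← mul_assoc, ← sm_comm h8, mul_assoc, h3, mul_assoc]
              exact mul_left_cancel h10
            obtain ⟨-, -, -, -, h11⟩ := conj_ch hb h9 hrs A1 (by rw [h4, hc]; exact hab)
            exact h1 (h11 a A2).symm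
          · have h9 := g2_L h5 h7 h1 h8
            rw [sm_cancel, sm_cancel] at h9
            have h10 := A5 c' h9
            rw [h10, hc] at h4
            exact hab h4.symm
        · exact conj_two hb he hρt h3 hρs hst.symm hρa hca h4
      · obtain ⟨h0, e, h1, h2, h3, h4, -, h5⟩ := hT
        have hk : k1 = 1 := by
          rw [hu] at h0
          exact mul_eq_right.1 h0
        have hz : z1 = z' := by
          rw [hzk, hk, mul_one]
        have hea : β e ≠ β a := by
          rw [h1]
          exact fun h => hab h.symm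
        have hne : ¬ dL M (sm M a * r) e := by
          intro h6
          have h7 := A4 e h6
          rw [h7] at hea
          exact hea rfl
        have hnr : ¬ dR M (sm M e * (sm M a * r)) s := by
          intro h6
          obtain h7 | ⟨y, hy, -, h8⟩ := ex_par (X := {e}) (sm_mem_par rfl)
            (mem_XL.2 (by
              intro x hx
              rw [Set.mem_singleton_iff] at hx
              rw [hx]
              exact hne)) h6
          · exact hρs h7
          · rw [Set.mem_singleton_iff] at hy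
            subst hy
            exact conj_two hb he hρt h8.symm hρs hst.symm hρa hca hea
        obtain ⟨-, h7, -, -, -⟩ := conj_ch hb h5 hnr (dL_mul.2 hne) (fun h => hea h.symm)
        rw [sm_cancel, sm_cancel] at h7
        have h8 := A5 e h7
        rw [hz, h8, hz'] at h4
        exact (dR_mul.1 h4) hpc
      · obtain ⟨-, f, h1, -, -, h2, -⟩ := hT
        have h3 := A5 f h2
        rw [h3, hc] at h1
        exact hab h1.symm
    · have hub : dR M u b ∧ len M u ≤ 3 := by
        have key : (u = sm M b * sm M a * sm M b ∨ u = sm M a * sm M b) →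
            dR M u b ∧ len M u ≤ 3 := by
          rintro (h1 | h1)
          · have h2 := rs_mul_le (M := M) (sm M b * sm M a) (sm M b)
            rw [← h1] at h2
            refine ⟨?_, by omega⟩
            by_contra h3
            rw [not_dR] at h3
            have h4 : u * sm M b = sm M b * sm M a := by
              rw [h1, mul_assoc, sm_sm, mul_one]
            rw [h4] at h3
            omega
          · have h2 := rs_mul_le (M := M) (sm M a) (sm M b)
            rw [← h1] at h2
            refine ⟨?_, by omega⟩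
            by_contra h3
            rw [not_dR] at h3
            have h4 : u * sm M b = sm M a := by
              rw [h1, mul_assoc, sm_sm, mul_one]
            rw [h4] at h3
            omega
        apply key
        rcases hT with hT | hT | hT | hT
        · exact Or.inl hT.1
        · exact Or.inr hT.1
        · exact Or.inr hT.1
        · exact Or.inr hT.1
      obtain ⟨h5, -, hne⟩ := Big.symm' hb hab
      obtain ⟨-, h6⟩ := eq_wJ hup hne hua hub.1
      omega

/-- Type I. PROOF. `c ≠ a, b`; `u_I1`, `u_I2`, `u_I3`. -/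
theorem u_I {a b : B} (hab : β a ≠ β b) {p v r : M.Group} {t s : B}
    (hB : Bad M {a, b} p v r t)
    (hn : len M p + len M v + len M r ≤ n + 1) (hT : TyI M a b p v r t) (hst : s ≠ t)
    (hs : ¬ dR M (v * r) s) : ¬ dR M (p * v * r * sm M t) s := by
  obtain ⟨hv, c, hca, hcb, hd, he⟩ := hT
  subst hv
  have hv2 : len M (sm M b * sm M a) = 2 := by
    have h1 := hB.h2
    have h2 := rs_mul_le (M := M) (sm M b) (sm M a)
    rw [len_sm, len_sm] at h2
    omega
  rw [hv2] at hn
  by_cases h1 : β c = β a
  · exact u_I1 hb hC hab h1 hB hn hd he hst hs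
  · have h2 : β c = β b := by
      revert h1 hab
      generalize β a = x
      generalize β b = y
      generalize β c = z
      cases x <;> cases y <;> cases z <;> simp
    by_cases h3 : M b c = 2
    · exact u_I3 hb hC hab h2 hcb h3 hB hn hd he hst hs
    · exact u_I2 hb hC hab h2 hcb h3 hB hn hd he hst hs

/-- Type 3.
PROOF. `v = b a`, `e` as in the type. Suppose `dR (p v r t) s`. Let `w = p e b`, `ρ = e (a r)`.
`e b = b e`: `p v r = w ρ`. `len w ≤ len p`, `len ρ ≤ len r + 2`, and the total is
`len p + 2 + len r`: so `len w = len p`, `len ρ = len r + 2`, `w ρ` is reduced. `dR w b` (`dR_mul`, not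
`dR (p e) b` by `dR_comm` and `hB.hp`), `dR w a`. Hence not `dL ρ a`, not `dL ρ b` (`w ρ` is reduced:
`len (w ρ) = len ((w a) (a ρ))`). `w1_R` (`e := b`, `g := a`): `w a = z v'`, `dR v' b`, not
`dR v' a`, `4 ≤ len v'`. `p v r t = w ρ t = (w a) ρ = z v' ρ`, of length `len z + len v' + len ρ =
len p + 1 + len r ≤ n`. Not `dR ρ s`: otherwise, as not `dR (a r) s` (`hs`), by `ex_par`
(`v = sm e`) `(a r) s = e (a r) = ρ`, so `dL ρ a`, contradiction. `hC.nv`: `ρ s = y0 ρ` with
`dR v' y0`, so `y0 = b`: `e (a r) s = b e (a r) = e b (a r)`, so `(a r) s = b (a r) = v r` and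
`dR (v r) s`, contradiction. -/
theorem u_3 {a b : B} (hab : β a ≠ β b) {p v r : M.Group} {t s : B}
    (hB : Bad M {a, b} p v r t)
    (hn : len M p + len M v + len M r ≤ n + 1) (hT : Ty3 M β a b p v r t) (hst : s ≠ t)
    (hs : ¬ dR M (v * r) s) : ¬ dR M (p * v * r * sm M t) s := by
  intro H
  obtain ⟨rfl, e, heβ, heb, hM, hpe, hpa, hE⟩ := hT
  have hcm : sm M e * sm M b = sm M b * sm M e := sm_comm hM
  have hlv : len M (sm M b * sm M a) = 2 := by
    have h1 := hB.h2
    have h2 := rs_mul_le (sm M b) (sm M a)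
    rw [len_sm, len_sm] at h2
    omega
  have hra : ¬ dL M r a := mem_XL.1 hB.hr a (by simp)
  have hpb : ¬ dR M p b := mem_XR.1 hB.hp b (by simp)
  have hlar : len M (sm M a * r) = len M r + 1 := not_dL.1 hra
  have hred := hB.red
  rw [hlv] at hred
  have hwρ : p * (sm M b * sm M a) * r =
      (p * sm M e * sm M b) * (sm M e * (sm M a * r)) := by
    have h1 : (p * sm M e * sm M b) * (sm M e * (sm M a * r)) =
        p * (sm M e * sm M b) * sm M e * (sm M a * r) := by group
    rw [h1, hcm]
    have h2 : p * (sm M b * sm M e) * sm M e * (sm M a * r) =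
        p * sm M b * (sm M e * sm M e) * (sm M a * r) := by group
    rw [h2, sm_sm]
    group
  have hpe' : len M (p * sm M e) + 1 = len M p := hpe
  have hlw0 := rs_mul_le (p * sm M e) (sm M b)
  rw [len_sm] at hlw0
  have hlρ0 := rs_mul_le (sm M e) (sm M a * r)
  rw [len_sm] at hlρ0
  have hlt := rs_mul_le (p * sm M e * sm M b) (sm M e * (sm M a * r))
  rw [← hwρ] at hlt
  have hlw : len M (p * sm M e * sm M b) = len M p := by omega
  have hlρ : len M (sm M e * (sm M a * r)) = len M r + 2 := by omega
  have hrd : Rd M (p * sm M e * sm M b) (sm M e * (sm M a * r)) := by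
    unfold Rd
    rw [← hwρ]
    omega
  have hwb : dR M (p * sm M e * sm M b) b := dR_mul.2 (fun h => hpb ((dR_comm hM).1 h))
  -- general fact
  have hgen : ∀ x, dR M (p * sm M e * sm M b) x → ¬ dL M (sm M e * (sm M a * r)) x := by
    intro x hx hx'
    have h1 : (p * sm M e * sm M b) * (sm M e * (sm M a * r)) =
        (p * sm M e * sm M b * sm M x) * (sm M x * (sm M e * (sm M a * r))) := by
      rw [mul_assoc (p * sm M e * sm M b) (sm M x), sm_cancel]
    have h2 := rs_mul_le (p * sm M e * sm M b * sm M x) (sm M x * (sm M e * (sm M a * r)))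
    rw [← h1, ← hwρ] at h2
    unfold dR at hx
    unfold dL at hx'
    omega
  have hρa := hgen a hpa
  have hρb := hgen b hwb
  obtain ⟨z, hz, v', hv', hwa, hlz, h4, hvb, hva⟩ := w1_R hb (fun h => hab h.symm) hwb hpa
  have hpvrt : p * (sm M b * sm M a) * r * sm M t = z * v' * (sm M e * (sm M a * r)) := by
    rw [hwρ, mul_assoc, ← hE, ← mul_assoc, hwa]
  have hlen : len M (z * v' * (sm M e * (sm M a * r))) =
      len M z + len M v' + len M (sm M e * (sm M a * r)) := by
    have h1 : len M (p * (sm M b * sm M a) * r * sm M t) + 1 =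
        len M (p * (sm M b * sm M a) * r) := hB.ht
    rw [hpvrt] at h1
    omega
  rw [hpvrt] at H
  have hars : ¬ dR M (sm M a * r) s := by
    intro h
    refine hs ?_
    rw [mul_assoc]
    refine dR_of_rd ?_ h
    unfold Rd
    rw [← mul_assoc, len_mul_XL hB.hv hB.hr, hlv, len_sm]
    omega
  have hρs : ¬ dR M (sm M e * (sm M a * r)) s := by
    intro h
    have hXL : sm M a * r ∈ XL M ({e} : Set B) := by
      rw [mem_XL]
      intro x hx
      rw [Set.mem_singleton_iff] at hx
      subst hx
      rw [not_dL]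
      omega
    rcases ex_par (sm_mem_par (Set.mem_singleton e)) hXL h with h1 | ⟨y, hy, _, h1⟩
    · exact hars h1
    · rw [Set.mem_singleton_iff] at hy
      subst hy
      refine hρa ?_
      rw [← h1]
      refine dL_of_rd ?_ (dL_mul.2 hra)
      unfold Rd
      rw [h1, len_sm]
      omega
  have hρX : sm M e * (sm M a * r) ∈ XL M ({b, a} : Set B) := by
    rw [mem_XL]
    intro x hx
    rcases hx with rfl | hx
    · exact hρb
    · rw [Set.mem_singleton_iff] at hx
      subst hx
      exact hρa
  rcases hC.nv (fun h => hab h.symm) hz hv' h4 hρX hlen (by omega) H with h1 | ⟨y0, hy0, hd, h1⟩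
  · exact hρs h1
  · have hyb : y0 = b := by
      rcases hy0 with rfl | hy0
      · rfl
      · rw [Set.mem_singleton_iff] at hy0
        subst hy0
        exact absurd hd hva
    subst hyb
    refine hs ?_
    have h2 : sm M a * r * sm M s = sm M y0 * sm M a * r := by
      have h3 : sm M e * (sm M a * r * sm M s) = sm M e * (sm M y0 * sm M a * r) := by
        rw [← mul_assoc, h1]
        have h4 : sm M e * (sm M y0 * sm M a * r) = (sm M e * sm M y0) * (sm M a * r) := by group
        rw [h4, hcm]
        group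
      exact mul_left_cancel h3
    rw [← h2]
    exact dR_mul.2 hars

/-- Type 4.
PROOF. `v = b a`, `f` as in the type, `r1 = f r`, `r = f r1`, `len r = len r1 + 1`, `ρ = a r1`,
`w = p b f`. `a f = f a`: `p v r = w ρ`, and by lengths `len w = len p + 2`,
`len ρ = len r`, `w ρ` reduced. So `dR w f`; `dR w b`. Not `dL ρ f`, not `dL ρ b` (as in
`u_3`). `w1_R` (`e := f`, `g := b`): `w b = z v'`, `dR v' f`, not `dR v' b`. `b ρ = ρ t`, so
`p v r t = (w b) ρ = z v' ρ`, of length `len p + 1 + len r ≤ n`. `v r = b f ρ` is reduced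
(length `len ρ + 2`). So not `dR ρ s`, and not `dR (f ρ) s`. `hC.nv`: `ρ s = f ρ`: then
`dR (f ρ) s`, contradiction. -/
theorem u_4 {a b : B} (hab : β a ≠ β b) {p v r : M.Group} {t s : B}
    (hB : Bad M {a, b} p v r t)
    (hn : len M p + len M v + len M r ≤ n + 1) (hT : Ty4 M β a b p v r t) (hst : s ≠ t)
    (hs : ¬ dR M (v * r) s) : ¬ dR M (p * v * r * sm M t) s := by
  intro H
  obtain ⟨rfl, f, hfβ, hfa, hM, hrf, hwb, hE⟩ := hT
  have hcm : sm M f * sm M a = sm M a * sm M f := sm_comm hM
  have hlv : len M (sm M b * sm M a) = 2 := by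
    have h1 := hB.h2
    have h2 := rs_mul_le (sm M b) (sm M a)
    rw [len_sm, len_sm] at h2
    omega
  have hred := hB.red
  rw [hlv] at hred
  have hr1 : len M (sm M f * r) + 1 = len M r := hrf
  -- the elements w and rho
  obtain ⟨ρ, hρ⟩ : ∃ ρ, ρ = sm M a * (sm M f * r) := ⟨_, rfl⟩
  obtain ⟨w, hw⟩ : ∃ w, w = p * sm M b * sm M f := ⟨_, rfl⟩
  have har : sm M a * r = sm M f * ρ := by
    rw [hρ, ← mul_assoc (sm M f), hcm, mul_assoc, sm_cancel]
  have hwρ : p * (sm M b * sm M a) * r = w * ρ := by
    have h1 : p * (sm M b * sm M a) * r = p * sm M b * (sm M a * r) := by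
      simp only [mul_assoc]
    rw [h1, har, hw, mul_assoc (p * sm M b)]
  have hlw0 := rs_mul_le (p * sm M b) (sm M f)
  have hlw1 := rs_mul_le p (sm M b)
  rw [len_sm] at hlw0 hlw1
  rw [← hw] at hlw0
  have hlρ0 := rs_mul_le (sm M a) (sm M f * r)
  rw [len_sm, ← hρ] at hlρ0
  have hlt := rs_mul_le w ρ
  rw [← hwρ] at hlt
  have hlw : len M w = len M p + 2 := by omega
  have hlρ : len M ρ = len M r := by omega
  have hwf : dR M w f := by
    rcases dR_or w f with h1 | h1
    · exact h1
    · exfalso
      have h2 : w * sm M f = p * sm M b := by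
        rw [hw, mul_assoc, sm_sm, mul_one]
      rw [h2] at h1
      omega
  rw [← hw] at hwb
  have hgen : ∀ x, dR M w x → ¬ dL M ρ x := by
    intro x hx hx'
    have h1 : w * ρ = (w * sm M x) * (sm M x * ρ) := by
      rw [mul_assoc w (sm M x), sm_cancel]
    have h2 := rs_mul_le (w * sm M x) (sm M x * ρ)
    rw [← h1, ← hwρ] at h2
    unfold dR at hx
    unfold dL at hx'
    omega
  have hfb : β f ≠ β b := by
    rw [hfβ]
    exact hab
  obtain ⟨z, hz, v', hv', hwa, hlz, h4, hvf, hvb⟩ := w1_R hb hfb hwf hwb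
  have hEρ : sm M b * ρ = ρ * sm M t := by
    rw [hρ]
    exact hE
  have hpvrt : p * (sm M b * sm M a) * r * sm M t = z * v' * ρ := by
    rw [hwρ, mul_assoc, ← hEρ, ← mul_assoc, hwa]
  have hlen : len M (z * v' * ρ) = len M z + len M v' + len M ρ := by
    have h1 : len M (p * (sm M b * sm M a) * r * sm M t) + 1 =
        len M (p * (sm M b * sm M a) * r) := hB.ht
    rw [hpvrt] at h1
    omega
  rw [hpvrt] at H
  -- v r = b (f rho)
  have hvr : sm M b * sm M a * r = sm M b * (sm M f * ρ) := by
    rw [mul_assoc, har]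
  have hlvr : len M (sm M b * sm M a * r) = 2 + len M r := by
    rw [len_mul_XL hB.hv hB.hr, hlv]
  have hl1 := rs_mul_le (sm M b) (sm M f * ρ)
  have hl2 := rs_mul_le (sm M f) ρ
  rw [len_sm, ← hvr] at hl1
  rw [len_sm] at hl2
  have hfρ : ¬ dR M (sm M f * ρ) s := by
    intro h
    apply hs
    rw [hvr]
    refine dR_of_rd ?_ h
    unfold Rd
    rw [← hvr, len_sm]
    omega
  have hρs : ¬ dR M ρ s := by
    intro h
    apply hfρ
    refine dR_of_rd ?_ h
    unfold Rd
    rw [len_sm]
    omega
  have hρX : ρ ∈ XL M ({f, b} : Set B) := by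
    rw [mem_XL]
    intro x hx
    rcases hx with rfl | hx
    · exact hgen _ hwf
    · rw [Set.mem_singleton_iff] at hx
      subst hx
      exact hgen _ hwb
  rcases hC.nv hfb hz hv' h4 hρX hlen (by omega) H with h1 | ⟨y0, hy0, hd, h1⟩
  · exact hρs h1
  · rcases hy0 with rfl | hy0
    · apply hfρ
      rw [← h1]
      exact dR_mul.2 hρs
    · rw [Set.mem_singleton_iff] at hy0
      subst hy0
      exact hvb hd

/-- PROOF. The four types. -/
theorem u_X {a b : B} (hab : β a ≠ β b) {p v r : M.Group} {t s : B}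
    (hB : Bad M {a, b} p v r t)
    (hn : len M p + len M v + len M r ≤ n + 1) (hT : TyX M β a b p v r t) (hst : s ≠ t)
    (hs : ¬ dR M (v * r) s) : ¬ dR M (p * v * r * sm M t) s := by
  rcases hT with h | h | h | h
  · exact u_A hb hC hab hB hn h hst hs
  · exact u_I hb hC hab hB hn h hst hs
  · exact u_3 hb hC hab hB hn h hst hs
  · exact u_4 hb hC hab hB hn h hst hs

end clu

end Pool.Agent.Helper63.LG
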