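import Pool.Agent.Helper63.LG.Df
import Pool.Agent.Helper10.AM.Fz

/-!
# The standing assumptions, from the core properties of the blocks
-/

namespace Pool.Agent.Helper63.LG

open Pool.Agent.Helper35.KL Pool.Agent.Helper35.AM Pool.Agent.Helper10.AM

section da

variable {B : Type} {M : CoxeterMatrix B} {L : M.Group → ℤ} {H : Type} [Ring H] [Algebra LP H]
variable (D : KLD M L H) {β : B → Bool} {X : Set B}

/-- The blocks and the pairs of generators in different blocks. -/
def Mn (β : B → Bool) (X : Set B) : Prop :=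
  (∃ i, X = blk β i) ∨ ∃ a b, β a ≠ β b ∧ X = {a, b}

theorem core_Mn (hL : IsWeight M L) (hc : ∀ i, (Dp (isPar_inc M (blk β i)) D).Core)
    (hX : Mn β X) : (Dp (isPar_inc M X) D).Core := by
  rcases hX with ⟨i, rfl⟩ | ⟨a, b, -, rfl⟩
  · exact hc i
  · have h0 : ({a, b} : Set B).encard ≤ 2 := by
      have h5 := Set.encard_insert_le {b} a
      rw [Set.encard_singleton] at h5
      exact h5.trans (by norm_num)
    have h1 := lusztig_small (M := M) (L := L) {a, b} h0 (isWeight_res hL _)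
      (pA (isPar_inc M {a, b}) D) (Dp (isPar_inc M {a, b}) D)
    exact h1.2.core (isWeight_par (isPar_inc M _) hL) h1.1

open scoped Classical in
/-- The functions `a` of the blocks and of the pairs. -/
noncomputable def laF (β : B → Bool) (w : M.Group) : ℕ :=
  if h : ∃ X, Mn β X ∧ w ∈ par M X then D.aPar h.choose w else 0

variable {D} in
theorem laF_eq (hL : IsWeight M L) (hc : ∀ i, (Dp (isPar_inc M (blk β i)) D).Core)
    (hX : Mn β X) {w : M.Group} (hw : w ∈ par M X) : laF D β w = D.aPar X w := by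
  have h : ∃ X, Mn β X ∧ w ∈ par M X := ⟨X, hX, hw⟩
  rw [laF, dif_pos h]
  obtain ⟨h1, h2⟩ := h.choose_spec
  set Y := h.choose with hY
  have h3 : w ∈ par M (X ∩ Y) := mem_par_inter hw h2
  rw [← aPar_sub D Set.inter_subset_right (core_Mn D hL hc h1) h3,
    aPar_sub D Set.inter_subset_left (core_Mn D hL hc hX) h3]

theorem cyc_of_core (hL : IsWeight M L) (hc : (Dp (isPar_inc M X) D).Core) :
    Cyc D X (D.aPar X) := by
  have key : ∀ x y z : (res M X).Group,
      gc D (D.aPar X) (inc M X x) (inc M X y) (inc M X z)⁻¹ =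
        (Dp (isPar_inc M X) D).g x y z := by
    intro x y z
    rw [gc, KLD.g, ← map_inv, ← h_par (isPar_inc M X), ← a_univ, aPar_par,
      Subtype.coe_image_univ]
  intro x hx y hy z hz
  obtain ⟨x, rfl⟩ := exists_inc hx
  obtain ⟨y, rfl⟩ := exists_inc hy
  obtain ⟨z, rfl⟩ := exists_inc hz
  rw [key, key]
  exact hc.P7' (isWeight_par (isPar_inc M X) hL) x y z

variable {D} in
theorem cyc_congr {la la' : M.Group → ℕ} (h : ∀ w ∈ par M X, la w = la' w)
    (hX : Cyc D X la) : Cyc D X la' := by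
  have hgc : ∀ x y, ∀ z ∈ par M X, gc D la' x y z = gc D la x y z := by
    intro x y z hz
    rw [gc, gc, h z hz]
  intro x hx y hy z hz
  rw [hgc x y _ (inv_mem hz), hgc y z _ (inv_mem hx)]
  exact hX x hx y hy z hz

theorem dat_of_blocks (hb : Big M β) (hL : IsWeight M L)
    (hc : ∀ i, (Dp (isPar_inc M (blk β i)) D).Core) : Dat D β (laF D β) where
  big := hb
  wt := hL
  loc i := loc_congr D (fun _ hw => (laF_eq hL hc (Or.inl ⟨i, rfl⟩) hw).symm)
    (loc_of_core D hL (hc i))
  locX a b hab := loc_congr D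
    (fun _ hw => (laF_eq hL hc (Or.inr ⟨a, b, hab, rfl⟩) hw).symm)
    (loc_of_core D hL (core_Mn D hL hc (Or.inr ⟨a, b, hab, rfl⟩)))
  cyc i := cyc_congr (fun _ hw => (laF_eq hL hc (Or.inl ⟨i, rfl⟩) hw).symm)
    (cyc_of_core D hL (hc i))
  cycX a b hab := cyc_congr
    (fun _ hw => (laF_eq hL hc (Or.inr ⟨a, b, hab, rfl⟩) hw).symm)
    (cyc_of_core D hL (core_Mn D hL hc (Or.inr ⟨a, b, hab, rfl⟩)))

end da

end Pool.Agent.Helper63.LG
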