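import Pool.Agent.Helper63.LG.Jf
import Pool.Agent.Helper63.LG.Da

/-!
# P1-P15 for two blocks with large bonds between them
-/

namespace Pool.Agent.Helper63.LG

open Pool.Agent.Helper35.KL Pool.Agent.Helper35.AM Pool.Agent.Helper10.AM

/-- Two blocks with finite bonds of order at least `5` between them. -/
theorem lusztig_two {B : Type} [Finite B] {M : CoxeterMatrix B} {L : M.Group → ℤ} {β : B → Bool}
    (hb : Big M β) (hL : IsWeight M L)
    (h : ∀ i, Lusztig (res M (blk β i)) (resL L (blk β i))) : Lusztig M L := by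
  intro H _ _ D
  have hc : ∀ i, (Dp (isPar_inc M (blk β i)) D).Core := by
    intro i
    have h1 := h i (pA (isPar_inc M (blk β i)) D) (Dp (isPar_inc M (blk β i)) D)
    exact h1.2.core (isWeight_par (isPar_inc M (blk β i)) hL) h1.1
  have hcore := core_lg (dat_of_blocks D hb hL hc)
  exact ⟨hcore.bdd, hcore.lus hL⟩

end Pool.Agent.Helper63.LG
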