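import Pool.Agent.Helper63.LG.Cf
import Pool.Agent.Helper63.LG.En

/-!
# Crude bounds for the nonreduced triple products
-/

namespace Pool.Agent.Helper63.LG

open Pool.Agent.Helper35.KL Pool.Agent.Helper35.AM

section cr

variable {B : Type} {M : CoxeterMatrix B} {β : B → Bool} {L : M.Group → ℤ}
variable {H : Type} [Ring H] [Algebra LP H] (D : KLD M L H)

/-! Piece CR-a -/

/-- PROOF. `Fin2.of_ne`, `ye_len` (`M a b ≥ 5`). -/
theorem len_ba (hb : Big M β) {a b : B} (hab : β a ≠ β b) :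
    len M (sm M b * sm M a) = 2 ∧ len M (sm M a * sm M b * sm M a) = 3 := by
  have h5 := hb a b hab
  have h5' := hb b a hab.symm
  have hne : a ≠ b := fun h => hab (by rw [h])
  have hF : Fin2 M a b := Fin2.of_ne hne (by omega)
  have hF' : Fin2 M b a := hF.symm
  have h1 := ye_len hF' (i := 2) (by omega)
  have h2 := ye_len hF (i := 3) (by omega)
  rw [show 2 = 0 + 1 + 1 from rfl, ye_succ, zero_add, ye_one] at h1
  rw [show 3 = 0 + 1 + 1 + 1 from rfl, ye_succ, ye_succ, zero_add, ye_one, ← mul_assoc] at h2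
  exact ⟨h1, h2⟩

/-- PROOF. `repr (T p * T v * T r)` and `fl` (`fl_T`, `fl_mul`, `fl_Lat`, `fl_fl`). -/
theorem Lat_mir {p v r : M.Group} {n : ℤ} (h : D.T r⁻¹ * D.T v⁻¹ * D.T p⁻¹ ∈ Lat D.T n) :
    D.T p * D.T v * D.T r ∈ Lat D.T n := by
  have h1 := D.fl_Lat h
  rw [D.fl_mul, D.fl_mul, D.fl_T, D.fl_T, D.fl_T, inv_inv, inv_inv, inv_inv, ← mul_assoc] at h1
  exact h1

private theorem crA_facts {a b c : B} {p r z z' : M.Group} (h : CfA M a b c p r z z') :
    len M (z * xe M a c (M a c - 1)) = len M p ∧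
      len M (sm M c * (sm M a * r)) = len M r := by
  have h5 := h.m5
  have h1 := (h.pr.xi (i := M a c - 1) (by omega)).1
  have h2 := (h.pr.yj (j := M a c - 1) (by omega)).1
  have h3 := h.pr.lp
  have h4 := h.pr.lr
  rw [h.pr.cdr]
  omega

private theorem crA_rd (hb : Big M β) {a b c : B} {p r z z' v : M.Group}
    (hac : β a ≠ β c) (h : CfA M a b c p r z z') (hv : v ∈ par M ({a, c} : Set B))
    (h4 : 4 ≤ len M v) :
    D.T (z * v) * D.T (sm M b * (sm M c * (sm M a * r))) =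
      D.T (z * v * (sm M b * (sm M c * (sm M a * r)))) ∧
    len M (z * v * (sm M b * (sm M c * (sm M a * r)))) = len M z + len M v + (len M r + 1) := by
  have h1 := rd_four hb hac h.pr.zx hv h4 h.bR
  have h2 := len_XR_mul h.pr.zx hv
  have h3 := h.lbR
  refine ⟨?_, by omega⟩
  rw [← D.T_mul _ _ (by omega)]

/-- Type A: the two reduced products.
PROOF. `T p * T (a b a) * T r = T (p a) * T b * T (a r)`, `p a = P c`, `a r = c R` with
`P = p a c`, `R = c (a r)`, `T (P c) * T b * T (c R) = T P * T c * T b * T c * T R =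
T P * T b * (T c * T c) * T R` (`b c = c b`, `T b * T c = T (b c) = T c * T b`), and
`T c * T c = xi c • C c + qq (-2 L c) • 1` (`T_sq_C`), `T b * T R = T (b R)` (`lbR`).
`T P * T (b R)` is reduced: `P = z * xe (m - 1)` with at least `4` letters, `b R ∈ XL {a, c}`:
`rd_four` for the pair `(a, c)`. -/
theorem crA_id (hL : IsWeight M L) (hb : Big M β) {a b c : B} {p r z z' : M.Group}
    (hab : β a ≠ β b) (hc : β c = β b) (hp : p ∈ XR M ({a, b} : Set B))
    (hr : r ∈ XL M ({a, b} : Set B)) (h : CfA M a b c p r z z') :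
    D.T p * D.T (sm M a * sm M b * sm M a) * D.T r =
      qq (-2 * L (sm M c)) •
        D.T (z * xe M a c (M a c - 1) * (sm M b * (sm M c * (sm M a * r)))) +
      KLD.xi (L := L) c • (D.T (z * xe M a c (M a c - 1)) * D.C (sm M c) *
        D.T (sm M b * (sm M c * (sm M a * r)))) ∧
    len M (z * xe M a c (M a c - 1) * (sm M b * (sm M c * (sm M a * r)))) =
      len M p + len M r + 1 := by
  have hac : β a ≠ β c := by rw [hc]; exact hab
  have h5 := h.m5
  obtain ⟨hP, hR⟩ := crA_facts h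
  obtain ⟨hl2, hl3⟩ := len_ba hb hab
  obtain ⟨hl2', -⟩ := len_ba hb hab.symm
  have hxl : len M (xe M a c (M a c - 1)) = M a c - 1 := xe_len h.pr.f1 (by omega)
  obtain ⟨hrd, hrl⟩ := crA_rd D hb hac h (xe_mem (M a c - 1)) (by omega)
  have hpa : ¬ dR M p a := mem_XR.1 hp a (by simp)
  have hra : ¬ dL M r a := mem_XL.1 hr a (by simp)
  have hpa' := not_dR.1 hpa
  have hra' := not_dL.1 hra
  have hlp := h.pr.lp
  -- the factors
  have e1 : D.T (sm M a * sm M b * sm M a) = D.T (sm M a) * D.T (sm M b) * D.T (sm M a) := by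
    rw [D.T_mul _ _ (by rw [hl3, hl2', len_sm]), D.T_mul _ _ (by rw [hl2', len_sm, len_sm])]
  have e2 : D.T p * D.T (sm M a) = D.T (z * xe M a c (M a c - 1)) * D.T (sm M c) := by
    have e : z * xe M a c (M a c - 1) * sm M c = p * sm M a := by
      rw [← h.pr.pec, mul_assoc (p * sm M a), sm_sm, mul_one]
    rw [D.T_mul_sm hpa', D.T_mul_sm (by rw [e, hP, hpa']), e]
  have e3 : D.T (sm M a) * D.T r = D.T (sm M c) * D.T (sm M c * (sm M a * r)) := by
    rw [D.T_sm_mul hra', D.T_sm_mul (by rw [sm_cancel, hR, hra']), sm_cancel]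
  have e4 : D.T (sm M c) * D.T (sm M b) = D.T (sm M b) * D.T (sm M c) := by
    have hbc2 : len M (sm M b * sm M c) = 2 := by
      have h6 := ye_len h.fb (i := 2) (by rw [M.symmetric b c, h.cb])
      rwa [show 2 = 0 + 1 + 1 from rfl, ye_succ, zero_add, ye_one] at h6
    have hcb2 : sm M c * sm M b = sm M b * sm M c := sm_comm h.cb
    rw [← D.T_mul _ _ (by rw [hcb2, hbc2, len_sm, len_sm]),
      ← D.T_mul _ _ (by rw [hbc2, len_sm, len_sm]), hcb2]
  have e5 : D.T (sm M b) * D.T (sm M c * (sm M a * r)) =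
      D.T (sm M b * (sm M c * (sm M a * r))) := by
    rw [D.T_sm_mul (by rw [h.lbR, hR])]
  refine ⟨?_, by omega⟩
  have e6 : D.T p * D.T (sm M a * sm M b * sm M a) * D.T r =
      D.T (z * xe M a c (M a c - 1)) * (D.T (sm M c) * D.T (sm M c)) *
        D.T (sm M b * (sm M c * (sm M a * r))) := by
    rw [e1, ← e5]
    calc D.T p * (D.T (sm M a) * D.T (sm M b) * D.T (sm M a)) * D.T r
        = (D.T p * D.T (sm M a)) * D.T (sm M b) * (D.T (sm M a) * D.T r) := by
          simp only [mul_assoc]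
      _ = D.T (z * xe M a c (M a c - 1)) * (D.T (sm M c) * D.T (sm M b)) * D.T (sm M c) *
            D.T (sm M c * (sm M a * r)) := by
          rw [e2, e3]
          simp only [mul_assoc]
      _ = D.T (z * xe M a c (M a c - 1)) * D.T (sm M b) * D.T (sm M c) * D.T (sm M c) *
            D.T (sm M c * (sm M a * r)) := by
          rw [e4]
          simp only [mul_assoc]
      _ = _ := by
          have e7 : D.T (sm M b) * D.T (sm M c) * D.T (sm M c) =
              D.T (sm M c) * D.T (sm M c) * D.T (sm M b) := by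
            rw [← e4, mul_assoc, ← e4, ← mul_assoc]
          calc _ = D.T (z * xe M a c (M a c - 1)) *
                (D.T (sm M b) * D.T (sm M c) * D.T (sm M c)) *
                D.T (sm M c * (sm M a * r)) := by simp only [mul_assoc]
            _ = _ := by
              rw [e7]
              simp only [mul_assoc]
  rw [e6, T_sq_C D hL, mul_add, add_mul, mul_smul_comm, smul_mul_assoc, mul_smul_comm, mul_one,
    smul_mul_assoc, hrd, add_comm]

/-- PROOF. In `crA_id`: `C c = T c + qq (-L c) • 1`, `T P * T c = T (z * wJ a c)`, and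
`T (z * wJ) * T (b R)` is reduced (`rd_four`). All elements of the basis occur with coefficients of
degree at most `L c`. -/
theorem crA (hL : IsWeight M L) (hb : Big M β) {a b c : B} {p r : M.Group}
    (hab : β a ≠ β b) (hc : β c = β b) (hcb : c ≠ b) (hm : M c b = 2)
    (hp : p ∈ XR M ({a, b} : Set B)) (hr : r ∈ XL M ({a, b} : Set B))
    (h1 : dR M (p * sm M a) c) (h2 : dL M (sm M a * r) c) :
    D.T p * D.T (sm M a * sm M b * sm M a) * D.T r ∈ Lat D.T (L (sm M c)) := by
  obtain ⟨z, z', h⟩ := cfA hb hab hc hcb hm hp hr h1 h2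
  have hac : β a ≠ β c := by rw [hc]; exact hab
  have h5 := h.m5
  have hpos := hL.pos c
  obtain ⟨hP, hR⟩ := crA_facts h
  have hxl : len M (xe M a c (M a c - 1)) = M a c - 1 := xe_len h.pr.f1 (by omega)
  have hwl : len M (wJ M a c) = M a c := h.pr.f1.lw
  obtain ⟨hrd, hrl⟩ := crA_rd D hb hac h (xe_mem (M a c - 1)) (by omega)
  obtain ⟨hrd', hrl'⟩ := crA_rd D hb hac h (wJ_mem a c) (by omega)
  have hlp := h.pr.lp
  have e1 : D.T (z * xe M a c (M a c - 1)) * D.T (sm M c) = D.T (z * wJ M a c) := by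
    have e : z * xe M a c (M a c - 1) * sm M c = z * wJ M a c := by
      rw [mul_assoc, xe_top h.pr.f1]
    have hl := len_XR_mul h.pr.zx (wJ_mem a c)
    rw [D.T_mul_sm (by rw [e, hP, hl, hwl]; omega), e]
  rw [(crA_id D hL hb hab hc hp hr h).1, D.C_sm hL, mul_add, add_mul, e1, hrd', mul_smul_comm,
    mul_one, smul_mul_assoc, hrd, smul_add, smul_smul]
  refine AddSubgroup.add_mem _ ?_ (AddSubgroup.add_mem _ ?_ ?_)
  · exact Lat_mono _ (by omega) (smul_Lat D.T (Dle.qq _) (basis_mem_Lat D.T _))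
  · exact Lat_mono _ (by omega) (smul_Lat D.T (xi_dle hL c) (basis_mem_Lat D.T _))
  · exact Lat_mono _ (by omega)
      (smul_Lat D.T ((xi_dle hL c).mul (Dle.qq _)) (basis_mem_Lat D.T _))

/-! Piece CR-b -/

/-- Type I: the products with `R0 = c (a r)`.
PROOF. `m = M b c ≥ 5`. If `R0 ∈ XL {b, c}`: both products are reduced (`rd_four`). Otherwise
`R0 = b R1` with `R1 = b R0 ∈ XL {b, c}` (`h.R0`), reduced. `P0 = z * xe b c (m - 1)` has the right
descent `b` (`xe_dR`): `T P0 * T b = T (P0 b) + xi b • T P0` (`T_mul_sm'`),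
`P0 b = z * xe c b (m - 2)` (`xe_succ`). `T P0 * T R1 = T (P0 R1)` by `rd_four`;
`T (P0 b) * T R1 = T (P0 b R1)` by `rd_four` if `m ≥ 6` and `h.rd2` if `m = 5`. In the same way
`T (z * wJ) * T b = T (z * (wJ * b)) + xi b • T (z * wJ)`, all with at least `4` letters. -/
theorem crI0 (hL : IsWeight M L) (hb : Big M β) {a b c : B} {p r z z' : M.Group}
    (hab : β a ≠ β b) (hc : β c = β a) (hp : p ∈ XR M ({a, b} : Set B))
    (hr : r ∈ XL M ({a, b} : Set B)) (h : CfI M a b c p r z z') :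
    D.T (z * xe M b c (M b c - 1)) * D.T (sm M c * (sm M a * r)) ∈ Lat D.T (L (sm M b)) ∧
      D.T (z * wJ M b c) * D.T (sm M c * (sm M a * r)) ∈ Lat D.T (L (sm M b)) := by
  have hbc : β b ≠ β c := by
    rw [hc]
    exact hab.symm
  have h5 := h.m5
  have hz := h.pr.zx
  have hF := h.pr.f1
  have hpos := hL.pos b
  have hpair : ({c, b} : Set B) = {b, c} := Set.pair_comm c b
  have hxc : ∀ i, xe M c b i ∈ par M ({b, c} : Set B) := by
    intro i
    rw [← hpair]
    exact xe_mem i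
  have hm : M c b = M b c := M.symmetric c b
  obtain ⟨R0, hR0⟩ : ∃ R0, R0 = sm M c * (sm M a * r) := ⟨_, rfl⟩
  have hr0 := h.R0
  have hrd2 := h.rd2
  rw [← hR0] at hr0 hrd2 ⊢
  have key : ∀ v ∈ par M ({b, c} : Set B), ∀ y : M.Group,
      len M (z * v * y) = len M z + len M v + len M y →
        D.T (z * v) * D.T y ∈ Lat D.T 0 := by
    intro v hv y hl
    rw [← D.T_mul _ _ (by rw [hl, len_XR_mul hz hv])]
    exact basis_mem_Lat D.T _
  have key4 : ∀ v ∈ par M ({b, c} : Set B), 4 ≤ len M v → ∀ y ∈ XL M ({b, c} : Set B),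
      D.T (z * v) * D.T y ∈ Lat D.T 0 := by
    intro v hv hl y hy
    exact key v hv y (rd_four hb hbc hz hv hl hy)
  have hl1 : len M (xe M b c (M b c - 1)) = M b c - 1 := xe_len hF (by omega)
  have hl2 : len M (wJ M b c) = M b c := hF.lw
  have hl3 : len M (xe M c b (M b c - 1)) = M b c - 1 := xe_len hF.symm (by omega)
  have hl4 : len M (xe M c b (M b c - 2)) = M b c - 2 := xe_len hF.symm (by omega)
  rcases hr0 with hr0 | ⟨hd, hr1⟩
  · exact ⟨Lat_mono D.T hpos.le (key4 _ (xe_mem _) (by omega) _ hr0),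
      Lat_mono D.T hpos.le (key4 _ (wJ_mem _ _) (by omega) _ hr0)⟩
  · obtain ⟨R1, hR1⟩ : ∃ R1, R1 = sm M b * R0 := ⟨_, rfl⟩
    rw [← hR1] at hr1
    have hR0e : R0 = sm M b * R1 := by
      rw [hR1, sm_cancel]
    have hT : D.T R0 = D.T (sm M b) * D.T R1 := by
      rw [hR0e]
      refine (D.T_sm_mul ?_).symm
      rw [← hR0e, hR1]
      unfold dL at hd
      omega
    have main : ∀ v ∈ par M ({b, c} : Set B), 4 ≤ len M v → dR M v b →
        D.T (z * (v * sm M b)) * D.T R1 ∈ Lat D.T 0 →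
          D.T (z * v) * D.T R0 ∈ Lat D.T (L (sm M b)) := by
      intro v hv hl hvb h0
      have h1 : dR M (z * v) b := (dR_XR hz hv (by simp)).2 hvb
      rw [hT, ← mul_assoc, D.T_mul_sm' h1, add_mul, smul_mul_assoc]
      refine AddSubgroup.add_mem _ ?_ ?_
      · rw [mul_assoc z]
        exact Lat_mono D.T hpos.le h0
      · have h2 := smul_Lat D.T (xi_dle hL b) (key4 v hv hl R1 hr1)
        rwa [add_zero] at h2
    constructor
    · refine main _ (xe_mem _) (by omega) ?_ ?_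
      · have h1 := xe_dR hF (i := M b c - 2) (by omega)
        rwa [show M b c - 2 + 1 = M b c - 1 by omega] at h1
      · have h1 : xe M b c (M b c - 1) * sm M b = xe M c b (M b c - 2) := by
          rw [show M b c - 1 = M b c - 2 + 1 by omega, xe_succ, mul_assoc, sm_sm, mul_one]
        rw [h1]
        rcases Nat.lt_or_ge 5 (M b c) with h6 | h6
        · exact key4 _ (hxc _) (by omega) _ hr1
        · have h7 : M b c - 2 = 3 := by omega
          rw [h7]
          refine key _ (hxc _) _ ?_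
          rw [hR1]
          exact hrd2 hd z hz _ (hxc _) rfl
    · have h1 : wJ M b c = xe M c b (M b c - 1) * sm M b := by
        rw [wJ_symm, ← hm]
        exact (xe_top hF.symm).symm
      refine main _ (wJ_mem _ _) (by omega) ?_ ?_
      · rw [h1, dR_mul]
        exact xe_not hF.symm (by omega)
      · rw [h1, mul_assoc, sm_sm, mul_one]
        exact key4 _ (hxc _) (by omega) _ hr1

/-- PROOF. `T p * T (b a) * T r = T (p b) * T (a r) = T P0 * T c * T c * T R0 =
T P0 * T R0 + xi c • T (z * wJ b c) * T R0` (`p b = P0 c = z * wJ`, `a r = c R0`). `crI0`, `cfI`. -/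
theorem crI (hL : IsWeight M L) (hb : Big M β) {a b c : B} {p r : M.Group}
    (hab : β a ≠ β b) (hc : β c = β a) (hca : c ≠ a)
    (hp : p ∈ XR M ({a, b} : Set B)) (hr : r ∈ XL M ({a, b} : Set B))
    (h1 : dR M (p * sm M b) c) (h2 : dL M (sm M a * r) c) :
    D.T p * D.T (sm M b * sm M a) * D.T r ∈ Lat D.T (L (sm M b) + L (sm M c)) := by
  obtain ⟨z, z', h⟩ := cfI hb hab hc hca hp hr h1 h2
  obtain ⟨h3, h4⟩ := crI0 D hL hb hab hc hp hr h
  have hpb : ¬ dR M p b := mem_XR.1 hp b (by simp)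
  have hra : ¬ dL M r a := mem_XL.1 hr a (by simp)
  have e1 : D.T (sm M b * sm M a) = D.T (sm M b) * D.T (sm M a) := by
    refine D.T_mul _ _ ?_
    rw [(len_ba hb hab).1, len_sm, len_sm]
  have e2 : D.T p * D.T (sm M b) = D.T (p * sm M b) := D.T_mul_sm (not_dR.1 hpb)
  have e3 : D.T (sm M a) * D.T r = D.T (sm M a * r) := D.T_sm_mul (not_dL.1 hra)
  have e4 : D.T (p * sm M b) = D.T (p * sm M b * sm M c) * D.T (sm M c) := by
    have h5 : p * sm M b * sm M c * sm M c = p * sm M b := by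
      rw [mul_assoc, sm_sm, mul_one]
    rw [D.T_mul_sm, h5]
    rw [h5]
    exact Eq.symm h1
  have e5 : D.T (sm M a * r) = D.T (sm M c) * D.T (sm M c * (sm M a * r)) := by
    rw [D.T_sm_mul, sm_cancel]
    rw [sm_cancel]
    exact Eq.symm h2
  rw [← h.pr.pec] at h3
  rw [← h.pr.pe] at h4
  have e6 : D.T p * D.T (sm M b * sm M a) * D.T r =
      D.T (p * sm M b * sm M c) * D.T (sm M c * (sm M a * r)) +
        KLD.xi (L := L) c • (D.T (p * sm M b) * D.T (sm M c * (sm M a * r))) := by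
    have e7 : D.T (sm M c) * D.T (sm M c) = 1 + KLD.xi (L := L) c • D.T (sm M c) :=
      D.T_sm_sq c
    rw [e1, ← mul_assoc, e2, mul_assoc, e3, e5, e4]
    generalize D.T (p * sm M b * sm M c) = X
    generalize D.T (sm M c * (sm M a * r)) = Y
    generalize D.T (sm M c) = Z at e7 ⊢
    rw [show X * Z * (Z * Y) = X * (Z * Z) * Y by simp only [mul_assoc], e7, mul_add, mul_one,
      add_mul, mul_smul_comm, smul_mul_assoc]
  rw [e6]
  have h6 := hL.pos c
  refine AddSubgroup.add_mem _ (Lat_mono D.T (by omega) h3) ?_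
  have h7 := smul_Lat D.T (xi_dle hL c) h4
  rwa [add_comm (L (sm M c))] at h7

/-- PROOF. `Lat_mir` and `crI` for `(b, a)`, `r⁻¹`, `p⁻¹` (`inv_mem_XR`, `dR_inv`,
`mul_inv_rev`, `sm_inv`, `Set.pair_comm`). -/
theorem crI' (hL : IsWeight M L) (hb : Big M β) {a b c : B} {p r : M.Group}
    (hab : β a ≠ β b) (hc : β c = β b) (hcb : c ≠ b)
    (hp : p ∈ XR M ({a, b} : Set B)) (hr : r ∈ XL M ({a, b} : Set B))
    (h1 : dR M (p * sm M b) c) (h2 : dL M (sm M a * r) c) :
    D.T p * D.T (sm M b * sm M a) * D.T r ∈ Lat D.T (L (sm M a) + L (sm M c)) := by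
  refine Lat_mir D ?_
  have e1 : (sm M b * sm M a)⁻¹ = sm M a * sm M b := by
    rw [mul_inv_rev, sm_inv, sm_inv]
  rw [e1]
  rw [Set.pair_comm a b] at hp hr
  refine crI D hL hb (a := b) (b := a) hab.symm hc hcb (inv_mem_XR.2 hr) (inv_mem_XL.2 hp) ?_ ?_
  · rw [show r⁻¹ * sm M a = (sm M a * r)⁻¹ by rw [mul_inv_rev, sm_inv], dR_inv]
    exact h2
  · rw [show sm M b * p⁻¹ = (p * sm M b)⁻¹ by rw [mul_inv_rev, sm_inv], dL_inv]
    exact h1

/-! Piece CR-c -/

/-- Type 3.
PROOF. `cf3`. `T p * T (b a) * T r = T (p b) * T (a r)`, `p b = w e` with `w = p e b` reduced,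
`T e * T (a r) = T (e (a r))`. `w = z * wJ a b`, put `P = w a` (shorter, `P = z * (wJ a)` with at
least `4` letters in `{a, b}`), `R = a (e (a r)) ∈ XL {a, b}`: `T w * T (e (a r)) =
T P * T a * T a * T R = T P * T R + xi a • (T w * T R)`, both reduced by `rd_four`. -/
theorem cr3 (hL : IsWeight M L) (hb : Big M β) {a b e : B} {p r : M.Group} (hab : β a ≠ β b)
    (he : β e = β b) (heb : e ≠ b) (hm : M e b = 2) (hp : p ∈ XR M ({a, b} : Set B))
    (hr : r ∈ XL M ({a, b} : Set B)) (h1 : dR M p e) (h2 : dR M (p * sm M e * sm M b) a)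
    (h3 : ¬ dL M (sm M a * r) e) (h4 : dL M (sm M e * (sm M a * r)) a) :
    D.T p * D.T (sm M b * sm M a) * D.T r ∈ Lat D.T (L (sm M a)) := by
  obtain ⟨z, hz, e1, e2, e3, e4, e5, -⟩ := cf3 hb hab he heb hm hp hr h1 h2 h3 h4
  have hne : a ≠ b := fun h => hab (by rw [h])
  have h5 : 5 ≤ M a b := hb a b hab
  have hF : Fin2 M a b := Fin2.of_ne hne (by omega)
  obtain ⟨w, hw⟩ : ∃ w, w = p * sm M e * sm M b := ⟨_, rfl⟩
  obtain ⟨y, hy⟩ : ∃ y, y = sm M e * (sm M a * r) := ⟨_, rfl⟩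
  rw [← hw] at e1 e2 e3 e4 h2
  rw [← hy] at e5 h4
  have hpb : ¬ dR M p b := mem_XR.1 hp b (by simp)
  have hra : ¬ dL M r a := mem_XL.1 hr a (by simp)
  have l1 : len M (p * sm M b) = len M p + 1 := not_dR.1 hpb
  have l2 : len M (w * sm M a) + 1 = len M w := h2
  have l3 : len M (sm M a * y) + 1 = len M y := h4
  have t1 : D.T (sm M b * sm M a) = D.T (sm M b) * D.T (sm M a) :=
    D.T_mul _ _ (by rw [(len_ba hb hab).1, len_sm, len_sm])
  have t2 : D.T p * D.T (sm M b) = D.T (p * sm M b) := D.T_mul_sm l1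
  have t3 : D.T (sm M a) * D.T r = D.T (sm M a * r) := D.T_sm_mul (not_dL.1 hra)
  have t4 : D.T (p * sm M b) = D.T w * D.T (sm M e) := by
    rw [e4]
    exact D.T_mul _ _ (by rw [← e4, l1, e2, len_sm])
  have t5 : D.T (sm M e) * D.T (sm M a * r) = D.T y := by
    rw [hy]
    exact D.T_sm_mul (not_dL.1 h3)
  have t6 : D.T w = D.T (w * sm M a) * D.T (sm M a) := by
    have h6 : w * sm M a * sm M a = w := by rw [mul_assoc, sm_sm, mul_one]
    rw [D.T_mul_sm (by rw [h6]; omega), h6]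
  have t7 : D.T y = D.T (sm M a) * D.T (sm M a * y) := by
    rw [D.T_sm_mul (by rw [sm_cancel]; omega), sm_cancel]
  have key : D.T p * D.T (sm M b * sm M a) * D.T r =
      D.T (w * sm M a) * D.T (sm M a * y) +
        KLD.xi (L := L) a • (D.T w * D.T (sm M a * y)) := by
    calc D.T p * D.T (sm M b * sm M a) * D.T r
        = (D.T p * D.T (sm M b)) * (D.T (sm M a) * D.T r) := by
          rw [t1]
          simp only [mul_assoc]
      _ = D.T w * (D.T (sm M e) * D.T (sm M a * r)) := by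
          rw [t2, t3, t4, mul_assoc]
      _ = D.T w * D.T y := by rw [t5]
      _ = D.T (w * sm M a) * (D.T (sm M a) * D.T (sm M a)) * D.T (sm M a * y) := by
          conv_lhs => rw [t6, t7]
          simp only [mul_assoc]
      _ = D.T (w * sm M a) * D.T (sm M a * y) +
          KLD.xi (L := L) a • (D.T w * D.T (sm M a * y)) := by
          rw [D.T_sm_sq, mul_add, add_mul, mul_one, mul_smul_comm, smul_mul_assoc, ← t6]
  have m1 : wJ M a b ∈ par M ({a, b} : Set B) := wJ_mem a b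
  have m2 : wJ M a b * sm M a ∈ par M ({a, b} : Set B) :=
    Subgroup.mul_mem _ m1 (sm_mem_par (by simp))
  have l4 : len M (w * sm M a) = len M z + len M (wJ M a b * sm M a) := by
    rw [e1, mul_assoc]
    exact len_XR_mul hz m2
  have l5 : len M w = len M z + len M (wJ M a b) := by
    rw [e1]
    exact len_XR_mul hz m1
  have l6 := hF.lw
  have k1 : D.T (w * sm M a) * D.T (sm M a * y) = D.T (w * sm M a * (sm M a * y)) := by
    refine (D.T_mul _ _ ?_).symm
    rw [l4, e1, mul_assoc z]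
    exact rd_four hb hab hz m2 (by omega) e5
  have k2 : D.T w * D.T (sm M a * y) = D.T (w * (sm M a * y)) := by
    refine (D.T_mul _ _ ?_).symm
    rw [l5, e1]
    exact rd_four hb hab hz m1 (by omega) e5
  have hpos := hL.pos a
  rw [key, k1, k2]
  refine AddSubgroup.add_mem _ (Lat_mono _ (by omega) (basis_mem_Lat D.T _)) ?_
  have h7 := smul_Lat D.T (xi_dle hL a) (basis_mem_Lat D.T (w * (sm M a * y)))
  rwa [add_zero] at h7

/-- Type 4. PROOF. `Lat_mir` and `cr3` for `(b, a)`, `e := f`, `r⁻¹`, `p⁻¹`. -/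
theorem cr4 (hL : IsWeight M L) (hb : Big M β) {a b f : B} {p r : M.Group} (hab : β a ≠ β b)
    (hf : β f = β a) (hfa : f ≠ a) (hm : M f a = 2) (hp : p ∈ XR M ({a, b} : Set B))
    (hr : r ∈ XL M ({a, b} : Set B)) (h1 : dL M r f) (h2 : ¬ dR M (p * sm M b) f)
    (h3 : dR M (p * sm M b * sm M f) b) (h4 : dL M (sm M a * (sm M f * r)) b) :
    D.T p * D.T (sm M b * sm M a) * D.T r ∈ Lat D.T (L (sm M b)) := by
  refine Lat_mir D ?_
  rw [mul_inv_rev, sm_inv, sm_inv]
  refine cr3 D hL hb (a := b) (b := a) (e := f) (p := r⁻¹) (r := p⁻¹) hab.symm hf hfa hm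
    ?_ ?_ ?_ ?_ ?_ ?_
  · rw [Set.pair_comm]
    exact inv_mem_XR.2 hr
  · rw [Set.pair_comm]
    exact inv_mem_XL.2 hp
  · exact dR_inv.2 h1
  · have e1 : r⁻¹ * sm M f * sm M a = (sm M a * (sm M f * r))⁻¹ := by
      rw [mul_inv_rev, mul_inv_rev, sm_inv, sm_inv]
    rw [e1]
    exact dR_inv.2 h4
  · have e1 : sm M b * p⁻¹ = (p * sm M b)⁻¹ := by
      rw [mul_inv_rev, sm_inv]
    rw [e1, dL_inv]
    exact h2
  · have e1 : sm M f * (sm M b * p⁻¹) = (p * sm M b * sm M f)⁻¹ := by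
      rw [mul_inv_rev, mul_inv_rev, sm_inv, sm_inv]
    rw [e1, dL_inv]
    exact h3

end cr

section cr2

variable {B : Type} {M : CoxeterMatrix B} {L : M.Group → ℤ} {H : Type} [Ring H] [Algebra LP H]
variable {D : KLD M L H} {la : M.Group → ℕ}
variable {hv : M.Group → Prop} {A : Type} [AddCommGroup A]
variable {F : Lf D hv A} {κ T0 : ℤ} {X : Set B}

/-- The term of an element with a crude bound.
PROOF. `Lat_TB`, `TTT_one`, `mul_Vl` (length `len p + len v + len r`). -/
theorem crude_tm {p u v r : M.Group} {n : ℕ} {d m : ℤ} (hT : TB F T0 n) (hp : p ∈ XR M X)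
    (hv' : v ∈ par M X) (hr : r ∈ XL M X) (h1 : v ≠ 1)
    (hn : len M p + len M v + len M r < n) (hx : D.T p * D.T v * D.T r ∈ Lat D.T d)
    (hm : Dle m (D.p v u)) (h : d + m ≤ -1) (K : AddSubgroup A) :
    Dec F (κ - la u) K (T0 - 1) (D.p v u • (D.T p * D.T v * D.T r)) := by
  have h2 : D.T p * D.T v * D.T r ∈ Vl D.T (len M) n := by
    have h3 := D.mul_Vl (mem_Vl D.T (len M) (w := p) (Nat.lt_succ_self _))
      (mem_Vl D.T (len M) (w := v) (Nat.lt_succ_self _))
    have h4 := D.mul_Vl h3 (mem_Vl D.T (len M) (w := r) (Nat.lt_succ_self _))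
    exact Vl_mono _ _ (by omega) h4
  have h3 := Lat_TB hT hx h2 (TTT_one D hp hv' hr h1)
  exact Dec.low (F.mono (by omega) (F.smul hm h3))

end cr2

end Pool.Agent.Helper63.LG
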