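import Pool.Agent.Helper35.AM.Gp2
import Pool.Agent.Helper35.AM.Lo3
import Pool.Agent.Helper35.AM.Lv2
import Pool.Agent.Helper35.AM.Th
import Pool.Agent.Helper35.AM.Ap3
import Pool.Agent.Helper35.AM.Lc
import Pool.Agent.Helper35.AM.Rs
import Pool.Agent.Helper35.KL.Di.All
import Pool.Agent.Helper35.KL.As.K

/-!
# P1-P15 and blocks with large bonds between them: definitions
-/

/-
THEOREM (LG). W Coxeter group, S finite, beta : S -> Bool, m_st >= 5 (finite) if beta s <> beta t ('cross' pairs).
L positive weight function. (W,L) is bounded and satisfies P1-P15 iff the two parabolic subgroups W_{beta = i} do.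

HOW TO WORK ON A FILE OF THIS DIRECTORY (captain helper63): replace the sorrys of your piece, change no statement, name
or import (extra imports without cycles are fine). Everything in the imported files may be used, also the other
statements of the same file that come before. Auxiliary results: private or with a name that starts with the piece.

CONVENTIONS (see also AM/Df.lean). sm M s simple reflections, len M length. dR M w s : s is a right descent of w.
XR M X = elements without right descent in X, XL M X = no left descent in X, par M X = W_X.
A piece X is a set of generators that is contained in a block {beta = i} or in a cross pair {a, b} (Sp beta X).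
la : W -> N is the a-function of W_X on W_X, for all pieces X (Loc D X la). gc, nu as in AM/Df.lean.
Occ N w ('w is N-heavy'): w = x * g * y reduced with g in W_X, X a piece, la g >= N.
wJ s t = longest element of W_{s,t}. rsA a b n = a * b * a * ... (n factors).
-/

namespace Pool.Agent.Helper63.LG

open Pool.Agent.Helper35.KL Pool.Agent.Helper35.AM

section cox

variable {B : Type}

/-- `s` is a right descent of `w`. -/
def dR (M : CoxeterMatrix B) (w : M.Group) (s : B) : Prop :=
  len M (w * sm M s) + 1 = len M w

/-- `s` is a left descent of `w`. -/
def dL (M : CoxeterMatrix B) (w : M.Group) (s : B) : Prop :=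
  len M (sm M s * w) + 1 = len M w

/-- The product of `x` and `y` is reduced. -/
def Rd (M : CoxeterMatrix B) (x y : M.Group) : Prop :=
  len M (x * y) = len M x + len M y

/-- The two blocks. -/
def blk (β : B → Bool) (i : Bool) : Set B := {b | β b = i}

/-- The bonds between the blocks are at least `5`. -/
def Big (M : CoxeterMatrix B) (β : B → Bool) : Prop := ∀ a b, β a ≠ β b → 5 ≤ M a b

/-- The sets that are contained in a block or in a pair of generators in different blocks. -/
def Sp (β : B → Bool) (X : Set B) : Prop :=
  (∃ i, X ⊆ blk β i) ∨ ∃ a b, β a ≠ β b ∧ X ⊆ {a, b}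

/-- The longest element of the subgroup of `s` and `t`. -/
noncomputable def wJ (M : CoxeterMatrix B) (s t : B) : M.Group := rsA (sm M s) (sm M t) (M s t)

/-- `w` has a factor `g` in a piece with `la g ≥ N`. -/
def Occ (M : CoxeterMatrix B) (β : B → Bool) (la : M.Group → ℕ) (N : ℕ) (w : M.Group) : Prop :=
  ∃ X, Sp β X ∧ ∃ x g y, g ∈ par M X ∧ N ≤ la g ∧ w = x * g * y ∧
    len M w = len M x + len M g + len M y

end cox

section hecke

variable {B : Type} {M : CoxeterMatrix B} {L : M.Group → ℤ} {H : Type} [Ring H] [Algebra LP H]

/-- The leading coefficients are invariant under cyclic permutations. -/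
def Cyc (D : KLD M L H) (X : Set B) (la : M.Group → ℕ) : Prop :=
  ∀ x ∈ par M X, ∀ y ∈ par M X, ∀ z ∈ par M X, gc D la x y z⁻¹ = gc D la y z x⁻¹

/-- The standing assumptions. -/
structure Dat (D : KLD M L H) (β : B → Bool) (la : M.Group → ℕ) : Prop where
  big : Big M β
  wt : IsWeight M L
  loc : ∀ i, Loc D (blk β i) la
  locX : ∀ a b, β a ≠ β b → Loc D {a, b} la
  cyc : ∀ i, Cyc D (blk β i) la
  cycX : ∀ a b, β a ≠ β b → Cyc D {a, b} la

end hecke

end Pool.Agent.Helper63.LG
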