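import Pool.Agent.Helper63.LG.Df

/-!
# Descents
-/

namespace Pool.Agent.Helper63.LG

open Pool.Agent.Helper35.KL Pool.Agent.Helper35.AM

section g0

variable {B : Type} {M : CoxeterMatrix B} {X : Set B}

/-! Piece G0-a -/

/-- PROOF. `len_inv`, `(w * s)⁻¹ = s * w⁻¹` (`mul_inv_rev`, `sm_inv`). -/
theorem dR_inv {w : M.Group} {s : B} : dR M w⁻¹ s ↔ dL M w s := by
  unfold dR dL
  rw [show w⁻¹ * sm M s = (sm M s * w)⁻¹ by rw [mul_inv_rev, sm_inv], len_inv, len_inv]

theorem dL_inv {w : M.Group} {s : B} : dL M w⁻¹ s ↔ dR M w s := by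
  unfold dR dL
  rw [show sm M s * w⁻¹ = (w * sm M s)⁻¹ by rw [mul_inv_rev, sm_inv], len_inv, len_inv]

/-- PROOF. `M.toCoxeterSystem.length_mul_simple` (compare `AM.Cx`, `cx_len_mul_sm`). -/
theorem dR_or (w : M.Group) (s : B) : dR M w s ∨ len M (w * sm M s) = len M w + 1 := by
  unfold dR
  have h : len M (w * sm M s) = len M w + 1 ∨ len M (w * sm M s) + 1 = len M w :=
    M.toCoxeterSystem.length_mul_simple w s
  exact h.symm

theorem dL_or (w : M.Group) (s : B) : dL M w s ∨ len M (sm M s * w) = len M w + 1 := by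
  unfold dL
  exact (len_sm_mul s w).symm

theorem not_dR {w : M.Group} {s : B} : ¬ dR M w s ↔ len M (w * sm M s) = len M w + 1 := by
  have h := dR_or w s
  unfold dR at h ⊢
  omega

theorem not_dL {w : M.Group} {s : B} : ¬ dL M w s ↔ len M (sm M s * w) = len M w + 1 := by
  have h := dL_or w s
  unfold dL at h ⊢
  omega

/-- PROOF. `w * s * s = w`. -/
theorem dR_mul {w : M.Group} {s : B} : dR M (w * sm M s) s ↔ ¬ dR M w s := by
  rw [not_dR]
  unfold dR
  rw [mul_assoc, sm_sm, mul_one]
  exact eq_comm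

theorem dL_mul {w : M.Group} {s : B} : dL M (sm M s * w) s ↔ ¬ dL M w s := by
  rw [not_dL]
  unfold dL
  rw [sm_cancel]
  exact eq_comm

/-- PROOF. `len (x * (y * s)) ≤ len x + len (y * s)` (`rs_mul_le`) and `dR_or`. -/
theorem dR_of_rd {x y : M.Group} (h : Rd M x y) {s : B} (hs : dR M y s) : dR M (x * y) s := by
  have h1 := rs_mul_le (M := M) x (y * sm M s)
  rw [← mul_assoc] at h1
  have h2 := dR_or (x * y) s
  unfold dR at hs h2 ⊢
  unfold Rd at h
  omega

theorem dL_of_rd {x y : M.Group} (h : Rd M x y) {s : B} (hs : dL M x s) : dL M (x * y) s := by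
  have h1 := rs_mul_le (M := M) (sm M s * x) y
  rw [mul_assoc] at h1
  have h2 := dL_or (x * y) s
  unfold dL at hs h2 ⊢
  unfold Rd at h
  omega

/-- PROOF. `len_XR_mul` for `v` and `v * s` (`sm_mem_par`). -/
theorem dR_XR {p v : M.Group} (hp : p ∈ XR M X) (hv : v ∈ par M X) {s : B} (hs : s ∈ X) :
    dR M (p * v) s ↔ dR M v s := by
  unfold dR
  rw [mul_assoc, len_XR_mul hp hv, len_XR_mul hp (mul_mem hv (sm_mem_par hs))]
  omega

theorem dL_XL {v r : M.Group} (hr : r ∈ XL M X) (hv : v ∈ par M X) {s : B} (hs : s ∈ X) :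
    dL M (v * r) s ↔ dL M v s := by
  unfold dL
  rw [← mul_assoc, len_mul_XL hv hr, len_mul_XL (mul_mem (sm_mem_par hs) hv) hr]
  omega

/-- PROOF. Definition of `XR` and `not_dR`. -/
theorem mem_XR {p : M.Group} : p ∈ XR M X ↔ ∀ s ∈ X, ¬ dR M p s := by
  exact forall₂_congr fun s _ => not_dR.symm

theorem mem_XL {r : M.Group} : r ∈ XL M X ↔ ∀ s ∈ X, ¬ dL M r s := by
  exact forall₂_congr fun s _ => not_dL.symm

/-- PROOF. `descR_mem`. -/
theorem dR_mem {w : M.Group} (hw : w ∈ par M X) {s : B} (h : dR M w s) : s ∈ X := by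
  refine descR_mem hw ?_
  unfold dR at h
  omega

theorem dL_mem {w : M.Group} (hw : w ∈ par M X) {s : B} (h : dL M w s) : s ∈ X := by
  refine descL_mem hw ?_
  unfold dL at h
  omega

theorem dR_ne_one {w : M.Group} {s : B} (h : dR M w s) : w ≠ 1 := by
  rintro rfl
  unfold dR at h
  rw [len_one] at h
  exact absurd h (Nat.succ_ne_zero _)

theorem dL_ne_one {w : M.Group} {s : B} (h : dL M w s) : w ≠ 1 := by
  rintro rfl
  unfold dL at h
  rw [len_one] at h
  exact absurd h (Nat.succ_ne_zero _)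

/-- PROOF. `exists_descR` with the set `Set.univ` (all elements are in `par M Set.univ`, compare
`Ac_mem_univ` in `AM.Ac`). -/
theorem exists_dR {w : M.Group} (h : w ≠ 1) : ∃ s, dR M w s := by
  have hu : w ∈ par M (Set.univ : Set B) := by
    clear h
    induction w using len_induction with
    | h1 => exact one_mem _
    | hs b w _ ih => exact mul_mem (sm_mem_par (Set.mem_univ b)) ih
  obtain ⟨s, _, hs⟩ := exists_descR hu h
  exact ⟨s, hs⟩

theorem exists_dL {w : M.Group} (h : w ≠ 1) : ∃ s, dL M w s := by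
  obtain ⟨s, hs⟩ := exists_dR (inv_ne_one.2 h)
  exact ⟨s, dR_inv.1 hs⟩

/-! Piece G0-b -/

private theorem G0b_pow (x y : B) : (sm M x * sm M y) ^ (M x y) = 1 :=
  M.toCoxeterSystem.simple_mul_simple_pow x y

private theorem G0b_symm (x y : B) : wJ M x y = wJ M y x := by
  unfold wJ
  rw [M.symmetric y x]
  exact rsA_comm (sm_sm x) (sm_sm y) (G0b_pow x y)

private theorem G0b_inv {G : Type} [Group G] {a b : G} (ha : a * a = 1) (hb : b * b = 1) (n : ℕ) :
    (rsA a b n)⁻¹ = rsA a b n ∨ (rsA a b n)⁻¹ = rsA b a n := by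
  have h1 : (a * b)⁻¹ = b * a := by
    rw [mul_inv_rev, ← eq_inv_of_mul_eq_one_left ha, ← eq_inv_of_mul_eq_one_left hb]
  rcases Nat.even_or_odd' n with ⟨k, hk | hk⟩
  · right
    rw [hk, (rsA_even a b k).1, (rsA_even b a k).1, ← inv_pow, h1]
  · left
    rw [hk, (rsA_even a b k).2, mul_inv_rev, ← inv_pow, h1, ← eq_inv_of_mul_eq_one_left ha,
      ← (rsA_even b a k).1, ← rsA_succ, (rsA_even a b k).2]

private theorem G0b_wJinv (x y : B) : (wJ M x y)⁻¹ = wJ M x y := by
  have h1 := G0b_symm (M := M) x y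
  unfold wJ at h1 ⊢
  rcases G0b_inv (sm_sm (M := M) x) (sm_sm y) (M x y) with h | h
  · exact h
  · rw [h, h1, M.symmetric y x]

private theorem G0b_cut (x y : B) (h0 : M x y ≠ 0) (s : B) (hs : s ∈ ({x, y} : Set B)) :
    len M (sm M s * wJ M x y) + 1 ≤ M x y := by
  have key : ∀ a b : B, M a b ≠ 0 → len M (sm M a * wJ M a b) + 1 ≤ M a b := by
    intro a b hab
    obtain ⟨m, hm⟩ : ∃ m, M a b = m + 1 := ⟨M a b - 1, by omega⟩
    unfold wJ
    rw [hm, rsA_succ, sm_cancel]
    have := len_rsA_le (M := M) b a m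
    omega
  rcases hs with hs | hs
  · rw [hs]
    exact key x y h0
  · rw [Set.mem_singleton_iff] at hs
    rw [hs, G0b_symm, M.symmetric x y]
    exact key y x (by rwa [M.symmetric y x])

/-- Two right descents.
PROOF. `rs_two` for `w⁻¹` (with `s = y`, `t = x`): `M y x ≠ 0` and
`w⁻¹ = rsA (sm x) (sm y) (M y x) * v`, lengths add. Put `z = v⁻¹`. `M.symmetric`. The inverse of
`rsA a b m` is `rsA a b m` for even `m`... in all cases: `(rsA a b m)⁻¹` is `rsA a b m` (m odd) or
`rsA b a m` (m even) (induction or `rsA_even`), and both are equal for `m = M x y` by `rsA_comm`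
(`(a * b) ^ m = 1`, `simple_mul_simple_pow`). `z ∈ XR M {x, y}`: `len (z * x)`: if `dR z x` then
`len w = len (z * wJ) ≤ len (z * x) + len (x * wJ) ≤ (len z - 1) + (m - 1)`, as `x * wJ` and
`y * wJ` are products of `m - 1` letters; contradiction. -/
theorem two_R {w : M.Group} {x y : B} (hx : dR M w x) (hy : dR M w y) (h : x ≠ y) :
    M x y ≠ 0 ∧ ∃ z ∈ XR M ({x, y} : Set B), w = z * wJ M x y ∧ len M w = len M z + M x y := by
  have hx' : len M (sm M x * w⁻¹) + 1 = len M w⁻¹ := by
    have h1 : sm M x * w⁻¹ = (w * sm M x)⁻¹ := by rw [mul_inv_rev, sm_inv]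
    rw [h1, len_inv, len_inv]
    exact hx
  have hy' : len M (sm M y * w⁻¹) + 1 = len M w⁻¹ := by
    have h1 : sm M y * w⁻¹ = (w * sm M y)⁻¹ := by rw [mul_inv_rev, sm_inv]
    rw [h1, len_inv, len_inv]
    exact hy
  obtain ⟨h0, v, hv, hl⟩ := rs_two hy' hx'
  rw [M.symmetric y x] at h0 hv hl
  have hw : w = v⁻¹ * wJ M x y := by
    rw [← G0b_wJinv, ← mul_inv_rev]
    unfold wJ
    rw [← hv, inv_inv]
  have hl2 : len M w = len M v⁻¹ + M x y := by
    rw [len_inv] at hl
    rw [hl, len_inv]
    omega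
  refine ⟨h0, v⁻¹, ?_, hw, hl2⟩
  intro s hs
  rcases dR_or v⁻¹ s with h5 | h5
  · exfalso
    unfold dR at h5
    have h6 := rs_mul_le (M := M) (v⁻¹ * sm M s) (sm M s * wJ M x y)
    have h7 : v⁻¹ * sm M s * (sm M s * wJ M x y) = w := by
      rw [mul_assoc, sm_cancel, ← hw]
    rw [h7] at h6
    have h8 := G0b_cut x y h0 s hs
    omega
  · exact h5

theorem two_L {w : M.Group} {x y : B} (hx : dL M w x) (hy : dL M w y) (h : x ≠ y) :
    M x y ≠ 0 ∧ ∃ z ∈ XL M ({x, y} : Set B), w = wJ M x y * z ∧ len M w = len M z + M x y := by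
  obtain ⟨h0, z, hz, hw, hl⟩ := two_R (dR_inv.2 hx) (dR_inv.2 hy) h
  refine ⟨h0, z⁻¹, inv_mem_XL.2 hz, ?_, ?_⟩
  · have h1 := congrArg (fun g => g⁻¹) hw
    simp only [inv_inv, mul_inv_rev, G0b_wJinv] at h1
    exact h1
  · rw [len_inv] at hl ⊢
    exact hl

/-- Facts on the longest element. PROOF. See the previous proof. -/
theorem wJ_symm (x y : B) : wJ M x y = wJ M y x := G0b_symm x y

theorem wJ_inv (x y : B) : (wJ M x y)⁻¹ = wJ M x y := G0b_wJinv x y

theorem wJ_mem (x y : B) : wJ M x y ∈ par M ({x, y} : Set B) := by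
  have key : ∀ (n : ℕ) (a b : M.Group), a ∈ par M ({x, y} : Set B) → b ∈ par M ({x, y} : Set B) →
      rsA a b n ∈ par M ({x, y} : Set B) := by
    intro n
    induction n with
    | zero =>
      intro a b _ _
      rw [rsA_zero]
      exact Subgroup.one_mem _
    | succ n ih =>
      intro a b ha hb
      rw [rsA_succ]
      exact Subgroup.mul_mem _ ha (ih b a hb ha)
  exact key _ _ _ (sm_mem_par (by simp)) (sm_mem_par (by simp))

/-- If some element has the two descents (so that the length of the longest element is `M x y`;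
this is true in general but we do not need it). -/
theorem len_wJ {w : M.Group} {x y : B} (hx : dR M w x) (hy : dR M w y) (h : x ≠ y) :
    len M (wJ M x y) = M x y := by
  obtain ⟨h0, z, hz, hw, hl⟩ := two_R hx hy h
  have h1 := rs_mul_le (M := M) z (wJ M x y)
  rw [← hw] at h1
  have h2 : len M (wJ M x y) ≤ M x y := len_rsA_le x y (M x y)
  omega

private theorem chL_add {G : Type} [Group G] (k : ℕ) : ∀ (n : ℕ) (a b : G),
    rsA a b (n + k) = rsA a b n * (if Even n then rsA a b k else rsA b a k) := by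
  intro n
  induction n with
  | zero =>
    intro a b
    rw [zero_add, rsA_zero, one_mul, if_pos Even.zero]
  | succ n ih =>
    intro a b
    rw [show n + 1 + k = (n + k) + 1 by omega, rsA_succ, ih b a, rsA_succ, mul_assoc]
    congr 2
    by_cases h : Even n
    · rw [if_pos h, if_neg (by rw [Nat.even_add_one]; exact not_not.2 h)]
    · rw [if_neg h, if_pos (Nat.even_add_one.2 h)]

/-- The alternating product of `n` letters that starts with `x` is a suffix of an element with
two left descents. PROOF. From `two_L`; `w = rsA x y m * z`, lengths add; then for `n < m` the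
element `(rsA x y n)⁻¹ * w` is the product of the remaining `m - n` letters and `z`
(`rsA_split`), it starts with the letter number `n + 1`; all lengths are determined because the
total length is `m + len z`. -/
theorem ch_L {w : M.Group} {x y : B} (hx : dL M w x) (hy : dL M w y) (h : x ≠ y) {n : ℕ}
    (hn : n < M x y) :
    len M ((rsA (sm M x) (sm M y) n)⁻¹ * w) + n = len M w ∧
      dL M ((rsA (sm M x) (sm M y) n)⁻¹ * w) (if Even n then x else y) := by
  obtain ⟨_, z, _, hw, hl⟩ := two_L hx hy h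
  obtain ⟨k, hk⟩ : ∃ k, M x y = n + (k + 1) := ⟨M x y - n - 1, by omega⟩
  unfold wJ at hw
  rw [hk, chL_add (k + 1) n] at hw
  have hmain : ∀ u v : B, (rsA (sm M x) (sm M y) n)⁻¹ * w = rsA (sm M u) (sm M v) (k + 1) * z →
      len M ((rsA (sm M x) (sm M y) n)⁻¹ * w) + n = len M w ∧
        dL M ((rsA (sm M x) (sm M y) n)⁻¹ * w) u := by
    intro u v he
    have h1 := rs_mul_le (M := M) (rsA (sm M x) (sm M y) n)
      ((rsA (sm M x) (sm M y) n)⁻¹ * w)
    rw [mul_inv_cancel_left] at h1
    have h2 := len_rsA_le (M := M) x y n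
    have h3 := rs_mul_le (M := M) (rsA (sm M u) (sm M v) (k + 1)) z
    have h4 := len_rsA_le (M := M) u v (k + 1)
    rw [← he] at h3
    have h5 : sm M u * ((rsA (sm M x) (sm M y) n)⁻¹ * w) = rsA (sm M v) (sm M u) k * z := by
      rw [he, rsA_succ, mul_assoc, sm_cancel]
    have h6 := rs_mul_le (M := M) (rsA (sm M v) (sm M u) k) z
    have h7 := len_rsA_le (M := M) v u k
    rw [← h5] at h6
    rcases dL_or ((rsA (sm M x) (sm M y) n)⁻¹ * w) u with h8 | h8
    · exact ⟨by omega, h8⟩
    · omega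
  by_cases hn2 : Even n
  · rw [if_pos hn2] at hw ⊢
    refine hmain x y ?_
    rw [hw]
    group
  · rw [if_neg hn2] at hw ⊢
    refine hmain y x ?_
    rw [hw]
    group

/-! Piece G0-c -/

/-- PROOF. `ch_L` with `n = 1` (`M x y ≥ 2` as `M x y ≠ 0, 1`: `M.off_diagonal`). -/
theorem g1_L {w : M.Group} {x y : B} (hx : dL M w x) (hy : dL M w y) (h : x ≠ y) :
    dL M (sm M x * w) y := by
  have h0 := (two_L hx hy h).1
  have h1 := M.off_diagonal x y h
  have h2 := (ch_L hx hy h (n := 1) (by omega)).2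
  rw [rsA_succ, rsA_zero, mul_one, sm_inv, if_neg (by decide)] at h2
  exact h2

theorem g1_R {w : M.Group} {x y : B} (hx : dR M w x) (hy : dR M w y) (h : x ≠ y) :
    dR M (w * sm M x) y := by
  have h1 := g1_L (w := w⁻¹) (dL_inv.2 hx) (dL_inv.2 hy) h
  rw [← dL_inv, mul_inv_rev, sm_inv]
  exact h1

/-- PROOF. `ch_L` with `n = 2`. -/
theorem g2_L {w : M.Group} {x y : B} (hx : dL M w x) (hy : dL M w y) (h : x ≠ y)
    (h2 : M x y ≠ 2) : dL M (sm M y * (sm M x * w)) x := by
  have h0 := (two_L hx hy h).1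
  have h1 := M.off_diagonal x y h
  have h3 := (ch_L hx hy h (n := 2) (by omega)).2
  rw [rsA_succ, rsA_succ, rsA_zero, mul_one, mul_inv_rev, sm_inv, sm_inv, if_pos (by decide),
    mul_assoc] at h3
  exact h3

theorem g2_R {w : M.Group} {x y : B} (hx : dR M w x) (hy : dR M w y) (h : x ≠ y)
    (h2 : M x y ≠ 2) : dR M (w * sm M x * sm M y) x := by
  have h1 := g2_L (w := w⁻¹) (dL_inv.2 hx) (dL_inv.2 hy) h h2
  rw [← dL_inv, mul_inv_rev, mul_inv_rev, sm_inv, sm_inv]
  exact h1

/-- PROOF. `ch_L` with `n = 1, 2, 3, 4`. -/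
theorem ch5_L {w : M.Group} {x y : B} (hx : dL M w x) (hy : dL M w y) (h : x ≠ y)
    (h5 : 5 ≤ M x y) :
    dL M (sm M x * w) y ∧ dL M (sm M y * (sm M x * w)) x ∧
      dL M (sm M x * (sm M y * (sm M x * w))) y ∧
      dL M (sm M y * (sm M x * (sm M y * (sm M x * w)))) x := by
  refine ⟨g1_L hx hy h, g2_L hx hy h (by omega), ?_, ?_⟩
  · have h3 := (ch_L hx hy h (n := 3) (by omega)).2
    rw [rsA_succ, rsA_succ, rsA_succ, rsA_zero, mul_one, mul_inv_rev, mul_inv_rev, sm_inv, sm_inv,
      if_neg (by decide), mul_assoc, mul_assoc] at h3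
    exact h3
  · have h3 := (ch_L hx hy h (n := 4) (by omega)).2
    rw [rsA_succ, rsA_succ, rsA_succ, rsA_succ, rsA_zero, mul_one, mul_inv_rev, mul_inv_rev,
      mul_inv_rev, sm_inv, sm_inv, if_pos (by decide), mul_assoc, mul_assoc, mul_assoc] at h3
    exact h3

theorem ch5_R {w : M.Group} {x y : B} (hx : dR M w x) (hy : dR M w y) (h : x ≠ y)
    (h5 : 5 ≤ M x y) :
    dR M (w * sm M x) y ∧ dR M (w * sm M x * sm M y) x ∧
      dR M (w * sm M x * sm M y * sm M x) y ∧
      dR M (w * sm M x * sm M y * sm M x * sm M y) x := by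
  obtain ⟨h1, h2, h3, h4⟩ := ch5_L (w := w⁻¹) (dL_inv.2 hx) (dL_inv.2 hy) h h5
  refine ⟨g1_R hx hy h, g2_R hx hy h (by omega), ?_, ?_⟩
  · rw [← dL_inv]
    simp only [mul_inv_rev, sm_inv]
    exact h3
  · rw [← dL_inv]
    simp only [mul_inv_rev, sm_inv]
    exact h4

/-- PROOF. `simple_mul_simple_pow` with exponent `2`, and `sm_sm`. -/
theorem sm_comm {s t : B} (h : M s t = 2) : sm M s * sm M t = sm M t * sm M s := by
  have h1 := M.toCoxeterSystem.simple_mul_simple_pow s t
  rw [h, pow_two] at h1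
  have h2 : sm M s * sm M t = (sm M s * sm M t)⁻¹ := eq_inv_of_mul_eq_one_left h1
  rw [mul_inv_rev, sm_inv, sm_inv] at h2
  exact h2

/-- PROOF. Let `s ≠ t` (`M s s = 1`). If `dR w t` then: if `dR w s`, `g1_R`; if not, `dR (w s) s`
and (lengths) `w s t = w t s` has length at most `len (w t) + 1 = len w`, so it is
`len (w s) - 1`. Apply this to `w * s` for the other direction. -/
theorem dR_comm {w : M.Group} {s t : B} (h : M s t = 2) :
    dR M (w * sm M s) t ↔ dR M w t := by
  have hne : s ≠ t := by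
    rintro rfl
    rw [M.diagonal] at h
    omega
  have key : ∀ v : M.Group, dR M v t → dR M (v * sm M s) t := by
    intro v hv
    rcases dR_or v s with h1 | h1
    · exact g1_R h1 hv hne
    · rcases dR_or (v * sm M s) t with h2 | h2
      · exact h2
      · have h3 : v * sm M s * sm M t = v * sm M t * sm M s := by
          rw [mul_assoc, sm_comm h, ← mul_assoc]
        rw [h3] at h2
        unfold dR at hv
        rcases dR_or (v * sm M t) s with h4 | h4
        · unfold dR at h4
          omega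
        · omega
  constructor
  · intro h1
    have h2 := key _ h1
    rw [mul_assoc, sm_sm, mul_one] at h2
    exact h2
  · exact key w

theorem dL_comm {w : M.Group} {s t : B} (h : M s t = 2) :
    dL M (sm M s * w) t ↔ dL M w t := by
  rw [← dR_inv, ← dR_inv, mul_inv_rev, sm_inv]
  exact dR_comm h

/-- The commutation of a letter with an element.
PROOF. `c * ρ = ρ * t` is longer than `ρ`; the initial piece `ρ` of `ρ * t` gives the left descents. -/
theorem cm {ρ : M.Group} {c t : B} (h : sm M c * ρ = ρ * sm M t) (ht : ¬ dR M ρ t) :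
    ¬ dL M ρ c ∧ dL M (sm M c * ρ) c ∧ (∀ a, dL M ρ a → dL M (sm M c * ρ) a) ∧
      len M (sm M c * ρ) = len M ρ + 1 := by
  have h1 := not_dR.1 ht
  have h2 : len M (sm M c * ρ) = len M ρ + 1 := by
    rw [h]
    exact h1
  refine ⟨not_dL.2 h2, ?_, fun a ha => ?_, h2⟩
  · rw [dL_mul]
    exact not_dL.2 h2
  · rw [h]
    rcases dL_or (ρ * sm M t) a with h3 | h3
    · exact h3
    · rw [← mul_assoc] at h3
      unfold dL at ha
      rcases dR_or (sm M a * ρ) t with h4 | h4
      · unfold dR at h4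
        omega
      · omega

/-! Piece G0-d -/

private theorem exch_lms (w : M.Group) (b : B) :
    len M (w * sm M b) = len M w + 1 ∨ len M (w * sm M b) + 1 = len M w :=
  M.toCoxeterSystem.length_mul_simple w b

private theorem exch_se {w : M.Group} {b : B} (ω : List B)
    (hω : M.toCoxeterSystem.wordProd ω = w) (h : len M (w * sm M b) < len M w) :
    ∃ j, j < ω.length ∧ w * sm M b = M.toCoxeterSystem.wordProd (ω.eraseIdx j) := by
  classical
  set cs := M.toCoxeterSystem with hcs
  obtain ⟨ν, hν1, hν2⟩ := cs.exists_isReduced (w * sm M b)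
  have hprod : cs.wordProd (ν.concat b) = cs.wordProd ω := by
    rw [cs.wordProd_concat, ← hν2, hω]
    change w * sm M b * sm M b = w
    rw [mul_assoc, sm_sm, mul_one]
  have hred : cs.IsReduced (ν.concat b) := by
    unfold CoxeterSystem.IsReduced
    rw [hprod, List.length_concat, ← hν1.eq, ← hν2, hω]
    change len M w = len M (w * sm M b) + 1
    have h1 := exch_lms w b
    omega
  have hmem : sm M b ∈ cs.rightInvSeq (ν.concat b) := by
    rw [cs.rightInvSeq_concat]
    simp only [List.concat_eq_append, List.mem_append, List.mem_singleton]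
    exact Or.inr rfl
  have hc1 : (cs.rightInvSeq (ν.concat b)).count (sm M b) = 1 :=
    List.count_eq_one_of_mem hred.nodup_rightInvSeq hmem
  have k1 := x1_word M (ν.concat b) (sm M b)
  have k2 := x1_word M ω (sm M b)
  rw [← hcs, hprod] at k1
  rw [← hcs, k1] at k2
  have k3 := congrArg Prod.snd k2
  simp only at k3
  rw [hc1, Nat.cast_one] at k3
  have hmem2 : sm M b ∈ cs.rightInvSeq ω := by
    by_contra hn
    rw [List.count_eq_zero_of_not_mem hn, Nat.cast_zero] at k3
    exact one_ne_zero k3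
  obtain ⟨j, hj, hj2⟩ := List.getElem_of_mem hmem2
  refine ⟨j, by simpa using hj, ?_⟩
  have h1 := cs.wordProd_mul_getD_rightInvSeq ω j
  rw [List.getD_eq_getElem _ _ hj, hj2, hω] at h1
  exact h1

private theorem exch_red {u : M.Group} (hu : u ∈ par M X) :
    ∃ ω : List B, M.toCoxeterSystem.wordProd ω = u ∧ ω.length = len M u ∧ ∀ b ∈ ω, b ∈ X := by
  have key : ∀ (x : M.Group) (b : B), b ∈ X → (∃ ω : List B, M.toCoxeterSystem.wordProd ω = x ∧
      ω.length = len M x ∧ ∀ b ∈ ω, b ∈ X) → ∃ ω : List B,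
      M.toCoxeterSystem.wordProd ω = x * sm M b ∧ ω.length = len M (x * sm M b) ∧
        ∀ b ∈ ω, b ∈ X := by
    rintro x b hb ⟨ω, h1, h2, h3⟩
    rcases exch_lms x b with h | h
    · refine ⟨ω.concat b, ?_, ?_, ?_⟩
      · rw [M.toCoxeterSystem.wordProd_concat, h1]
      · rw [List.length_concat, h2, h]
      · intro c hc
        rw [List.concat_eq_append, List.mem_append, List.mem_singleton] at hc
        rcases hc with hc | hc
        · exact h3 c hc
        · rw [hc]
          exact hb
    · obtain ⟨j, hj, hj2⟩ := exch_se ω h1 (b := b) (by omega)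
      refine ⟨ω.eraseIdx j, hj2.symm, ?_, ?_⟩
      · rw [List.length_eraseIdx_of_lt hj]
        omega
      · intro c hc
        exact h3 c (List.mem_of_mem_eraseIdx hc)
  refine Subgroup.closure_induction_right (p := fun x _ => ∃ ω : List B,
    M.toCoxeterSystem.wordProd ω = x ∧ ω.length = len M x ∧ ∀ b ∈ ω, b ∈ X) ?_ ?_ ?_ hu
  · exact ⟨[], M.toCoxeterSystem.wordProd_nil, by rw [len_one]; rfl, by simp⟩
  · rintro x _ _ ⟨b, hb, rfl⟩ h
    exact key x b hb h
  · rintro x _ _ ⟨b, hb, rfl⟩ h
    rw [sm_inv]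
    exact key x b hb h

/-- The exchange condition for a reduced product.
PROOF. Let `ω`, `ω'` be reduced words of `w` and `r` (if `w` is in `par M X` choose `ω` in `X`,
as `cx_red` in `AM.Cx`). `ω ++ ω'` is a word of `w * r` and `w * r * s` is shorter, so by
`cx_se` of `AM.Cx` (copy it) one letter of `ω ++ ω'` can be deleted (`List.eraseIdx_append...`).
If it is in `ω'` then `r * s` is a product of `len r - 1` letters, so `dR r s`. If it is in `ω`:
`w'` is the product of the shortened word. -/
theorem exch {w r : M.Group} (h : Rd M w r) {s : B} (hs : dR M (w * r) s) (hw : w ∈ par M X) :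
    dR M r s ∨ ∃ w' ∈ par M X, w * r * sm M s = w' * r ∧ len M w' + 1 ≤ len M w := by
  obtain ⟨ω, h1, h2, h3⟩ := exch_red hw
  obtain ⟨ν, h4, h5⟩ := M.toCoxeterSystem.exists_isReduced r
  have h6 : M.toCoxeterSystem.wordProd (ω ++ ν) = w * r := by
    rw [M.toCoxeterSystem.wordProd_append, h1, ← h5]
  have h4' : len M r = ν.length := by
    have h7 := h4.eq
    rw [← h5] at h7
    exact h7
  unfold dR at hs
  obtain ⟨j, hj, hj2⟩ := exch_se (ω ++ ν) h6 (b := s) (by omega)
  rcases lt_or_ge j ω.length with h8 | h8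
  · right
    rw [List.eraseIdx_append_of_lt_length h8, M.toCoxeterSystem.wordProd_append, ← h5] at hj2
    refine ⟨M.toCoxeterSystem.wordProd (ω.eraseIdx j), ?_, hj2, ?_⟩
    · have h9 : ∀ l : List B, (∀ b ∈ l, b ∈ X) → M.toCoxeterSystem.wordProd l ∈ par M X := by
        intro l
        induction l with
        | nil =>
          intro _
          rw [M.toCoxeterSystem.wordProd_nil]
          exact Subgroup.one_mem _
        | cons a l ih =>
          intro hl
          rw [M.toCoxeterSystem.wordProd_cons]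
          exact Subgroup.mul_mem _ (sm_mem_par (hl a (by simp)))
            (ih fun b hb => hl b (by simp [hb]))
      exact h9 _ fun c hc => h3 c (List.mem_of_mem_eraseIdx hc)
    · have h11 : len M (M.toCoxeterSystem.wordProd (ω.eraseIdx j)) ≤ (ω.eraseIdx j).length :=
        M.toCoxeterSystem.length_wordProd_le (ω.eraseIdx j)
      rw [List.length_eraseIdx_of_lt h8] at h11
      omega
  · left
    rw [List.eraseIdx_append_of_length_le h8, M.toCoxeterSystem.wordProd_append, h1,
      mul_assoc] at hj2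
    have h9 : r * sm M s = M.toCoxeterSystem.wordProd (ν.eraseIdx (j - ω.length)) :=
      mul_left_cancel hj2
    have h10 : j - ω.length < ν.length := by
      rw [List.length_append] at hj
      omega
    have h11 : len M (M.toCoxeterSystem.wordProd (ν.eraseIdx (j - ω.length))) ≤
        (ν.eraseIdx (j - ω.length)).length :=
      M.toCoxeterSystem.length_wordProd_le (ν.eraseIdx (j - ω.length))
    rw [List.length_eraseIdx_of_lt h10, ← h9] at h11
    rcases dR_or r s with h12 | h12
    · exact h12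
    · omega

/-- PROOF. `exch` (`Rd` by `len_mul_XL`): if not `dR r s`, then `v r s = v' r`; put
`y = v⁻¹ * v' ∈ par M X`, `r s = y r`, and `len r + 1 = len (y r) = len y + len r`, so
`len y = 1` and `y = sm M b`, `b ∈ X` (`exists_descR` for `y`, `sm_mem_iff`);
`v b = v'` has length at most `len v - 1`. -/
theorem ex_par {v r : M.Group} (hv : v ∈ par M X) (hr : r ∈ XL M X) {s : B}
    (hs : dR M (v * r) s) : dR M r s ∨ ∃ y ∈ X, dR M v y ∧ r * sm M s = sm M y * r := by
  rcases exch (len_mul_XL hv hr) hs hv with h | ⟨v', hv', h1, h2⟩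
  · exact Or.inl h
  rcases dR_or r s with h0 | h0
  · exact Or.inl h0
  right
  have h3 : r * sm M s = v⁻¹ * v' * r := by
    rw [mul_assoc v⁻¹, ← h1]
    group
  have h4 : v⁻¹ * v' ∈ par M X := Subgroup.mul_mem _ (Subgroup.inv_mem _ hv) hv'
  have h5 := len_mul_XL h4 hr
  rw [← h3] at h5
  have h6 : len M (v⁻¹ * v') = 1 := by omega
  have hne : v⁻¹ * v' ≠ 1 := by
    intro h7
    rw [h7, len_one] at h6
    omega
  obtain ⟨b, hb, h7⟩ := exists_descR h4 hne
  have h8 : v⁻¹ * v' * sm M b = 1 := len_eq_zero.1 (by omega)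
  have h9 : v⁻¹ * v' = sm M b := by
    rw [← sm_inv b]
    exact eq_inv_of_mul_eq_one_left h8
  refine ⟨b, hb, ?_, by rw [h3, h9]⟩
  have h10 : v * sm M b = v' := by
    rw [← h9]
    group
  rcases dR_or v b with h11 | h11
  · exact h11
  · rw [h10] at h11
    omega

/-- PROOF. (1) If `dR w y` then `w r s = (w y) r` has length at most `len w - 1 + len r`.
(2) If `dR (w r) s`: `exch` with `X = Set.univ`; not `dR r s`, so `w r s = w' r`, `w' = w y`. -/
theorem ex_conj {w r : M.Group} (h : Rd M w r) {s y : B} (he : r * sm M s = sm M y * r)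
    (hn : ¬ dR M r s) : dR M (w * r) s ↔ dR M w y := by
  have hu : w ∈ par M (Set.univ : Set B) := by
    have h1 : (par M (Set.univ : Set B)) = ⊤ := by
      unfold par
      rw [Set.image_univ]
      exact M.toCoxeterSystem.subgroup_closure_range_simple
    rw [h1]
    exact Subgroup.mem_top w
  unfold Rd at h
  constructor
  · intro hs
    rcases exch h hs hu with h1 | ⟨w', -, h2, h3⟩
    · exact absurd h1 hn
    · rw [mul_assoc, he, ← mul_assoc] at h2
      have h4 := mul_right_cancel h2
      rcases dR_or w y with h5 | h5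
      · exact h5
      · rw [h4] at h5
        omega
  · intro hy
    rcases dR_or (w * r) s with h5 | h5
    · exact h5
    · have h6 := rs_mul_le (M := M) (w * sm M y) r
      rw [mul_assoc, he, ← mul_assoc] at h5
      unfold dR at hy
      omega

/-- PROOF. `exists_descR`, `sm_mem_iff`, `len_eq_zero`. -/
theorem len_one_par {v : M.Group} (hv : v ∈ par M X) (h : len M v = 1) :
    ∃ x ∈ X, v = sm M x := by
  have hne : v ≠ 1 := by
    rintro rfl
    rw [len_one] at h
    omega
  obtain ⟨b, hb, h1⟩ := exists_descR hv hne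
  refine ⟨b, hb, ?_⟩
  have h2 : v * sm M b = 1 := len_eq_zero.1 (by omega)
  rw [← sm_inv b]
  exact eq_inv_of_mul_eq_one_left h2

/-- PROOF. `exists_descR` and `len_one_par`. -/
theorem len_two_par {v : M.Group} (hv : v ∈ par M X) (h : len M v = 2) :
    ∃ e ∈ X, ∃ d ∈ X, e ≠ d ∧ v = sm M e * sm M d := by
  have hne : v ≠ 1 := by
    rintro rfl
    rw [len_one] at h
    omega
  obtain ⟨d, hd, h1⟩ := exists_descR hv hne
  obtain ⟨e, he, h2⟩ := len_one_par ((par M X).mul_mem hv (sm_mem_par hd))
    (show len M (v * sm M d) = 1 by omega)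
  have h3 : v = sm M e * sm M d := by
    rw [← h2, mul_assoc, sm_sm, mul_one]
  refine ⟨e, he, d, hd, ?_, h3⟩
  rintro rfl
  rw [sm_sm] at h3
  exact hne h3

theorem len_two_pair {v : M.Group} {a b : B} (hv : v ∈ par M ({a, b} : Set B))
    (h : len M v = 2) : v = sm M a * sm M b ∨ v = sm M b * sm M a := by
  obtain ⟨e, he, d, hd, hed, hv2⟩ := len_two_par hv h
  rcases he with rfl | he
  · rcases hd with rfl | hd
    · exact absurd rfl hed
    · rw [Set.mem_singleton_iff] at hd
      subst hd
      exact Or.inl hv2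
  · rw [Set.mem_singleton_iff] at he
    subst he
    rcases hd with rfl | hd
    · exact Or.inr hv2
    · rw [Set.mem_singleton_iff] at hd
      exact absurd hd.symm hed

theorem len_three_pair {v : M.Group} {a b : B} (hv : v ∈ par M ({a, b} : Set B))
    (h : len M v = 3) : v = sm M a * sm M b * sm M a ∨ v = sm M b * sm M a * sm M b := by
  have hne : v ≠ 1 := by
    rintro rfl
    rw [len_one] at h
    omega
  obtain ⟨d, hd, h1⟩ := exists_descR hv hne
  have h0 : len M (v * sm M d) = 2 := by omega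
  have key : ∀ x y : B, v * sm M d = sm M x * sm M y → d ≠ y := by
    rintro x y h2 rfl
    have h3 : v = sm M x := mul_right_cancel h2
    rw [h3, len_sm] at h
    omega
  have hvd : ∀ z : M.Group, v * sm M d = z → v = z * sm M d := by
    rintro z rfl
    rw [mul_assoc, sm_sm, mul_one]
  rcases len_two_pair ((par M _).mul_mem hv (sm_mem_par hd)) h0 with h2 | h2
  · have h3 := key a b h2
    rcases hd with rfl | hd
    · exact Or.inl (hvd _ h2)
    · exact absurd hd h3
  · have h3 := key b a h2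
    rcases hd with hd | hd
    · exact absurd hd h3
    · rw [Set.mem_singleton_iff] at hd
      subst hd
      exact Or.inr (hvd _ h2)

/-- The end of an element of a dihedral subgroup. If `dR v x` and `len v ≥ n` and `v` has only
this right descent or not: the letters alternate.
PROOF. `exists_descR`-type induction: `v x` is in the subgroup, nonzero length, and it has a right
descent in `{x, y}` (`exists_descR`), which is not `x` (`dR_mul`). -/
theorem alt_R {v : M.Group} {x y : B} (hv : v ∈ par M ({x, y} : Set B)) (hx : dR M v x)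
    (h : 2 ≤ len M v) : dR M (v * sm M x) y := by
  have hne : v * sm M x ≠ 1 := by
    intro h1
    unfold dR at hx
    rw [h1, len_one] at hx
    omega
  obtain ⟨b, hb, h2⟩ := exists_descR ((par M _).mul_mem hv (sm_mem_par (by simp))) hne
  rcases hb with rfl | hb
  · exact absurd hx (dR_mul.1 h2)
  · rw [Set.mem_singleton_iff] at hb
    subst hb
    exact h2

theorem alt_L {v : M.Group} {x y : B} (hv : v ∈ par M ({x, y} : Set B)) (hx : dL M v x)
    (h : 2 ≤ len M v) : dL M (sm M x * v) y := by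
  have h1 := alt_R ((par M _).inv_mem hv) (dR_inv.2 hx) (by rwa [len_inv])
  have h2 : v⁻¹ * sm M x = (sm M x * v)⁻¹ := by
    rw [mul_inv_rev, sm_inv]
  rw [h2] at h1
  exact dR_inv.1 h1

/-- An element of a dihedral subgroup with two different right descents is the longest element.
PROOF. `two_R`: `v = z * wJ`, and `z ∈ XR` and `z = v * wJ⁻¹ ∈ par`, so `z = 1`
(`exists_descR`, `mem_XR`). -/
theorem eq_wJ {v : M.Group} {x y : B} (hv : v ∈ par M ({x, y} : Set B)) (h : x ≠ y)
    (hx : dR M v x) (hy : dR M v y) : v = wJ M x y ∧ len M v = M x y := by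
  obtain ⟨-, z, hz, h1, h2⟩ := two_R hx hy h
  have h3 : z ∈ par M ({x, y} : Set B) := by
    have h4 : z = v * (wJ M x y)⁻¹ := by
      rw [h1, mul_assoc, mul_inv_cancel, mul_one]
    rw [h4]
    exact (par M _).mul_mem hv ((par M _).inv_mem (wJ_mem x y))
  have h5 : z = 1 := by
    by_contra h6
    obtain ⟨b, hb, h7⟩ := exists_descR h3 h6
    exact mem_XR.1 hz b hb h7
  rw [h5, one_mul] at h1
  rw [h5, len_one, zero_add] at h2
  exact ⟨h1, h2⟩

theorem eq_wJ' {v : M.Group} {x y : B} (hv : v ∈ par M ({x, y} : Set B)) (h : x ≠ y)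
    (hx : dL M v x) (hy : dL M v y) : v = wJ M x y ∧ len M v = M x y := by
  obtain ⟨h1, h2⟩ := eq_wJ ((par M _).inv_mem hv) h (dR_inv.2 hx) (dR_inv.2 hy)
  refine ⟨?_, by rwa [len_inv] at h2⟩
  rw [← inv_inv v, h1, wJ_inv]

/-- An element of maximal length of a dihedral subgroup.
PROOF. `v ≠ 1` has a left descent in `{x, y}` (`exists_descL`); `rs_alt` says that `v` is the
alternating word of length `M x y`; `wJ_symm`. -/
theorem eq_wJ_len {v : M.Group} {x y : B} (hv : v ∈ par M ({x, y} : Set B))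
    (h : len M v = M x y) (h0 : M x y ≠ 0) : v = wJ M x y := by
  have hne : v ≠ 1 := by
    rintro rfl
    rw [len_one] at h
    exact h0 h.symm
  obtain ⟨n, hn⟩ : ∃ n, M x y = n + 1 := ⟨M x y - 1, by omega⟩
  obtain ⟨b, hb, h1⟩ := exists_descL hv hne
  rcases hb with rfl | hb
  · have h2 := rs_alt (s := y) (t := b) n (h.trans hn) (by rwa [Set.pair_comm]) h1
    unfold wJ
    rw [h2, hn]
  · rw [Set.mem_singleton_iff] at hb
    subst hb
    have h2 := rs_alt (s := x) (t := b) n (h.trans hn) hv h1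
    rw [wJ_symm]
    unfold wJ
    rw [h2, M.symmetric b x, hn]

/-- Cutting a reduced word. If `len w ≥ n` there is a reduced decomposition with a first factor of
length `n`. PROOF. Induction with `exists_dR`. -/
theorem cut_at (w : M.Group) {n : ℕ} (h : n ≤ len M w) :
    ∃ x y, w = x * y ∧ len M x = n ∧ len M w = len M x + len M y := by
  obtain ⟨d, hd⟩ : ∃ d, len M w = n + d := ⟨len M w - n, by omega⟩
  clear h
  induction d generalizing w with
  | zero => exact ⟨w, 1, (mul_one w).symm, hd, by rw [len_one, add_zero]⟩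
  | succ d ih =>
    have hne : w ≠ 1 := by
      rintro rfl
      rw [len_one] at hd
      omega
    obtain ⟨s, hs⟩ := exists_dR hne
    unfold dR at hs
    obtain ⟨x, y, h1, h2, h3⟩ := ih (w * sm M s) (by omega)
    have h4 : w = x * (y * sm M s) := by
      rw [← mul_assoc, ← h1, mul_assoc, sm_sm, mul_one]
    have h5 := rs_mul_le (M := M) y (sm M s)
    have h6 := rs_mul_le (M := M) x (y * sm M s)
    rw [← h4] at h6
    rw [len_sm] at h5
    exact ⟨x, y * sm M s, h4, h2, by omega⟩

end g0

end Pool.Agent.Helper63.LG
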