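import Pool.Agent.Helper63.LG.Cr

/-!
# The leading terms of the nonreduced triple products with two letters
-/

namespace Pool.Agent.Helper63.LG

open Pool.Agent.Helper35.KL Pool.Agent.Helper35.AM

section gg

variable {B : Type} {M : CoxeterMatrix B} {L : M.Group → ℤ} {H : Type} [Ring H] [Algebra LP H]

/-! Piece GG-a -/

/-- The expansion.
PROOF. `T p * T (e d) * T r = T (p e) * T (d r) = T z * T (wJ e c) * T (wJ d c) * T z'`,
`T (wJ e c) = T (xe (m - 1)) * T c`, `T (wJ d c) = T c * T (ye (m' - 1))` (`xe_top`, `ye_top`,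
`xe_len`), `T_sq_C`, then `TC_top` and in the sum over `i` also `CT_top`. `T z * T (xe i) =
T (z * xe i)` (`len_XR_mul`), etc. -/
theorem gg_id (D : KLD M L H) (hL : IsWeight M L) {e d c : B} {p r z z' : M.Group}
    (h : Pres M e d c p r z z') (h2 : len M (sm M e * sm M d) = 2) :
    D.T p * D.T (sm M e * sm M d) * D.T r =
      KLD.xi (L := L) c • (D.T z * D.C (wJ M e c) * D.T (sm M c * (sm M d * r))) -
      (∑ i ∈ Finset.range (M e c - 1),
        (KLD.xi (L := L) c * qq (L (xe M e c i * sm M c) - L (wJ M e c))) •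
          (D.T (z * xe M e c i) * D.C (wJ M d c) * D.T z')) +
      (∑ i ∈ Finset.range (M e c - 1), ∑ j ∈ Finset.range (M d c - 1),
        (KLD.xi (L := L) c * qq (L (xe M e c i * sm M c) - L (wJ M e c)) *
          qq (L (xe M d c j * sm M c) - L (wJ M d c))) •
          (D.T (z * xe M e c i) * D.C (sm M c) * D.T (ye M d c j * z'))) +
      qq (-2 * L (sm M c)) •
        (D.T (z * xe M e c (M e c - 1)) * D.T (sm M c * (sm M d * r))) := by
  have m1 := h.f1.two
  have m2 := h.f2.two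
  set X := xe M e c (M e c - 1) with hX
  set Y := ye M d c (M d c - 1) with hY
  have lX : len M X = M e c - 1 := xe_len h.f1 (by omega)
  have lY : len M Y = M d c - 1 := ye_len h.f2 (by omega)
  have hXc : X * sm M c = wJ M e c := xe_top h.f1
  have hcY : sm M c * Y = wJ M d c := ye_top h.f2
  have hwz := len_XR_mul h.zx (wJ_mem (M := M) e c)
  have hwz' := len_mul_XL (wJ_mem (M := M) d c) h.zl
  rw [h.f1.lw] at hwz
  rw [h.f2.lw] at hwz'
  have hlp := h.lp
  have hlr := h.lr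
  have t1 : D.T (sm M e * sm M d) = D.T (sm M e) * D.T (sm M d) :=
    D.T_mul _ _ (by rw [h2, len_sm, len_sm])
  have t2 : D.T p * D.T (sm M e) = D.T z * (D.T X * D.T (sm M c)) := by
    rw [← D.T_mul p (sm M e) (by rw [h.pe, hwz, len_sm]; omega), h.pe,
      D.T_mul z _ (by rw [hwz, h.f1.lw]), ← hXc,
      D.T_mul X _ (by rw [hXc, h.f1.lw, lX, len_sm]; omega)]
  have t3 : D.T (sm M d) * D.T r = D.T (sm M c) * D.T Y * D.T z' := by
    rw [← D.T_mul (sm M d) r (by rw [h.dr, hwz', len_sm]; omega), h.dr,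
      D.T_mul _ z' (by rw [hwz', h.f2.lw]), ← hcY,
      D.T_mul _ Y (by rw [hcY, h.f2.lw, lY, len_sm]; omega)]
  have t4 : D.T z * D.T X = D.T (z * X) := (D.T_mul _ _ (len_XR_mul h.zx (xe_mem _))).symm
  have t5 : D.T Y * D.T z' = D.T (sm M c * (sm M d * r)) := by
    rw [h.cdr]
    exact (D.T_mul _ _ (len_mul_XL (ye_mem _) h.zl)).symm
  have e0 : D.T p * D.T (sm M e * sm M d) * D.T r =
      D.T z * (D.T X * (D.T (sm M c) * D.T (sm M c)) * D.T Y) * D.T z' := by
    have e1 : D.T p * D.T (sm M e * sm M d) * D.T r =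
        (D.T p * D.T (sm M e)) * (D.T (sm M d) * D.T r) := by
      rw [t1]; simp only [mul_assoc]
    rw [e1, t2, t3]
    simp only [mul_assoc]
  have e2 : D.T z * (D.T X * D.C (sm M c) * D.T Y) * D.T z' =
      D.T z * D.C (wJ M e c) * D.T (sm M c * (sm M d * r)) -
      ∑ i ∈ Finset.range (M e c - 1), qq (L (xe M e c i * sm M c) - L (wJ M e c)) •
        (D.T (z * xe M e c i) * (D.C (sm M c) * D.T Y) * D.T z') := by
    rw [hX, TC_top D hL h.f1, sub_mul, mul_sub, sub_mul, Finset.sum_mul, Finset.mul_sum,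
      Finset.sum_mul]
    congr 1
    · rw [← t5]; simp only [mul_assoc]
    · refine Finset.sum_congr rfl fun i _ => ?_
      rw [D.T_mul z _ (len_XR_mul h.zx (xe_mem i)), smul_mul_assoc, mul_smul_comm, smul_mul_assoc]
      simp only [mul_assoc]
  have e3 : ∀ i, D.T (z * xe M e c i) * (D.C (sm M c) * D.T Y) * D.T z' =
      D.T (z * xe M e c i) * D.C (wJ M d c) * D.T z' -
      ∑ j ∈ Finset.range (M d c - 1), qq (L (xe M d c j * sm M c) - L (wJ M d c)) •
        (D.T (z * xe M e c i) * D.C (sm M c) * D.T (ye M d c j * z')) := by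
    intro i
    rw [hY, CT_top D hL h.f2, mul_sub, sub_mul, Finset.mul_sum, Finset.sum_mul]
    congr 1
    refine Finset.sum_congr rfl fun j _ => ?_
    rw [D.T_mul _ z' (len_mul_XL (ye_mem j) h.zl), mul_smul_comm, smul_mul_assoc]
    simp only [mul_assoc]
  have e4 : D.T z * (D.T X * (D.T (sm M c) * D.T (sm M c)) * D.T Y) * D.T z' =
      KLD.xi (L := L) c • (D.T z * (D.T X * D.C (sm M c) * D.T Y) * D.T z') +
        qq (-2 * L (sm M c)) • (D.T (z * X) * D.T (sm M c * (sm M d * r))) := by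
    rw [T_sq_C D hL c, mul_add, add_mul, mul_add, add_mul, mul_smul_comm, smul_mul_assoc,
      mul_smul_comm, smul_mul_assoc, mul_smul_comm, smul_mul_assoc, mul_smul_comm, smul_mul_assoc,
      mul_one, ← t4, ← t5]
    simp only [mul_assoc]
  rw [e0, e4, e2, smul_sub, Finset.smul_sum]
  congr 1
  rw [sub_add]
  congr 1
  rw [← Finset.sum_sub_distrib]
  refine Finset.sum_congr rfl fun i _ => ?_
  rw [e3, smul_sub, smul_sub, Finset.smul_sum, Finset.smul_sum, smul_smul]
  congr 1
  refine Finset.sum_congr rfl fun j _ => ?_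
  rw [smul_smul, smul_smul, mul_assoc]

variable {D : KLD M L H} {β : B → Bool} {la : M.Group → ℕ}
variable {hv : M.Group → Prop} {A : Type} [AddCommGroup A]
variable {F : Lf D hv A} {κ T0 : ℤ} {N : ℕ} {G : M.Group → M.Group → AddSubgroup A}

/-! Piece GG-b -/

/-- PROOF. `T w = T y * T k`, `T k * C wJ = qq (L k) • C wJ` (`T_mul_wJ`), `hI` for the piece
`{d, c}`, `la wJ = L wJ`. -/
theorem g_E (hC : Ctx β la F κ T0 N G) {n : ℕ} (hI : IH β F la κ G n) {d c : B}
    (hf : Fin2 M d c) {w y k z' : M.Group} (hy : y ∈ XR M ({d, c} : Set B))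
    (hk : k ∈ par M ({d, c} : Set B)) (hw : w = y * k) (hz : z' ∈ XL M ({d, c} : Set B))
    (hn : len M w + M d c + len M z' < n) :
    D.T w * D.C (wJ M d c) * D.T z' ∈ F.Lam (κ - L (wJ M d c) + L k) := by
  have hwl : len M w = len M y + len M k := by rw [hw]; exact len_XR_mul hy hk
  have h1 := hI {d, c} (Sp_pair β d c) y hy _ (wJ_mem d c) z' hz (by rw [hf.lw]; omega)
  unfold Clm at h1
  rw [hC.dat.la_wJ hf] at h1
  have e1 : D.T w * D.C (wJ M d c) * D.T z' = qq (L k) • (D.T y * D.C (wJ M d c) * D.T z') := by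
    rw [hw, D.T_mul y k (len_XR_mul hy hk), mul_assoc (D.T y), T_mul_wJ D hC.dat.wt hf hk,
      mul_smul_comm, smul_mul_assoc]
  rw [e1]
  have h2 := F.smul (Dle.qq (L k)) h1.1
  rwa [add_comm] at h2

/-- PROOF. `g_E` with `w = y k` (`exists_XR`), not `dR k c`: `L_no`. -/
theorem g_E1 (hC : Ctx β la F κ T0 N G) {n : ℕ} (hI : IH β F la κ G n) {d c : B}
    (hf : Fin2 M d c) {w z' : M.Group} (hw : ¬ dR M w c) (hz : z' ∈ XL M ({d, c} : Set B))
    (hn : len M w + M d c + len M z' < n) :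
    D.T w * D.C (wJ M d c) * D.T z' ∈ F.Lam (κ - L (sm M c)) := by
  obtain ⟨y, hy, k, hk, hwy⟩ := exists_XR ({d, c} : Set B) w
  have h1 := g_E hC hI hf hy hk hwy hz hn
  have hk' : ¬ dR M k c := by
    intro h2
    apply hw
    rw [hwy]
    exact (dR_XR hy hk (by simp)).2 h2
  have h3 := L_no hC.dat.wt hf hk hk'
  exact F.mono (by omega) h1

/-- PROOF. `hI` for `{d, c}`. -/
theorem g_E0 (hC : Ctx β la F κ T0 N G) {n : ℕ} (hI : IH β F la κ G n) {d c : B}
    (hf : Fin2 M d c) {w z' : M.Group} (hw : w ∈ XR M ({d, c} : Set B))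
    (hz : z' ∈ XL M ({d, c} : Set B)) (hn : len M w + M d c + len M z' < n) :
    D.T w * D.C (wJ M d c) * D.T z' ∈ F.Lam (κ - L (wJ M d c)) ∧
      F.ld (κ - L (wJ M d c)) (D.T w * D.C (wJ M d c) * D.T z') ∈
        G (w * wJ M d c) (wJ M d c * z') := by
  have h := hI {d, c} (Sp_pair β d c) w hw _ (wJ_mem d c) z' hz (by rw [hf.lw]; exact hn)
  unfold Clm at h
  rwa [hC.dat.la_wJ hf] at h

/-- PROOF. As `g_E`, on the other side. -/
theorem g_F (hC : Ctx β la F κ T0 N G) {n : ℕ} (hI : IH β F la κ G n) {e c : B}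
    (hf : Fin2 M e c) {z w k y : M.Group} (hz : z ∈ XR M ({e, c} : Set B))
    (hk : k ∈ par M ({e, c} : Set B)) (hy : y ∈ XL M ({e, c} : Set B)) (hw : w = k * y)
    (hn : len M z + M e c + len M w < n) :
    D.T z * D.C (wJ M e c) * D.T w ∈ F.Lam (κ - L (wJ M e c) + L k) := by
  have hwl : len M w = len M k + len M y := by rw [hw]; exact len_mul_XL hk hy
  have h1 := hI {e, c} (Sp_pair β e c) z hz _ (wJ_mem e c) y hy (by rw [hf.lw]; omega)
  unfold Clm at h1
  rw [hC.dat.la_wJ hf] at h1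
  have e1 : D.T z * D.C (wJ M e c) * D.T w = qq (L k) • (D.T z * D.C (wJ M e c) * D.T y) := by
    rw [hw, D.T_mul k y (len_mul_XL hk hy), ← mul_assoc, mul_assoc (D.T z),
      wJ_mul_T D hC.dat.wt hf hk, mul_smul_comm, smul_mul_assoc]
  rw [e1]
  have h2 := F.smul (Dle.qq (L k)) h1.1
  rwa [add_comm] at h2

/-- PROOF. `hI` for `{c}`, `Dat.la_sm`. -/
theorem g_X (hC : Ctx β la F κ T0 N G) {n : ℕ} (hI : IH β F la κ G n) {c : B}
    {w w' : M.Group} (hw : ¬ dR M w c) (hw' : ¬ dL M w' c)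
    (hn : len M w + 1 + len M w' < n) :
    D.T w * D.C (sm M c) * D.T w' ∈ F.Lam (κ - L (sm M c)) ∧
      F.ld (κ - L (sm M c)) (D.T w * D.C (sm M c) * D.T w') ∈
        G (w * sm M c) (sm M c * w') := by
  have m1 : w ∈ XR M ({c} : Set B) := by
    rw [mem_XR]
    intro s hs
    rw [Set.mem_singleton_iff.1 hs]
    exact hw
  have m2 : w' ∈ XL M ({c} : Set B) := by
    rw [mem_XL]
    intro s hs
    rw [Set.mem_singleton_iff.1 hs]
    exact hw'
  have h := hI {c} (Sp_single β c) w m1 _ (sm_mem_par (Set.mem_singleton c)) w' m2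
    (by rw [len_sm]; exact hn)
  unfold Clm at h
  rwa [hC.dat.la_sm c] at h

/-- The double sum. All products have the bound `κ - L e - L d`; the leading term is that of
`i = M e c - 2`, `j = M d c - 2`.
PROOF. `g_X` (`Pres.xi`, `Pres.yj`; the total length is at most `len p + len r - 1`). The
coefficient has degree at most
`L c + (L (xe i * c) - L wJ) + (L (xe' j * c) - L wJ')` (`xi_dle`), so the term is in
`Lam (κ - α i - α' j)`, `α i = L wJ - L (xe i * c) ≥ L e`, `α' j ≥ L d` (`al_le`). If `i ≤ m - 3` or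
`j ≤ m' - 3` then the sum is larger (`al_mid`): `Dec.of_lt`. For `i = m - 2`, `j = m' - 2`:
`z * xe i = p c`, `ye j * z' = c r` (`Pres.pc`, `Pres.cr`), and the leading term is in
`G (p c c) (c c r) = G p r`. -/
theorem g_XX (hC : Ctx β la F κ T0 N G) {e d c : B} {p r z z' : M.Group}
    (h : Pres M e d c p r z z') {n : ℕ} (hI : IH β F la κ G n)
    (hn : len M p + len M r < n) {i j : ℕ} (hi : i + 2 ≤ M e c)
    (hj : j + 2 ≤ M d c) {τ : ℤ} :
    Dec F (κ - L (sm M e) - L (sm M d)) (G p r) τ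
      ((KLD.xi (L := L) c * qq (L (xe M e c i * sm M c) - L (wJ M e c)) *
          qq (L (xe M d c j * sm M c) - L (wJ M d c))) •
          (D.T (z * xe M e c i) * D.C (sm M c) * D.T (ye M d c j * z'))) := by
  have hL := hC.dat.wt
  have hle := h.f1.two
  have hld := h.f2.two
  obtain ⟨x1, x2, -⟩ := h.xi (i := i) (by omega)
  obtain ⟨y1, y2, -⟩ := h.yj (j := j) (by omega)
  have hlp := h.lp
  have hlr := h.lr
  obtain ⟨g1, g2⟩ := g_X hC hI x2 y2 (by omega)
  have hxi := xi_dle hL c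
  have hpc := hL.pos c
  have hcoef : Dle (L (sm M c) + (L (xe M e c i * sm M c) - L (wJ M e c)) +
      (L (xe M d c j * sm M c) - L (wJ M d c)))
      (KLD.xi (L := L) c * qq (L (xe M e c i * sm M c) - L (wJ M e c)) *
        qq (L (xe M d c j * sm M c) - L (wJ M d c))) := (hxi.mul (Dle.qq _)).mul (Dle.qq _)
  have hmem := F.smul hcoef g1
  have hi1 := al_le hL h.f1 hi
  have hj1 := al_le hL h.f2 hj
  by_cases hc : i + 2 = M e c ∧ j + 2 = M d c
  · obtain ⟨hc1, hc2⟩ := hc
    have hi2 := al_top hL h.f1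
    have hj2 := al_top hL h.f2
    have e1 : M e c - 2 = i := by omega
    have e2 : M d c - 2 = j := by omega
    rw [e1] at hi2
    rw [e2] at hj2
    have e3 : L (sm M c) + (L (xe M e c i * sm M c) - L (wJ M e c)) +
      (L (xe M d c j * sm M c) - L (wJ M d c)) + (κ - L (sm M c)) =
        κ - L (sm M e) - L (sm M d) := by rw [hi2, hj2]; ring
    have hld := F.ldsmul hcoef g1
    rw [e3] at hmem hld
    refine Dec.main hmem ?_
    rw [hld]
    have e4 : z * xe M e c i * sm M c = p := by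
      rw [← e1, ← h.pc, mul_assoc, sm_sm, mul_one]
    have e5 : sm M c * (ye M d c j * z') = r := by
      rw [← e2, ← h.cr, sm_cancel]
    rw [e4, e5] at g2
    exact AddSubgroup.zsmul_mem _ g2 _
  · refine Dec.of_lt hmem ?_
    have hlt : i + 3 ≤ M e c ∨ j + 3 ≤ M d c := by omega
    rcases hlt with h3 | h3
    · have h4 := al_mid hL h.f1 h3
      linarith
    · have h4 := al_mid hL h.f2 h3
      linarith

/-! Piece GG-c: blocks -/

/-- PROOF. `g_E0`, `g_E1`, `g_E` (with `k = sm d` if `z * xe 2 = y * sm d`). The total length is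
at most `len p + len r`. Let `α i = L (wJ e g) - L (xe i * g)`; the coefficient has degree at
most `L g - α i`. `i = 0`: `α 0 ≥ 3 L e + L g` (`wt5`), `g_E1`: degree
`κ - L g + L g - α 0`. `i = 1`: `α 1 ≥ 2 L e + L g`, `g_E1`: `κ - α 1 < κ - L e - L d` as
`L d ≤ L e`. `i = 2 ≤ m - 3`: `α 2 ≥ L e + L g` (`al_mid`), and the product is in
`Lam (κ - L (wJ d g) + L d)`, with `L (wJ d g) ≥ 3 L d + 2 L g`. `i ≥ 3`: `α i ≥ L e`,
`Lam (κ - L (wJ d g))`. -/
theorem gB_E (hC : Ctx β la F κ T0 N G) {e d g : B} {p r z z' : M.Group}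
    (h : CfB M e d g p r z z') (hle : L (sm M d) ≤ L (sm M e)) {n : ℕ}
    (hI : IH β F la κ G n) (hn : len M p + len M r < n) {i : ℕ} (hi : i + 2 ≤ M e g) :
    (KLD.xi (L := L) g * qq (L (xe M e g i * sm M g) - L (wJ M e g))) •
      (D.T (z * xe M e g i) * D.C (wJ M d g) * D.T z') ∈
        F.Lam (κ - L (sm M e) - L (sm M d) - 1) := by
  have hL := hC.dat.wt
  have hLe := hL.pos e
  have hLd := hL.pos d
  have hLg := hL.pos g
  have hw := wt5 hL h.pr.f1 h.m5
  have hw' := wt5 hL h.pr.f2 h.m5'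
  have hlp := h.pr.lp
  have hlr := h.pr.lr
  obtain ⟨hx1, hx2, -⟩ := h.pr.xi (i := i) (by omega)
  have hlen : len M (z * xe M e g i) + M d g + len M z' < n := by omega
  have hco : Dle (L (sm M g) + (L (xe M e g i * sm M g) - L (wJ M e g)))
      (KLD.xi (L := L) g * qq (L (xe M e g i * sm M g) - L (wJ M e g))) :=
    (xi_dle hL g).mul (Dle.qq _)
  have key : ∀ m : ℤ, D.T (z * xe M e g i) * D.C (wJ M d g) * D.T z' ∈ F.Lam m →
      L (sm M g) + (L (xe M e g i * sm M g) - L (wJ M e g)) + m ≤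
        κ - L (sm M e) - L (sm M d) - 1 →
      (KLD.xi (L := L) g * qq (L (xe M e g i * sm M g) - L (wJ M e g))) •
        (D.T (z * xe M e g i) * D.C (wJ M d g) * D.T z') ∈
          F.Lam (κ - L (sm M e) - L (sm M d) - 1) :=
    fun m hm hle => F.mono hle (F.smul hco hm)
  rcases Nat.lt_or_ge i 2 with hi2 | hi2
  · refine key _ (g_E1 hC hI h.pr.f2 hx2 h.pr.zl hlen) ?_
    rcases Nat.lt_or_ge i 1 with hi1 | hi1
    · obtain rfl : i = 0 := by omega
      rw [al_zero hL]
      omega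
    · obtain rfl : i = 1 := by omega
      rw [al_one hL h.pr.f1]
      omega
  · rcases Nat.lt_or_ge i 3 with hi3 | hi3
    · obtain rfl : i = 2 := by omega
      have hal := al_mid hL h.pr.f1 (i := 2) (by have := h.m5; omega)
      rcases h.k2 with hk | ⟨y, hy, hk⟩
      · exact key _ (g_E0 hC hI h.pr.f2 hk h.pr.zl hlen).1 (by omega)
      · exact key _ (g_E hC hI h.pr.f2 hy (sm_mem_par (by simp)) hk h.pr.zl hlen) (by omega)
    · have hal := al_le hL h.pr.f1 hi
      exact key _ (g_E0 hC hI h.pr.f2 (h.k3 i hi3 hi) h.pr.zl hlen).1 (by omega)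

/-- The leading terms for a block.
PROOF. `cfB`, `gg_id`. First part: `g_F` with `k = 1` (`CfB.R0`; total length
`len p + len r + 1`): degree `κ + L g - L (wJ e g)`, `wt5`, `L d ≤ L e`. Second part: `gB_E`,
`Dec.of_lt`. Third part: `g_XX`. Fourth part: `z * xe (m - 1) * R0` is reduced (`rd_four`, at least `4`
letters), of length `len p + len r`, so `T (z * xe (m - 1)) * T R0 ∈ Lam T0` by `hT`, and the
coefficient has degree `-2 L g ≤ -1`. -/
theorem gg_B (hC : Ctx β la F κ T0 N G) {e d g : B} {i : Bool} {p r : M.Group}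
    (hp : p ∈ XR M (blk β i)) (hr : r ∈ XL M (blk β i)) (he : e ∈ blk β i)
    (hd : d ∈ blk β i) (hg : g ∉ blk β i) (hne : e ≠ d)
    (hle : L (sm M d) ≤ L (sm M e)) (h1 : dR M (p * sm M e) g) (h2 : dL M (sm M d * r) g)
    (hI : IH β F la κ G (len M p + 2 + len M r)) (hT : TB F T0 (len M p + 2 + len M r)) :
    Dec F (κ - L (sm M e) - L (sm M d)) (G p r) (T0 - 1)
      (D.T p * D.T (sm M e * sm M d) * D.T r) := by
  have hb := hC.dat.big
  have hL := hC.dat.wt
  have hLe := hL.pos e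
  have hLd := hL.pos d
  have hLg := hL.pos g
  have hei : β e = i := he
  have hdi : β d = i := hd
  have hgi : β g ≠ i := hg
  have hpe : ¬ dR M p e := mem_XR.1 hp e he
  have hrd : ¬ dL M r d := mem_XL.1 hr d hd
  have hge : β g ≠ β e := fun h => hgi (by rw [h, hei])
  obtain ⟨z, z', h⟩ := cfB hb (by rw [hei, hdi]) hge hne hpe hrd h1 h2
  have hw := wt5 hL h.pr.f1 h.m5
  have h5 := h.m5
  have hlp := h.pr.lp
  have hlr := h.pr.lr
  have hed : len M (sm M e * sm M d) = 2 := by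
    have h3 : ¬ dR M (sm M e) d := by
      intro h3
      have h4 : len M (sm M e * sm M d) + 1 = len M (sm M e) := h3
      rw [len_sm] at h4
      have h6 : sm M e * sm M d = 1 := len_eq_zero.1 (by omega)
      have h7 : sm M e = sm M d := by
        rw [← sm_inv d]
        exact mul_eq_one_iff_eq_inv.1 h6
      exact hne (sm_inj h7)
    rw [not_dR.1 h3, len_sm]
  have hlR : len M (sm M g * (sm M d * r)) = len M r := by
    have h3 : len M (sm M g * (sm M d * r)) + 1 = len M (sm M d * r) := h2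
    have h4 := not_dL.1 hrd
    omega
  obtain ⟨hx1, -, -⟩ := h.pr.xi (i := M e g - 1) (by omega)
  rw [gg_id D hL h.pr hed]
  refine Dec.add (Dec.add (Dec.sub ?_ ?_) ?_) ?_
  · have h3 := g_F hC hI h.pr.f1 h.pr.zx (Subgroup.one_mem _) h.R0
      (one_mul _).symm (by omega)
    rw [L_one hL, add_zero] at h3
    exact Dec.of_lt (F.smul (xi_dle hL g) h3) (by omega)
  · refine Dec.sum _ fun j hj => ?_
    have hj' := Finset.mem_range.1 hj
    exact Dec.of_lt (gB_E hC h hle hI (by omega) (by omega)) (by omega)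
  · refine Dec.sum _ fun j hj => Dec.sum _ fun j' hj' => ?_
    have h3 := Finset.mem_range.1 hj
    have h4 := Finset.mem_range.1 hj'
    exact g_XX hC h.pr hI (by omega) (by omega) (by omega)
  · refine Dec.low ?_
    have h3 := rd_four hb (a := e) (b := g) (Ne.symm hge) h.pr.zx (xe_mem (M e g - 1))
      (by rw [xe_len h.pr.f1 (by omega)]; omega) h.R0
    rw [xe_len h.pr.f1 (by omega)] at h3
    have h4 : len M (z * xe M e g (M e g - 1) * (sm M g * (sm M d * r))) =
        len M (z * xe M e g (M e g - 1)) + len M (sm M g * (sm M d * r)) := by omega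
    rw [← D.T_mul _ _ h4]
    have h6 := hT (z * xe M e g (M e g - 1) * (sm M g * (sm M d * r)))
      (by
        intro h6
        rw [h6, len_one] at h3
        omega) (by omega)
    exact F.mono (by omega) (F.smul (Dle.qq _) h6)

/-- PROOF. `nr_B`: `v = e d`; `len v = 2` as `v` has length at least `2`; `L v = L e + L d`. If
`L d ≤ L e`: `gg_B`. If not: `gg_B` for `(r⁻¹, d e, p⁻¹)` and `Lfl F hC.inv` (`Ctx_fl`, `IH_fl`,
`TB_fl`, `Dec_fl`; `fl (T r⁻¹ * T (d e) * T p⁻¹) = T p * T (e d) * T r`; the group is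
`G r⁻¹⁻¹ p⁻¹⁻¹`-like: `(fun x y => G y⁻¹ x⁻¹) r⁻¹ p⁻¹ = G p r`). -/
theorem gg_B' (hC : Ctx β la F κ T0 N G) {i : Bool} {p v r : M.Group}
    (hp : p ∈ XR M (blk β i)) (hv' : v ∈ par M (blk β i)) (hr : r ∈ XL M (blk β i))
    (h2 : 2 ≤ len M v) (hl : len M (p * v * r) ≠ len M p + len M v + len M r)
    (hI : IH β F la κ G (len M p + len M v + len M r))
    (hT : TB F T0 (len M p + len M v + len M r)) :
    Dec F (κ - L v) (G p r) (T0 - 1) (D.T p * D.T v * D.T r) := by
  obtain ⟨e, he, d, hd, g, hg, hed, hv, h1, h3⟩ := nr_B hC.dat.big hp hv' h2 hr hl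
  have hb2 := rs_mul_le (M := M) (sm M e) (sm M d)
  have hlv : len M v = 2 := by
    rw [← hv, len_sm, len_sm] at hb2
    omega
  have hlv' : len M (sm M e * sm M d) = len M (sm M e) + len M (sm M d) := by
    rw [← hv, hlv, len_sm, len_sm]
  have hLv : L v = L (sm M e) + L (sm M d) := by
    rw [hv, hC.dat.wt.add _ _ hlv']
  rw [hlv] at hI hT
  rcases le_total (L (sm M d)) (L (sm M e)) with hle | hle
  · have h4 := gg_B hC hp hr he hd hg hed hle h1 h3 hI hT
    rw [hv] at hLv ⊢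
    rw [hLv, ← sub_sub]
    exact h4
  · have hn : len M r⁻¹ + 2 + len M p⁻¹ = len M p + 2 + len M r := by
      rw [len_inv, len_inv]
      omega
    have h1' : dL M (sm M e * p⁻¹) g := by
      have h5 := dL_inv.2 h1
      rwa [mul_inv_rev, sm_inv] at h5
    have h3' : dR M (r⁻¹ * sm M d) g := by
      have h5 := dR_inv.2 h3
      rwa [mul_inv_rev, sm_inv] at h5
    have hI' : IH β (Lfl F hC.inv) la κ (fun x y => G y⁻¹ x⁻¹) (len M r⁻¹ + 2 + len M p⁻¹) := by
      rw [hn]
      exact IH_fl hC.dat hI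
    have hT' : TB (Lfl F hC.inv) T0 (len M r⁻¹ + 2 + len M p⁻¹) := by
      rw [hn]
      exact TB_fl hT
    have h4 := gg_B (Ctx_fl hC) (inv_mem_XR.2 hr) (inv_mem_XL.2 hp) hd he hg hed.symm hle h3' h1'
      hI' hT'
    rw [Dec_fl, D.fl_mul, D.fl_mul, D.fl_T, D.fl_T, D.fl_T, inv_inv, inv_inv, mul_inv_rev, sm_inv,
      sm_inv, ← hv, ← mul_assoc] at h4
    rw [hLv]
    have h6 : κ - (L (sm M e) + L (sm M d)) = κ - L (sm M d) - L (sm M e) := by ring
    rw [h6]
    exact h4

/-! Piece GG-d: pairs, type I -/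

/-- PROOF. As `gB_E`; the coefficient has degree at most `L c - α i` with
`α i = L (wJ b c) - L (xe i * c)`. `i = 0`: `g_E1`, degree `κ - α 0`, `α 0 ≥ 2 L b + 2 L c`;
`i = 1`: `g_E1`, `κ - α 1`, `α 1 ≥ L b + 2 L c` (`wt5`). `2 ≤ i`: `CfI.k2`, `g_E0`: degree
`κ + L c - α i - L (wJ a c)`, `L (wJ a c) ≥ L a + L c` (`wt2`), and `α i ≥ L b + L c` if
`i ≤ m - 3`. For `i = m - 2`: `α i = L b`; if `M a c ≠ 2` use `wt3`. If `M a c = 2` then the degree is
`κ - L a - L b` and the leading term is in `G (z * xe (m - 2) * wJ a c) (wJ a c * z')`, where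
`z * xe (m - 2) = p c`, `wJ a c = c a`, so this is `G (p a) (a r)` (`Pres.pc`, `Pres.dr`). -/
theorem gI_E (hC : Ctx β la F κ T0 N G) {a b c : B} {p r z z' : M.Group}
    (h : CfI M a b c p r z z') (hlt : L (sm M a) < L (sm M c)) {n : ℕ}
    (hI : IH β F la κ G n) (hn : len M p + len M r < n) {i : ℕ} (hi : i + 2 ≤ M b c) {τ : ℤ} :
    Dec F (κ - L (sm M b) - L (sm M a)) (G (p * sm M a) (sm M a * r)) τ
      ((KLD.xi (L := L) c * qq (L (xe M b c i * sm M c) - L (wJ M b c))) •
        (D.T (z * xe M b c i) * D.C (wJ M a c) * D.T z')) := by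
  have hL := hC.dat.wt
  have hP := h.pr
  have pa := hL.pos a
  have pb := hL.pos b
  have pc := hL.pos c
  obtain ⟨w1, w2⟩ := wt5 hL hP.f1 h.m5
  have hco : Dle (L (sm M c) + (L (xe M b c i * sm M c) - L (wJ M b c)))
      (KLD.xi (L := L) c * qq (L (xe M b c i * sm M c) - L (wJ M b c))) :=
    (xi_dle hL c).mul (Dle.qq _)
  obtain ⟨x1, x2, -⟩ := hP.xi (i := i) (by omega)
  have hlp := hP.lp
  have hlr := hP.lr
  have hlen : len M (z * xe M b c i) + M a c + len M z' < n := by omega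
  by_cases hi2 : 2 ≤ i
  · have hk := h.k2 i hi2 hi
    obtain ⟨e1, e2⟩ := g_E0 hC hI hP.f2 hk hP.zl hlen
    have hw := wt2 hL hP.f2
    by_cases hi3 : i + 3 ≤ M b c
    · have hm := al_mid hL hP.f1 hi3
      exact Dec.of_lt (F.smul hco e1) (by omega)
    · have hi4 : i = M b c - 2 := by omega
      have hm := al_top hL hP.f1
      rw [← hi4] at hm
      by_cases hac : M a c = 2
      · have hw2 := wt2_eq hL hP.f2 hac
        have hdeg : κ - L (sm M b) - L (sm M a) =
            L (sm M c) + (L (xe M b c i * sm M c) - L (wJ M b c)) + (κ - L (wJ M a c)) := by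
          omega
        have hg1 : z * xe M b c i * wJ M a c = p * sm M a := by
          have hwj : wJ M a c = sm M c * sm M a := by
            rw [← sm_comm hac]
            unfold wJ
            rw [hac, rsA_succ, rsA_succ, rsA_zero, mul_one]
          have h9 := hP.pc
          rw [← hi4] at h9
          rw [← h9, hwj, mul_assoc, ← mul_assoc (sm M c), sm_sm, one_mul]
        rw [hg1, ← hP.dr] at e2
        rw [hdeg]
        refine Dec.main (F.smul hco e1) ?_
        rw [F.ldsmul hco e1]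
        exact AddSubgroup.zsmul_mem _ e2 _
      · have hw3 := wt3 hL hP.f2 hac
        exact Dec.of_lt (F.smul hco e1) (by omega)
  · have e1 := g_E1 hC hI hP.f2 x2 hP.zl hlen
    have hi01 : i = 0 ∨ i = 1 := by omega
    rcases hi01 with h0 | h0
    · have hm : L (xe M b c i * sm M c) = L (sm M c) := by
        rw [h0, xe_zero, one_mul]
      exact Dec.of_lt (F.smul hco e1) (by omega)
    · have hm : L (xe M b c i * sm M c) = L (sm M b) + L (sm M c) := by
        rw [h0]
        exact al_one hL hP.f1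
      exact Dec.of_lt (F.smul hco e1) (by omega)

/-- The leading terms for a pair, type I.
PROOF. `cfI`, `gg_id` (`e = b`, `d = a`). First part: `g_F` with `k = 1` or `k = sm b` (`CfI.R0`):
degree at most `κ + L c - L (wJ b c) + L b < κ - L a - L b` (`wt5`). Second part: `gI_E`. Third:
`g_XX`. Fourth: `crI0`, `Lat_TB`: `T P0 * T R0` is in `Lat (L b)` and in `Vl` of length
`len p + len r + 1`, its coordinate at `1` is `0` (`repr_TT_one`: `P0 R0 = p (b a) r`, and
`p (b a) r = 1` is impossible by `XR_unique`). -/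
theorem gg_I (hC : Ctx β la F κ T0 N G) {a b c : B} {p r : M.Group} (hab : β a ≠ β b)
    (hc : β c = β a) (hca : c ≠ a) (hlt : L (sm M a) < L (sm M c))
    (hp : p ∈ XR M ({a, b} : Set B)) (hr : r ∈ XL M ({a, b} : Set B))
    (h1 : dR M (p * sm M b) c) (h2 : dL M (sm M a * r) c)
    (hI : IH β F la κ G (len M p + 2 + len M r)) (hT : TB F T0 (len M p + 2 + len M r)) :
    Dec F (κ - L (sm M b) - L (sm M a)) (G p r ⊔ G (p * sm M a) (sm M a * r))
      (T0 + L (sm M b) - 2 * L (sm M c)) (D.T p * D.T (sm M b * sm M a) * D.T r) := by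
  have hL := hC.dat.wt
  have pa := hL.pos a
  have pb := hL.pos b
  have pc := hL.pos c
  obtain ⟨z, z', h⟩ := cfI hC.dat.big hab hc hca hp hr h1 h2
  have hP := h.pr
  obtain ⟨w1, w2⟩ := wt5 hL hP.f1 h.m5
  have hlp := hP.lp
  have hlr := hP.lr
  have hba : len M (sm M b * sm M a) = 2 := (len_ba hC.dat.big hab).1
  have h5 := h.m5
  have ht := hP.f2.two
  have hR : len M (sm M c * (sm M a * r)) = len M r := by
    have h3 := (hP.yj (j := M a c - 1) (by omega)).1
    rw [← hP.cdr] at h3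
    omega
  have hP0 : len M (z * xe M b c (M b c - 1)) = len M p := by
    have h3 := (hP.xi (i := M b c - 1) (by omega)).1
    omega
  rw [gg_id D hL hP hba]
  refine Dec.add (Dec.add (Dec.sub ?_ ?_) ?_) ?_
  · -- the first part
    have hn : len M z + M b c + len M (sm M c * (sm M a * r)) < len M p + 2 + len M r := by
      omega
    rcases h.R0 with h3 | ⟨-, h3⟩
    · have h4 := g_F hC hI hP.f1 hP.zx (Subgroup.one_mem _) h3
        (w := sm M c * (sm M a * r)) (one_mul _).symm hn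
      rw [L_one hL] at h4
      exact Dec.of_lt (F.smul (xi_dle hL c) h4) (by omega)
    · have h4 := g_F hC hI hP.f1 hP.zx (k := sm M b) (sm_mem_par (by simp)) h3
        (w := sm M c * (sm M a * r)) (sm_cancel b _).symm hn
      exact Dec.of_lt (F.smul (xi_dle hL c) h4) (by omega)
  · -- the second part
    refine Dec.sum _ fun i hi => ?_
    rw [Finset.mem_range] at hi
    exact (gI_E hC h hlt hI (by omega) (by omega)).mono le_rfl le_sup_right le_rfl
  · -- the third part
    refine Dec.sum _ fun i hi => Dec.sum _ fun j hj => ?_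
    rw [Finset.mem_range] at hi hj
    exact (g_XX hC hP hI (by omega) (by omega) (by omega)).mono le_rfl le_sup_left le_rfl
  · -- the fourth part
    have h3 := (crI0 D hL hC.dat.big hab hc hp hr h).1
    have h4 : D.T (z * xe M b c (M b c - 1)) * D.T (sm M c * (sm M a * r)) ∈
        Vl D.T (len M) (len M p + 2 + len M r) := by
      refine Vl_mono _ _ ?_ (D.T_mul_Vl _ (mem_Vl D.T (len M)
        (n := len M (sm M c * (sm M a * r)) + 1) (Nat.lt_succ_self _)))
      omega
    have h5 : D.T.repr (D.T (z * xe M b c (M b c - 1)) * D.T (sm M c * (sm M a * r))) 1 = 0 := by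
      classical
      rw [repr_TT_one, if_neg]
      intro h6
      have h7 : p * (sm M b * sm M a) = r⁻¹ * 1 := by
        rw [mul_one, ← mul_eq_one_iff_eq_inv, ← h6, ← hP.pec]
        simp only [mul_assoc]
        rw [← mul_assoc (sm M c) (sm M c), sm_sm, one_mul]
      have h8 := (XR_unique hp (inv_mem_XR.2 hr)
        (Subgroup.mul_mem _ (sm_mem_par (by simp)) (sm_mem_par (by simp)))
        (Subgroup.one_mem _) h7).2
      rw [h8, len_one] at hba
      omega
    have h6 := F.smul (Dle.qq (-2 * L (sm M c))) (Lat_TB hT h3 h4 h5)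
    refine Dec.low ?_
    rwa [show T0 + L (sm M b) - 2 * L (sm M c) = -2 * L (sm M c) + (L (sm M b) + T0) by ring]

/-- PROOF. `gg_I` for `(b, a)`, `r⁻¹`, `p⁻¹`, `Lfl F hC.inv`, as in `gg_B'`. -/
theorem gg_I' (hC : Ctx β la F κ T0 N G) {a b c : B} {p r : M.Group} (hab : β a ≠ β b)
    (hc : β c = β b) (hcb : c ≠ b) (hlt : L (sm M b) < L (sm M c))
    (hp : p ∈ XR M ({a, b} : Set B)) (hr : r ∈ XL M ({a, b} : Set B))
    (h1 : dR M (p * sm M b) c) (h2 : dL M (sm M a * r) c)
    (hI : IH β F la κ G (len M p + 2 + len M r)) (hT : TB F T0 (len M p + 2 + len M r)) :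
    Dec F (κ - L (sm M b) - L (sm M a)) (G p r ⊔ G (p * sm M b) (sm M b * r))
      (T0 + L (sm M a) - 2 * L (sm M c)) (D.T p * D.T (sm M b * sm M a) * D.T r) := by
  have hn : len M r⁻¹ + 2 + len M p⁻¹ = len M p + 2 + len M r := by
    rw [len_inv, len_inv]
    omega
  have h1' : dL M (sm M b * p⁻¹) c := by
    have h5 := dL_inv.2 h1
    rwa [mul_inv_rev, sm_inv] at h5
  have h3' : dR M (r⁻¹ * sm M a) c := by
    have h5 := dR_inv.2 h2
    rwa [mul_inv_rev, sm_inv] at h5
  have hI' : IH β (Lfl F hC.inv) la κ (fun x y => G y⁻¹ x⁻¹) (len M r⁻¹ + 2 + len M p⁻¹) := by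
    rw [hn]
    exact IH_fl hC.dat hI
  have hT' : TB (Lfl F hC.inv) T0 (len M r⁻¹ + 2 + len M p⁻¹) := by
    rw [hn]
    exact TB_fl hT
  have hp' : p⁻¹ ∈ XL M ({b, a} : Set B) := by
    rw [Set.pair_comm b a]
    exact inv_mem_XL.2 hp
  have hr' : r⁻¹ ∈ XR M ({b, a} : Set B) := by
    rw [Set.pair_comm b a]
    exact inv_mem_XR.2 hr
  have h4 := gg_I (Ctx_fl hC) (a := b) (b := a) (c := c) (p := r⁻¹) (r := p⁻¹) (Ne.symm hab) hc
    hcb hlt hr' hp' h3' h1' hI' hT'
  have e1 : (r⁻¹ * sm M b)⁻¹ = sm M b * r := by rw [mul_inv_rev, sm_inv, inv_inv]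
  have e2 : (sm M b * p⁻¹)⁻¹ = p * sm M b := by rw [mul_inv_rev, sm_inv, inv_inv]
  have e3 : (sm M a * sm M b)⁻¹ = sm M b * sm M a := by rw [mul_inv_rev, sm_inv, sm_inv]
  rw [Dec_fl, D.fl_mul, D.fl_mul, D.fl_T, D.fl_T, D.fl_T, e1, e2, e3, inv_inv, inv_inv,
    ← mul_assoc] at h4
  have h6 : κ - L (sm M b) - L (sm M a) = κ - L (sm M a) - L (sm M b) := by ring
  rw [h6]
  exact h4

end gg

end Pool.Agent.Helper63.LG
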