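import Pool.Agent.Helper63.LG.Wt

/-!
# Hecke algebras of finite dihedral subgroups
-/

namespace Pool.Agent.Helper63.LG

open Pool.Agent.Helper35.KL Pool.Agent.Helper35.AM

section hd

variable {B : Type} {M : CoxeterMatrix B} {L : M.Group → ℤ} {H : Type} [Ring H] [Algebra LP H]
variable (D : KLD M L H) {e c : B}

/-! Piece H-a -/

/-- PROOF. `T_sm_sq` and `C_sm`: `C c = T c + qq (-L c)`. -/
theorem T_sq_C (hL : IsWeight M L) (c : B) : D.T (sm M c) * D.T (sm M c) =
    KLD.xi (L := L) c • D.C (sm M c) + qq (-2 * L (sm M c)) • (1 : H) := by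
  rw [D.T_sm_sq, D.C_sm hL, smul_add, smul_smul, KLD.xi, sub_mul,
    ← LaurentPolynomial.T_add, ← LaurentPolynomial.T_add, add_neg_cancel, LaurentPolynomial.T_zero,
    sub_smul, sub_smul, one_smul,
    show -L (sm M c) + -L (sm M c) = -2 * L (sm M c) by ring]
  abel

theorem xi_dle (hL : IsWeight M L) (c : B) : Dle (L (sm M c)) (KLD.xi (L := L) c) := by
  have h := hL.pos c
  exact (Dle.qq _).sub ((Dle.qq _).mono (by omega))

/-- PROOF. `C_sm`. -/
theorem T_sm_eq (hL : IsWeight M L) (c : B) :
    D.T (sm M c) = D.C (sm M c) - qq (-L (sm M c)) • (1 : H) := by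
  rw [D.C_sm hL, add_sub_cancel_right]

/-- PROOF. Induction on `len k`; `T_mul_C`: `wJ` has the left descents `e`, `c` (`ye_top`, and
`wJ_symm`). -/
theorem T_mul_wJ (hL : IsWeight M L) (h : Fin2 M e c) {k : M.Group}
    (hk : k ∈ par M ({e, c} : Set B)) :
    D.T k * D.C (wJ M e c) = qq (L k) • D.C (wJ M e c) := by
  have hc : dL M (wJ M e c) c := by
    have h1 := ye_top h
    have h2 := ye_len h (i := M e c - 1) (by omega)
    have h3 := h.two
    have h4 := h.lw
    unfold dL
    rw [← h1] at h4 ⊢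
    rw [sm_cancel]
    omega
  have he : dL M (wJ M e c) e := by
    have h1 := ye_top h.symm
    have h2 := ye_len h.symm (i := M c e - 1) (by omega)
    have h3 := h.symm.two
    have h4 := h.symm.lw
    unfold dL
    rw [wJ_symm e c, ← h1] at *
    rw [sm_cancel]
    omega
  have key : ∀ (n : ℕ) (k : M.Group), len M k = n → k ∈ par M ({e, c} : Set B) →
      D.T k * D.C (wJ M e c) = qq (L k) • D.C (wJ M e c) := by
    intro n
    induction n with
    | zero =>
      intro k hk0 _
      rw [len_eq_zero] at hk0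
      rw [hk0, D.T_one, one_mul, L_one hL, qq_zero, one_smul]
    | succ n ih =>
      intro k hkn hk
      have hne : k ≠ 1 := by
        rintro rfl
        rw [len_one] at hkn
        omega
      obtain ⟨x, hx, hxk⟩ := exists_descL hk hne
      have hk' : sm M x * k ∈ par M ({e, c} : Set B) :=
        Subgroup.mul_mem _ (sm_mem_par hx) hk
      have h1 := ih (sm M x * k) (by omega) hk'
      have h2 : len M (sm M x * (sm M x * k)) = len M (sm M x * k) + 1 := by
        rw [sm_cancel]
        omega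
      have h3 := D.T_sm_mul h2
      rw [sm_cancel] at h3
      have h4 : L k = L (sm M x) + L (sm M x * k) := by
        have := L_up hL h2
        rwa [sm_cancel] at this
      have h5 : len M (sm M x * wJ M e c) + 1 = len M (wJ M e c) := by
        rcases hx with rfl | hx
        · exact he
        · rw [Set.mem_singleton_iff] at hx
          subst hx
          exact hc
      rw [← h3, mul_assoc, h1, mul_smul_comm, D.T_mul_C hL h5, smul_smul, h4,
        ← LaurentPolynomial.T_add, add_comm (L (sm M x))]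
  exact key _ k rfl hk

/-- PROOF. `fl` of the previous statement (`fl_mul`, `fl_T`, `fl_C`, `wJ_inv`, `L_inv`). -/
theorem wJ_mul_T (hL : IsWeight M L) (h : Fin2 M e c) {k : M.Group}
    (hk : k ∈ par M ({e, c} : Set B)) :
    D.C (wJ M e c) * D.T k = qq (L k) • D.C (wJ M e c) := by
  have h1 := congrArg D.fl (T_mul_wJ D hL h (Subgroup.inv_mem _ hk))
  rwa [D.fl_mul, map_smul, D.fl_T, D.fl_C, wJ_inv, inv_inv, L_inv hL] at h1

/-- PROOF. Downward induction on `len y ≤ M e c`: if `len y = M e c` then `y = wJ` (`eq_wJ_len`,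
`p_self`). Otherwise `y` has a left ascent in `{e, c}` (`eq_wJ'`), `p_desc`, `L_up`. -/
theorem p_wJ (hL : IsWeight M L) (h : Fin2 M e c) {y : M.Group}
    (hy : y ∈ par M ({e, c} : Set B)) : D.p y (wJ M e c) = qq (L y - L (wJ M e c)) := by
  have hc : dL M (wJ M e c) c := by
    have h1 := ye_top h
    have h2 := ye_len h (i := M e c - 1) (by omega)
    have h3 := h.two
    have h4 := h.lw
    unfold dL
    rw [← h1] at h4 ⊢
    rw [sm_cancel]
    omega
  have he : dL M (wJ M e c) e := by
    have h1 := ye_top h.symm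
    have h2 := ye_len h.symm (i := M c e - 1) (by omega)
    have h3 := h.symm.two
    have h4 := h.symm.lw
    unfold dL
    rw [wJ_symm e c, ← h1] at *
    rw [sm_cancel]
    omega
  have key : ∀ (n : ℕ) (y : M.Group), len M y + n = M e c → y ∈ par M ({e, c} : Set B) →
      D.p y (wJ M e c) = qq (L y - L (wJ M e c)) := by
    intro n
    induction n with
    | zero =>
      intro y hn hy
      have h1 := eq_wJ_len hy (by omega) h.m0
      rw [h1, D.p_self, sub_self, qq_zero]
    | succ n ih =>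
      intro y hn hy
      have h1 : ∃ x ∈ ({e, c} : Set B), ¬ dL M y x := by
        by_contra hcon
        push Not at hcon
        have h2 := (eq_wJ' hy h.ne (hcon e (by simp)) (hcon c (by simp))).2
        omega
      obtain ⟨x, hx, hxy⟩ := h1
      rw [not_dL] at hxy
      have h5 : len M (sm M x * wJ M e c) + 1 = len M (wJ M e c) := by
        rcases hx with rfl | hx
        · exact he
        · rw [Set.mem_singleton_iff] at hx
          subst hx
          exact hc
      rw [D.p_desc hL h5 hxy, ih (sm M x * y) (by omega) (Subgroup.mul_mem _ (sm_mem_par hx) hy),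
        ← LaurentPolynomial.T_add, L_up hL hxy]
      congr 1
      ring
  have h6 := len_le_wJ h hy
  exact key (M e c - len M y) y (by omega) hy

private theorem H2_TC (hL : IsWeight M L) (h : Fin2 M e c) {i : ℕ} (hi : i < M e c) :
    D.T (xe M e c i) * D.C (sm M c) =
      D.T (xe M e c i * sm M c) + qq (-L (sm M c)) • D.T (xe M e c i) := by
  rw [D.C_sm hL, mul_add, D.T_mul_sm (not_dR.1 (xe_not h hi)), mul_smul_comm, mul_one]

/-- PROOF. `C wJ = ∑ p y wJ • T y` over `y ∈ par M {e, c}` (`C_mem_HQ`, `mem_HQ`); these `y` are the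
`xe M e c i` and the `xe M e c i * sm M c`, `i < M e c` (`xe_all`), all different
(`xe_len`, `xe_not`). `T (xe i) * C c = T (xe i * c) + qq (-L c) • T (xe i)`, and
`L (xe i * c) - L c = L (xe i)`. -/
theorem C_wJ_R (hL : IsWeight M L) (h : Fin2 M e c) : D.C (wJ M e c) =
    ∑ i ∈ Finset.range (M e c), qq (L (xe M e c i * sm M c) - L (wJ M e c)) •
      (D.T (xe M e c i) * D.C (sm M c)) := by
  classical
  have hc : sm M c ∈ par M ({e, c} : Set B) := sm_mem_par (by simp)
  have hL2 : ∀ i < M e c, L (xe M e c i * sm M c) = L (xe M e c i) + L (sm M c) := by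
    intro i hi
    refine hL.add _ _ ?_
    rw [not_dR.1 (xe_not h hi), len_sm]
  have hdR : ∀ i < M e c, dR M (xe M e c i * sm M c) c := fun i hi => dR_mul.2 (xe_not h hi)
  rw [Finset.sum_congr rfl (fun i hi => by rw [H2_TC D hL h (Finset.mem_range.1 hi)])]
  apply D.T.repr.injective
  ext1 y
  rw [map_sum, Finsupp.finsetSum_apply]
  have hterm : ∀ i, D.T.repr (qq (L (xe M e c i * sm M c) - L (wJ M e c)) •
      (D.T (xe M e c i * sm M c) + qq (-L (sm M c)) • D.T (xe M e c i))) y =
      qq (L (xe M e c i * sm M c) - L (wJ M e c)) *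
        ((if xe M e c i * sm M c = y then 1 else 0) +
          qq (-L (sm M c)) * (if xe M e c i = y then 1 else 0)) := by
    intro i
    rw [map_smul, map_add, map_smul, Finsupp.smul_apply, Finsupp.add_apply, Finsupp.smul_apply,
      Module.Basis.repr_self, Module.Basis.repr_self, Finsupp.single_apply, Finsupp.single_apply,
      smul_eq_mul, smul_eq_mul]
  rw [Finset.sum_congr rfl (fun i _ => hterm i)]
  by_cases hy : y ∈ par M ({e, c} : Set B)
  · have hp := p_wJ D hL h hy
    unfold KLD.p at hp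
    rw [hp]
    by_cases hd : dR M y c
    · have hy' : y * sm M c ∈ par M ({e, c} : Set B) := Subgroup.mul_mem _ hy hc
      have hcc : y * sm M c * sm M c = y := by rw [mul_assoc, sm_sm, mul_one]
      have hd' : ¬ dR M (y * sm M c) c := by
        intro h1
        have h2 := dR_mul.1 h1
        exact h2 hd
      obtain ⟨i0, hi0, h1⟩ := xe_all h hy' hd'
      have h2 : xe M e c i0 * sm M c = y := by rw [← h1, hcc]
      rw [Finset.sum_eq_single_of_mem i0 (Finset.mem_range.2 hi0)]
      · rw [if_pos h2, if_neg, mul_zero, add_zero, mul_one, h2]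
        intro h3
        rw [← h3] at hd
        exact xe_not h hi0 hd
      · intro i hi hne
        rw [if_neg, if_neg, mul_zero, add_zero, mul_zero]
        · intro h3
          rw [← h3] at hd
          exact xe_not h (Finset.mem_range.1 hi) hd
        · intro h3
          rw [← h2] at h3
          have h4 := congrArg (len M) (mul_right_cancel h3)
          rw [xe_len h (Finset.mem_range.1 hi).le, xe_len h hi0.le] at h4
          exact hne h4
    · obtain ⟨i0, hi0, h1⟩ := xe_all h hy hd
      rw [Finset.sum_eq_single_of_mem i0 (Finset.mem_range.2 hi0)]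
      · rw [if_neg, if_pos h1.symm, mul_one, zero_add, ← LaurentPolynomial.T_add, hL2 i0 hi0, ← h1]
        · congr 1
          ring
        · intro h3
          rw [← h3] at hd
          exact hd (hdR i0 hi0)
      · intro i hi hne
        rw [if_neg, if_neg, mul_zero, add_zero, mul_zero]
        · intro h3
          rw [h1] at h3
          have h4 := congrArg (len M) h3
          rw [xe_len h (Finset.mem_range.1 hi).le, xe_len h hi0.le] at h4
          exact hne h4
        · intro h3
          rw [← h3] at hd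
          exact hd (hdR i (Finset.mem_range.1 hi))
  · have h1 := (mem_HQ D).1 (C_mem_HQ D (wJ_mem (M := M) e c)) y hy
    rw [h1]
    symm
    refine Finset.sum_eq_zero ?_
    intro i _
    rw [if_neg, if_neg, mul_zero, add_zero, mul_zero]
    · intro h3
      rw [← h3] at hy
      exact hy (xe_mem i)
    · intro h3
      rw [← h3] at hy
      exact hy (Subgroup.mul_mem _ (xe_mem i) hc)

/-- PROOF. `fl` of the previous statement (`xe_inv`). -/
theorem C_wJ_L (hL : IsWeight M L) (h : Fin2 M e c) : D.C (wJ M e c) =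
    ∑ i ∈ Finset.range (M e c), qq (L (xe M e c i * sm M c) - L (wJ M e c)) •
      (D.C (sm M c) * D.T (ye M e c i)) := by
  have h1 := congrArg D.fl (C_wJ_R D hL h)
  rw [D.fl_C, wJ_inv, map_sum] at h1
  rw [h1]
  refine Finset.sum_congr rfl ?_
  intro i _
  rw [map_smul, D.fl_mul, D.fl_C, D.fl_T, sm_inv, xe_inv]

/-- PROOF. The summand `i = M e c - 1` of `C_wJ_R` has coefficient `qq 0 = 1` (`xe_top`). -/
theorem TC_top (hL : IsWeight M L) (h : Fin2 M e c) :
    D.T (xe M e c (M e c - 1)) * D.C (sm M c) = D.C (wJ M e c) -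
      ∑ i ∈ Finset.range (M e c - 1), qq (L (xe M e c i * sm M c) - L (wJ M e c)) •
        (D.T (xe M e c i) * D.C (sm M c)) := by
  have h1 := C_wJ_R D hL h
  obtain ⟨m, hm⟩ : ∃ m, M e c = m + 1 := ⟨M e c - 1, by have := h.two; omega⟩
  have h2 := xe_top h
  have h3 : M e c - 1 = m := by omega
  rw [h3] at h2 ⊢
  rw [hm, Finset.sum_range_succ, h2, sub_self, qq_zero, one_smul] at h1
  rw [h1]
  abel

theorem CT_top (hL : IsWeight M L) (h : Fin2 M e c) :
    D.C (sm M c) * D.T (ye M e c (M e c - 1)) = D.C (wJ M e c) -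
      ∑ i ∈ Finset.range (M e c - 1), qq (L (xe M e c i * sm M c) - L (wJ M e c)) •
        (D.C (sm M c) * D.T (ye M e c i)) := by
  have h1 := C_wJ_L D hL h
  obtain ⟨m, hm⟩ : ∃ m, M e c = m + 1 := ⟨M e c - 1, by have := h.two; omega⟩
  have h2 := xe_top h
  have h3 : M e c - 1 = m := by omega
  rw [h3] at h2 ⊢
  rw [hm, Finset.sum_range_succ, h2, sub_self, qq_zero, one_smul] at h1
  rw [h1]
  abel

private theorem H2_comm (hL : IsWeight M L) {b c : B} (h : Fin2 M b c) (h2 : M b c = 2) :
    D.C (sm M b) * D.C (sm M c) = D.C (wJ M b c) := by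
  have h1 := C_wJ_R D hL h
  rw [h2, Finset.sum_range_succ, Finset.sum_range_succ, Finset.sum_range_zero, zero_add,
    al_zero hL, al_one hL h, wt2_eq hL h h2, xe_zero, xe_one, sub_self, qq_zero, one_smul,
    D.T_one, one_mul] at h1
  rw [h1, D.C_sm hL b, add_mul, smul_mul_assoc, one_mul,
    show L (sm M c) - (L (sm M b) + L (sm M c)) = -L (sm M b) by ring]
  abel

/-- The element `C` of a product of commuting generators.
PROOF. `wJ M b c = sm M b * sm M c` if `M b c = 2`; `C (b c) = T b T c + qq (-L b) T c + ...` by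
`C_wJ_R`, or: `C b * C c` is bar-invariant and congruent to `T (b c)` (`bar_unique'`). -/
theorem C_comm2 (hL : IsWeight M L) {b c : B} (h : Fin2 M b c) (h2 : M b c = 2) :
    D.C (sm M b) * D.C (sm M c) = D.C (wJ M b c) ∧ wJ M b c = sm M b * sm M c ∧
      D.C (sm M b) * D.C (sm M c) = D.C (sm M c) * D.C (sm M b) := by
  refine ⟨H2_comm D hL h h2, ?_, ?_⟩
  · unfold wJ
    rw [h2, rsA_succ, rsA_succ, rsA_zero, mul_one]
  · rw [H2_comm D hL h h2, H2_comm D hL h.symm (by rw [M.symmetric]; exact h2), wJ_symm]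

/-- Products of three elements. PROOF. `p`, `u`, `r` as below, `T p * T u * T r` has coordinate
`0` at `T 1`: `T p * T u = T (p u)`, `repr_TT_one`, `p u r = 1` gives `p u = r⁻¹ * 1`, and
`XR_unique` gives `u = 1`. -/
theorem TTT_one {X : Set B} {p u r : M.Group} (hp : p ∈ XR M X) (hu : u ∈ par M X) (hr : r ∈ XL M X)
    (h1 : u ≠ 1) : D.T.repr (D.T p * D.T u * D.T r) 1 = 0 := by
  classical
  rw [← D.T_mul p u (len_XR_mul hp hu), repr_TT_one, if_neg]
  intro h2
  have h3 : p * u = r⁻¹ * 1 := by
    rw [mul_one]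
    exact mul_eq_one_iff_eq_inv.1 h2
  exact h1 (XR_unique hp (inv_mem_XR.2 hr) hu (Subgroup.one_mem _) h3).2

end hd

section hd2

variable {B : Type} {M : CoxeterMatrix B} {L : M.Group → ℤ} {H : Type} [Ring H] [Algebra LP H]
variable {D : KLD M L H} {β : B → Bool} {la : M.Group → ℕ} (hD : Dat D β la)
variable {X : Set B} {e c : B}

private theorem la_par_single {s : B} {x : M.Group} (hx : x ∈ par M ({s} : Set B)) :
    x = 1 ∨ x = sm M s := by
  rw [par, Set.image_singleton] at hx
  refine Subgroup.closure_induction (p := fun x _ => x = 1 ∨ x = sm M s) ?_ ?_ ?_ ?_ hx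
  · intro y hy
    exact Or.inr (Set.mem_singleton_iff.1 hy)
  · exact Or.inl rfl
  · rintro y z _ _ (rfl | rfl) (rfl | rfl)
    · exact Or.inl (mul_one 1)
    · exact Or.inr (one_mul _)
    · exact Or.inr (mul_one _)
    · exact Or.inl (sm_sm s)
  · rintro y _ (rfl | rfl)
    · exact Or.inl inv_one
    · exact Or.inr (sm_inv s)

private theorem p_repr_T_one (D : KLD M L H) (y : H) :
    D.T.repr y 1 = (D.C.repr y).sum fun z a => a * D.p 1 z := by
  conv_lhs => rw [← D.C.linearCombination_repr y]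
  rw [Finsupp.linearCombination_apply, Finsupp.sum, Finsupp.sum, map_sum, Finsupp.finsetSum_apply]
  refine Finset.sum_congr rfl fun z _ => ?_
  rw [map_smul, Finsupp.smul_apply, smul_eq_mul, KLD.p]

private theorem p_repr_C_mul (D : KLD M L H) (u : M.Group) (y : H) (z : M.Group) :
    D.C.repr (D.C u * y) z = (D.C.repr y).sum fun w a => a * D.h u w z := by
  conv_lhs => rw [← D.C.linearCombination_repr y]
  rw [Finsupp.linearCombination_apply, Finsupp.sum, Finsupp.sum, Finset.mul_sum, map_sum,
    Finsupp.finsetSum_apply]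
  refine Finset.sum_congr rfl fun w _ => ?_
  rw [mul_smul_comm, map_smul, Finsupp.smul_apply, smul_eq_mul, KLD.h]

private theorem p_dle_gen (hl : Loc D X la) {n : ℤ} {u v : M.Group} (hu : u ∈ par M X)
    (hv : v ∈ par M X) (h : D.C u * D.T v⁻¹ ∈ Lat D.T n) : Dle (n - la u) (D.p v u) := by
  rw [KLD.p, repr_T_eq, p_repr_T_one, Finsupp.sum]
  refine Dle.sum _ fun z hz => ?_
  have hz0 := Finsupp.mem_support_iff.1 hz
  have hzX : z ∈ par M X := by
    by_contra hne
    exact hz0 ((mem_HQ_C D).1 (mul_mem_HQ D (C_mem_HQ D hu)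
      (T_mem_HQ D (Subgroup.inv_mem _ hv))) z hne)
  have hla : la u ≤ la z := by
    rw [p_repr_C_mul, Finsupp.sum] at hz0
    obtain ⟨w, hw, hne⟩ := Finset.exists_ne_zero_of_sum_ne_zero hz0
    have hwX : w ∈ par M X := by
      by_contra hwX
      exact (Finsupp.mem_support_iff.1 hw) ((mem_HQ_C D).1
        (T_mem_HQ D (Subgroup.inv_mem _ hv)) w hwX)
    exact (hl.p4 u hu w hwX z (fun h0 => hne (by rw [h0, mul_zero]))).1
  exact (repr_C_of_Lat D h z).mul_of_eq (hl.p1 z hzX) (by omega)

include hD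

/-! Piece H-b -/

/-- The value of `la` at a generator.
PROOF. `h s s s = qq (L s) + qq (-L s)` (`C_mul_C`), so `L s ≤ la s` by `Loc.dle` for the piece
`{s}` (`hD.locS (Sp_single β s)`). The other inequality: `Loc.p12` with `I = P = {s}` gives
`x, y ∈ par M {s}` with `gc D la x y s ≠ 0`; `x, y` are `1` or `s` (`par M {s}` has two elements);
`h 1 y s`, `h x 1 s` are `0` or `1`, and `la s ≥ L s > 0`; so `x = y = s`. -/
theorem Dat.la_sm (s : B) : (la (sm M s) : ℤ) = L (sm M s) := by
  classical
  have hl := hD.locS (Sp_single β s)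
  have hs : sm M s ∈ par M ({s} : Set B) := sm_mem_par rfl
  have hL := hD.wt
  have hpos := hL.pos s
  have hss : D.h (sm M s) (sm M s) (sm M s) = qq (L (sm M s)) + qq (-L (sm M s)) := by
    rw [KLD.h, D.C_mul_C hL (by rw [sm_sm, len_one, len_sm]), map_smul, Finsupp.smul_apply,
      Module.Basis.repr_self, Finsupp.single_eq_same, smul_eq_mul, mul_one]
  apply le_antisymm
  · obtain ⟨x, _, y, _, hx, hy, hg⟩ := hl.p12 {s} (sm M s) hs hs
    have hge : L (sm M s) ≤ la (sm M s) := by
      by_contra hlt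
      have h1 := hl.dle _ hs _ hs _ hs (L (sm M s)) (by omega)
      rw [hss, cf_add, cf_qq, cf_qq, if_pos rfl, if_neg (by omega)] at h1
      omega
    rw [gc] at hg
    rcases la_par_single hx with rfl | rfl
    · exfalso
      apply hg
      rw [KLD.h, D.C_one, one_mul, Module.Basis.repr_self, Finsupp.single_apply]
      split_ifs
      · rw [cf_one, if_neg (by omega)]
      · rw [cf_zero]
    · rcases la_par_single hy with rfl | rfl
      · exfalso
        apply hg
        rw [KLD.h, D.C_one, mul_one, Module.Basis.repr_self, Finsupp.single_apply]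
        split_ifs
        · rw [cf_one, if_neg (by omega)]
        · rw [cf_zero]
      · rw [hss, cf_add, cf_qq, cf_qq] at hg
        by_contra hlt
        apply hg
        rw [if_neg (by omega), if_neg (by omega), add_zero]
  · by_contra hlt
    have h1 := hl.dle _ hs _ hs _ hs (L (sm M s)) (by omega)
    rw [hss, cf_add, cf_qq, cf_qq, if_pos rfl, if_neg (by omega)] at h1
    omega

/-- PROOF. `{e, c}` is a piece (`Sp_pair`). `p 1 wJ = qq (-L wJ)` (`p_wJ`), so `la wJ ≤ L wJ` by
`Loc.p1`. `C wJ * C wJ = ∑ p y wJ • T y * C wJ = ∑ qq (2 L y - L wJ) • C wJ`, over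
`y ∈ par M {e, c}`, so `h wJ wJ wJ` has a nonzero coefficient in degree `L wJ` (only `y = wJ`:
`L y < L wJ` for the others; use `C_wJ_R` to have a sum over a finite set) and
`L wJ ≤ la wJ` by `Loc.dle`. -/
theorem Dat.la_wJ (h : Fin2 M e c) : (la (wJ M e c) : ℤ) = L (wJ M e c) := by
  have hl := hD.locS (Sp_pair β e c)
  have hL := hD.wt
  have hw : wJ M e c ∈ par M ({e, c} : Set B) := ye_mem (M := M) (e := e) (c := c) (M e c)
  have hdc : dL M (wJ M e c) c := by
    rw [← ye_top h]
    have h1 : ¬ dL M (ye M e c (M e c - 1)) c := ye_not h (by have := h.two; omega)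
    rw [not_dL] at h1
    rw [dL, sm_cancel, h1]
  apply le_antisymm
  · by_contra hlt
    have h1 := hl.p1 _ hw (-L (wJ M e c)) (by omega)
    rw [p_wJ D hL h (Subgroup.one_mem _), L_one hL, zero_sub, cf_qq, if_pos rfl] at h1
    exact one_ne_zero h1
  · by_contra hlt
    have h1 := hl.dle _ hw _ hw _ hw (L (wJ M e c)) (by omega)
    have h2 : D.h (wJ M e c) (wJ M e c) (wJ M e c) = ∑ i ∈ Finset.range (M e c),
        qq (L (xe M e c i * sm M c) - L (wJ M e c)) *
          ((qq (L (sm M c)) + qq (-L (sm M c))) * qq (L (xe M e c i))) := by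
      have e2 := congrArg (fun y => y * D.C (wJ M e c)) (C_wJ_R D hL h)
      rw [KLD.h, e2, Finset.sum_mul, map_sum, Finsupp.finsetSum_apply]
      refine Finset.sum_congr rfl fun i _ => ?_
      rw [smul_mul_assoc, mul_assoc, D.C_mul_C hL hdc, mul_smul_comm, T_mul_wJ D hL h (xe_mem i),
        map_smul, map_smul, map_smul, Finsupp.smul_apply, Finsupp.smul_apply, Finsupp.smul_apply,
        Module.Basis.repr_self, Finsupp.single_eq_same, smul_eq_mul, smul_eq_mul, smul_eq_mul,
        mul_one]
    have h3 : ∀ i, qq (L (xe M e c i * sm M c) - L (wJ M e c)) *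
        ((qq (L (sm M c)) + qq (-L (sm M c))) * qq (L (xe M e c i))) =
        qq (L (xe M e c i * sm M c) - L (wJ M e c) + L (sm M c) + L (xe M e c i)) +
        qq (L (xe M e c i * sm M c) - L (wJ M e c) - L (sm M c) + L (xe M e c i)) := by
      intro i
      rw [qq, qq, qq, qq, qq, qq, sub_eq_add_neg (_ - _) (L (sm M c)), LaurentPolynomial.T_add,
        LaurentPolynomial.T_add, LaurentPolynomial.T_add, LaurentPolynomial.T_add]
      ring
    rw [h2, cf_sum] at h1
    have h4 : ∀ i ∈ Finset.range (M e c), 0 ≤ (qq (L (xe M e c i * sm M c) - L (wJ M e c)) *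
        ((qq (L (sm M c)) + qq (-L (sm M c))) * qq (L (xe M e c i)))).coeff
          (L (wJ M e c)) := by
      intro i _
      rw [h3, cf_add, cf_qq, cf_qq]
      split_ifs <;> norm_num
    have htwo := h.two
    have h5 := (Finset.sum_eq_zero_iff_of_nonneg h4).1 h1 (M e c - 1)
      (Finset.mem_range.2 (by omega))
    have h6 : L (wJ M e c) = L (xe M e c (M e c - 1)) + L (sm M c) := by
      rw [← xe_top h]
      refine hL.add _ _ ?_
      rw [len_sm]
      exact not_dR.1 (xe_not h (by omega))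
    rw [h3, cf_add, cf_qq, cf_qq, xe_top h, if_pos (by omega)] at h5
    have h7 : (0 : ℤ) ≤ if L (wJ M e c) - L (wJ M e c) - L (sm M c) +
        L (xe M e c (M e c - 1)) = L (wJ M e c) then 1 else 0 := by
      split_ifs <;> norm_num
    omega

/-- The degrees of the `p v u`.
PROOF. `p v u = T.repr (C u * T v⁻¹) 1` (`repr_T_eq`). `C u * T v⁻¹ ∈ Lat D.T (L v)` (expand
`C u` in the basis `T` (`C_Lat`), `TT_Lat'`, `L_inv`), so its coordinates in the basis `C` have
degree at most `L v` (`repr_C_of_Lat`). They vanish except at `z ∈ par M X` with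
`la u ≤ la z` (expand `T v⁻¹` in the basis `C`: `mem_HQ_C`, `T_mem_HQ`; `Loc.p4`, `h_mem`). And
`p 1 z` has degree at most `-la z` (`Loc.p1`). -/
theorem Dat.p_dle (hX : Sp β X) {u v : M.Group} (hu : u ∈ par M X) (hv : v ∈ par M X) :
    Dle (L v - la u) (D.p v u) := by
  refine p_dle_gen (hD.locS hX) hu hv ?_
  refine mul_Lat_of D ?_ (C_Lat D u) ?_
  · intro u' v' _ hv'
    have h1 : v' = v⁻¹ := by
      classical
      rw [Module.Basis.repr_self, Finsupp.single_apply] at hv'
      by_contra hne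
      exact hv' (if_neg fun e => hne e.symm)
    rw [h1]
    have h2 := TT_Lat' hD.wt D u' v⁻¹
    rwa [L_inv hD.wt] at h2
  · intro w
    classical
    rw [Module.Basis.repr_self, Finsupp.single_apply]
    split_ifs
    · exact Dle.one le_rfl
    · exact Dle.zero 0

/-- PROOF. `p_dle` with `v = u`, `p_self`. -/
theorem Dat.la_le (hX : Sp β X) {w : M.Group} (hw : w ∈ par M X) : (la w : ℤ) ≤ L w := by
  have h1 := hD.p_dle hX hw hw
  rw [KLD.p_self] at h1
  by_contra hlt
  have h2 := h1 0 (by omega)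
  rw [cf_one, if_pos rfl] at h2
  exact one_ne_zero h2

/-- PROOF. First let not `dR u s`. `C u * T s ∈ Lat D.T (L s - 1)`: `C u = T u + ∑ p y u • T y` with
`p y u` of degree at most `-1`, `T y * T s` is `T (y s)` or `T (y s) + xi s • T y`, and
`T u * T s = T (u s)`. As in `p_dle` the coordinates in the basis `C` have degree at most
`L s - 1` and `p (sm s) u` has degree at most `L s - 1 - la u`. If not `dL u s`: `p_inv`,
`dR_inv`, `Dat.inv`. -/
theorem Dat.p_sm (hX : Sp β X) {u : M.Group} (hu : u ∈ par M X) {s : B} (hs : s ∈ X)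
    (h : ¬ (dL M u s ∧ dR M u s)) : (D.p (sm M s) u).coeff (L (sm M s) - la u) = 0 := by
  have key : ∀ u ∈ par M X, ¬ dR M u s →
      (D.p (sm M s) u).coeff (L (sm M s) - la u) = 0 := by
    intro u hu hR
    have hsX : sm M s ∈ par M X := sm_mem_par hs
    have hpos := hD.wt.pos s
    have h1 : D.C u * D.T (sm M s)⁻¹ ∈ Lat D.T (L (sm M s) - 1) := by
      rw [sm_inv]
      have e1 : D.C u = D.T u + qq (-1) • (qq 1 • (D.C u - D.T u)) := by
        rw [smul_smul, ← LaurentPolynomial.T_add, neg_add_cancel, LaurentPolynomial.T_zero,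
          one_smul, add_sub_cancel]
      rw [e1, add_mul, smul_mul_assoc]
      refine AddSubgroup.add_mem _ ?_ ?_
      · rw [D.T_mul_sm (not_dR.1 hR)]
        intro w
        classical
        rw [Module.Basis.repr_self, Finsupp.single_apply]
        split_ifs
        · exact Dle.one (by omega)
        · exact Dle.zero _
      · have h2 : (qq 1 • (D.C u - D.T u)) * D.T (sm M s) ∈ Lat D.T (L (sm M s)) := by
          refine mul_Lat_of D ?_ ?_ ?_
          · intro u' v' _ hv'
            have h1 : v' = sm M s := by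
              classical
              rw [Module.Basis.repr_self, Finsupp.single_apply] at hv'
              by_contra hne
              exact hv' (if_neg fun e => hne e.symm)
            rw [h1]
            exact TT_Lat' hD.wt D u' (sm M s)
          · exact smul_Lat D.T (Dle.qq 1) (D.C_sub_T_neg u)
          · intro w
            classical
            rw [Module.Basis.repr_self, Finsupp.single_apply]
            split_ifs
            · exact Dle.one le_rfl
            · exact Dle.zero 0
        have h3 := smul_Lat D.T (Dle.qq (-1)) h2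
        rwa [neg_add_eq_sub] at h3
    have h4 := p_dle_gen (hD.locS hX) hu hsX h1
    exact h4 _ (by omega)
  rcases not_and_or.1 h with h' | h'
  · rw [KLD.p_inv, sm_inv, ← hD.inv hX hu]
    exact key u⁻¹ (Subgroup.inv_mem _ hu) (fun h'' => h' (dR_inv.1 h''))
  · exact key u hu h'

end hd2

section hd3

variable {B : Type} {M : CoxeterMatrix B} {L : M.Group → ℤ} {H : Type} [Ring H] [Algebra LP H]
variable {D : KLD M L H} {β : B → Bool} {la : M.Group → ℕ} {a b : B}

/-! Piece H-c -/

private theorem Hd_j_inj (h : a ≠ b) :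
    Function.Injective (fun r : Bool => if r = true then b else a) := by
  intro r r' hr
  cases r <;> cases r'
  · rfl
  · exact absurd hr h
  · exact absurd hr.symm h
  · rfl

/-- The Coxeter matrix of the pair. -/
private def HdM (M : CoxeterMatrix B) (h : a ≠ b) : CoxeterMatrix Bool :=
  subM M (fun r : Bool => if r = true then b else a) (Hd_j_inj h)

private theorem HdM_ft (M : CoxeterMatrix B) (h : a ≠ b) : HdM M h false true = M a b := rfl

/-- The embedding. -/
private noncomputable def Hdf (M : CoxeterMatrix B) (h : a ≠ b) : (HdM M h).Group →* M.Group :=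
  gmap (fun r : Bool => if r = true then b else a) (fun _ _ => rfl)

private theorem Hdf_sm (M : CoxeterMatrix B) (h : a ≠ b) (r : Bool) :
    Hdf M h (sm (HdM M h) r) = sm M (if r = true then b else a) :=
  gmap_sm (M := HdM M h) (M' := M) (fun r : Bool => if r = true then b else a)
    (fun _ _ => rfl) r

private theorem Hdf_false (M : CoxeterMatrix B) (h : a ≠ b) :
    Hdf M h (sm (HdM M h) false) = sm M a := Hdf_sm M h false

private theorem Hdf_true (M : CoxeterMatrix B) (h : a ≠ b) :
    Hdf M h (sm (HdM M h) true) = sm M b := Hdf_sm M h true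

/-- The relabelling. -/
private noncomputable def Hde (h : a ≠ b) : Bool ≃ ({a, b} : Set B) :=
  Equiv.ofBijective (fun r : Bool => if r = true then ⟨b, Or.inr rfl⟩ else ⟨a, Or.inl rfl⟩) (by
    constructor
    · intro r r' hr
      cases r <;> cases r'
      · rfl
      · exact absurd (congrArg Subtype.val hr) h
      · exact absurd (congrArg Subtype.val hr).symm h
      · rfl
    · rintro ⟨x, rfl | rfl⟩
      · exact ⟨false, rfl⟩
      · exact ⟨true, rfl⟩)

private theorem Hde_val (h : a ≠ b) (r : Bool) :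
    (Hde h r : B) = if r = true then b else a := by
  cases r <;> rfl

private theorem Hd_res (M : CoxeterMatrix B) (h : a ≠ b) (r r' : Bool) :
    res M ({a, b} : Set B) (Hde h r) (Hde h r') = HdM M h r r' := by
  cases r <;> cases r' <;> rfl

private theorem Hdf_eq (M : CoxeterMatrix B) (h : a ≠ b) (x : (HdM M h).Group) :
    Hdf M h x = inc M {a, b} (giso (Hde h) (Hd_res M h) x) := by
  have h1 : (inc M ({a, b} : Set B)).comp (giso (Hde h) (Hd_res M h)).toMonoidHom =
      Hdf M h := by
    refine (HdM M h).toCoxeterSystem.ext_simple fun r => ?_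
    change inc M {a, b} (giso (Hde h) (Hd_res M h) (sm (HdM M h) r)) =
      Hdf M h (sm (HdM M h) r)
    rw [giso_sm, inc_sm, Hde_val]
    exact (Hdf_sm M h r).symm
  exact (DFunLike.congr_fun h1 x).symm

private theorem Hdf_par (M : CoxeterMatrix B) (h : a ≠ b) :
    IsPar (Hdf M h) (fun r : Bool => if r = true then b else a) where
  sm r := Hdf_sm M h r
  len x := by
    rw [Hdf_eq, (isPar_inc M {a, b}).len]
    exact len_equiv _ (Hde h) (giso_sm _ _) x

private theorem Hdf_mem (M : CoxeterMatrix B) (h : a ≠ b) (x : (HdM M h).Group) :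
    Hdf M h x ∈ par M ({a, b} : Set B) := by
  rw [Hdf_eq]
  exact inc_mem M {a, b} _

private theorem Hdf_surj (M : CoxeterMatrix B) (h : a ≠ b) {u : M.Group}
    (hu : u ∈ par M ({a, b} : Set B)) : ∃ x, Hdf M h x = u := by
  obtain ⟨y, hy⟩ := exists_inc hu
  obtain ⟨x, hx⟩ := (giso (Hde h) (Hd_res M h)).surjective y
  exact ⟨x, by rw [Hdf_eq, hx, hy]⟩

private theorem Hdf_wd (M : CoxeterMatrix B) (h : a ≠ b) (n : ℕ) :
    Hdf M h (wd (HdM M h) false n) = rsA (sm M a) (sm M b) n ∧
      Hdf M h (wd (HdM M h) true n) = rsA (sm M b) (sm M a) n := by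
  induction n with
  | zero => exact ⟨by rw [wd_zero, map_one, rsA_zero], by rw [wd_zero, map_one, rsA_zero]⟩
  | succ n ih =>
    refine ⟨?_, ?_⟩
    · rw [wd_succ, map_mul, Hdf_false, Bool.not_false, ih.2, rsA_succ]
    · rw [wd_succ, map_mul, Hdf_true, Bool.not_true, ih.1, rsA_succ]

private theorem Hdf_w0 (M : CoxeterMatrix B) (h : a ≠ b) :
    Hdf M h (w0 (HdM M h)) = wJ M a b := by
  rw [w0_eq false, (Hdf_wd M h _).1, wJ, HdM_ft]

/-- The element next to the longest one. -/
private theorem Hd_wdd (N : CoxeterMatrix Bool) {K : ℕ} (hK : N false true = 2 * K + 2)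
    (s : Bool) : wdd N s K = w0 N * sm N (!s) := by
  have h1 : w0 N = wd N s (2 * K + 1 + 1) := by rw [w0_eq s, hK]
  rw [h1, wd_add, nx_odd, wd_one, mul_assoc, sm_sm, mul_one, wdd]

/-- PROOF. The subgroup of `a`, `b` is the image of a Coxeter group with matrix
`M₂ : CoxeterMatrix Bool`, `M₂ false true = M a b`, by a map with `IsPar` (compose
`isPar_inc M {a, b}` with a relabelling `Bool ≃ {a, b}`, compare `allL_of_equiv` and
`lusztig_small` in KL/As). `f (wd M₂ false n) = rsA (sm M a) (sm M b) n`, `len_wd`. -/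
theorem Fin2.of_ne (h : a ≠ b) (h0 : M a b ≠ 0) : Fin2 M a b := by
  refine ⟨h, h0, ?_⟩
  have h1 := (Hdf_wd M h (M a b)).1
  have h2 := (Hdf_par M h).len (wd (HdM M h) false (M a b))
  have h3 : len (HdM M h) (wd (HdM M h) false (M a b)) = M a b :=
    len_wd (M := HdM M h) h0 le_rfl
  rw [h1, h3] at h2
  exact h2

/-- The values of `la` for a pair in different blocks.
PROOF. With `f : M₂.Group → M.Group` as above (`IsPar f j`, `j false = a`, `j true = b`) and
`D' = Dp hf D` (Hecke algebra of `M₂`, weight `L ∘ f`, `isWeight_par`): `D'.a z = la (f z)` for all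
`z` by `KLD.a_eq` (`h_par`, `Loc.dle` and `Loc.p12` (with `I = P = {a, b}`) of
`hD.locX a b hab`; every element of `par M {a, b}` is `f z`). If the weights are equal: `a_mid`,
`a_one`, `a_w0'` (and `f (w0 M₂) = wJ M a b`). If `L b < L a` (`s = false`; the other case
is the same with `s = true`): `even_of_ne`, `cls`, `a_t`, `a_md`, and `wdd = w0 * b`
(`wd_top_succ`-type computation: `wJ * b` is the alternating word with one letter less). -/
theorem Dat.cross (hD : Dat D β la) (hab : β a ≠ β b) {u : M.Group}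
    (hu : u ∈ par M ({a, b} : Set B)) :
    (la u : ℤ) ≤ max (L (sm M a)) (L (sm M b)) ∨ u = wJ M a b ∨
      (L (sm M b) < L (sm M a) ∧ u = wJ M a b * sm M b) ∨
      (L (sm M a) < L (sm M b) ∧ u = wJ M a b * sm M a) := by
  have hne : a ≠ b := fun h => hab (congrArg β h)
  have h5 : 5 ≤ M a b := hD.big a b hab
  have hl := hD.locX a b hab
  have hf := Hdf_par M hne
  have hm : HdM M hne false true ≠ 0 := by
    rw [HdM_ft]
    omega
  have hL : IsWeight (HdM M hne) fun x => L (Hdf M hne x) := isWeight_par hf hD.wt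
  have hla : ∀ z, (Dp hf D).a z = la (Hdf M hne z) := by
    intro z
    refine KLD.a_eq (fun x y => ?_) ?_
    · rw [h_par hf D]
      exact hl.dle _ (Hdf_mem M hne x) _ (Hdf_mem M hne y) _ (Hdf_mem M hne z)
    · obtain ⟨x, hx, y, hy, -, -, hxy⟩ :=
        hl.p12 {a, b} _ (Hdf_mem M hne z) (Hdf_mem M hne z)
      obtain ⟨x', rfl⟩ := Hdf_surj M hne hx
      obtain ⟨y', rfl⟩ := Hdf_surj M hne hy
      refine ⟨x', y', ?_⟩
      rw [h_par hf D]
      exact hxy
  obtain ⟨z, rfl⟩ := Hdf_surj M hne hu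
  obtain ⟨α, hα⟩ := Int.eq_ofNat_of_zero_le (hD.wt.pos a).le
  obtain ⟨γ, hγ⟩ := Int.eq_ofNat_of_zero_le (hD.wt.pos b).le
  rw [← hla, hα, hγ]
  have ha' : L (Hdf M hne (sm (HdM M hne) false)) = (α : ℤ) := by rw [Hdf_false, hα]
  have hb' : L (Hdf M hne (sm (HdM M hne) true)) = (γ : ℤ) := by rw [Hdf_true, hγ]
  rcases lt_trichotomy (γ : ℤ) α with hlt | heq | hlt
  · -- the case `s = false`
    have hs : (fun x => L (Hdf M hne x)) (sm (HdM M hne) (!false)) <
        (fun x => L (Hdf M hne x)) (sm (HdM M hne) false) := by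
      simp only [Bool.not_false]
      rw [ha', hb']
      exact hlt
    obtain ⟨K, hK⟩ := even_of_ne hm hL hs
    rcases cls hK false z with rfl | rfl | ⟨i, n, hn, rfl⟩ | rfl | rfl
    · left
      rw [KLD.a_one hL]
      simp
    · left
      rw [a_t hK hL (Dp hf D) hs (β := γ) hb']
      exact le_max_right _ _
    · left
      rw [a_md hK hL (Dp hf D) hs (α := α) (β := γ) ha' hb' hn]
      exact le_max_left _ _
    · right
      right
      left
      refine ⟨hlt, ?_⟩
      rw [Hd_wdd _ hK, map_mul, Hdf_w0, Bool.not_false, Hdf_true]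
    · right
      left
      exact Hdf_w0 M hne
  · have he : ∀ r, (fun x => L (Hdf M hne x)) (sm (HdM M hne) r) = (α : ℤ) := by
      intro r
      cases r
      · exact ha'
      · exact hb'.trans heq
    by_cases h1 : z = 1
    · left
      rw [h1, KLD.a_one hL]
      simp
    by_cases h0 : z = w0 (HdM M hne)
    · right
      left
      rw [h0]
      exact Hdf_w0 M hne
    · left
      rw [a_mid hm hL (Dp hf D) he h1 h0]
      exact le_max_left _ _
  · have hs : (fun x => L (Hdf M hne x)) (sm (HdM M hne) (!true)) <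
        (fun x => L (Hdf M hne x)) (sm (HdM M hne) true) := by
      simp only [Bool.not_true]
      rw [ha', hb']
      exact hlt
    obtain ⟨K, hK⟩ := even_of_ne hm hL hs
    rcases cls hK true z with rfl | rfl | ⟨i, n, hn, rfl⟩ | rfl | rfl
    · left
      rw [KLD.a_one hL]
      simp
    · left
      rw [a_t hK hL (Dp hf D) hs (β := α) ha']
      exact le_max_left _ _
    · left
      rw [a_md hK hL (Dp hf D) hs (α := γ) (β := α) hb' ha' hn]
      exact le_max_right _ _
    · right
      right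
      right
      refine ⟨hlt, ?_⟩
      rw [Hd_wdd _ hK, map_mul, Hdf_w0, Bool.not_true, Hdf_false]
    · right
      left
      exact Hdf_w0 M hne

private def H5_j (a b : B) : Bool → B := fun i => cond i b a

private theorem H5_inj (h : a ≠ b) : Function.Injective (H5_j a b) := by
  intro x y hxy
  cases x <;> cases y
  · rfl
  · exact absurd hxy h
  · exact absurd hxy.symm h
  · rfl

private noncomputable def H5_f (M : CoxeterMatrix B) (h : a ≠ b) :
    (subM M (H5_j a b) (H5_inj h)).Group →* M.Group :=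
  gmap (H5_j a b) (fun _ _ => rfl)

private theorem H5_sm (h : a ≠ b) (i : Bool) :
    H5_f M h (sm (subM M (H5_j a b) (H5_inj h)) i) = sm M (H5_j a b i) :=
  gmap_sm _ _ i

private theorem H5_isPar (h : a ≠ b) : IsPar (H5_f M h) (H5_j a b) := by
  let P : Set B := {a, b}
  have hmem : ∀ i, H5_j a b i ∈ P := by
    intro i
    cases i
    · exact Or.inl rfl
    · exact Or.inr rfl
  let k : Bool → P := fun i => ⟨H5_j a b i, hmem i⟩
  have hk : Function.Bijective k := by
    constructor
    · intro x y hxy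
      exact H5_inj h (congrArg Subtype.val hxy)
    · rintro ⟨x, hx⟩
      rcases hx with rfl | hx
      · exact ⟨false, rfl⟩
      · exact ⟨true, Subtype.ext hx.symm⟩
  have hM : ∀ x y, res M P (Equiv.ofBijective k hk x) (Equiv.ofBijective k hk y) =
      subM M (H5_j a b) (H5_inj h) x y := fun _ _ => rfl
  have h1 : (inc M P).comp (giso (Equiv.ofBijective k hk) hM).toMonoidHom = H5_f M h := by
    refine (subM M (H5_j a b) (H5_inj h)).toCoxeterSystem.ext_simple fun i => ?_
    change inc M P (giso (Equiv.ofBijective k hk) hM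
      (sm (subM M (H5_j a b) (H5_inj h)) i)) = H5_f M h (sm (subM M (H5_j a b) (H5_inj h)) i)
    rw [giso_sm, inc_sm, H5_sm]
    rfl
  refine ⟨fun i => H5_sm h i, fun x => ?_⟩
  have h2 : H5_f M h x = inc M P (giso (Equiv.ofBijective k hk) hM x) :=
    (DFunLike.congr_fun h1 x).symm
  rw [h2, (isPar_inc M P).len, len_equiv _ _ (giso_sm _ _)]

private theorem H5_wd (h : a ≠ b) (n : ℕ) :
    H5_f M h (wd (subM M (H5_j a b) (H5_inj h)) false n) = rsA (sm M a) (sm M b) n ∧
      H5_f M h (wd (subM M (H5_j a b) (H5_inj h)) true n) = rsA (sm M b) (sm M a) n := by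
  induction n with
  | zero => exact ⟨map_one _, map_one _⟩
  | succ n ih =>
    constructor
    · rw [wd_succ, map_mul, H5_sm, rsA_succ]
      change sm M a * _ = _
      rw [← ih.2]
      rfl
    · rw [wd_succ, map_mul, H5_sm, rsA_succ]
      change sm M b * _ = _
      rw [← ih.1]
      rfl

private theorem H5_rsA_last {G : Type} [Group G] {x y : G} (hx : x * x = 1) (hy : y * y = 1)
    (n : ℕ) : rsA x y (2 * n + 2) * y = rsA x y (2 * n + 1) := by
  induction n with
  | zero =>
    change x * (y * 1) * y = x * 1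
    rw [mul_one, mul_one, mul_assoc, hy, mul_one]
  | succ n ih =>
    have e1 : rsA x y (2 * (n + 1) + 2) = x * (y * rsA x y (2 * n + 2)) := rfl
    have e2 : rsA x y (2 * (n + 1) + 1) = x * (y * rsA x y (2 * n + 1)) := rfl
    rw [e1, e2, ← ih, mul_assoc, mul_assoc]

private theorem H5_surj (h : a ≠ b) {w : M.Group} (hw : w ∈ par M ({a, b} : Set B)) :
    ∃ x, H5_f M h x = w := by
  have h1 : par M ({a, b} : Set B) ≤ (H5_f M h).range := by
    rw [par, Subgroup.closure_le]
    rintro _ ⟨c, hc, rfl⟩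
    rcases hc with rfl | hc
    · exact ⟨_, H5_sm h false⟩
    · rw [Set.mem_singleton_iff.1 hc]
      exact ⟨_, H5_sm h true⟩
  exact h1 hw

private theorem H5_mem (h : a ≠ b) (x : (subM M (H5_j a b) (H5_inj h)).Group) :
    H5_f M h x ∈ par M ({a, b} : Set B) := by
  induction x using (subM M (H5_j a b) (H5_inj h)).toCoxeterSystem.simple_induction_left with
  | one => rw [map_one]; exact (par M _).one_mem
  | mul_simple_left x i ih =>
    rw [map_mul]
    refine (par M _).mul_mem ?_ ih
    have h1 : H5_f M h (sm (subM M (H5_j a b) (H5_inj h)) i) ∈ par M ({a, b} : Set B) := by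
      rw [H5_sm]
      refine sm_mem_par ?_
      cases i
      · exact Or.inl rfl
      · exact Or.inr rfl
    exact h1

private theorem H5_gen {M : CoxeterMatrix Bool} {K : ℕ} (hK : M false true = 2 * K + 2)
    {L : M.Group → ℤ} (hL : IsWeight M L) {H : Type} [Ring H] [Algebra LP H] (D : KLD M L H)
    {s : Bool} (hs : L (sm M (!s)) < L (sm M s)) {α β : ℕ} (ha : L (sm M s) = α)
    (hb : L (sm M (!s)) = β) (y : M.Group) (c ε : ℤ)
    (hχ : chi D s K (D.T y) = ε • qq c) (m : ℤ) (h1 : L y - (K + 1) * (α + β) ≤ m + β)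
    (h2 : c - (K + 1) * (α - β) ≤ m + β) : Dle m (D.p y (wdd M s K)) := by
  have hβ0 : (0 : ℤ) < β := by
    rw [← hb]
    exact hL.pos _
  have h0 := p_dd hK hL D hs y
  have h3 : chi D s K (D.T (w0 M)) = (-1) ^ (K + 1) * qq ((K + 1) * ((α : ℤ) - β)) := by
    have h3 := chi_T_even hK hL D hs ha hb (K + 1) (by omega)
    rw [show 2 * (K + 1) = M false true by omega, ← w0_eq] at h3
    rw [h3]
    push_cast
    rfl
  have h4 : ((-1 : LP) ^ (K + 1) * (-1) ^ (K + 1)) = 1 := by
    rw [← mul_pow]
    norm_num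
  have h5 : (qq ((K + 1) * ((α : ℤ) - β)) * qq (-((K + 1) * ((α : ℤ) - β))) : LP) = 1 :=
    KLD.qq_mul_neg _
  rw [h3, hb, L_w0_eq hK hL ha hb, hχ] at h0
  have h6 : D.p y (wdd M s K) * (qq (β : ℤ) + qq (-(β : ℤ))) =
      qq (L y - (K + 1) * ((α : ℤ) + β)) -
        (-1) ^ (K + 1) * qq (-((K + 1) * ((α : ℤ) - β))) * (ε • qq c) := by
    linear_combination ((-1 : LP) ^ (K + 1) * qq (-((K + 1) * ((α : ℤ) - β)))) * h0 -
      (D.p y (wdd M s K) * (qq (β : ℤ) + qq (-(β : ℤ))) -
        qq (L y - (K + 1) * ((α : ℤ) + β))) *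
        (h4 + (-1 : LP) ^ (K + 1) * (-1) ^ (K + 1) * (h5 - 1))
  refine Dle.of_mul (tw_dle hβ0) ?_ (c := qq (β : ℤ) + qq (-(β : ℤ))) ?_
  · rw [tw_coeff hβ0]
    exact one_ne_zero
  · rw [h6]
    have h7 : (-1 : LP) ^ (K + 1) * qq (-((K + 1) * ((α : ℤ) - β))) * (ε • qq c) =
        ((-1 : ℤ) ^ (K + 1) * ε) • qq (c - (K + 1) * ((α : ℤ) - β)) := by
      have h8 : (qq (c - (K + 1) * ((α : ℤ) - β)) : LP) =
          qq (-((K + 1) * ((α : ℤ) - β))) * qq c := by
        rw [← LaurentPolynomial.T_add]
        congr 1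
        ring
      rw [zsmul_eq_mul, zsmul_eq_mul, h8]
      push_cast
      ring
    rw [h7]
    exact ((Dle.qq _).mono h1).sub (((Dle.qq _).zsmul _).mono h2)

private theorem H5_main {M : CoxeterMatrix Bool} {K : ℕ} (hK : M false true = 2 * K + 2)
    (hK1 : 1 ≤ K)
    {L : M.Group → ℤ} (hL : IsWeight M L) {H : Type} [Ring H] [Algebra LP H] (D : KLD M L H)
    {s : Bool} (hs : L (sm M (!s)) < L (sm M s)) {α β : ℕ} (ha : L (sm M s) = α)
    (hb : L (sm M (!s)) = β) :
    Dle (-(K * ((α : ℤ) - β)) - 1) (D.p (sm M s * sm M (!s)) (wdd M s K)) ∧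
      Dle (-(K * ((α : ℤ) - β)) - 1) (D.p (sm M (!s) * sm M s) (wdd M s K)) ∧
      Dle (-(K * ((α : ℤ) - β)) - 1) (D.p (sm M (!s) * sm M s * sm M (!s)) (wdd M s K)) ∧
      Dle ((α : ℤ) - β - K * ((α : ℤ) - β)) (D.p (sm M s * sm M (!s) * sm M s) (wdd M s K)) := by
  have hβ : (β : ℤ) < α := by rwa [← ha, ← hb]
  have hβ0 : (0 : ℤ) < β := by
    rw [← hb]
    exact hL.pos _
  have hm := hm_of hK
  have hKK : (1 : ℤ) ≤ K := by exact_mod_cast hK1
  have hd : (0 : ℤ) < α - β := by omega
  have hKd : (α : ℤ) - β ≤ K * ((α : ℤ) - β) := by nlinarith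
  have hKb : (β : ℤ) ≤ K * β := by nlinarith
  -- lengths
  have l2 : ∀ r : Bool, len M (sm M r * wd M (!r) 1) = len M (wd M (!r) 1) + 1 := fun r => by
    have := len_up hm (r := r) (n := 1) (by omega)
    exact this
  have l3 : ∀ r : Bool, len M (sm M r * wd M (!r) 2) = len M (wd M (!r) 2) + 1 := fun r => by
    have := len_up hm (r := r) (n := 2) (by omega)
    exact this
  have e2 : ∀ r : Bool, sm M r * sm M (!r) = wd M r 2 := fun r => by
    rw [wd_succ, wd_one]
  have e3 : ∀ r : Bool, sm M r * sm M (!r) * sm M r = wd M r 3 := fun r => by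
    rw [wd_succ, wd_succ, wd_one, Bool.not_not, mul_assoc]
  have L2 : ∀ r : Bool, L (wd M r 2) = L (sm M r) + L (sm M (!r)) := fun r => by
    have := L_even hm hL r 1 (by omega)
    rw [this]
    push_cast
    ring
  have L3 : ∀ r : Bool, L (wd M r 3) = L (sm M r) + (L (sm M r) + L (sm M (!r))) := fun r => by
    have := L_odd hm hL r 1 (by omega)
    rw [this]
    push_cast
    ring
  have T2 : ∀ r : Bool, D.T (wd M r 2) = D.T (sm M r) * D.T (sm M (!r)) := fun r => by
    have h1 := l2 r
    rw [wd_one] at h1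
    rw [D.T_sm_mul h1, wd_succ, wd_one]
  have T3 : ∀ r : Bool, D.T (wd M r 3) = D.T (sm M r) * D.T (wd M (!r) 2) := fun r => by
    rw [D.T_sm_mul (l3 r), ← wd_succ]
  have hns : (!(!s)) = s := Bool.not_not s
  have q1 : ∀ x y : ℤ, (qq x * qq y : LP) = qq (x + y) := fun x y =>
    (LaurentPolynomial.T_add x y).symm
  have X2 : chi D s K (D.T (wd M s 2)) = (-1 : ℤ) • qq ((α : ℤ) - β) := by
    rw [T2, chi_mul hK hL D hs, chi_Ts hK hL D hs, chi_Tt hK hL D hs, ha, hb, mul_neg, q1,
      neg_smul, one_smul, sub_eq_add_neg]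
  have X2' : chi D s K (D.T (wd M (!s) 2)) = (-1 : ℤ) • qq ((α : ℤ) - β) := by
    rw [T2, hns, chi_mul hK hL D hs, chi_Ts hK hL D hs, chi_Tt hK hL D hs, ha, hb, neg_mul, q1,
      neg_smul, one_smul, sub_eq_add_neg, add_comm]
  have X3 : chi D s K (D.T (wd M (!s) 3)) = (1 : ℤ) • qq ((α : ℤ) - 2 * β) := by
    rw [T3, hns, chi_mul hK hL D hs, X2, chi_Tt hK hL D hs, hb, neg_smul, one_smul, neg_mul_neg,
      q1, one_smul]
    congr 1
    ring
  have X3' : chi D s K (D.T (wd M s 3)) = (-1 : ℤ) • qq (2 * (α : ℤ) - β) := by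
    rw [T3, chi_mul hK hL D hs, X2', chi_Ts hK hL D hs, ha, neg_smul, one_smul, mul_neg,
      q1, neg_smul, one_smul]
    congr 2
    ring
  refine ⟨?_, ?_, ?_, ?_⟩
  · rw [e2]
    refine H5_gen hK hL D hs ha hb _ _ _ X2 _ ?_ ?_
    · rw [L2, ha, hb]
      nlinarith
    · nlinarith
  · have e : sm M (!s) * sm M s = wd M (!s) 2 := by
      have := e2 (!s)
      rwa [hns] at this
    rw [e]
    refine H5_gen hK hL D hs ha hb _ _ _ X2' _ ?_ ?_
    · rw [L2, hns, ha, hb]
      nlinarith
    · nlinarith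
  · have e : sm M (!s) * sm M s * sm M (!s) = wd M (!s) 3 := by
      have := e3 (!s)
      rwa [hns] at this
    rw [e]
    refine H5_gen hK hL D hs ha hb _ _ _ X3 _ ?_ ?_
    · rw [L3, hns, ha, hb]
      nlinarith
    · nlinarith
  · rw [e3]
    refine H5_gen hK hL D hs ha hb _ _ _ X3' _ ?_ ?_
    · rw [L3, ha, hb]
      nlinarith
    · nlinarith

/-- The polynomials `p v d` for the element `d` next to the longest one.
PROOF. As before, `s = false`, `M a b = 2 K + 2` with `K ≥ 2`, `A = L a > B = L b`: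
`la d = A + K (A - B)` (`a_wdd`), `L wJ = (K + 1) (A + B)` (`L_w0_eq`), and `p_par`. By `p_dd`
`(qq B + qq (-B)) * χ (T w0) * p y d = χ (T w0) * qq (L y - L w0) - χ (T y)` with
`χ (T w0) = ± qq ((K + 1) (A - B))` (`chi_T_even`) and `χ (T y) = ± qq (i A - j B)` if `y` has `i`
letters `a` and `j` letters `b` (`chi_mul`, `chi_Ts`, `chi_Tt`). Hence (`Dle.of_mul`, with
`c = qq B + qq (-B)`) `p y d` has degree at most
`max (L y - L w0) (i A - j B - (K + 1) (A - B)) - B`. For `y = ab, ba`: `-K (A - B) - B`. For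
`y = bab`: `-K (A - B) - 2 B`. For `y = aba`: `(1 - K) (A - B)`. -/
theorem Dat.p_dK (hD : Dat D β la) (hab : β a ≠ β b) (h : L (sm M b) < L (sm M a)) :
    Dle (L (sm M a) - la (wJ M a b * sm M b) - 1)
        (D.p (sm M a * sm M b) (wJ M a b * sm M b)) ∧
      Dle (L (sm M a) - la (wJ M a b * sm M b) - 1)
        (D.p (sm M b * sm M a) (wJ M a b * sm M b)) ∧
      Dle (L (sm M a) - la (wJ M a b * sm M b) - 1)
        (D.p (sm M b * sm M a * sm M b) (wJ M a b * sm M b)) ∧
      Dle (2 * L (sm M a) - L (sm M b) - la (wJ M a b * sm M b))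
        (D.p (sm M a * sm M b * sm M a) (wJ M a b * sm M b)) := by
  have hne : a ≠ b := fun h' => hab (congrArg β h')
  have hf := H5_isPar (M := M) hne
  have hL := hD.wt
  have hL' := isWeight_par hf hL
  have hsm : ∀ i, H5_f M hne (sm (subM M (H5_j a b) (H5_inj hne)) i) = sm M (H5_j a b i) :=
    fun i => H5_sm hne i
  have h5 := hD.big a b hab
  have hmab : (subM M (H5_j a b) (H5_inj hne)) false true = M a b := rfl
  have hs : L (H5_f M hne (sm (subM M (H5_j a b) (H5_inj hne)) (!false))) <
      L (H5_f M hne (sm (subM M (H5_j a b) (H5_inj hne)) false)) := by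
    rw [hsm, hsm]
    exact h
  obtain ⟨K, hK⟩ := even_of_ne (by rw [hmab]; omega) hL' hs
  have hKm : M a b = 2 * K + 2 := hK
  have hK1 : 1 ≤ K := by omega
  have hsa : (L (H5_f M hne (sm (subM M (H5_j a b) (H5_inj hne)) false)) : ℤ) =
      ((L (sm M a)).toNat : ℕ) := by
    rw [hsm, Int.toNat_of_nonneg (hL.pos a).le]
    rfl
  have hsb : (L (H5_f M hne (sm (subM M (H5_j a b) (H5_inj hne)) (!false))) : ℤ) =
      ((L (sm M b)).toNat : ℕ) := by
    rw [hsm, Int.toNat_of_nonneg (hL.pos b).le]
    rfl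
  have hd : H5_f M hne (wdd (subM M (H5_j a b) (H5_inj hne)) false K) = wJ M a b * sm M b := by
    rw [wdd, (H5_wd hne _).1, wJ, hKm, H5_rsA_last (sm_sm a) (sm_sm b)]
  have haw : ((Dp hf D).a (wdd (subM M (H5_j a b) (H5_inj hne)) false K) : ℤ) =
      (L (sm M a)).toNat + K * ((L (sm M a)).toNat - (L (sm M b)).toNat) :=
    a_wdd hK hL' (Dp hf D) hs hsa hsb
  have hla : (Dp hf D).a (wdd (subM M (H5_j a b) (H5_inj hne)) false K) =
      la (wJ M a b * sm M b) := by
    have hloc := hD.locX a b hab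
    have hdm : wJ M a b * sm M b ∈ par M ({a, b} : Set B) := by
      rw [← hd]
      exact H5_mem hne _
    refine KLD.a_eq (fun x y => ?_) ?_
    · rw [h_par, hd]
      exact hloc.dle _ (H5_mem hne x) _ (H5_mem hne y) _ hdm
    · obtain ⟨x, hx, y, hy, -, -, h3⟩ := hloc.p12 {a, b} _ hdm hdm
      obtain ⟨x, rfl⟩ := H5_surj hne hx
      obtain ⟨y, rfl⟩ := H5_surj hne hy
      refine ⟨x, y, ?_⟩
      rw [h_par, hd]
      exact h3
  rw [hla, Int.toNat_of_nonneg (hL.pos a).le, Int.toNat_of_nonneg (hL.pos b).le] at haw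
  obtain ⟨r1, r2, r3, r4⟩ := H5_main hK hK1 hL' (Dp hf D) hs hsa hsb
  rw [p_par, hd, Int.toNat_of_nonneg (hL.pos a).le, Int.toNat_of_nonneg (hL.pos b).le] at r1 r2 r3 r4
  simp only [map_mul, hsm] at r1 r2 r3 r4
  rw [haw]
  refine ⟨r1.mono (by omega), r2.mono (by omega), r3.mono (by omega), r4.mono (by linarith)⟩

end hd3

end Pool.Agent.Helper63.LG
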