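import Pool.Agent.Helper63.LG.Oc

/-!
# Left units in a piece
-/

namespace Pool.Agent.Helper63.LG

open Pool.Agent.Helper35.KL Pool.Agent.Helper35.AM

section un

variable {B : Type} {M : CoxeterMatrix B} {L : M.Group → ℤ} {H : Type} [Ring H] [Algebra LP H]
variable {D : KLD M L H} {P : Set B} {la : M.Group → ℕ}

/-- `d` is the left unit of `g`. -/
structure IsU (D : KLD M L H) (P : Set B) (la : M.Group → ℕ) (d g : M.Group) : Prop where
  hd : d ∈ par M P
  hg : g ∈ par M P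
  hn : nu D la d ≠ 0
  ne : gc D la d g g ≠ 0

/-! Piece U-a -/

theorem gc_inv (hP : Loc D P la) {x y z : M.Group} (hz : z ∈ par M P) :
    gc D la x y z = gc D la y⁻¹ x⁻¹ z⁻¹ := by
  unfold gc
  rw [D.h_inv x y z, hP.lainv z hz]

theorem gc_h {x y z : M.Group} (h : gc D la x y z ≠ 0) : D.h x y z ≠ 0 := by
  intro h0
  apply h
  unfold gc
  rw [h0, cf_zero]

/-- PROOF. `unitL`. -/
theorem IsU.ex (hP : Loc D P la) {g : M.Group} (hg : g ∈ par M P) : ∃ d, IsU D P la d g := by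
  obtain ⟨d, hd, h1, -, -, h4, -⟩ := unitL D hP hg
  exact ⟨d, hd, hg, h1, by rw [h4]; exact h1⟩

/-- PROOF. `Cyc` (`x = d`, `y = g`, `z = c⁻¹`): `gc d g c = gc g c⁻¹ d⁻¹`, `d⁻¹ = d`
(`Loc.inv`), so `g = c` by `Loc.p2` if it is not `0`. -/
theorem IsU.zero (hP : Loc D P la) (hc : Cyc D P la) {d g c : M.Group} (hd : d ∈ par M P)
    (hn : nu D la d ≠ 0) (hg : g ∈ par M P) (hc' : c ∈ par M P) (h : c ≠ g) :
    gc D la d g c = 0 := by
  by_contra hne
  have h1 := hc d hd g hg c⁻¹ (inv_mem hc')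
  rw [inv_inv, hP.inv d hd hn] at h1
  rw [h1] at hne
  have h2 := hP.p2 g hg c⁻¹ (inv_mem hc') d hd hn hne
  rw [inv_inv] at h2
  exact h h2.symm

private theorem U_a_cyc (hP : Loc D P la) (hc : Cyc D P la) {d g : M.Group}
    (h : IsU D P la d g) : gc D la d g g = gc D la g g⁻¹ d := by
  have h1 := hc d h.hd g h.hg g⁻¹ (inv_mem h.hg)
  rwa [inv_inv, hP.inv d h.hd h.hn] at h1

/-- PROOF. `Cyc`: `gc d g g = gc g g⁻¹ d`; `Loc.p3` for `y = g⁻¹`: `d` is the element `z` of it.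
`la d = la g`: `Loc.q`. -/
theorem IsU.val (hP : Loc D P la) (hc : Cyc D P la) {d g : M.Group} (h : IsU D P la d g) :
    gc D la d g g = nu D la d ∧ (nu D la d = 1 ∨ nu D la d = -1) ∧ la d = la g ∧
      D.h g g⁻¹ d ≠ 0 ∧ D.h d g g ≠ 0 := by
  have h1 := U_a_cyc hP hc h
  have h2 : gc D la g g⁻¹ d ≠ 0 := by
    rw [← h1]
    exact h.ne
  obtain ⟨z, -, -, h4, h5, h6⟩ := hP.p3 g⁻¹ (inv_mem h.hg)
  rw [inv_inv] at h4 h6
  have h7 := h6 d h.hd h.hn h2
  rw [← h7] at h4 h5
  exact ⟨h1.trans h4, h5, (hP.q d h.hd g h.hg g h.hg h.ne).1, gc_h h2, gc_h h.ne⟩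

/-- PROOF. `gc_inv`, `Loc.inv`. -/
theorem IsU.right (hP : Loc D P la) (hc : Cyc D P la) {d g : M.Group} (h : IsU D P la d g) :
    gc D la g⁻¹ d g⁻¹ = nu D la d ∧ ∀ c ∈ par M P, c ≠ g⁻¹ → gc D la g⁻¹ d c = 0 := by
  constructor
  · rw [gc_inv hP (inv_mem h.hg), inv_inv, hP.inv d h.hd h.hn]
    exact (h.val hP hc).1
  · intro c hc' hne
    rw [gc_inv hP hc', inv_inv, hP.inv d h.hd h.hn]
    refine IsU.zero hP hc h.hd h.hn h.hg (inv_mem hc') ?_
    rintro rfl
    exact hne (inv_inv c).symm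

/-- PROOF. `Loc.p3`. -/
theorem IsU.uniq (hP : Loc D P la) (hc : Cyc D P la) {d d' g : M.Group} (h : IsU D P la d g)
    (h' : IsU D P la d' g) : d = d' := by
  obtain ⟨z, -, -, -, -, h6⟩ := hP.p3 g⁻¹ (inv_mem h.hg)
  rw [inv_inv] at h6
  have h1 := h6 d h.hd h.hn (by rw [← U_a_cyc hP hc h]; exact h.ne)
  have h2 := h6 d' h'.hd h'.hn (by rw [← U_a_cyc hP hc h']; exact h'.ne)
  rw [h1, h2]

/-- PROOF. Let `d'` be the left unit of `d` (`IsU.ex`): `gc d' d d ≠ 0`. The third place is a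
distinguished element, so `d' = d⁻¹ = d` by `Loc.p2` (applied to `C d' * C d` and `z = d`; see how
`Loc.p2` is stated in C1.lean / Par.lean) and `Loc.inv`. -/
theorem IsU.self (hP : Loc D P la) (hc : Cyc D P la) {d : M.Group} (hd : d ∈ par M P)
    (hn : nu D la d ≠ 0) : IsU D P la d d := by
  obtain ⟨d', h⟩ := IsU.ex hP hd
  have h1 := hP.p2 d' h.hd d hd d hd hn h.ne
  rw [hP.inv d hd hn] at h1
  rw [h1] at h
  exact h

/-! Piece U-b -/

/-- Right multiplication does not change the left unit.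
PROOF. Let `n` be a degree with `(h g v g').coeff n ≠ 0`. `Loc.p15` with `w = d`, `w' = v`,
`x = g`, `y = g'`: compare the coefficients of degree `k = la g = la g' = la d` (`IsU.val`) of
`repr (C d * phi n v (C g)) g' = ∑ c, (h g v c).coeff n * h d c g'` and
`repr (phi n v (C d * C g)) g' = ∑ c, h d g c * (h c v g').coeff n` (`repr_phi_C`, `phi_C`; `c` in
`par M P` by `h_mem`). In both sums only `c` with `la c = k` contribute (`Loc.p4`), and then
`gc d c g' = 0` unless `c = g'`, `gc d g c = 0` unless `c = g` (`IsU.zero`). So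
`(h g v g').coeff n * gc d g' g' = gc d g g * (h g v g').coeff n`. -/
theorem IsU.step (hP : Loc D P la) (hc : Cyc D P la) {d g g' v : M.Group}
    (h : IsU D P la d g) (hv : v ∈ par M P) (hg' : g' ∈ par M P) (hh : D.h g v g' ≠ 0)
    (hla : la g' = la g) : IsU D P la d g' := by
  classical
  obtain ⟨n, hn⟩ : ∃ n, (D.h g v g').coeff n ≠ 0 := by
    by_contra hne
    push Not at hne
    exact hh (lp_ext fun k => by rw [hne k, cf_zero])
  have hla' : la d = la g := (h.val hP hc).2.2.1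
  have h15 := hP.p15 n d h.hd v hv g h.hg g' hg' hla.symm
  -- the left side
  have e1 : D.C.repr (D.C d * D.phi n v (D.C g)) g' =
      ∑ c ∈ (D.C.repr (D.C g * D.C v)).support, (D.h g v c).coeff n • D.h d c g' := by
    rw [D.phi_C, Finset.mul_sum, map_sum, Finsupp.finsetSum_apply]
    refine Finset.sum_congr rfl fun c _ => ?_
    rw [mul_smul_comm, map_zsmul, Finsupp.smul_apply]
    rfl
  have e2 : (D.C.repr (D.C d * D.phi n v (D.C g)) g').coeff (la g' : ℤ) =
      (D.h g v g').coeff n * gc D la d g' g' := by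
    rw [e1, cf_sum, Finset.sum_eq_single g']
    · rw [cf_zsmul]; rfl
    · intro c hcs hcne
      have hcm : c ∈ par M P := by
        refine h_mem D h.hg hv (x := g) (y := v) (z := c) ?_
        exact Finsupp.mem_support_iff.1 hcs
      rw [cf_zsmul]
      have h0 : gc D la d c g' = 0 := IsU.zero hP hc h.hd h.hn hcm hg' (Ne.symm hcne)
      have h0' : (D.h d c g').coeff (la g' : ℤ) = 0 := h0
      rw [h0', mul_zero]
    · intro hns
      exact absurd (Finsupp.mem_support_iff.2 hh) hns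
  -- the right side
  have e3 : D.C.repr (D.phi n v (D.C d * D.C g)) g' =
      ∑ c ∈ (D.C.repr (D.C d * D.C g)).support, (D.h c v g').coeff n • D.h d g c := by
    have e4 : D.C d * D.C g = ∑ c ∈ (D.C.repr (D.C d * D.C g)).support, D.h d g c • D.C c := by
      have h5 := D.C.linearCombination_repr (D.C d * D.C g)
      rw [Finsupp.linearCombination_apply, Finsupp.sum] at h5
      exact h5.symm
    conv_lhs => rw [e4]
    rw [map_sum, map_sum, Finsupp.finsetSum_apply]
    refine Finset.sum_congr rfl fun c _ => ?_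
    rw [map_smul, map_smul, Finsupp.smul_apply, D.repr_phi_C, smul_eq_mul, mul_smul_comm, mul_one]
  have e5 : (D.C.repr (D.phi n v (D.C d * D.C g)) g').coeff (la g' : ℤ) =
      (D.h g v g').coeff n * gc D la d g g := by
    rw [e3, cf_sum, Finset.sum_eq_single g]
    · rw [cf_zsmul, hla]; rfl
    · intro c hcs hcne
      have hcs' : D.h d g c ≠ 0 := Finsupp.mem_support_iff.1 hcs
      have hcm : c ∈ par M P := h_mem D h.hd h.hg hcs'
      rw [cf_zsmul]
      by_cases h6 : (D.h c v g').coeff n = 0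
      · rw [h6, zero_mul]
      · have h7 : D.h c v g' ≠ 0 := fun h0 => h6 (by rw [h0, cf_zero])
        have h8 := (hP.p4 c hcm v hv g' h7).1
        have h9 := (hP.p4 d h.hd g h.hg c hcs').2
        have h10 : la c = la g' := by omega
        have h0 : gc D la d g c = 0 := IsU.zero hP hc h.hd h.hn h.hg hcm hcne
        have h0' : (D.h d g c).coeff (la c : ℤ) = 0 := h0
        rw [← h10, h0', mul_zero]
    · intro hns
      exact absurd (Finsupp.mem_support_iff.2 (h.val hP hc).2.2.2.2) hns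
  rw [h15, e5] at e2
  refine ⟨h.hd, hg', h.hn, ?_⟩
  intro h0
  rw [h0, mul_zero] at e2
  exact mul_ne_zero hn h.ne e2

/-- The left descents.
PROOF. `leR_of_h` and `desc_of_leR` for `D.h d g g ≠ 0` and `D.h g g⁻¹ d ≠ 0` (`IsU.val`). -/
theorem IsU.desc (hL : IsWeight M L) (hP : Loc D P la) (hc : Cyc D P la) {d g : M.Group}
    (h : IsU D P la d g) (s : B) : dL M g s ↔ dL M d s := by
  obtain ⟨-, -, -, h1, h2⟩ := h.val hP hc
  constructor
  · intro h3
    exact D.desc_of_leR hL (D.leR_of_h hL h1) h3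
  · intro h3
    exact D.desc_of_leR hL (D.leR_of_h hL h2) h3

/-- The elements `g` with `la g > k`, or with `la g = k` and left unit `d`, inverted: a set that is
closed under left multiplication. -/
def SU (D : KLD M L H) (P : Set B) (la : M.Group → ℕ) (d : M.Group) : Set M.Group :=
  {g | g ∈ par M P ∧ (la d < la g ∨ (la g = la d ∧ IsU D P la d g⁻¹))}

/-- PROOF. `Loc.p4`, `IsU.step` (inverted by `h_inv`), `Loc.lainv`. -/
theorem SU_cl (hP : Loc D P la) (hc : Cyc D P la) (d : M.Group) :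
    ClL D P (SU D P la d) where
  sub _ hg := hg.1
  cl x hx g hg g' h := by
    have h1 : g' ∈ par M P := h_mem D hx hg.1 h
    have h2 : la g ≤ la g' := (hP.p4 x hx g hg.1 g' h).2
    refine ⟨h1, ?_⟩
    rcases hg.2 with h3 | ⟨h3, h4⟩
    · exact Or.inl (lt_of_lt_of_le h3 h2)
    · rcases eq_or_lt_of_le h2 with h5 | h5
      · right
        refine ⟨by rw [← h5, h3], ?_⟩
        refine h4.step hP hc (v := x⁻¹) ((par M P).inv_mem hx) ((par M P).inv_mem h1) ?_ ?_
        · rwa [← D.h_inv]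
        · rw [hP.lainv g' h1, hP.lainv g hg.1, h5]
      · left
        rw [← h3]
        exact h5

/-- The products with `C (d * r)` from the left.
PROOF. As `ll2_supp` in AM/Ll2.lean, with `SU D P la d` instead of `Sk M P la k`: `C (r⁻¹ * d)` is
in the left ideal `LI D P (SU ..)` (`C_sub_NegL`, `TC_mem_LI`, `d⁻¹ = d`, `IsU.self`), `LI_mul`,
`LI_repr`, and `fl`. -/
theorem SU_supp (hP : Loc D P la) (hc : Cyc D P la) {d r y z : M.Group} (hd : d ∈ par M P)
    (hn : nu D la d ≠ 0) (hr : r ∈ XL M P) (h : D.h (d * r) y z ≠ 0) :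
    ∃ g ∈ par M P, ∃ r' ∈ XL M P, z = g * r' ∧ (la d < la g ∨ IsU D P la d g) := by
  have hS := SU_cl hP hc d
  have hr' : r⁻¹ ∈ XR M P := inv_mem_XR.2 hr
  have hdi : d⁻¹ = d := hP.inv d hd hn
  have hd' : d⁻¹ ∈ SU D P la d := by
    refine ⟨(par M P).inv_mem hd, Or.inr ⟨by rw [hdi], ?_⟩⟩
    rw [inv_inv]
    exact IsU.self hP hc hd hn
  have h1 : D.C (r⁻¹ * d⁻¹) ∈ LI D P (SU D P la d) := by
    have h2 := NegL_le_LI D (C_sub_NegL D hS hr' hd')
    have h3 := Submodule.add_mem _ h2 (TC_mem_LI D hr' hd')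
    rwa [sub_add_cancel] at h3
  have h2 := LI_mul D hS (D.C y⁻¹) h1
  have h3 : D.C.repr (D.C y⁻¹ * D.C (r⁻¹ * d⁻¹)) z⁻¹ ≠ 0 := by
    have e : D.C y⁻¹ * D.C (r⁻¹ * d⁻¹) = D.fl (D.C (d * r) * D.C y) := by
      rw [D.fl_mul, D.fl_C, D.fl_C, mul_inv_rev]
    rw [e, D.repr_C_fl, inv_inv]
    exact h
  obtain ⟨p, hp, g', hg'', e⟩ := LI_repr D hS h2 h3
  refine ⟨g'⁻¹, (par M P).inv_mem hg''.1, p⁻¹, inv_mem_XL.2 hp, ?_, ?_⟩
  · rw [← mul_inv_rev, ← e, inv_inv]
  · rw [hP.lainv g' hg''.1]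
    rcases hg''.2 with h4 | ⟨-, h4⟩
    · exact Or.inl h4
    · exact Or.inr h4

end un

end Pool.Agent.Helper63.LG
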