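import Pool.Agent.Helper63.LG.Ru
import Pool.Agent.Helper63.LG.Un

/-!
# The products with a distinguished element
-/

namespace Pool.Agent.Helper63.LG

open Pool.Agent.Helper35.KL Pool.Agent.Helper35.AM

section nl

variable {B : Type} {M : CoxeterMatrix B} {L : M.Group → ℤ} {H : Type} [Ring H] [Algebra LP H]
variable {D : KLD M L H} {β : B → Bool} {la : M.Group → ℕ} {X : Set B} {k : ℕ}

/-- The good pairs `p`, `d`. -/
structure Nice (D : KLD M L H) (β : B → Bool) (la : M.Group → ℕ) (k : ℕ) (X : Set B)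
    (p d : M.Group) : Prop where
  hX : Sp β X
  hp : p ∈ XR M X
  hd : d ∈ par M X
  hn : nu D la d ≠ 0
  hk : la d = k
  li : ¬ Occ M β la k p
  alt : (∃ s, X = {s} ∧ d = sm M s) ∨
    ((∀ s, dL M d s → ¬ Occ M β la k (p * sm M s)) ∧
      ((∃ i, X = blk β i) ∨ ∃ a b, β a ≠ β b ∧ X = {a, b} ∧
        max (L (sm M a)) (L (sm M b)) < k))

/-! Piece N-a -/

/-- PROOF. Induction on `len w`. `w = 1`: clear. Otherwise let `t` be a right descent (`exists_descR`),
`w = (w * t) * t`. `t ≠ s`: `{s}` is a piece with `la s = L s ≥ k` (`Dat.la_sm`), and `s` would be a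
factor of `w`. `w * t` is not `Occ k` by `Occ.rd_left`; induction. -/
theorem mem_compl (hD : Dat D β la) {s : B} (hs : (k : ℤ) ≤ L (sm M s)) {w : M.Group}
    (h : ¬ Occ M β la k w) : w ∈ par M ({s}ᶜ : Set B) := by
  suffices hh : ∀ n w, len M w < n → ¬ Occ M β la k w → w ∈ par M ({s}ᶜ : Set B) from
    hh _ w (Nat.lt_succ_self _) h
  intro n
  induction n with
  | zero =>
    intro w hw
    omega
  | succ n ih =>
    intro w hw h
    by_cases h1 : w = 1
    · rw [h1]
      exact one_mem _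
    · obtain ⟨t, ht⟩ := exists_dR h1
      have e : w * sm M t * sm M t = w := by rw [mul_assoc, sm_sm, mul_one]
      have hrd : Rd M (w * sm M t) (sm M t) := by
        unfold Rd
        rw [e, len_sm]
        exact ht.symm
      have hts : t ≠ s := by
        rintro rfl
        apply h
        rw [← e]
        refine Occ.rd_right hrd (Occ.of_mem (Sp_single β t) (sm_mem_par rfl) ?_)
        have := hD.la_sm t
        omega
      have h2 : w * sm M t ∈ par M ({s}ᶜ : Set B) := by
        apply ih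
        · unfold dR at ht
          omega
        · intro h3
          apply h
          rw [← e]
          exact Occ.rd_left hrd h3
      rw [← e]
      exact mul_mem h2 (sm_mem_par hts)

/-- PROOF. If `t ≠ s` is another left descent of `s * r` then `s * r = wJ s t * r'`
(`two_L`), so `s * r` has `Occ (la (wJ s t))`, and `la (wJ s t) = L (wJ s t) ≥ L s + L t > k`
(`Dat.la_wJ`, `Fin2`). -/
theorem mem_XL_compl (hD : Dat D β la) {s : B} (hs : L (sm M s) = k) {r : M.Group}
    (hr : r ∈ XL M ({s} : Set B)) (h : ¬ Occ M β la (k + 1) (sm M s * r)) :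
    sm M s * r ∈ XL M ({s}ᶜ : Set B) := by
  rw [mem_XL]
  intro t ht hdt
  have hst : s ≠ t := fun e => ht e.symm
  have hds : dL M (sm M s * r) s := by
    have h1 := mem_XL.1 hr s rfl
    rw [not_dL] at h1
    unfold dL
    rw [sm_cancel, h1]
  obtain ⟨h0, z, hz, hw, hl⟩ := two_L hds hdt hst
  have hF : Fin2 M s t := Fin2.of_L hds hdt hst
  apply h
  rw [hw]
  have hrd : Rd M (wJ M s t) z := by
    unfold Rd
    rw [← hw, hF.lw, hl]
    ring
  refine Occ.rd_left hrd (Occ.of_mem (Sp_pair β s t) (wJ_mem s t) ?_)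
  have h1 := hD.la_wJ hF
  have h2 := wt2 hD.wt hF
  have h3 := hD.wt.pos t
  omega

private theorem nl_single_par {s : B} {g : M.Group} (hg : g ∈ par M ({s} : Set B))
    (hne : g ≠ 1) : g = sm M s := by
  have hs : sm M s ∈ par M ({s} : Set B) := sm_mem_par rfl
  have key : ∀ w : M.Group, w ∈ par M ({s} : Set B) → w ≠ 1 → dR M w s := by
    intro w hw hw1
    obtain ⟨t, ht⟩ := exists_dR hw1
    have h1 : t = s := dR_mem hw ht
    rwa [h1] at ht
  have h1 := key g hg hne
  by_contra hcon
  have h2 : g * sm M s ≠ 1 := by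
    intro h2
    apply hcon
    rw [mul_eq_one_iff_eq_inv] at h2
    rw [h2, sm_inv]
  exact (dR_mul.1 (key (g * sm M s) (mul_mem hg hs) h2)) h1

/-- The case of a generator.
PROOF. `g = s` (`g ∈ par M {s}` is `1` or `s`, `la g = la d = k > 0`, `IsU.val`).
`C s = T s + qq (-L s) • 1`, `L s = k` (`Dat.la_sm`), so `ld 0 (T p * C s * T r) =
ld 0 (T p * T s * T r) + ld k (T p * T r)` (`ld_smul`-type lemma; the second part is `0` by
`TT_zero`, as `p` is not `Occ k`). `p ∈ par M {s}ᶜ` (`mem_compl`), `s * r ∈ XL M {s}ᶜ`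
(`mem_XL_compl`), so `p * (s * r)` is reduced (`len_mul_XL`) and `T p * T s * T r = T (p s r)`. -/
theorem nl_single [Finite B] (hD : Dat D β la) (hk : 0 < k) {s : B} {p d g r : M.Group}
    (h : Nice D β la k {s} p d) (hd : d = sm M s) (hg : IsU D {s} la d g)
    (hr : r ∈ XL M ({s} : Set B)) (hl : ¬ Occ M β la (k + 1) (g * r)) :
    len M (p * g * r) = len M p + len M g + len M r ∧
      tt D β la k p g r = ld D (Occ M β la (k + 1)) 0 (D.T (p * g * r)) := by
  have hlad := (hg.val (hD.locS h.hX) (hD.cycS h.hX)).2.2.1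
  have hkd := h.hk
  have hgne : g ≠ 1 := by
    rintro rfl
    rw [hD.one] at hlad
    omega
  have hgs : g = sm M s := nl_single_par hg.hg hgne
  subst hgs
  have hla : la (sm M s) = k := by rw [← hlad, hkd]
  have hLs : L (sm M s) = k := by rw [← hD.la_sm s, hla]
  have h1 : p ∈ par M ({s}ᶜ : Set B) := mem_compl hD hLs.ge h.li
  have h2 : sm M s * r ∈ XL M ({s}ᶜ : Set B) := mem_XL_compl hD hLs hr hl
  have h3 := len_mul_XL h1 h2
  have h4 : len M (sm M s * r) = len M r + 1 := hr s rfl
  have h5 : len M (p * sm M s * r) = len M p + len M (sm M s) + len M r := by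
    rw [mul_assoc, h3, h4, len_sm]
    omega
  refine ⟨h5, ?_⟩
  have e1 : D.T p * D.T (sm M s) * D.T r = D.T (p * sm M s * r) := by
    rw [mul_assoc, D.T_sm_mul h4, ← D.T_mul _ _ h3, mul_assoc]
  have e2 : D.T p * D.C (sm M s) * D.T r =
      D.T (p * sm M s * r) + qq (-L (sm M s)) • (D.T p * D.T r) := by
    rw [D.C_sm hD.wt, mul_add, add_mul, e1, mul_smul_comm, mul_one, smul_mul_assoc]
  have h6 : ld D (Occ M β la (k + 1)) 0 (qq (-L (sm M s)) • (D.T p * D.T r)) = 0 := by
    have h7 := ld_smul (D := D) (hv := Occ M β la (k + 1)) (Dle.qq (-L (sm M s)))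
      (TT_LL hD (idl hD (k + 1)) p r)
    rw [hLs, neg_add_cancel] at h7
    rw [hLs, h7, TT_zero hD hk (fun hh => h.li hh.1), smul_zero]
  rw [tt, hla, sub_self, e2, map_add, h6, add_zero]

/-! Piece N-b -/

/-- PROOF. `G2_neg` (`p` is not `Occ k`; `dL g s` implies `dL d s` by `IsU.desc`, so `p * s` is not
`Occ k`). -/
theorem go_bot (hD : Dat D β la) {p d g r : M.Group} (h : Nice D β la k X p d)
    (h2 : ∀ s, dL M d s → ¬ Occ M β la k (p * sm M s)) (hg : IsU D X la d g) :
    Go M (G2 M β la k) p g r = ⊥ := by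
  unfold Go
  rw [G2_neg fun h' => h.li h'.1, bot_sup_eq]
  refine iSup_eq_bot.2 ?_
  rintro ⟨s, hs, _⟩
  exact G2_neg fun h' =>
    h2 s ((IsU.desc hD.wt (hD.locS h.hX) (hD.cycS h.hX) hg s).1 hs) h'.1

/-- PROOF. `la g = la d = k > 0` (`IsU.val`), so `g ≠ 1` (`Dat.one`). If `g = s` is a generator
(`len_one_par`): `dL g s`, `dL d s` (`IsU.desc`), so `p * s` is not `Occ k`, but
`la s = k`. -/
theorem nice_len (hD : Dat D β la) (hk : 0 < k) {p d g : M.Group} (h : Nice D β la k X p d)
    (h2 : ∀ s, dL M d s → ¬ Occ M β la k (p * sm M s)) (hg : IsU D X la d g) :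
    2 ≤ len M g := by
  have hlg : la g = k := by
    rw [← (hg.val (hD.locS h.hX) (hD.cycS h.hX)).2.2.1]
    exact h.hk
  have h0 : len M g ≠ 0 := by
    intro h0
    rw [len_eq_zero.1 h0, hD.one] at hlg
    omega
  have h1 : len M g ≠ 1 := by
    intro h1
    obtain ⟨s, hs, rfl⟩ := len_one_par hg.hg h1
    have h3 : dL M (sm M s) s := by
      unfold dL
      rw [sm_sm, len_one, len_sm]
    refine h2 s ((IsU.desc hD.wt (hD.locS h.hX) (hD.cycS h.hX) hg s).1 h3) ?_
    have h4 := occ_pur (β := β) (N := k) (p := p) (u := sm M s) (r := 1) h.hX hg.hg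
      (by rw [mul_one, len_one, len_XR_mul h.hp hg.hg, Nat.add_zero]) hlg.ge
    rwa [mul_one] at h4
  omega

/-- The other cases.
PROOF. `ctx2`, `ih_all` with `tb1`, `la g = k` (`IsU.val`). `st_B` or `st_X` and `go_bot`:
`T p * C g * T r - T p * T g * T r` is in `Dec 0 ⊥ (-1)`, so its `ld 0` is `0` (`ld` is additive,
`ld_lt`). -/
theorem nl_step [Finite B] (hD : Dat D β la) (hk : 0 < k) {p d g r : M.Group}
    (h : Nice D β la k X p d)
    (h2 : ∀ s, dL M d s → ¬ Occ M β la k (p * sm M s))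
    (h3 : (∃ i, X = blk β i) ∨ ∃ a b, β a ≠ β b ∧ X = {a, b} ∧
      max (L (sm M a)) (L (sm M b)) < k)
    (hg : IsU D X la d g) (hr : r ∈ XL M X) :
    tt D β la k p g r = ld D (Occ M β la (k + 1)) 0 (D.T p * D.T g * D.T r) := by
  have hlg : la g = k := by
    rw [← (hg.val (hD.locS h.hX) (hD.cycS h.hX)).2.2.1]
    exact h.hk
  have key : Dec (LfC D (Occ M β la (k + 1))) ((k : ℤ) - la g) (Go M (G2 M β la k) p g r)
      (0 - 1) (D.T p * D.C g * D.T r - D.T p * D.T g * D.T r) := by
    have hC := ctx2 (D := D) hD hk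
    have hI := ih_all hC (fun n => tb1 n) (len M p + len M g + len M r)
    rcases h3 with ⟨i, hX⟩ | ⟨a, b, hab, hX, _⟩
    · subst hX
      exact st_B hC h.hp hg.hg hr hI (tb1 _)
    · subst hX
      exact st_X hC hab h.hp hg.hg hr hI (tb1 _)
  rw [go_bot hD h h2 hg] at key
  obtain ⟨y, z, e, _, hy, hz⟩ := key
  have e2 : (k : ℤ) - la g = 0 := by omega
  have hy0 : ld D (Occ M β la (k + 1)) ((k : ℤ) - la g) y = 0 := AddSubgroup.mem_bot.1 hy
  have hz0 : ld D (Occ M β la (k + 1)) ((k : ℤ) - la g) z = 0 := ld_lt (by omega) hz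
  rw [tt]
  rw [e2] at hy0 hz0 ⊢
  rw [← sub_eq_zero, ← map_sub, e, map_add, hy0, hz0, add_zero]

/-- PROOF. Blocks: `nice_len`, `gg_B'` (for `ctx2`, `ih_all`, `tb1`): the product is in
`Dec (k - L g) ⊥ (-1)` (`G2_neg`), `la g ≤ L g` (`Dat.la_le`), `la g = k`; so its `ld 0` is `0`
(`ld_lt`). Pairs: `Dat.cross` for `g` and `la g = k > max`: `g` is `wJ a b`, `wJ a b * b` or
`wJ a b * a`, of length at least `4` (`hD.big`, `len_wJ`; see the proof of `cl_X` in St.lean), and the
product is reduced by `rd_four`. -/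
theorem nl_nonred [Finite B] (hD : Dat D β la) (hk : 0 < k) {p d g r : M.Group}
    (h : Nice D β la k X p d)
    (h2 : ∀ s, dL M d s → ¬ Occ M β la k (p * sm M s))
    (h3 : (∃ i, X = blk β i) ∨ ∃ a b, β a ≠ β b ∧ X = {a, b} ∧
      max (L (sm M a)) (L (sm M b)) < k)
    (hg : IsU D X la d g) (hr : r ∈ XL M X)
    (hne : len M (p * g * r) ≠ len M p + len M g + len M r) :
    ld D (Occ M β la (k + 1)) 0 (D.T p * D.T g * D.T r) = 0 := by
  have hv := hg.val (hD.locS h.hX) (hD.cycS h.hX)
  have hlg : la g = k := hv.2.2.1.symm.trans h.hk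
  rcases h3 with ⟨i, rfl⟩ | ⟨a, b, hab, rfl, hmax⟩
  · have h5 := gg_B' (ctx2 hD hk) h.hp hg.hg hr (nice_len hD hk h h2 hg) hne
      (ih_all (ctx2 hD hk) (fun n => tb1 n) _) (tb1 _)
    obtain ⟨y, z, hyz, hy, hy0, hz⟩ := h5
    rw [G2_neg (fun h' => h.li h'.1)] at hy0
    have hle := hD.la_le h.hX hg.hg
    rw [hlg] at hle
    have hy0' : ld D (Occ M β la (k + 1)) ((k : ℤ) - L g) y = 0 := AddSubgroup.mem_bot.1 hy0
    have e1 : ld D (Occ M β la (k + 1)) 0 y = 0 := by
      rcases lt_or_eq_of_le (show (k : ℤ) - L g ≤ 0 by omega) with h6 | h6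
      · exact ld_lt h6 hy
      · rw [h6] at hy0'
        exact hy0'
    have e2 : ld D (Occ M β la (k + 1)) 0 z = 0 := ld_lt (show (0 : ℤ) - 1 < 0 by norm_num) hz
    rw [hyz, map_add, e1, e2, add_zero]
  · exfalso
    have hne' : a ≠ b := fun h' => hab (congrArg β h')
    have h5 : 5 ≤ M a b := hD.big a b hab
    have hf : Fin2 M a b := Fin2.of_ne hne' (by omega)
    have hlw : len M (wJ M a b) = M a b := hf.lw
    have hone : ∀ x : B, len M (wJ M a b) ≤ len M (wJ M a b * sm M x) + 1 := by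
      intro x
      have h7 := rs_mul_le (wJ M a b * sm M x) (sm M x)
      rw [mul_assoc, sm_sm, mul_one, len_sm] at h7
      exact h7
    have h4 : 4 ≤ len M g := by
      rcases hD.cross hab hg.hg with h6 | h6 | h6 | h6
      · omega
      · rw [h6]
        omega
      · have h9 := hone b
        rw [h6.2]
        omega
      · have h9 := hone a
        rw [h6.2]
        omega
    exact hne (rd_four hD.big hab h.hp hg.hg h4 hr)

/-- The leading terms.
PROOF. `nl_single`, `nl_step`, `nl_nonred`. For reduced products `T p * T g * T r = T (p g r)`, and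
`ld 0 (T z) = ld 0 (C z)` (`ld_T`). -/
theorem NL [Finite B] (hD : Dat D β la) (hk : 0 < k) {p d g r : M.Group}
    (h : Nice D β la k X p d) (hg : IsU D X la d g) (hr : r ∈ XL M X)
    (hl : ¬ Occ M β la (k + 1) (g * r)) :
    (len M (p * g * r) = len M p + len M g + len M r →
      tt D β la k p g r = ld D (Occ M β la (k + 1)) 0 (D.C (p * g * r))) ∧
    (len M (p * g * r) ≠ len M p + len M g + len M r → tt D β la k p g r = 0) := by
  rcases h.alt with ⟨s, rfl, hd⟩ | ⟨h2, h3⟩
  · obtain ⟨h4, h5⟩ := nl_single hD hk h hd hg hr hl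
    refine ⟨fun _ => ?_, fun h6 => absurd h4 h6⟩
    rw [h5, ld_T]
  · have h4 := nl_step hD hk h h2 h3 hg hr
    refine ⟨fun h5 => ?_, fun h5 => ?_⟩
    · have hlen : len M (p * g) = len M p + len M g := len_XR_mul h.hp hg.hg
      rw [h4, ← ld_T, ← D.T_mul p g hlen, ← D.T_mul (p * g) r (by rw [h5, hlen])]
    · rw [h4]
      exact nl_nonred hD hk h h2 h3 hg hr h5

/-! Piece N-c -/

/-- PROOF. Induction on the length (or `Nat.find`): a shortest prefix with `Occ k`. -/
theorem exists_prefix {z : M.Group} (h : Occ M β la k z) :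
    ∃ b r, z = b * r ∧ len M z = len M b + len M r ∧ Occ M β la k b ∧
      ∀ b' t, b = b' * t → len M b = len M b' + len M t → t ≠ 1 → ¬ Occ M β la k b' := by
  classical
  have hex : ∃ n, ∃ b r, z = b * r ∧ len M z = len M b + len M r ∧ Occ M β la k b ∧
      len M b = n := ⟨len M z, z, 1, by rw [mul_one], by rw [len_one, add_zero], h, rfl⟩
  obtain ⟨b, r, h1, h2, h3, h4⟩ := Nat.find_spec hex
  refine ⟨b, r, h1, h2, h3, ?_⟩
  intro b' t e1 e2 ht ho
  have h5 : len M t ≠ 0 := fun h0 => ht (len_eq_zero.1 h0)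
  have h6 : z = b' * (t * r) := by rw [h1, e1, mul_assoc]
  have a1 := rs_mul_le (M := M) t r
  have a2 := rs_mul_le (M := M) b' (t * r)
  rw [← h6] at a2
  have h7 : len M z = len M b' + len M (t * r) := by omega
  exact Nat.find_min hex (m := len M b') (by omega) ⟨b', t * r, h6, h7, ho, rfl⟩

private theorem nc_single {z b r : M.Group} {s : B} (hD : Dat D β la) {N : ℕ} (hz : z = b * r)
    (hl : len M z = len M b + len M r) (hs : dR M b s) (hN : (N : ℤ) ≤ L (sm M s)) :
    Occ M β la N z := by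
  have hs' : len M (b * sm M s) + 1 = len M b := hs
  refine ⟨{s}, Sp_single β s, b * sm M s, sm M s, r, sm_mem_par rfl, ?_, ?_, ?_⟩
  · have h1 := hD.la_sm s
    omega
  · rw [mul_assoc b, sm_sm, mul_one]
    exact hz
  · rw [len_sm]
    omega

/-- A right descent of weight `k`.
PROOF. `X = {s}`, `d = s`, `p = b * s`. `la s = L s = k` (`Dat.la_sm`); `nu s = 1`:
`p 1 s = qq (-L s)` (`C_sm`); `b s ∈ XR {s}`, `r ∈ XL {s}` as `(b s) s r` is reduced; `b s` is not
`Occ k` by minimality. `IsU s s`: `IsU.self`. -/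
theorem np_single (hD : Dat D β la) {z b r : M.Group} {s : B} (hz : z = b * r)
    (hl : len M z = len M b + len M r)
    (hm : ∀ b' t, b = b' * t → len M b = len M b' + len M t → t ≠ 1 → ¬ Occ M β la k b')
    (hs : dR M b s) (hL : L (sm M s) = k) :
    ∃ X p g r d, Nice D β la k X p d ∧ IsU D X la d g ∧ r ∈ XL M X ∧ z = p * g * r ∧
      len M z = len M p + len M g + len M r := by
  have hs' : len M (b * sm M s) + 1 = len M b := hs
  have hSp := Sp_single β s
  have hla : la (sm M s) = k := by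
    have h1 := hD.la_sm s
    omega
  have hmem : sm M s ∈ par M ({s} : Set B) := sm_mem_par rfl
  have hbs : b = b * sm M s * sm M s := by rw [mul_assoc, sm_sm, mul_one]
  have hsne : sm M s ≠ 1 := by
    intro h0
    have h1 := len_sm (M := M) s
    rw [h0, len_one] at h1
    omega
  have hnu : nu D la (sm M s) ≠ 0 := by
    have hpos := hD.wt.pos s
    have h1 : (D.p 1 (sm M s)) = qq (-L (sm M s)) := by
      classical
      rw [KLD.p, D.C_sm hD.wt, ← KLD.T_one D, map_add, map_smul, Finsupp.add_apply,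
        Finsupp.smul_apply, Module.Basis.repr_self, Module.Basis.repr_self,
        Finsupp.single_eq_same, Finsupp.single_apply, if_neg hsne, zero_add, smul_eq_mul, mul_one]
    rw [nu, h1, cf_qq, hla, if_pos (by rw [hL])]
    exact one_ne_zero
  refine ⟨{s}, b * sm M s, sm M s, r, sm M s, ⟨hSp, ?_, hmem, hnu, hla, ?_, Or.inl ⟨s, rfl, rfl⟩⟩,
    IsU.self (hD.locS hSp) (hD.cycS hSp) hmem hnu, ?_, ?_, ?_⟩
  · rw [mem_XR]
    intro t ht
    rw [Set.mem_singleton_iff] at ht
    subst ht
    rw [dR_mul, not_not]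
    exact hs
  · exact hm _ _ hbs (by rw [len_sm]; omega) hsne
  · rw [mem_XL]
    intro t ht
    rw [Set.mem_singleton_iff] at ht
    subst ht
    intro h0
    have h0' : len M (sm M t * r) + 1 = len M r := h0
    have h3 : z = b * sm M t * (sm M t * r) := by
      rw [mul_assoc b, sm_cancel]
      exact hz
    have a1 := rs_mul_le (M := M) (b * sm M t) (sm M t * r)
    rw [← h3] at a1
    omega
  · rw [← hbs]
    exact hz
  · rw [len_sm]
    omega

/-- No right descent of weight `k`.
PROOF. `Dat.nf` for `b`: `b = p * g0 * r'` reduced, `X` a block or a pair, `la g0 = k` (`b` is not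
`Occ (k + 1)` as a factor of `z`). Minimality: `r' = 1`. `g0 ≠ 1` (`k > 0`). `len g0 ≥ 2`: if
`g0 = s` then `s` is a right descent of `b` of weight `k`. `r = k2 * r1` with `k2 ∈ par M X`,
`r1 ∈ XL M X` (`exists_XL`); `g = g0 * k2` (reduced), `z = p * g * r1`. `la g = k`
(`Dat.mul`, and `z` is not `Occ (k + 1)`). `d` = left unit of `g0` (`IsU.ex`); it is the left unit of `g`
(`IsU.step` with `v = k2`, `h_mul`). `Nice`: `p` and `p * s` for `dL d s` (so `dL g0 s`,
`IsU.desc`) are proper prefixes of `b = p g0`. `X = {a, b}`: let `s` be a right descent of `g0` (so of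
`b`), `t` the other letter; `L s ≤ k` (`z` is not `Occ (k + 1)`), `L s ≠ k`; `g0 * s ≠ 1` has a right
descent, which is `t`, so `t` is a factor of the proper prefix `p * (g0 * s)` of `b` and
`L t < k` (`Dat.la_sm`). -/
theorem np_main (hD : Dat D β la) (hk : 0 < k) {z b r : M.Group} (hz : z = b * r)
    (hl : len M z = len M b + len M r) (hb : Occ M β la k b)
    (hm : ∀ b' t, b = b' * t → len M b = len M b' + len M t → t ≠ 1 → ¬ Occ M β la k b')
    (hli : ¬ Occ M β la (k + 1) z) (hs : ∀ s, dR M b s → L (sm M s) ≠ k) :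
    ∃ X p g r d, Nice D β la k X p d ∧ IsU D X la d g ∧ r ∈ XL M X ∧ z = p * g * r ∧
      len M z = len M p + len M g + len M r := by
  obtain ⟨X, hX, p, hp, g0, hg0, r', hr', he, hl0, hN⟩ := hD.nf hb
  have hSp : Sp β X := by
    rcases hX with ⟨i, rfl⟩ | ⟨a, b, _, rfl⟩
    · exact Sp_blk i
    · exact Sp_pair β a b
  have l1 := len_XR_mul hp hg0
  -- the last factor is trivial
  have hr1 : r' = 1 := by
    by_contra hne
    refine hm (p * g0) r' he (by omega) hne ?_
    exact Occ.rd_right l1 (Occ.of_mem hSp hg0 hN)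
  subst hr1
  rw [mul_one] at he
  rw [len_one, add_zero] at hl0
  -- `la g0 = k`
  have hla0 : la g0 = k := by
    by_contra hne
    refine hli ⟨X, hSp, p, g0, r, hg0, by omega, ?_, by omega⟩
    rw [hz, he]
  have hg01 : g0 ≠ 1 := by
    rintro rfl
    rw [hD.one] at hla0
    omega
  have hlg : len M g0 ≠ 0 := fun h => hg01 (len_eq_zero.1 h)
  -- right descents of `g0`
  have hdesc : ∀ s, dR M g0 s → dR M b s := by
    intro s h
    rw [he]
    exact dR_of_rd l1 h
  have h2 : 2 ≤ len M g0 := by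
    by_contra hlt
    obtain ⟨s, hsX, e⟩ := len_one_par hg0 (by omega)
    have h3 : dR M g0 s := by
      unfold dR
      rw [e, sm_sm, len_one, len_sm]
    refine hs s (hdesc s h3) ?_
    rw [← hD.la_sm s, ← e, hla0]
  -- the factorization of `r`
  obtain ⟨k2, hk2, r1, hr1, e2⟩ := exists_XL X r
  have l2 := len_mul_XL hk2 hr1
  rw [← e2] at l2
  have e3 : z = p * (g0 * k2) * r1 := by
    rw [hz, he, e2]
    group
  have hgk : g0 * k2 ∈ par M X := (par M X).mul_mem hg0 hk2
  have a1 := rs_mul_le (M := M) (p * (g0 * k2)) r1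
  have a2 := rs_mul_le (M := M) p (g0 * k2)
  have a3 := rs_mul_le (M := M) g0 k2
  rw [← e3] at a1
  have h3 : len M (g0 * k2) = len M g0 + len M k2 := by omega
  have hla : la (g0 * k2) = la g0 := by
    have h4 := (hD.mul hSp hg0 hk2 h3).1
    by_contra hne
    exact hli ⟨X, hSp, p, g0 * k2, r1, hgk, by omega, e3, by omega⟩
  have hlP := hD.locS hSp
  have hcy := hD.cycS hSp
  obtain ⟨d, hd⟩ := IsU.ex hlP hg0
  have hd' : IsU D X la d (g0 * k2) := hd.step hlP hcy hk2 hgk (h_mul D h3) hla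
  refine ⟨X, p, g0 * k2, r1, d, ⟨hSp, hp, hd.hd, hd.hn, ?_, ?_, Or.inr ⟨?_, ?_⟩⟩, hd', hr1, e3,
    by omega⟩
  · rw [(hd.val hlP hcy).2.2.1, hla0]
  · exact hm p g0 he (by omega) hg01
  · intro s hds
    have h4 : dL M g0 s := (hd.desc hD.wt hlP hcy s).2 hds
    have h4' : len M (sm M s * g0) + 1 = len M g0 := h4
    have hsX : s ∈ X := dL_mem hg0 h4
    have h5 : b = p * sm M s * (sm M s * g0) := by
      rw [mul_assoc p, sm_cancel]
      exact he
    have h6 : len M (p * sm M s) = len M p + 1 := hp s hsX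
    refine hm (p * sm M s) (sm M s * g0) h5 (by omega) ?_
    intro h0
    rw [h0, len_one] at h4'
    omega
  · rcases hX with ⟨i, hi⟩ | ⟨a, c, hac, hi⟩
    · exact Or.inl ⟨i, hi⟩
    · refine Or.inr ⟨a, c, hac, hi, ?_⟩
      obtain ⟨s, hsX, h4⟩ := exists_descR hg0 hg01
      have h4' : dR M g0 s := h4
      have hLs : L (sm M s) < k := by
        have h5 := hs s (hdesc s h4')
        have h6 : L (sm M s) ≤ k := by
          by_contra hlt
          exact hli (nc_single hD hz hl (hdesc s h4') (by push_cast; omega))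
        omega
      have h7 : g0 * sm M s ∈ par M X := (par M X).mul_mem hg0 (sm_mem_par hsX)
      have h8 : g0 * sm M s ≠ 1 := by
        intro h0
        rw [h0, len_one] at h4
        omega
      obtain ⟨t, htX, h9⟩ := exists_descR h7 h8
      have h9' : dR M (g0 * sm M s) t := h9
      have hts : t ≠ s := by
        rintro rfl
        exact (dR_mul.1 h9') h4'
      have h10 := len_XR_mul hp h7
      have h11 : ¬ Occ M β la k (p * (g0 * sm M s)) := by
        refine hm _ (sm M s) ?_ ?_ ?_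
        · rw [mul_assoc, mul_assoc g0, sm_sm, mul_one]
          exact he
        · rw [len_sm]
          omega
        · intro h0
          have h1 := len_sm (M := M) s
          rw [h0, len_one] at h1
          omega
      have hLt : L (sm M t) < k := by
        by_contra hlt
        refine h11 (nc_single (r := 1) hD (mul_one _).symm (by rw [len_one, add_zero])
          (dR_of_rd h10 h9') (by omega))
      rw [hi] at hsX htX
      rcases hsX with rfl | hsX <;> rcases htX with rfl | htX
      · exact absurd rfl hts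
      · rw [Set.mem_singleton_iff] at htX
        subst htX
        exact max_lt hLs hLt
      · rw [Set.mem_singleton_iff] at hsX
        subst hsX
        exact max_lt hLt hLs
      · rw [Set.mem_singleton_iff] at hsX htX
        exact absurd (htX.trans hsX.symm) hts

/-- Good decompositions. -/
theorem NP (hD : Dat D β la) (hk : 0 < k) {z : M.Group} (h : Occ M β la k z)
    (hl : ¬ Occ M β la (k + 1) z) :
    ∃ X p g r d, Nice D β la k X p d ∧ IsU D X la d g ∧ r ∈ XL M X ∧ z = p * g * r ∧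
      len M z = len M p + len M g + len M r := by
  obtain ⟨b, r, h1, h2, h3, h4⟩ := exists_prefix h
  by_cases hs : ∃ s, dR M b s ∧ L (sm M s) = k
  · obtain ⟨s, hs1, hs2⟩ := hs
    exact np_single hD h1 h2 h4 hs1 hs2
  · push Not at hs
    exact np_main hD hk h1 h2 h3 h4 hl hs

end nl

end Pool.Agent.Helper63.LG
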