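import Pool.Agent.Helper63.LG.Jr
import Pool.Agent.Helper63.LG.Nl

/-!
# P2, P3 and P6
-/

namespace Pool.Agent.Helper63.LG

open Pool.Agent.Helper35.KL Pool.Agent.Helper35.AM

section jf

variable {B : Type} {M : CoxeterMatrix B} {L : M.Group → ℤ} {H : Type} [Ring H] [Algebra LP H]
variable {D : KLD M L H} {β : B → Bool} {la : M.Group → ℕ} [Finite B] {X : Set B} {k : ℕ}

/-! Piece F-a -/

/-- PROOF. `a 1 = 0` (`al_at_one`, `a_eq_al`), `p_self`. -/
theorem nn_at_one (hD : Dat D β la) : D.nn 1 = 1 := by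
  have h1 : D.a 1 = 0 := by rw [a_eq_al hD, al_at_one hD]
  rw [KLD.nn, h1, D.p_self, Nat.cast_zero, neg_zero, cf_one, if_pos rfl]

/-- The distinguished elements.
PROOF. `NP`: `δ = p * g * r` reduced, `Nice k X p d`, `IsU d g`. Let `d'` be the right unit of `g` in
`par M X` (`Loc.unitR` for `hD.locS`): `gc g d' g = nu d' ≠ 0`, the other `gc g d' c` are `0`.
`tp_uniq`: `tp (p * g) (d' * r) = nu d' • tt p g r`. `NL` (`g * r` is not `Occ (k + 1)` as a factor of
`δ`) and `ld_C_al`: `tt p g r = single δ 1`. `e_tp`: `nu d' * nn δ` is `1` if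
`p * g = (d' * r)⁻¹` and `al (p * g) = k`, and `0` otherwise. It is not `0`, so
`p * g = r⁻¹ * d'` (`d'⁻¹ = d'` by `Loc.inv`) and `nu d' * nn δ = 1`. `XR_unique`
(`inv_mem_XR`): `p = r⁻¹`, `g = d'`. So `g` is distinguished, `IsU g g` (`IsU.self`) and `d = g`
(`IsU.uniq`). -/
theorem D_form (hD : Dat D β la) (hk : 0 < k) {δ : M.Group} (hn : D.nn δ ≠ 0)
    (ha : al M β la δ = k) : ∃ X p d, Nice D β la k X p d ∧ δ = p * d * p⁻¹ ∧
      len M δ = len M p + len M d + len M p ∧ D.nn δ = nu D la d ∧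
      (nu D la d = 1 ∨ nu D la d = -1) := by
  classical
  have h1 : Occ M β la k δ := (Occ_iff hD).2 ha.ge
  have h2 : ¬ Occ M β la (k + 1) δ := by
    rw [Occ_iff hD, ha]
    omega
  obtain ⟨X, p, g, r, d, hN, hU, hr, hδ, hlen⟩ := NP hD hk h1 h2
  have hP := hD.locS hN.hX
  have hcy := hD.cycS hN.hX
  obtain ⟨d', hd', hn', hpm', -, e2, e3⟩ := hP.unitR g hU.hg
  have hgr : ¬ Occ M β la (k + 1) (g * r) := by
    intro h
    apply h2
    rw [hδ, mul_assoc]
    refine Occ.rd_right ?_ h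
    unfold Rd
    rw [← mul_assoc, ← hδ, hlen, len_mul_XL hU.hg hr, add_assoc]
  have htt : tt D β la k p g r = Finsupp.single δ 1 := by
    rw [(NL hD hk hN hU hr hgr).1 (by rw [← hδ]; exact hlen), ← hδ, ld_C_al hD ha.le]
  have htp : tp D β la k (p * g) (d' * r) = nu D la d' • (Finsupp.single δ 1 : M.Group →₀ ℤ) := by
    rw [tp_uniq (k := k) hD hN.hX hN.hp hU.hg hd' hr e3, e2, htt]
  have hval : ∀ z, tp D β la k (p * g) (d' * r) z = if z = δ then nu D la d' else 0 := by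
    intro z
    rw [htp, Finsupp.smul_apply, Finsupp.single_apply]
    by_cases hz : δ = z
    · rw [if_pos hz, if_pos hz.symm, smul_eq_mul, mul_one]
    · rw [if_neg hz, if_neg (fun h0 => hz h0.symm), smul_zero]
  have hsum := e_tp hD (k := k) (p * g) (d' * r)
  rw [Finset.sum_eq_single δ (by
      intro z _ hz
      rw [hval, if_neg hz, zero_mul]) (by
      intro hz
      rw [Finsupp.notMem_support_iff.1 hz, zero_mul]), hval, if_pos rfl] at hsum
  have hne : nu D la d' * D.nn δ ≠ 0 := mul_ne_zero hn' hn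
  by_cases hc : p * g = (d' * r)⁻¹ ∧ al M β la (p * g) = k
  · rw [if_pos hc] at hsum
    have hinv : d'⁻¹ = d' := hP.inv d' hd' hn'
    have h3 : p * g = r⁻¹ * d' := by
      rw [hc.1, mul_inv_rev, hinv]
    obtain ⟨h4, h5⟩ := XR_unique hN.hp (inv_mem_XR.2 hr) hU.hg hd' h3
    rw [← h5] at hn' hpm' hsum
    have h6 : d = g := IsU.uniq hP hcy hU (IsU.self hP hcy hU.hg hn')
    rw [← h6] at hn' hpm' hsum
    have hrp : r = p⁻¹ := by rw [h4, inv_inv]
    refine ⟨X, p, d, hN, ?_, ?_, ?_, hpm'⟩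
    · rw [hδ, ← h6, hrp]
    · rw [hlen, ← h6, hrp, len_inv]
    · rcases hpm' with h7 | h7
      · rw [h7, one_mul] at hsum
        rw [hsum, h7]
      · rw [h7] at hsum ⊢
        linarith
  · rw [if_neg hc] at hsum
    exact absurd hsum hne

/-! Piece F-b -/

/-- PROOF. `al x = al u = k` (`tp_al`), `h (d p⁻¹) x u ≠ 0` (`tp_eq`). `SU_supp` with `r = p⁻¹`:
`u = g * r`, `r ∈ XL M X`, and `la d < la g` or `IsU d g`; not the first as `la g ≤ al u = k = la d`
(`al_mem`, `al_mul`, `len_mul_XL`). `cyc_tp` twice (with `(d p⁻¹, x, u⁻¹)` and `(x, u⁻¹, d p⁻¹)`):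
`tp (d p⁻¹) x u = tp u⁻¹ (d p⁻¹) x⁻¹`, `u⁻¹ = r⁻¹ * g⁻¹`. `tp_uniq` with `IsU.right`:
`tp (r⁻¹ g⁻¹) (d p⁻¹) = nu d • tt r⁻¹ g⁻¹ p⁻¹`, and `tt_inv`:
`tt r⁻¹ g⁻¹ p⁻¹ x⁻¹ = tt p g r x`. It is not `0`, so `NL` (`g * r = u` is not `Occ (k + 1)`): the product
is reduced and `tt p g r = ld 0 (C (p g r))` is not `0` at `x`, so `x = p g r` and the value is `1`
(`ld_C_al`, or `ld_II`/`ld_C`). -/
theorem star_a (hD : Dat D β la) (hk : 0 < k) {p d x u : M.Group} (h : Nice D β la k X p d)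
    (hu : tp D β la k (d * p⁻¹) x u ≠ 0) :
    ∃ g r, IsU D X la d g ∧ r ∈ XL M X ∧ u = g * r ∧ x = p * g * r ∧
      len M x = len M p + len M g + len M r ∧ tp D β la k (d * p⁻¹) x u = nu D la d := by
  classical
  have hX := h.hX
  have hP := hD.locS hX
  have hcy := hD.cycS hX
  obtain ⟨-, -, hau⟩ := tp_al hD hu
  have hle : D.a u ≤ k := by rw [a_eq_al hD, hau]
  have hh : D.h (d * p⁻¹) x u ≠ 0 := by
    intro h0
    apply hu
    rw [tp_eq hD _ _ _ hle, h0, cf_zero]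
  have hp' : p⁻¹ ∈ XL M X := inv_mem_XL.2 h.hp
  obtain ⟨g, hg, r, hr, he, hor⟩ := SU_supp hP hcy h.hd h.hn hp' hh
  have hgk : la g ≤ k := by
    have h1 := (al_mul hD (len_mul_XL hg hr)).1
    rw [al_mem hD hX hg, ← he, hau] at h1
    exact h1
  have hU : IsU D X la d g := by
    rcases hor with h1 | h1
    · rw [h.hk] at h1
      omega
    · exact h1
  -- the cyclic shift
  have e1 : tp D β la k (d * p⁻¹) x u = nu D la d * tt D β la k p g r x := by
    have c1 := cyc_tp (k := k) hD (d * p⁻¹) x u⁻¹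
    have c2 := cyc_tp (k := k) hD x u⁻¹ (d * p⁻¹)
    rw [inv_inv] at c1
    obtain ⟨h2, h3⟩ := hU.right hP hcy
    have c3 := tp_uniq (k := k) hD hX (p := r⁻¹) (x := g⁻¹) (y := d) (u := g⁻¹) (r := p⁻¹)
      (inv_mem_XR.2 hr) ((par M X).inv_mem hg) h.hd hp' h3
    rw [c1, c2, he, mul_inv_rev, c3, h2, tt_inv hD hX hg x, Finsupp.smul_apply, smul_eq_mul]
  have hne : tt D β la k p g r x ≠ 0 := by
    intro h0
    apply hu
    rw [e1, h0, mul_zero]
  have hl : ¬ Occ M β la (k + 1) (g * r) := by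
    rw [Occ_iff hD, ← he, hau]
    omega
  obtain ⟨n1, n2⟩ := NL hD hk h hU hr hl
  have hred : len M (p * g * r) = len M p + len M g + len M r := by
    by_contra hc
    apply hne
    rw [n2 hc, Finsupp.zero_apply]
  have n3 := n1 hred
  have hal : al M β la (p * g * r) ≤ k := by
    by_contra hc
    apply hne
    rw [n3, ld_II (C_mem_II (D := D) ((Occ_iff hD).2 (by omega))), Finsupp.zero_apply]
  rw [ld_C_al hD hal] at n3
  have hx : p * g * r = x := by
    by_contra hc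
    apply hne
    rw [n3, Finsupp.single_eq_of_ne (Ne.symm hc)]
  refine ⟨g, r, hU, hr, he, hx.symm, ?_, ?_⟩
  · rw [← hx]
    exact hred
  · rw [e1, n3, hx, Finsupp.single_eq_same, mul_one]

/-- the products of `p d` with `g r` -/
private theorem Fb_prod (hD : Dat D β la) (hk : 0 < k) {p d g r : M.Group}
    (h : Nice D β la k X p d) (hg : IsU D X la d g) (hr : r ∈ XL M X)
    (ho : al M β la (g * r) = k) (ha : al M β la (p * g * r) ≤ k)
    (hl : len M (p * g * r) = len M p + len M g + len M r) :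
    tp D β la k (p * d) (g * r) =
      nu D la d • (Finsupp.single (p * g * r) 1 : M.Group →₀ ℤ) := by
  have hP := hD.locS h.hX
  have hc := hD.cycS h.hX
  have h1 : tp D β la k (p * d) (g * r) = gc D la d g g • tt D β la k p g r :=
    tp_uniq hD h.hX h.hp h.hd hg.hg hr
      (fun c hc' hne => IsU.zero hP hc h.hd h.hn hg.hg hc' hne)
  have h2 : ¬ Occ M β la (k + 1) (g * r) := by
    rw [Occ_iff hD]
    omega
  rw [h1, (hg.val hP hc).1, (NL hD hk h hg hr h2).1 hl, ld_C_al hD ha]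

/-- The products with a distinguished element.
PROOF. `D_form`: `δ = p d p⁻¹`. `tp (p d) (d p⁻¹) = nu d • single δ 1` (`tp_uniq` with `IsU.self`,
`IsU.val`, `IsU.zero`; `NL`, `ld_C_al`). `tp_assoc` for `p d`, `d p⁻¹`, `x`: the left side is
`nu d • tp δ x`. The right side is `∑ tp (d p⁻¹) x u • tp (p d) u`. If `tp (d p⁻¹) x = 0` then
`tp δ x = 0`, as `nu d = ±1`. If not, all `u` in the support are equal to `p⁻¹ * x` by `star_a`,
`u = g * r`, the value is `nu d`, and `tp (p d) (g r) = nu d • tt p g r = nu d • single x 1`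
(`tp_uniq`, `IsU.val`, `IsU.zero`, `NL`, `ld_C_al`). So
`nu d • tp δ x = nu d • nu d • single x 1`. -/
theorem star (hD : Dat D β la) (hk : 0 < k) {δ : M.Group} (hn : D.nn δ ≠ 0)
    (ha : al M β la δ = k) (x : M.Group) :
    tp D β la k δ x = 0 ∨ tp D β la k δ x = D.nn δ • (Finsupp.single x 1 : M.Group →₀ ℤ) := by
  classical
  obtain ⟨X, p, d, h, hδ, hl, hnn, hpm⟩ := D_form hD hk hn ha
  have hP := hD.locS h.hX
  have hc := hD.cycS h.hX
  have hp' : p⁻¹ ∈ XL M X := inv_mem_XL.2 h.hp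
  have hself := IsU.self hP hc h.hd h.hn
  have hn0 : nu D la d ≠ 0 := h.hn
  -- cancellation of `nu d`
  have hcan : ∀ f g : M.Group →₀ ℤ, nu D la d • f = nu D la d • g → f = g := by
    intro f g hfg
    rcases hpm with h0 | h0
    · rwa [h0, one_smul, one_smul] at hfg
    · rw [h0, neg_smul, neg_smul, one_smul, one_smul] at hfg
      exact neg_injective hfg
  -- the first product
  have l1 : len M (d * p⁻¹) = len M d + len M p := by
    rw [len_mul_XL h.hd hp', len_inv]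
  have o1 : al M β la (d * p⁻¹) = k := by
    have hrd : Rd M p (d * p⁻¹) := by
      unfold Rd
      rw [← mul_assoc, ← hδ, hl, l1, add_assoc]
    have h1 := (al_mul hD hrd).2
    rw [← mul_assoc, ← hδ, ha] at h1
    have hrd2 : Rd M d p⁻¹ := by
      unfold Rd
      rw [l1, len_inv]
    have h2 := (al_mul hD hrd2).1
    have h3 : Occ M β la k d := Occ.of_mem h.hX h.hd h.hk.ge
    rw [Occ_iff hD] at h3
    omega
  have e1 : tp D β la k (p * d) (d * p⁻¹) =
      nu D la d • (Finsupp.single δ 1 : M.Group →₀ ℤ) := by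
    rw [hδ]
    exact Fb_prod hD hk h hself hp' o1 (by rw [← hδ, ha]) (by rw [← hδ, hl, len_inv])
  have has := tp_assoc (k := k) hD (p * d) (d * p⁻¹) x
  have eL : ∑ u ∈ (tp D β la k (p * d) (d * p⁻¹)).support,
      tp D β la k (p * d) (d * p⁻¹) u • tp D β la k u x = nu D la d • tp D β la k δ x := by
    have hv : ∀ u, tp D β la k (p * d) (d * p⁻¹) u = if u = δ then nu D la d else 0 := by
      intro u
      rw [e1, Finsupp.smul_apply, Finsupp.single_apply]
      by_cases hu : δ = u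
      · rw [if_pos hu, if_pos hu.symm, smul_eq_mul, mul_one]
      · rw [if_neg hu, if_neg (fun h0 => hu h0.symm), smul_zero]
    rw [Finset.sum_eq_single δ]
    · rw [hv, if_pos rfl]
    · intro u _ hu
      rw [hv, if_neg hu, zero_smul]
    · intro hu
      exact absurd (Finsupp.mem_support_iff.2 (by rw [hv, if_pos rfl]; exact hn0)) hu
  rw [eL] at has
  by_cases h0 : tp D β la k (d * p⁻¹) x = 0
  · left
    rw [h0, Finsupp.support_zero, Finset.sum_empty] at has
    exact hcan _ _ (by rw [has, smul_zero])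
  · right
    obtain ⟨u0, hu0⟩ : ∃ u0, tp D β la k (d * p⁻¹) x u0 ≠ 0 := by
      by_contra hne
      push Not at hne
      exact h0 (Finsupp.ext hne)
    have huniq : ∀ u, tp D β la k (d * p⁻¹) x u ≠ 0 → u = p⁻¹ * x := by
      intro u hu
      obtain ⟨g, r, -, -, e2, e3, -, -⟩ := star_a hD hk h hu
      rw [e3, e2]
      group
    have eR : ∑ u ∈ (tp D β la k (d * p⁻¹) x).support,
        tp D β la k (d * p⁻¹) x u • tp D β la k (p * d) u =
        tp D β la k (d * p⁻¹) x u0 • tp D β la k (p * d) u0 := by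
      rw [Finset.sum_eq_single u0]
      · intro u hu hne
        exact absurd ((huniq u (Finsupp.mem_support_iff.1 hu)).trans (huniq u0 hu0).symm) hne
      · intro hu
        exact absurd (Finsupp.mem_support_iff.2 hu0) hu
    obtain ⟨g, r, hg, hr, e2, e3, e4, e5⟩ := star_a hD hk h hu0
    obtain ⟨-, a1, a2⟩ := tp_al hD hu0
    have e6 : tp D β la k (p * d) u0 = nu D la d • (Finsupp.single x 1 : M.Group →₀ ℤ) := by
      rw [e2, e3]
      refine Fb_prod hD hk h hg hr (by rw [← e2, a2]) (by rw [← e3, a1]) ?_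
      rw [← e3, e4]
    rw [eR, e5, e6] at has
    rw [hnn]
    exact hcan _ _ has

/-! Piece F-c -/

/-- PROOF. `k = a z`. `k = 0`: `z = 1` (`al_eq_zero`). `k > 0`: `D_form`, `Loc.inv`. -/
theorem P6_a (hD : Dat D β la) {z : M.Group} (hz : D.nn z ≠ 0) : z⁻¹ = z := by
  rcases Nat.eq_zero_or_pos (al M β la z) with h0 | h0
  · rw [(al_eq_zero hD).1 h0, inv_one]
  · obtain ⟨X, p, d, hN, hz', -, -, -⟩ := D_form hD h0 hz rfl
    rw [hz', mul_inv_rev, mul_inv_rev, inv_inv, (hD.locS hN.hX).inv d hN.hd hN.hn, mul_assoc]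

/-- PROOF. `D_form`, `nn_at_one`. -/
theorem nn_pm (hD : Dat D β la) {z : M.Group} (hz : D.nn z ≠ 0) :
    D.nn z = 1 ∨ D.nn z = -1 := by
  rcases Nat.eq_zero_or_pos (al M β la z) with h0 | h0
  · rw [(al_eq_zero hD).1 h0]
    exact Or.inl (nn_at_one hD)
  · obtain ⟨X, p, d, -, -, -, h1, h2⟩ := D_form hD h0 hz rfl
    rw [h1]
    exact h2

/-- PROOF. `k = a z`. If `k = 0`: `a x = a y = 0` (`Q_a`), so `x = y = 1` (`al_eq_zero`,
`a_eq_al`). If `k > 0`: `tp_g`: `tp x y z⁻¹ ≠ 0`; `cyc_tp` twice: `tp z x y⁻¹ ≠ 0`; `star`: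
`tp z x = nn z • single x 1`, so `y⁻¹ = x`. -/
theorem P2_a (hD : Dat D β la) {x y z : M.Group} (hz : D.nn z ≠ 0) (h : D.g x y z ≠ 0) :
    x = y⁻¹ := by
  classical
  obtain ⟨h1, h2⟩ := Q_a hD h
  rcases Nat.eq_zero_or_pos (D.a z) with h0 | h0
  · rw [h0, a_eq_al hD] at h1 h2
    rw [(al_eq_zero hD).1 h1, (al_eq_zero hD).1 h2, inv_one]
  · rw [← tp_g hD (k := D.a z) rfl, cyc_tp hD x y z, cyc_tp hD y z x] at h
    rcases star hD h0 hz (a_eq_al hD z).symm x with h3 | h3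
    · rw [h3] at h
      exact absurd rfl h
    · rw [h3, Finsupp.smul_apply, Finsupp.single_apply] at h
      by_contra hne
      apply h
      rw [if_neg hne, smul_zero]

/-- PROOF. `k = a y`. If `k = 0`: `y = 1`; `z = 1`: `h 1 1 1 = 1` (`D.h_one`), `nn_at_one`; and
`g 1 1 z' ≠ 0` gives `z' = 1` (`D.h_one`). Let `k > 0`. `e_tp` for `y⁻¹`, `y`:
`∑ tp y⁻¹ y z * nn z = 1`. If `nn z ≠ 0` and `tp y⁻¹ y z ≠ 0` then `al z = k` (`tp_al`), `z⁻¹ = z`
(`P6_a`), and `tp y⁻¹ y z = tp y⁻¹ y z⁻¹ = tp z y⁻¹ y⁻¹ = nn z` (`cyc_tp` twice, `star`), so that the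
summand is `nn z * nn z = 1` (`nn_pm`). So the sum is the number of these `z`, and there is exactly
one. `g y⁻¹ y z = tp y⁻¹ y z⁻¹ = nn z` (`tp_g`). If `nn z' ≠ 0` and `g y⁻¹ y z' ≠ 0` then `a z' = k`
(`Q_a`) and `tp y⁻¹ y z' = tp y⁻¹ y z'⁻¹ ≠ 0`, so `z' = z`. -/
theorem P3_a (hD : Dat D β la) (y : M.Group) :
    ∃ z, D.nn z ≠ 0 ∧ D.g y⁻¹ y z = D.nn z ∧ (D.nn z = 1 ∨ D.nn z = -1) ∧
      ∀ z', D.nn z' ≠ 0 → D.g y⁻¹ y z' ≠ 0 → z' = z := by
  classical
  obtain ⟨k, hk⟩ : ∃ k, k = D.a y := ⟨_, rfl⟩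
  have hky : al M β la y = k := by rw [hk, a_eq_al hD]
  rcases Nat.eq_zero_or_pos k with h0 | h0
  · have hy : y = 1 := (al_eq_zero hD).1 (by rw [hky, h0])
    have ha1 : D.a 1 = 0 := by rw [a_eq_al hD, al_at_one hD]
    have h1 : D.nn 1 = 1 := nn_at_one hD
    subst hy
    refine ⟨1, by rw [h1]; exact one_ne_zero, ?_, Or.inl h1, ?_⟩
    · rw [KLD.g, inv_one, D.h_one, if_pos rfl, h1, ha1, Nat.cast_zero, cf_one, if_pos rfl]
    · intro z' _ h2
      have h3 := Q_a hD h2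
      rw [inv_one, ha1, a_eq_al hD z'] at h3
      exact (al_eq_zero hD).1 h3.1.symm
  · have hyi : al M β la y⁻¹ = k := by rw [al_inv hD, hky]
    -- the values at the distinguished elements
    have key : ∀ z, D.nn z ≠ 0 → al M β la z = k →
        tp D β la k y⁻¹ y z = 0 ∨ tp D β la k y⁻¹ y z = D.nn z := by
      intro z hz ha
      have h1 : tp D β la k y⁻¹ y z = tp D β la k z y⁻¹ y⁻¹ := by
        have h2 := cyc_tp hD (k := k) y⁻¹ y z
        rw [P6_a hD hz] at h2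
        rw [h2, cyc_tp hD y z y⁻¹]
      rcases star hD h0 hz ha y⁻¹ with h3 | h3
      · rw [h1, h3]
        exact Or.inl rfl
      · rw [h1, h3, Finsupp.smul_apply, Finsupp.single_eq_same, smul_eq_mul, mul_one]
        exact Or.inr rfl
    have hsum := e_tp hD (k := k) y⁻¹ y
    rw [if_pos ⟨rfl, hyi⟩] at hsum
    -- the summands
    have hterm : ∀ z ∈ (tp D β la k y⁻¹ y).support,
        tp D β la k y⁻¹ y z * D.nn z = if D.nn z ≠ 0 then 1 else 0 := by
      intro z hz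
      have hz' := Finsupp.mem_support_iff.1 hz
      by_cases hn : D.nn z = 0
      · rw [hn, mul_zero, if_neg (not_not.2 rfl)]
      · rw [if_pos hn]
        rcases key z hn (tp_al hD hz').2.2 with h1 | h1
        · exact absurd h1 hz'
        · rw [h1]
          rcases nn_pm hD hn with h2 | h2 <;> rw [h2] <;> norm_num
    rw [Finset.sum_congr rfl hterm, ← Finset.sum_filter, Finset.sum_const, nsmul_eq_mul,
      mul_one] at hsum
    have hcard : ((tp D β la k y⁻¹ y).support.filter fun z => D.nn z ≠ 0).card = 1 := by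
      exact_mod_cast hsum
    obtain ⟨z, hz⟩ := Finset.card_eq_one.1 hcard
    have hzm : z ∈ (tp D β la k y⁻¹ y).support.filter fun z => D.nn z ≠ 0 := by
      rw [hz]
      exact Finset.mem_singleton_self z
    rw [Finset.mem_filter, Finsupp.mem_support_iff] at hzm
    obtain ⟨h1, h2⟩ := hzm
    have h3 := (tp_al hD h1).2.2
    refine ⟨z, h2, ?_, nn_pm hD h2, ?_⟩
    · rw [← tp_g hD (k := k) (by rw [a_eq_al hD, h3]), P6_a hD h2]
      rcases key z h2 h3 with h4 | h4
      · exact absurd h4 h1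
      · exact h4
    · intro z' h4 h5
      have h6 : D.a z' = k := by rw [← (Q_a hD h5).2, hk]
      have h7 : z' ∈ (tp D β la k y⁻¹ y).support.filter fun z => D.nn z ≠ 0 := by
        rw [Finset.mem_filter, Finsupp.mem_support_iff]
        refine ⟨?_, h4⟩
        rw [← tp_g hD h6, P6_a hD h4] at h5
        exact h5
      rw [hz] at h7
      exact Finset.mem_singleton.1 h7

end jf

/-- The core properties. -/
theorem core_lg {B : Type} {M : CoxeterMatrix B} {L : M.Group → ℤ} {H : Type} [Ring H]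
    [Algebra LP H] {D : KLD M L H} {β : B → Bool} {la : M.Group → ℕ} [Finite B]
    (hD : Dat D β la) : D.Core where
  bdd := bounded_al hD
  P1' := P1_a hD
  P2' hz h := P2_a hD hz h
  P3' := P3_a hD
  P4' h := P4_al hD h
  P6' hz := P6_a hD hz
  Q' h := Q_a hD h
  P12' I _ hw := P12_al hD I hw
  LL k m w x y hx := LL_al hD k m w x y hx

end Pool.Agent.Helper63.LG
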