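import Pool.Agent.Helper63.LG.R1

/-!
# The asymptotic products and P15
-/

/-
Port of AM/Ll.lean, Ll2.lean, Ll3.lean (see AM/Df.lean for the conventions), with `P i` replaced by a piece `X`.
-/

namespace Pool.Agent.Helper63.LG

open Pool.Agent.Helper35.KL Pool.Agent.Helper35.AM

section ll

variable {B : Type} {M : CoxeterMatrix B} {L : M.Group → ℤ} {H : Type} [Ring H] [Algebra LP H]
variable {D : KLD M L H} {β : B → Bool} {la : M.Group → ℕ} [Finite B] (hD : Dat D β la)

/-- The leading coefficients of the product of `C x` and `C y`. -/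
noncomputable def tp (D : KLD M L H) (β : B → Bool) (la : M.Group → ℕ) (k : ℕ)
    (x y : M.Group) : M.Group →₀ ℤ :=
  ld D (Occ M β la (k + 1)) k (D.C x * D.C y)

open scoped Classical in
/-- The linear map of right multiplication in the asymptotic ring. -/
noncomputable def bt (D : KLD M L H) (β : B → Bool) (la : M.Group → ℕ) (k : ℕ)
    (y : M.Group) : H →ₗ[LP] H :=
  D.C.constr LP fun x => if Occ M β la (k + 1) x then 0 else D.up (tp D β la k x y)

variable {k : ℕ}

include hD in
theorem tp_eq (x y z : M.Group) (hz : D.a z ≤ k) :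
    tp D β la k x y z = (D.h x y z).coeff k := by
  classical
  have h1 : ¬ Occ M β la (k + 1) z := by
    rw [Occ_iff hD, ← a_eq_al hD]
    omega
  rw [tp, ld_apply, if_neg h1]
  rfl

include hD in
theorem tp_ne (x y z : M.Group) (hz : D.a z ≠ k) : tp D β la k x y z = 0 := by
  classical
  rcases lt_or_ge k (D.a z) with h | h
  · rw [tp, ld_apply, if_pos]
    rw [Occ_iff hD, ← a_eq_al hD]
    omega
  · rw [tp_eq hD x y z h]
    have h1 := h_dle_al hD x y z
    rw [← a_eq_al hD] at h1
    exact h1 k (by omega)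

include hD in
/-- The products with `C y`, in terms of the products of the leading coefficients. -/
theorem ld_mul_C {x : H} (hx : x ∈ LL D (Occ M β la (k + 1)) 0) (y : M.Group) :
    x * D.C y ∈ LL D (Occ M β la (k + 1)) k ∧
      D.up (ld D (Occ M β la (k + 1)) k (x * D.C y)) =
        bt D β la k y (D.up (ld D (Occ M β la (k + 1)) 0 x)) := by
  classical
  have hI := idl hD (k + 1)
  set hv := Occ M β la (k + 1) with hhv
  have hk : ∀ x y, D.C x * D.C y ∈ LL D hv (k : ℤ) := fun x y => CC_LL hD (idl hD (k + 1)) x y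
  set t := ld D hv 0 x with ht
  have hts : ∀ z, t z ≠ 0 → ¬ hv z := fun z hz => ld_supp hz
  have h1 : x - D.up t ∈ LL D hv (-1) := by
    have h2 : x - D.up t ∈ LL D hv 0 := AddSubgroup.sub_mem _ hx (up_LL t)
    have h3 : ld D hv 0 (x - D.up t) = 0 := by
      rw [map_sub, ld_up hts, sub_self]
    have h4 := LL_of_ld h2 h3
    rwa [zero_sub] at h4
  have h2 : x * D.C y ∈ LL D hv k := by
    have h3 := mul_LL hI hk hx (C_LL (hv := hv) y)
    rwa [zero_add, zero_add] at h3
  refine ⟨h2, ?_⟩
  have h3 : (x - D.up t) * D.C y ∈ LL D hv ((k : ℤ) - 1) := by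
    have h4 := mul_LL hI hk h1 (C_LL (hv := hv) y)
    have e : (-1 : ℤ) + 0 + k = k - 1 := by ring
    rwa [e] at h4
  have h4 : ld D hv k (x * D.C y) = ld D hv k (D.up t * D.C y) := by
    refine ld_congr ?_
    rwa [← sub_mul]
  rw [h4, KLD.up_eq D t, Finset.sum_mul, map_sum, map_sum, map_sum]
  refine Finset.sum_congr rfl fun z hz => ?_
  rw [smul_mul_assoc, map_zsmul, map_zsmul, map_zsmul]
  congr 1
  rw [bt, Module.Basis.constr_basis, if_neg (hts z (Finsupp.mem_support_iff.1 hz))]
  rfl

theorem bt_II (y : M.Group) {x : H} (hx : x ∈ II D (Occ M β la (k + 1))) :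
    bt D β la k y x = 0 := by
  classical
  have h : II D (Occ M β la (k + 1)) ≤ LinearMap.ker (bt D β la k y) := by
    rw [II, Submodule.span_le]
    rintro _ ⟨w, hw, rfl⟩
    have hw' : Occ M β la (k + 1) w := hw
    rw [SetLike.mem_coe, LinearMap.mem_ker, bt, Module.Basis.constr_basis, if_pos hw']
  exact h hx

end ll

section ll2

variable {B : Type} {M : CoxeterMatrix B} {L : M.Group → ℤ} {H : Type} [Ring H] [Algebra LP H]
variable {D : KLD M L H} {β : B → Bool} {la : M.Group → ℕ} [Finite B] (hD : Dat D β la)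

variable {k : ℕ}

private theorem ll2_bt_C {x : M.Group} (h : ¬ Occ M β la (k + 1) x) (y : M.Group) :
    bt D β la k y (D.C x) = D.up (tp D β la k x y) := by
  rw [bt, Module.Basis.constr_basis, if_neg h]

private theorem ll2_bt_C_hv {x : M.Group} (h : Occ M β la (k + 1) x) (y : M.Group) :
    bt D β la k y (D.C x) = 0 := by
  rw [bt, Module.Basis.constr_basis, if_pos h]

private theorem ll2_bar_bt_C (x y : M.Group) :
    D.bar (bt D β la k y (D.C x)) = bt D β la k y (D.C x) := by
  by_cases h : Occ M β la (k + 1) x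
  · rw [ll2_bt_C_hv h, map_zero]
  · rw [ll2_bt_C h, D.bar_up]

private theorem ll2_psi_C (n : ℤ) (b g : M.Group) : Helper35.AM.psi D n b (D.C g) =
    ∑ c ∈ (D.C.repr (D.C b * D.C g)).support, (D.h b g c).coeff n • D.C c := by
  rw [Helper35.AM.psi, Module.Basis.constr_basis]

private theorem ll2_bar_bt_psi (m : ℤ) (b x y : M.Group) :
    D.bar (bt D β la k y (Helper35.AM.psi D m b (D.C x))) = bt D β la k y (Helper35.AM.psi D m b (D.C x)) := by
  rw [ll2_psi_C, map_sum, map_sum]
  refine Finset.sum_congr rfl fun c _ => ?_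
  rw [map_zsmul, map_zsmul, ll2_bar_bt_C]

private theorem ll2_bar_psi_C (m : ℤ) (b x : M.Group) :
    D.bar (Helper35.AM.psi D m b (D.C x)) = Helper35.AM.psi D m b (D.C x) := by
  rw [ll2_psi_C, map_sum]
  refine Finset.sum_congr rfl fun c _ => ?_
  rw [map_zsmul, D.bar_C]

private theorem ll2_Le_bt (Z : M.Group → H) (Q : Set B) (y : M.Group) (x : H) :
    Le D Q la k (fun g => bt D β la k y (Z g)) x = bt D β la k y (Le D Q la k Z x) := by
  have h : Le D Q la k (fun g => bt D β la k y (Z g)) = (bt D β la k y).comp (Le D Q la k Z) := by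
    refine D.C.ext fun g => ?_
    rw [LinearMap.comp_apply, Helper35.AM.Le, Helper35.AM.Le, Module.Basis.constr_basis, Module.Basis.constr_basis]
    split_ifs with h
    · rfl
    · rw [map_zero]
  exact LinearMap.congr_fun h x

private theorem ll2_qq (n : ℤ) : (qq n * qq (-n) : LP) = 1 := by
  rw [← LaurentPolynomial.T_add, add_neg_cancel, LaurentPolynomial.T_zero]

/-- An element of the lattice is congruent to its leading term. -/
private theorem ll2_sub {hv : M.Group → Prop} {x : H} {n : ℤ} (hx : x ∈ LL D hv n) :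
    x - qq n • D.up (ld D hv n x) ∈ LL D hv (n - 1) := by
  have h1 : qq n • D.up (ld D hv n x) ∈ LL D hv n := by
    have h2 := smul_LL (Dle.qq n) (up_LL (D := D) (hv := hv) (ld D hv n x))
    rwa [add_zero] at h2
  refine LL_of_ld (AddSubgroup.sub_mem _ hx h1) ?_
  have h2 := ld_smul (Dle.qq n) (up_LL (D := D) (hv := hv) (ld D hv n x))
  rw [add_zero, cf_qq, if_pos rfl, one_smul, ld_up (fun z hz => ld_supp hz)] at h2
  rw [map_sub, h2, sub_self]

include hD in
private theorem ll2_CC (x y : M.Group) :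
    D.C x * D.C y ∈ LL D (Occ M β la (k + 1)) k := by
  exact CC_LL hD (idl hD (k + 1)) x y

include hD in
/-- The degree `m` part of the left multiplication commutes with `bt`. -/
private theorem ll2_psi {X : Set B} (hX : Sp β X) {r : M.Group} (hr : r ∈ XL M X) (y : M.Group)
    {b g : M.Group} (hb : b ∈ par M X) (hg : g ∈ par M X) (hk : la g = k)
    (hx : ¬ Occ M β la (k + 1) (g * r)) (m : ℤ) :
    Helper35.AM.psi D m b (D.up (tp D β la k (g * r) y)) - bt D β la k y (Helper35.AM.psi D m b (D.C (g * r))) ∈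
      II D (Occ M β la (k + 1)) := by
  have hI := idl hD (k + 1)
  set hv := Occ M β la (k + 1) with hhv
  set x := g * r with hxd
  have h1 : Helper35.AM.psi D m b (D.C x * D.C y) - Helper35.AM.psi D m b (D.C x) * D.C y ∈ II D hv :=
    psi_mul hI (hD.locS hX) (fun c hc h => Occ.of_mem hX hc h) (fun _ hw => hD.occ_inv hw) m hb
      hr hg hk (D.C y)
  have h2 : D.C x * D.C y - qq k • D.up (tp D β la k x y) ∈ LL D hv (k - 1) :=
    ll2_sub (ll2_CC hD x y)
  have h3 : Helper35.AM.psi D m b (D.C x * D.C y) - qq k • Helper35.AM.psi D m b (D.up (tp D β la k x y)) ∈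
      LL D hv (k - 1) := by
    have h4 := psi_LL hI m b h2
    rwa [map_sub, map_smul] at h4
  have h4 : Helper35.AM.psi D m b (D.C x) ∈ LL D hv 0 := psi_LL hI m b (C_LL x)
  obtain ⟨h5, h6⟩ := ld_mul_C hD (k := k) h4 y
  have h7 : bt D β la k y (D.up (ld D hv 0 (Helper35.AM.psi D m b (D.C x)))) =
      bt D β la k y (Helper35.AM.psi D m b (D.C x)) := by
    have h8 : Helper35.AM.psi D m b (D.C x) - D.up (ld D hv 0 (Helper35.AM.psi D m b (D.C x))) ∈ II D hv := by
      refine congr_up h4 ?_
      rw [ll2_bar_psi_C, sub_self]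
      exact Submodule.zero_mem _
    have h9 := bt_II (k := k) y h8
    rw [map_sub, sub_eq_zero] at h9
    exact h9.symm
  have h8 : Helper35.AM.psi D m b (D.C x) * D.C y - qq k • bt D β la k y (Helper35.AM.psi D m b (D.C x)) ∈
      LL D hv (k - 1) := by
    have h9 := ll2_sub h5
    rwa [h6, h7] at h9
  have h9 : qq k • (Helper35.AM.psi D m b (D.up (tp D β la k x y)) - bt D β la k y (Helper35.AM.psi D m b (D.C x))) ∈
      LL D hv (k - 1) := by
    have e : qq k • (Helper35.AM.psi D m b (D.up (tp D β la k x y)) - bt D β la k y (Helper35.AM.psi D m b (D.C x))) =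
        (Helper35.AM.psi D m b (D.C x) * D.C y - qq k • bt D β la k y (Helper35.AM.psi D m b (D.C x))) -
        (Helper35.AM.psi D m b (D.C x * D.C y) - qq k • Helper35.AM.psi D m b (D.up (tp D β la k x y))) +
        (Helper35.AM.psi D m b (D.C x * D.C y) - Helper35.AM.psi D m b (D.C x) * D.C y) := by
      rw [smul_sub]
      abel
    rw [e]
    exact AddSubgroup.add_mem _ (AddSubgroup.sub_mem _ h8 h3) (II_LL h1 _)
  have h10 : Helper35.AM.psi D m b (D.up (tp D β la k x y)) - bt D β la k y (Helper35.AM.psi D m b (D.C x)) ∈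
      LL D hv (-1) := by
    have h11 := smul_LL (Dle.qq (-k)) h9
    rw [smul_smul, mul_comm (qq (-(k : ℤ))), ll2_qq, one_smul] at h11
    have e : (-k : ℤ) + (k - 1) = -1 := by ring
    rwa [e] at h11
  refine congr_of_bar ?_ ?_ h10
  · rw [bar_psi_up, sub_self]
    exact Submodule.zero_mem _
  · rw [ll2_bar_bt_psi, sub_self]
    exact Submodule.zero_mem _

include hD in
/-- Left multiplication commutes with `bt`. -/
private theorem ll2_left {X : Set B} (hX : Sp β X) {r : M.Group} (hr : r ∈ XL M X) (y : M.Group)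
    {b g : M.Group} (hb : b ∈ par M X) (hg : g ∈ par M X) (hk : la g = k) :
    D.C b * bt D β la k y (D.C (g * r)) - bt D β la k y (D.C b * D.C (g * r)) ∈
      II D (Occ M β la (k + 1)) := by
  have hI := idl hD (k + 1)
  by_cases hx : Occ M β la (k + 1) (g * r)
  · rw [ll2_bt_C_hv hx, mul_zero, bt_II y (hI.mulL _ hx (D.C b)), sub_zero]
    exact Submodule.zero_mem _
  · rw [ll2_bt_C hx]
    obtain ⟨S₁, h1⟩ := psi_sum D b (D.up (tp D β la k (g * r) y))
    obtain ⟨S₂, h2⟩ := psi_sum D b (D.C (g * r))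
    have h3 := h1 (S₁ ∪ S₂) Finset.subset_union_left
    have h4 := h2 (S₁ ∪ S₂) Finset.subset_union_right
    rw [← h3, ← h4, map_sum, ← Finset.sum_sub_distrib]
    refine Submodule.sum_mem _ fun m _ => ?_
    rw [map_smul, ← smul_sub]
    exact Submodule.smul_mem _ _ (ll2_psi hD hX hr y hb hg hk hx m)

include hD in
/-- The support of the products. -/
private theorem ll2_supp {X : Set B} (hX : Sp β X) {g r : M.Group} (hg : g ∈ par M X)
    (hr : r ∈ XL M X) (hk : k ≤ la g) {y z : M.Group}
    (h : D.C.repr (D.C (g * r) * D.C y) z ≠ 0) :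
    ∃ g1 ∈ par M X, k ≤ la g1 ∧ ∃ r1 ∈ XL M X, z = g1 * r1 := by
  have hS := clL_Sk D (hD.locS hX) k
  have hr' : r⁻¹ ∈ XR M X := inv_mem_XR.2 hr
  have hg' : g⁻¹ ∈ Sk M X la k := by
    refine ⟨(par M X).inv_mem hg, ?_⟩
    rw [hD.inv hX hg]
    exact hk
  have h1 : D.C (r⁻¹ * g⁻¹) ∈ LI D X (Sk M X la k) := by
    have h2 := NegL_le_LI D (C_sub_NegL D hS hr' hg')
    have h3 := Submodule.add_mem _ h2 (TC_mem_LI D hr' hg')
    rwa [sub_add_cancel] at h3
  have h2 := LI_mul D hS (D.C y⁻¹) h1
  have h3 : D.C.repr (D.C y⁻¹ * D.C (r⁻¹ * g⁻¹)) z⁻¹ ≠ 0 := by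
    have e : D.C y⁻¹ * D.C (r⁻¹ * g⁻¹) = D.fl (D.C (g * r) * D.C y) := by
      rw [D.fl_mul, D.fl_C, D.fl_C, mul_inv_rev]
    rw [e, D.repr_C_fl, inv_inv]
    exact h
  obtain ⟨p, hp, g', hg'', e⟩ := LI_repr D hS h2 h3
  refine ⟨g'⁻¹, (par M X).inv_mem hg''.1, ?_, p⁻¹, inv_mem_XL.2 hp, ?_⟩
  · rw [hD.inv hX hg''.1]
    exact hg''.2
  · rw [← mul_inv_rev, ← e, inv_inv]

include hD in
private theorem ll2_T {X : Set B} (hX : Sp β X) {p g r : M.Group} (hp : p ∈ XR M X) (hg : g ∈ par M X)
    (hr : r ∈ XL M X) (hk : k ≤ la g) {y z : M.Group}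
    (h : D.C.repr (D.C (g * r) * D.C y) z ≠ 0) :
    D.T p * D.C z ∈ LL D (Occ M β la (k + 1)) 0 := by
  have hI := idl hD (k + 1)
  obtain ⟨g1, hg1, hk1, r1, hr1, rfl⟩ := ll2_supp hD hX hg hr hk h
  rcases eq_or_lt_of_le hk1 with h2 | h2
  · exact (admR hD hI hX hr1).lam p hp g1 hg1 h2.symm
  · refine II_LL (hI.mulL _ ?_ _) _
    rw [Occ_iff hD]
    have h3 := (al_mul hD (len_mul_XL hg1 hr1)).1
    rw [al_mem hD hX hg1] at h3
    omega

include hD in
private theorem ll2_lam {X : Set B} (hX : Sp β X) {p g r : M.Group} (hp : p ∈ XR M X)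
    (hg : g ∈ par M X) (hr : r ∈ XL M X) (hk : la g = k) (y : M.Group) :
    D.T p * bt D β la k y (D.C (g * r)) ∈ LL D (Occ M β la (k + 1)) 0 := by
  by_cases hx : Occ M β la (k + 1) (g * r)
  · rw [ll2_bt_C_hv hx, mul_zero]
    exact AddSubgroup.zero_mem _
  · rw [ll2_bt_C hx, D.up_eq, Finset.mul_sum]
    refine AddSubgroup.sum_mem _ fun z hz => ?_
    rw [mul_smul_comm]
    refine AddSubgroup.zsmul_mem _ ?_ _
    refine ll2_T hD hX hp hg hr hk.ge (y := y) ?_
    intro h0
    apply Finsupp.mem_support_iff.1 hz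
    classical
    rw [tp, ld_apply, h0, cf_zero, ite_self]

include hD in
/-- The asymptotic products with `y` as images of the `C g`. -/
theorem admB {X : Set B} (hX : Sp β X) {r : M.Group} (hr : r ∈ XL M X) (y : M.Group) :
    AdmL D (Occ M β la (k + 1)) X la k fun g => bt D β la k y (D.C (g * r)) where
  mul := fun b hb g hg hk => by
    have hI := idl hD (k + 1)
    have h1 := ll2_left hD hX hr y hb hg hk
    have h2 := E_right hI (hD.locS hX) (fun c hc h => Occ.of_mem hX hc h)
      (fun _ hw => hD.occ_inv hw) hb hr hg hk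
    have h3 := bt_II y h2
    rw [map_sub, sub_eq_zero] at h3
    rw [ll2_Le_bt (fun g => D.C (g * r)), ← h3]
    exact h1
  bar := fun g _ _ => by
    rw [ll2_bar_bt_C, sub_self]
    exact Submodule.zero_mem _
  lam := fun p hp g hg hk => ll2_lam hD hX hp hg hr hk y

include hD in
/-- The leading coefficients of the images. -/
theorem ld_TB {X : Set B} (hX : Sp β X) {p g r : M.Group} (hp : p ∈ XR M X) (hg : g ∈ par M X)
    (hr : r ∈ XL M X) (hk : la g = k) (y : M.Group) :
    D.up (ld D (Occ M β la (k + 1)) 0 (D.T p * bt D β la k y (D.C (g * r)))) =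
      bt D β la k y (D.up (tt D β la k p g r)) := by
  have hI := idl hD (k + 1)
  have hTC := ld_TC hD hI hX hp hg hr hk
  by_cases hx : Occ M β la (k + 1) (g * r)
  · rw [ll2_bt_C_hv hx, mul_zero, ← hTC, ld_II (hI.mulL _ hx _), map_zero, map_zero, map_zero]
  · obtain ⟨-, h1⟩ := ld_mul_C hD (k := k) ((admR hD hI hX hr).lam p hp g hg hk) y
    rw [hTC] at h1
    rw [← h1, ll2_bt_C hx]
    congr 1
    set hv := Occ M β la (k + 1) with hhv
    set rest := D.C (g * r) * D.C y - qq k • D.up (tp D β la k (g * r) y) with hrest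
    have h2 : rest ∈ LL D hv (k - 1) := ll2_sub (ll2_CC hD (g * r) y)
    have h3 : ∀ z, D.C.repr rest z ≠ 0 → D.T p * D.C z ∈ LL D hv 0 := by
      intro z hz
      refine ll2_T hD hX hp hg hr hk.ge (y := y) ?_
      intro h0
      apply hz
      classical
      rw [hrest, map_sub, Finsupp.sub_apply, h0, map_smul, Finsupp.smul_apply, D.repr_up, tp,
        ld_apply, h0, cf_zero, ite_self, zero_smul, smul_zero, sub_zero]
    have h4 : D.T p * rest ∈ LL D hv (k - 1) := by
      have e : rest = ∑ z ∈ (D.C.repr rest).support, D.C.repr rest z • D.C z := by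
        conv_lhs => rw [← D.C.linearCombination_repr rest]
        rw [Finsupp.linearCombination_apply, Finsupp.sum]
      rw [e, Finset.mul_sum]
      refine AddSubgroup.sum_mem _ fun z hz => ?_
      rw [mul_smul_comm]
      by_cases hzv : hv z
      · exact II_LL ((II D hv).smul_mem _ (hI.mulL z hzv _)) _
      · have h5 := smul_LL (h2 z hzv) (h3 z (Finsupp.mem_support_iff.1 hz))
        rwa [add_zero] at h5
    have h5 : ld D hv k (D.T p * D.C (g * r) * D.C y) =
        ld D hv k (qq k • (D.T p * D.up (tp D β la k (g * r) y))) := by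
      refine ld_congr ?_
      have e : D.T p * D.C (g * r) * D.C y - qq k • (D.T p * D.up (tp D β la k (g * r) y)) =
          D.T p * rest := by
        rw [hrest, mul_sub, mul_smul_comm, mul_assoc]
      rw [e]
      exact h4
    have h6 : D.T p * D.up (tp D β la k (g * r) y) ∈ LL D hv 0 := by
      have h7 := ll2_lam hD hX hp hg hr hk y
      rwa [ll2_bt_C hx] at h7
    have h7 := ld_smul (Dle.qq (k : ℤ)) h6
    rw [add_zero, cf_qq, if_pos rfl, one_smul] at h7
    rw [h5, h7]

end ll2

section ll3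

variable {B : Type} {M : CoxeterMatrix B} {L : M.Group → ℤ} {H : Type} [Ring H] [Algebra LP H]
variable {D : KLD M L H} {β : B → Bool} {la : M.Group → ℕ} [Finite B] (hD : Dat D β la)

variable {k : ℕ}

include hD in
private theorem ll3_Xi {X : Set B} (hX : Sp β X) {r : M.Group} (hr : r ∈ XL M X) (y : M.Group) (x : H) :
    Helper35.AM.Xi D X la k (Helper35.AM.Xf D (Occ M β la (k + 1)) fun g => bt D β la k y (D.C (g * r))) x =
      bt D β la k y
        (Helper35.AM.Xi D X la k (Helper35.AM.Xf D (Occ M β la (k + 1)) fun g => D.C (g * r)) x) := by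
  have hI := idl hD (k + 1)
  have h : Helper35.AM.Xi D X la k (Helper35.AM.Xf D (Occ M β la (k + 1)) fun g => bt D β la k y (D.C (g * r))) =
      (bt D β la k y).comp
        (Helper35.AM.Xi D X la k (Helper35.AM.Xf D (Occ M β la (k + 1)) fun g => D.C (g * r))) := by
    refine D.C.ext fun w => ?_
    rw [LinearMap.comp_apply, Helper35.AM.Xi, Helper35.AM.Xi, Module.Basis.constr_basis, Module.Basis.constr_basis]
    split_ifs with h
    · rw [Helper35.AM.Xf, Helper35.AM.Xf, ld_TB hD hX (xr_mem X w) (xp_mem X w) hr h,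
        ld_TC hD hI hX (xr_mem X w) (xp_mem X w) hr h]
    · rw [map_zero]
  exact LinearMap.congr_fun h x

include hD in
private theorem ll3_gen {X : Set B} (hX : Sp β X) {p g r : M.Group} (hp : p ∈ XR M X)
    (hg : g ∈ par M X) (hr : r ∈ XL M X) (hk : la g = k) (y : M.Group) (t : H) :
    t * bt D β la k y (D.up (tt D β la k p g r)) -
      bt D β la k y (t * D.up (tt D β la k p g r)) ∈ II D (Occ M β la (k + 1)) := by
  have hI := idl hD (k + 1)
  have h1 := (admR hD hI hX hr).mulX hI (hD.locS hX) (fun c hc h => Occ.of_mem hX hc h) hp hg hk t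
  have h2 := (admB hD hX hr y).mulX hI (hD.locS hX) (fun c hc h => Occ.of_mem hX hc h) hp hg hk t
  have e1 : Helper35.AM.Xf D (Occ M β la (k + 1)) (fun g => D.C (g * r)) p g = D.up (tt D β la k p g r) := by
    rw [Helper35.AM.Xf, ld_TC hD hI hX hp hg hr hk]
  have e2 : Helper35.AM.Xf D (Occ M β la (k + 1)) (fun g => bt D β la k y (D.C (g * r))) p g =
      bt D β la k y (D.up (tt D β la k p g r)) := by
    rw [Helper35.AM.Xf, ld_TB hD hX hp hg hr hk]
  rw [e1] at h1
  rw [e2, ll3_Xi hD hX hr] at h2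
  have h3 := bt_II y h1
  rw [map_sub, sub_eq_zero] at h3
  rwa [h3]

include hD in
private theorem ll3_TG {s : M.Group →₀ ℤ} (hs : s ∈ TG D β la k) (y : M.Group) (t : H) :
    t * bt D β la k y (D.up s) - bt D β la k y (t * D.up s) ∈
      II D (Occ M β la (k + 1)) := by
  unfold TG at hs
  refine AddSubgroup.closure_induction
    (p := fun s _ => t * bt D β la k y (D.up s) - bt D β la k y (t * D.up s) ∈
      II D (Occ M β la (k + 1))) ?_ ?_ ?_ ?_ hs
  · rintro s ⟨X, hX, p, hp, g, hg, r, hr, hk, rfl⟩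
    exact ll3_gen hD hX hp hg hr hk y t
  · have e : D.up (0 : M.Group →₀ ℤ) = 0 := map_zero D.up
    rw [e, map_zero, mul_zero, map_zero, sub_zero]
    exact Submodule.zero_mem _
  · intro a b _ _ ha hb
    have e : D.up (a + b) = D.up a + D.up b := map_add D.up a b
    rw [e, map_add, mul_add, mul_add, map_add, add_sub_add_comm]
    exact Submodule.add_mem _ ha hb
  · intro a _ ha
    have e : D.up (-a) = -D.up a := map_neg D.up a
    rw [e, map_neg, mul_neg, mul_neg, map_neg, neg_sub_neg, ← neg_sub]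
    exact Submodule.neg_mem _ ha

include hD in
/-- Right multiplication in the asymptotic ring commutes with left multiplication. -/
theorem bt_mul {x : M.Group} (hx : D.a x = k) (y : M.Group) (t : H) :
    t * bt D β la k y (D.C x) - bt D β la k y (t * D.C x) ∈ II D (Occ M β la (k + 1)) := by
  have hI := idl hD (k + 1)
  rw [a_eq_al hD] at hx
  have h1 : ¬ Occ M β la (k + 1) x := by
    rw [Occ_iff hD]
    omega
  have h2 : Occ M β la k x := by
    rw [Occ_iff hD]
    omega
  have h3 : D.C x = D.up (Finsupp.single x 1) := by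
    exact (D.up_single x).symm
  rw [h3]
  exact ll3_TG hD (dl_mem_TG hD hI h2 h1) y t

include hD in
private theorem ll3_tp (x y : M.Group) : tp D β la k x y = D.tk k k (D.C x * D.C y) := by
  classical
  ext z
  rw [KLD.tk_apply]
  split_ifs with h
  · rw [tp_eq hD x y z h.le]
    rfl
  · exact tp_ne hD x y z h

private theorem ll3_Lk_spt (k : ℕ) (m : ℤ) (w : M.Group) (t : D.JJ) {z : M.Group}
    (hz : D.a z ≠ k) : D.Lk k m w t z = 0 := by
  classical
  rw [KLD.Core.sum_single' t, map_sum, Finsupp.finsetSum_apply]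
  refine Finset.sum_eq_zero fun c _ => ?_
  rw [map_smul, Finsupp.smul_apply, KLD.Lk_single, KLD.tk_apply, if_neg hz, smul_zero]

private theorem ll3_bul_eq (k : ℕ) (t : D.JJ) (y z : M.Group) :
    D.bul k t (Finsupp.single y 1) z = ∑ c ∈ t.support, t c * D.tk k k (D.C c * D.C y) z := by
  classical
  conv_lhs => rw [KLD.Core.sum_single' t]
  rw [map_sum, LinearMap.sum_apply, Finsupp.finsetSum_apply]
  refine Finset.sum_congr rfl fun c _ => ?_
  rw [map_smul, LinearMap.smul_apply, Finsupp.smul_apply, KLD.bul_single, smul_eq_mul]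

private theorem ll3_up_mul (m : ℤ) (k : ℕ) (w : M.Group) (t : D.JJ) {z : M.Group}
    (hz : D.a z = k) : (D.C.repr (D.C w * D.up t) z).coeff m = D.Lk k m w t z := by
  rw [KLD.Core.Lk_apply k m w t hz, KLD.up_eq, Finset.mul_sum, map_sum,
    Finsupp.finsetSum_apply, cf_sum]
  refine Finset.sum_congr rfl fun c _ => ?_
  rw [mul_smul_comm, map_zsmul, Finsupp.smul_apply, cf_zsmul]
  rfl

include hD in
private theorem ll3_bt_repr (m : ℤ) (y : M.Group) {s : H}
    (hs : ∀ c, D.C.repr s c ≠ 0 → k ≤ D.a c) (z : M.Group) :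
    (D.C.repr (bt D β la k y s) z).coeff m =
      D.bul k (D.tk k m s) (Finsupp.single y 1) z := by
  classical
  rw [ll3_bul_eq]
  have h1 : bt D β la k y s =
      ∑ c ∈ (D.C.repr s).support, D.C.repr s c • bt D β la k y (D.C c) := by
    conv_lhs => rw [← D.C.linearCombination_repr s]
    rw [Finsupp.linearCombination_apply, Finsupp.sum, map_sum]
    exact Finset.sum_congr rfl fun c _ => map_smul _ _ _
  rw [h1, map_sum, Finsupp.finsetSum_apply, cf_sum]
  have h3 : (D.tk k m s).support ⊆ (D.C.repr s).support := Finsupp.support_onFinset_subset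
  rw [Finset.sum_subset h3]
  · refine Finset.sum_congr rfl fun c hc => ?_
    rw [map_smul, Finsupp.smul_apply, smul_eq_mul]
    by_cases hck : D.a c = k
    · have h4 : ¬ Occ M β la (k + 1) c := by
        rw [Occ_iff hD, ← a_eq_al hD]
        omega
      rw [bt, Module.Basis.constr_basis, if_neg h4, D.repr_up, ll3_tp hD, mul_smul_comm, mul_one,
        cf_zsmul, D.tk_apply k m s, if_pos hck, mul_comm]
    · have h5 := hs c (Finsupp.mem_support_iff.1 hc)
      have h4 : Occ M β la (k + 1) c := by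
        rw [Occ_iff hD, ← a_eq_al hD]
        omega
      rw [bt, Module.Basis.constr_basis, if_pos h4, map_zero, Finsupp.zero_apply, mul_zero,
        cf_zero, D.tk_apply k m s, if_neg hck, zero_mul]
  · intro c _ hc
    rw [Finsupp.notMem_support_iff.1 hc, zero_mul]

include hD in
theorem LL_al (k : ℕ) (m : ℤ) (w x y : M.Group) (hx : D.a x = k) :
    D.Lk k m w (D.bul k (Finsupp.single x 1) (Finsupp.single y 1)) =
      D.bul k (D.Lk k m w (Finsupp.single x 1)) (Finsupp.single y 1) := by
  classical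
  ext z
  by_cases hz : D.a z = k
  · have h1 := bt_mul hD hx y (D.C w)
    have hzl : ¬ Occ M β la (k + 1) z := by
      rw [Occ_iff hD, ← a_eq_al hD]
      omega
    have hxl : ¬ Occ M β la (k + 1) x := by
      rw [Occ_iff hD, ← a_eq_al hD]
      omega
    have h2 := mem_II.1 h1 z hzl
    rw [map_sub, Finsupp.sub_apply, sub_eq_zero] at h2
    have h3 : bt D β la k y (D.C x) = D.up (D.tk k k (D.C x * D.C y)) := by
      rw [bt, Module.Basis.constr_basis, if_neg hxl, ll3_tp hD]
    have h4 : (D.C.repr (D.C w * D.up (D.tk k k (D.C x * D.C y))) z).coeff m =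
        (D.C.repr (bt D β la k y (D.C w * D.C x)) z).coeff m := by rw [← h3, h2]
    have hs : ∀ c, D.C.repr (D.C w * D.C x) c ≠ 0 → k ≤ D.a c := by
      intro c hc
      have h5 := (al_h hD (x := w) (y := x) (z := c) hc).2
      rw [← a_eq_al hD, ← a_eq_al hD] at h5
      omega
    rw [ll3_up_mul m k w _ hz, ll3_bt_repr hD m y hs] at h4
    rw [KLD.bul_single, KLD.Lk_single, h4]
  · rw [ll3_Lk_spt k m w _ hz, ll3_bul_eq]
    refine (Finset.sum_eq_zero fun c _ => ?_).symm
    rw [KLD.tk_apply, if_neg hz, mul_zero]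

end ll3

end Pool.Agent.Helper63.LG
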