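import Pool.Agent.Helper63.LG.Ru
import Pool.Agent.Helper63.LG.R2
import Pool.Agent.Helper63.LG.R3
import Pool.Agent.Helper63.LG.Un

/-!
# The products of the leading coefficients
-/

namespace Pool.Agent.Helper63.LG

open Pool.Agent.Helper35.KL Pool.Agent.Helper35.AM

section jr

variable {B : Type} {M : CoxeterMatrix B} {L : M.Group → ℤ} {H : Type} [Ring H] [Algebra LP H]
variable {D : KLD M L H} {β : B → Bool} {la : M.Group → ℕ} [Finite B] {X : Set B} {k : ℕ}

/-! Piece J-a -/

/-- PROOF. `tp_ne`: `al z = k`; `tp_eq`; `Q_al`. -/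
theorem tp_al (hD : Dat D β la) {x y z : M.Group} (h : tp D β la k x y z ≠ 0) :
    al M β la x = k ∧ al M β la y = k ∧ al M β la z = k := by
  have hz : D.a z = k := by
    by_contra hne
    exact h (tp_ne hD x y z hne)
  have hk : al M β la z = k := by
    rw [← a_eq_al hD]
    exact hz
  rw [tp_eq hD x y z hz.le, ← hk] at h
  obtain ⟨h1, h2⟩ := Q_al hD h
  exact ⟨h1.trans hk, h2.trans hk, hk⟩

/-- PROOF. `tp_eq`, `h_inv`, `al_inv`, `tp_ne`. -/
theorem tp_inv (hD : Dat D β la) (x y z : M.Group) :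
    tp D β la k x y z = tp D β la k y⁻¹ x⁻¹ z⁻¹ := by
  by_cases hz : D.a z = k
  · have hz2 : D.a z⁻¹ = k := by
      rw [KLD.a_inv]
      exact hz
    rw [tp_eq hD x y z hz.le, tp_eq hD y⁻¹ x⁻¹ z⁻¹ hz2.le, KLD.h_inv]
  · have hz2 : D.a z⁻¹ ≠ k := by
      rw [KLD.a_inv]
      exact hz
    rw [tp_ne hD x y z hz, tp_ne hD y⁻¹ x⁻¹ z⁻¹ hz2]

/-- PROOF. `tp_eq`, `a_eq_al`, `al_inv`; definition of `D.g`. -/
theorem tp_g (hD : Dat D β la) {x y z : M.Group} (hz : D.a z = k) :
    tp D β la k x y z⁻¹ = D.g x y z := by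
  have hz2 : D.a z⁻¹ = k := by
    rw [KLD.a_inv]
    exact hz
  rw [tp_eq hD x y z⁻¹ hz2.le, KLD.g, hz2]

omit [Finite B] in
private theorem J2_tau (D : KLD M L H) (a b : H) : D.T.repr (a * b) 1 =
    ∑ v ∈ (D.T.repr b).support, D.T.repr b v * D.T.repr a v⁻¹ := by
  conv_lhs => rw [← D.T.linearCombination_repr b]
  rw [Finsupp.linearCombination_apply, Finsupp.sum, Finset.mul_sum, map_sum,
    Finsupp.finsetSum_apply]
  refine Finset.sum_congr rfl fun v _ => ?_
  rw [mul_smul_comm, map_smul, Finsupp.smul_apply, smul_eq_mul, repr_T_eq D a v⁻¹, inv_inv]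

omit [Finite B] in
open scoped Classical in
private theorem J2_tauC (D : KLD M L H) (x y : M.Group) :
    (D.T.repr (D.C x * D.C y) 1).coeff 0 = if x = y⁻¹ then 1 else 0 := by
  rw [J2_tau, cf_sum]
  have h1 : ∀ v, (D.T.repr (D.C y) v * D.T.repr (D.C x) v⁻¹).coeff 0 =
      (if v = y then 1 else 0) * (if v⁻¹ = x then 1 else 0) := by
    intro v
    have h2 := cf_mul_lead (D.p_dle v y) (D.p_dle v⁻¹ x)
    rw [add_zero, D.p_coeff, D.p_coeff] at h2
    exact h2
  rw [Finset.sum_congr rfl fun v _ => h1 v]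
  have hy : y ∈ (D.T.repr (D.C y)).support := by
    rw [Finsupp.mem_support_iff]
    have h3 := D.p_self y
    unfold KLD.p at h3
    rw [h3]
    exact one_ne_zero
  rw [Finset.sum_eq_single_of_mem y hy]
  · rw [if_pos rfl, one_mul]
    by_cases h : x = y⁻¹
    · rw [if_pos h, if_pos h.symm]
    · rw [if_neg h, if_neg (fun h' => h h'.symm)]
  · intro v _ hv
    rw [if_neg hv, zero_mul]

private theorem J2_sum (hD : Dat D β la) (x y : M.Group) :
    (D.T.repr (D.C x * D.C y) 1).coeff 0 =
      ∑ z ∈ (D.C.repr (D.C x * D.C y)).support, (D.h x y z).coeff (D.a z) * D.nn z := by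
  conv_lhs => rw [← D.C.linearCombination_repr (D.C x * D.C y)]
  rw [Finsupp.linearCombination_apply, Finsupp.sum, map_sum, Finsupp.finsetSum_apply, cf_sum]
  refine Finset.sum_congr rfl fun z _ => ?_
  rw [map_smul, Finsupp.smul_apply, smul_eq_mul]
  have h1 := h_dle_al hD x y z
  rw [← a_eq_al hD] at h1
  have h2 := cf_mul_lead h1 (P1_a hD z)
  rw [add_neg_cancel] at h2
  exact h2

open scoped Classical in
/-- The trace form.
PROOF. `T.repr (C x * C y) 1 = ∑ z, h x y z * p 1 z` has constant coefficient `1` if `x = y⁻¹`, and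
`0` otherwise (`tau_sum`, see how it is used in KL: `repr_TT_one`-type statements; or
`lat_cmp`: `C x * C y` against `T x * T y`: search for `tau` in Pool/Agent/Helper35/KL). `h x y z`
has degree at most `a z` and `p 1 z` at most `-a z` (`P1_a`), so the constant coefficient of the
sum is `∑ (h x y z).coeff (a z) * nn z` (`cf_mul_lead`). The summands vanish unless
`al x = al z = al y` (`Q_al`). If `al x = k` they are `tp x y z * nn z` (`tp_eq`, `tp_ne`). If
`al x ≠ k` then `tp x y = 0` (`tp_al`). -/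
theorem e_tp (hD : Dat D β la) (x y : M.Group) :
    ∑ z ∈ (tp D β la k x y).support, tp D β la k x y z * D.nn z =
      if x = y⁻¹ ∧ al M β la x = k then 1 else 0 := by
  by_cases hx : al M β la x = k
  · have h1 : ∀ z, (D.h x y z).coeff (D.a z) * D.nn z = tp D β la k x y z * D.nn z := by
      intro z
      by_cases hz : D.a z = k
      · rw [tp_eq hD x y z hz.le, hz]
      · rw [tp_ne hD x y z hz]
        have h2 : (D.h x y z).coeff (D.a z) = 0 := by
          by_contra hne
          rw [a_eq_al hD] at hne hz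
          have h3 := (Q_al hD hne).1
          exact hz (h3.symm.trans hx)
        rw [h2]
    have h2 : ∑ z ∈ (tp D β la k x y).support, tp D β la k x y z * D.nn z =
        ∑ z ∈ (D.C.repr (D.C x * D.C y)).support, tp D β la k x y z * D.nn z := by
      refine Finset.sum_subset ?_ ?_
      · intro z hz
        rw [Finsupp.mem_support_iff] at hz ⊢
        intro h0
        apply hz
        rw [tp, ld_apply, h0, cf_zero, ite_self]
      · intro z _ hz
        rw [Finsupp.notMem_support_iff.1 hz, zero_mul]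
    rw [h2, ← Finset.sum_congr rfl fun z _ => h1 z, ← J2_sum hD, J2_tauC]
    by_cases h : x = y⁻¹
    · rw [if_pos h, if_pos ⟨h, hx⟩]
    · rw [if_neg h, if_neg fun h' => h h'.1]
  · rw [if_neg fun h' => hx h'.2]
    refine Finset.sum_eq_zero fun z hz => ?_
    exact absurd (tp_al hD (Finsupp.mem_support_iff.1 hz)).1 hx

/-! Piece J-b -/

/-- Associativity.
PROOF. At `d`: if `al d ≠ k` both sides are `0` (`tp_ne`). If `al d = k`: the coefficient of degree
`k + k` of `D.assoc_h x y z d`. If `h u z d ≠ 0` then `al u ≤ k` (`al_h`), so `h x y u` has degree at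
most `k` (`h_dle_al`), and `h u z d` has degree at most `k`: the coefficient of the product is
`(h x y u).coeff k * (h u z d).coeff k` (`cf_mul_lead`), which is `tp x y u * tp u z d` (`tp_eq`; both
are `0` for `al u < k` by `tp_al`). If `h u z d = 0` then `tp u z d = 0` (`tp_eq`). The same for
`h x u d`. See `P7_aux` in KL/Formal.lean for a computation of this type. -/
theorem tp_assoc (hD : Dat D β la) (x y z : M.Group) :
    ∑ u ∈ (tp D β la k x y).support, tp D β la k x y u • tp D β la k u z =
      ∑ u ∈ (tp D β la k y z).support, tp D β la k y z u • tp D β la k x u := by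
  classical
  have hsub : ∀ x y : M.Group, (tp D β la k x y).support ⊆ (D.C.repr (D.C x * D.C y)).support := by
    intro x y u hu
    rw [Finsupp.mem_support_iff] at hu ⊢
    intro h0
    apply hu
    rw [tp, ld_apply, h0, cf_zero, ite_self]
  refine Finsupp.ext fun d => ?_
  rw [Finsupp.finsetSum_apply, Finsupp.finsetSum_apply]
  simp only [Finsupp.smul_apply, smul_eq_mul]
  by_cases hd : D.a d = k
  · have hd' : D.a d ≤ k := hd.le
    have hdal : al M β la d = k := by rw [← a_eq_al hD, hd]
    have e1 : ∀ u, (D.h x y u * D.h u z d).coeff ((k : ℤ) + k) =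
        tp D β la k x y u * tp D β la k u z d := by
      intro u
      by_cases hu : D.h u z d = 0
      · rw [hu, mul_zero, cf_zero, tp_eq hD u z d hd', hu, cf_zero, mul_zero]
      · have h1 := (al_h hD hu).1
        rw [hdal] at h1
        have h2 := (h_dle_al hD x y u).mono (show (al M β la u : ℤ) ≤ k by exact_mod_cast h1)
        have h3 := h_dle_al hD u z d
        rw [hdal] at h3
        rw [cf_mul_lead h2 h3, tp_eq hD u z d hd',
          tp_eq hD x y u (by rw [a_eq_al hD]; exact h1)]
    have e2 : ∀ u, (D.h y z u * D.h x u d).coeff ((k : ℤ) + k) =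
        tp D β la k y z u * tp D β la k x u d := by
      intro u
      by_cases hu : D.h x u d = 0
      · rw [hu, mul_zero, cf_zero, tp_eq hD x u d hd', hu, cf_zero, mul_zero]
      · have h1 := (al_h hD hu).2
        rw [hdal] at h1
        have h2 := (h_dle_al hD y z u).mono (show (al M β la u : ℤ) ≤ k by exact_mod_cast h1)
        have h3 := h_dle_al hD x u d
        rw [hdal] at h3
        rw [cf_mul_lead h2 h3, tp_eq hD x u d hd',
          tp_eq hD y z u (by rw [a_eq_al hD]; exact h1)]
    have e3 := congrArg (fun q : LP => q.coeff ((k : ℤ) + k)) (D.assoc_h x y z d)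
    simp only [cf_sum, e1, e2] at e3
    rw [Finset.sum_subset (hsub x y) (fun u _ hu => by
        rw [Finsupp.notMem_support_iff.1 hu, zero_mul]),
      Finset.sum_subset (hsub y z) (fun u _ hu => by
        rw [Finsupp.notMem_support_iff.1 hu, zero_mul])]
    exact e3
  · rw [Finset.sum_eq_zero fun u _ => by rw [tp_ne hD u z d hd, mul_zero],
      Finset.sum_eq_zero fun u _ => by rw [tp_ne hD x u d hd, mul_zero]]

/-- the linear form of the numbers `nn` -/
private noncomputable def J4_phi (D : KLD M L H) : (M.Group →₀ ℤ) →ₗ[ℤ] ℤ :=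
  Finsupp.linearCombination ℤ D.nn

open scoped Classical in
private theorem J4_phi_tp (hD : Dat D β la) (x y : M.Group) :
    J4_phi D (tp D β la k x y) = if x = y⁻¹ ∧ al M β la x = k then 1 else 0 := by
  rw [← e_tp hD x y]
  unfold J4_phi
  rw [Finsupp.linearCombination_apply, Finsupp.sum]
  simp only [smul_eq_mul]

/-- Cyclic invariance.
PROOF. Apply the linear form `f ↦ ∑ f d * nn d` to `tp_assoc`. By `e_tp` the left side is
`∑ tp x y u * [u = z⁻¹ and al u = k] = tp x y z⁻¹` (`tp_al`), the right side is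
`∑ tp y z u * [x = u⁻¹ and al x = k] = tp y z x⁻¹` (`tp_al`, `al_inv`). -/
theorem cyc_tp (hD : Dat D β la) (x y z : M.Group) :
    tp D β la k x y z⁻¹ = tp D β la k y z x⁻¹ := by
  classical
  have h1 := congrArg (J4_phi D) (tp_assoc (k := k) hD x y z)
  rw [map_sum, map_sum] at h1
  simp only [map_smul, J4_phi_tp hD, smul_eq_mul, mul_ite, mul_one, mul_zero] at h1
  have h2 : (∑ u ∈ (tp D β la k x y).support,
      if u = z⁻¹ ∧ al M β la u = k then tp D β la k x y u else 0) = tp D β la k x y z⁻¹ := by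
    by_cases hz : tp D β la k x y z⁻¹ = 0
    · rw [hz]
      refine Finset.sum_eq_zero fun u _ => ?_
      split_ifs with h
      · rw [h.1, hz]
      · rfl
    · rw [Finset.sum_eq_single z⁻¹]
      · rw [if_pos ⟨rfl, (tp_al hD hz).2.2⟩]
      · intro b _ hb
        rw [if_neg fun h => hb h.1]
      · intro h
        exact absurd (Finsupp.mem_support_iff.2 hz) h
  have h3 : (∑ u ∈ (tp D β la k y z).support,
      if x = u⁻¹ ∧ al M β la x = k then tp D β la k y z u else 0) = tp D β la k y z x⁻¹ := by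
    by_cases hz : tp D β la k y z x⁻¹ = 0
    · rw [hz]
      refine Finset.sum_eq_zero fun u _ => ?_
      split_ifs with h
      · rw [h.1, inv_inv] at hz
        exact hz
      · rfl
    · rw [Finset.sum_eq_single x⁻¹]
      · have h4 := (tp_al hD hz).2.2
        rw [al_inv hD] at h4
        rw [if_pos ⟨(inv_inv x).symm, h4⟩]
      · intro b _ hb
        rw [if_neg fun h => hb (by rw [h.1, inv_inv])]
      · intro h
        exact absurd (Finsupp.mem_support_iff.2 hz) h
  rw [h2, h3] at h1
  exact h1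

/-! Piece J-c -/

/-- PROOF. `fl (T p * C c * T r) = T r⁻¹ * C c⁻¹ * T p⁻¹` (`fl_mul`, `fl_T`, `fl_C`),
`repr_C_fl`, `Dat.occ_inv`, `Dat.inv`. -/
theorem tt_inv (hD : Dat D β la) (hX : Sp β X) {p c r : M.Group} (hc : c ∈ par M X)
    (z : M.Group) : tt D β la k p c r z = tt D β la k r⁻¹ c⁻¹ p⁻¹ z⁻¹ := by
  classical
  have e1 : D.T r⁻¹ * D.C c⁻¹ * D.T p⁻¹ = D.fl (D.T p * D.C c * D.T r) := by
    rw [D.fl_mul, D.fl_mul, D.fl_T, D.fl_T, D.fl_C, mul_assoc]
  have e2 : Occ M β la (k + 1) z⁻¹ → Occ M β la (k + 1) z := by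
    intro h
    have h' := hD.occ_inv h
    rwa [inv_inv] at h'
  unfold tt
  rw [ld_apply, ld_apply, e1, D.repr_C_fl, inv_inv, hD.inv hX hc]
  by_cases h : Occ M β la (k + 1) z
  · rw [if_pos h, if_pos (hD.occ_inv h)]
  · rw [if_neg h, if_neg (fun h' => h (e2 h'))]

/-- PROOF. `ld_CC` (the left side is `tp` by definition); only the summand `c = u` is not `0`
(`h_mem`: the `c` in the support are in `par M X`). -/
theorem tp_uniq (hD : Dat D β la) (hX : Sp β X) {p x y u r : M.Group} (hp : p ∈ XR M X)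
    (hx : x ∈ par M X) (hy : y ∈ par M X) (hr : r ∈ XL M X)
    (h : ∀ c ∈ par M X, c ≠ u → gc D la x y c = 0) :
    tp D β la k (p * x) (y * r) = gc D la x y u • tt D β la k p u r := by
  classical
  have h1 : tp D β la k (p * x) (y * r) =
      ∑ c ∈ (D.C.repr (D.C x * D.C y)).support, gc D la x y c • tt D β la k p c r :=
    ld_CC hD hX hp hx hy hr
  rw [h1]
  by_cases hu : u ∈ (D.C.repr (D.C x * D.C y)).support
  · rw [Finset.sum_eq_single u]
    · intro c hc hcu
      have h2 : c ∈ par M X := h_mem D hx hy (Finsupp.mem_support_iff.1 hc)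
      rw [h c h2 hcu, zero_smul]
    · intro hn
      exact absurd hu hn
  · have h3 : gc D la x y u = 0 := by
      have h4 : D.h x y u = 0 := Finsupp.notMem_support_iff.1 hu
      unfold gc
      rw [h4, cf_zero]
    rw [h3, zero_smul]
    refine Finset.sum_eq_zero fun c hc => ?_
    have h2 : c ∈ par M X := h_mem D hx hy (Finsupp.mem_support_iff.1 hc)
    have hcu : c ≠ u := by
      rintro rfl
      exact hu hc
    rw [h c h2 hcu, zero_smul]

/-- PROOF. `ld_C`, `Occ_iff`. -/
theorem ld_C_al (hD : Dat D β la) {z : M.Group} (h : al M β la z ≤ k) :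
    ld D (Occ M β la (k + 1)) 0 (D.C z) = Finsupp.single z 1 := by
  refine ld_C ?_
  rw [Occ_iff hD]
  omega

end jr

end Pool.Agent.Helper63.LG
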