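import Pool.Agent.Helper63.LG.Bl

/-!
# An unconditional class, described by the labels
-/

namespace Pool.Agent.Helper63.LG

open Pool.Agent.Helper35.KL Pool.Agent.Helper35.AM Pool.Agent.Helper10.AM

section p4

variable {B : Type}

/-- The set `T` is the union of two nonempty disjoint sets, all elements of the first being in the
relation `R` to all elements of the second set. -/
def Splits (R : B → B → Prop) (T : Set B) : Prop :=
  ∃ J ⊆ T, J.Nonempty ∧ (T \ J).Nonempty ∧ ∀ s ∈ J, ∀ t ∈ T \ J, R s t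

/-- The relations contain no induced path with four vertices. -/
def NoPath (R R' : B → B → Prop) (T : Set B) : Prop :=
  ∀ a ∈ T, ∀ b ∈ T, ∀ c ∈ T, ∀ d ∈ T, a ≠ b → b ≠ c → c ≠ d → a ≠ c → b ≠ d → a ≠ d →
    R a b → R b c → R c d → R' a c → R' b d → R' a d → False

theorem noPath_swap {R R' : B → B → Prop} (hR : ∀ s t, R s t → R t s) (hR' : ∀ s t, R' s t → R' t s)
    {T : Set B} (h : NoPath R R' T) : NoPath R' R T := by
  intro a ha b hb c hc d hd hab hbc hcd hac hbd had h1 h2 h3 h4 h5 h6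
  exact h b hb d hd a ha c hc hbd (Ne.symm had) hac (Ne.symm hab) (Ne.symm hcd) hbc h5
    (hR _ _ h6) h4 (hR' _ _ h1) (hR' _ _ h3) h2

theorem noPath_mono {R R' : B → B → Prop} {T T' : Set B} (hT : T' ⊆ T) (h : NoPath R R' T) :
    NoPath R R' T' :=
  fun a ha b hb c hc d hd => h a (hT ha) b (hT hb) c (hT hc) d (hT hd)

/-- The step: one more vertex. -/
theorem splits_step {R R' : B → B → Prop} (hR' : ∀ s t, R' s t → R' t s) {T : Set B}
    (hd : ∀ s ∈ T, ∀ t ∈ T, s ≠ t → R s t ∨ R' s t) (h : NoPath R R' T) {v : B} (hv : v ∈ T)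
    (h1 : Splits R' (T \ {v})) : Splits R T ∨ Splits R' T := by
  obtain ⟨J, hJT, hJ1, hJ2, hJ⟩ := h1
  have hdv : ∀ s ∈ T \ {v}, ∀ t ∈ T, s ≠ t → ¬ R' s t → R s t := fun s hs t ht hst hn =>
    (hd s hs.1 t ht hst).resolve_right hn
  by_cases hN : ∀ x ∈ T \ {v}, ¬ R' x v
  · refine Or.inl ⟨T \ {v}, Set.sdiff_subset, ?_, ⟨v, hv, fun h2 => h2.2 rfl⟩, ?_⟩
    · obtain ⟨x, hx⟩ := hJ1
      exact ⟨x, hJT hx⟩
    · intro s hs t ht
      have h2 : t = v := by
        by_contra hne
        exact ht.2 ⟨ht.1, hne⟩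
      rw [h2]
      exact hdv s hs v hv hs.2 (hN s hs)
  · push Not at hN
    obtain ⟨x, hx, hxv⟩ := hN
    -- the elements that are reached from `x`
    set E : B → B → Prop := fun a b => a ∈ T \ {v} ∧ b ∈ T \ {v} ∧ a ≠ b ∧ ¬ R' a b with hE
    set C : Set B := {b | Relation.ReflTransGen E x b} with hC
    have hCT : C ⊆ T \ {v} := by
      intro b hb
      rcases Relation.ReflTransGen.cases_tail hb with h2 | ⟨c, -, h2⟩
      · rw [h2]
        exact hx
      · exact h2.2.1
    have hCc : ∀ s ∈ C, ∀ t ∈ T \ {v}, t ∉ C → R' s t := by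
      intro s hs t ht htC
      by_contra hn
      refine htC (Relation.ReflTransGen.tail hs ⟨hCT hs, ht, ?_, hn⟩)
      rintro rfl
      exact htC hs
    have hCJ : (x ∈ J → C ⊆ J) ∧ (x ∉ J → C ∩ J = ∅) := by
      constructor
      · intro hxJ b hb
        induction hb with
        | refl => exact hxJ
        | tail _ h2 ih =>
          by_contra hn
          exact h2.2.2.2 (hJ _ ih _ ⟨h2.2.1, hn⟩)
      · intro hxJ
        rw [Set.eq_empty_iff_forall_notMem]
        rintro b ⟨hb, hbJ⟩
        induction hb with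
        | refl => exact hxJ hbJ
        | @tail b c _ h2 ih =>
          by_cases hn : b ∈ J
          · exact ih hn
          · exact h2.2.2.2 (hR' _ _ (hJ _ hbJ _ ⟨h2.1, hn⟩))
    have hD : ((T \ {v}) \ C).Nonempty := by
      by_cases hxJ : x ∈ J
      · obtain ⟨y, hy⟩ := hJ2
        exact ⟨y, hy.1, fun h2 => hy.2 (hCJ.1 hxJ h2)⟩
      · obtain ⟨y, hy⟩ := hJ1
        refine ⟨y, hJT hy, fun h2 => ?_⟩
        have h3 : y ∈ C ∩ J := ⟨h2, hy⟩
        rw [hCJ.2 hxJ] at h3
        exact h3
    by_cases hA : ∀ y ∈ C, R' y v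
    · -- `C` against the rest
      refine Or.inr ⟨C, fun y hy => (hCT hy).1, ⟨x, Relation.ReflTransGen.refl⟩, ?_, ?_⟩
      · obtain ⟨y, hy⟩ := hD
        exact ⟨y, hy.1.1, hy.2⟩
      · intro s hs t ht
        by_cases htv : t = v
        · rw [htv]
          exact hA s hs
        · exact hCc s hs t ⟨ht.1, htv⟩ ht.2
    · push Not at hA
      obtain ⟨y, hy, hyv⟩ := hA
      -- an edge that leaves the set of the neighbours
      obtain ⟨a, b, ha, hb, hab, hav, hbv⟩ : ∃ a b, a ∈ C ∧ b ∈ C ∧ E a b ∧ R' a v ∧ ¬ R' b v := by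
        have key : ∀ c, Relation.ReflTransGen E x c → ¬ R' c v →
            ∃ a b, a ∈ C ∧ b ∈ C ∧ E a b ∧ R' a v ∧ ¬ R' b v := by
          intro c hc
          induction hc with
          | refl => exact fun h2 => absurd hxv h2
          | @tail b c h2 h3 ih =>
            intro h4
            by_cases h5 : R' b v
            · exact ⟨b, c, h2, Relation.ReflTransGen.tail h2 h3, h3, h5, h4⟩
            · exact ih h5
        exact key y hy hyv
      by_cases hz : ∃ z ∈ (T \ {v}) \ C, ¬ R' z v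
      · obtain ⟨z, hz1, hz2⟩ := hz
        exfalso
        have hbz : b ≠ z := by
          rintro rfl
          exact hz1.2 hb
        have haz : a ≠ z := by
          rintro rfl
          exact hz1.2 ha
        exact h a (hCT ha).1 b (hCT hb).1 v hv z hz1.1.1 hab.2.2.1 (hCT hb).2 (Ne.symm hz1.1.2)
          (hCT ha).2 hbz haz (hdv a (hCT ha) b (hCT hb).1 hab.2.2.1 hab.2.2.2)
          (hdv b (hCT hb) v hv (hCT hb).2 hbv)
          ((hd v hv z hz1.1.1 (Ne.symm hz1.1.2)).resolve_right fun h2 => hz2 (hR' _ _ h2))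
          hav (hCc b hb z hz1.1 hz1.2) (hCc a ha z hz1.1 hz1.2)
      · push Not at hz
        refine Or.inr ⟨(T \ {v}) \ C, fun w hw => hw.1.1, hD, ⟨v, hv, fun h2 => h2.1.2 rfl⟩, ?_⟩
        intro s hs t ht
        by_cases htv : t = v
        · rw [htv]
          exact hz s hs
        · have h2 : t ∈ C := by
            by_contra hn
            exact ht.2 ⟨⟨ht.1, htv⟩, hn⟩
          exact hR' _ _ (hCc t h2 s hs.1 hs.2)

/-- A graph without an induced path with four vertices, or its complement, is disconnected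
(D. Seinsche). -/
theorem splits_of_noPath {R R' : B → B → Prop} (hR : ∀ s t, R s t → R t s)
    (hR' : ∀ s t, R' s t → R' t s) (n : ℕ) :
    ∀ T : Set B, T.Finite → T.ncard = n + 2 →
      (∀ s ∈ T, ∀ t ∈ T, s ≠ t → R s t ∨ R' s t) → NoPath R R' T → Splits R T ∨ Splits R' T := by
  induction n with
  | zero =>
    intro T hT hn hd _
    obtain ⟨x, y, hxy, rfl⟩ := Set.ncard_eq_two.1 hn
    have h1 : ({x, y} : Set B) \ {x} = {y} := by
      ext z
      simp only [Set.mem_sdiff, Set.mem_insert_iff, Set.mem_singleton_iff]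
      constructor
      · rintro ⟨h2 | h2, h3⟩
        · exact absurd h2 h3
        · exact h2
      · rintro rfl
        exact ⟨Or.inr rfl, Ne.symm hxy⟩
    rcases hd x (Or.inl rfl) y (Or.inr rfl) hxy with h2 | h2
    · refine Or.inl ⟨{x}, fun z hz => Or.inl hz, ⟨x, rfl⟩, ?_, ?_⟩
      · rw [h1]
        exact ⟨y, rfl⟩
      · rw [h1]
        rintro s rfl t rfl
        exact h2
    · refine Or.inr ⟨{x}, fun z hz => Or.inl hz, ⟨x, rfl⟩, ?_, ?_⟩
      · rw [h1]
        exact ⟨y, rfl⟩
      · rw [h1]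
        rintro s rfl t rfl
        exact h2
  | succ n ih =>
    intro T hT hn hd hP
    obtain ⟨v, hv⟩ : T.Nonempty := by
      rw [Set.nonempty_iff_ne_empty]
      rintro rfl
      rw [Set.ncard_empty] at hn
      omega
    have h1 : (T \ {v}).ncard = n + 2 := by
      have h2 := Set.ncard_sdiff_singleton_add_one hv hT
      omega
    rcases ih (T \ {v}) (hT.subset Set.sdiff_subset) h1
      (fun s hs t ht => hd s hs.1 t ht.1) (noPath_mono Set.sdiff_subset hP) with h2 | h2
    · exact (splits_step hR (fun s hs t ht hst => (hd s hs t ht hst).symm)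
        (noPath_swap hR hR' hP) hv h2).symm
    · exact splits_step hR' hd hP hv h2

variable {M : CoxeterMatrix B}

/-- The labels `3` and `4` are twins. -/
theorem splits_labels [Finite B] (n : ℕ)
    (h1 : ∀ r s t, r ≠ s → s ≠ t → r ≠ t → M r s ≠ 0 → M s t ≠ 0 → M r t ≠ 0 →
      M r s = 3 ∨ M r s = 4 → (M r t = 2 ∧ M s t = 2) ∨ (5 ≤ M r t ∧ 5 ≤ M s t))
    (h2 : ∀ a b c d, M a b = 2 → M b c = 2 → M c d = 2 → 5 ≤ M a c → 5 ≤ M b d → 5 ≤ M a d →
      False) :
    ∀ T : Set B, T.ncard = n + 3 → TwoSpherical M T →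
      Splits (fun s t => M s t = 2) T ∨ Splits (fun s t => 5 ≤ M s t) T := by
  induction n with
  | zero =>
    intro T hn hT
    by_cases hm : ∃ r ∈ T, ∃ s ∈ T, M r s = 3 ∨ M r s = 4
    · obtain ⟨r, hr, s, hs, hrs⟩ := hm
      have hne : r ≠ s := by
        rintro rfl
        rw [M.diagonal] at hrs
        omega
      obtain ⟨t, ht, hrt, hst⟩ : ∃ t ∈ T, r ≠ t ∧ s ≠ t := by
        by_contra hcon
        push Not at hcon
        have h3 : T ⊆ {r, s} := by
          intro t ht
          by_cases h4 : r = t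
          · exact Or.inl h4.symm
          · exact Or.inr (hcon t ht h4).symm
        have h4 := Set.ncard_le_ncard h3 (Set.toFinite _)
        rw [Set.ncard_pair hne] at h4
        omega
      have h3 : T \ {t} = {r, s} := by
        symm
        refine Set.eq_of_subset_of_ncard_le ?_ ?_ (Set.toFinite _)
        · rintro z (rfl | rfl)
          · exact ⟨hr, hrt⟩
          · exact ⟨hs, hst⟩
        · rw [Set.ncard_pair hne]
          have h4 := Set.ncard_sdiff_singleton_add_one ht (Set.toFinite T)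
          omega
      have h4 := h1 r s t hne hst hrt (hT r hr s hs) (hT s hs t ht) (hT r hr t ht) hrs
      rcases h4 with ⟨h5, h6⟩ | ⟨h5, h6⟩
      · refine Or.inl ⟨{t}, Set.singleton_subset_iff.2 ht, ⟨t, rfl⟩, ?_, ?_⟩
        · rw [h3]
          exact ⟨r, Or.inl rfl⟩
        · rw [h3]
          rintro a rfl b (rfl | rfl)
          · rw [M.symmetric]
            exact h5
          · rw [M.symmetric]
            exact h6
      · refine Or.inr ⟨{t}, Set.singleton_subset_iff.2 ht, ⟨t, rfl⟩, ?_, ?_⟩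
        · rw [h3]
          exact ⟨r, Or.inl rfl⟩
        · rw [h3]
          rintro a rfl b (rfl | rfl)
          · rw [M.symmetric]
            exact h5
          · rw [M.symmetric]
            exact h6
    · push Not at hm
      refine splits_of_noPath (fun s t h => by rw [M.symmetric]; exact h)
        (fun s t h => by rw [M.symmetric]; exact h) 1 T (Set.toFinite T) hn ?_ ?_
      · intro s hs t ht hst
        have h3 := hT s hs t ht
        have h4 := M.off_diagonal s t hst
        have h5 := hm s hs t ht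
        omega
      · intro a _ b _ c _ d _ _ _ _ _ _ _ h3 h4 h5 h6 h7 h8
        exact h2 a b c d h3 h4 h5 h6 h7 h8
  | succ n ih =>
    intro T hn hT
    by_cases hm : ∃ r ∈ T, ∃ s ∈ T, M r s = 3 ∨ M r s = 4
    · obtain ⟨r, hr, s, hs, hrs⟩ := hm
      have hne : r ≠ s := by
        rintro rfl
        rw [M.diagonal] at hrs
        omega
      have h3 : (T \ {r}).ncard = n + 3 := by
        have h4 := Set.ncard_sdiff_singleton_add_one hr (Set.toFinite T)
        omega
      have h4 : TwoSpherical M (T \ {r}) := fun a ha b hb => hT a ha.1 b hb.1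
      -- the twins have the same relation to the other elements
      have h5 : ∀ t ∈ T, t ≠ r → t ≠ s → (M s t = 2 → M r t = 2) ∧ (5 ≤ M s t → 5 ≤ M r t) := by
        intro t ht htr hts
        have h6 := h1 r s t hne (Ne.symm hts) (Ne.symm htr) (hT r hr s hs) (hT s hs t ht)
          (hT r hr t ht) hrs
        omega
      have key : ∀ (R : B → B → Prop), (∀ s t, R s t → R t s) →
          (∀ t ∈ T, t ≠ r → t ≠ s → R s t → R r t) → Splits R (T \ {r}) → Splits R T := by
        rintro R hR h6 ⟨J, hJT, hJ1, hJ2, hJ⟩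
        by_cases hsJ : s ∈ J
        · refine ⟨insert r J, ?_, ⟨r, Or.inl rfl⟩, ?_, ?_⟩
          · rintro z (rfl | hz)
            · exact hr
            · exact (hJT hz).1
          · obtain ⟨y, hy⟩ := hJ2
            refine ⟨y, hy.1.1, ?_⟩
            rintro (h7 | h7)
            · exact hy.1.2 h7
            · exact hy.2 h7
          · rintro a (rfl | ha) t ht
            · have h7 : t ≠ a := fun h8 => ht.2 (Or.inl h8)
              have h8 : t ≠ s := by
                rintro rfl
                exact ht.2 (Or.inr hsJ)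
              exact h6 t ht.1 h7 h8 (hJ s hsJ t ⟨⟨ht.1, h7⟩, fun h9 => ht.2 (Or.inr h9)⟩)
            · exact hJ a ha t ⟨⟨ht.1, fun h8 => ht.2 (Or.inl h8)⟩, fun h9 => ht.2 (Or.inr h9)⟩
        · refine ⟨J, fun z hz => (hJT hz).1, hJ1, ⟨r, hr, fun h7 => (hJT h7).2 rfl⟩, ?_⟩
          intro a ha t ht
          by_cases htr : t = r
          · rw [htr]
            refine hR _ _ (h6 a (hJT ha).1 (hJT ha).2 ?_ (hR _ _ (hJ a ha s ⟨⟨hs, Ne.symm hne⟩, hsJ⟩)))
            rintro rfl
            exact hsJ ha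
          · exact hJ a ha t ⟨⟨ht.1, htr⟩, ht.2⟩
      rcases ih (T \ {r}) h3 h4 with h6 | h6
      · exact Or.inl (key _ (fun s t h => by rw [M.symmetric]; exact h)
          (fun t ht h7 h8 => (h5 t ht h7 h8).1) h6)
      · exact Or.inr (key _ (fun s t h => by rw [M.symmetric]; exact h)
          (fun t ht h7 h8 => (h5 t ht h7 h8).2) h6)
    · push Not at hm
      refine splits_of_noPath (fun s t h => by rw [M.symmetric]; exact h)
        (fun s t h => by rw [M.symmetric]; exact h) (n + 2) T (Set.toFinite T) hn ?_ ?_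
      · intro s hs t ht hst
        have h3 := hT s hs t ht
        have h4 := M.off_diagonal s t hst
        have h5 := hm s hs t ht
        omega
      · intro a _ b _ c _ d _ _ _ _ _ _ _ h3 h4 h5 h6 h7 h8
        exact h2 a b c d h3 h4 h5 h6 h7 h8

/-- The unconditional class. -/
theorem lusztig_labels [Finite B] {L : M.Group → ℤ} (hL : IsWeight M L)
    (h1 : ∀ r s t, r ≠ s → s ≠ t → r ≠ t → M r s ≠ 0 → M s t ≠ 0 → M r t ≠ 0 →
      M r s = 3 ∨ M r s = 4 → (M r t = 2 ∧ M s t = 2) ∨ (5 ≤ M r t ∧ 5 ≤ M s t))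
    (h2 : ∀ a b c d, M a b = 2 → M b c = 2 → M c d = 2 → 5 ≤ M a c → 5 ≤ M b d → 5 ≤ M a d →
      False) : Lusztig M L := by
  refine lusztig_split hL fun T hT hT2 => ?_
  have h3 : ∃ n, T.ncard = n + 3 := by
    have hfin := Set.toFinite T
    rw [← hfin.cast_ncard_eq] at hT
    have h4 : 3 ≤ T.ncard := by exact_mod_cast hT
    exact ⟨T.ncard - 3, by omega⟩
  obtain ⟨n, hn⟩ := h3
  rcases splits_labels n h1 h2 T hn hT2 with ⟨J, hJ, hJ1, hJ2, hJ3⟩ | ⟨J, hJ, hJ1, hJ2, hJ3⟩
  · exact ⟨J, hJ, hJ1, hJ2, Or.inl hJ3⟩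
  · exact ⟨J, hJ, hJ1, hJ2, Or.inr hJ3⟩

end p4

end Pool.Agent.Helper63.LG
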