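import Pool.Agent.Helper63.LG.St

/-!
# The ideals
-/

/-
The names tt, TG, idl, al, ... are also used in the namespace AM (for amalgams); here they are in the namespace LG and
refer to LG.Occ. Many statements of this file and the next ones have the same proof as the corresponding statement of
AM (files Zz.lean, Zz3.lean, Zz4.lean, Id.lean, Id2.lean, Ep.lean, Ll*.lean, Co.lean), with P i replaced by a piece X.
light = not Occ (k + 1). The filtration is LfC D (Occ (k + 1)): Lam = LL, ld = ld.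
-/

namespace Pool.Agent.Helper63.LG

open Pool.Agent.Helper35.KL Pool.Agent.Helper35.AM

section r1

variable {B : Type} {M : CoxeterMatrix B} {L : M.Group → ℤ} {H : Type} [Ring H] [Algebra LP H]
variable {D : KLD M L H} {β : B → Bool} {la : M.Group → ℕ} {X : Set B}

/-- The functions that are supported in the elements with `Occ k`. -/
def GO (M : CoxeterMatrix B) (β : B → Bool) (la : M.Group → ℕ) (k : ℕ) :
    AddSubgroup (M.Group →₀ ℤ) where
  carrier := {f | ∀ z, f z ≠ 0 → Occ M β la k z}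
  add_mem' := by
    intro f g hf hg z hz
    by_contra h
    apply hz
    rw [Finsupp.add_apply, by_contra fun h' => h (hf z h'), by_contra fun h' => h (hg z h'),
      add_zero]
  zero_mem' := by
    intro z hz
    exact absurd rfl hz
  neg_mem' := by
    intro f hf z hz
    apply hf z
    intro h
    apply hz
    rw [Finsupp.neg_apply, h, neg_zero]

/-- The leading coefficients of `T p * C c * T r`. -/
noncomputable def tt (D : KLD M L H) (β : B → Bool) (la : M.Group → ℕ) (k : ℕ)
    (p c r : M.Group) : M.Group →₀ ℤ :=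
  ld D (Occ M β la (k + 1)) ((k : ℤ) - la c) (D.T p * D.C c * D.T r)

/-- The group generated by the leading coefficients. -/
noncomputable def TG (D : KLD M L H) (β : B → Bool) (la : M.Group → ℕ) (k : ℕ) :
    AddSubgroup (M.Group →₀ ℤ) :=
  AddSubgroup.closure {t | ∃ X, Sp β X ∧ ∃ p ∈ XR M X, ∃ g ∈ par M X, ∃ r ∈ XL M X,
    la g = k ∧ t = tt D β la k p g r}

/-! Piece I-a -/

/-- PROOF. `Occ` with `x = p`, `g = u`, `y = r`. -/
theorem occ_pur {N : ℕ} {p u r : M.Group} (hX : Sp β X) (hu : u ∈ par M X)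
    (hl : len M (p * u * r) = len M p + len M u + len M r) (h : N ≤ la u) :
    Occ M β la N (p * u * r) :=
  ⟨X, hX, p, u, r, hu, h, rfl, hl⟩

variable {k : ℕ}

/-- PROOF. `inv`: `Dat.occ_inv`. `hin`: `Occ.of_mem`. `g3`: `la u = k`, `ld_T`; the leading term of
`T w` is `0` or `single w 1` (`ld_C`, `ld_II`), `w = p u r` has `Occ k` (`occ_pur`). `h11`: `1 = C 1`
is in `LL 0 ≤ LL k`; `ld k` is `0` if `k > 0` (`ld_lt`); if `k = 0` then all elements have `Occ 0`
(`Occ.zero`). The other fields are clear. -/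
theorem ctx1 (hD : Dat D β la) (hI : Idl D (Occ M β la (k + 1))) :
    Ctx β la (LfC D (Occ M β la (k + 1))) (k : ℤ) 0 (k + 1) (fun _ _ => GO M β la k) where
  dat := hD
  idl := hI
  inv := fun _ h => hD.occ_inv h
  hin := fun _ hX _ hc h => Occ.of_mem hX hc h
  hT0 := fun m hm => by omega
  g1 := fun _ _ _ _ _ _ => le_rfl
  g2 := fun _ _ _ _ _ _ _ _ _ _ _ _ _ _ _ _ _ _ _ _ => le_rfl
  g3 := by
    intro X hX p _ u hu r _ hl _ hk _
    change ld D (Occ M β la (k + 1)) 0 (D.T (p * u * r)) ∈ GO M β la k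
    rw [ld_T]
    by_cases h : Occ M β la (k + 1) (p * u * r)
    · rw [ld_II (C_mem_II h)]
      exact AddSubgroup.zero_mem _
    · rw [ld_C h]
      intro z hz
      have h1 : p * u * r = z := by
        by_contra hne
        exact hz (Finsupp.single_eq_of_ne (Ne.symm hne))
      rw [← h1]
      exact occ_pur hX hu hl (by omega)
  h11 := by
    have h1 : (1 : H) ∈ LL D (Occ M β la (k + 1)) 0 := by
      rw [← D.T_one]
      exact T_LL 1
    refine ⟨LL_mono (by omega) h1, ?_⟩
    change ld D (Occ M β la (k + 1)) (k : ℤ) (1 : H) ∈ GO M β la k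
    rcases Nat.eq_zero_or_pos k with h0 | h0
    · subst h0
      exact fun z _ => Occ.zero z
    · rw [ld_lt (show (0 : ℤ) < k by omega) h1]
      exact AddSubgroup.zero_mem _

/-- PROOF. `T_LL`. -/
theorem tb1 (n : ℕ) : TB (LfC D (Occ M β la (k + 1))) 0 n :=
  fun w _ _ => T_LL w

/-- PROOF. `clm_all` with `ctx1`, `tb1`. -/
theorem A_all (hD : Dat D β la) (hI : Idl D (Occ M β la (k + 1))) (hX : Sp β X)
    {p u r : M.Group} (hp : p ∈ XR M X) (hu : u ∈ par M X) (hr : r ∈ XL M X) :
    D.T p * D.C u * D.T r ∈ LL D (Occ M β la (k + 1)) ((k : ℤ) - la u) :=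
  (clm_all (ctx1 hD hI) (fun n => tb1 n) hX hp hu hr).1

theorem tt_supp (hD : Dat D β la) (hI : Idl D (Occ M β la (k + 1))) (hX : Sp β X)
    {p u r z : M.Group} (hp : p ∈ XR M X) (hu : u ∈ par M X) (hr : r ∈ XL M X)
    (h : tt D β la k p u r z ≠ 0) : Occ M β la k z :=
  (clm_all (ctx1 hD hI) (fun n => tb1 n) hX hp hu hr).2 z h

/-- PROOF. `A_all` with `X = ∅`, `u = 1`. -/
theorem TT_LL (hD : Dat D β la) (hI : Idl D (Occ M β la (k + 1))) (x y : M.Group) :
    D.T x * D.T y ∈ LL D (Occ M β la (k + 1)) k := by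
  have h := A_all hD hI (Sp_empty β) (p := x) (u := 1) (r := y)
    (fun b hb => absurd hb (Set.notMem_empty b)) (one_mem _)
    (fun b hb => absurd hb (Set.notMem_empty b))
  rwa [D.C_one, mul_one, hD.one, Nat.cast_zero, sub_zero] at h

private theorem R1a_C_Lat (D : KLD M L H) (w : M.Group) : D.C w ∈ Lat D.T 0 := by
  have h1 : D.C w = (D.C w - D.T w) + D.T w := by abel
  rw [h1]
  exact AddSubgroup.add_mem _ (Lat_mono _ (by norm_num) (D.C_sub_T_neg w)) (basis_mem_Lat _ _)

/-- PROOF. As `CC_LL` in AM/Aa2.lean: expand `C x` and `C y` in the basis `T` (coefficients of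
degree at most `0`). -/
theorem CC_LL (hD : Dat D β la) (hI : Idl D (Occ M β la (k + 1))) (x y : M.Group) :
    D.C x * D.C y ∈ LL D (Occ M β la (k + 1)) k := by
  have h1 : ∀ w, D.T w * D.C y ∈ LL D (Occ M β la (k + 1)) k := by
    intro w
    have e : D.T w * D.C y = D.T w * D.C y * 1 := (mul_one _).symm
    rw [e, lq_expand D.T]
    refine AddSubgroup.sum_mem _ fun v _ => ?_
    rw [mul_one]
    have h2 := smul_LL (R1a_C_Lat D y v) (TT_LL hD hI w v)
    rwa [zero_add] at h2
  have e : D.C x * D.C y = 1 * D.C x * D.C y := by rw [one_mul]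
  rw [e, lq_expand D.T]
  refine AddSubgroup.sum_mem _ fun w _ => ?_
  rw [one_mul]
  have h2 := smul_LL (R1a_C_Lat D x w) (h1 w)
  rwa [zero_add] at h2

/-- PROOF. `C c` is in the ideal (`Occ.of_mem`). -/
theorem tt_gt (hI : Idl D (Occ M β la (k + 1))) (hX : Sp β X) {p c r : M.Group}
    (hc : c ∈ par M X) (h : k < la c) : tt D β la k p c r = 0 :=
  ld_II (hI.II_mulR _ (hI.II_mulL _ (C_mem_II (Occ.of_mem hX hc h)))) _

/-! Piece I-b -/

/-- The leading coefficients of a reduced product.
PROOF. `T p * C g * T r = T z + x` with `z = p g r`, `x = ∑ p v g • (T p * T v * T r)` over `v` of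
length less than `len g`, so `x ∈ Vl D.T (len M) (len M z)` (`mul_Vl`), and so in the span of the
`C z'` with `z'` shorter (`Vl_eq`). `T z = C z + (shorter)` (`T_sub_C`). So
`repr (T p * C g * T r) z = 1` and all other coordinates are at shorter elements. -/
theorem tt_red {p g r : M.Group} (hk : la g = k)
    (hl : len M (p * g * r) = len M p + len M g + len M r) :
    (¬ Occ M β la (k + 1) (p * g * r) → tt D β la k p g r (p * g * r) = 1) ∧
      ∀ z, z ≠ p * g * r → tt D β la k p g r z ≠ 0 → len M z < len M (p * g * r) := by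
  classical
  have a1 := rs_mul_le (M := M) (p * g) r
  have a2 := rs_mul_le (M := M) p g
  have e1 : len M (p * g) = len M p + len M g := by omega
  have e2 : len M (p * g * r) = len M (p * g) + len M r := by omega
  have e3 : D.T p * D.T g * D.T r = D.T (p * g * r) := by
    rw [← D.T_mul p g e1, ← D.T_mul (p * g) r e2]
  have h1 : D.T p * (D.C g - D.T g) * D.T r ∈ Vl D.T (len M) (len M (p * g * r)) := by
    have h2 := D.mul_Vl (D.T_mul_Vl p (D.C_sub_T g))
      (mem_Vl D.T (len M) (w := r) (Nat.lt_succ_self _))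
    rwa [← hl] at h2
  rw [← Vl_eq D.T (len M) D.C D.C_sub_T] at h1
  have h3 : D.T p * D.C g * D.T r - D.C (p * g * r) ∈ Vl D.C (len M) (len M (p * g * r)) := by
    have h4 := Submodule.add_mem _ h1 (D.T_sub_C (p * g * r))
    have e4 : D.T p * (D.C g - D.T g) * D.T r + (D.T (p * g * r) - D.C (p * g * r)) =
        D.T p * D.C g * D.T r - D.C (p * g * r) := by
      rw [mul_sub, sub_mul, e3]
      abel
    rwa [e4] at h4
  rw [mem_Vl_iff] at h3
  have h5 : ∀ z, D.C.repr (D.T p * D.C g * D.T r) z =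
      Finsupp.single (p * g * r) (1 : LP) z +
        D.C.repr (D.T p * D.C g * D.T r - D.C (p * g * r)) z := by
    intro z
    rw [map_sub, Finsupp.sub_apply, Module.Basis.repr_self]
    abel
  have h6 : ∀ z, tt D β la k p g r z = if Occ M β la (k + 1) z then 0 else
      (D.C.repr (D.T p * D.C g * D.T r) z).coeff 0 := by
    intro z
    rw [tt, hk, sub_self, ld_apply]
  constructor
  · intro hn
    have h7 : D.C.repr (D.T p * D.C g * D.T r - D.C (p * g * r)) (p * g * r) = 0 := by
      by_contra hne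
      exact absurd (h3 _ hne) (lt_irrefl _)
    rw [h6, if_neg hn, h5, h7, add_zero, Finsupp.single_eq_same, cf_one, if_pos rfl]
  · intro z hz ht
    apply h3
    intro h0
    apply ht
    rw [h6, h5, h0, add_zero, Finsupp.single_eq_of_ne hz, cf_zero, ite_self]

/-- PROOF. Strong induction on `len z`. `Dat.nf`: `z = p g r`, `la g = k` (not `Occ (k + 1)`:
`occ_pur`). `tt D β la k p g r ∈ TG`, and it is `single z 1` plus a combination of `single z' 1` with
`z'` shorter (`tt_red`), `Occ k z'` (`tt_supp`), not `Occ (k + 1) z'` (`ld_supp`); by induction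
these are in `TG`. -/
theorem dl_mem_TG (hD : Dat D β la) (hI : Idl D (Occ M β la (k + 1))) {z : M.Group}
    (hz : Occ M β la k z) (hl : ¬ Occ M β la (k + 1) z) :
    (Finsupp.single z 1 : M.Group →₀ ℤ) ∈ TG D β la k := by
  classical
  suffices h : ∀ n z, len M z < n → Occ M β la k z → ¬ Occ M β la (k + 1) z →
      (Finsupp.single z 1 : M.Group →₀ ℤ) ∈ TG D β la k from h _ z (Nat.lt_succ_self _) hz hl
  intro n
  induction n with
  | zero =>
    intro z hz
    omega
  | succ n ih =>
    intro z hn hz hl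
    obtain ⟨Y, hY, p, hp, g, hg, r, hr, he, hlen, hN⟩ := hD.nf hz
    have hSp : Sp β Y := by
      rcases hY with ⟨i, rfl⟩ | ⟨a, b, _, rfl⟩
      · exact Sp_blk i
      · exact Sp_pair β a b
    subst he
    have hk : la g = k := by
      by_contra hne
      exact hl (occ_pur hSp hg hlen (by omega))
    have h1 := tt_red (D := D) (β := β) (k := k) hk hlen
    have h2 : tt D β la k p g r ∈ TG D β la k :=
      AddSubgroup.subset_closure ⟨Y, hSp, p, hp, g, hg, r, hr, hk, rfl⟩
    have h3 : (tt D β la k p g r).erase (p * g * r) ∈ TG D β la k := by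
      rw [← Finsupp.sum_single ((tt D β la k p g r).erase (p * g * r)), Finsupp.sum]
      refine AddSubgroup.sum_mem _ fun y hy => ?_
      rw [Finsupp.mem_support_iff] at hy
      have hne : y ≠ p * g * r := by
        rintro rfl
        exact hy Finsupp.erase_same
      rw [Finsupp.erase_ne hne] at hy ⊢
      have h4 := ih y (by
        have := h1.2 y hne hy
        omega) (tt_supp hD hI hSp hp hg hr hy) (ld_supp hy)
      have h5 : (Finsupp.single y (tt D β la k p g r y) : M.Group →₀ ℤ) =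
          tt D β la k p g r y • Finsupp.single y 1 := by
        rw [Finsupp.smul_single, smul_eq_mul, mul_one]
      rw [h5]
      exact AddSubgroup.zsmul_mem _ h4 _
    have h6 := Finsupp.single_add_erase (p * g * r) (tt D β la k p g r)
    rw [h1.1 hl] at h6
    have h7 : (Finsupp.single (p * g * r) 1 : M.Group →₀ ℤ) =
        tt D β la k p g r - (tt D β la k p g r).erase (p * g * r) := by
      rw [← h6]
      abel_nf
      simp
    rw [h7]
    exact AddSubgroup.sub_mem _ h2 h3

/-! Piece I-c -/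

private theorem Ic_neg (hD : Dat D β la) (hI : Idl D (Occ M β la (k + 1))) (hX : Sp β X)
    {p : M.Group} (hp : p ∈ XR M X) {n : ℕ} {x : H} (hx : x ∈ NegR D X (Sk M X la k) n) :
    D.T p * x ∈ LL D (Occ M β la (k + 1)) (-1) := by
  unfold NegR at hx
  refine AddSubgroup.closure_induction
    (p := fun x _ => D.T p * x ∈ LL D (Occ M β la (k + 1)) (-1)) ?_ ?_ ?_ ?_ hx
  · rintro x ⟨a, r', hr', g, hg, ha, _, rfl⟩
    have e : D.T p * (a • (D.C g * D.T r')) = a • (D.T p * D.C g * D.T r') := by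
      rw [Algebra.mul_smul_comm, mul_assoc]
    rw [e]
    have h1 := A_all hD hI hX hp hg.1 hr'
    have h2 : k ≤ la g := hg.2
    have h3 := smul_LL ha h1
    exact LL_mono (by omega) h3
  · rw [mul_zero]
    exact AddSubgroup.zero_mem _
  · intro x y _ _ hx hy
    rw [mul_add]
    exact AddSubgroup.add_mem _ hx hy
  · intro x _ hx
    rw [mul_neg]
    exact AddSubgroup.neg_mem _ hx

/-- PROOF. As `zz4_sub` in AM/Zz4.lean. -/
theorem TC_sub (hD : Dat D β la) (hI : Idl D (Occ M β la (k + 1))) (hX : Sp β X)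
    {p g r : M.Group} (hp : p ∈ XR M X) (hg : g ∈ par M X) (hr : r ∈ XL M X) (hk : la g = k) :
    D.T p * D.C (g * r) - D.T p * D.C g * D.T r ∈ LL D (Occ M β la (k + 1)) (-1) := by
  have h1 := C_sub_NegR D (clR_Sk D (hD.locS hX) k) hr (show g ∈ Sk M X la k from ⟨hg, hk.ge⟩)
  have h2 := Ic_neg hD hI hX hp h1
  rwa [mul_sub, ← mul_assoc] at h2

/-- PROOF. As `admR` in AM/Zz4.lean. -/
theorem admR (hD : Dat D β la) (hI : Idl D (Occ M β la (k + 1))) (hX : Sp β X)
    {r : M.Group} (hr : r ∈ XL M X) :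
    AdmL D (Occ M β la (k + 1)) X la k fun g => D.C (g * r) where
  mul := fun b hb g hg hk =>
    E_right hI (hD.locS hX) (fun _ hc h => Occ.of_mem hX hc h) (fun _ hw => hD.occ_inv hw)
      hb hr hg hk
  bar := fun g _ _ => by
    rw [D.bar_C, sub_self]
    exact Submodule.zero_mem _
  lam := fun p hp g hg hk => by
    have h0 := A_all hD hI hX hp hg hr
    rw [hk, sub_self] at h0
    have h1 := AddSubgroup.add_mem _ (LL_mono (by norm_num) (TC_sub hD hI hX hp hg hr hk)) h0
    rwa [sub_add_cancel] at h1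

/-- PROOF. As `ld_TC` in AM/Zz4.lean. -/
theorem ld_TC (hD : Dat D β la) (hI : Idl D (Occ M β la (k + 1))) (hX : Sp β X)
    {p g r : M.Group} (hp : p ∈ XR M X) (hg : g ∈ par M X) (hr : r ∈ XL M X) (hk : la g = k) :
    ld D (Occ M β la (k + 1)) 0 (D.T p * D.C (g * r)) = tt D β la k p g r := by
  have h1 : ld D (Occ M β la (k + 1)) 0 (D.T p * D.C (g * r)) =
      ld D (Occ M β la (k + 1)) 0 (D.T p * D.C g * D.T r) :=
    ld_congr (by rw [zero_sub]; exact TC_sub hD hI hX hp hg hr hk)
  rw [h1, tt, hk, sub_self]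

private theorem idl_step_II_le {x : H} (hx : x ∈ II D (Occ M β la (k + 1))) :
    x ∈ II D (Occ M β la k) :=
  mem_II.2 fun z hz => mem_II.1 hx z fun h => hz (h.mono (Nat.le_succ k))

private theorem idl_step_Xf (hD : Dat D β la) (hI : Idl D (Occ M β la (k + 1))) (hX : Sp β X)
    {p g r : M.Group} (hp : p ∈ XR M X) (hg : g ∈ par M X) (hr : r ∈ XL M X) (hk : la g = k) :
    Pool.Agent.Helper35.AM.Xf D (Occ M β la (k + 1)) (fun g => D.C (g * r)) p g =
      D.up (tt D β la k p g r) := by
  rw [Pool.Agent.Helper35.AM.Xf, ld_TC hD hI hX hp hg hr hk]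

private theorem idl_step_up {t : M.Group →₀ ℤ} (h : ∀ z, t z ≠ 0 → Occ M β la k z) :
    D.up t ∈ II D (Occ M β la k) := by
  refine mem_II.2 fun z hz => ?_
  rw [D.repr_up]
  have h1 : t z = 0 := by
    by_contra hne
    exact hz (h z hne)
  rw [h1, zero_smul]

private theorem idl_step_gen (hD : Dat D β la) (hI : Idl D (Occ M β la (k + 1))) (hX : Sp β X)
    {p g r : M.Group} (hp : p ∈ XR M X) (hg : g ∈ par M X) (hr : r ∈ XL M X) (hk : la g = k)
    (t : H) : t * D.up (tt D β la k p g r) ∈ II D (Occ M β la k) := by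
  have h1 := (admR hD hI hX hr).mulX hI (hD.locS hX)
    (fun c hc h => Occ.of_mem hX hc (Nat.succ_le_of_lt h)) hp hg hk t
  rw [idl_step_Xf hD hI hX hp hg hr hk] at h1
  have h2 : Pool.Agent.Helper35.AM.Xi D X la k
      (Pool.Agent.Helper35.AM.Xf D (Occ M β la (k + 1)) (fun g => D.C (g * r)))
      (t * D.C (p * g)) ∈ II D (Occ M β la k) := by
    rw [Pool.Agent.Helper35.AM.Xi, Module.Basis.constr_apply, Finsupp.sum]
    refine Submodule.sum_mem _ fun w _ => Submodule.smul_mem _ _ ?_
    split_ifs with hw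
    · rw [idl_step_Xf hD hI hX (xr_mem X w) (xp_mem X w) hr hw]
      exact idl_step_up fun z hz => tt_supp hD hI hX (xr_mem X w) (xp_mem X w) hr hz
    · exact Submodule.zero_mem _
  have h3 := Submodule.add_mem _ (idl_step_II_le h1) h2
  rwa [sub_add_cancel] at h3

private theorem idl_step_TG (hD : Dat D β la) (hI : Idl D (Occ M β la (k + 1)))
    {s : M.Group →₀ ℤ} (hs : s ∈ TG D β la k) (t : H) :
    t * D.up s ∈ II D (Occ M β la k) := by
  unfold TG at hs
  refine AddSubgroup.closure_induction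
    (p := fun s _ => t * D.up s ∈ II D (Occ M β la k)) ?_ ?_ ?_ ?_ hs
  · rintro s ⟨X, hX, p, hp, g, hg, r, hr, hk, rfl⟩
    exact idl_step_gen hD hI hX hp hg hr hk t
  · have e : D.up (0 : M.Group →₀ ℤ) = 0 := map_zero D.up
    rw [e, mul_zero]
    exact Submodule.zero_mem _
  · intro x y _ _ hx hy
    have e : D.up (x + y) = D.up x + D.up y := map_add D.up x y
    rw [e, mul_add]
    exact Submodule.add_mem _ hx hy
  · intro x _ hx
    have e : D.up (-x) = -D.up x := map_neg D.up x
    rw [e, mul_neg]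
    exact Submodule.neg_mem _ hx

private theorem idl_step_left (hD : Dat D β la) (hI : Idl D (Occ M β la (k + 1)))
    (w : M.Group) (hw : Occ M β la k w) (y : H) :
    y * D.C w ∈ II D (Occ M β la k) := by
  by_cases h : Occ M β la (k + 1) w
  · exact idl_step_II_le (hI.mulL w h y)
  · have h1 : D.C w = D.up (Finsupp.single w 1) := (D.up_single w).symm
    rw [h1]
    exact idl_step_TG hD hI (dl_mem_TG hD hI hw h) y

/-- The step of the downward induction.
PROOF. As `idl_step` in AM/Zz4.lean (with `dl_mem_TG` instead of `sg_mem_TG`). -/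
theorem idl_step (hD : Dat D β la) (hI : Idl D (Occ M β la (k + 1))) :
    Idl D (Occ M β la k) where
  mulL := fun w hw y => idl_step_left hD hI w hw y
  mulR := fun w hw y => by
    have h1 := idl_step_left hD hI w⁻¹ (hD.occ_inv hw) (D.fl y)
    have h2 := II_fl (fun _ hw => hD.occ_inv hw) h1
    rwa [D.fl_mul, D.fl_C, inv_inv, D.fl_fl] at h2

/-- PROOF. `Dat.bdd`; downward induction (as `idl` in AM/Id.lean). For large `N` there are no
elements with `Occ N`. -/
theorem idl [Finite B] (hD : Dat D β la) (N : ℕ) : Idl D (Occ M β la N) := by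
  obtain ⟨N0, h0⟩ := hD.bdd
  have hempty : ∀ N, (∀ w, ¬ Occ M β la N w) → Idl D (Occ M β la N) := fun N h1 =>
    ⟨fun w hw _ => absurd hw (h1 w), fun w hw _ => absurd hw (h1 w)⟩
  have haux : ∀ j N : ℕ, N + j = N0 → Idl D (Occ M β la N) := by
    intro j
    induction j with
    | zero =>
      intro N hN
      have hN' : N = N0 := by omega
      subst hN'
      exact hempty N h0
    | succ j ih =>
      intro N hN
      exact idl_step hD (ih (N + 1) (by omega))
  rcases le_total N N0 with h | h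
  · exact haux (N0 - N) N (by omega)
  · exact hempty N fun w hw => h0 w (hw.mono h)

/-! Piece I-d -/

/-- The function `a`, as the maximal value of `la` on the factors in pieces. -/
noncomputable def al (M : CoxeterMatrix B) (β : B → Bool) (la : M.Group → ℕ) (w : M.Group) :
    ℕ :=
  sSup {N | Occ M β la N w}

variable [Finite B]

/-- PROOF. As `Occ_iff` in AM/Id.lean (`Dat.bdd`, `Occ.mono`, `Occ.zero`). -/
theorem Occ_iff (hD : Dat D β la) {N : ℕ} {w : M.Group} :
    Occ M β la N w ↔ N ≤ al M β la w := by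
  obtain ⟨N0, h0⟩ := hD.bdd
  have hne : {N | Occ M β la N w}.Nonempty := ⟨0, Occ.zero w⟩
  have hbd : BddAbove {N | Occ M β la N w} := by
    refine ⟨N0, fun N hN => ?_⟩
    by_contra hcon
    have hN' : Occ M β la N w := hN
    exact h0 w (hN'.mono (by omega))
  constructor
  · intro h
    exact le_csSup hbd h
  · intro h
    have h1 : Occ M β la (al M β la w) w := Nat.sSup_mem hne hbd
    exact h1.mono h

theorem al_inv (hD : Dat D β la) (w : M.Group) : al M β la w⁻¹ = al M β la w := by
  refine eq_of_forall_le_iff fun N => ?_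
  rw [← Occ_iff hD, ← Occ_iff hD]
  constructor
  · intro h
    have h1 := hD.occ_inv h
    rwa [inv_inv] at h1
  · intro h
    exact hD.occ_inv h

/-- PROOF. `Dat.occ_mem`, `Occ_iff`. -/
theorem al_mem (hD : Dat D β la) (hX : Sp β X) {g : M.Group} (hg : g ∈ par M X) :
    al M β la g = la g := by
  refine eq_of_forall_le_iff fun N => ?_
  rw [← Occ_iff hD]
  exact hD.occ_mem hX hg

/-- PROOF. `C x` is in the ideal of the elements with `Occ (al x)` (`idl`). -/
theorem al_h (hD : Dat D β la) {x y z : M.Group} (h : D.h x y z ≠ 0) :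
    al M β la x ≤ al M β la z ∧ al M β la y ≤ al M β la z := by
  constructor
  · rw [← Occ_iff hD]
    by_contra hcon
    have h1 : D.C x * D.C y ∈ II D (Occ M β la (al M β la x)) :=
      (idl hD _).mulR x ((Occ_iff hD).2 le_rfl) _
    exact h (mem_II.1 h1 z hcon)
  · rw [← Occ_iff hD]
    by_contra hcon
    have h1 : D.C x * D.C y ∈ II D (Occ M β la (al M β la y)) :=
      (idl hD _).mulL y ((Occ_iff hD).2 le_rfl) _
    exact h (mem_II.1 h1 z hcon)

theorem al_leLR (hD : Dat D β la) {y w : M.Group} (h : D.leLR y w) :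
    al M β la w ≤ al M β la y := by
  refine Relation.ReflTransGen.head_induction_on
    (motive := fun y _ => al M β la w ≤ al M β la y) h le_rfl ?_
  intro a c h1 _ ih
  refine le_trans ih ?_
  rcases h1 with ⟨b, hb1⟩ | ⟨b, hb1⟩
  · exact (al_h hD hb1).2
  · exact (al_h hD hb1).1

/-- PROOF. `Occ.rd_left`, `Occ.rd_right`. -/
theorem al_mul (hD : Dat D β la) {x y : M.Group} (h : Rd M x y) :
    al M β la x ≤ al M β la (x * y) ∧ al M β la y ≤ al M β la (x * y) := by
  constructor
  · rw [← Occ_iff hD]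
    exact Occ.rd_left h ((Occ_iff hD).2 le_rfl)
  · rw [← Occ_iff hD]
    exact Occ.rd_right h ((Occ_iff hD).2 le_rfl)

theorem al_at_one (hD : Dat D β la) : al M β la 1 = 0 := by
  rw [al_mem hD (Sp_empty β) (one_mem _), hD.one]

private theorem Id_not (hD : Dat D β la) (z : M.Group) :
    ¬ Occ M β la (al M β la z + 1) z := by
  rw [Occ_iff hD]
  omega

/-- PROOF. `CC_LL` with `k = al z`. -/
theorem h_dle_al (hD : Dat D β la) (x y z : M.Group) :
    Dle (al M β la z) (D.h x y z) :=
  mem_LL.1 (CC_LL hD (idl hD (al M β la z + 1)) x y) z (Id_not hD z)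

/-- PROOF. `A_all` with `k = al z`. -/
theorem TCT_dle_al (hD : Dat D β la) (hX : Sp β X) {p u r : M.Group} (hp : p ∈ XR M X)
    (hu : u ∈ par M X) (hr : r ∈ XL M X) (z : M.Group) :
    Dle ((al M β la z : ℤ) - la u) (D.C.repr (D.T p * D.C u * D.T r) z) :=
  mem_LL.1 (A_all hD (idl hD (al M β la z + 1)) hX hp hu hr) z (Id_not hD z)

/-- PROOF. As `TT_dle_al` in AM/Id.lean. -/
theorem TT_dle_al (hD : Dat D β la) (x y z : M.Group) :
    Dle (al M β la z) (D.C.repr (D.T x * D.T y) z) ∧
      (D.C.repr (D.T x * D.T y) z).coeff (al M β la z) =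
        (D.h x y z).coeff (al M β la z) := by
  have hI := idl hD (al M β la z + 1)
  constructor
  · exact mem_LL.1 (TT_LL hD hI x y) z (Id_not hD z)
  · have hk : ∀ a b, D.C a * D.C b ∈ LL D (Occ M β la (al M β la z + 1)) (al M β la z : ℤ) :=
      fun a b => CC_LL hD hI a b
    have h4 : D.T x * (D.C y - D.T y) ∈ LL D (Occ M β la (al M β la z + 1))
        (0 + (-1) + (al M β la z : ℤ)) := mul_LL hI hk (T_LL x) (C_sub_T_LL y)
    have h5 : (D.C x - D.T x) * D.C y ∈ LL D (Occ M β la (al M β la z + 1))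
        ((-1) + 0 + (al M β la z : ℤ)) := mul_LL hI hk (C_sub_T_LL x) (C_LL y)
    have h6 := mem_LL.1 h4 z (Id_not hD z)
    have h7 := mem_LL.1 h5 z (Id_not hD z)
    have h8 : D.C x * D.C y = D.T x * D.T y + D.T x * (D.C y - D.T y) +
        (D.C x - D.T x) * D.C y := by noncomm_ring
    have h9 : D.h x y z = D.C.repr (D.T x * D.T y) z +
        D.C.repr (D.T x * (D.C y - D.T y)) z + D.C.repr ((D.C x - D.T x) * D.C y) z := by
      change D.C.repr (D.C x * D.C y) z = _
      rw [h8, map_add, map_add, Finsupp.add_apply, Finsupp.add_apply]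
    rw [h9, cf_add, cf_add, h6 _ (by omega), h7 _ (by omega), add_zero, add_zero]

/-! Piece I-e -/

private theorem I6_latL {Q : Set B} {n : ℤ} {p : M.Group} (hp : p ∈ XR M Q) {x : H}
    (hx : x ∈ HQ D Q) (hx' : x ∈ Lat D.T n) : D.T p * x ∈ Lat D.T n := by
  rw [← D.T.linearCombination_repr x, Finsupp.linearCombination_apply, Finsupp.sum,
    Finset.mul_sum]
  refine AddSubgroup.sum_mem _ fun y hy => ?_
  have hy2 : y ∈ par M Q := by
    by_contra hne
    exact (Finsupp.mem_support_iff.1 hy) ((mem_HQ D).1 hx y hne)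
  rw [mul_smul_comm, ← D.T_mul p y (len_XR_mul hp hy2)]
  have := smul_Lat D.T (hx' y) (basis_mem_Lat D.T (p * y))
  rwa [add_zero] at this

private theorem I6_latR {Q : Set B} {n : ℤ} {r : M.Group} (hr : r ∈ XL M Q) {x : H}
    (hx : x ∈ HQ D Q) (hx' : x ∈ Lat D.T n) : x * D.T r ∈ Lat D.T n := by
  rw [← D.T.linearCombination_repr x, Finsupp.linearCombination_apply, Finsupp.sum,
    Finset.sum_mul]
  refine AddSubgroup.sum_mem _ fun y hy => ?_
  have hy2 : y ∈ par M Q := by
    by_contra hne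
    exact (Finsupp.mem_support_iff.1 hy) ((mem_HQ D).1 hx y hne)
  rw [smul_mul_assoc, ← D.T_mul y r (len_mul_XL hy2 hr)]
  have := smul_Lat D.T (hx' y) (basis_mem_Lat D.T (y * r))
  rwa [add_zero] at this

private theorem I6_subL {Q : Set B} {p x : M.Group} (hp : p ∈ XR M Q) (hx : x ∈ par M Q) :
    D.C (p * x) - D.T p * D.C x ∈ Lat D.T (-1) := by
  have e : D.C (p * x) - D.T p * D.C x =
      (D.C (p * x) - D.T (p * x)) - D.T p * (D.C x - D.T x) := by
    rw [mul_sub, ← D.T_mul p x (len_XR_mul hp hx)]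
    abel
  rw [e]
  refine AddSubgroup.sub_mem _ (D.C_sub_T_neg _) (I6_latL hp ?_ (D.C_sub_T_neg x))
  exact Submodule.sub_mem _ (C_mem_HQ D hx) (T_mem_HQ D hx)

private theorem I6_subR {Q : Set B} {r y : M.Group} (hr : r ∈ XL M Q) (hy : y ∈ par M Q) :
    D.C (y * r) - D.C y * D.T r ∈ Lat D.T (-1) := by
  have e : D.C (y * r) - D.C y * D.T r =
      (D.C (y * r) - D.T (y * r)) - (D.C y - D.T y) * D.T r := by
    rw [sub_mul, ← D.T_mul y r (len_mul_XL hy hr)]
    abel
  rw [e]
  refine AddSubgroup.sub_mem _ (D.C_sub_T_neg _) (I6_latR hr ?_ (D.C_sub_T_neg y))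
  exact Submodule.sub_mem _ (C_mem_HQ D hy) (T_mem_HQ D hy)

private theorem I6_C0 (x : M.Group) : D.C x ∈ Lat D.T 0 := by
  have e : D.C x = D.T x + (D.C x - D.T x) := by abel
  rw [e]
  exact AddSubgroup.add_mem _ (basis_mem_Lat D.T x)
    (Lat_mono D.T (by norm_num) (D.C_sub_T_neg x))

private theorem I6_nf {k : ℕ} (hD : Dat D β la) {I : Set B} {w : M.Group} (hw : w ∈ par M I)
    (h : Occ M β la k w) :
    ∃ X, Sp β X ∧ X ⊆ I ∧ ∃ p ∈ XR M X, ∃ g ∈ par M X, ∃ r ∈ XL M X, w = p * g * r ∧
      p ∈ par M I ∧ r ∈ par M I ∧ len M w = len M p + len M g + len M r ∧ k ≤ la g := by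
  obtain ⟨Y, hY, p, hp, g, hg, r, hr, hw', hl, hk⟩ := hD.nf h
  have hYs : Sp β Y := by
    rcases hY with ⟨i, rfl⟩ | ⟨a, b, -, rfl⟩
    · exact Sp_blk i
    · exact Sp_pair β a b
  subst hw'
  have a1 := rs_mul_le (M := M) (p * g) r
  have a2 := rs_mul_le (M := M) p g
  have h1 : len M (p * g) = len M p + len M g := by omega
  obtain ⟨hpg, hrI⟩ := par_of_mul (by omega) hw
  obtain ⟨hpI, hgI⟩ := par_of_mul h1 hpg
  refine ⟨Y ∩ I, hYs.sub Set.inter_subset_left, Set.inter_subset_right, p,
    XR_mono Set.inter_subset_left hp, g, ?_, r, XL_mono Set.inter_subset_left hr, rfl, hpI, hrI,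
    hl, hk⟩
  exact mem_par_inter hg hgI

private theorem I6_not_al [Finite B] (hD : Dat D β la) (z : M.Group) :
    ¬ Occ M β la (al M β la z + 1) z := by
  rw [Occ_iff hD]
  omega


/-- The leading coefficients of a product.
PROOF. `C (p g) = T p * C g + (NegL)`, `C (d r) = C d * T r + (NegR)` (`C_sub_NegL`, `C_sub_NegR`
for `Sk M X la 0`). The products of the parts are combinations, with coefficients of
degree at most `-1` except for the main one, of `T p' * (C g' * C d') * T r' =
∑ h g' d' c • (T p' * C c * T r')`, `Loc.dle`, `A_all` and `C_mem_II`: they are in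
`LL (k - 1)`. The main one is `∑ h g d c • (T p * C c * T r)`, with leading coefficients
`gc g d c • tt p c r` (`ld_smul`; if `k < la c` both sides are `0`). -/
theorem ld_CC (hD : Dat D β la) (hX : Sp β X) {p g d r : M.Group} (hp : p ∈ XR M X)
    (hg : g ∈ par M X) (hd : d ∈ par M X) (hr : r ∈ XL M X) :
    ld D (Occ M β la (k + 1)) k (D.C (p * g) * D.C (d * r)) =
      ∑ c ∈ (D.C.repr (D.C g * D.C d)).support, gc D la g d c • tt D β la k p c r := by
  classical
  have hI := idl hD (k + 1)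
  have hCC := fun a b => CC_LL hD hI a b
  have a1 : D.C (p * g) - D.T p * D.C g ∈ LL D (Occ M β la (k + 1)) (-1) :=
    LatT_LL (I6_subL hp hg)
  have a2 : D.C (d * r) - D.C d * D.T r ∈ LL D (Occ M β la (k + 1)) (-1) :=
    LatT_LL (I6_subR hr hd)
  have a3 : D.T p * D.C g ∈ LL D (Occ M β la (k + 1)) 0 :=
    LatT_LL (I6_latL hp (C_mem_HQ D hg) (I6_C0 g))
  have b1 := mul_LL hI hCC a1 (C_LL (D := D) (hv := Occ M β la (k + 1)) (d * r))
  have b2 := mul_LL hI hCC a3 a2
  have b3 : D.C (p * g) * D.C (d * r) - D.T p * D.C g * (D.C d * D.T r) ∈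
      LL D (Occ M β la (k + 1)) ((k : ℤ) - 1) := by
    have e : D.C (p * g) * D.C (d * r) - D.T p * D.C g * (D.C d * D.T r) =
        (D.C (p * g) - D.T p * D.C g) * D.C (d * r) +
          D.T p * D.C g * (D.C (d * r) - D.C d * D.T r) := by
      rw [sub_mul, mul_sub]
      abel
    rw [e]
    exact AddSubgroup.add_mem _ (LL_mono (by omega) b1) (LL_mono (by omega) b2)
  have b4 := ld_congr b3
  have c1 : D.T p * D.C g * (D.C d * D.T r) =
      ∑ c ∈ (D.C.repr (D.C g * D.C d)).support,
        D.C.repr (D.C g * D.C d) c • (D.T p * D.C c * D.T r) := by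
    have e : D.T p * D.C g * (D.C d * D.T r) = D.T p * (D.C g * D.C d) * D.T r := by
      simp only [mul_assoc]
    rw [e]
    conv_lhs => rw [← D.C.linearCombination_repr (D.C g * D.C d)]
    rw [Finsupp.linearCombination_apply, Finsupp.sum, Finset.mul_sum, Finset.sum_mul]
    refine Finset.sum_congr rfl fun c _ => ?_
    rw [mul_smul_comm, smul_mul_assoc]
  rw [b4, c1, map_sum]
  refine Finset.sum_congr rfl fun c hc => ?_
  have hcP : c ∈ par M X := h_mem D hg hd (Finsupp.mem_support_iff.1 hc)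
  have h1 := A_all hD hI hX hp hcP hr
  have h3 := ld_smul (hv := Occ M β la (k + 1)) ((hD.locS hX).dle g hg d hd c hcP) h1
  have e : ((la c : ℕ) : ℤ) + ((k : ℤ) - la c) = k := by omega
  rw [e] at h3
  exact h3

/-- The value is attained inside every parabolic subgroup.
PROOF. `k = al w`. If `k = 0`: `h w 1 w = 1`. If not: `Dat.nf`: `w = p g r`, `Y`, `la g = k`;
`p, g, r ∈ par M I` (`par_of_mul`), `g ∈ par M (Y ∩ I)` (`mem_par_inter`). `unitR` for the piece
`Y ∩ I`: `d` with `gc g d g = nu d ≠ 0` and `gc g d c = 0` for the other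
`c ∈ par M (Y ∩ I)` (`h_mem`). By `ld_CC` (for `Y`) the coefficient of `h (p g) (d r) w` in degree
`k` is `nu d * tt p g r w = nu d` (`tt_red`). -/
theorem al_attained (hD : Dat D β la) (I : Set B) {w : M.Group} (hw : w ∈ par M I) :
    ∃ x ∈ par M I, ∃ y ∈ par M I, (D.h x y w).coeff (al M β la w) ≠ 0 := by
  classical
  obtain ⟨k, hk⟩ : ∃ k, k = al M β la w := ⟨_, rfl⟩
  have hocc : Occ M β la k w := (Occ_iff hD).2 hk.le
  have hl : ¬ Occ M β la (k + 1) w := by
    rw [hk]
    exact I6_not_al hD w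
  rw [← hk]
  obtain ⟨X, hX, hXI, p, hp, g, hg, r, hr, hw', hpI, hrI, hlen, hkg⟩ := I6_nf hD hw hocc
  subst hw'
  have hgk : la g = k := by
    rcases Nat.lt_or_ge k (la g) with h | h
    · exact absurd (occ_pur hX hg hlen h) hl
    · exact le_antisymm h hkg
  obtain ⟨d, hd, -, hd2, -, hd4, hd5⟩ := (hD.locS hX).unitR g hg
  have h1 := (tt_red (D := D) (β := β) hgk hlen).1 hl
  have h2 := ld_CC (k := k) hD hX hp hg hd hr
  have h3 := DFunLike.congr_fun h2 (p * g * r)
  rw [Finsupp.finsetSum_apply, Finset.sum_eq_single g] at h3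
  · refine ⟨p * g, (par M I).mul_mem hpI (par_mono hXI hg), d * r,
      (par M I).mul_mem (par_mono hXI hd) hrI, ?_⟩
    rw [ld_apply, if_neg hl, Finsupp.smul_apply, h1, hd4, smul_eq_mul, mul_one] at h3
    change (D.C.repr (D.C (p * g) * D.C (d * r)) (p * g * r)).coeff (k : ℤ) ≠ 0
    rw [h3]
    rcases hd2 with h4 | h4 <;> rw [h4] <;> norm_num
  · intro c hc hne
    have hcP : c ∈ par M X := h_mem D hg hd (Finsupp.mem_support_iff.1 hc)
    rw [hd5 c hcP hne, zero_smul, Finsupp.zero_apply]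
  · intro h
    have h4 : D.h g d g = 0 := by
      by_contra hne
      exact h (Finsupp.mem_support_iff.2 hne)
    unfold gc
    rw [h4, cf_zero, zero_smul, Finsupp.zero_apply]

/-- PROOF. `Dat.bdd`, `h_dle_al`. -/
theorem bounded_al (hD : Dat D β la) : D.Bounded := by
  obtain ⟨N, hN⟩ := hD.bdd
  refine ⟨N, fun x y z => (h_dle_al hD x y z).mono ?_⟩
  have h1 : al M β la z < N := by
    by_contra hlt
    exact hN z ((Occ_iff hD).2 (by omega))
  omega

/-- PROOF. `KLD.a_eq`, `h_dle_al`, `al_attained` with `I = Set.univ`. -/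
theorem a_eq_al (hD : Dat D β la) (w : M.Group) : D.a w = al M β la w := by
  have hu : w ∈ par M (Set.univ : Set B) := by
    have h1 : par M (Set.univ : Set B) = ⊤ := by
      unfold par
      rw [Set.image_univ]
      exact M.toCoxeterSystem.subgroup_closure_range_simple
    rw [h1]
    exact Subgroup.mem_top w
  obtain ⟨x, _, y, _, h⟩ := al_attained hD Set.univ hu
  exact KLD.a_eq (fun x y => h_dle_al hD x y w) ⟨x, y, h⟩

/-- PROOF. As `P12_am` in AM/Id2.lean. -/
theorem P12_al (hD : Dat D β la) (I : Set B) {w : M.Group} (hw : w ∈ par M I) :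
    D.aPar I w = D.a w := by
  rw [a_eq_al hD]
  obtain ⟨x, hx, y, hy, h⟩ := al_attained hD I hw
  have h1 : IsGreatest {n : ℕ | ∃ x ∈ par M I, ∃ y ∈ par M I, (D.h x y w).coeff n ≠ 0}
      (al M β la w) := by
    refine ⟨⟨x, hx, y, hy, h⟩, ?_⟩
    rintro n ⟨x, _, y, _, hn⟩
    by_contra hlt
    exact hn (h_dle_al hD x y w n (by omega))
  exact h1.csSup_eq

theorem P4_al (hD : Dat D β la) {y w : M.Group} (h : D.leLR y w) : D.a w ≤ D.a y := by
  rw [a_eq_al hD, a_eq_al hD]
  exact al_leLR hD h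

end r1

end Pool.Agent.Helper63.LG
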