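import Pool.Agent.Helper63.LG.Gg

/-!
# The leading terms of the nonreduced triple products with three letters
-/

namespace Pool.Agent.Helper63.LG

open Pool.Agent.Helper35.KL Pool.Agent.Helper35.AM

section rb

variable {B : Type} {M : CoxeterMatrix B} {L : M.Group → ℤ} {H : Type} [Ring H] [Algebra LP H]

/-! Piece RB-a -/

/-- The expansion for type A, `J = {a, c}`.
PROOF. `crA_id`: the second summand is `xi c • (T P * C c * T b * T R)`, `P = z * xe (m - 1)`,
`R = c (a r) = ye (m - 1) * z'`. `T P * C c = T z * T (xe (m - 1)) * C c`, `TC_top`. In the sum over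
`i`: `C c * T b = T b * C c` (`C_comm2`, `C b = T b + qq (-L b) • 1`), `C c * T R =
C c * T (ye (m - 1)) * T z'`, `CT_top`. -/
theorem rb_id (D : KLD M L H) {β : B → Bool} (hL : IsWeight M L) (hb : Big M β) {a b c : B}
    {p r z z' : M.Group} (hab : β a ≠ β b) (hc : β c = β b) (hp : p ∈ XR M ({a, b} : Set B))
    (hr : r ∈ XL M ({a, b} : Set B)) (h : CfA M a b c p r z z') :
    D.T p * D.T (sm M a * sm M b * sm M a) * D.T r =
      qq (-2 * L (sm M c)) •
        D.T (z * xe M a c (M a c - 1) * (sm M b * (sm M c * (sm M a * r)))) +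
      (KLD.xi (L := L) c •
        (D.T z * D.C (wJ M a c) * D.T (sm M b * (sm M c * (sm M a * r)))) -
      (∑ i ∈ Finset.range (M a c - 1),
        (KLD.xi (L := L) c * qq (L (xe M a c i * sm M c) - L (wJ M a c))) •
          (D.T (z * xe M a c i) * D.T (sm M b) * D.C (wJ M a c) * D.T z')) +
      (∑ i ∈ Finset.range (M a c - 1), ∑ j ∈ Finset.range (M a c - 1),
        (KLD.xi (L := L) c * qq (L (xe M a c i * sm M c) - L (wJ M a c)) *
          qq (L (xe M a c j * sm M c) - L (wJ M a c))) •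
          (D.T (z * xe M a c i) * D.T (sm M b) * D.C (sm M c) *
            D.T (ye M a c j * z')))) := by
  have hP := h.pr
  have hf : Fin2 M a c := hP.f1
  have h2 := hf.two
  have hA : D.T (z * xe M a c (M a c - 1)) = D.T z * D.T (xe M a c (M a c - 1)) :=
    D.T_mul _ _ (len_XR_mul hP.zx (xe_mem _))
  have hAi : ∀ i, D.T (z * xe M a c i) = D.T z * D.T (xe M a c i) := fun i =>
    D.T_mul _ _ (len_XR_mul hP.zx (xe_mem _))
  have hBj : ∀ j, D.T (ye M a c j * z') = D.T (ye M a c j) * D.T z' := fun j =>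
    D.T_mul _ _ (len_mul_XL (ye_mem _) hP.zl)
  have hR : D.T (sm M b * (sm M c * (sm M a * r))) =
      D.T (sm M b) * D.T (ye M a c (M a c - 1) * z') := by
    have h3 : len M (sm M c * (sm M a * r)) = len M r := by
      have h4 := hP.lr
      rw [hP.cdr, len_mul_XL (ye_mem _) hP.zl, ye_len hf (by omega)]
      omega
    have h5 : len M (sm M b * (sm M c * (sm M a * r))) =
        len M (sm M c * (sm M a * r)) + 1 := by
      rw [h.lbR, h3]
    rw [← D.T_sm_mul h5, hP.cdr]
  have hcomm : D.C (sm M c) * D.T (sm M b) = D.T (sm M b) * D.C (sm M c) := by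
    have h3 := (C_comm2 D hL h.fb (by rw [M.symmetric]; exact h.cb)).2.2
    rw [T_sm_eq D hL b, mul_sub, sub_mul, h3, mul_smul_comm, smul_mul_assoc, mul_one, one_mul]
  rw [(crA_id D hL hb hab hc hp hr h).1]
  congr 1
  have key1 : D.T (z * xe M a c (M a c - 1)) * D.C (sm M c) =
      D.T z * D.C (wJ M a c) -
        ∑ i ∈ Finset.range (M a c - 1), qq (L (xe M a c i * sm M c) - L (wJ M a c)) •
          (D.T (z * xe M a c i) * D.C (sm M c)) := by
    rw [hA, mul_assoc, TC_top D hL hf, mul_sub, Finset.mul_sum]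
    congr 1
    refine Finset.sum_congr rfl fun i _ => ?_
    rw [hAi, mul_smul_comm, mul_assoc]
  have key2 : D.C (sm M c) * D.T (ye M a c (M a c - 1) * z') =
      D.C (wJ M a c) * D.T z' -
        ∑ j ∈ Finset.range (M a c - 1), qq (L (xe M a c j * sm M c) - L (wJ M a c)) •
          (D.C (sm M c) * D.T (ye M a c j * z')) := by
    rw [hBj, ← mul_assoc, CT_top D hL hf, sub_mul, Finset.sum_mul]
    congr 1
    refine Finset.sum_congr rfl fun j _ => ?_
    rw [hBj, smul_mul_assoc, mul_assoc]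
  have key3 : ∀ i, D.T (z * xe M a c i) * D.C (sm M c) *
      D.T (sm M b * (sm M c * (sm M a * r))) =
      D.T (z * xe M a c i) * D.T (sm M b) * D.C (wJ M a c) * D.T z' -
        ∑ j ∈ Finset.range (M a c - 1), qq (L (xe M a c j * sm M c) - L (wJ M a c)) •
          (D.T (z * xe M a c i) * D.T (sm M b) * D.C (sm M c) * D.T (ye M a c j * z')) := by
    intro i
    have e1 : D.T (z * xe M a c i) * D.C (sm M c) *
        D.T (sm M b * (sm M c * (sm M a * r))) =
        D.T (z * xe M a c i) * D.T (sm M b) *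
          (D.C (sm M c) * D.T (ye M a c (M a c - 1) * z')) := by
      rw [hR, mul_assoc, ← mul_assoc (D.C (sm M c)), hcomm]
      simp only [mul_assoc]
    rw [e1, key2, mul_sub, Finset.mul_sum]
    congr 1
    · simp only [mul_assoc]
    · refine Finset.sum_congr rfl fun j _ => ?_
      rw [mul_smul_comm]
      simp only [mul_assoc]
  rw [key1, sub_mul, Finset.sum_mul, smul_sub, Finset.smul_sum]
  rw [sub_add]
  congr 1
  rw [← Finset.sum_sub_distrib]
  refine Finset.sum_congr rfl fun i _ => ?_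
  rw [smul_mul_assoc, key3 i, smul_sub, smul_sub, smul_smul, Finset.smul_sum, Finset.smul_sum]
  congr 1
  refine Finset.sum_congr rfl fun j _ => ?_
  rw [smul_smul, smul_smul, mul_assoc]

variable {D : KLD M L H} {β : B → Bool} {la : M.Group → ℕ}
variable {hv : M.Group → Prop} {A : Type} [AddCommGroup A]
variable {F : Lf D hv A} {κ T0 : ℤ} {N : ℕ} {G : M.Group → M.Group → AddSubgroup A}

/-! Piece RB-b: products with `T b * C c` in the middle, `b`, `c` commuting -/

/-- PROOF. `T b * C c = (C b - qq (-L b) • 1) * C c = C (wJ b c) - qq (-L b) • C c`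
(`C_comm2`, `T_sm_eq`). `hI` for the piece `{b, c}` (`w`, `w'` have no descents `b`, `c`),
`la (wJ b c) = L b + L c` (`Dat.la_wJ`, `wt2_eq`), and for the piece `{c}`. `wJ b c = b c = c b`. -/
theorem rb_Xa (hC : Ctx β la F κ T0 N G) {n : ℕ} (hI : IH β F la κ G n) {b c : B}
    (hf : Fin2 M b c) (h2 : M b c = 2) {w w' : M.Group} (hw : ¬ dR M w c) (hwb : ¬ dR M w b)
    (hw' : ¬ dL M w' c) (hwb' : ¬ dL M w' b) (hn : len M w + 2 + len M w' < n) :
    D.T w * D.T (sm M b) * D.C (sm M c) * D.T w' ∈ F.Lam (κ - L (sm M b) - L (sm M c)) ∧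
      F.ld (κ - L (sm M b) - L (sm M c)) (D.T w * D.T (sm M b) * D.C (sm M c) * D.T w') ∈
        G (w * (sm M c * sm M b)) (sm M b * sm M c * w') ⊔ G (w * sm M c) (sm M c * w') := by
  have hL := hC.dat.wt
  obtain ⟨c1, c2, -⟩ := C_comm2 D hL hf h2
  have hwX : w ∈ XR M ({b, c} : Set B) := by
    rw [mem_XR]
    intro s hs
    rcases hs with hs | hs
    · rw [hs]
      exact hwb
    · rw [Set.mem_singleton_iff.1 hs]
      exact hw
  have hwL : w' ∈ XL M ({b, c} : Set B) := by
    rw [mem_XL]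
    intro s hs
    rcases hs with hs | hs
    · rw [hs]
      exact hwb'
    · rw [Set.mem_singleton_iff.1 hs]
      exact hw'
  have e0 : D.T w * D.T (sm M b) * D.C (sm M c) * D.T w' =
      D.T w * D.C (wJ M b c) * D.T w' -
        qq (-L (sm M b)) • (D.T w * D.C (sm M c) * D.T w') := by
    rw [T_sm_eq D hL b, mul_sub, sub_mul, sub_mul, mul_assoc (D.T w) (D.C (sm M b)), c1,
      mul_smul_comm, mul_one, smul_mul_assoc, smul_mul_assoc]
  obtain ⟨a1, a2⟩ := g_E0 hC hI hf hwX hwL (by omega)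
  obtain ⟨b1, b2⟩ := g_X hC hI hw hw' (by omega)
  have hd2 : κ - L (wJ M b c) = κ - L (sm M b) - L (sm M c) := by
    rw [wt2_eq hL hf h2]
    ring
  rw [hd2] at a1 a2
  have hd : -L (sm M b) + (κ - L (sm M c)) = κ - L (sm M b) - L (sm M c) := by ring
  have m1 := F.smul (Dle.qq (-L (sm M b))) b1
  have m2 := F.ldsmul (Dle.qq (-L (sm M b))) b1
  rw [hd] at m1 m2
  rw [e0]
  refine ⟨AddSubgroup.sub_mem _ a1 m1, ?_⟩
  rw [map_sub, m2]
  refine AddSubgroup.sub_mem _ ?_ ?_
  · refine AddSubgroup.mem_sup_left ?_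
    rw [c2] at a2
    rw [← sm_comm h2]
    rw [← c2] at a2 ⊢
    exact a2
  · exact AddSubgroup.mem_sup_right (AddSubgroup.zsmul_mem _ b2 _)

/-- PROOF. If `dR w b`: `T w * T b = T (w b) + xi b • T w` (`T_mul_sm'`), `w b` has not the right
descent `c` (`dR_comm`), `g_X` twice. If `dL w' b`: `T b * C c = C c * T b` (`C_comm2`) and
`T b * T w' = T (b w') + xi b • T w'`. -/
theorem rb_Xb (hC : Ctx β la F κ T0 N G) {n : ℕ} (hI : IH β F la κ G n) {b c : B}
    (hf : Fin2 M b c) (h2 : M b c = 2) {w w' : M.Group} (hw : ¬ dR M w c)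
    (hw' : ¬ dL M w' c) (hwb : dR M w b ∨ dL M w' b) (hn : len M w + 2 + len M w' < n) :
    D.T w * D.T (sm M b) * D.C (sm M c) * D.T w' ∈ F.Lam (κ - L (sm M c) + L (sm M b)) := by
  have hL := hC.dat.wt
  have hlb := hL.pos b
  obtain ⟨-, -, c3⟩ := C_comm2 D hL hf h2
  have key := (g_X hC hI hw hw' (by omega)).1
  rcases hwb with h | h
  · have hl : len M (w * sm M b) + 1 = len M w := h
    have k1 : ¬ dR M (w * sm M b) c := fun h3 => hw ((dR_comm h2).1 h3)
    have key1 := (g_X hC hI k1 hw' (by omega)).1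
    rw [D.T_mul_sm' h, add_mul, add_mul, smul_mul_assoc, smul_mul_assoc]
    refine AddSubgroup.add_mem _ (F.mono (by omega) key1) ?_
    exact F.mono (by omega) (F.smul (xi_dle hL b) key)
  · have hl : len M (sm M b * w') + 1 = len M w' := h
    have k1 : ¬ dL M (sm M b * w') c := fun h3 => hw' ((dL_comm h2).1 h3)
    have key1 := (g_X hC hI hw k1 (by omega)).1
    have hcomm : D.T (sm M b) * D.C (sm M c) = D.C (sm M c) * D.T (sm M b) := by
      rw [T_sm_eq D hL b, mul_sub, sub_mul, c3, mul_smul_comm, smul_mul_assoc, mul_one, one_mul]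
    have e1 : D.T w * D.T (sm M b) * D.C (sm M c) * D.T w' =
        D.T w * D.C (sm M c) * (D.T (sm M b) * D.T w') := by
      rw [mul_assoc (D.T w), hcomm]
      simp only [mul_assoc]
    rw [e1, D.T_sm_mul' h, mul_add, mul_smul_comm]
    refine AddSubgroup.add_mem _ (F.mono (by omega) key1) ?_
    exact F.mono (by omega) (F.smul (xi_dle hL b) key)

/-- The terms with the longest element on the right, `i ≥ 2`.
PROOF. `T w * T b = T (w b)` (`w b` is longer: `xb`), `w b ∈ XR {a, c}` (`xbk`): `g_E0`: degree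
`κ - L wJ`. The coefficient has degree at most `L c - L a` (`al_le`). `wt5`:
`L wJ ≥ 3 L a + 2 L c`. -/
theorem rb_Y2 (hC : Ctx β la F κ T0 N G) {a b c : B} {p r z z' : M.Group}
    (h : CfA M a b c p r z z') {n : ℕ} (hI : IH β F la κ G n)
    (hn : len M p + len M r + 1 < n) {i : ℕ} (h2 : 2 ≤ i) (hi : i + 2 ≤ M a c) :
    (KLD.xi (L := L) c * qq (L (xe M a c i * sm M c) - L (wJ M a c))) •
      (D.T (z * xe M a c i) * D.T (sm M b) * D.C (wJ M a c) * D.T z') ∈
        F.Lam (κ - 4 * L (sm M a) - L (sm M c)) := by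
  have hL := hC.dat.wt
  have hP := h.pr
  have hla := hL.pos a
  have hlc := hL.pos c
  obtain ⟨w1, w2⟩ := wt5 hL hP.f1 h.m5
  obtain ⟨x1, x2, -⟩ := hP.xi (i := i) (by omega)
  have hlp := hP.lp
  have hlr := hP.lr
  have hb := not_dR.1 (h.xb i h2 hi)
  have hco : Dle (L (sm M c) + (L (xe M a c i * sm M c) - L (wJ M a c)))
      (KLD.xi (L := L) c * qq (L (xe M a c i * sm M c) - L (wJ M a c))) :=
    (xi_dle hL c).mul (Dle.qq _)
  have hal := al_le hL hP.f1 hi
  rw [← D.T_mul (z * xe M a c i) (sm M b) (by rw [hb, len_sm])]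
  have h3 := (g_E0 hC hI hP.f2 (h.xbk i h2 hi) hP.zl (by rw [hb, x1]; omega)).1
  exact F.mono (by omega) (F.smul hco h3)

/-- The terms with the longest element on the right, `i ≤ 1`.
PROOF. Let `w = z * xe i`, not `dR w c` (`Pres.xi`). `α = L wJ - L (xe i * c) ≥ 2 L a + L c`
(`al_zero`, `al_one`, `wt5`). If not `dR w b`: `T w * T b = T (w b)`, not `dR (w b) c` (`dR_comm`),
`g_E1`: degree `κ - L c`, in total `κ - α`. If `dR w b`: `T w * T b = T (w b) + xi b • T w`; the first
as before; `T w * C wJ * T z'` is in `Lam (κ - L wJ + L (xe i))` (`g_E` with `k = xe i`), and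
`L (xe i) = L (xe i * c) - L c`, so in total
`κ + L b + L c - α - L wJ + L (xe i) = κ + L b - 2 α`. -/
theorem rb_Y1 (hC : Ctx β la F κ T0 N G) {a b c : B} {p r z z' : M.Group}
    (h : CfA M a b c p r z z') {n : ℕ} (hI : IH β F la κ G n)
    (hn : len M p + len M r + 1 < n) {i : ℕ} (h2 : i ≤ 1) :
    (KLD.xi (L := L) c * qq (L (xe M a c i * sm M c) - L (wJ M a c))) •
      (D.T (z * xe M a c i) * D.T (sm M b) * D.C (wJ M a c) * D.T z') ∈
        F.Lam (max (κ - 2 * L (sm M a) - L (sm M c))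
          (κ + L (sm M b) - 4 * L (sm M a) - 2 * L (sm M c))) := by
  have hL := hC.dat.wt
  have hP := h.pr
  have h5 := h.m5
  have hla := hL.pos a
  have hlb := hL.pos b
  have hlc := hL.pos c
  obtain ⟨w1, w2⟩ := wt5 hL hP.f1 h5
  obtain ⟨x1, x2, -⟩ := hP.xi (i := i) (by omega)
  have hlp := hP.lp
  have hlr := hP.lr
  have hbc : M b c = 2 := by rw [M.symmetric]; exact h.cb
  have hco : Dle (L (sm M c) + (L (xe M a c i * sm M c) - L (wJ M a c)))
      (KLD.xi (L := L) c * qq (L (xe M a c i * sm M c) - L (wJ M a c))) :=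
    (xi_dle hL c).mul (Dle.qq _)
  have hal : L (xe M a c i * sm M c) + 2 * L (sm M a) + L (sm M c) ≤ L (wJ M a c) := by
    rcases Nat.lt_or_ge i 1 with hk1 | hk1
    · obtain rfl : i = 0 := by omega
      rw [al_zero hL]
      omega
    · obtain rfl : i = 1 := by omega
      rw [al_one hL hP.f1]
      omega
  have k1 : ¬ dR M (z * xe M a c i * sm M b) c := fun h3 => x2 ((dR_comm hbc).1 h3)
  have hlb' : len M (z * xe M a c i * sm M b) ≤ len M (z * xe M a c i) + 1 := by
    rcases dR_or (z * xe M a c i) b with h3 | h3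
    · have h4 : len M (z * xe M a c i * sm M b) + 1 = len M (z * xe M a c i) := h3
      omega
    · exact h3.le
  have key1 := g_E1 hC hI hP.f2 k1 hP.zl (by omega)
  have m1 := F.smul hco key1
  by_cases hb : dR M (z * xe M a c i) b
  · rw [D.T_mul_sm' hb, add_mul, add_mul, smul_mul_assoc, smul_mul_assoc, smul_add]
    refine AddSubgroup.add_mem _ (F.mono (le_max_of_le_left (by omega)) m1) ?_
    have key2 := g_E hC hI hP.f2 hP.zx (xe_mem (M := M) (e := a) (c := c) i) rfl hP.zl
      (by omega)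
    have hxn : ¬ dR M (xe M a c i) c := xe_not hP.f1 (by omega)
    have hadd : L (xe M a c i * sm M c) = L (xe M a c i) + L (sm M c) :=
      hL.add _ _ (by rw [not_dR.1 hxn, len_sm])
    have m2 := F.smul hco (F.smul (xi_dle hL b) key2)
    exact F.mono (le_max_of_le_right (by omega)) m2
  · have hb' := not_dR.1 hb
    rw [← D.T_mul (z * xe M a c i) (sm M b) (by rw [hb', len_sm])]
    exact F.mono (le_max_of_le_left (by omega)) m1

/-! Piece RB-c -/

/-- PROOF. The coefficient has degree at most `L c - α i - α j`, `α i = L wJ - L (xe i * c)`.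
If not `dR (z * xe i) b` and not `dL (ye j * z') b`: `rb_Xa`: in total `κ - L b - α i - α j`, and
`α ≥ L a` (`al_le`). If `i = j = m - 2`: `z * xe i = p c`, `ye j * z' = c r`, so the groups are
`G (p c (c b)) (b c (c r)) = G (p b) (b r)` and `G (p c c) (c c r) = G p r`. Otherwise one of them
is at least `L a + L c` (`al_mid`): `Dec.of_lt`. In the other case `i ≤ 1` or `j ≤ 1`
(`CfA.xb`, `CfA.yb`): `rb_Xb`: in total `κ + L b - α i - α j`, with one of the two at least
`L a + 2 L c` (`al_zero`, `al_one`, `wt5`) and the other at least `L a`. `L b < L c`. -/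
theorem rb_X1 (hC : Ctx β la F κ T0 N G) {a b c : B} {p r z z' : M.Group}
    (h : CfA M a b c p r z z') (hlt : L (sm M b) < L (sm M c)) {n : ℕ}
    (hI : IH β F la κ G n) (hn : len M p + len M r + 1 < n) {i j : ℕ} (hi : i + 2 ≤ M a c)
    (hj : j + 2 ≤ M a c) {τ : ℤ} :
    Dec F (κ - 2 * L (sm M a) - L (sm M b)) (G p r ⊔ G (p * sm M b) (sm M b * r)) τ
      ((KLD.xi (L := L) c * qq (L (xe M a c i * sm M c) - L (wJ M a c)) *
          qq (L (xe M a c j * sm M c) - L (wJ M a c))) •
          (D.T (z * xe M a c i) * D.T (sm M b) * D.C (sm M c) *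
            D.T (ye M a c j * z'))) := by
  have hL := hC.dat.wt
  have hP := h.pr
  have h5 := h.m5
  have hbc : M b c = 2 := by rw [M.symmetric]; exact h.cb
  have hla := hL.pos a
  have hlb := hL.pos b
  have hlc := hL.pos c
  obtain ⟨w1, w2⟩ := wt5 hL hP.f1 h5
  obtain ⟨x1, x2, -⟩ := hP.xi (i := i) (by omega)
  obtain ⟨y1, y2, -⟩ := hP.yj (j := j) (by omega)
  have hlp := hP.lp
  have hlr := hP.lr
  have hlen : len M (z * xe M a c i) + 2 + len M (ye M a c j * z') < n := by omega
  have hcoef : Dle (L (sm M c) + (L (xe M a c i * sm M c) - L (wJ M a c)) +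
      (L (xe M a c j * sm M c) - L (wJ M a c)))
      (KLD.xi (L := L) c * qq (L (xe M a c i * sm M c) - L (wJ M a c)) *
        qq (L (xe M a c j * sm M c) - L (wJ M a c))) :=
    ((xi_dle hL c).mul (Dle.qq _)).mul (Dle.qq _)
  have hi1 := al_le hL hP.f1 hi
  have hj1 := al_le hL hP.f1 hj
  by_cases hcase : dR M (z * xe M a c i) b ∨ dL M (ye M a c j * z') b
  · have e1 := rb_Xb hC hI h.fb hbc x2 y2 hcase hlen
    refine Dec.of_lt (F.smul hcoef e1) ?_
    have hij : i ≤ 1 ∨ j ≤ 1 := by
      rcases hcase with h1 | h1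
      · left
        by_contra h2
        exact h.xb i (by omega) hi h1
      · right
        by_contra h2
        exact h.yb j (by omega) hj h1
    have hal : ∀ k : ℕ, k ≤ 1 →
        L (xe M a c k * sm M c) + L (sm M a) + 2 * L (sm M c) ≤ L (wJ M a c) := by
      intro k hk
      rcases Nat.lt_or_ge k 1 with hk1 | hk1
      · obtain rfl : k = 0 := by omega
        rw [al_zero hL]
        omega
      · obtain rfl : k = 1 := by omega
        rw [al_one hL hP.f1]
        omega
    rcases hij with h1 | h1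
    · have h2 := hal i h1
      omega
    · have h2 := hal j h1
      omega
  · push Not at hcase
    obtain ⟨e1, e2⟩ := rb_Xa hC hI h.fb hbc x2 hcase.1 y2 hcase.2 hlen
    by_cases htop : i + 2 = M a c ∧ j + 2 = M a c
    · obtain ⟨t1, t2⟩ := htop
      have g1 : M a c - 2 = i := by omega
      have g2 : M a c - 2 = j := by omega
      have hij : j = i := by omega
      have ht := al_top hL hP.f1
      rw [g1] at ht
      rw [hij] at e1 e2 hcoef ⊢
      have hdeg : L (sm M c) + (L (xe M a c i * sm M c) - L (wJ M a c)) +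
          (L (xe M a c i * sm M c) - L (wJ M a c)) + (κ - L (sm M b) - L (sm M c)) =
            κ - 2 * L (sm M a) - L (sm M b) := by
        rw [ht]
        ring
      have hw : z * xe M a c i = p * sm M c := by
        rw [← g1, hP.pc]
      have hw' : ye M a c i * z' = sm M c * r := by
        rw [← g1, hP.cr]
      have hm1 := F.smul hcoef e1
      have hm2 := F.ldsmul hcoef e1
      rw [hdeg] at hm1 hm2
      refine Dec.main hm1 ?_
      rw [hm2]
      have k1 : z * xe M a c i * (sm M c * sm M b) = p * sm M b := by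
        rw [hw, mul_assoc, ← mul_assoc (sm M c) (sm M c), sm_sm, one_mul]
      have k2 : sm M b * sm M c * (ye M a c i * z') = sm M b * r := by
        rw [hw', mul_assoc, sm_cancel]
      have k3 : z * xe M a c i * sm M c = p := by
        rw [hw, mul_assoc, sm_sm, mul_one]
      have k4 : sm M c * (ye M a c i * z') = r := by
        rw [hw', sm_cancel]
      rw [k1, k2, k3, k4, sup_comm] at e2
      exact AddSubgroup.zsmul_mem _ e2 _
    · refine Dec.of_lt (F.smul hcoef e1) ?_
      have hlt' : i + 3 ≤ M a c ∨ j + 3 ≤ M a c := by omega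
      rcases hlt' with h3 | h3
      · have h4 := al_mid hL hP.f1 h3
        omega
      · have h4 := al_mid hL hP.f1 h3
        omega

/-- PROOF. As `rb_X1`. First case: degree at most `κ - L b - 2 L a`. Second case:
`κ + L b - α i - α j` with one of the two at least `2 L a + L c` and the other at least `L a`. -/
theorem rb_X2 (hC : Ctx β la F κ T0 N G) {a b c : B} {p r z z' : M.Group}
    (h : CfA M a b c p r z z') (hlt : L (sm M b) < L (sm M a)) {n : ℕ}
    (hI : IH β F la κ G n) (hn : len M p + len M r + 1 < n) {i j : ℕ} (hi : i + 2 ≤ M a c)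
    (hj : j + 2 ≤ M a c) :
    ((KLD.xi (L := L) c * qq (L (xe M a c i * sm M c) - L (wJ M a c)) *
          qq (L (xe M a c j * sm M c) - L (wJ M a c))) •
          (D.T (z * xe M a c i) * D.T (sm M b) * D.C (sm M c) *
            D.T (ye M a c j * z'))) ∈
      F.Lam (κ - 2 * L (sm M a) + L (sm M b) - 1) := by
  have hL := hC.dat.wt
  have hP := h.pr
  have h5 := h.m5
  have hbc : M b c = 2 := by rw [M.symmetric]; exact h.cb
  have hla := hL.pos a
  have hlb := hL.pos b
  have hlc := hL.pos c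
  obtain ⟨w1, w2⟩ := wt5 hL hP.f1 h5
  obtain ⟨x1, x2, -⟩ := hP.xi (i := i) (by omega)
  obtain ⟨y1, y2, -⟩ := hP.yj (j := j) (by omega)
  have hlp := hP.lp
  have hlr := hP.lr
  have hlen : len M (z * xe M a c i) + 2 + len M (ye M a c j * z') < n := by omega
  have hcoef : Dle (L (sm M c) + (L (xe M a c i * sm M c) - L (wJ M a c)) +
      (L (xe M a c j * sm M c) - L (wJ M a c)))
      (KLD.xi (L := L) c * qq (L (xe M a c i * sm M c) - L (wJ M a c)) *
        qq (L (xe M a c j * sm M c) - L (wJ M a c))) :=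
    ((xi_dle hL c).mul (Dle.qq _)).mul (Dle.qq _)
  have hi1 := al_le hL hP.f1 hi
  have hj1 := al_le hL hP.f1 hj
  by_cases hcase : dR M (z * xe M a c i) b ∨ dL M (ye M a c j * z') b
  · have e1 := rb_Xb hC hI h.fb hbc x2 y2 hcase hlen
    refine F.mono ?_ (F.smul hcoef e1)
    have hij : i ≤ 1 ∨ j ≤ 1 := by
      rcases hcase with h1 | h1
      · left
        by_contra h2
        exact h.xb i (by omega) hi h1
      · right
        by_contra h2
        exact h.yb j (by omega) hj h1
    have hal : ∀ k : ℕ, k ≤ 1 →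
        L (xe M a c k * sm M c) + 2 * L (sm M a) + L (sm M c) ≤ L (wJ M a c) := by
      intro k hk
      rcases Nat.lt_or_ge k 1 with hk1 | hk1
      · obtain rfl : k = 0 := by omega
        rw [al_zero hL]
        omega
      · obtain rfl : k = 1 := by omega
        rw [al_one hL hP.f1]
        omega
    rcases hij with h1 | h1
    · have h2 := hal i h1
      omega
    · have h2 := hal j h1
      omega
  · push Not at hcase
    obtain ⟨e1, -⟩ := rb_Xa hC hI h.fb hbc x2 hcase.1 y2 hcase.2 hlen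
    refine F.mono ?_ (F.smul hcoef e1)
    omega

/-- Type A, `L b < L c`.
PROOF. `cfA`, `rb_id`. The first summand is in `Lam (T0 - 1)` (`hT`). `g_F` with `k = 1`
(`CfA.bR`, total length `len p + len r + 2`): degree `κ + L c - L wJ`, `wt5`. `rb_Y2`, `rb_Y1`:
all degrees are less than `κ - 2 L a - L b`. `rb_X1`. -/
theorem rb_1 (hC : Ctx β la F κ T0 N G) {a b c : B} {p r : M.Group} (hab : β a ≠ β b)
    (hc : β c = β b) (hcb : c ≠ b) (hm : M c b = 2) (hlt : L (sm M b) < L (sm M c))
    (hp : p ∈ XR M ({a, b} : Set B)) (hr : r ∈ XL M ({a, b} : Set B))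
    (h1 : dR M (p * sm M a) c) (h2 : dL M (sm M a * r) c)
    (hI : IH β F la κ G (len M p + 3 + len M r)) (hT : TB F T0 (len M p + 3 + len M r)) :
    Dec F (κ - 2 * L (sm M a) - L (sm M b)) (G p r ⊔ G (p * sm M b) (sm M b * r)) (T0 - 1)
      (D.T p * D.T (sm M a * sm M b * sm M a) * D.T r) := by
  have hb := hC.dat.big
  have hL := hC.dat.wt
  have hLa := hL.pos a
  have hLb := hL.pos b
  have hLc := hL.pos c
  obtain ⟨z, z', h⟩ := cfA hb hab hc hcb hm hp hr h1 h2
  have h5 := h.m5
  obtain ⟨w1, w2⟩ := wt5 hL h.pr.f1 h5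
  have hlp := h.pr.lp
  have hlr := h.pr.lr
  have hlb := h.lbR
  obtain ⟨hx1, -, -⟩ := h.pr.xi (i := M a c - 1) (by omega)
  have hac : β a ≠ β c := fun h3 => hab (h3.trans hc)
  have hA : KLD.xi (L := L) c •
      (D.T z * D.C (wJ M a c) * D.T (sm M b * (sm M c * (sm M a * r)))) ∈
        F.Lam (L (sm M c) + (κ - L (wJ M a c))) := by
    have h3 := g_F hC hI h.pr.f1 h.pr.zx (Subgroup.one_mem _) h.bR
      (one_mul _).symm (by omega)
    rw [L_one hL, add_zero] at h3
    exact F.smul (xi_dle hL c) h3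
  have hlow : qq (-2 * L (sm M c)) •
      D.T (z * xe M a c (M a c - 1) * (sm M b * (sm M c * (sm M a * r)))) ∈ F.Lam (T0 - 1) := by
    have h3 := rd_four hb (a := a) (b := c) hac h.pr.zx (xe_mem (M a c - 1))
      (by rw [xe_len h.pr.f1 (by omega)]; omega) h.bR
    rw [xe_len h.pr.f1 (by omega)] at h3
    have h6 := hT (z * xe M a c (M a c - 1) * (sm M b * (sm M c * (sm M a * r))))
      (by
        intro h6
        rw [h6, len_one] at h3
        omega) (by omega)
    exact F.mono (by omega) (F.smul (Dle.qq _) h6)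
  rw [rb_id D hL hb hab hc hp hr h]
  refine Dec.add (Dec.low hlow) (Dec.add (Dec.sub ?_ ?_) ?_)
  · exact Dec.of_lt hA (by omega)
  · refine Dec.sum _ fun i hi => ?_
    have hi' := Finset.mem_range.1 hi
    rcases Nat.lt_or_ge i 2 with h3 | h3
    · refine Dec.of_lt (rb_Y1 hC h hI (by omega) (i := i) (by omega)) ?_
      rw [max_lt_iff]
      omega
    · exact Dec.of_lt (rb_Y2 hC h hI (by omega) (i := i) h3 (by omega)) (by omega)
  · refine Dec.sum _ fun i hi => Dec.sum _ fun j hj => ?_
    have hi' := Finset.mem_range.1 hi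
    have hj' := Finset.mem_range.1 hj
    exact rb_X1 hC h hlt hI (by omega) (by omega) (by omega)

/-- Type A, `L b < L a`. PROOF. As `rb_1`, with `rb_X2`. -/
theorem rb_2 (hC : Ctx β la F κ T0 N G) {a b c : B} {p r : M.Group} (hab : β a ≠ β b)
    (hc : β c = β b) (hcb : c ≠ b) (hm : M c b = 2) (hlt : L (sm M b) < L (sm M a))
    (hp : p ∈ XR M ({a, b} : Set B)) (hr : r ∈ XL M ({a, b} : Set B))
    (h1 : dR M (p * sm M a) c) (h2 : dL M (sm M a * r) c)
    (hI : IH β F la κ G (len M p + 3 + len M r)) (hT : TB F T0 (len M p + 3 + len M r)) :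
    ∃ y z, D.T p * D.T (sm M a * sm M b * sm M a) * D.T r = y + z ∧
      y ∈ F.Lam (κ - 2 * L (sm M a) + L (sm M b) - 1) ∧ z ∈ F.Lam (T0 - 1) := by
  have hb := hC.dat.big
  have hL := hC.dat.wt
  have hLa := hL.pos a
  have hLb := hL.pos b
  have hLc := hL.pos c
  obtain ⟨z, z', h⟩ := cfA hb hab hc hcb hm hp hr h1 h2
  have h5 := h.m5
  obtain ⟨w1, w2⟩ := wt5 hL h.pr.f1 h5
  have hlp := h.pr.lp
  have hlr := h.pr.lr
  have hlb := h.lbR
  obtain ⟨hx1, -, -⟩ := h.pr.xi (i := M a c - 1) (by omega)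
  have hac : β a ≠ β c := fun h3 => hab (h3.trans hc)
  have hA : KLD.xi (L := L) c •
      (D.T z * D.C (wJ M a c) * D.T (sm M b * (sm M c * (sm M a * r)))) ∈
        F.Lam (L (sm M c) + (κ - L (wJ M a c))) := by
    have h3 := g_F hC hI h.pr.f1 h.pr.zx (Subgroup.one_mem _) h.bR
      (one_mul _).symm (by omega)
    rw [L_one hL, add_zero] at h3
    exact F.smul (xi_dle hL c) h3
  have hlow : qq (-2 * L (sm M c)) •
      D.T (z * xe M a c (M a c - 1) * (sm M b * (sm M c * (sm M a * r)))) ∈ F.Lam (T0 - 1) := by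
    have h3 := rd_four hb (a := a) (b := c) hac h.pr.zx (xe_mem (M a c - 1))
      (by rw [xe_len h.pr.f1 (by omega)]; omega) h.bR
    rw [xe_len h.pr.f1 (by omega)] at h3
    have h6 := hT (z * xe M a c (M a c - 1) * (sm M b * (sm M c * (sm M a * r))))
      (by
        intro h6
        rw [h6, len_one] at h3
        omega) (by omega)
    exact F.mono (by omega) (F.smul (Dle.qq _) h6)
  rw [rb_id D hL hb hab hc hp hr h]
  refine ⟨_, _, add_comm _ _, ?_, hlow⟩
  refine AddSubgroup.add_mem _ (AddSubgroup.sub_mem _ ?_ ?_) ?_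
  · exact F.mono (by omega) hA
  · refine AddSubgroup.sum_mem _ fun i hi => ?_
    have hi' := Finset.mem_range.1 hi
    rcases Nat.lt_or_ge i 2 with h3 | h3
    · refine F.mono ?_ (rb_Y1 hC h hI (by omega) (i := i) (by omega))
      rw [max_le_iff]
      omega
    · exact F.mono (by omega) (rb_Y2 hC h hI (by omega) (i := i) h3 (by omega))
  · refine AddSubgroup.sum_mem _ fun i hi => AddSubgroup.sum_mem _ fun j hj => ?_
    have hi' := Finset.mem_range.1 hi
    have hj' := Finset.mem_range.1 hj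
    exact rb_X2 hC h hlt hI (by omega) (by omega) (by omega)

end rb

end Pool.Agent.Helper63.LG
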