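import Pool.Agent.Helper63.LG.P4

/-!
# Lusztig's conjectures P1-P15: the reduction to groups without large bonds between two parts

Let the set `S` of generators be finite and `L` a positive weight function.

* Boundedness and P1-P15 hold if and only if they hold for the irreducible parabolic subgroups of
  rank at least three in which all `m s t` are finite and whose set of generators is tight: it is
  not the union of two nonempty disjoint sets such that `m s t ≥ 5` for all `s` in the first and `t`
  in the second set.
* The question Q1 for all Coxeter groups of finite rank follows from the question for the groups of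
  the preceding kind.
* If `S` is divided into blocks such that `m s t ≥ 5` or `m s t = ∞` for all `s`, `t` in different
  blocks, then boundedness and P1-P15 hold if and only if they hold for the parabolic subgroups of
  all blocks.
* Boundedness and P1-P15 hold for every `L`, if for all distinct `r`, `s`, `t` with `m r s`, `m s t`,
  `m r t` finite and `m r s` equal to `3` or `4`, the numbers `m r t` and `m s t` are both `2` or
  both at least `5`, and there are no `a`, `b`, `c`, `d` with `m a b = m b c = m c d = 2` and
  `m a c`, `m b d`, `m a d` finite and at least `5`.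
-/

namespace Pool.Agent.Helper63.LG.ResOld

open Pool.Agent.Helper35.KL Pool.Agent.Helper35.AM Pool.Agent.Helper10.AM Pool.Agent.Helper63.LG

theorem result :
    (∀ {B : Type} [Finite B] (M : CoxeterMatrix B) (L : M.Group → ℤ), IsWeight M L →
      (BoundedP1P15 M L ↔ ∀ T : Set B, 3 ≤ T.encard → TwoSpherical M T → Irred M T → Tight M T →
        BoundedP1P15 (subM M (Subtype.val : T → B) Subtype.val_injective) (resL L T))) ∧
    ((∀ (B : Type) [Finite B] (M : CoxeterMatrix B) (L : M.Group → ℤ), IsWeight M L →
        3 ≤ (Set.univ : Set B).encard → TwoSpherical M Set.univ → Irred M Set.univ →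
        Tight M Set.univ →
        ∀ (H : Type) [Ring H] [Algebra LP H] (D : KLD M L H), D.Bounded → D.Lus) →
      ∀ (B : Type) [Finite B] (M : CoxeterMatrix B) (L : M.Group → ℤ), IsWeight M L →
        ∀ (H : Type) [Ring H] [Algebra LP H] (D : KLD M L H), D.Bounded → D.Lus) ∧
    (∀ {B : Type} [Finite B] (M : CoxeterMatrix B) (L : M.Group → ℤ), IsWeight M L →
      ∀ {ι : Type} (β : B → ι), (∀ s t, β s ≠ β t → M s t = 0 ∨ 5 ≤ M s t) →
        (BoundedP1P15 M L ↔ ∀ i, BoundedP1P15
          (subM M (Subtype.val : {b | β b = i} → B) Subtype.val_injective)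
          (resL L {b | β b = i}))) ∧
    (∀ {B : Type} [Finite B] (M : CoxeterMatrix B),
      (∀ r s t, r ≠ s → s ≠ t → r ≠ t → M r s ≠ 0 → M s t ≠ 0 → M r t ≠ 0 →
        M r s = 3 ∨ M r s = 4 → (M r t = 2 ∧ M s t = 2) ∨ (5 ≤ M r t ∧ 5 ≤ M s t)) →
      (∀ a b c d, M a b = 2 → M b c = 2 → M c d = 2 → 5 ≤ M a c → 5 ≤ M b d → 5 ≤ M a d →
        False) →
      ∀ L : M.Group → ℤ, IsWeight M L → BoundedP1P15 M L) := by
  refine ⟨fun M L hL => ?_, ?_, fun M L hL _ β hb => ?_, fun M h1 h2 L hL => ?_⟩
  · rw [bounded_iff hL, lusztig_tight hL]
    exact forall_congr' fun T => imp_congr_right fun _ => imp_congr_right fun _ =>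
      imp_congr_right fun _ => imp_congr_right fun _ => (bounded_iff (isWeight_res hL T)).symm
  · intro hq B _ M L hL H _ _ D hb
    exact question_tight hq B M L hL H D hb
  · rw [bounded_iff hL, lusztig_blocks hL β hb]
    exact forall_congr' fun i => (bounded_iff (isWeight_res hL {b | β b = i})).symm
  · exact (bounded_iff hL).2 (lusztig_labels hL h1 h2)

end Pool.Agent.Helper63.LG.ResOld
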