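import Pool.Agent.Helper63.LG.R1

/-!
# The second run
-/

/-
For 0 < k: the leading term of T p * C u * T r in degree k - la u is 0, if p u or u r is not Occ k. The theorem clm_all
is used with F = LfC D (Occ (k + 1)), kappa = k, T0 = 0, N = k + 1 as in the first run (ctx1 in R1.lean), and with the
groups G2.
-/

namespace Pool.Agent.Helper63.LG

open Pool.Agent.Helper35.KL Pool.Agent.Helper35.AM

section l1

variable {B : Type} {M : CoxeterMatrix B} {L : M.Group → ℤ} {H : Type} [Ring H] [Algebra LP H]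
variable {D : KLD M L H} {la : M.Group → ℕ} {X Q : Set B}

/-! Piece V-a -/

private theorem L1_lead_latL {n : ℤ} {p : M.Group} (hp : p ∈ XR M Q) {x : H}
    (hx : x ∈ HQ D Q) (hx' : x ∈ Lat D.T n) : D.T p * x ∈ Lat D.T n := by
  rw [← D.T.linearCombination_repr x, Finsupp.linearCombination_apply, Finsupp.sum,
    Finset.mul_sum]
  refine AddSubgroup.sum_mem _ fun y hy => ?_
  have hy2 : y ∈ par M Q := by
    by_contra hne
    exact (Finsupp.mem_support_iff.1 hy) ((mem_HQ D).1 hx y hne)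
  rw [mul_smul_comm, ← D.T_mul p y (len_XR_mul hp hy2)]
  have := smul_Lat D.T (hx' y) (basis_mem_Lat D.T (p * y))
  rwa [add_zero] at this

private theorem L1_lead_latR {n : ℤ} {r : M.Group} (hr : r ∈ XL M Q) {x : H}
    (hx : x ∈ HQ D Q) (hx' : x ∈ Lat D.T n) : x * D.T r ∈ Lat D.T n := by
  rw [← D.T.linearCombination_repr x, Finsupp.linearCombination_apply, Finsupp.sum,
    Finset.sum_mul]
  refine AddSubgroup.sum_mem _ fun y hy => ?_
  have hy2 : y ∈ par M Q := by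
    by_contra hne
    exact (Finsupp.mem_support_iff.1 hy) ((mem_HQ D).1 hx y hne)
  rw [smul_mul_assoc, ← D.T_mul y r (len_mul_XL hy2 hr)]
  have := smul_Lat D.T (hx' y) (basis_mem_Lat D.T (y * r))
  rwa [add_zero] at this

private theorem L1_lead_subL {p x : M.Group} (hp : p ∈ XR M Q) (hx : x ∈ par M Q) :
    D.C (p * x) - D.T p * D.C x ∈ Lat D.T (-1) := by
  have e : D.C (p * x) - D.T p * D.C x =
      (D.C (p * x) - D.T (p * x)) - D.T p * (D.C x - D.T x) := by
    rw [mul_sub, ← D.T_mul p x (len_XR_mul hp hx)]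
    abel
  rw [e]
  refine AddSubgroup.sub_mem _ (D.C_sub_T_neg _) (L1_lead_latL hp ?_ (D.C_sub_T_neg x))
  exact Submodule.sub_mem _ (C_mem_HQ D hx) (T_mem_HQ D hx)

private theorem L1_lead_subR {r y : M.Group} (hr : r ∈ XL M Q) (hy : y ∈ par M Q) :
    D.C (y * r) - D.C y * D.T r ∈ Lat D.T (-1) := by
  have e : D.C (y * r) - D.C y * D.T r =
      (D.C (y * r) - D.T (y * r)) - (D.C y - D.T y) * D.T r := by
    rw [sub_mul, ← D.T_mul y r (len_mul_XL hy hr)]
    abel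
  rw [e]
  refine AddSubgroup.sub_mem _ (D.C_sub_T_neg _) (L1_lead_latR hr ?_ (D.C_sub_T_neg y))
  exact Submodule.sub_mem _ (C_mem_HQ D hy) (T_mem_HQ D hy)

private theorem L1_lead_C0 (x : M.Group) : D.C x ∈ Lat D.T 0 := by
  have e : D.C x = D.T x + (D.C x - D.T x) := by abel
  rw [e]
  exact AddSubgroup.add_mem _ (basis_mem_Lat D.T x)
    (Lat_mono D.T (by norm_num) (D.C_sub_T_neg x))

/-- The leading coefficients of `T k1 * C u * T k2` are structure constants.
PROOF. `C (k1 * u) = T k1 * C u + (NegL)`, `C (d * k2) = C d * T k2 + (NegR)` (`C_sub_NegL`,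
`C_sub_NegR` for `Q`); the rests are in `Lat D.T (-1)` and in `HQ D X`, the main terms are in
`Lat D.T 0` and in `HQ D X` (as `Id2_subL`, `Id2_subR`, `Id2_latL` in AM/Id2.lean and `Lo_T_mul_Lat`
in AM/Lo.lean). By `mul_dle` the coordinates at `c` of `C (k1 * u) * C (d * k2)` and of
`(T k1 * C u) * (C d * T k2)` have the same coefficient of degree `la c`. The latter is
`∑ h u d v * repr (T k1 * C v * T k2) c` over `v ∈ par M Q`, with `h u d v` of degree at most `la v`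
(`Loc.dle`) and the other factor of degree at most `la c - la v` (`L1a`); `cf_mul_lead` as in the
proof of `L1a` in AM/Lo.lean (steps `h6`, `h7` there, with `n = la c`). -/
theorem L1_lead (hQ : Q ⊆ X) (hX : Loc D X la) {k1 k2 u c d : M.Group} (h1 : k1 ∈ XR M Q)
    (h1' : k1 ∈ par M X) (h2 : k2 ∈ XL M Q) (h2' : k2 ∈ par M X) (hu : u ∈ par M Q)
    (hd : d ∈ par M Q) (hc : c ∈ par M X) (e5 : ∀ v ∈ par M Q, v ≠ u → gc D la u d v = 0) :
    gc D la (k1 * u) (d * k2) c = gc D la u d u *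
      (D.C.repr (D.T k1 * D.C u * D.T k2) c).coeff ((la c : ℤ) - la u) := by
  have hQ' : Loc D Q la := loc_sub D hQ hX
  have hm : ∀ z ∈ par M Q, z ∈ par M X := fun z hz => par_mono hQ hz
  -- the products of the elements of the basis
  have m1 : D.C (k1 * u) ∈ HQ D X := C_mem_HQ D (mul_mem h1' (hm u hu))
  have m2 : D.C (d * k2) ∈ HQ D X := C_mem_HQ D (mul_mem (hm d hd) h2')
  have m3 : D.T k1 * D.C u ∈ HQ D X := mul_mem_HQ D (T_mem_HQ D h1') (C_mem_HQ D (hm u hu))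
  have m4 : D.C d * D.T k2 ∈ HQ D X := mul_mem_HQ D (C_mem_HQ D (hm d hd)) (T_mem_HQ D h2')
  have l3 : D.T k1 * D.C u ∈ Lat D.T 0 := L1_lead_latL h1 (C_mem_HQ D hu) (L1_lead_C0 u)
  have e0 : D.C (k1 * u) * D.C (d * k2) = D.T k1 * D.C u * (D.C d * D.T k2) +
      ((D.C (k1 * u) - D.T k1 * D.C u) * D.C (d * k2) +
        D.T k1 * D.C u * (D.C (d * k2) - D.C d * D.T k2)) := by
    rw [sub_mul, mul_sub]
    abel
  have a1 := mul_dle D hX (Submodule.sub_mem _ m1 m3) m2 (L1_lead_subL h1 hu)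
    (L1_lead_C0 (d * k2)) hc
  have a2 := mul_dle D hX m3 (Submodule.sub_mem _ m2 m4) l3 (L1_lead_subR h2 hd) hc
  have e1 : gc D la (k1 * u) (d * k2) c =
      (D.C.repr (D.T k1 * D.C u * (D.C d * D.T k2)) c).coeff (la c) := by
    have e2 : D.h (k1 * u) (d * k2) c = D.C.repr (D.C (k1 * u) * D.C (d * k2)) c := rfl
    rw [gc, e2, e0, map_add, map_add, Finsupp.add_apply, Finsupp.add_apply, cf_add, cf_add,
      a1 _ (by omega), a2 _ (by omega), add_zero, add_zero]
  have h6 : D.C.repr (D.T k1 * D.C u * (D.C d * D.T k2)) c =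
      ∑ v ∈ (D.C.repr (D.C u * D.C d)).support,
        D.h u d v * D.C.repr (D.T k1 * D.C v * D.T k2) c := by
    have e : D.T k1 * D.C u * (D.C d * D.T k2) = D.T k1 * (D.C u * D.C d) * D.T k2 := by
      simp only [mul_assoc]
    rw [e]
    conv_lhs => rw [D.C_mul_eq u d]
    rw [Finset.mul_sum, Finset.sum_mul, map_sum, Finsupp.finsetSum_apply]
    refine Finset.sum_congr rfl fun v _ => ?_
    rw [mul_smul_comm, smul_mul_assoc, map_smul, Finsupp.smul_apply, smul_eq_mul]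
  have lead : ∀ v ∈ par M Q, (D.h u d v * D.C.repr (D.T k1 * D.C v * D.T k2) c).coeff (la c) =
      gc D la u d v * (D.C.repr (D.T k1 * D.C v * D.T k2) c).coeff ((la c : ℤ) - la v) := by
    intro v hv
    have h8 := cf_mul_lead (hQ'.dle u hu d hd v hv) (L1a D hQ hX h1 h1' h2 h2' hv hc)
    rw [show ((la v : ℤ) + (la c - la v)) = la c by ring] at h8
    exact h8
  rw [e1, h6, cf_sum, Finset.sum_eq_single u]
  · exact lead u hu
  · intro v hv hne
    have hvQ : v ∈ par M Q := h_mem D hu hd (Finsupp.mem_support_iff.1 hv)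
    rw [lead v hvQ, e5 v hvQ hne, zero_mul]
  · intro hv
    have h8 : D.h u d u = 0 := Finsupp.notMem_support_iff.1 hv
    rw [h8, zero_mul, cf_zero]

private theorem L1_left_ne {x y z : M.Group} (h : gc D la x y z ≠ 0) : D.h x y z ≠ 0 := by
  intro h0
  apply h
  rw [gc, h0, cf_zero]

private theorem L1_left_inv (hP : Loc D X la) {x y z : M.Group} (hz : z ∈ par M X) :
    gc D la x y z = gc D la y⁻¹ x⁻¹ z⁻¹ := by
  rw [gc, gc, D.h_inv x y z, hP.lainv z hz]

/-- PROOF. `d` = right unit of `u` in `par M Q` (`Loc.unitR` for `loc_sub`), `L1_lead`: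
`gc (k1 u) (d k2) c ≠ 0`. `Cyc` with `z = c⁻¹`: `gc (d k2) c⁻¹ (k1 u)⁻¹ ≠ 0`. `lainv` and `D.h_inv`
(as `Lo_gc_inv` in AM/Lo.lean): `gc c (d k2)⁻¹ (k1 u) ≠ 0`. So `y = (d k2)⁻¹`. -/
theorem L1_left (hQ : Q ⊆ X) (hX : Loc D X la) (hcy : Cyc D X la) {k1 k2 u c : M.Group}
    (h1 : k1 ∈ XR M Q) (h1' : k1 ∈ par M X) (h2 : k2 ∈ XL M Q) (h2' : k2 ∈ par M X)
    (hu : u ∈ par M Q) (hc : c ∈ par M X)
    (h : (D.C.repr (D.T k1 * D.C u * D.T k2) c).coeff ((la c : ℤ) - la u) ≠ 0) :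
    ∃ y ∈ par M X, D.h c y (k1 * u) ≠ 0 := by
  obtain ⟨d, hd, hd1, -, -, hd4, hd5⟩ := (loc_sub D hQ hX).unitR u hu
  have hlead := L1_lead hQ hX h1 h1' h2 h2' hu hd hc hd5
  have hx : k1 * u ∈ par M X := mul_mem h1' (par_mono hQ hu)
  have hy : d * k2 ∈ par M X := mul_mem (par_mono hQ hd) h2'
  have e1 : gc D la (k1 * u) (d * k2) c ≠ 0 := by
    rw [hlead, hd4]
    exact mul_ne_zero hd1 h
  have e2 : gc D la (k1 * u) (d * k2) c = gc D la c (d * k2)⁻¹ (k1 * u) := by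
    have e3 := hcy (k1 * u) hx (d * k2) hy c⁻¹ (inv_mem hc)
    rw [inv_inv] at e3
    rw [e3, L1_left_inv hX (inv_mem hx), inv_inv, inv_inv]
  rw [e2] at e1
  exact ⟨(d * k2)⁻¹, inv_mem hy, L1_left_ne e1⟩

/-- PROOF. `L1_left` for `k2⁻¹`, `k1⁻¹`, `u⁻¹`, `c⁻¹` (`repr_C_fl`, `inv_mem_XR`, `lainv`),
`D.h_inv`. -/
theorem L1_right (hQ : Q ⊆ X) (hX : Loc D X la) (hcy : Cyc D X la) {k1 k2 u c : M.Group}
    (h1 : k1 ∈ XR M Q) (h1' : k1 ∈ par M X) (h2 : k2 ∈ XL M Q) (h2' : k2 ∈ par M X)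
    (hu : u ∈ par M Q) (hc : c ∈ par M X)
    (h : (D.C.repr (D.T k1 * D.C u * D.T k2) c).coeff ((la c : ℤ) - la u) ≠ 0) :
    ∃ y ∈ par M X, D.h y c (u * k2) ≠ 0 := by
  have e1 : D.C.repr (D.T k2⁻¹ * D.C u⁻¹ * D.T k1⁻¹) c⁻¹ =
      D.C.repr (D.T k1 * D.C u * D.T k2) c := by
    have e2 : D.T k2⁻¹ * D.C u⁻¹ * D.T k1⁻¹ = D.fl (D.T k1 * D.C u * D.T k2) := by
      rw [D.fl_mul, D.fl_mul, D.fl_T, D.fl_T, D.fl_C, mul_assoc]
    rw [e2, D.repr_C_fl, inv_inv]
  obtain ⟨y, hy, hy'⟩ := L1_left hQ hX hcy (k1 := k2⁻¹) (k2 := k1⁻¹) (u := u⁻¹) (c := c⁻¹)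
    (inv_mem_XR.2 h2) (inv_mem h2') (inv_mem_XL.2 h1) (inv_mem h1') (inv_mem hu) (inv_mem hc)
    (by
      rw [e1, hX.lainv c hc, hX.lainv u (par_mono hQ hu)]
      exact h)
  refine ⟨y⁻¹, inv_mem hy, ?_⟩
  rw [D.h_inv y⁻¹ c (u * k2), inv_inv, mul_inv_rev]
  exact hy'

/-- PROOF. `h_pu` (AM/Gp2.lean) and `D.h_inv`. -/
theorem h_ur {r u v w : M.Group} (hr : r ∈ XL M X) (hu : u ∈ par M X) (hv : v ∈ par M X)
    (hw : w ∈ par M X) : D.h v (u * r) (w * r) = D.h v u w := by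
  rw [D.h_inv v (u * r) (w * r), mul_inv_rev, mul_inv_rev,
    h_pu D (inv_mem_XR.2 hr) (inv_mem hu) (inv_mem hv) (inv_mem hw), ← D.h_inv]

end l1

section ru

variable {B : Type} {M : CoxeterMatrix B} {L : M.Group → ℤ} {H : Type} [Ring H] [Algebra LP H]
variable {D : KLD M L H} {β : B → Bool} {la : M.Group → ℕ} {X : Set B} {k : ℕ}

open scoped Classical in
/-- The groups for the second run. -/
noncomputable def G2 (M : CoxeterMatrix B) (β : B → Bool) (la : M.Group → ℕ) (k : ℕ)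
    (x y : M.Group) : AddSubgroup (M.Group →₀ ℤ) :=
  if Occ M β la k x ∧ Occ M β la k y then ⊤ else ⊥

theorem G2_pos {x y : M.Group} (hx : Occ M β la k x) (hy : Occ M β la k y) :
    G2 M β la k x y = ⊤ := by
  classical
  exact if_pos ⟨hx, hy⟩

theorem G2_neg {x y : M.Group} (h : ¬ (Occ M β la k x ∧ Occ M β la k y)) :
    G2 M β la k x y = ⊥ := by
  classical
  exact if_neg h

theorem G2_le {x y x' y' : M.Group} (h1 : Occ M β la k x → Occ M β la k x')
    (h2 : Occ M β la k y → Occ M β la k y') : G2 M β la k x y ≤ G2 M β la k x' y' := by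
  by_cases h : Occ M β la k x ∧ Occ M β la k y
  · rw [G2_pos (h1 h.1) (h2 h.2)]
    exact le_top
  · rw [G2_neg h]
    exact bot_le

/-! Piece V-b -/

/-- PROOF. The fields that do not contain the groups are as in `ctx1` (R1.lean). `g1`: `G2_le`,
`Occ.rd_left`, `Occ.rd_right`. `g2`: `G2_le`. `L1_left`: `h c y (k1 u) ≠ 0`, so
`h (p c) y (p k1 u) ≠ 0` (`h_pu`), and `al_h`, `Occ_iff`. `L1_right`, `h_ur`, `al_h`,
`Occ_iff`. `g3`: `la u = k`; `p u` and `u r` have `Occ k` (`p u = p * u * 1` is reduced),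
`G2_pos`. `h11`: `1 ∈ LL 0 ≤ LL k` and `ld k 1 = 0` (`ld_lt`), as `0 < k`. -/
theorem ctx2 [Finite B] (hD : Dat D β la) (hk : 0 < k) :
    Ctx β la (LfC D (Occ M β la (k + 1))) (k : ℤ) 0 (k + 1) (G2 M β la k) where
  dat := hD
  idl := idl hD (k + 1)
  inv := fun _ h => hD.occ_inv h
  hin := fun _ hX _ hc h => Occ.of_mem hX hc h
  hT0 := fun m hm => by omega
  g1 := fun _ _ _ _ h1 h2 => G2_le (Occ.rd_left h1) (Occ.rd_right h2)
  g2 := by
    intro X hX Q hQ k1 hk1 hk1' k2 hk2 hk2' u hu c hc _ hne p hp r hr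
    have huX : u ∈ par M X := par_mono hQ hu
    refine G2_le ?_ ?_
    · intro h
      obtain ⟨y, hy, h1⟩ := L1_left hQ (hD.locS hX) (hD.cycS hX) hk1' hk1 hk2' hk2 hu hc hne
      rw [← h_pu D hp hc hy (Subgroup.mul_mem _ hk1 huX)] at h1
      have h2 := (al_h hD h1).1
      rw [mul_assoc]
      exact (Occ_iff hD).2 (((Occ_iff hD).1 h).trans h2)
    · intro h
      obtain ⟨y, hy, h1⟩ := L1_right hQ (hD.locS hX) (hD.cycS hX) hk1' hk1 hk2' hk2 hu hc hne
      rw [← h_ur hr hc hy (Subgroup.mul_mem _ huX hk2)] at h1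
      have h2 := (al_h hD h1).2
      rw [← mul_assoc]
      exact (Occ_iff hD).2 (((Occ_iff hD).1 h).trans h2)
  g3 := by
    intro X hX p hp u hu r hr hl _ hk' _
    have hlu : k ≤ la u := by omega
    have e1 : Occ M β la k (p * u) := by
      have h1 := occ_pur (N := k) (p := p) (u := u) (r := 1) hX hu
        (by rw [mul_one, len_one, len_XR_mul hp hu]; rfl) hlu
      rwa [mul_one] at h1
    have e2 : Occ M β la k (u * r) := by
      have h1 := occ_pur (N := k) (p := 1) (u := u) (r := r) hX hu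
        (by rw [one_mul, len_one, len_mul_XL hu hr, Nat.zero_add]) hlu
      rwa [one_mul] at h1
    rw [G2_pos e1 e2]
    exact AddSubgroup.mem_top _
  h11 := by
    have h1 : (1 : H) ∈ LL D (Occ M β la (k + 1)) 0 := by
      rw [← D.T_one]
      exact T_LL 1
    refine ⟨LL_mono (by omega) h1, ?_⟩
    change ld D (Occ M β la (k + 1)) (k : ℤ) (1 : H) ∈ G2 M β la k 1 1
    rw [ld_lt (show (0 : ℤ) < k by omega) h1]
    exact AddSubgroup.zero_mem _

/-- PROOF. `clm_all` with `ctx2`, `tb1`, `G2_neg`. -/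
theorem tt_zero [Finite B] (hD : Dat D β la) (hk : 0 < k) (hX : Sp β X) {p u r : M.Group}
    (hp : p ∈ XR M X) (hu : u ∈ par M X) (hr : r ∈ XL M X)
    (h : ¬ (Occ M β la k (p * u) ∧ Occ M β la k (u * r))) : tt D β la k p u r = 0 := by
  have h1 := (clm_all (ctx2 hD hk) (fun n => tb1 n) hX hp hu hr).2
  rw [G2_neg h] at h1
  exact AddSubgroup.mem_bot.1 h1

/-- PROOF. `tt_zero` with `X = ∅`, `u = 1`. -/
theorem TT_zero [Finite B] (hD : Dat D β la) (hk : 0 < k) {x y : M.Group}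
    (h : ¬ (Occ M β la k x ∧ Occ M β la k y)) :
    ld D (Occ M β la (k + 1)) k (D.T x * D.T y) = 0 := by
  have h1 := tt_zero (k := k) hD hk (Sp_empty β) (p := x) (u := 1) (r := y)
    (fun b hb => absurd hb (Set.notMem_empty b)) (one_mem _)
    (fun b hb => absurd hb (Set.notMem_empty b)) (by rwa [mul_one, one_mul])
  rwa [tt, D.C_one, mul_one, hD.one, Nat.cast_zero, sub_zero] at h1

/-- PROOF. `k = al z`. `al_h`. If `k > 0`: `TT_dle_al`: the leading term of `T x * T y` is not `0`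
at `z`, so `x` and `y` have `Occ k` (`TT_zero`), `Occ_iff`. -/
theorem Q_al [Finite B] (hD : Dat D β la) {x y z : M.Group}
    (h : (D.h x y z).coeff (al M β la z) ≠ 0) :
    al M β la x = al M β la z ∧ al M β la y = al M β la z := by
  classical
  have h0 : D.h x y z ≠ 0 := by
    intro h0
    apply h
    rw [h0, cf_zero]
  obtain ⟨hx, hy⟩ := al_h hD h0
  rcases Nat.eq_zero_or_pos (al M β la z) with hk | hk
  · omega
  · have h2 : ¬ Occ M β la (al M β la z + 1) z := by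
      rw [Occ_iff hD]
      omega
    have h3 : Occ M β la (al M β la z) x ∧ Occ M β la (al M β la z) y := by
      by_contra hcon
      have h4 := TT_zero hD hk hcon
      have h5 := DFunLike.congr_fun h4 z
      rw [ld_apply, if_neg h2, Finsupp.zero_apply, (TT_dle_al hD x y z).2] at h5
      exact h h5
    rw [Occ_iff hD, Occ_iff hD] at h3
    omega

/-- PROOF. `Q_al`, `a_eq_al`, `al_inv`. -/
theorem Q_a [Finite B] (hD : Dat D β la) {x y z : M.Group} (h : D.g x y z ≠ 0) :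
    D.a x = D.a z ∧ D.a y = D.a z := by
  have h1 : (D.h x y z⁻¹).coeff (al M β la z⁻¹) ≠ 0 := by
    intro h0
    apply h
    rw [KLD.g, a_eq_al hD]
    exact h0
  have h2 := Q_al hD h1
  rw [al_inv hD] at h2
  rw [a_eq_al hD, a_eq_al hD, a_eq_al hD]
  exact h2

/-- The elements that are not `Occ 1`.
PROOF. `al_at_one`. If `z ≠ 1` let `s` be a right descent: `z = (z * s) * s` reduced,
`la s = L s > 0` (`Dat.la_sm`), piece `{s}`. -/
theorem al_eq_zero [Finite B] (hD : Dat D β la) {z : M.Group} : al M β la z = 0 ↔ z = 1 := by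
  constructor
  · intro h
    by_contra hne
    obtain ⟨s, hs⟩ := exists_dR hne
    have hrd : Rd M (z * sm M s) (sm M s) := by
      unfold Rd
      rw [mul_assoc, sm_sm, mul_one, len_sm]
      exact hs.symm
    have h1 := (al_mul hD hrd).2
    rw [mul_assoc, sm_sm, mul_one, al_mem hD (Sp_single β s) (sm_mem_par rfl), h] at h1
    have h2 := hD.la_sm s
    have h3 := hD.wt.pos s
    omega
  · rintro rfl
    exact al_at_one hD

end ru

end Pool.Agent.Helper63.LG
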