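import Pool.Agent.Helper63.LG.Rb

/-!
# The step: the difference of `T p * C u * T r` and `T p * T u * T r`
-/

namespace Pool.Agent.Helper63.LG

open Pool.Agent.Helper35.KL Pool.Agent.Helper35.AM

section st

variable {B : Type} {M : CoxeterMatrix B} {L : M.Group → ℤ} {H : Type} [Ring H] [Algebra LP H]
variable {D : KLD M L H} {β : B → Bool} {la : M.Group → ℕ}
variable {hv : M.Group → Prop} {A : Type} [AddCommGroup A]
variable {F : Lf D hv A} {κ T0 : ℤ} {N : ℕ} {G : M.Group → M.Group → AddSubgroup A}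
variable {X : Set B}

/-! Piece ST-a -/

/-- PROOF. As `Dec.smul`; the second part with the bound `m'`. -/
theorem Dec.smul2 {κ τ m m' : ℤ} {K : AddSubgroup A} {a : LP} {x : H} (ha : Dle m a)
    (ha' : Dle m' a) (h : Dec F κ K τ x) : Dec F (m + κ) K (m' + τ) (a • x) := by
  obtain ⟨y₁, z₁, rfl, a₁, b₁, c₁⟩ := h
  refine ⟨a • y₁, a • z₁, smul_add _ _ _, F.smul ha a₁, ?_, F.smul ha' c₁⟩
  rw [F.ldsmul ha a₁]
  exact AddSubgroup.zsmul_mem _ b₁ _

/-- The terms with at most one letter, and the reduced terms.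
PROOF. `len v = 0`: `tm_one`, with `Clm p 1 r` from `hI` (piece `∅`, `XR_mono`). `len v = 1`:
`len_one_par`, `tm_sm`, with `Clm p s r`, `Clm p 1 r` from `hI` (total length smaller as
`len v < len u`). Otherwise `tm_rd`. -/
theorem tm_easy (hC : Ctx β la F κ T0 N G) (hX : Sp β X) {p u v r : M.Group}
    (hp : p ∈ XR M X) (hu : u ∈ par M X) (hr : r ∈ XL M X) (hv' : v ∈ par M X)
    (hl : len M v < len M u) (hI : IH β F la κ G (len M p + len M u + len M r))
    (hT : TB F T0 (len M p + len M u + len M r))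
    (h : len M v ≤ 1 ∨ len M (p * v * r) = len M p + len M v + len M r) :
    Dec F (κ - la u) (Go M G p u r) (T0 - 1) (D.p v u • (D.T p * D.T v * D.T r)) := by
  have h0 : Clm F la κ G p 1 r := by
    refine hI X hX p hp 1 (one_mem _) r hr ?_
    rw [len_one]
    omega
  rcases Nat.lt_or_ge 0 (len M v) with h1 | h1
  · rcases Nat.lt_or_ge 1 (len M v) with h2 | h2
    · have h3 : len M (p * v * r) = len M p + len M v + len M r := by
        rcases h with h | h
        · omega
        · exact h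
      refine tm_rd hT h3 ?_ ?_ (by omega) _
      · rintro rfl
        rw [len_one] at h1
        omega
      · rintro rfl
        omega
    · have h3 : len M v = 1 := by omega
      obtain ⟨x, hx, rfl⟩ := len_one_par hv' h3
      refine tm_sm hC hX hx hp hu hr ?_ h0
      refine hI X hX p hp (sm M x) hv' r hr ?_
      omega
  · have h2 : v = 1 := len_eq_zero.1 (by omega)
    rw [h2]
    exact tm_one hC hX hu h0

/-- The step for a block.
PROOF. `st_sum`, `tm_easy`. If `len v ≥ 2` and the product is not reduced: `gg_B'`: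
`Dec (κ - L v) (G p r) (T0 - 1)`; `Dec.smul2` with `Dat.p_dle` (`m = L v - la u`) and `p_neg`
(`m' = -1`), `Dec.mono` (`G p r ≤ Go`). -/
theorem st_B (hC : Ctx β la F κ T0 N G) {i : Bool} {p u r : M.Group}
    (hp : p ∈ XR M (blk β i)) (hu : u ∈ par M (blk β i)) (hr : r ∈ XL M (blk β i))
    (hI : IH β F la κ G (len M p + len M u + len M r))
    (hT : TB F T0 (len M p + len M u + len M r)) :
    Dec F (κ - la u) (Go M G p u r) (T0 - 1)
      (D.T p * D.C u * D.T r - D.T p * D.T u * D.T r) := by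
  refine st_sum hu (fun v hv' hl => ?_)
  by_cases h : len M v ≤ 1 ∨ len M (p * v * r) = len M p + len M v + len M r
  · exact tm_easy hC (Sp_blk i) hp hu hr hv' hl hI hT h
  · push Not at h
    obtain ⟨h1, h2⟩ := h
    have hvu : v ≠ u := by
      rintro rfl
      omega
    have k1 := gg_B' hC hp hv' hr (by omega) h2 (hI.mono (by omega)) (hT.mono (by omega))
    have d1 : Dle (L v - la u) (D.p v u) := hC.dat.p_dle (Sp_blk i) hu hv'
    have d2 : Dle (-1) (D.p v u) := D.p_neg hvu
    have k2 := k1.smul2 d1 d2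
    refine k2.mono (by omega) le_sup_left (by omega)

/-! Piece ST-b: pairs -/

/-- Both letters occur in an element of length at least `2`.
PROOF. `exists_descR`, `alt_R`, `exists_descL`: `v = v1 x`, and `v1 = v1' y`. -/
theorem letter {a b x : B} {v : M.Group} (hab : a ≠ b) (hv' : v ∈ par M ({a, b} : Set B))
    (h2 : 2 ≤ len M v) (hx : x ∈ ({a, b} : Set B)) :
    ∃ v1 ∈ par M ({a, b} : Set B), ∃ v2 ∈ par M ({a, b} : Set B), v = v1 * sm M x * v2 ∧
      len M v = len M v1 + 1 + len M v2 := by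
  have h0 : v ≠ 1 := by
    rintro rfl
    rw [len_one] at h2
    omega
  obtain ⟨c, hc, hvc⟩ := exists_descR hv' h0
  have hcp : sm M c ∈ par M ({a, b} : Set B) := sm_mem_par hc
  have hxp : sm M x ∈ par M ({a, b} : Set B) := sm_mem_par hx
  by_cases hcx : c = x
  · rw [hcx] at hvc
    refine ⟨v * sm M x, Subgroup.mul_mem _ hv' hxp, 1, Subgroup.one_mem _, ?_, ?_⟩
    · rw [mul_one, mul_assoc, sm_sm, mul_one]
    · rw [len_one]
      omega
  · have hpar : ({a, b} : Set B) = {c, x} := by
      rcases hc with hc | hc <;> rcases hx with hx | hx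
      · exact absurd (hc.trans hx.symm) hcx
      · rw [Set.mem_singleton_iff] at hx
        rw [hc, hx]
      · rw [Set.mem_singleton_iff] at hc
        rw [hc, hx, Set.pair_comm]
      · rw [Set.mem_singleton_iff] at hc hx
        exact absurd (hc.trans hx.symm) hcx
    have hvc' : v ∈ par M ({c, x} : Set B) := by
      rw [← hpar]
      exact hv'
    have h3 : dR M (v * sm M c) x := alt_R hvc' hvc h2
    have h4 : len M (v * sm M c * sm M x) + 1 = len M (v * sm M c) := h3
    refine ⟨v * sm M c * sm M x, Subgroup.mul_mem _ (Subgroup.mul_mem _ hv' hcp) hxp, sm M c,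
      hcp, ?_, ?_⟩
    · rw [mul_assoc (v * sm M c), sm_sm, mul_one, mul_assoc, sm_sm, mul_one]
    · rw [len_sm]
      omega

/-- PROOF. `letter`, `Hb'`. -/
theorem hb_X (hC : Ctx β la F κ T0 N G) {a b x : B} {p v r : M.Group} (hab : β a ≠ β b)
    (hp : p ∈ XR M ({a, b} : Set B)) (hv' : v ∈ par M ({a, b} : Set B))
    (hr : r ∈ XL M ({a, b} : Set B)) (h2 : 2 ≤ len M v) (hx : x ∈ ({a, b} : Set B))
    (hI : IH β F la κ G (len M p + len M v + len M r + 1)) :
    D.T p * D.T v * D.T r ∈ F.Lam (κ - L (sm M x)) := by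
  obtain ⟨v1, h1, v2, h3, hv, hl⟩ := letter (fun h => hab (by rw [h])) hv' h2 hx
  exact (Hb' hC hI hp hr h1 h3 hx hv hl (by omega)).1

/-- The terms of an element with small `la`.
PROOF. `hb_X` for `x` with `L x = max (L a) (L b)`; `p v u` has degree at most `-1` (`p_neg`);
`Dec.of_lt`. -/
theorem tm_max (hC : Ctx β la F κ T0 N G) {a b : B} {p u v r : M.Group} (hab : β a ≠ β b)
    (hp : p ∈ XR M ({a, b} : Set B)) (hv' : v ∈ par M ({a, b} : Set B))
    (hr : r ∈ XL M ({a, b} : Set B)) (h2 : 2 ≤ len M v) (hl : len M v < len M u)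
    (hu : (la u : ℤ) ≤ max (L (sm M a)) (L (sm M b)))
    (hI : IH β F la κ G (len M p + len M u + len M r)) (K : AddSubgroup A) :
    Dec F (κ - la u) K (T0 - 1) (D.p v u • (D.T p * D.T v * D.T r)) := by
  have hvu : v ≠ u := fun h => by
    rw [h] at hl
    exact lt_irrefl _ hl
  obtain ⟨x, hx, hux⟩ : ∃ x ∈ ({a, b} : Set B), (la u : ℤ) ≤ L (sm M x) := by
    rcases le_max_iff.1 hu with h | h
    · exact ⟨a, by simp, h⟩
    · exact ⟨b, by simp, h⟩
  have h3 := hb_X hC hab hp hv' hr h2 hx (hI.mono (by omega))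
  exact Dec.of_lt (F.smul (D.p_neg hvu) h3) (by omega)

private theorem Q3_dL {a b : B} (hf : Fin2 M a b) : dL M (wJ M a b) a := by
  have h2 := hf.two
  have h1 := ye_dL hf (i := M a b - 1) (by omega)
  rw [Nat.sub_add_cancel (by omega)] at h1
  exact h1

private theorem Q3_dR {a b : B} (hf : Fin2 M a b) : dR M (wJ M a b) a := by
  rw [← dL_inv, wJ_inv]
  exact Q3_dL hf

private theorem Q3_Ga {a b : B} (hf : Fin2 M a b) (p r : M.Group) :
    G (p * sm M a) (sm M a * r) ≤ Go M G p (wJ M a b) r :=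
  le_sup_of_le_right (le_iSup (fun s : {s : B // dL M (wJ M a b) s ∧ dR M (wJ M a b) s} =>
    G (p * sm M s) (sm M s * r)) ⟨a, Q3_dL hf, Q3_dR hf⟩)

private theorem Q3_Gb {a b : B} (hf : Fin2 M a b) (p r : M.Group) :
    G (p * sm M b) (sm M b * r) ≤ Go M G p (wJ M a b) r := by
  rw [wJ_symm]
  exact Q3_Ga hf.symm p r

private theorem Q3_G0 {a b : B} (p r : M.Group) : G p r ≤ Go M G p (wJ M a b) r :=
  le_sup_left

/-- The terms of the longest element, types for `(a, b)`.
PROOF. `u = wJ a b`, `la u = L u` (`Dat.la_wJ`, `Fin2.of_ne`), `p v u = qq (L v - L u)` (`p_wJ`),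
`5 ≤ M a b`, `wt5`. `Go` contains `G p r`, `G (p a) (a r)`, `G (p b) (b r)` (`wJ a b` has all
descents in `{a, b}`). In all cases `L v ≤ 2 L a + L b` or `L v = L a + L b`.
Type A (with `c`): if `L c ≤ L b`: `crA`, `crude_tm` (`L c + 2 L a + L b - L u ≤ -1`). If not:
`rb_1`, `Dec.smul2` with `m = L v - L u` and `m' = -1`.
Type I, `β c = β a`: if `L c ≤ L a`: `crI`, `crude_tm`: `L b + L c + L a + L b - L u ≤ -1` by
`3 L a + 2 L b ≤ L u`. If not: `gg_I`, `Dec.smul2` with `m = m' = L a + L b - L u`;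
`T0 + L b - 2 L c + L a + L b - L u ≤ T0 - 1`. Type I, `β c = β b` (otherwise, as there are two
blocks): `crI'` if `L c ≤ L b` (`2 L a + 3 L b ≤ L u`), `gg_I'` if not.
Type 3: `cr3`, `crude_tm`: `L a + L a + L b - L u ≤ -1`. Type 4: `cr4`. -/
theorem tm_w (hC : Ctx β la F κ T0 N G) {a b : B} {p v r : M.Group} (hab : β a ≠ β b)
    (hp : p ∈ XR M ({a, b} : Set B)) (hr : r ∈ XL M ({a, b} : Set B))
    (h : NrA M β a b p v r ∨ NrI M a b p v r ∨ Nr3 M β a b p v r ∨ Nr4 M β a b p v r)
    (hI : IH β F la κ G (len M p + len M v + len M r))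
    (hT : TB F T0 (len M p + len M v + len M r + 1)) :
    Dec F (κ - la (wJ M a b)) (Go M G p (wJ M a b) r) (T0 - 1)
      (D.p v (wJ M a b) • (D.T p * D.T v * D.T r)) := by
  have hD := hC.dat
  have hL := hD.wt
  have hb := hD.big
  have hne : a ≠ b := fun h => hab (by rw [h])
  have h5 : 5 ≤ M a b := hb a b hab
  have hf : Fin2 M a b := Fin2.of_ne hne (by omega)
  obtain ⟨w1, w2⟩ := wt5 hL hf h5
  have ela : (la (wJ M a b) : ℤ) = L (wJ M a b) := hD.la_wJ hf
  obtain ⟨l2, l3⟩ := len_ba (M := M) hb hab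
  have pa := hL.pos a
  have pb := hL.pos b
  have ha' : sm M a ∈ par M ({a, b} : Set B) := sm_mem_par (by simp)
  have hb' : sm M b ∈ par M ({a, b} : Set B) := sm_mem_par (by simp)
  have m2 : sm M b * sm M a ∈ par M ({a, b} : Set B) := mul_mem hb' ha'
  have m3 : sm M a * sm M b * sm M a ∈ par M ({a, b} : Set B) := mul_mem (mul_mem ha' hb') ha'
  have L2 : L (sm M b * sm M a) = L (sm M b) + L (sm M a) :=
    hL.add _ _ (by rw [l2, len_sm, len_sm])
  have L3 : L (sm M a * sm M b * sm M a) = 2 * L (sm M a) + L (sm M b) := by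
    rw [mul_assoc] at l3 ⊢
    rw [hL.add _ _ (by rw [l3, l2, len_sm]), L2]
    ring
  have lw : len M (wJ M a b) = M a b := hf.lw
  have hlv : len M v < len M (wJ M a b) := by
    rcases h with h | h | h | h <;> rw [h.1] <;> omega
  have hvw : v ≠ wJ M a b := fun h0 => absurd hlv (by rw [h0]; exact lt_irrefl _)
  have hv' : v ∈ par M ({a, b} : Set B) := by
    rcases h with h | h | h | h <;> rw [h.1]
    · exact m3
    · exact m2
    · exact m2
    · exact m2
  have hv1 : v ≠ 1 := by
    intro h0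
    rcases h with h | h | h | h
    · rw [← h.1, h0, len_one] at l3
      omega
    all_goals
      rw [← h.1, h0, len_one] at l2
      omega
  have d1 : Dle (L v - L (wJ M a b)) (D.p v (wJ M a b)) := by
    rw [p_wJ D hL hf hv']
    exact Dle.qq _
  have d2 : Dle (-1) (D.p v (wJ M a b)) := D.p_neg hvw
  have hn : len M p + len M v + len M r < len M p + len M v + len M r + 1 := Nat.lt_succ_self _
  have hT' : TB F T0 (len M p + len M v + len M r) := hT.mono (Nat.le_succ _)
  rcases h with ⟨hv, c, hc, hcb, hm, h1, h2⟩ | ⟨hv, c, hca, hcb, h1, h2⟩ |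
    ⟨hv, e, he, heb, hm, h1, h2, h3, h4⟩ | ⟨hv, f, he, hfa, hm, h1, h2, h3, h4⟩
  · subst hv
    by_cases hlt : L (sm M b) < L (sm M c)
    · rw [l3] at hI hT'
      have k1 := rb_1 hC hab hc hcb hm hlt hp hr h1 h2 hI hT'
      have k2 := k1.smul2 d1 d2
      refine k2.mono ?_ ?_ ?_
      · rw [ela, L3]
        omega
      · exact sup_le (Q3_G0 p r) (Q3_Gb hf p r)
      · omega
    · exact crude_tm hT hp hv' hr hv1 hn (crA D hL hb hab hc hcb hm hp hr h1 h2) d1
        (by rw [L3]; omega) _
  · subst hv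
    by_cases hc : β c = β a
    · by_cases hlt : L (sm M a) < L (sm M c)
      · rw [l2] at hI hT'
        have k1 := gg_I hC hab hc hca hlt hp hr h1 h2 hI hT'
        have k2 := k1.smul2 d1 d1
        refine k2.mono ?_ ?_ ?_
        · rw [ela, L2]
          omega
        · exact sup_le (Q3_G0 p r) (Q3_Ga hf p r)
        · rw [L2]
          omega
      · exact crude_tm hT hp hv' hr hv1 hn (crI D hL hb hab hc hca hp hr h1 h2) d1
          (by rw [L2]; omega) _
    · have hc' : β c = β b := by
        revert hc hab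
        cases β c <;> cases β a <;> cases β b <;> simp
      by_cases hlt : L (sm M b) < L (sm M c)
      · rw [l2] at hI hT'
        have k1 := gg_I' hC hab hc' hcb hlt hp hr h1 h2 hI hT'
        have k2 := k1.smul2 d1 d1
        refine k2.mono ?_ ?_ ?_
        · rw [ela, L2]
          omega
        · exact sup_le (Q3_G0 p r) (Q3_Gb hf p r)
        · rw [L2]
          omega
      · exact crude_tm hT hp hv' hr hv1 hn (crI' D hL hb hab hc' hcb hp hr h1 h2) d1
          (by rw [L2]; omega) _
  · subst hv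
    exact crude_tm hT hp hv' hr hv1 hn (cr3 D hL hb hab he heb hm hp hr h1 h2 h3 h4) d1
      (by rw [L2]; omega) _
  · subst hv
    exact crude_tm hT hp hv' hr hv1 hn (cr4 D hL hb hab he hfa hm hp hr h1 h2 h3 h4) d1
      (by rw [L2]; omega) _

/-! Piece ST-c -/

/-- The terms of the element next to the longest element.
PROOF. `u = wJ a b * b`. `v` has two or three letters: `v = a b`, `b a`, `b a b` (`len_two_pair`,
`len_three_pair`): `hb_X` with `x = a`, `Dat.p_dK`: degree at most
`κ - L a + (L a - la u - 1)`, `Dec.of_lt`. `v = a b a`: the product is not reduced, so by `nr_X` it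
has type A for `(a, b)` (all other types have another `v`: `len_ba`, and `b a b ≠ a b a` by
`XR`-arguments: `a b a` has not the left descent `b` as `M a b ≥ 5`): `rb_2`: `y + z`; `p v u` has
degree at most `2 L a - L b - la u` (`Dat.p_dK`) and at most `-1` (`p_neg`). -/
theorem tm_d (hC : Ctx β la F κ T0 N G) {a b : B} {p v r : M.Group} (hab : β a ≠ β b)
    (hlt : L (sm M b) < L (sm M a)) (hp : p ∈ XR M ({a, b} : Set B))
    (hv' : v ∈ par M ({a, b} : Set B)) (hr : r ∈ XL M ({a, b} : Set B)) (h2 : 2 ≤ len M v)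
    (hl : len M v < len M (wJ M a b * sm M b))
    (hn : len M (p * v * r) ≠ len M p + len M v + len M r)
    (hI : IH β F la κ G (len M p + len M (wJ M a b * sm M b) + len M r))
    (hT : TB F T0 (len M p + len M (wJ M a b * sm M b) + len M r)) (K : AddSubgroup A) :
    Dec F (κ - la (wJ M a b * sm M b)) K (T0 - 1)
      (D.p v (wJ M a b * sm M b) • (D.T p * D.T v * D.T r)) := by
  have hb := hC.dat.big
  obtain ⟨q1, q2, q3, q4⟩ := hC.dat.p_dK hab hlt
  have hvu : v ≠ wJ M a b * sm M b := fun h => by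
    rw [h] at hl
    exact lt_irrefl _ hl
  have key : Dle (L (sm M a) - la (wJ M a b * sm M b) - 1) (D.p v (wJ M a b * sm M b)) →
      Dec F (κ - la (wJ M a b * sm M b)) K (T0 - 1)
        (D.p v (wJ M a b * sm M b) • (D.T p * D.T v * D.T r)) := by
    intro h
    have h3 := hb_X hC (x := a) hab hp hv' hr h2 (by simp) (hI.mono (by omega))
    exact Dec.of_lt (F.smul h h3) (by omega)
  rcases nr_X hb hab hp hv' h2 hr hn with (h | h | h | h) | (h | h | h | h)
  · obtain ⟨hv, c, hc, hcb, hm, d1, d2⟩ := h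
    have l3 := (len_ba (M := M) hb hab).2
    have lv : len M v = 3 := by rw [hv, l3]
    obtain ⟨y, z, h3, h4, h5⟩ := rb_2 hC hab hc hcb hm hlt hp hr d1 d2 (hI.mono (by omega))
      (hT.mono (by omega))
    have hneg : Dle (-1) (D.p v (wJ M a b * sm M b)) := D.p_neg hvu
    rw [← hv] at q4 h3
    rw [h3, smul_add]
    refine Dec.add (Dec.of_lt (F.smul q4 h4) (by omega)) (Dec.low ?_)
    exact F.mono (by omega) (F.smul hneg h5)
  · exact key (by rw [h.1]; exact q2)
  · exact key (by rw [h.1]; exact q2)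
  · exact key (by rw [h.1]; exact q2)
  · exact key (by rw [h.1]; exact q3)
  · exact key (by rw [h.1]; exact q1)
  · exact key (by rw [h.1]; exact q1)
  · exact key (by rw [h.1]; exact q1)

/-- The step for a pair.
PROOF. `st_sum`, `tm_easy`. If `len v ≥ 2` and the product is not reduced: `Dat.cross` for `u`:
`tm_max`; or `u = wJ a b`: `nr_X` and `tm_w` (for `(a, b)` or for `(b, a)`: `wJ_symm`,
`Set.pair_comm`); or `tm_d` for `(a, b)` or `(b, a)`. -/
theorem st_X (hC : Ctx β la F κ T0 N G) {a b : B} {p u r : M.Group} (hab : β a ≠ β b)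
    (hp : p ∈ XR M ({a, b} : Set B)) (hu : u ∈ par M ({a, b} : Set B))
    (hr : r ∈ XL M ({a, b} : Set B))
    (hI : IH β F la κ G (len M p + len M u + len M r))
    (hT : TB F T0 (len M p + len M u + len M r)) :
    Dec F (κ - la u) (Go M G p u r) (T0 - 1)
      (D.T p * D.C u * D.T r - D.T p * D.T u * D.T r) := by
  have hpc : ({b, a} : Set B) = {a, b} := Set.pair_comm b a
  refine st_sum hu (fun v hv' hl => ?_)
  by_cases h : len M v ≤ 1 ∨ len M (p * v * r) = len M p + len M v + len M r
  · exact tm_easy hC (Sp_pair β a b) hp hu hr hv' hl hI hT h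
  · push Not at h
    obtain ⟨h1, h2⟩ := h
    rcases hC.dat.cross hab hu with h3 | h3 | ⟨h3, h4⟩ | ⟨h3, h4⟩
    · exact tm_max hC hab hp hv' hr (by omega) hl h3 hI _
    · subst h3
      rcases nr_X hC.dat.big hab hp hv' (by omega) hr h2 with h4 | h4
      · exact tm_w hC hab hp hr h4 (hI.mono (by omega)) (hT.mono (by omega))
      · have h5 := tm_w hC (Ne.symm hab) (p := p) (r := r) (by rw [hpc]; exact hp)
          (by rw [hpc]; exact hr) h4 (hI.mono (by omega)) (hT.mono (by omega))
        rwa [wJ_symm b a] at h5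
    · subst h4
      exact tm_d hC hab h3 hp hv' hr (by omega) hl h2 hI hT _
    · subst h4
      have h5 := tm_d hC (Ne.symm hab) h3 (p := p) (v := v) (r := r) (by rw [hpc]; exact hp)
        (by rw [hpc]; exact hv') (by rw [hpc]; exact hr) (by omega)
        (by rw [wJ_symm b a]; exact hl) h2 (by rw [wJ_symm b a]; exact hI)
        (by rw [wJ_symm b a]; exact hT) (Go M G p (wJ M a b * sm M a) r)
      rwa [wJ_symm b a] at h5

/-! Piece ST-d: the nonreduced products with a pair -/

/-- The claims for blocks, of total length at most `n`. -/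
def LvB (β : B → Bool) (F : Lf D hv A) (la : M.Group → ℕ) (κ : ℤ)
    (G : M.Group → M.Group → AddSubgroup A) (n : ℕ) : Prop :=
  ∀ i, ∀ p ∈ XR M (blk β i), ∀ u ∈ par M (blk β i), ∀ r ∈ XL M (blk β i),
    2 ≤ len M u → len M p + len M u + len M r ≤ n → Clm F la κ G p u r

/-- PROOF. `P = blk β (β x)`. `w1 = p k1`, `w2 = k2 r` (`exists_XR`, `exists_XL`), `k1 ≠ 1` or
`k2 ≠ 1`; `k1 ∈ XR {x}`, `k2 ∈ XL {x}` (`XR_suf`, `XL_pre`). `lift`: for `c` with
`len c ≥ 2` use `hB`, otherwise `hI` (the total length is at most `len p + 1 + len r < n`). -/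
theorem liftB (hC : Ctx β la F κ T0 N G) {n : ℕ} (hI : IH β F la κ G n)
    (hB : LvB β F la κ G n) {x : B} {w1 w2 : M.Group} (h1 : w1 ∈ XR M ({x} : Set B))
    (h2 : w2 ∈ XL M ({x} : Set B)) (hn : len M w1 + 1 + len M w2 ≤ n)
    (h : (∃ d, β d = β x ∧ dR M w1 d) ∨ ∃ d, β d = β x ∧ dL M w2 d) :
    Clm F la κ G w1 (sm M x) w2 := by
  obtain ⟨p, hp, k1, hk1, e1⟩ := exists_XR (blk β (β x)) w1
  obtain ⟨k2, hk2, r, hr, e2⟩ := exists_XL (blk β (β x)) w2
  have hQ : ({x} : Set B) ⊆ blk β (β x) := by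
    intro y hy
    rw [Set.mem_singleton_iff] at hy
    rw [hy]
    rfl
  have l1 : len M (p * k1) = len M p + len M k1 := len_XR_mul hp hk1
  have l2 : len M (k2 * r) = len M k2 + len M r := len_mul_XL hk2 hr
  have hk1' : k1 ∈ XR M ({x} : Set B) := XR_suf l1 (by rw [← e1]; exact h1)
  have hk2' : k2 ∈ XL M ({x} : Set B) := XL_pre l2 (by rw [← e2]; exact h2)
  have hpos : 1 ≤ len M k1 + len M k2 := by
    rcases h with ⟨d, hd, hw⟩ | ⟨d, hd, hw⟩
    · have h3 : len M k1 ≠ 0 := by
        intro h4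
        rw [len_eq_zero] at h4
        rw [e1, h4, mul_one] at hw
        exact mem_XR.1 hp d hd hw
      omega
    · have h3 : len M k2 ≠ 0 := by
        intro h4
        rw [len_eq_zero] at h4
        rw [e2, h4, one_mul] at hw
        exact mem_XL.1 hr d hd hw
      omega
  rw [e1, l1, e2, l2] at hn
  rw [e1, e2]
  refine lift hC (Sp_blk (β x)) hQ hk1 hk1' hk2 hk2' (sm_mem_par (Set.mem_singleton x)) hp hr ?_
  intro c hc hcl
  rw [len_sm] at hcl
  by_cases hc2 : 2 ≤ len M c
  · exact hB (β x) p hp c hc r hr hc2 (by omega)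
  · exact hI (blk β (β x)) (Sp_blk (β x)) p hp c hc r hr (by omega)

/-- PROOF. `lift` with `X = {s, t}`: all `c ∈ par M {s, t}` have length at most
`M s t < len k1 + 1 + len k2` (`len_le_wJ`), so `hI` applies. -/
theorem liftJ (hC : Ctx β la F κ T0 N G) {n : ℕ} (hI : IH β F la κ G n) {s t x : B}
    (hx : x ∈ ({s, t} : Set B)) (hf : Fin2 M s t) {p k1 k2 r : M.Group}
    (hp : p ∈ XR M ({s, t} : Set B)) (hk1 : k1 ∈ par M ({s, t} : Set B))
    (hk1' : k1 ∈ XR M ({x} : Set B)) (hk2 : k2 ∈ par M ({s, t} : Set B))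
    (hk2' : k2 ∈ XL M ({x} : Set B)) (hr : r ∈ XL M ({s, t} : Set B))
    (hn : len M p + len M k1 + 1 + len M k2 + len M r ≤ n)
    (h : M s t < len M k1 + 1 + len M k2) : Clm F la κ G (p * k1) (sm M x) (k2 * r) := by
  have hQ : ({x} : Set B) ⊆ {s, t} := by
    intro y hy
    rw [Set.mem_singleton_iff] at hy
    rw [hy]
    exact hx
  refine lift hC (Sp_pair β s t) hQ hk1 hk1' hk2 hk2' (sm_mem_par (Set.mem_singleton x)) hp hr ?_
  intro c hc _
  have h1 := len_le_wJ hf hc
  exact hI {s, t} (Sp_pair β s t) p hp c hc r hr (by omega)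

/-- The claim for both letters of a nonreduced product. -/
def Both (F : Lf D hv A) (κ : ℤ) (G : M.Group → M.Group → AddSubgroup A) (a b : B)
    (p v r : M.Group) : Prop :=
  ∀ x ∈ ({a, b} : Set B), D.T p * D.T v * D.T r ∈ F.Lam (κ - L (sm M x)) ∧
    F.ld (κ - L (sm M x)) (D.T p * D.T v * D.T r) ∈ G (p * v) (v * r)

/-- Type A.
PROOF. `Hb` (with `hc2` from `hI` for the piece `∅`). `x = a`: `v1 = 1`, `v2 = b a`: `liftJ` with
`{s, t} = {a, c}`: `p = z * (wJ a c * a)` (`two_R` for `p a`; `len p + 1 = len z + M a c`) so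
`k1 = wJ a c * a` has length `M a c - 1`, and `b a r` has the left descent `c` (`dL_comm`), so
`k2 ≠ 1`. `x = b`: `v1 = a`, `v2 = a`: `liftB`, `dR (p a) c`. (`pres` or `cfA` may be used.) -/
theorem st2_A (hC : Ctx β la F κ T0 N G) {a b : B} {p v r : M.Group} (hab : β a ≠ β b)
    (hp : p ∈ XR M ({a, b} : Set B)) (hr : r ∈ XL M ({a, b} : Set B))
    (h : NrA M β a b p v r) (hI : IH β F la κ G (len M p + len M v + len M r))
    (hB : LvB β F la κ G (len M p + len M v + len M r)) : Both F κ G a b p v r := by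
  obtain ⟨hv, c, hcb, hcne, hm, hd1, hd2⟩ := h
  have hl3 : len M (sm M b * sm M a) = 2 ∧ len M (sm M a * sm M b * sm M a) = 3 :=
    len_ba hC.dat.big hab
  have hl2' : len M (sm M a * sm M b) = 2 := (len_ba hC.dat.big (Ne.symm hab)).1
  have hlv : len M v = 3 := by rw [hv]; exact hl3.2
  have hac : a ≠ c := by
    intro h
    exact hab (by rw [h, hcb])
  have ma : sm M a ∈ par M ({a, b} : Set B) := sm_mem_par (by simp)
  have mb : sm M b ∈ par M ({a, b} : Set B) := sm_mem_par (by simp)
  have hpa : ¬ dR M p a := mem_XR.1 hp a (by simp)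
  have hra : ¬ dL M r a := mem_XL.1 hr a (by simp)
  rw [hlv] at hI hB
  have lpa : len M (p * sm M a) = len M p + 1 := by rw [len_XR_mul hp ma, len_sm]
  have lar : len M (sm M a * r) = 1 + len M r := by rw [len_mul_XL ma hr, len_sm]
  have lbar : len M (sm M b * sm M a * r) = 2 + len M r := by
    rw [len_mul_XL (Subgroup.mul_mem _ mb ma) hr, hl3.1]
  have labar : len M (sm M a * (sm M b * sm M a * r)) = 3 + len M r := by
    rw [← mul_assoc, ← mul_assoc, len_mul_XL (Subgroup.mul_mem _ (Subgroup.mul_mem _ ma mb) ma) hr,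
      hl3.2]
  have hE : ∀ y y' : M.Group, len M y + len M y' < len M p + 3 + len M r →
      Clm F la κ G y 1 y' := by
    intro y y' hyy
    refine hI ∅ (Sp_empty β) y ?_ 1 (Subgroup.one_mem _) y' ?_ (by rw [len_one]; omega)
    · rw [mem_XR]
      intro s hs
      exact absurd hs (Set.notMem_empty s)
    · rw [mem_XL]
      intro s hs
      exact absurd hs (Set.notMem_empty s)
  intro x hx
  rcases hx with hx | hx
  · subst hx
    refine Hb hC hp hr (Subgroup.one_mem _) (Subgroup.mul_mem _ mb ma) (by simp)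
      (by rw [hv, one_mul, mul_assoc]) (by rw [hlv, len_one, hl3.1]) ?_ ?_
    · rw [mul_one]
      obtain ⟨hf, z, hz, e1, -, -, e4⟩ := presR hac hpa hd1
      have hk : wJ M x c * sm M x ∈ par M ({x, c} : Set B) :=
        Subgroup.mul_mem _ (wJ_mem x c) (sm_mem_par (by simp))
      have ep : p = z * (wJ M x c * sm M x) := by
        rw [← mul_assoc, ← e1, mul_assoc, sm_sm, mul_one]
      have lz : len M (z * (wJ M x c * sm M x)) = len M z + len M (wJ M x c * sm M x) :=
        len_XR_mul hz hk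
      obtain ⟨k2, hk2, r', hr', e2⟩ := exists_XL ({x, c} : Set B) (sm M b * sm M x * r)
      have l2 : len M (k2 * r') = len M k2 + len M r' := len_mul_XL hk2 hr'
      have hk1' : wJ M x c * sm M x ∈ XR M ({x} : Set B) := by
        refine XR_suf lz ?_
        rw [← ep, mem_XR]
        intro s hs
        rw [Set.mem_singleton_iff] at hs
        rw [hs]
        exact hpa
      have hk2' : k2 ∈ XL M ({x} : Set B) := by
        refine XL_pre l2 ?_
        rw [← e2, mem_XL]
        intro s hs
        rw [Set.mem_singleton_iff] at hs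
        rw [hs, not_dL, labar, lbar]
        omega
      have hk2n : len M k2 ≠ 0 := by
        intro h0
        rw [len_eq_zero] at h0
        rw [h0, one_mul] at e2
        have h5 : dL M (sm M b * (sm M x * r)) c :=
          (dL_comm (by rw [M.symmetric]; exact hm)).2 hd2
        rw [← mul_assoc, e2] at h5
        exact mem_XL.1 hr' c (by simp) h5
      rw [← ep] at lz
      rw [← e2, lbar] at l2
      rw [e2]
      have key := liftJ hC hI (s := x) (t := c) (x := x) (by simp) hf hz hk hk1' hk2 hk2' hr'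
        (by omega) (by omega)
      rwa [← ep] at key
    · rw [mul_one]
      exact hE _ _ (by rw [lbar]; omega)
  · rw [Set.mem_singleton_iff] at hx
    subst hx
    have lpab : len M (p * sm M a * sm M x) = len M p + 2 := by
      rw [mul_assoc, len_XR_mul hp (Subgroup.mul_mem _ ma mb), hl2']
    refine Hb hC hp hr ma ma (by simp) hv (by rw [hlv, len_sm]) ?_ ?_
    · refine liftB hC hI hB ?_ ?_ (by rw [lpa, lar]; omega) (Or.inl ⟨c, hcb, hd1⟩)
      · rw [mem_XR]
        intro s hs
        rw [Set.mem_singleton_iff] at hs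
        rw [hs, not_dR, lpab, lpa]
      · rw [mem_XL]
        intro s hs
        rw [Set.mem_singleton_iff] at hs
        rw [hs, not_dL, ← mul_assoc, lbar, lar]
        omega
    · exact hE _ _ (by rw [lpa, lar]; omega)

/-- The descents of `p b` and `a r`. -/
private theorem st2_I_mem (hb : Big M β) {a b : B} {p r : M.Group} (hab : β a ≠ β b)
    (hp : p ∈ XR M ({a, b} : Set B)) (hr : r ∈ XL M ({a, b} : Set B)) :
    p * sm M b ∈ XR M ({a} : Set B) ∧ r ∈ XL M ({a} : Set B) ∧ p ∈ XR M ({b} : Set B) ∧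
      sm M a * r ∈ XL M ({b} : Set B) ∧ len M (p * sm M b) = len M p + 1 ∧
      len M (sm M a * r) = len M r + 1 := by
  have hba := (len_ba hb hab).1
  have hsa : sm M a ∈ par M ({a, b} : Set B) := sm_mem_par (by simp)
  have hsb : sm M b ∈ par M ({a, b} : Set B) := sm_mem_par (by simp)
  refine ⟨?_, XL_mono (by simp) hr, XR_mono (by simp) hp, ?_, hp b (by simp), hr a (by simp)⟩
  · rw [mem_XR]
    intro s hs
    rw [Set.mem_singleton_iff] at hs
    subst hs
    rw [dR_XR hp hsb (by simp), not_dR, hba, len_sm]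
  · rw [mem_XL]
    intro s hs
    rw [Set.mem_singleton_iff] at hs
    subst hs
    rw [dL_XL hr hsa (by simp), not_dL, hba, len_sm]

/-- `Hb` for `v = b a`. -/
private theorem st2_I_both (hC : Ctx β la F κ T0 N G) {a b : B} {p v r : M.Group}
    (hab : β a ≠ β b) (hp : p ∈ XR M ({a, b} : Set B)) (hr : r ∈ XL M ({a, b} : Set B))
    (hv : v = sm M b * sm M a) (hI : IH β F la κ G (len M p + len M v + len M r))
    (ha : Clm F la κ G (p * sm M b) (sm M a) r)
    (hb : Clm F la κ G p (sm M b) (sm M a * r)) : Both F κ G a b p v r := by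
  have hlv : len M v = 2 := by rw [hv]; exact (len_ba hC.dat.big hab).1
  have hsa : sm M a ∈ par M ({a, b} : Set B) := sm_mem_par (by simp)
  have hsb : sm M b ∈ par M ({a, b} : Set B) := sm_mem_par (by simp)
  obtain ⟨-, -, -, -, l1, l2⟩ := st2_I_mem hC.dat.big hab hp hr
  have hE : ∀ w w' : M.Group, len M w + len M w' < len M p + len M v + len M r →
      Clm F la κ G w 1 w' := by
    intro w w' hl
    refine hI ∅ (Sp_empty β) _ ?_ _ (Subgroup.one_mem _) _ ?_ (by rw [len_one]; omega)
    · rw [mem_XR]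
      intro s hs
      exact absurd hs (Set.notMem_empty s)
    · rw [mem_XL]
      intro s hs
      exact absurd hs (Set.notMem_empty s)
  intro x hx
  rcases hx with hx | hx
  · subst hx
    refine Hb (v1 := sm M b) (v2 := 1) hC hp hr hsb (one_mem _) (by simp)
      (by rw [hv, mul_one]) (by rw [hlv, len_sm, len_one]) ?_ ?_
    · rw [one_mul]
      exact ha
    · rw [one_mul]
      exact hE _ _ (by omega)
  · rw [Set.mem_singleton_iff] at hx
    subst hx
    refine Hb (v1 := 1) (v2 := sm M a) hC hp hr (one_mem _) hsa (by simp)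
      (by rw [hv, one_mul]) (by rw [hlv, len_sm, len_one]) ?_ ?_
    · rw [mul_one]
      exact hb
    · rw [mul_one]
      exact hE _ _ (by omega)

/-- Type I.
PROOF. `v = b a`, `c ≠ a, b`, `dR (p b) c`, `dL (a r) c`. If `β c = β a`: `x = a`: `v1 = b`, `v2 = 1`:
`liftB` (`dR (p b) c`). `x = b`: `v1 = 1`, `v2 = a`: `liftJ` with `{b, c}`: `p = z * (wJ b c * b)` with
`M b c - 1` letters, and `dL (a r) c`. If `β c = β b`: `x = a`: `liftJ` with `{a, c}`:
`r = (a * wJ a c) * z'`, `dR (p b) c`. `x = b`: `liftB` (`dL (a r) c`). -/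
theorem st2_I (hC : Ctx β la F κ T0 N G) {a b : B} {p v r : M.Group} (hab : β a ≠ β b)
    (hp : p ∈ XR M ({a, b} : Set B)) (hr : r ∈ XL M ({a, b} : Set B))
    (h : NrI M a b p v r) (hI : IH β F la κ G (len M p + len M v + len M r))
    (hB : LvB β F la κ G (len M p + len M v + len M r)) : Both F κ G a b p v r := by
  obtain ⟨hv, c, hca, hcb, h1, h2⟩ := h
  have hlv : len M v = 2 := by rw [hv]; exact (len_ba hC.dat.big hab).1
  obtain ⟨m1, m2, m3, m4, l1, l2⟩ := st2_I_mem hC.dat.big hab hp hr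
  have hpb : ¬ dR M p b := mem_XR.1 hp b (by simp)
  have hra : ¬ dL M r a := mem_XL.1 hr a (by simp)
  by_cases hc : β c = β a
  · refine st2_I_both hC hab hp hr hv hI ?_ ?_
    · exact liftB hC hI hB m1 m2 (by omega) (Or.inl ⟨c, hc, h1⟩)
    · obtain ⟨hf, z, hz, hw, -, -, hl⟩ := presR (Ne.symm hcb) hpb h1
      obtain ⟨k2, hk2, r', hr', he⟩ := exists_XL ({b, c} : Set B) (sm M a * r)
      have hk1 : wJ M b c * sm M b ∈ par M ({b, c} : Set B) :=
        mul_mem (wJ_mem b c) (sm_mem_par (by simp))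
      have e1 : p = z * (wJ M b c * sm M b) := by
        rw [← mul_assoc, ← hw, mul_assoc, sm_sm, mul_one]
      have l3 := len_XR_mul hz hk1
      rw [← e1] at l3
      have l4 := len_mul_XL hk2 hr'
      rw [← he] at l4
      have h3 : dL M k2 c := by
        rw [← dL_XL hr' hk2 (by simp), ← he]
        exact h2
      have h4 : 0 < len M k2 := by unfold dL at h3; omega
      have n1 : z * (wJ M b c * sm M b) ∈ XR M ({b} : Set B) := by rw [← e1]; exact m3
      have n2 : k2 * r' ∈ XL M ({b} : Set B) := by rw [← he]; exact m4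
      rw [e1, he]
      exact liftJ hC hI (s := b) (t := c) (by simp) hf hz hk1
        (XR_suf (by rw [← e1]; exact l3) n1) hk2 (XL_pre (by rw [← he]; exact l4) n2) hr'
        (by omega) (by omega)
  · have hc' : β c = β b := by
      revert hab hc
      cases β a <;> cases β b <;> cases β c <;> simp
    refine st2_I_both hC hab hp hr hv hI ?_ ?_
    · obtain ⟨hf, z, hz, hw, -, -, hl⟩ := presL (Ne.symm hca) hra h2
      obtain ⟨p', hp', k1, hk1, he⟩ := exists_XR ({a, c} : Set B) (p * sm M b)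
      have hk2 : sm M a * wJ M a c ∈ par M ({a, c} : Set B) :=
        mul_mem (sm_mem_par (by simp)) (wJ_mem a c)
      have e1 : r = sm M a * wJ M a c * z := by
        rw [mul_assoc, ← hw, sm_cancel]
      have l3 := len_mul_XL hk2 hz
      rw [← e1] at l3
      have l4 := len_XR_mul hp' hk1
      rw [← he] at l4
      have h3 : dR M k1 c := by
        rw [← dR_XR hp' hk1 (by simp), ← he]
        exact h1
      have h4 : 0 < len M k1 := by unfold dR at h3; omega
      have n1 : p' * k1 ∈ XR M ({a} : Set B) := by rw [← he]; exact m1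
      have n2 : sm M a * wJ M a c * z ∈ XL M ({a} : Set B) := by rw [← e1]; exact m2
      rw [e1, he]
      exact liftJ hC hI (s := a) (t := c) (by simp) hf hp' hk1
        (XR_suf (by rw [← he]; exact l4) n1) hk2 (XL_pre (by rw [← e1]; exact l3) n2) hz
        (by omega) (by omega)
    · exact liftB hC hI hB m3 m4 (by omega) (Or.inr ⟨c, hc', h2⟩)

/-- Type 3.
PROOF. `v = b a`, `M e b = 2`, `dR p e`, `dR (p e b) a`, not `dL (a r) e`, `dL (e (a r)) a`.
`x = b`: `v1 = 1`, `v2 = a`: `liftB` (`dR p e`). `x = a`: `v1 = b`, `v2 = 1`: `liftJ` with `{a, e}`: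
`e (a r)` has the left descents `e`, `a`: `e (a r) = wJ a e * z'`, so `a r = (e * wJ a e) * z'` and
`r = (a * (e * wJ a e)) * z'` with `M a e - 2` letters in `{a, e}`. `p b` has the right descent `e`
(`dR_comm`), and `p b e = p e b` has the right descent `a`, so the `{a, e}`-suffix of `p b` has at
least two letters (`dR_XR`). In total at least `2 + 1 + (M a e - 2) > M a e`. -/
theorem st2_3 (hC : Ctx β la F κ T0 N G) {a b : B} {p v r : M.Group} (hab : β a ≠ β b)
    (hp : p ∈ XR M ({a, b} : Set B)) (hr : r ∈ XL M ({a, b} : Set B))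
    (h : Nr3 M β a b p v r) (hI : IH β F la κ G (len M p + len M v + len M r))
    (hB : LvB β F la κ G (len M p + len M v + len M r)) : Both F κ G a b p v r := by
  obtain ⟨hv, e, heb, hne, hm, h1, h2, h3, h4⟩ := h
  have hlv : len M v = 2 := by rw [hv]; exact (len_ba hC.dat.big hab).1
  obtain ⟨m1, m2, m3, m4, l1, l2⟩ := st2_I_mem hC.dat.big hab hp hr
  have hea : e ≠ a := fun h => hab (by rw [← h, heb])
  have hmb : M b e = 2 := by rw [M.symmetric]; exact hm
  refine st2_I_both hC hab hp hr hv hI ?_ ?_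
  · obtain ⟨hf, z, hz, -, -, hw, hl⟩ := presL hea h3 h4
    rw [sm_cancel] at hw
    obtain ⟨p', hp', k1, hk1, he⟩ := exists_XR ({e, a} : Set B) (p * sm M b)
    have hk2 : ye M e a (M e a - 2) ∈ par M ({e, a} : Set B) := ye_mem _
    have lk2 : len M (ye M e a (M e a - 2)) = M e a - 2 := ye_len hf (by omega)
    have l3 := len_mul_XL hk2 hz
    rw [← hw] at l3
    have l4 := len_XR_mul hp' hk1
    rw [← he] at l4
    have h5 : dR M k1 e := by
      rw [← dR_XR hp' hk1 (by simp), ← he]
      exact (dR_comm hmb).2 h1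
    have hk1e : k1 * sm M e ∈ par M ({e, a} : Set B) := mul_mem hk1 (sm_mem_par (by simp))
    have h6 : dR M (k1 * sm M e) a := by
      rw [← dR_XR hp' hk1e (by simp), ← mul_assoc, ← he, mul_assoc, ← sm_comm hm, ← mul_assoc]
      exact h2
    have h7 : 2 ≤ len M k1 := by
      unfold dR at h5 h6
      omega
    have h8 := hf.two
    have n1 : p' * k1 ∈ XR M ({a} : Set B) := by rw [← he]; exact m1
    have n2 : ye M e a (M e a - 2) * z ∈ XL M ({a} : Set B) := by rw [← hw]; exact m2
    rw [hw, he]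
    exact liftJ hC hI (s := e) (t := a) (by simp) hf hp' hk1
      (XR_suf (by rw [← he]; exact l4) n1) hk2 (XL_pre (by rw [← hw]; exact l3) n2) hz
      (by omega) (by omega)
  · exact liftB hC hI hB m3 m4 (by omega) (Or.inl ⟨e, heb, h1⟩)

/-- A product of two different generators. -/
private theorem q7_two {a b : B} (hne : a ≠ b) : len M (sm M b * sm M a) = 2 := by
  have h1 : ¬ dR M (sm M b) a := fun h =>
    hne (dR_mem (sm_mem_par (Set.mem_singleton b)) h)
  rw [not_dR.1 h1, len_sm]

/-- Type 4.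
PROOF. `v = b a`, `M f a = 2`, `dL r f`, not `dR (p b) f`, `dR (p b f) b`, `dL (a (f r)) b`. `x = a`:
`liftB` (`dL r f`). `x = b`: `liftJ` with `{b, f}`: `p b f = z * wJ b f`,
`p = z * (wJ b f * f * b)` with `M b f - 2` letters; `a r` has the left descent `f` (`dL_comm`) and
`f (a r) = a (f r)` has the left descent `b`: at least two letters. -/
theorem st2_4 (hC : Ctx β la F κ T0 N G) {a b : B} {p v r : M.Group} (hab : β a ≠ β b)
    (hp : p ∈ XR M ({a, b} : Set B)) (hr : r ∈ XL M ({a, b} : Set B))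
    (h : Nr4 M β a b p v r) (hI : IH β F la κ G (len M p + len M v + len M r))
    (hB : LvB β F la κ G (len M p + len M v + len M r)) : Both F κ G a b p v r := by
  obtain ⟨hv, f, hf, hfa, hm, hrf, hpf, hpb, hab4⟩ := h
  have hne : a ≠ b := fun h => hab (by rw [h])
  have hfb : b ≠ f := fun h => hab (by rw [← hf, ← h])
  have ha : a ∈ ({a, b} : Set B) := Set.mem_insert _ _
  have hb' : b ∈ ({a, b} : Set B) := Set.mem_insert_of_mem _ rfl
  have hsa : sm M a ∈ par M ({a, b} : Set B) := sm_mem_par ha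
  have hsb : sm M b ∈ par M ({a, b} : Set B) := sm_mem_par hb'
  have hlv : len M v = 2 := by rw [hv]; exact q7_two hne
  have hpa : ¬ dR M p a := mem_XR.1 hp a ha
  have hpb0 : ¬ dR M p b := mem_XR.1 hp b hb'
  have hra : ¬ dL M r a := mem_XL.1 hr a ha
  have hlpb : len M (p * sm M b) = len M p + 1 := not_dR.1 hpb0
  have hlar : len M (sm M a * r) = len M r + 1 := not_dL.1 hra
  have he : ∀ w : M.Group, w ∈ XR M (∅ : Set B) := fun w =>
    mem_XR.2 fun x hx => absurd hx (Set.notMem_empty x)
  have he' : ∀ w : M.Group, w ∈ XL M (∅ : Set B) := fun w =>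
    mem_XL.2 fun x hx => absurd hx (Set.notMem_empty x)
  have hE : ∀ w1 w2 : M.Group, len M w1 + len M w2 < len M p + len M v + len M r →
      Clm F la κ G w1 1 w2 := fun w1 w2 hl =>
    hI ∅ (Sp_empty β) w1 (he w1) 1 (one_mem _) w2 (he' w2) (by rw [len_one]; omega)
  intro x hx
  rcases hx with hx | hx
  · -- the letter `a`
    rw [hx]
    have hw1 : p * sm M b ∈ XR M ({a} : Set B) := by
      refine mem_XR.2 fun s hs => ?_
      rw [Set.mem_singleton_iff.1 hs, dR_XR hp hsb ha]
      exact fun h => hne (dR_mem (sm_mem_par (Set.mem_singleton b)) h)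
    have hw2 : (1 : M.Group) * r ∈ XL M ({a} : Set B) := by
      rw [one_mul]
      exact XL_mono (Set.singleton_subset_iff.2 ha) hr
    refine Hb hC hp hr (v1 := sm M b) (v2 := 1) hsb (one_mem _) ha (by rw [mul_one, hv])
      (by rw [len_one, len_sm, hlv]) ?_ ?_
    · refine liftB hC hI hB hw1 hw2 ?_ (Or.inr ⟨f, hf, ?_⟩)
      · rw [one_mul]; omega
      · rw [one_mul]; exact hrf
    · refine hE _ _ ?_
      rw [one_mul]; omega
  · -- the letter `b`
    rw [Set.mem_singleton_iff.1 hx]
    have hbs : b ∈ ({b, f} : Set B) := Set.mem_insert _ _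
    have hfs : f ∈ ({b, f} : Set B) := Set.mem_insert_of_mem _ rfl
    have hb2 : sm M b ∈ par M ({b, f} : Set B) := sm_mem_par hbs
    have hf2 : sm M f ∈ par M ({b, f} : Set B) := sm_mem_par hfs
    have hm' : M a f = 2 := by rw [M.symmetric]; exact hm
    -- the left factor
    obtain ⟨z, hz, k1, hk1, e1⟩ := exists_XR ({b, f} : Set B) p
    have hlp : len M p = len M z + len M k1 := by rw [e1, len_XR_mul hz hk1]
    have hdf : dR M (p * sm M b * sm M f) f := dR_mul.2 hpf
    have hF : Fin2 M b f := Fin2.of_R hpb hdf hfb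
    have hk1b : k1 ∈ XR M ({b} : Set B) := by
      refine mem_XR.2 fun s hs => ?_
      rw [Set.mem_singleton_iff.1 hs]
      intro h1
      apply hpb0
      rw [e1, dR_XR hz hk1 hbs]
      exact h1
    have hkk : k1 * sm M b * sm M f ∈ par M ({b, f} : Set B) :=
      Subgroup.mul_mem _ (Subgroup.mul_mem _ hk1 hb2) hf2
    have e2 : p * sm M b * sm M f = z * (k1 * sm M b * sm M f) := by
      rw [e1]; simp only [mul_assoc]
    have hlk : len M k1 + 2 = M b f := by
      rw [e2, dR_XR hz hkk hbs] at hpb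
      rw [e2, dR_XR hz hkk hfs] at hdf
      have h1 := (eq_wJ hkk hfb hpb hdf).2
      have h2 := len_XR_mul hz hkk
      rw [← e2, not_dR.1 hpf, hlpb] at h2
      omega
    -- the right factor
    obtain ⟨k2, hk2, z', hz', g1⟩ := exists_XL ({b, f} : Set B) (sm M a * r)
    have hlr : len M (sm M a * r) = len M k2 + len M z' := by rw [g1, len_mul_XL hk2 hz']
    have hk2b : k2 ∈ XL M ({b} : Set B) := by
      refine mem_XL.2 fun s hs => ?_
      rw [Set.mem_singleton_iff.1 hs]
      intro h1
      have h2 : dL M (sm M a * r) b := by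
        rw [g1, dL_XL hz' hk2 hbs]
        exact h1
      rw [dL_XL hr hsa hb'] at h2
      exact hne (dL_mem (sm_mem_par (Set.mem_singleton a)) h2).symm
    have hk2f : dL M k2 f := by
      have h1 : dL M (sm M a * r) f := (dL_comm hm').2 hrf
      rwa [g1, dL_XL hz' hk2 hfs] at h1
    have hk2fb : dL M (sm M f * k2) b := by
      have h1 : sm M a * (sm M f * r) = sm M f * k2 * z' := by
        rw [mul_assoc (sm M f), ← g1, ← mul_assoc, ← mul_assoc, sm_comm hm]
      rw [h1, dL_XL hz' (Subgroup.mul_mem _ hf2 hk2) hbs] at hab4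
      exact hab4
    have hlk2 : 2 ≤ len M k2 := by
      unfold dL at hk2f hk2fb
      omega
    refine Hb hC hp hr (v1 := 1) (v2 := sm M a) (one_mem _) hsa hb' (by rw [one_mul, hv])
      (by rw [len_one, len_sm, hlv]) ?_ ?_
    · rw [mul_one, g1, e1]
      refine liftJ hC hI hbs hF hz hk1 hk1b hk2 hk2b hz' ?_ (by omega)
      omega
    · refine hE _ _ ?_
      rw [mul_one]
      omega

/-- PROOF. `nr_X`, the four types for `(a, b)` or `(b, a)` (`Set.pair_comm`). -/
theorem st2 (hC : Ctx β la F κ T0 N G) {a b : B} {p v r : M.Group} (hab : β a ≠ β b)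
    (hp : p ∈ XR M ({a, b} : Set B)) (hv' : v ∈ par M ({a, b} : Set B))
    (hr : r ∈ XL M ({a, b} : Set B)) (h2 : 2 ≤ len M v)
    (hn : len M (p * v * r) ≠ len M p + len M v + len M r)
    (hI : IH β F la κ G (len M p + len M v + len M r))
    (hB : LvB β F la κ G (len M p + len M v + len M r)) : Both F κ G a b p v r := by
  have hs : Both F κ G b a p v r → Both F κ G a b p v r := fun h x hx =>
    h x (by rw [Set.pair_comm]; exact hx)
  have hp' : p ∈ XR M ({b, a} : Set B) := by rw [Set.pair_comm]; exact hp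
  have hr' : r ∈ XL M ({b, a} : Set B) := by rw [Set.pair_comm]; exact hr
  rcases nr_X hC.dat.big hab hp hv' h2 hr hn with (h | h | h | h) | (h | h | h | h)
  · exact st2_A hC hab hp hr h hI hB
  · exact st2_I hC hab hp hr h hI hB
  · exact st2_3 hC hab hp hr h hI hB
  · exact st2_4 hC hab hp hr h hI hB
  · exact hs (st2_A hC hab.symm hp' hr' h hI hB)
  · exact hs (st2_I hC hab.symm hp' hr' h hI hB)
  · exact hs (st2_3 hC hab.symm hp' hr' h hI hB)
  · exact hs (st2_4 hC hab.symm hp' hr' h hI hB)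

/-! Piece ST-e: the induction step -/

/-- Blocks.
PROOF. Heavy `u`: `Clm_hv`. Reduced: `clm_rd`, `st_B` (`TB.mono`; `p u r ≠ 1`). Not reduced: `gg_B'`:
`T p * T u * T r` is in `Dec (κ - L u) (G p r) (T0 - 1)`, `la u ≤ L u` (`Dat.la_le`), so in
`Dec (κ - la u) (G (p u) (u r)) (T0 - 1)` (`Dec.mono`, `Go_le`); add `st_B` (`Dec.mono` with
`Go_le`); `Dec.final`, as `la u < N` and `T0 ≤ κ - la u`. -/
theorem cl_B (hC : Ctx β la F κ T0 N G) {n : ℕ} (hI : IH β F la κ G n)
    (hT : TB F T0 (n + 1)) : LvB β F la κ G n := by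
  intro i p hp u hu r hr h2 hn
  have hI' : IH β F la κ G (len M p + len M u + len M r) := hI.mono hn
  have hT' : TB F T0 (len M p + len M u + len M r) := hT.mono (by omega)
  have hst := st_B hC hp hu hr hI' hT'
  by_cases hh : hv u
  · exact Clm_hv hC.idl hh
  by_cases hl : len M (p * u * r) = len M p + len M u + len M r
  · have hu1 : u ≠ 1 := by
      rintro rfl
      rw [len_one] at h2
      omega
    refine clm_rd hC (Sp_blk i) hp hu hr hu1 hl ?_ hst
    refine hT _ ?_ (by omega)
    intro h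
    rw [h, len_one] at hl
    omega
  · have h3 := gg_B' hC hp hu hr h2 hl hI' hT'
    have hla := hC.dat.la_le (Sp_blk i) hu
    have hGo := Go_le hC hp hu hr
    have hG0 : G p r ≤ G (p * u) (u * r) := le_trans le_sup_left hGo
    have h4 : Dec F (κ - la u) (G (p * u) (u * r)) (T0 - 1) (D.T p * D.T u * D.T r) :=
      h3.mono (by omega) hG0 le_rfl
    have h5 := (hst.mono le_rfl hGo le_rfl).add h4
    rw [sub_add_cancel] at h5
    have hN : la u < N := by
      by_contra hn'
      exact hh (hC.hin _ (Sp_blk i) u hu (not_lt.1 hn'))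
    have h6 := hC.hT0 _ hN
    exact h5.final (by omega)

/-- Pairs.
PROOF. If the total length is less than `n`: `hI`. Heavy `u`: `Clm_hv`. Reduced: `clm_rd`, `st_X`.
Not reduced: `len u ≤ 3` (`rd_four`), so `u ≠ wJ a b, wJ a b * b, wJ a b * a` (their lengths are
`M a b` and `M a b - 1`, at least `4`), so by `Dat.cross` `la u ≤ L x` for the letter `x` with
`L x = max (L a) (L b)`. `st2` for `x`: `T p * T u * T r` is in `Lam (κ - L x)` with leading term
in `G (p u) (u r)`; so `Dec.main` and `Dec.mono`. Add `st_X`; `Dec.final`. -/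
theorem cl_X (hC : Ctx β la F κ T0 N G) {n : ℕ} (hI : IH β F la κ G n)
    (hT : TB F T0 (n + 1)) {a b : B} {p u r : M.Group} (hab : β a ≠ β b)
    (hp : p ∈ XR M ({a, b} : Set B)) (hu : u ∈ par M ({a, b} : Set B))
    (hr : r ∈ XL M ({a, b} : Set B)) (h2 : 2 ≤ len M u)
    (hn : len M p + len M u + len M r ≤ n) : Clm F la κ G p u r := by
  have hI' : IH β F la κ G (len M p + len M u + len M r) := hI.mono hn
  have hT' : TB F T0 (len M p + len M u + len M r) := hT.mono (by omega)
  have hst := st_X hC hab hp hu hr hI' hT'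
  have hX := Sp_pair β a b
  by_cases hh : hv u
  · exact Clm_hv hC.idl hh
  by_cases hl : len M (p * u * r) = len M p + len M u + len M r
  · have hu1 : u ≠ 1 := by
      rintro rfl
      rw [len_one] at h2
      omega
    refine clm_rd hC hX hp hu hr hu1 hl ?_ hst
    refine hT _ ?_ (by omega)
    intro h
    rw [h, len_one] at hl
    omega
  · have hB : LvB β F la κ G (len M p + len M u + len M r) := by
      intro i p' hp' u' hu' r' hr' h2' hn'
      exact cl_B hC hI hT i p' hp' u' hu' r' hr' h2' (by omega)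
    have hl3 : len M u ≤ 3 := by
      by_contra h3
      exact hl (rd_four hC.dat.big hab hp hu (by omega) hr)
    have hne : a ≠ b := fun h => hab (by rw [h])
    have h5 : 5 ≤ M a b := hC.dat.big a b hab
    have hf : Fin2 M a b := Fin2.of_ne hne (by omega)
    have hlw : len M (wJ M a b) = M a b := hf.lw
    have hone : ∀ x : B, len M (wJ M a b) ≤ len M (wJ M a b * sm M x) + 1 := by
      intro x
      have h7 := rs_mul_le (wJ M a b * sm M x) (sm M x)
      rw [mul_assoc, sm_sm, mul_one, len_sm] at h7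
      exact h7
    obtain ⟨x, hx, hux⟩ : ∃ x ∈ ({a, b} : Set B), (la u : ℤ) ≤ L (sm M x) := by
      rcases hC.dat.cross hab hu with h | h | h | h
      · rcases le_max_iff.1 h with h8 | h8
        · exact ⟨a, by simp, h8⟩
        · exact ⟨b, by simp, h8⟩
      · exfalso
        rw [h] at hl3
        omega
      · exfalso
        have h9 := hone b
        rw [h.2] at hl3
        omega
      · exfalso
        have h9 := hone a
        rw [h.2] at hl3
        omega
    obtain ⟨k1, k2⟩ := st2 hC hab hp hu hr h2 hl hI' hB x hx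
    have hGo := Go_le hC hp hu hr
    have h4 : Dec F (κ - la u) (G (p * u) (u * r)) (T0 - 1) (D.T p * D.T u * D.T r) :=
      (Dec.main k1 k2).mono (by omega) le_rfl le_rfl
    have h10 := (hst.mono le_rfl hGo le_rfl).add h4
    rw [sub_add_cancel] at h10
    have hN : la u < N := by
      by_contra hn'
      exact hh (hC.hin _ hX u hu (not_lt.1 hn'))
    have h6 := hC.hT0 _ hN
    exact h10.final (by omega)

/-- All pieces, elements of length at least `2`.
PROOF. `Sp.main`: `X ⊆ Y`, `Y` a block or a pair. `p = p' k1`, `r = k2 r'` with `p' ∈ XR Y`,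
`r' ∈ XL Y`; `k1 ∈ XR X`, `k2 ∈ XL X` (`XR_suf`, `XL_pre`). `lift`: for `c` with `len c ≥ 2`:
`cl_B` or `cl_X`, otherwise `hI` (the total length is smaller: `len c ≤ 1 < len u`). -/
theorem cl_G (hC : Ctx β la F κ T0 N G) {n : ℕ} (hI : IH β F la κ G n)
    (hT : TB F T0 (n + 1)) (hX : Sp β X) {p u r : M.Group} (hp : p ∈ XR M X)
    (hu : u ∈ par M X) (hr : r ∈ XL M X) (h2 : 2 ≤ len M u)
    (hn : len M p + len M u + len M r ≤ n) : Clm F la κ G p u r := by
  obtain ⟨Y, hXY, hY⟩ := hX.main
  have hYs : Sp β Y := by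
    rcases hY with ⟨i, rfl⟩ | ⟨a, b, _, rfl⟩
    · exact Sp_blk i
    · exact Sp_pair β a b
  obtain ⟨p', hp', k1, hk1, e1⟩ := exists_XR Y p
  obtain ⟨k2, hk2, r', hr', e2⟩ := exists_XL Y r
  have l1 : len M p = len M p' + len M k1 := by rw [e1, len_XR_mul hp' hk1]
  have l2 : len M r = len M k2 + len M r' := by rw [e2, len_mul_XL hk2 hr']
  have hk1' : k1 ∈ XR M X := XR_suf (by rw [← e1, l1]) (by rw [← e1]; exact hp)
  have hk2' : k2 ∈ XL M X := XL_pre (by rw [← e2, l2]) (by rw [← e2]; exact hr)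
  rw [e1, e2]
  refine lift hC hYs hXY hk1 hk1' hk2 hk2' hu hp' hr' fun c hc hl => ?_
  rcases Nat.lt_or_ge (len M c) 2 with h3 | h3
  · exact hI Y hYs p' hp' c hc r' hr' (by omega)
  · rcases hY with ⟨i, rfl⟩ | ⟨a, b, hab, rfl⟩
    · exact cl_B hC hI hT i p' hp' c hc r' hr' h3 (by omega)
    · exact cl_X hC hI hT hab hp' hc hr' h3 (by omega)

/-- Generators.
PROOF. If `p ≠ 1` let `t` be a right descent of `p` (`t ≠ s`), if `p = 1 ≠ r` a left descent of
`r`. `lift` with `X = {s, t}`, `Q = {s}`; `len c ≥ 2`: `cl_G`; `len c ≤ 1`: `hI`, as `k1 ≠ 1` or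
`k2 ≠ 1`. If `p = r = 1`: heavy `s`: `Clm_hv`. Otherwise `C s = T s + qq (-L s) • 1`,
`T s ∈ Lam T0`, `T0 ≤ κ - la s`, with leading term `0` or (if `T0 = κ - la s`) in `G s s` by `g3`;
and `hC.h11`, `G 1 1 ≤ G s s`. -/
theorem cl_S (hC : Ctx β la F κ T0 N G) {n : ℕ} (hI : IH β F la κ G n)
    (hT : TB F T0 (n + 1)) {s : B} {p r : M.Group} (hp : p ∈ XR M ({s} : Set B))
    (hr : r ∈ XL M ({s} : Set B)) (hn : len M p + 1 + len M r ≤ n) :
    Clm F la κ G p (sm M s) r := by
  have hpr : p ≠ 1 ∨ r ≠ 1 → Clm F la κ G p (sm M s) r := by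
    intro h
    have ht : ∃ t, dR M p t ∨ dL M r t := by
      rcases h with h | h
      · obtain ⟨t, ht⟩ := exists_dR h
        exact ⟨t, Or.inl ht⟩
      · obtain ⟨t, ht⟩ := exists_dL h
        exact ⟨t, Or.inr ht⟩
    obtain ⟨t, ht⟩ := ht
    have hQ : ({s} : Set B) ⊆ {s, t} := by
      intro x hx
      rw [Set.mem_singleton_iff] at hx
      rw [hx]
      exact Set.mem_insert _ _
    obtain ⟨p', hp', k1, hk1, e1⟩ := exists_XR ({s, t} : Set B) p
    obtain ⟨k2, hk2, r', hr', e2⟩ := exists_XL ({s, t} : Set B) r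
    have l1 : len M p = len M p' + len M k1 := by rw [e1, len_XR_mul hp' hk1]
    have l2 : len M r = len M k2 + len M r' := by rw [e2, len_mul_XL hk2 hr']
    have hk1' : k1 ∈ XR M ({s} : Set B) := XR_suf (by rw [← e1, l1]) (by rw [← e1]; exact hp)
    have hk2' : k2 ∈ XL M ({s} : Set B) := XL_pre (by rw [← e2, l2]) (by rw [← e2]; exact hr)
    have hne : 0 < len M k1 + len M k2 := by
      rcases Nat.eq_zero_or_pos (len M k1 + len M k2) with h0 | h0
      · exfalso
        have h3 : k1 = 1 := len_eq_zero.1 (by omega)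
        have h4 : k2 = 1 := len_eq_zero.1 (by omega)
        rw [h3, mul_one] at e1
        rw [h4, one_mul] at e2
        rcases ht with ht | ht
        · rw [e1] at ht
          exact mem_XR.1 hp' t (Set.mem_insert_of_mem _ rfl) ht
        · rw [e2] at ht
          exact mem_XL.1 hr' t (Set.mem_insert_of_mem _ rfl) ht
      · exact h0
    rw [e1, e2]
    refine lift hC (Sp_pair β s t) hQ hk1 hk1' hk2 hk2' (sm_mem_par (Set.mem_singleton s)) hp' hr'
      fun c hc hl => ?_
    rw [len_sm] at hl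
    rcases Nat.lt_or_ge (len M c) 2 with h3 | h3
    · exact hI _ (Sp_pair β s t) p' hp' c hc r' hr' (by omega)
    · exact cl_G hC hI hT (Sp_pair β s t) hp' hc hr' h3 (by omega)
  by_cases hp1 : p = 1
  · by_cases hr1 : r = 1
    · subst hp1 hr1
      have hs : sm M s ∈ par M ({s} : Set B) := sm_mem_par (Set.mem_singleton s)
      have hs1 : sm M s ≠ 1 := by
        intro h
        have h1 := len_sm (M := M) s
        rw [h, len_one] at h1
        omega
      have h11 : Clm F la κ G 1 1 1 := by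
        unfold Clm
        rw [D.T_one, D.C_one, mul_one, mul_one, hC.dat.one, Nat.cast_zero, sub_zero, mul_one]
        exact hC.h11
      refine clm_rd hC (Sp_single β s) hp hs hr hs1 ?_ ?_ ?_
      · rw [one_mul, mul_one, len_one, zero_add, add_zero]
      · rw [one_mul, mul_one]
        exact hT _ hs1 (by rw [len_sm]; omega)
      · refine st_sum hs fun v _ hlt => ?_
        rw [len_sm] at hlt
        have hv1 : v = 1 := len_eq_zero.1 (by omega)
        rw [hv1]
        exact tm_one hC (Sp_single β s) hs h11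
    · exact hpr (Or.inr hr1)
  · exact hpr (Or.inl hp1)

/-- The empty middle factor.
PROOF. `C 1 = 1`, `la 1 = 0`. If `p = r = 1`: `hC.h11`. If exactly one of them is `1`: heavy `1`:
`Clm_hv`; otherwise `T0 ≤ κ` (`0 < N`, as `1` is not heavy and `la 1 = 0`, `hC.hin`), and
`T w ∈ Lam T0` with leading term `0` or in `G p r` by `g3` (piece `∅`). If `p, r ≠ 1`: let `s` be a
right descent of `p`, `t` a left descent of `r`: `lift` with `X = {s, t}` (`Sp_pair`; also if
`s = t`), `Q = ∅`: `len c ≥ 2`: `cl_G`; `len c ≤ 1`: `hI`, as `k1, k2 ≠ 1`. -/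
theorem cl_E (hC : Ctx β la F κ T0 N G) {n : ℕ} (hI : IH β F la κ G n)
    (hT : TB F T0 (n + 1)) {p r : M.Group} (hn : len M p + len M r ≤ n) :
    Clm F la κ G p 1 r := by
  have he : ∀ w : M.Group, w ∈ XR M (∅ : Set B) := by
    intro w
    rw [mem_XR]
    intro x hx
    exact absurd hx (Set.notMem_empty x)
  have he' : ∀ w : M.Group, w ∈ XL M (∅ : Set B) := by
    intro w
    rw [mem_XL]
    intro x hx
    exact absurd hx (Set.notMem_empty x)
  by_cases hr : len M (p * r) = len M p + len M r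
  · by_cases hv1 : hv 1
    · exact Clm_hv hC.idl hv1
    by_cases h1 : p * r = 1
    · have h2 := hr
      rw [h1, len_one] at h2
      have h3 : p = 1 := len_eq_zero.1 (by omega)
      have h4 : r = 1 := len_eq_zero.1 (by omega)
      subst h3 h4
      unfold Clm
      rw [D.T_one, D.C_one, mul_one, mul_one, hC.dat.one, Nat.cast_zero, sub_zero, mul_one]
      exact hC.h11
    · have hN : 0 < N := by
        rcases Nat.eq_zero_or_pos N with h0 | h0
        · exact absurd (hC.hin ∅ (Sp_empty β) 1 (one_mem _) (by omega)) hv1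
        · exact h0
      have h2 : T0 ≤ κ := by
        have h3 := hC.hT0 0 hN
        rwa [Nat.cast_zero, sub_zero] at h3
      have h3 : D.T (p * r) ∈ F.Lam T0 := hT _ h1 (by omega)
      have e1 : D.T p * D.C 1 * D.T r = D.T (p * r) := by
        rw [D.C_one, mul_one, D.T_mul _ _ hr]
      unfold Clm
      rw [e1, hC.dat.one, Nat.cast_zero, sub_zero]
      refine ⟨F.mono h2 h3, ?_⟩
      rcases lt_or_eq_of_le h2 with h4 | h4
      · rw [F.lt h4 h3]
        exact AddSubgroup.zero_mem _
      · have h5 := hC.g3 ∅ (Sp_empty β) p (he p) 1 (one_mem _) r (he' r)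
          (by rw [mul_one, len_one, add_zero]; exact hr) hv1
          (by rw [hC.dat.one, Nat.cast_zero, sub_zero]; exact h4.symm)
          (by rw [mul_one]; exact h1)
        rw [mul_one] at h5
        rw [mul_one, ← h4]
        exact h5
  · have hp1 : p ≠ 1 := by
      rintro rfl
      rw [one_mul, len_one, zero_add] at hr
      exact hr rfl
    have hr1 : r ≠ 1 := by
      rintro rfl
      rw [mul_one, len_one, add_zero] at hr
      exact hr rfl
    obtain ⟨s, hs⟩ := exists_dR hp1
    obtain ⟨t, ht⟩ := exists_dL hr1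
    obtain ⟨p', hp', k1, hk1, e1⟩ := exists_XR ({s, t} : Set B) p
    obtain ⟨k2, hk2, r', hr', e2⟩ := exists_XL ({s, t} : Set B) r
    have l1 : len M p = len M p' + len M k1 := by rw [e1, len_XR_mul hp' hk1]
    have l2 : len M r = len M k2 + len M r' := by rw [e2, len_mul_XL hk2 hr']
    have hne1 : 0 < len M k1 := by
      rcases Nat.eq_zero_or_pos (len M k1) with h0 | h0
      · exfalso
        rw [len_eq_zero.1 h0, mul_one] at e1
        rw [e1] at hs
        exact mem_XR.1 hp' s (Set.mem_insert _ _) hs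
      · exact h0
    have hne2 : 0 < len M k2 := by
      rcases Nat.eq_zero_or_pos (len M k2) with h0 | h0
      · exfalso
        rw [len_eq_zero.1 h0, one_mul] at e2
        rw [e2] at ht
        exact mem_XL.1 hr' t (Set.mem_insert_of_mem _ rfl) ht
      · exact h0
    rw [e1, e2]
    refine lift hC (Sp_pair β s t) (Set.empty_subset _) hk1 (he k1) hk2 (he' k2) (one_mem _) hp' hr'
      fun c hc hl => ?_
    rw [len_one, add_zero] at hl
    rcases Nat.lt_or_ge (len M c) 2 with h3 | h3
    · exact hI _ (Sp_pair β s t) p' hp' c hc r' hr' (by omega)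
    · exact cl_G hC hI hT (Sp_pair β s t) hp' hc hr' h3 (by omega)

/-- PROOF. `cl_G`, `cl_S` (`XR_mono`), `cl_E`. -/
theorem ih_step (hC : Ctx β la F κ T0 N G) {n : ℕ} (hI : IH β F la κ G n)
    (hT : TB F T0 (n + 1)) : IH β F la κ G (n + 1) := by
  intro X hX p hp u hu r hr hn
  rcases Nat.lt_or_ge (len M u) 2 with h3 | h3
  · rcases Nat.eq_zero_or_pos (len M u) with h0 | h0
    · rw [len_eq_zero.1 h0]
      exact cl_E hC hI hT (by omega)
    · obtain ⟨s, hs, rfl⟩ := len_one_par hu (by omega)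
      rw [len_sm] at hn
      have hQ : ({s} : Set B) ⊆ X := Set.singleton_subset_iff.2 hs
      exact cl_S hC hI hT (XR_mono hQ hp) (XL_mono hQ hr) (by omega)
  · exact cl_G hC hI hT hX hp hu hr h3 (by omega)

/-- The main theorem. PROOF. Induction. -/
theorem ih_all (hC : Ctx β la F κ T0 N G) (hT : ∀ n, TB F T0 n) (n : ℕ) :
    IH β F la κ G n := by
  induction n with
  | zero => exact fun X _ p _ u _ r _ h => absurd h (Nat.not_lt_zero _)
  | succ n ih => exact ih_step hC ih (hT (n + 1))

theorem clm_all (hC : Ctx β la F κ T0 N G) (hT : ∀ n, TB F T0 n) (hX : Sp β X)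
    {p u r : M.Group} (hp : p ∈ XR M X) (hu : u ∈ par M X) (hr : r ∈ XL M X) :
    Clm F la κ G p u r :=
  ih_all hC hT (len M p + len M u + len M r + 1) X hX p hp u hu r hr (Nat.lt_succ_self _)

end st

end Pool.Agent.Helper63.LG
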